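import Pool.Agent.Work.MP_2a78db_gt.D2Z

/-!
The index function on equivariant projections over the 9-sphere.
-/

namespace Pool.Agent.Work.MP_2a78db_gt

open Matrix Filter Topology ComplexConjugate

namespace D2

noncomputable section

set_option linter.unusedSectionVars false

variable {ι κ : Type} [Fintype ι] [DecidableEq ι] [Fintype κ] [DecidableEq κ]

/-! ### Degree parts in terms of products -/

theorem gg_all {v : ι → ℤ × ℤ} {B : Matrix ι ι C(S9 × S9, ℂ)} (hB : Q2.Pr v B) (u x : ℤ → ℤ)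
    (h : ∀ᶠ γ : ℤ × ℤ in l2, (Q2.hh (fun i => γ + v i) B : ℤ) = u γ.1 * x γ.2) :
    ∀ᶠ γ : ℤ × ℤ in l2, (gg Even v B γ : ℤ) - gg (fun k => ¬ Even k) v B γ =
      SS u x γ.1 γ.2 := by
  have sh : ∀ c : ℤ × ℤ, Tendsto (fun γ => γ + c) l2 l2 := Q2.shift
  have hk : ∀ k : ℕ, ∀ᶠ γ : ℤ × ℤ in l2,
      (Q2.hh (fun i => γ + (k • ((1, 0) : ℤ × ℤ) + v i)) B : ℤ) = u (γ.1 + k) * x γ.2 := by
    intro k
    filter_upwards [(sh (k • ((1, 0) : ℤ × ℤ))).eventually h] with γ h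
    have e : (fun i => γ + (k • ((1, 0) : ℤ × ℤ) + v i)) =
        fun i => γ + k • ((1, 0) : ℤ × ℤ) + v i := by
      funext i; rw [add_assoc]
    rw [e, h]
    simp
  have g0 : ∀ᶠ γ : ℤ × ℤ in l2, (gg (fun j => j = 0) v B γ : ℤ) = u γ.1 * x γ.2 := by
    filter_upwards [gg_zero hB, hk 0] with γ h1 h2
    rw [h1, h2]; simp
  have g1 : ∀ᶠ γ : ℤ × ℤ in l2, (gg (fun j => j = 1) v B γ : ℤ) =
      u (γ.1 + 1) * (5 * x γ.2 - x (γ.2 + 1)) := by
    filter_upwards [gg_rec 0 hB, hk 1, (sh (1, 1)).eventually g0] with γ h1 h2 h3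
    simp only [Nat.zero_add, Prod.fst_add, Prod.snd_add, Nat.choose_one_right, Nat.cast_one,
      Nat.cast_ofNat] at h1 h2 h3
    rw [h2, h3] at h1
    linear_combination h1
  have g2 : ∀ᶠ γ : ℤ × ℤ in l2, (gg (fun j => j = 2) v B γ : ℤ) =
      u (γ.1 + 2) * (10 * x γ.2 - 5 * x (γ.2 + 1) + x (γ.2 + 2)) := by
    filter_upwards [gg_rec 1 hB, hk 2, (sh (1, 1)).eventually g1] with γ h1 h2 h3
    norm_num [Nat.choose, add_assoc] at h1 h2 h3
    rw [h2, h3] at h1
    linear_combination h1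
  have g3 : ∀ᶠ γ : ℤ × ℤ in l2, (gg (fun j => j = 3) v B γ : ℤ) =
      u (γ.1 + 3) * (10 * x γ.2 - 10 * x (γ.2 + 1) + 5 * x (γ.2 + 2) - x (γ.2 + 3)) := by
    filter_upwards [gg_rec 2 hB, hk 3, (sh (1, 1)).eventually g2] with γ h1 h2 h3
    norm_num [Nat.choose, add_assoc] at h1 h2 h3
    rw [h2, h3] at h1
    linear_combination h1
  have g4 : ∀ᶠ γ : ℤ × ℤ in l2, (gg (fun j => j = 4) v B γ : ℤ) =
      u (γ.1 + 4) * (5 * x γ.2 - 10 * x (γ.2 + 1) + 10 * x (γ.2 + 2) - 5 * x (γ.2 + 3) +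
        x (γ.2 + 4)) := by
    filter_upwards [gg_rec 3 hB, hk 4, (sh (1, 1)).eventually g3] with γ h1 h2 h3
    norm_num [Nat.choose, add_assoc] at h1 h2 h3
    rw [h2, h3] at h1
    linear_combination h1
  have g5 : ∀ᶠ γ : ℤ × ℤ in l2, (gg (fun j => j = 5) v B γ : ℤ) =
      u (γ.1 + 5) * (x γ.2 - 5 * x (γ.2 + 1) + 10 * x (γ.2 + 2) - 10 * x (γ.2 + 3) +
        5 * x (γ.2 + 4) - x (γ.2 + 5)) := by
    filter_upwards [gg_rec 4 hB, hk 5, (sh (1, 1)).eventually g4] with γ h1 h2 h3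
    norm_num [Nat.choose, add_assoc] at h1 h2 h3
    rw [h2, h3] at h1
    linear_combination h1
  filter_upwards [g0, g1, g2, g3, g4, g5, gg_sum Even hB, gg_sum (fun k => ¬ Even k) hB] with γ
    h0 h1 h2 h3 h4 h5 he ho
  have fe : (Finset.range 6).filter Even = {0, 2, 4} := by decide
  have fo : (Finset.range 6).filter (fun k => ¬ Even k) = {1, 3, 5} := by decide
  rw [he, ho, fe, fo]
  rw [Finset.sum_insert (by decide), Finset.sum_insert (by decide), Finset.sum_singleton,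
    Finset.sum_insert (by decide), Finset.sum_insert (by decide), Finset.sum_singleton]
  push_cast
  rw [h0, h1, h2, h3, h4, h5]
  unfold SS
  ring

/-! ### The index function for symbols -/

/-- rank sequence -/
def hq (w : ι → ℤ) (P : Matrix ι ι C(S9, ℂ)) (m : ℤ) : ℤ := Q1.hh (fun i => m + w i) P

/-- index function -/
def qq (w : ι → ℤ) (P : Matrix ι ι C(S9, ℂ)) : ℤ → ℤ := ext (hq w P)

theorem hq_koszul {w : ι → ℤ} {P : Matrix ι ι C(S9, ℂ)} (hP : Q1.Pr w P) :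
    ∀ᶠ m in atTop, D5 (hq w P) m = 0 := by
  have h := Quant.koszul (Q := Q1) 1 zc zc_mem_W1 sum_zc hP
  have h' : ∀ᶠ m : ℤ in atTop, _ := h
  filter_upwards [h'] with m hm
  unfold D5 hq
  have e : ∀ k : ℕ, (fun i => m + (k • (1 : ℤ) + w i)) = fun i => m + (k : ℤ) + w i := by
    intro k
    funext i
    simp; ring
  rw [e, e, e, e, e, e] at hm
  simpa using hm

theorem qq_spec {w : ι → ℤ} {P : Matrix ι ι C(S9, ℂ)} (hP : Q1.Pr w P) :
    (∀ m, D5 (qq w P) m = 0) ∧ ∀ᶠ m in atTop, qq w P m = hq w P m :=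
  ext_spec _ (hq_koszul hP)

theorem qq_add {w : ι → ℤ} {P R : Matrix ι ι C(S9, ℂ)} (hP : Q1.Pr w P) (hR : Q1.Pr w R)
    (h : P * R = 0) (m : ℤ) : qq w (P + R) m = qq w P m + qq w R m := by
  have h' : R * P = 0 := by
    have := congrArg conjTranspose h
    rwa [conjTranspose_mul, hP.star, hR.star, conjTranspose_zero] at this
  have hS : Q1.Pr w (P + R) := by
    refine ⟨hP.hw.add hR.hw, ?_, ?_⟩
    · rw [Matrix.mul_add, Matrix.add_mul, Matrix.add_mul, hP.mul, hR.mul, h, h']; simp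
    · rw [conjTranspose_add, hP.star, hR.star]
  obtain ⟨a1, a2⟩ := qq_spec hP
  obtain ⟨b1, b2⟩ := qq_spec hR
  obtain ⟨c1, c2⟩ := qq_spec hS
  refine D5_unique _ (fun m => qq w P m + qq w R m) c1 (fun m => ?_) ?_ m
  · have := a1 m
    have := b1 m
    unfold D5 at *
    linarith
  · have h1 : ∀ᶠ m : ℤ in atTop, _ := Quant.hh_add hP hR h
    filter_upwards [a2, b2, c2, h1] with m a2 b2 c2 h1
    rw [a2, b2, c2]
    unfold hq
    rw [h1]
    push_cast
    rfl

theorem qq_eq {w : ι → ℤ} {w' : κ → ℤ} {P : Matrix ι ι C(S9, ℂ)} {R : Matrix κ κ C(S9, ℂ)}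
    (hP : Q1.Pr w P) (hR : Q1.Pr w' R) (X : Matrix κ ι C(S9, ℂ)) (Y : Matrix ι κ C(S9, ℂ))
    (hX : Q1.HW w' w X) (hY : Q1.HW w w' Y) (h : Y * X = P) (h' : X * Y = R) (m : ℤ) :
    qq w P m = qq w' R m := by
  obtain ⟨a1, a2⟩ := qq_spec hP
  obtain ⟨b1, b2⟩ := qq_spec hR
  refine D5_unique _ _ a1 b1 ?_ m
  have h1 : ∀ᶠ m : ℤ in atTop, _ := Quant.hh_eq hP hR X Y hX hY h h'
  filter_upwards [a2, b2, h1] with m a2 b2 h1
  rw [a2, b2]
  unfold hq
  rw [h1]

theorem qq_one (w : ι → ℤ) (m : ℤ) : qq w (1 : Matrix ι ι C(S9, ℂ)) m = ∑ i, dim5 (m + w i) := by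
  obtain ⟨a1, a2⟩ := qq_spec (Quant.Pr.one (Q := Q1) (a := w))
  refine D5_unique _ (fun m => ∑ i, dim5 (m + w i)) a1
    (fun m => D5_sum (fun i m => dim5 (m + w i)) (fun i m => D5_dim5 (w i) m) m) ?_ m
  have h1 : ∀ᶠ m : ℤ in atTop, ∀ i, 0 ≤ m + w i := by
    rw [eventually_all]
    intro i
    filter_upwards [eventually_ge_atTop (-w i)] with m hm
    linarith
  filter_upwards [a2, h1] with m a2 h1
  rw [a2]
  unfold hq
  rw [Quant.hh_one, Nat.cast_sum]
  refine Finset.sum_congr rfl fun i _ => ?_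
  rw [← card_Nn (h1 i)]
  change ((Fintype.card (Nn (m + w i)) : ℕ) : ℤ) = _
  rw [Fintype.card_coe]

theorem Pr_shift' {w : ι → ℤ} {P : Matrix ι ι C(S9, ℂ)} (hP : Q1.Pr w P) (c : ℤ) :
    Q1.Pr (fun i => w i + c) P := by
  have := hP.shift c
  have e : (fun i => c + w i) = fun i => w i + c := by funext i; ring
  rwa [e] at this

theorem qq_shift {w : ι → ℤ} {P : Matrix ι ι C(S9, ℂ)} (hP : Q1.Pr w P) (c : ℤ) (m : ℤ) :
    qq (fun i => w i + c) P m = qq w P (m + c) := by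
  obtain ⟨a1, a2⟩ := qq_spec hP
  obtain ⟨b1, b2⟩ := qq_spec (Pr_shift' hP c)
  refine D5_unique _ (fun m => qq w P (m + c)) b1 (fun m => ?_) ?_ m
  · have := a1 (m + c)
    unfold D5 at *
    have e : ∀ k : ℤ, m + k + c = m + c + k := fun k => by ring
    simp only [e]
    exact this
  · have h1 : Tendsto (fun m : ℤ => m + c) atTop atTop :=
      tendsto_atTop_add_const_right _ c tendsto_id
    filter_upwards [b2, h1.eventually a2] with m b2 a2
    rw [b2, a2]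
    unfold hq
    congr 2
    funext i
    ring

/-- the two bundles in the product -/
theorem prod_z {w : ι → ℤ} {P : Matrix ι ι C(S9, ℂ)} (hP : Q1.Pr w P) :
    ∀ᶠ γ : ℤ × ℤ in l2, (Q2.hh (fun i => γ + vZ w i) (pZ P) : ℤ) = qq w P γ.1 * dim5 γ.2 := by
  have h1 := tendsto_fst (f := (atTop : Filter ℤ)) (g := (atTop : Filter ℤ)) |>.eventually
    (hh2_pu1 hP)
  have h2 := tendsto_fst (f := (atTop : Filter ℤ)) (g := (atTop : Filter ℤ)) |>.eventually
    (qq_spec hP).2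
  have h3 := tendsto_snd (f := (atTop : Filter ℤ)) (g := (atTop : Filter ℤ)) |>.eventually
    (eventually_ge_atTop (0 : ℤ))
  unfold l2
  filter_upwards [h1, h2, h3] with γ h1 h2 h3
  rw [h2, ← card_Nn h3]
  have := h1 γ.2
  unfold hq
  rw [← Nat.cast_mul, ← this]
  rfl

theorem prod_t {w : ι → ℤ} {P : Matrix ι ι C(S9, ℂ)} (hP : Q1.Pr w P) :
    ∀ᶠ γ : ℤ × ℤ in l2, (Q2.hh (fun i => γ + vT w i) (pT P) : ℤ) =
      dim5 γ.1 * qq (fun i => - w i) (P.map cjc) γ.2 := by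
  have h1 := tendsto_snd (f := (atTop : Filter ℤ)) (g := (atTop : Filter ℤ)) |>.eventually
    (hh2_pu2 (pr_cjc hP))
  have h2 := tendsto_snd (f := (atTop : Filter ℤ)) (g := (atTop : Filter ℤ)) |>.eventually
    (qq_spec (pr_cjc hP)).2
  have h3 := tendsto_fst (f := (atTop : Filter ℤ)) (g := (atTop : Filter ℤ)) |>.eventually
    (eventually_ge_atTop (0 : ℤ))
  unfold l2
  filter_upwards [h1, h2, h3] with γ h1 h2 h3
  rw [h2, ← card_Nn h3, mul_comm]
  have := h1 γ.1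
  unfold hq
  rw [← Nat.cast_mul, ← this]
  rfl

theorem qq_dual0 {w : ι → ℤ} {P : Matrix ι ι C(S9, ℂ)} (hP : Q1.Pr w P) :
    qq w P 0 = qq (fun i => - w i) (P.map cjc) (-5) := by
  refine dual_of _ _ (qq_spec hP).1 (qq_spec (pr_cjc hP)).1 ?_
  have h1 := gg_all (pZ_pr hP) (qq w P) dim5 (prod_z hP)
  have h2 := gg_all (pT_pr hP) dim5 (qq (fun i => - w i) (P.map cjc)) (prod_t hP)
  have h3 : ∀ᶠ γ in l2, _ := main_eq hP
  filter_upwards [h1, h2, h3] with γ h1 h2 h3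
  rw [← h1, ← h2]
  have h4 : (gg Even (vZ w) (pZ P) γ : ℤ) + gg (fun k => ¬ Even k) (vT w) (pT P) γ =
    gg (fun k => ¬ Even k) (vZ w) (pZ P) γ + gg Even (vT w) (pT P) γ := by exact_mod_cast h3
  linarith

theorem qq_dual {w : ι → ℤ} {P : Matrix ι ι C(S9, ℂ)} (hP : Q1.Pr w P) (m : ℤ) :
    qq (fun i => - w i) (P.map star) m = qq w P (-5 - m) := by
  -- compare the two conjugations
  have h0 : ∀ m, qq (fun i => - w i) (P.map star) m = qq (fun i => - w i) (P.map cjc) m := by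
    intro m
    obtain ⟨a1, a2⟩ := qq_spec (pr_star hP)
    obtain ⟨b1, b2⟩ := qq_spec (pr_cjc hP)
    refine D5_unique _ _ a1 b1 ?_ m
    filter_upwards [a2, b2, hh1_cjc (pr_star hP)] with m a2 b2 h
    rw [a2, b2]
    unfold hq
    rw [h]
  rw [h0]
  have h1 := qq_dual0 (Pr_shift' hP (-5 - m))
  rw [qq_shift hP, zero_add] at h1
  rw [h1]
  have h2 := qq_shift (pr_cjc hP) (5 + m) (-5)
  have e : (fun i => -(w i + (-5 - m))) = fun i => - w i + (5 + m) := by funext i; ring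
  rw [e, h2]
  congr 1
  ring

/-! ### Symbols of matrix functions -/

/-- symbol of a matrix function -/
def sy (A : S9 → Matrix κ ι ℂ) : Matrix κ ι C(S9, ℂ) := by
  classical
  exact fun k i => if h : Continuous (fun z => A z k i) then ⟨_, h⟩ else 0

theorem sy_apply {A : S9 → Matrix κ ι ℂ} (hA : Continuous A) (k : κ) (i : ι) (z : S9) :
    sy A k i z = A z k i := by
  have h : Continuous (fun z => A z k i) :=
    (continuous_apply i).comp ((continuous_apply k).comp hA)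
  unfold sy
  rw [dif_pos h]
  rfl

theorem sy_hw {w : ι → ℤ} {w' : κ → ℤ} {A : S9 → Matrix κ ι ℂ} (hA : Eqv w w' A) :
    Q1.HW w' w (sy A) := by
  intro k i
  change sy A k i ∈ W1 _
  intro l z
  rw [sy_apply hA.1, sy_apply hA.1, hA.2]

theorem sy_mul {μ : Type} [Fintype μ] [DecidableEq μ] {A : S9 → Matrix κ ι ℂ}
    {B : S9 → Matrix ι μ ℂ} {C : S9 → Matrix κ μ ℂ} (hA : Continuous A) (hB : Continuous B)
    (hC : Continuous C) (h : ∀ z, A z * B z = C z) : sy A * sy B = sy C := by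
  ext k j z
  rw [sy_apply hC, ← h, Matrix.mul_apply, Matrix.mul_apply, ContinuousMap.coe_sum,
    Finset.sum_apply]
  refine Finset.sum_congr rfl fun i _ => ?_
  rw [ContinuousMap.mul_apply, sy_apply hA, sy_apply hB]

theorem sy_pr {w : ι → ℤ} {P : S9 → Matrix ι ι ℂ} (hP : IsProj w P) : Q1.Pr w (sy P) := by
  refine ⟨sy_hw hP.1, sy_mul hP.1.1 hP.1.1 hP.1.1 fun z => (hP.2 z).1, ?_⟩
  ext i j z
  have h := congrFun (congrFun (hP.2 z).2 i) j
  rw [conjTranspose_apply, ContinuousMap.star_apply, sy_apply hP.1.1, sy_apply hP.1.1, ← h]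
  rfl

end

end D2

open D2 in
/-- INTERFACE THEOREM OF MODULE D2 (index function on equivariant projections). -/
theorem exists_index :
    ∃ q : (ι : Type) → [Fintype ι] → [DecidableEq ι] → (ι → ℤ) → (S9 → Matrix ι ι ℂ) → ℤ → ℤ,
      -- additivity
      (∀ (ι : Type) [Fintype ι] [DecidableEq ι] (w : ι → ℤ) (P Q : S9 → Matrix ι ι ℂ),
        IsProj w P → IsProj w Q → (∀ z, P z * Q z = 0) →
          ∀ m, q ι w (fun z => P z + Q z) m = q ι w P m + q ι w Q m) ∧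
      -- invariance under equivariant equivalence
      (∀ (ι κ : Type) [Fintype ι] [DecidableEq ι] [Fintype κ] [DecidableEq κ]
        (w : ι → ℤ) (w' : κ → ℤ) (P : S9 → Matrix ι ι ℂ) (Q : S9 → Matrix κ κ ℂ)
        (X : S9 → Matrix κ ι ℂ) (Y : S9 → Matrix ι κ ℂ),
        IsProj w P → IsProj w' Q → Eqv w w' X → Eqv w' w Y →
        (∀ z, Y z * X z = P z) → (∀ z, X z * Y z = Q z) → ∀ m, q ι w P m = q κ w' Q m) ∧
      -- normalization
      (∀ (ι : Type) [Fintype ι] [DecidableEq ι] (w : ι → ℤ) (m : ℤ),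
        q ι w (fun _ => 1) m = ∑ i, dim5 (m + w i)) ∧
      -- shift of weights
      (∀ (ι : Type) [Fintype ι] [DecidableEq ι] (w : ι → ℤ) (P : S9 → Matrix ι ι ℂ) (c : ℤ),
        IsProj w P → ∀ m, q ι (fun i => w i + c) P m = q ι w P (m + c)) ∧
      -- duality
      (∀ (ι : Type) [Fintype ι] [DecidableEq ι] (w : ι → ℤ) (P : S9 → Matrix ι ι ℂ),
        IsProj w P → ∀ m, q ι (fun i => - w i) (fun z => (P z).map (starRingEnd ℂ)) m
          = q ι w P (-5 - m)) := by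
  refine ⟨fun ι _ _ w P => qq w (sy P), ?_, ?_, ?_, ?_, ?_⟩
  · intro ι _ _ w P R hP hR h m
    have h1 : sy (fun z => P z + R z) = sy P + sy R := by
      have hc : Continuous (fun z => P z + R z) := hP.1.1.add hR.1.1
      ext i j z
      rw [sy_apply hc, Matrix.add_apply, Matrix.add_apply,
        ContinuousMap.add_apply, sy_apply hP.1.1, sy_apply hR.1.1]
    have h2 : sy P * sy R = 0 := by
      have h3 := sy_mul hP.1.1 hR.1.1 (continuous_const (y := (0 : Matrix ι ι ℂ))) h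
      rw [h3]
      ext i j z
      rw [sy_apply continuous_const]
      rfl
    beta_reduce
    rw [h1]
    exact qq_add (sy_pr hP) (sy_pr hR) h2 m
  · intro ι κ _ _ _ _ w w' P R X Y hP hR hX hY h h' m
    exact qq_eq (sy_pr hP) (sy_pr hR) (sy X) (sy Y) (sy_hw hX) (sy_hw hY)
      (sy_mul hY.1 hX.1 hP.1.1 h) (sy_mul hX.1 hY.1 hR.1.1 h') m
  · intro ι _ _ w m
    have h1 : sy (fun _ : S9 => (1 : Matrix ι ι ℂ)) = 1 := by
      ext i j z
      rw [sy_apply continuous_const, Matrix.one_apply, Matrix.one_apply]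
      split_ifs <;> rfl
    beta_reduce
    rw [h1]
    exact qq_one w m
  · intro ι _ _ w P c hP m
    exact qq_shift (sy_pr hP) c m
  · intro ι _ _ w P hP m
    have h1 : sy (fun z => (P z).map (starRingEnd ℂ)) = (sy P).map star := by
      have hc : Continuous (fun z => (P z).map (starRingEnd ℂ)) :=
        hP.1.1.matrix_map Complex.continuous_conj
      ext i j z
      rw [sy_apply hc, Matrix.map_apply, Matrix.map_apply, ContinuousMap.star_apply,
        sy_apply hP.1.1]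
      rfl
    beta_reduce
    rw [h1]
    exact qq_dual (sy_pr hP) m

end Pool.Agent.Work.MP_2a78db_gt
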