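import Pool.Agent.Work.MP_2a78db_gt.D3main
import Pool.Agent.Work.MP_2a78db_gt.D2

/-!
The family of nondegenerate forms on the 9-sphere does not exist.
-/

namespace Pool.Agent.Work.MP_2a78db_gt

theorem no_family (Om : S9 → V5 →L[ℝ] V5 →L[ℝ] ℝ) (u : S9 → V5) : ¬ Family Om u := by
  obtain ⟨q, h1, h2, h3, h4, h5⟩ := exists_index
  exact no_family_of ⟨h1, h2, h3, h4, h5⟩ Om u

end Pool.Agent.Work.MP_2a78db_gt
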