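import Pool.Agent.Work.MP_2a78db_gt.A1c

/-!
Module A1: the compact Hausdorff space with the seven charts.
-/

set_option autoImplicit false

namespace Pool.Agent.Work.MP_2a78db_gt

namespace A1

open scoped Topology

theorem sgA : Sg 1 (-1) := ⟨Or.inl rfl, Or.inr rfl, by norm_num⟩
theorem sgB : Sg (-1) 1 := ⟨Or.inr rfl, Or.inl rfl, by norm_num⟩
theorem sgC : Sg 1 1 := ⟨Or.inl rfl, Or.inl rfl, by norm_num⟩

/-- the charts -/
noncomputable def ech : Ch → OpenPartialHomeomorph M V4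
  | .a => chN 1 (-1) sgA
  | .b => chN (-1) 1 sgB
  | .c => chN 1 1 sgC
  | .B i => chB i

theorem coef_same {n : ℝ} (hn : 0 < 1 + n) :
    1 / (1 - 1 * ((n - 1) / (1 + n))) * (2 / (1 + n)) = 1 := by
  have : 1 - 1 * ((n - 1) / (1 + n)) = 2 / (1 + n) := by field_simp; ring
  rw [this]; field_simp

theorem coef_opp {n : ℝ} (hn : 0 < 1 + n) (h0 : n ≠ 0) :
    1 / (1 - (-1) * ((n - 1) / (1 + n))) * (2 / (1 + n)) = 1 / n := by
  have : 1 - (-1) * ((n - 1) / (1 + n)) = 2 * n / (1 + n) := by field_simp; ring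
  rw [this]; field_simp

/-- the general transition computation -/
theorem trans_gen {σ ρ s r : ℝ} {z : V4} {A : Fin 4 → Fin 4 → ℂ} {l m : ℝ}
    (h1 : 1 / (1 - σ * s) * (2 / (1 + n3 z)) = l) (h2 : 1 / (1 - ρ * r) * (2 / (1 + n5 z)) = m) :
    toN σ ρ (ptP z, s, r, A) = sc l m z := by
  simp only [toN, ptP]
  rw [sc_sc, h1, h2]

theorem xi_eq_toN (q : E) : xi q = toN (-1) (-1) q := by
  simp only [xi, toN, neg_mul, one_mul, sub_neg_eq_add]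

theorem neg_sel {x : ℝ} (σ ρ : ℝ) (h : ρ * σ = -1) : ρ * (σ * x) = -1 * x := by
  rw [← mul_assoc, h]

theorem pos_sel {x : ℝ} (σ ρ : ℝ) (h : ρ * σ = 1) : ρ * (σ * x) = 1 * x := by
  rw [← mul_assoc, h]

theorem k_same {σ' σ n : ℝ} (hn : 0 < 1 + n) (h : σ' * σ = 1) :
    1 / (1 - σ' * (σ * ((n - 1) / (1 + n)))) * (2 / (1 + n)) = 1 := by
  rw [pos_sel _ _ h]; exact coef_same hn

theorem k_opp {σ' σ n : ℝ} (hn : 0 < 1 + n) (h0 : n ≠ 0) (h : σ' * σ = -1) :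
    1 / (1 - σ' * (σ * ((n - 1) / (1 + n)))) * (2 / (1 + n)) = 1 / n := by
  rw [neg_sel _ _ h]; exact coef_opp hn h0

theorem k_opp' {σ' n : ℝ} (hn : 0 < 1 + n) (h0 : n ≠ 0) (h : σ' = 1) :
    1 / (1 - σ' * (-((n - 1) / (1 + n)))) * (2 / (1 + n)) = 1 / n := by
  have := coef_opp hn h0
  rw [← this, h]; ring

theorem k_same' {σ' n : ℝ} (hn : 0 < 1 + n) (h : σ' = -1) :
    1 / (1 - σ' * (-((n - 1) / (1 + n)))) * (2 / (1 + n)) = 1 := by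
  rw [h, show 1 - -1 * (-((n - 1) / (1 + n))) = 1 - 1 * ((n - 1) / (1 + n)) by ring]
  exact coef_same hn

theorem n5_inv3 (z : V4) : n5 (inv3 z) = n5 z := by rw [inv3_eq, n5_sc]; ring
theorem n3_inv5 (z : V4) : n3 (inv5 z) = n3 z := by rw [inv5_eq, n3_sc]; ring

theorem inv5_inv3 (z : V4) : inv5 (inv3 z) = sc (1 / n3 z) (1 / n5 z) z := by
  rw [inv5_eq, n5_inv3, inv3_eq, sc_sc]; ring_nf

theorem inv3_inv5 (z : V4) : inv3 (inv5 z) = sc (1 / n3 z) (1 / n5 z) z := by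
  rw [inv3_eq, n3_inv5, inv5_eq, sc_sc]; ring_nf

/-- the value `s` or `r` compared with a sign -/
theorem val_ne_same {σ n : ℝ} (hn : 0 < 1 + n) (h : σ * σ = 1) :
    σ * ((n - 1) / (1 + n)) ≠ σ := by
  intro h1
  have hσ : σ ≠ 0 := by rintro rfl; norm_num at h
  have : (n - 1) / (1 + n) = 1 := by apply mul_left_cancel₀ hσ; rw [h1, mul_one]
  exact frac_ne_one hn this

theorem val_ne_opp {σ n : ℝ} (hn : 0 < 1 + n) (h : σ * σ = 1) :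
    σ * ((n - 1) / (1 + n)) ≠ -σ ↔ n ≠ 0 := by
  have hσ : σ ≠ 0 := by rintro rfl; norm_num at h
  rw [not_iff_not]
  constructor
  · intro h1
    have h2 : (n - 1) / (1 + n) = -1 := by apply mul_left_cancel₀ hσ; rw [h1]; ring
    rw [div_eq_iff hn.ne'] at h2
    linarith
  · rintro rfl; ring

theorem fin3 {σ n : ℝ} (hn : 0 < 1 + n) (h : σ = 1) :
    1 + σ * ((n - 1) / (1 + n)) ≠ 0 ↔ n ≠ 0 := by
  rw [← val_ne_opp hn (σ := σ) (by rw [h]; norm_num), not_iff_not, h]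
  constructor <;> intro h1 <;> linarith

theorem fin3' {σ n : ℝ} (hn : 0 < 1 + n) (h : σ = -1) :
    1 + σ * ((n - 1) / (1 + n)) ≠ 0 := by
  rw [h]
  intro h1
  exact frac_ne_one hn (by linarith)

/-- membership in the blow-up chart for points outside of the exceptional divisor -/
theorem diag_ne_iff {q : E} (h : IsM q) (hne : ¬ (q.2.1 = 1 ∧ q.2.2.1 = 1)) (j : Fin 4) :
    q.2.2.2 j j ≠ 0 ↔ (1 + q.2.1 ≠ 0 ∧ 1 + q.2.2.1 ≠ 0) ∧ xi q j ≠ 0 := by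
  have hA := A_unique h hne
  constructor
  · intro hj
    have ht := tau_ne_of_diag h hj
    have hf := fin_of_tau ht
    refine ⟨hf, ?_⟩
    intro h0
    apply hj
    have he : eta q j = 0 := by rw [eta_eq_xi hf, Pi.smul_apply, h0, smul_zero]
    have he' : sc (1 + q.2.2.1) (1 + q.2.1) q.1 j = 0 := he
    rw [hA, Aof, he']
    simp
  · rintro ⟨hf, hx⟩
    have ht : tau q ≠ 0 := by
      unfold tau
      exact div_ne_zero (mul_ne_zero hf.1 hf.2) (by norm_num)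
    have he : eta q j ≠ 0 := by
      rw [eta_eq_xi hf, Pi.smul_apply, smul_eq_mul]
      exact mul_ne_zero (by exact_mod_cast mul_ne_zero (by norm_num) ht) hx
    have he' : sc (1 + q.2.2.1) (1 + q.2.1) q.1 j ≠ 0 := he
    rw [hA, Aof]
    have h0 : 1 - q.2.1 * q.2.2.1 ≠ 0 := by
      intro h0
      have := sr_ne h.s_bound.1 h.s_bound.2 h.r_bound.1 h.r_bound.2 hne h0
      exact hf.1 (by rw [this.1]; norm_num)
    refine div_ne_zero (mul_ne_zero he' ?_) (by exact_mod_cast mul_ne_zero (by norm_num) h0)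
    exact (map_ne_zero (starRingEnd ℂ)).mpr he'

theorem toB_eq {q : E} (h : IsM q) (j : Fin 4) (hj : q.2.2.2 j j ≠ 0) (hx : xi q j ≠ 0) :
    toB j q = blInv j (xi q) := by
  have ht := tau_ne_of_diag h hj
  have hf := fin_of_tau ht
  funext m
  unfold toB blInv
  split_ifs with h1
  · rfl
  · have hl := h.line j j m
    rw [eta_eq_xi hf] at hl
    simp only [Pi.smul_apply, smul_eq_mul] at hl
    have h4 : ((4 * tau q : ℝ) : ℂ) ≠ 0 := by exact_mod_cast mul_ne_zero (by norm_num) ht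
    rw [div_eq_div_iff hj hx]
    apply mul_left_cancel₀ h4
    linear_combination -hl

theorem not_both {σ ρ : ℝ} (h : Sg σ ρ) (z : V4) :
    ¬ ((ptN σ ρ z).2.1 = 1 ∧ (ptN σ ρ z).2.2.1 = 1) := by
  rintro ⟨c1, c2⟩
  have h12 := ptN_fst_ne h z
  rcases h.s with hσ | hσ
  · exact h12.1 (by rw [c1, hσ])
  · rcases h.r with hρ | hρ
    · exact h12.2 (by rw [c2, hρ])
    · exact h.ne ⟨hσ, hρ⟩

theorem dom_a (z : V4) : (1 + (ptN 1 (-1) z).2.1 ≠ 0 ∧ 1 + (ptN 1 (-1) z).2.2.1 ≠ 0) ↔ n3 z ≠ 0 := by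
  have h3 := one_add_n3 z
  have h5 := one_add_n5 z
  simp only [ptN]
  rw [fin3 h3 rfl]
  exact ⟨fun h => h.1, fun h => ⟨h, fin3' h5 rfl⟩⟩

theorem dom_b (z : V4) : (1 + (ptN (-1) 1 z).2.1 ≠ 0 ∧ 1 + (ptN (-1) 1 z).2.2.1 ≠ 0) ↔ n5 z ≠ 0 := by
  have h3 := one_add_n3 z
  have h5 := one_add_n5 z
  simp only [ptN]
  rw [fin3 h5 rfl]
  exact ⟨fun h => h.2, fun h => ⟨fin3' h3 rfl, h⟩⟩

theorem dom_c (z : V4) : (1 + (ptN 1 1 z).2.1 ≠ 0 ∧ 1 + (ptN 1 1 z).2.2.1 ≠ 0) ↔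
    (n3 z ≠ 0 ∧ n5 z ≠ 0) := by
  have h3 := one_add_n3 z
  have h5 := one_add_n5 z
  simp only [ptN]
  rw [fin3 h3 rfl, fin3 h5 rfl]

theorem xi_a {z : V4} (h : n3 z ≠ 0) : xi (ptN 1 (-1) z) = inv3 z := by
  rw [xi_eq_toN, ptN, trans_gen (k_opp (one_add_n3 z) h (by norm_num))
    (k_same (one_add_n5 z) (by norm_num)), inv3_eq]

theorem xi_b {z : V4} (h : n5 z ≠ 0) : xi (ptN (-1) 1 z) = inv5 z := by
  rw [xi_eq_toN, ptN, trans_gen (k_same (one_add_n3 z) (by norm_num))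
    (k_opp (one_add_n5 z) h (by norm_num)), inv5_eq]

theorem xi_c {z : V4} (h : n3 z ≠ 0) (h' : n5 z ≠ 0) : xi (ptN 1 1 z) = inv3 (inv5 z) := by
  rw [xi_eq_toN, ptN, trans_gen (k_opp (one_add_n3 z) h (by norm_num))
    (k_opp (one_add_n5 z) h' (by norm_num)), inv3_inv5]

theorem bl_ne {i : Fin 4} {w : V4} (h : n3 (bl i w) ≠ 0 ∨ n5 (bl i w) ≠ 0) : w i ≠ 0 := by
  intro h0
  have hz : bl i w = 0 := by
    funext j
    rw [bl_eq, h0, zero_mul]; rfl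
  rw [hz] at h
  rcases h with h | h
  · exact h (by simp [n3])
  · exact h (by simp [n5])

theorem valB_ne_one {n : ℝ} (hn : 0 < 1 + n) : -((n - 1) / (1 + n)) ≠ 1 ↔ n ≠ 0 := by
  rw [← val_ne_opp hn (σ := -1) (by norm_num)]
  norm_num

theorem valB_ne_neg {n : ℝ} (hn : 0 < 1 + n) : -((n - 1) / (1 + n)) ≠ -1 := by
  intro h
  exact frac_ne_one hn (by linarith)

theorem overlap_NN (z : V4) :
    ((ptN 1 (-1) z).2.1 ≠ 1 ∧ (ptN 1 (-1) z).2.2.1 ≠ 1 ↔ n5 z ≠ 0) ∧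
    ((ptN 1 1 z).2.1 ≠ 1 ∧ (ptN 1 1 z).2.2.1 ≠ -1 ↔ n5 z ≠ 0) ∧
    ((ptN (-1) 1 z).2.1 ≠ 1 ∧ (ptN (-1) 1 z).2.2.1 ≠ 1 ↔ n3 z ≠ 0) ∧
    ((ptN 1 1 z).2.1 ≠ -1 ∧ (ptN 1 1 z).2.2.1 ≠ 1 ↔ n3 z ≠ 0) ∧
    ((ptN 1 (-1) z).2.1 ≠ -1 ∧ (ptN 1 (-1) z).2.2.1 ≠ 1 ↔ n3 z ≠ 0 ∧ n5 z ≠ 0) ∧
    ((ptN (-1) 1 z).2.1 ≠ 1 ∧ (ptN (-1) 1 z).2.2.1 ≠ -1 ↔ n3 z ≠ 0 ∧ n5 z ≠ 0) := by
  have h3 := one_add_n3 z
  have h5 := one_add_n5 z
  have a1 : (1 : ℝ) * ((n3 z - 1) / (1 + n3 z)) ≠ 1 := val_ne_same h3 (by norm_num)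
  have a2 : (1 : ℝ) * ((n5 z - 1) / (1 + n5 z)) ≠ 1 := val_ne_same h5 (by norm_num)
  have b1 : (1 : ℝ) * ((n3 z - 1) / (1 + n3 z)) ≠ -1 ↔ n3 z ≠ 0 := val_ne_opp h3 (by norm_num)
  have b2 : (1 : ℝ) * ((n5 z - 1) / (1 + n5 z)) ≠ -1 ↔ n5 z ≠ 0 := val_ne_opp h5 (by norm_num)
  have c1 : (-1 : ℝ) * ((n3 z - 1) / (1 + n3 z)) ≠ 1 ↔ n3 z ≠ 0 := by
    have := val_ne_opp h3 (σ := -1) (by norm_num)
    rwa [neg_neg] at this
  have c2 : (-1 : ℝ) * ((n5 z - 1) / (1 + n5 z)) ≠ 1 ↔ n5 z ≠ 0 := by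
    have := val_ne_opp h5 (σ := -1) (by norm_num)
    rwa [neg_neg] at this
  simp only [ptN]
  tauto

theorem overlap_ech (k l : Ch) : (ech k).symm ⁻¹' (ech l).source = O k l := by
  ext z
  have hNN := overlap_NN z
  have h3 := one_add_n3 z
  have h5 := one_add_n5 z
  match k, l with
  | .a, .a =>
    change ((ptN 1 (-1) z).2.1 ≠ 1 ∧ (ptN 1 (-1) z).2.2.1 ≠ -1) ↔ True
    exact iff_true_intro (ptN_fst_ne sgA z)
  | .b, .b =>
    change ((ptN (-1) 1 z).2.1 ≠ -1 ∧ (ptN (-1) 1 z).2.2.1 ≠ 1) ↔ True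
    exact iff_true_intro (ptN_fst_ne sgB z)
  | .c, .c =>
    change ((ptN 1 1 z).2.1 ≠ 1 ∧ (ptN 1 1 z).2.2.1 ≠ 1) ↔ True
    exact iff_true_intro (ptN_fst_ne sgC z)
  | .a, .c => exact hNN.1
  | .c, .a => exact hNN.2.1
  | .b, .c => exact hNN.2.2.1
  | .c, .b => exact hNN.2.2.2.1
  | .a, .b =>
    change ((ptN 1 (-1) z).2.1 ≠ -1 ∧ (ptN 1 (-1) z).2.2.1 ≠ 1) ↔ n3 z ≠ 0 ∧ n5 (inv3 z) ≠ 0
    rw [n5_inv3]
    exact hNN.2.2.2.2.1
  | .b, .a =>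
    change ((ptN (-1) 1 z).2.1 ≠ 1 ∧ (ptN (-1) 1 z).2.2.1 ≠ -1) ↔ n5 z ≠ 0 ∧ n3 (inv5 z) ≠ 0
    rw [n3_inv5, and_comm (a := n5 z ≠ 0)]
    exact hNN.2.2.2.2.2
  | .a, .B j =>
    change (ptN 1 (-1) z).2.2.2 j j ≠ 0 ↔ n3 z ≠ 0 ∧ inv3 z j ≠ 0
    rw [diag_ne_iff (isM_ptN sgA z) (not_both sgA z) j, dom_a]
    constructor
    · rintro ⟨h1, h2⟩; rw [xi_a h1] at h2; exact ⟨h1, h2⟩
    · rintro ⟨h1, h2⟩; rw [xi_a h1]; exact ⟨h1, h2⟩
  | .b, .B j =>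
    change (ptN (-1) 1 z).2.2.2 j j ≠ 0 ↔ n5 z ≠ 0 ∧ inv5 z j ≠ 0
    rw [diag_ne_iff (isM_ptN sgB z) (not_both sgB z) j, dom_b]
    constructor
    · rintro ⟨h1, h2⟩; rw [xi_b h1] at h2; exact ⟨h1, h2⟩
    · rintro ⟨h1, h2⟩; rw [xi_b h1]; exact ⟨h1, h2⟩
  | .c, .B j =>
    change (ptN 1 1 z).2.2.2 j j ≠ 0 ↔ (n3 z ≠ 0 ∧ n5 z ≠ 0) ∧ inv3 (inv5 z) j ≠ 0
    rw [diag_ne_iff (isM_ptN sgC z) (not_both sgC z) j, dom_c]
    constructor
    · rintro ⟨h1, h2⟩; rw [xi_c h1.1 h1.2] at h2; exact ⟨h1, h2⟩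
    · rintro ⟨h1, h2⟩; rw [xi_c h1.1 h1.2]; exact ⟨h1, h2⟩
  | .B i, .a =>
    change ((ptB i z).2.1 ≠ 1 ∧ (ptB i z).2.2.1 ≠ -1) ↔ z i ≠ 0 ∧ n3 (bl i z) ≠ 0
    simp only [ptB]
    rw [valB_ne_one (one_add_n3 _)]
    exact ⟨fun h => ⟨bl_ne (Or.inl h.1), h.1⟩, fun h => ⟨h.2, valB_ne_neg (one_add_n5 _)⟩⟩
  | .B i, .b =>
    change ((ptB i z).2.1 ≠ -1 ∧ (ptB i z).2.2.1 ≠ 1) ↔ z i ≠ 0 ∧ n5 (bl i z) ≠ 0
    simp only [ptB]
    rw [valB_ne_one (one_add_n5 _)]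
    exact ⟨fun h => ⟨bl_ne (Or.inr h.2), h.2⟩, fun h => ⟨valB_ne_neg (one_add_n3 _), h.2⟩⟩
  | .B i, .c =>
    change ((ptB i z).2.1 ≠ 1 ∧ (ptB i z).2.2.1 ≠ 1) ↔
      z i ≠ 0 ∧ (n3 (bl i z) ≠ 0 ∧ n5 (bl i z) ≠ 0)
    simp only [ptB]
    rw [valB_ne_one (one_add_n3 _), valB_ne_one (one_add_n5 _)]
    exact ⟨fun h => ⟨bl_ne (Or.inl h.1), h⟩, fun h => h.2⟩
  | .B i, .B j =>
    change (ptB i z).2.2.2 j j ≠ 0 ↔ i = j ∨ z j ≠ 0
    have hv := vn_pos i z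
    have h3' := one_add_n3 (bl i z)
    have h5' := one_add_n5 (bl i z)
    have hpos : (0 : ℝ) < 1 / ((1 + n3 (bl i z)) * (1 + n5 (bl i z)) * vn i z) := by positivity
    have hc : ((1 / ((1 + n3 (bl i z)) * (1 + n5 (bl i z)) * vn i z) : ℝ) : ℂ) ≠ 0 := by
      exact_mod_cast hpos.ne'
    simp only [ptB]
    rw [mul_ne_zero_iff, mul_ne_zero_iff]
    have h1 : vv i z j ≠ 0 ↔ i = j ∨ z j ≠ 0 := by
      unfold vv
      split_ifs with h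
      · subst h; simp
      · constructor
        · intro h1; exact Or.inr h1
        · rintro (h1 | h1)
          · exact absurd h1.symm h
          · exact h1
    rw [← h1]
    constructor
    · rintro ⟨_, h, _⟩; exact h
    · intro h; exact ⟨hc, h, (map_ne_zero (starRingEnd ℂ)).mpr h⟩

theorem trans_ech (k l : Ch) (z : V4) (hz : z ∈ O k l) : ech l ((ech k).symm z) = T k l z := by
  have hsrc : (ech k).symm z ∈ (ech l).source := by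
    have := overlap_ech k l
    rw [← this] at hz
    exact hz
  have h3 := one_add_n3 z
  have h5 := one_add_n5 z
  match k, l, hz, hsrc with
  | .a, .a, _, _ => exact toN_ptN sgA z
  | .b, .b, _, _ => exact toN_ptN sgB z
  | .c, .c, _, _ => exact toN_ptN sgC z
  | .a, .c, hz, _ =>
    change n5 z ≠ 0 at hz
    change toN 1 1 (ptN 1 (-1) z) = inv5 z
    rw [ptN, trans_gen (k_same h3 (by norm_num)) (k_opp h5 hz (by norm_num)), inv5_eq]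
  | .c, .a, hz, _ =>
    change n5 z ≠ 0 at hz
    change toN 1 (-1) (ptN 1 1 z) = inv5 z
    rw [ptN, trans_gen (k_same h3 (by norm_num)) (k_opp h5 hz (by norm_num)), inv5_eq]
  | .b, .c, hz, _ =>
    change n3 z ≠ 0 at hz
    change toN 1 1 (ptN (-1) 1 z) = inv3 z
    rw [ptN, trans_gen (k_opp h3 hz (by norm_num)) (k_same h5 (by norm_num)), inv3_eq]
  | .c, .b, hz, _ =>
    change n3 z ≠ 0 at hz
    change toN (-1) 1 (ptN 1 1 z) = inv3 z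
    rw [ptN, trans_gen (k_opp h3 hz (by norm_num)) (k_same h5 (by norm_num)), inv3_eq]
  | .a, .b, hz, _ =>
    change n3 z ≠ 0 ∧ n5 (inv3 z) ≠ 0 at hz
    rw [n5_inv3] at hz
    change toN (-1) 1 (ptN 1 (-1) z) = inv5 (inv3 z)
    rw [ptN, trans_gen (k_opp h3 hz.1 (by norm_num)) (k_opp h5 hz.2 (by norm_num)), inv5_inv3]
  | .b, .a, hz, _ =>
    change n5 z ≠ 0 ∧ n3 (inv5 z) ≠ 0 at hz
    rw [n3_inv5] at hz
    change toN 1 (-1) (ptN (-1) 1 z) = inv3 (inv5 z)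
    rw [ptN, trans_gen (k_opp h3 hz.2 (by norm_num)) (k_opp h5 hz.1 (by norm_num)), inv3_inv5]
  | .a, .B j, hz, hs =>
    change n3 z ≠ 0 ∧ inv3 z j ≠ 0 at hz
    change (ptN 1 (-1) z).2.2.2 j j ≠ 0 at hs
    change toB j (ptN 1 (-1) z) = blInv j (inv3 z)
    rw [toB_eq (isM_ptN sgA z) j hs (by rw [xi_a hz.1]; exact hz.2), xi_a hz.1]
  | .b, .B j, hz, hs =>
    change n5 z ≠ 0 ∧ inv5 z j ≠ 0 at hz
    change (ptN (-1) 1 z).2.2.2 j j ≠ 0 at hs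
    change toB j (ptN (-1) 1 z) = blInv j (inv5 z)
    rw [toB_eq (isM_ptN sgB z) j hs (by rw [xi_b hz.1]; exact hz.2), xi_b hz.1]
  | .c, .B j, hz, hs =>
    change (n3 z ≠ 0 ∧ n5 z ≠ 0) ∧ inv3 (inv5 z) j ≠ 0 at hz
    change (ptN 1 1 z).2.2.2 j j ≠ 0 at hs
    change toB j (ptN 1 1 z) = blInv j (inv3 (inv5 z))
    rw [toB_eq (isM_ptN sgC z) j hs (by rw [xi_c hz.1.1 hz.1.2]; exact hz.2), xi_c hz.1.1 hz.1.2]
  | .B i, .a, hz, _ =>
    change z i ≠ 0 ∧ n3 (bl i z) ≠ 0 at hz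
    change toN 1 (-1) (ptB i z) = inv3 (bl i z)
    rw [ptB, trans_gen (k_opp' (one_add_n3 _) hz.2 rfl) (k_same' (one_add_n5 _) rfl), inv3_eq]
  | .B i, .b, hz, _ =>
    change z i ≠ 0 ∧ n5 (bl i z) ≠ 0 at hz
    change toN (-1) 1 (ptB i z) = inv5 (bl i z)
    rw [ptB, trans_gen (k_same' (one_add_n3 _) rfl) (k_opp' (one_add_n5 _) hz.2 rfl), inv5_eq]
  | .B i, .c, hz, _ =>
    change z i ≠ 0 ∧ (n3 (bl i z) ≠ 0 ∧ n5 (bl i z) ≠ 0) at hz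
    change toN 1 1 (ptB i z) = inv5 (inv3 (bl i z))
    rw [ptB, trans_gen (k_opp' (one_add_n3 _) hz.2.1 rfl) (k_opp' (one_add_n5 _) hz.2.2 rfl),
      inv5_inv3]
  | .B i, .B j, hz, hs =>
    change i = j ∨ z j ≠ 0 at hz
    change (ptB i z).2.2.2 j j ≠ 0 at hs
    change toB j (ptB i z) = (if i = j then id else blT i j) z
    by_cases hij : i = j
    · subst hij
      rw [if_pos rfl]
      exact toB_ptB i z
    · rw [if_neg hij]
      have hzj : z j ≠ 0 := hz.resolve_left hij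
      have hji : j ≠ i := fun h => hij h.symm
      have hv := vn_pos i z
      have h3' := one_add_n3 (bl i z)
      have h5' := one_add_n5 (bl i z)
      have hpos : (0 : ℝ) < 1 / ((1 + n3 (bl i z)) * (1 + n5 (bl i z)) * vn i z) := by positivity
      have hc : ((1 / ((1 + n3 (bl i z)) * (1 + n5 (bl i z)) * vn i z) : ℝ) : ℂ) ≠ 0 := by
        exact_mod_cast hpos.ne'
      have hvj : vv i z j = z j := by simp [vv, hji]
      have hcj : (starRingEnd ℂ) (z j) ≠ 0 := (map_ne_zero (starRingEnd ℂ)).mpr hzj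
      funext k
      unfold toB blT
      by_cases hk : k = j
      · rw [if_pos hk, if_pos hk, xi_ptB, bl_eq, hvj]
      · rw [if_neg hk, if_neg hk]
        simp only [ptB]
        rw [hvj, mul_div_mul_left _ _ hc, mul_div_mul_right _ _ hcj]
        unfold vv
        split_ifs <;> rfl

theorem cover_ech (q : M) : ∃ k, q ∈ (ech k).source := by
  by_cases h1 : q.1.2.1 = 1
  · by_cases h2 : q.1.2.2.1 = 1
    · have ht : tau q.1 = 1 := by rw [tau, h1, h2]; norm_num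
      have hsum := q.2.trace
      rw [ht] at hsum
      by_contra hcon
      push Not at hcon
      have hz : ∀ i, q.1.2.2.2 i i = 0 := by
        intro i
        by_contra h
        exact hcon (.B i) h
      rw [Finset.sum_eq_zero (fun i _ => hz i)] at hsum
      norm_num at hsum
    · exact ⟨.b, by rw [h1]; norm_num, h2⟩
  · by_cases h2 : q.1.2.2.1 = 1
    · exact ⟨.a, h1, by rw [h2]; norm_num⟩
    · exact ⟨.c, h1, h2⟩

theorem target_ech (k : Ch) : (ech k).target = Set.univ := by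
  cases k <;> rfl

end A1

/-- A1 -/
theorem exists_space : ∃ (M : Type) (_ : TopologicalSpace M),
    T2Space M ∧ CompactSpace M ∧ Nonempty (SpaceData M) :=
  ⟨A1.M, inferInstance, inferInstance, inferInstance,
    ⟨{ e := A1.ech
       target_univ := A1.target_ech
       cover := A1.cover_ech
       overlap := A1.overlap_ech
       trans := fun k l z hz => A1.trans_ech k l z hz }⟩⟩

end Pool.Agent.Work.MP_2a78db_gt
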