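import Pool.Agent.Work.MP_2a78db_gt.Common

/-!
Module A2: a space glued from the seven charts is simply connected.
-/

namespace Pool.Agent.Work.MP_2a78db_gt

open scoped Topology unitInterval

namespace A2

variable {X : Type*} [TopologicalSpace X]

/-- Path connected, and any two paths inside with the same end points are homotopic in `X`. -/
def Good (U : Set X) : Prop :=
  IsPathConnected U ∧ ∀ (x y : X) (p q : Path x y), (∀ t, p t ∈ U) → (∀ t, q t ∈ U) →
    p.Homotopic q

theorem good_of_simplyConnected {U : Set X} (h : IsSimplyConnected U) : Good U := by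
  refine ⟨h.isPathConnected, fun x y p q hp hq => ?_⟩
  have hx : x ∈ U := by simpa using hp 0
  have hy : y ∈ U := by simpa using hp 1
  have : SimplyConnectedSpace U := h
  let p' : Path (⟨x, hx⟩ : U) ⟨y, hy⟩ :=
    { toFun := fun t => ⟨p t, hp t⟩
      source' := by simp
      target' := by simp }
  let q' : Path (⟨x, hx⟩ : U) ⟨y, hy⟩ :=
    { toFun := fun t => ⟨q t, hq t⟩
      source' := by simp
      target' := by simp }
  have h1 : p'.Homotopic q' := SimplyConnectedSpace.paths_homotopic p' q'
  have h2 := h1.map (⟨Subtype.val, continuous_subtype_val⟩ : C(U, X))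
  exact h2

theorem good_union {U V : Set X} (hUo : IsOpen U) (hVo : IsOpen V) (hU : Good U) (hV : Good V)
    (hUV : IsPathConnected (U ∩ V)) : Good (U ∪ V) := by
  classical
  refine ⟨hU.1.union hV.1 hUV.nonempty, ?_⟩
  obtain ⟨b, hb⟩ := hUV.nonempty
  -- chosen paths
  have hS : ∀ z, z ∈ U ∪ V → ∃ s : Path b z, (z ∈ U → ∀ t, s t ∈ U) ∧ (z ∈ V → ∀ t, s t ∈ V) := by
    intro z hz
    by_cases h1 : z ∈ U
    · by_cases h2 : z ∈ V
      · have := hUV.joinedIn b hb z ⟨h1, h2⟩
        exact ⟨this.somePath, fun _ t => (this.somePath_mem t).1, fun _ t => (this.somePath_mem t).2⟩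
      · have := hU.1.joinedIn b hb.1 z h1
        exact ⟨this.somePath, fun _ t => this.somePath_mem t, fun h => absurd h h2⟩
    · have h2 : z ∈ V := hz.resolve_left h1
      have := hV.1.joinedIn b hb.2 z h2
      exact ⟨this.somePath, fun h => absurd h h1, fun _ t => this.somePath_mem t⟩
  choose S hSU hSV using hS
  -- key claim
  have key : ∀ {x y : X} (p : Path x y) (hp : ∀ t, p t ∈ U ∪ V) (hx : x ∈ U ∪ V) (hy : y ∈ U ∪ V),
      (Path.Homotopic.Quotient.mk p) =
        (Path.Homotopic.Quotient.mk (S x hx)).symm.trans (Path.Homotopic.Quotient.mk (S y hy)) := by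
    intro x y p hp hx hy
    let c : Bool → Set I := fun i => if i then p ⁻¹' U else p ⁻¹' V
    obtain ⟨t, ht0, htm, ⟨n, hn⟩, hc⟩ := exists_monotone_Icc_subset_open_cover_unitInterval
      (c := c) (by
        intro i
        cases i
        · exact hVo.preimage p.continuous
        · exact hUo.preimage p.continuous) (by
        intro s _
        rcases hp s with h | h
        · exact Set.mem_iUnion.2 ⟨true, h⟩
        · exact Set.mem_iUnion.2 ⟨false, h⟩)
    have step : ∀ m, Path.Homotopic.Quotient.mk (p.subpath (t 0) (t m)) =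
        (Path.Homotopic.Quotient.mk (S (p (t 0)) (hp _))).symm.trans
          (Path.Homotopic.Quotient.mk (S (p (t m)) (hp _))) := by
      intro m
      induction m with
      | zero => simp
      | succ m ih =>
        have h1 : Path.Homotopic.Quotient.mk (p.subpath (t 0) (t (m + 1))) =
            (Path.Homotopic.Quotient.mk (p.subpath (t 0) (t m))).trans
              (Path.Homotopic.Quotient.mk (p.subpath (t m) (t (m + 1)))) := by
          rw [← Path.Homotopic.Quotient.mk_trans]
          exact (Path.Homotopic.Quotient.eq.2 ⟨Path.Homotopy.subpathTransSubpath p _ _ _⟩).symm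
        have h2 : Path.Homotopic.Quotient.mk (p.subpath (t m) (t (m + 1))) =
            (Path.Homotopic.Quotient.mk (S (p (t m)) (hp _))).symm.trans
              (Path.Homotopic.Quotient.mk (S (p (t (m + 1))) (hp _))) := by
          rw [← Path.Homotopic.Quotient.mk_symm, ← Path.Homotopic.Quotient.mk_trans]
          rw [Path.Homotopic.Quotient.eq]
          have hle : t m ≤ t (m + 1) := htm (Nat.le_succ m)
          have hr : ∀ s, (p.subpath (t m) (t (m + 1))) s ∈ p '' Set.Icc (t m) (t (m + 1)) := by
            intro s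
            rw [← Path.range_subpath_of_le p _ _ hle]
            exact Set.mem_range_self s
          obtain ⟨i, hi⟩ := hc m
          cases i
          · have hm : p (t m) ∈ V := hi ⟨le_refl _, hle⟩
            have hm1 : p (t (m + 1)) ∈ V := hi ⟨hle, le_refl _⟩
            refine hV.2 _ _ _ _ (fun s => ?_) (fun s => ?_)
            · obtain ⟨r, hr1, hr2⟩ := hr s
              rw [← hr2]
              exact hi hr1
            · have : ((S (p (t m)) (hp _)).symm.trans (S (p (t (m + 1))) (hp _))) s ∈
                  Set.range ((S (p (t m)) (hp _)).symm.trans (S (p (t (m + 1))) (hp _))) :=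
                Set.mem_range_self s
              rw [Path.trans_range, Path.symm_range] at this
              rcases this with ⟨r, hr⟩ | ⟨r, hr⟩
              · rw [← hr]
                exact hSV _ _ hm r
              · rw [← hr]
                exact hSV _ _ hm1 r
          · have hm : p (t m) ∈ U := hi ⟨le_refl _, hle⟩
            have hm1 : p (t (m + 1)) ∈ U := hi ⟨hle, le_refl _⟩
            refine hU.2 _ _ _ _ (fun s => ?_) (fun s => ?_)
            · obtain ⟨r, hr1, hr2⟩ := hr s
              rw [← hr2]
              exact hi hr1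
            · have : ((S (p (t m)) (hp _)).symm.trans (S (p (t (m + 1))) (hp _))) s ∈
                  Set.range ((S (p (t m)) (hp _)).symm.trans (S (p (t (m + 1))) (hp _))) :=
                Set.mem_range_self s
              rw [Path.trans_range, Path.symm_range] at this
              rcases this with ⟨r, hr⟩ | ⟨r, hr⟩
              · rw [← hr]
                exact hSU _ _ hm r
              · rw [← hr]
                exact hSU _ _ hm1 r
        rw [h1, ih, h2, Path.Homotopic.Quotient.trans_assoc,
          ← Path.Homotopic.Quotient.trans_assoc (Path.Homotopic.Quotient.mk (S (p (t m)) (hp _))),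
          Path.Homotopic.Quotient.trans_symm, Path.Homotopic.Quotient.refl_trans]
    have hfin := step n
    have e0 : t 0 = 0 := ht0
    have e1 : t n = 1 := hn n le_rfl
    rw [e0, e1] at hfin
    rw [Path.subpath_zero_one] at hfin
    have gen : ∀ (x' y' : X) (hx' : x' = x) (hy' : y' = y) (h0 : x' ∈ U ∪ V) (h1 : y' ∈ U ∪ V),
        Path.Homotopic.Quotient.mk (p.cast hx' hy') =
          (Path.Homotopic.Quotient.mk (S x' h0)).symm.trans
            (Path.Homotopic.Quotient.mk (S y' h1)) →
        Path.Homotopic.Quotient.mk p =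
          (Path.Homotopic.Quotient.mk (S x hx)).symm.trans
            (Path.Homotopic.Quotient.mk (S y hy)) := by
      intro x' y' hx' hy' h0 h1 h
      subst hx' hy'
      exact h
    exact gen _ _ p.source p.target (hp _) (hp _) hfin
  intro x y p q hp hq
  have hx : x ∈ U ∪ V := by simpa using hp 0
  have hy : y ∈ U ∪ V := by simpa using hp 1
  have := (key p hp hx hy).trans (key q hq hx hy).symm
  exact Path.Homotopic.Quotient.eq.1 this

/-- A chart with target everything is simply connected. -/
theorem good_source {E : Type*} [NormedAddCommGroup E] [NormedSpace ℝ E]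
    (e : OpenPartialHomeomorph X E) (h : e.target = Set.univ) : Good e.source := by
  apply good_of_simplyConnected
  have h1 : SimplyConnectedSpace E := SimplyConnectedSpace.ofContractible E
  have h2 : SimplyConnectedSpace (Set.univ : Set E) :=
    (Homeomorph.Set.univ E).toHomotopyEquiv.simplyConnectedSpace
  have h3 : SimplyConnectedSpace e.target := by
    rw [h]
    exact h2
  exact e.toHomeomorphSourceTarget.toHomotopyEquiv.simplyConnectedSpace

/-- Complements of real subspaces on which a complex coordinate vanishes. -/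
theorem pathConnected_compl (E : Submodule ℝ V4) (i : Fin 4) (h : ∀ z ∈ E, z i = 0) :
    IsPathConnected ((E : Set V4)ᶜ) := by
  apply isPathConnected_compl_of_one_lt_codim
  let g : V4 →ₗ[ℝ] ℂ := LinearMap.proj i
  have hg : E ≤ LinearMap.ker g := fun z hz => h z hz
  have hs : Function.Surjective (E.liftQ g hg) := by
    intro c
    refine ⟨Submodule.Quotient.mk (Pi.single i c), ?_⟩
    simp [g]
  have h1 : Module.rank ℝ ℂ ≤ Module.rank ℝ (V4 ⧸ E) := LinearMap.rank_le_of_surjective (E.liftQ g hg) hs
  have h2 : Module.rank ℝ ℂ = 2 := Complex.rank_real_complex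
  rw [h2] at h1
  exact lt_of_lt_of_le (by norm_num) h1

theorem step {M : Type} [TopologicalSpace M] (D : SpaceData M) (k : Ch) {W : Set M}
    (hWo : IsOpen W) (hW : Good W) (S : Set V4) (hS : ∀ z, (D.e k).symm z ∈ W ↔ z ∈ S)
    (hSc : IsPathConnected S) : Good ((D.e k).source ∪ W) := by
  refine good_union (D.e k).open_source hWo (good_source _ (D.target_univ k)) hW ?_
  have h1 : (D.e k).source ∩ W = (D.e k).symm '' S := by
    ext x
    constructor
    · rintro ⟨hx, hxW⟩
      refine ⟨D.e k x, ?_, (D.e k).left_inv hx⟩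
      rw [← hS, (D.e k).left_inv hx]
      exact hxW
    · rintro ⟨z, hz, rfl⟩
      refine ⟨(D.e k).map_target ?_, (hS z).2 hz⟩
      rw [D.target_univ k]
      trivial
  rw [h1]
  refine hSc.image' ((D.e k).continuousOn_symm.mono ?_)
  rw [D.target_univ k]
  exact Set.subset_univ _

theorem mem_source {M : Type} [TopologicalSpace M] (D : SpaceData M) (k l : Ch) (z : V4) :
    (D.e k).symm z ∈ (D.e l).source ↔ z ∈ O k l := by
  rw [← D.overlap k l]
  rfl

theorem n3_eq_zero {z : V4} (h : n3 z = 0) : z 0 = 0 ∧ (z 1).re = 0 := by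
  unfold n3 at h
  have h1 := sq_nonneg (z 0).re
  have h2 := sq_nonneg (z 0).im
  have h3 := sq_nonneg (z 1).re
  have e1 : (z 0).re ^ 2 = 0 := by linarith
  have e2 : (z 0).im ^ 2 = 0 := by linarith
  have e3 : (z 1).re ^ 2 = 0 := by linarith
  exact ⟨Complex.ext (pow_eq_zero_iff (two_ne_zero) |>.1 e1)
    (pow_eq_zero_iff (two_ne_zero) |>.1 e2), pow_eq_zero_iff (two_ne_zero) |>.1 e3⟩

theorem n5_eq_zero {z : V4} (h : n5 z = 0) : (z 1).im = 0 ∧ z 2 = 0 ∧ z 3 = 0 := by
  unfold n5 at h
  have h1 := sq_nonneg (z 1).im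
  have h2 := sq_nonneg (z 2).re
  have h3 := sq_nonneg (z 2).im
  have h4 := sq_nonneg (z 3).re
  have h5 := sq_nonneg (z 3).im
  have e1 : (z 1).im ^ 2 = 0 := by linarith
  have e2 : (z 2).re ^ 2 = 0 := by linarith
  have e3 : (z 2).im ^ 2 = 0 := by linarith
  have e4 : (z 3).re ^ 2 = 0 := by linarith
  have e5 : (z 3).im ^ 2 = 0 := by linarith
  exact ⟨pow_eq_zero_iff (two_ne_zero) |>.1 e1,
    Complex.ext (pow_eq_zero_iff (two_ne_zero) |>.1 e2) (pow_eq_zero_iff (two_ne_zero) |>.1 e3),
    Complex.ext (pow_eq_zero_iff (two_ne_zero) |>.1 e4) (pow_eq_zero_iff (two_ne_zero) |>.1 e5)⟩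

theorem eq_zero_of_n {z : V4} (h3 : n3 z = 0) (h5 : n5 z = 0) (j : Fin 4) : z j = 0 := by
  obtain ⟨a0, a1⟩ := n3_eq_zero h3
  obtain ⟨b1, b2, b3⟩ := n5_eq_zero h5
  fin_cases j
  · exact a0
  · exact Complex.ext a1 b1
  · exact b2
  · exact b3

theorem pc_n5 : IsPathConnected {z : V4 | n5 z ≠ 0} := by
  let E : Submodule ℝ V4 :=
    { carrier := {z | n5 z = 0}
      zero_mem' := by simp [n5]
      add_mem' := by
        intro x y hx hy
        obtain ⟨a1, a2, a3⟩ := n5_eq_zero hx
        obtain ⟨b1, b2, b3⟩ := n5_eq_zero hy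
        simp [n5, a1, a2, a3, b1, b2, b3]
      smul_mem' := by
        intro t x hx
        obtain ⟨a1, a2, a3⟩ := n5_eq_zero hx
        simp [n5, a1, a2, a3] }
  have h := pathConnected_compl E 2 (fun z hz => (n5_eq_zero hz).2.1)
  exact h

theorem pc_n3 : IsPathConnected {z : V4 | n3 z ≠ 0} := by
  let E : Submodule ℝ V4 :=
    { carrier := {z | n3 z = 0}
      zero_mem' := by simp [n3]
      add_mem' := by
        intro x y hx hy
        obtain ⟨a1, a2⟩ := n3_eq_zero hx
        obtain ⟨b1, b2⟩ := n3_eq_zero hy
        simp [n3, a1, a2, b1, b2]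
      smul_mem' := by
        intro t x hx
        obtain ⟨a1, a2⟩ := n3_eq_zero hx
        simp [n3, a1, a2] }
  have h := pathConnected_compl E 0 (fun z hz => (n3_eq_zero hz).1)
  exact h

theorem pc_B (n : ℕ) : IsPathConnected {z : V4 | ∃ i : Fin 4, i.1 ≤ n ∧ z i ≠ 0} := by
  let E : Submodule ℝ V4 :=
    { carrier := {z | ∀ i : Fin 4, i.1 ≤ n → z i = 0}
      zero_mem' := by intro i _; rfl
      add_mem' := by
        intro x y hx hy i hi
        simp [hx i hi, hy i hi]
      smul_mem' := by
        intro t x hx i hi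
        simp [hx i hi] }
  have h := pathConnected_compl E 0 (fun z hz => hz 0 (Nat.zero_le _))
  have h2 : ((E : Set V4)ᶜ) = {z : V4 | ∃ i : Fin 4, i.1 ≤ n ∧ z i ≠ 0} := by
    ext z
    constructor
    · intro hz
      by_contra hcon
      apply hz
      intro i hi
      by_contra h0
      exact hcon ⟨i, hi, h0⟩
    · rintro ⟨i, hi, h0⟩ hz
      exact h0 (hz i hi)
  rw [← h2]
  exact h

end A2

open A2

/-- A2 -/
theorem simplyConnected_of_data {M : Type} [TopologicalSpace M] (D : SpaceData M) :
    SimplyConnectedSpace M := by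
  -- the first three charts
  have g0 : Good (D.e .c).source := good_source _ (D.target_univ _)
  have g1 : Good ((D.e .a).source ∪ (D.e .c).source) := by
    refine step D .a (D.e .c).open_source g0 {z | n5 z ≠ 0} (fun z => ?_) pc_n5
    rw [mem_source]
    rfl
  have g2 : Good ((D.e .b).source ∪ ((D.e .a).source ∪ (D.e .c).source)) := by
    refine step D .b ((D.e .a).open_source.union (D.e .c).open_source) g1 {z | n3 z ≠ 0}
      (fun z => ?_) pc_n3
    have h0 : n3 (inv5 z) = n3 z := by simp [n3, inv5]
    rw [Set.mem_union, mem_source, mem_source]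
    change (n5 z ≠ 0 ∧ n3 (inv5 z) ≠ 0) ∨ n3 z ≠ 0 ↔ n3 z ≠ 0
    rw [h0]
    tauto
  -- the blow-up charts
  let W : ℕ → Set M := fun n =>
    ((D.e .b).source ∪ ((D.e .a).source ∪ (D.e .c).source)) ∪
      ⋃ (i : Fin 4) (_ : i.1 < n), (D.e (.B i)).source
  have hWo : ∀ n, IsOpen (W n) := by
    intro n
    refine ((D.e .b).open_source.union
      ((D.e .a).open_source.union (D.e .c).open_source)).union ?_
    exact isOpen_iUnion fun i => isOpen_iUnion fun _ => (D.e (.B i)).open_source
  have hW : ∀ n, n ≤ 4 → Good (W n) := by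
    intro n
    induction n with
    | zero =>
      intro _
      have : W 0 = ((D.e .b).source ∪ ((D.e .a).source ∪ (D.e .c).source)) := by
        simp [W]
      rw [this]
      exact g2
    | succ n ih =>
      intro hn
      let k : Fin 4 := ⟨n, by omega⟩
      have hstep := step D (.B k) (hWo n) (ih (by omega))
        {z : V4 | ∃ i : Fin 4, i.1 ≤ n ∧ z i ≠ 0} (fun z => by
          change _ ∈ ((D.e .b).source ∪ ((D.e .a).source ∪ (D.e .c).source)) ∪
            ⋃ (i : Fin 4) (_ : i.1 < n), (D.e (.B i)).source ↔ ∃ i : Fin 4, i.1 ≤ n ∧ z i ≠ 0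
          rw [Set.mem_union, Set.mem_union, Set.mem_union, mem_source, mem_source, mem_source]
          simp only [Set.mem_iUnion, mem_source]
          change ((z k ≠ 0 ∧ n5 (bl k z) ≠ 0) ∨ (z k ≠ 0 ∧ n3 (bl k z) ≠ 0) ∨
            (z k ≠ 0 ∧ (n3 (bl k z) ≠ 0 ∧ n5 (bl k z) ≠ 0))) ∨
            (∃ i : Fin 4, ∃ _ : i.1 < n, k = i ∨ z i ≠ 0) ↔ _
          have hbl : z k ≠ 0 → n3 (bl k z) ≠ 0 ∨ n5 (bl k z) ≠ 0 := by
            intro h
            by_contra hcon
            rw [not_or, not_not, not_not] at hcon
            have := eq_zero_of_n hcon.1 hcon.2 k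
            apply h
            simpa [bl] using this
          constructor
          · rintro ((h | h | h) | ⟨i, hi, h⟩)
            · exact ⟨k, le_refl _, h.1⟩
            · exact ⟨k, le_refl _, h.1⟩
            · exact ⟨k, le_refl _, h.1⟩
            · rcases h with h | h
              · exfalso
                rw [← h] at hi
                exact lt_irrefl _ hi
              · exact ⟨i, hi.le, h⟩
          · rintro ⟨i, hi, h⟩
            rcases hi.lt_or_eq with hlt | heq
            · exact Or.inr ⟨i, hlt, Or.inr h⟩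
            · have : i = k := Fin.ext heq
              subst this
              rcases hbl h with h3 | h5
              · exact Or.inl (Or.inr (Or.inl ⟨h, h3⟩))
              · exact Or.inl (Or.inl ⟨h, h5⟩)) (pc_B n)
      have : W (n + 1) = (D.e (.B k)).source ∪ W n := by
        ext x
        simp only [W, Set.mem_union, Set.mem_iUnion]
        constructor
        · rintro (h | ⟨i, hi, h⟩)
          · exact Or.inr (Or.inl h)
          · rcases (Nat.lt_succ_iff.1 hi).lt_or_eq with hlt | heq
            · exact Or.inr (Or.inr ⟨i, hlt, h⟩)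
            · have : i = k := Fin.ext heq
              subst this
              exact Or.inl h
        · rintro (h | h | ⟨i, hi, h⟩)
          · exact Or.inr ⟨k, Nat.lt_succ_self _, h⟩
          · exact Or.inl h
          · exact Or.inr ⟨i, Nat.lt_succ_of_lt hi, h⟩
      rw [this]
      exact hstep
  have huniv : W 4 = Set.univ := by
    refine Set.eq_univ_of_forall fun x => ?_
    obtain ⟨k, hk⟩ := D.cover x
    cases k with
    | a => exact Or.inl (Or.inr (Or.inl hk))
    | b => exact Or.inl (Or.inl hk)
    | c => exact Or.inl (Or.inr (Or.inr hk))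
    | B i => exact Or.inr (Set.mem_iUnion.2 ⟨i, Set.mem_iUnion.2 ⟨i.2, hk⟩⟩)
  have hfin := hW 4 le_rfl
  rw [huniv] at hfin
  rw [simply_connected_iff_paths_homotopic']
  refine ⟨pathConnectedSpace_iff_univ.2 hfin.1, fun p q => ?_⟩
  exact hfin.2 _ _ p q (fun _ => trivial) (fun _ => trivial)

end Pool.Agent.Work.MP_2a78db_gt
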