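import Pool.Agent.Work.MP_2a78db_gt.Common

/-!
Module A3: the transition maps are smooth with open domains, a glued space is a smooth manifold,
and it has a smooth partition of unity subordinate to the charts.
-/

namespace Pool.Agent.Work.MP_2a78db_gt

open scoped Topology ContDiff Manifold

namespace A3

theorem cd_re (i : Fin 4) : ContDiff ℝ ∞ fun z : V4 => (z i).re :=
  Complex.reCLM.contDiff.comp (contDiff_apply ℝ ℂ i)

theorem cd_im (i : Fin 4) : ContDiff ℝ ∞ fun z : V4 => (z i).im :=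
  Complex.imCLM.contDiff.comp (contDiff_apply ℝ ℂ i)

theorem cd_n3 : ContDiff ℝ ∞ n3 := by
  unfold n3
  exact (((cd_re 0).pow 2).add ((cd_im 0).pow 2)).add ((cd_re 1).pow 2)

theorem cd_n5 : ContDiff ℝ ∞ n5 := by
  unfold n5
  exact (((((cd_im 1).pow 2).add ((cd_re 2).pow 2)).add ((cd_im 2).pow 2)).add
    ((cd_re 3).pow 2)).add ((cd_im 3).pow 2)

theorem cd_mk {s : Set V4} {f g : V4 → ℝ} (hf : ContDiffOn ℝ ∞ f s) (hg : ContDiffOn ℝ ∞ g s) :
    ContDiffOn ℝ ∞ (fun z => (⟨f z, g z⟩ : ℂ)) s := by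
  have h := Complex.equivRealProdCLM.symm.contDiff (n := ∞) |>.comp_contDiffOn (hf.prodMk hg)
  exact h

theorem cd_inv3 : ContDiffOn ℝ ∞ inv3 {z | n3 z ≠ 0} := by
  rw [contDiffOn_pi]
  have h : ∀ f : V4 → ℝ, ContDiff ℝ ∞ f → ContDiffOn ℝ ∞ (fun z => f z / n3 z) {z | n3 z ≠ 0} :=
    fun f hf => hf.contDiffOn.div cd_n3.contDiffOn fun z hz => hz
  intro i
  fin_cases i
  · exact cd_mk (h _ (cd_re 0)) (h _ (cd_im 0))
  · exact cd_mk (h _ (cd_re 1)) (cd_im 1).contDiffOn
  · exact (contDiff_apply ℝ ℂ (2 : Fin 4)).contDiffOn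
  · exact (contDiff_apply ℝ ℂ (3 : Fin 4)).contDiffOn

theorem cd_inv5 : ContDiffOn ℝ ∞ inv5 {z | n5 z ≠ 0} := by
  rw [contDiffOn_pi]
  have h : ∀ f : V4 → ℝ, ContDiff ℝ ∞ f → ContDiffOn ℝ ∞ (fun z => f z / n5 z) {z | n5 z ≠ 0} :=
    fun f hf => hf.contDiffOn.div cd_n5.contDiffOn fun z hz => hz
  intro i
  fin_cases i
  · exact (contDiff_apply ℝ ℂ (0 : Fin 4)).contDiffOn
  · exact cd_mk (cd_re 1).contDiffOn (h _ (cd_im 1))
  · exact cd_mk (h _ (cd_re 2)) (h _ (cd_im 2))
  · exact cd_mk (h _ (cd_re 3)) (h _ (cd_im 3))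

theorem cd_bl (i : Fin 4) : ContDiff ℝ ∞ (bl i) := by
  rw [contDiff_pi]
  intro j
  unfold bl
  by_cases hj : j = i
  · simp only [hj, if_true]
    exact contDiff_apply ℝ ℂ i
  · simp only [hj, if_false]
    exact (contDiff_apply ℝ ℂ i).mul (contDiff_apply ℝ ℂ j)

theorem cd_coord_inv {s : Set V4} {i : Fin 4} (hs : ∀ z ∈ s, z i ≠ 0) :
    ContDiffOn ℝ ∞ (fun z : V4 => (z i)⁻¹) s :=
  ContDiffOn.inv (contDiff_apply ℝ ℂ i).contDiffOn hs

theorem cd_blInv (i : Fin 4) : ContDiffOn ℝ ∞ (blInv i) {z | z i ≠ 0} := by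
  rw [contDiffOn_pi]
  intro j
  unfold blInv
  by_cases hj : j = i
  · simp only [hj, if_true]
    exact (contDiff_apply ℝ ℂ i).contDiffOn
  · simp only [hj, if_false, div_eq_mul_inv]
    exact (contDiff_apply ℝ ℂ j).contDiffOn.mul (cd_coord_inv fun z hz => hz)

theorem cd_blT (i j : Fin 4) : ContDiffOn ℝ ∞ (blT i j) {z | z j ≠ 0} := by
  rw [contDiffOn_pi]
  intro k
  unfold blT
  by_cases hj : k = j
  · simp only [hj, if_true]
    exact ((contDiff_apply ℝ ℂ i).mul (contDiff_apply ℝ ℂ j)).contDiffOn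
  · by_cases hi : k = i
    · simp only [hj, hi, if_false, if_true, div_eq_mul_inv, one_mul]
      by_cases hij : i = j
      · exact absurd (hi.trans hij) hj
      · simp only [hij, if_false]
        exact cd_coord_inv fun z hz => hz
    · simp only [hj, hi, if_false, div_eq_mul_inv]
      exact (contDiff_apply ℝ ℂ k).contDiffOn.mul (cd_coord_inv fun z hz => hz)

theorem isOpen_n3 : IsOpen {z : V4 | n3 z ≠ 0} :=
  isOpen_ne.preimage cd_n3.continuous

theorem isOpen_n5 : IsOpen {z : V4 | n5 z ≠ 0} :=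
  isOpen_ne.preimage cd_n5.continuous

theorem isOpen_coord (i : Fin 4) : IsOpen {z : V4 | z i ≠ 0} :=
  isOpen_ne.preimage (continuous_apply i)

theorem isOpen_domXi (k : Ch) : IsOpen (domXi k) := by
  cases k with
  | a => exact isOpen_n3
  | b => exact isOpen_n5
  | c => exact isOpen_n3.inter isOpen_n5
  | B i => exact isOpen_coord i

theorem isOpen_imXi (k : Ch) : IsOpen (imXi k) := by
  cases k with
  | a => exact isOpen_n3
  | b => exact isOpen_n5
  | c => exact isOpen_n3.inter isOpen_n5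
  | B i => exact isOpen_coord i

theorem n3_inv5 (z : V4) : n3 (inv5 z) = n3 z := by
  simp [n3, inv5]

theorem n5_inv3 (z : V4) : n5 (inv3 z) = n5 z := by
  simp [n5, inv3]

theorem n3_inv3 {z : V4} (hz : n3 z ≠ 0) : n3 (inv3 z) = (n3 z)⁻¹ := by
  have h : n3 (inv3 z) = n3 z / (n3 z) ^ 2 := by
    simp only [n3, inv3, Matrix.cons_val_zero, Matrix.cons_val_one, div_pow]
    ring
  rw [h]; field_simp

theorem n5_inv5 {z : V4} (hz : n5 z ≠ 0) : n5 (inv5 z) = (n5 z)⁻¹ := by
  have h : n5 (inv5 z) = n5 z / (n5 z) ^ 2 := by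
    simp only [n5, inv5, Matrix.cons_val, div_pow]
    ring
  rw [h]; field_simp

theorem cd_toXi (k : Ch) : ContDiffOn ℝ ∞ (toXi k) (domXi k) := by
  cases k with
  | a => exact cd_inv3
  | b => exact cd_inv5
  | c =>
    refine cd_inv3.comp (cd_inv5.mono fun z hz => hz.2) fun z hz => ?_
    change n3 (inv5 z) ≠ 0
    rw [n3_inv5]; exact hz.1
  | B i => exact (cd_bl i).contDiffOn

theorem cd_fromXi (k : Ch) : ContDiffOn ℝ ∞ (fromXi k) (imXi k) := by
  cases k with
  | a => exact cd_inv3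
  | b => exact cd_inv5
  | c =>
    refine cd_inv5.comp (cd_inv3.mono fun z hz => hz.1) fun z hz => ?_
    change n5 (inv3 z) ≠ 0
    rw [n5_inv3]; exact hz.2
  | B i => exact cd_blInv i

theorem isOpen_gen (k l : Ch) : IsOpen {z | z ∈ domXi k ∧ toXi k z ∈ imXi l} :=
  (cd_toXi k).continuousOn.isOpen_inter_preimage (isOpen_domXi k) (isOpen_imXi l)

theorem cd_gen (k l : Ch) :
    ContDiffOn ℝ ∞ (fun z => fromXi l (toXi k z)) {z | z ∈ domXi k ∧ toXi k z ∈ imXi l} :=
  (cd_fromXi l).comp ((cd_toXi k).mono fun z hz => hz.1) fun z hz => hz.2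

end A3

/-- A3 -/
theorem isOpen_O (k l : Ch) : IsOpen (O k l) := by
  cases k <;> cases l
  case a.a => exact isOpen_univ
  case b.b => exact isOpen_univ
  case c.c => exact isOpen_univ
  case a.c => exact A3.isOpen_n5
  case c.a => exact A3.isOpen_n5
  case b.c => exact A3.isOpen_n3
  case c.b => exact A3.isOpen_n3
  case a.b => exact A3.isOpen_gen _ _
  case b.a => exact A3.isOpen_gen _ _
  case a.B => exact A3.isOpen_gen _ _
  case b.B => exact A3.isOpen_gen _ _
  case c.B => exact A3.isOpen_gen _ _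
  case B.a => exact A3.isOpen_gen _ _
  case B.b => exact A3.isOpen_gen _ _
  case B.c => exact A3.isOpen_gen _ _
  case B.B i j =>
    by_cases h : i = j
    · have : O (.B i) (.B j) = Set.univ := by
        ext z; simp [O, h]
      rw [this]; exact isOpen_univ
    · have : O (.B i) (.B j) = {z | z j ≠ 0} := by
        ext z; simp [O, h]
      rw [this]; exact A3.isOpen_coord j

/-- A3 -/
theorem contDiffOn_T (k l : Ch) : ContDiffOn ℝ ∞ (T k l) (O k l) := by
  cases k <;> cases l
  case a.a => exact contDiffOn_id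
  case b.b => exact contDiffOn_id
  case c.c => exact contDiffOn_id
  case a.c => exact A3.cd_inv5
  case c.a => exact A3.cd_inv5
  case b.c => exact A3.cd_inv3
  case c.b => exact A3.cd_inv3
  case a.b => exact A3.cd_gen _ _
  case b.a => exact A3.cd_gen _ _
  case a.B => exact A3.cd_gen _ _
  case b.B => exact A3.cd_gen _ _
  case c.B => exact A3.cd_gen _ _
  case B.a => exact A3.cd_gen _ _
  case B.b => exact A3.cd_gen _ _
  case B.c => exact A3.cd_gen _ _
  case B.B i j =>
    by_cases h : i = j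
    · have : T (.B i) (.B j) = id := by simp [T, h]
      rw [this]; exact contDiffOn_id
    · have : T (.B i) (.B j) = blT i j := by simp [T, h]
      rw [this]
      refine (A3.cd_blT i j).mono fun z hz => ?_
      rcases hz with hz | hz
      · exact absurd hz h
      · exact hz

namespace SpaceData

variable {M : Type} [TopologicalSpace M]

/-- The charted space structure of a glued space. -/
@[reducible] noncomputable def chartedSpace (D : SpaceData M) : ChartedSpace V4 M where
  atlas := Set.range D.e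
  chartAt x := D.e (D.cover x).choose
  mem_chart_source x := (D.cover x).choose_spec
  chart_mem_atlas _ := ⟨_, rfl⟩

/-- A glued space is a smooth manifold. -/
theorem isManifold (D : SpaceData M) : @IsManifold ℝ _ V4 _ _ V4 _ 𝓘(ℝ, V4) ∞ M _
    D.chartedSpace := by
  letI := D.chartedSpace
  refine isManifold_of_contDiffOn 𝓘(ℝ, V4) ∞ M ?_
  rintro e e' ⟨k, rfl⟩ ⟨l, rfl⟩
  have hsrc : ((D.e k).symm ≫ₕ (D.e l)).source = O k l := by
    rw [OpenPartialHomeomorph.trans_source, OpenPartialHomeomorph.symm_source, D.target_univ k,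
      Set.univ_inter]
    exact D.overlap k l
  simp only [modelWithCornersSelf_coe, modelWithCornersSelf_coe_symm, Set.range_id,
    Set.inter_univ, Function.comp_id, Function.id_comp, Set.preimage_id, hsrc]
  refine (contDiffOn_T k l).congr fun z hz => ?_
  exact D.trans k l z hz

theorem apply_symm (D : SpaceData M) (k : Ch) (z : V4) : D.e k ((D.e k).symm z) = z :=
  (D.e k).right_inv (by rw [D.target_univ]; trivial)

theorem symm_mem (D : SpaceData M) (k : Ch) (z : V4) : (D.e k).symm z ∈ (D.e k).source :=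
  (D.e k).map_target (by rw [D.target_univ]; trivial)

theorem continuous_symm (D : SpaceData M) (k : Ch) : Continuous (D.e k).symm := by
  have h := (D.e k).continuousOn_symm
  rwa [D.target_univ, continuousOn_univ] at h

theorem symm_trans (D : SpaceData M) (k l : Ch) {z : V4} (hz : z ∈ O k l) :
    (D.e l).symm (T k l z) = (D.e k).symm z := by
  rw [← D.trans k l z hz]
  refine (D.e l).left_inv ?_
  have : z ∈ (D.e k).symm ⁻¹' (D.e l).source := by rw [D.overlap]; exact hz
  exact this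

/-- The inverse charts are smooth. -/
theorem contMDiff_symm (D : SpaceData M) (k : Ch) :
    @ContMDiff ℝ _ V4 _ _ V4 _ 𝓘(ℝ, V4) V4 _ _ V4 _ _ V4 _ 𝓘(ℝ, V4) M _ D.chartedSpace ∞
      (D.e k).symm := by
  letI := D.chartedSpace
  haveI := D.isManifold
  have h : ContMDiffOn 𝓘(ℝ, V4) 𝓘(ℝ, V4) ∞ (D.e k).symm (D.e k).target :=
    contMDiffOn_symm_of_mem_maximalAtlas
      (IsManifold.subset_maximalAtlas (I := 𝓘(ℝ, V4)) (n := ∞) ⟨k, rfl⟩)
  rwa [D.target_univ, contMDiffOn_univ] at h

end SpaceData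

/-- A3 -/
theorem exists_partition {M : Type} [TopologicalSpace M] [T2Space M] [CompactSpace M]
    (D : SpaceData M) :
    ∃ ψ : Ch → Ch → V4 → ℝ, (∀ k l, ContDiff ℝ ∞ (ψ k l)) ∧ (∀ k, HasCompactSupport (ψ k k)) ∧
      (∀ k l, tsupport (ψ k l) ⊆ O l k) ∧ (∀ l z, ∑ k, ψ k l z = 1) ∧
      (∀ k l l', ∀ z ∈ O l l', ψ k l z = ψ k l' (T l l' z)) := by
  letI := D.chartedSpace
  haveI := D.isManifold
  obtain ⟨f, hf⟩ := SmoothPartitionOfUnity.exists_isSubordinate 𝓘(ℝ, V4) (M := M)
    (s := Set.univ) isClosed_univ (fun k : Ch => (D.e k).source)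
    (fun k => (D.e k).open_source) (fun x _ => Set.mem_iUnion.2 (D.cover x))
  refine ⟨fun k l z => f k ((D.e l).symm z), fun k l => ?_, fun k => ?_, fun k l => ?_,
    fun l z => ?_, fun k l l' z hz => ?_⟩
  · have h := (f k).contMDiff.comp (D.contMDiff_symm l)
    exact contMDiff_iff_contDiff.1 h
  · have hK : IsCompact (D.e k '' tsupport (f k)) :=
      (isClosed_tsupport _).isCompact.image_of_continuousOn
        ((D.e k).continuousOn.mono (hf k))
    refine HasCompactSupport.of_support_subset_isCompact hK fun z hz => ?_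
    exact ⟨(D.e k).symm z, subset_tsupport _ hz, D.apply_symm k z⟩
  · refine (tsupport_comp_subset_preimage (f k) (D.continuous_symm l)).trans ?_
    rw [← D.overlap l k]
    exact Set.preimage_mono (hf k)
  · have h := f.sum_eq_one (Set.mem_univ ((D.e l).symm z))
    rwa [finsum_eq_sum_of_fintype] at h
  · change f k _ = f k _
    rw [D.symm_trans l l' hz]

end Pool.Agent.Work.MP_2a78db_gt
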