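import Pool.Agent.Work.MP_2a78db_gt.B1d
import Pool.Agent.Work.MP_2a78db_gt.A3

/-!
Module B1: existence of the closed 2-form `α` with nonpositive fourth power.
-/

namespace Pool.Agent.Work.MP_2a78db_gt

open scoped Topology ContDiff

namespace B1

/-- pullback of the form `be` to the chart `k` -/
noncomputable def pl (k : Ch) (z : V4) : V4 →L[ℝ] ℝ := be (toXi k z) ∘L fderiv ℝ (toXi k) z

/-- closed correction term -/
noncomputable def corr : Ch → V4 → (V4 →L[ℝ] ℝ)
  | .B i => dAr i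
  | _ => fun _ => 0

open Classical in
/-- the potentials -/
noncomputable def potf : Ch → V4 → (V4 →L[ℝ] ℝ)
  | .B i => potB i
  | k => fun z => if z ∈ domXi k then pl k z else 0

theorem potf_eq (k : Ch) {z : V4} (hz : z ∈ domXi k) : potf k z = pl k z - corr k z := by
  cases k with
  | B i => exact potB_eq i hz
  | a => simp [potf, corr, hz]
  | b => simp [potf, corr, hz]
  | c => simp [potf, corr, hz]

theorem nn_toXi_ne (k : Ch) {z : V4} (hz : z ∈ domXi k) : nn (toXi k z) ≠ 0 := by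
  have h3 := n3_nonneg z
  have h5 := n5_nonneg z
  cases k with
  | B i =>
    have hz' : z i ≠ 0 := hz
    have e : nn (toXi (.B i) z) = Complex.normSq (z i) * qf i z := nn_bl i z
    rw [e]
    have h1 : 0 < Complex.normSq (z i) := Complex.normSq_pos.2 hz'
    have h2 := one_le_qf i z
    positivity
  | a =>
    have hz' : n3 z ≠ 0 := hz
    have e : nn (toXi .a z) = (n3 z)⁻¹ + n5 z := by
      rw [nn_eq, toXi, n3_inv3, n5_inv3]
    rw [e]
    have : 0 < n3 z := lt_of_le_of_ne h3 hz'.symm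
    positivity
  | b =>
    have hz' : n5 z ≠ 0 := hz
    have e : nn (toXi .b z) = n3 z + (n5 z)⁻¹ := by
      rw [nn_eq, toXi, n3_inv5, n5_inv5]
    rw [e]
    have : 0 < n5 z := lt_of_le_of_ne h5 hz'.symm
    positivity
  | c =>
    have hz' : n3 z ≠ 0 ∧ n5 z ≠ 0 := hz
    have e : nn (toXi .c z) = (n3 z)⁻¹ + (n5 z)⁻¹ := by
      rw [nn_eq, toXi, n3_inv3, n5_inv3, n3_inv5, n5_inv5]
    rw [e]
    have h6 : 0 < n3 z := lt_of_le_of_ne h3 hz'.1.symm
    have h7 : 0 < n5 z := lt_of_le_of_ne h5 hz'.2.symm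
    positivity

theorem contDiffAt_toXi (k : Ch) {z : V4} (hz : z ∈ domXi k) : ContDiffAt ℝ ∞ (toXi k) z :=
  (A3.cd_toXi k).contDiffAt ((A3.isOpen_domXi k).mem_nhds hz)

theorem contDiffAt_pl (k : Ch) {z : V4} (hz : z ∈ domXi k) : ContDiffAt ℝ ∞ (pl k) z := by
  have h1 := contDiffAt_toXi k hz
  have h2 : ContDiffAt ℝ ∞ (fderiv ℝ (toXi k)) z := h1.fderiv_right (m := ∞) (by simp)
  exact ((be_contDiffAt (nn_toXi_ne k hz)).comp z h1).clm_comp h2

open Classical in
theorem contDiff_aux (k : Ch) (hk : ∀ z, potf k z = if z ∈ domXi k then pl k z else 0)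
    (U : Set V4) (hU : IsOpen U) (h1 : ∀ z, z ∉ domXi k → z ∈ U)
    (h2 : ∀ z ∈ U, z ∈ domXi k → 2 ≤ nn (toXi k z)) :
    ContDiff ℝ ∞ (potf k) ∧ ∀ z, z ∉ domXi k → potf k =ᶠ[𝓝 z] fun _ => 0 := by
  have h3 : ∀ z, z ∉ domXi k → potf k =ᶠ[𝓝 z] fun _ => 0 := by
    intro z hz
    filter_upwards [hU.mem_nhds (h1 z hz)] with y hy
    rw [hk]
    split_ifs with hd
    · rw [pl, be_zero (h2 y hy hd), ContinuousLinearMap.zero_comp]
    · rfl
  refine ⟨?_, h3⟩
  rw [contDiff_iff_contDiffAt]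
  intro z
  by_cases hz : z ∈ domXi k
  · refine (contDiffAt_pl k hz).congr_of_eventuallyEq ?_
    filter_upwards [(A3.isOpen_domXi k).mem_nhds hz] with y hy
    rw [hk, if_pos hy]
  · exact contDiffAt_const.congr_of_eventuallyEq (h3 z hz)

theorem two_le_inv {x : ℝ} (h0 : 0 ≤ x) (h : x < 1 / 2) (hx : x ≠ 0) : 2 ≤ x⁻¹ := by
  have : 0 < x := lt_of_le_of_ne h0 hx.symm
  rw [le_inv_comm₀ (by norm_num) this]
  linarith

theorem aux_N (k : Ch) (hN : isN k) :
    ContDiff ℝ ∞ (potf k) ∧ ∀ z, z ∉ domXi k → potf k =ᶠ[𝓝 z] fun _ => 0 := by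
  cases k with
  | B i => exact hN.elim
  | a =>
    refine contDiff_aux .a (fun z => rfl) {z | n3 z < 1 / 2}
      (isOpen_lt contDiff_n3.continuous continuous_const) ?_ ?_
    · intro z hz
      have : n3 z = 0 := not_not.1 hz
      change n3 z < 1 / 2
      rw [this]; norm_num
    · intro z hz hd
      have e : nn (toXi .a z) = (n3 z)⁻¹ + n5 z := by
        rw [nn_eq, toXi, n3_inv3, n5_inv3]
      rw [e]
      have h1 := two_le_inv (n3_nonneg z) hz hd
      have h5 := n5_nonneg z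
      linarith
  | b =>
    refine contDiff_aux .b (fun z => rfl) {z | n5 z < 1 / 2}
      (isOpen_lt contDiff_n5.continuous continuous_const) ?_ ?_
    · intro z hz
      have : n5 z = 0 := not_not.1 hz
      change n5 z < 1 / 2
      rw [this]; norm_num
    · intro z hz hd
      have e : nn (toXi .b z) = n3 z + (n5 z)⁻¹ := by
        rw [nn_eq, toXi, n3_inv5, n5_inv5]
      rw [e]
      have h1 := two_le_inv (n5_nonneg z) hz hd
      have h3 := n3_nonneg z
      linarith
  | c =>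
    refine contDiff_aux .c (fun z => rfl) ({z | n3 z < 1 / 2} ∪ {z | n5 z < 1 / 2})
      ((isOpen_lt contDiff_n3.continuous continuous_const).union
        (isOpen_lt contDiff_n5.continuous continuous_const)) ?_ ?_
    · intro z hz
      by_cases h : n3 z = 0
      · left
        change n3 z < 1 / 2
        rw [h]; norm_num
      · right
        have : n5 z = 0 := by
          by_contra h5
          exact hz ⟨h, h5⟩
        change n5 z < 1 / 2
        rw [this]; norm_num
    · intro z hz hd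
      have e : nn (toXi .c z) = (n3 z)⁻¹ + (n5 z)⁻¹ := by
        rw [nn_eq, toXi, n3_inv3, n5_inv3, n3_inv5, n5_inv5]
      rw [e]
      have h3 := inv_nonneg.2 (n3_nonneg z)
      have h5 := inv_nonneg.2 (n5_nonneg z)
      rcases hz with hz | hz
      · have h1 := two_le_inv (n3_nonneg z) hz hd.1
        linarith
      · have h1 := two_le_inv (n5_nonneg z) hz hd.2
        linarith

theorem contDiff_potf (k : Ch) : ContDiff ℝ ∞ (potf k) := by
  cases k with
  | B i => exact contDiff_potB i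
  | a => exact (aux_N .a trivial).1
  | b => exact (aux_N .b trivial).1
  | c => exact (aux_N .c trivial).1

theorem potf_not (k : Ch) (hk : isN k) {z : V4} (hz : z ∉ domXi k) : potf k z = 0 :=
  ((aux_N k hk).2 z hz).self_of_nhds

/-! ### transition maps -/

theorem fromXi_spec (l : Ch) {x : V4} (hx : x ∈ imXi l) :
    fromXi l x ∈ domXi l ∧ toXi l (fromXi l x) = x := by
  cases l with
  | a =>
    have hx' : n3 x ≠ 0 := hx
    refine ⟨?_, inv3_inv3 hx'⟩
    change n3 (inv3 x) ≠ 0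
    rw [n3_inv3]; exact inv_ne_zero hx'
  | b =>
    have hx' : n5 x ≠ 0 := hx
    refine ⟨?_, inv5_inv5 hx'⟩
    change n5 (inv5 x) ≠ 0
    rw [n5_inv5]; exact inv_ne_zero hx'
  | c =>
    have hx' : n3 x ≠ 0 ∧ n5 x ≠ 0 := hx
    refine ⟨?_, ?_⟩
    · change n3 (inv5 (inv3 x)) ≠ 0 ∧ n5 (inv5 (inv3 x)) ≠ 0
      rw [n3_inv5, n5_inv5, n3_inv3, n5_inv3]
      exact ⟨inv_ne_zero hx'.1, inv_ne_zero hx'.2⟩
    · change inv3 (inv5 (inv5 (inv3 x))) = x
      rw [inv5_inv5 (by rw [n5_inv3]; exact hx'.2), inv3_inv3 hx'.1]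
  | B i =>
    have hx' : x i ≠ 0 := hx
    refine ⟨?_, ?_⟩
    · change blInv i x i ≠ 0
      simpa [blInv] using hx'
    · change bl i (blInv i x) = x
      funext j
      unfold bl blInv
      by_cases h : j = i
      · simp [h]
      · simp only [h, if_false, if_true]
        field_simp

theorem toXi_T (k l : Ch) {z : V4} (hO : z ∈ O k l) (hz : z ∈ domXi k) :
    T k l z ∈ domXi l ∧ toXi l (T k l z) = toXi k z := by
  have gen : ∀ (h : T k l z = fromXi l (toXi k z)) (_ : toXi k z ∈ imXi l),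
      T k l z ∈ domXi l ∧ toXi l (T k l z) = toXi k z := by
    intro h h2
    rw [h]
    exact fromXi_spec l h2
  cases k with
  | a =>
    cases l with
    | a => exact ⟨hz, rfl⟩
    | b => exact gen rfl hO.2
    | c =>
      have hO' : n5 z ≠ 0 := hO
      have hz' : n3 z ≠ 0 := hz
      refine ⟨?_, ?_⟩
      · change n3 (inv5 z) ≠ 0 ∧ n5 (inv5 z) ≠ 0
        rw [n3_inv5, n5_inv5]
        exact ⟨hz', inv_ne_zero hO'⟩
      · change inv3 (inv5 (inv5 z)) = inv3 z
        rw [inv5_inv5 hO']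
    | B i => exact gen rfl hO.2
  | b =>
    cases l with
    | a => exact gen rfl hO.2
    | b => exact ⟨hz, rfl⟩
    | c =>
      have hO' : n3 z ≠ 0 := hO
      have hz' : n5 z ≠ 0 := hz
      refine ⟨?_, ?_⟩
      · change n3 (inv3 z) ≠ 0 ∧ n5 (inv3 z) ≠ 0
        rw [n3_inv3, n5_inv3]
        exact ⟨inv_ne_zero hO', hz'⟩
      · change inv3 (inv5 (inv3 z)) = inv5 z
        rw [inv3_inv5, inv3_inv3 hO']
    | B i => exact gen rfl hO.2
  | c =>
    have hz' : n3 z ≠ 0 ∧ n5 z ≠ 0 := hz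
    cases l with
    | a =>
      refine ⟨?_, rfl⟩
      change n3 (inv5 z) ≠ 0
      rw [n3_inv5]; exact hz'.1
    | b =>
      refine ⟨?_, ?_⟩
      · change n5 (inv3 z) ≠ 0
        rw [n5_inv3]; exact hz'.2
      · change inv5 (inv3 z) = inv3 (inv5 z)
        rw [inv3_inv5]
    | c => exact ⟨hz, rfl⟩
    | B i => exact gen rfl hO.2
  | B i =>
    cases l with
    | a => exact gen rfl hO.2
    | b => exact gen rfl hO.2
    | c => exact gen rfl hO.2
    | B j =>
      have hz' : z i ≠ 0 := hz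
      by_cases hij : i = j
      · subst hij
        have e : T (.B i) (.B i) z = z := by simp [T]
        rw [e]
        exact ⟨hz, rfl⟩
      · have hj : z j ≠ 0 := by
          rcases hO with h | h
          · exact absurd h hij
          · exact h
        have e : T (.B i) (.B j) z = blT i j z := by simp [T, hij]
        rw [e]
        refine ⟨?_, ?_⟩
        · change blT i j z j ≠ 0
          simp [blT, hz', hj]
        · change bl j (blT i j z) = bl i z
          funext k
          unfold bl blT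
          by_cases h1 : k = j
          · subst h1
            simp [Ne.symm hij]
          · by_cases h2 : k = i
            · subst h2
              simp only [h1, if_false, if_true]
              field_simp
            · simp only [h1, h2, if_false, if_true]
              field_simp

theorem not_dom_T (k l : Ch) (hk : isN k) (hl : isN l) {z : V4} (hO : z ∈ O k l)
    (hz : z ∉ domXi k) : T k l z ∉ domXi l := by
  cases k with
  | B i => exact hk.elim
  | a =>
    have hz' : n3 z = 0 := not_not.1 hz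
    cases l with
    | B i => exact hl.elim
    | a => exact hz
    | b => exact absurd hO.1 hz
    | c =>
      intro h
      have h1 : n3 (inv5 z) ≠ 0 := h.1
      rw [n3_inv5] at h1
      exact h1 hz'
  | b =>
    have hz' : n5 z = 0 := not_not.1 hz
    cases l with
    | B i => exact hl.elim
    | a => exact absurd hO.1 hz
    | b => exact hz
    | c =>
      intro h
      have h1 : n5 (inv3 z) ≠ 0 := h.2
      rw [n5_inv3] at h1
      exact h1 hz'
  | c =>
    cases l with
    | B i => exact hl.elim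
    | a =>
      intro h
      have h1 : n3 (inv5 z) ≠ 0 := h
      rw [n3_inv5] at h1
      exact hz ⟨h1, hO⟩
    | b =>
      intro h
      have h1 : n5 (inv3 z) ≠ 0 := h
      rw [n5_inv3] at h1
      exact hz ⟨hO, h1⟩
    | c => exact hz

theorem contDiffAt_T (k l : Ch) {z : V4} (hO : z ∈ O k l) : ContDiffAt ℝ ∞ (T k l) z :=
  (contDiffOn_T k l).contDiffAt ((isOpen_O k l).mem_nhds hO)

theorem fderiv_toXi (k l : Ch) {z : V4} (hO : z ∈ O k l) (hz : z ∈ domXi k) :
    fderiv ℝ (toXi k) z = fderiv ℝ (toXi l) (T k l z) ∘L fderiv ℝ (T k l) z := by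
  have h1 : toXi k =ᶠ[𝓝 z] toXi l ∘ T k l := by
    filter_upwards [(isOpen_O k l).mem_nhds hO, (A3.isOpen_domXi k).mem_nhds hz] with y h1 h2
    exact (toXi_T k l h1 h2).2.symm
  rw [h1.fderiv_eq]
  exact fderiv_comp z ((contDiffAt_toXi l (toXi_T k l hO hz).1).differentiableAt (by simp))
    ((contDiffAt_T k l hO).differentiableAt (by simp))

theorem pl_T (k l : Ch) {z : V4} (hO : z ∈ O k l) (hz : z ∈ domXi k) :
    pl k z = pl l (T k l z) ∘L fderiv ℝ (T k l) z := by
  rw [pl, pl, fderiv_toXi k l hO hz, (toXi_T k l hO hz).2, ContinuousLinearMap.comp_assoc]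

/-- the potentials as 1-forms -/
noncomputable def pot (k : Ch) (z : V4) : V4 [⋀^Fin 1]→L[ℝ] ℝ := one (potf k z)

theorem contDiff_pot (k : Ch) : ContDiff ℝ ∞ (pot k) := by
  have : pot k = fun z => oneL (potf k z) := rfl
  rw [this]
  exact oneL.contDiff.comp (contDiff_potf k)

theorem pot_compat (k l : Ch) (hk : isN k) (hl : isN l) (z : V4) (hO : z ∈ O k l) :
    pot k z = (pot l (T k l z)).compContinuousLinearMap (fderiv ℝ (T k l) z) := by
  rw [pot, pot, one_comp]
  congr 1
  by_cases hz : z ∈ domXi k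
  · have h := pl_T k l hO hz
    have c1 : corr k z = 0 := by
      cases k with
      | B i => exact hk.elim
      | _ => rfl
    have c2 : corr l (T k l z) = 0 := by
      cases l with
      | B i => exact hl.elim
      | _ => rfl
    rw [potf_eq k hz, potf_eq l (toXi_T k l hO hz).1, c1, c2, sub_zero, sub_zero, h]
  · rw [potf_not k hk hz, potf_not l hl (not_dom_T k l hk hl hO hz),
      ContinuousLinearMap.zero_comp]

theorem pot_B (l : Ch) (hl : isN l) (z : V4) (hO : z ∈ O (.B 0) l) :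
    pot (.B 0) z = (pot l (T (.B 0) l z)).compContinuousLinearMap (fderiv ℝ (T (.B 0) l) z)
      - one (dArg z) := by
  have hz : z ∈ domXi (.B 0) := by
    cases l with
    | B i => exact hl.elim
    | a => exact hO.1
    | b => exact hO.1
    | c => exact hO.1
  rw [pot, pot, one_comp, ← one_sub]
  congr 1
  have c2 : corr l (T (.B 0) l z) = 0 := by
    cases l with
    | B i => exact hl.elim
    | _ => rfl
  rw [potf_eq _ hz, potf_eq l (toXi_T _ l hO hz).1, c2, sub_zero, ← pl_T _ l hO hz]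
  rfl

/-! ### the 2-form -/

/-- the 2-form -/
noncomputable def al (k : Ch) (z : V4) : V4 [⋀^Fin 2]→L[ℝ] ℝ := extDeriv (pot k) z

theorem al_apply (k : Ch) (z v w : V4) :
    al k z ![v, w] = fderiv ℝ (potf k) z v w - fderiv ℝ (potf k) z w v := by
  have h : al k z = altOf (fderiv ℝ (potf k) z) :=
    extDeriv_one ((contDiff_potf k).differentiable (by simp) z)
  rw [h, altOf_apply]

theorem dAr_hasFDerivAt (i : Fin 4) {z : V4} (hz : z i ≠ 0) :
    ∃ D : V4 →L[ℝ] V4 →L[ℝ] ℝ, HasFDerivAt (dAr i) D z ∧ ∀ v w, D v w = D w v := by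
  have h1 : HasFDerivAt (fun w : V4 => w i)
      (ContinuousLinearMap.proj (R := ℝ) (φ := fun _ : Fin 4 => ℂ) i) z :=
    (ContinuousLinearMap.proj (R := ℝ) (φ := fun _ : Fin 4 => ℂ) i).hasFDerivAt
  have h2 : HasFDerivAt (fun w : V4 => (w i)⁻¹)
      ((-ContinuousLinearMap.mulLeftRight ℝ ℂ (z i)⁻¹ (z i)⁻¹) ∘L
        (ContinuousLinearMap.proj (R := ℝ) (φ := fun _ : Fin 4 => ℂ) i)) z :=
    (hasFDerivAt_inv' (𝕜 := ℝ) hz).comp z h1
  have h3 := h2.smul_const (ContinuousLinearMap.proj (R := ℝ) (φ := fun _ : Fin 4 => ℂ) i)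
  have h4 := ((ContinuousLinearMap.compL ℝ V4 ℂ ℝ Complex.imCLM).hasFDerivAt
    (x := (z i)⁻¹ • (ContinuousLinearMap.proj (R := ℝ) (φ := fun _ : Fin 4 => ℂ) i))).comp z h3
  refine ⟨_, h4, fun v w => ?_⟩
  simp
  ring

theorem corr_closed (k : Ch) {z : V4} (hz : z ∈ domXi k) :
    DifferentiableAt ℝ (corr k) z ∧ extDeriv (fun y => one (corr k y)) z = 0 := by
  have gen : ∀ f : V4 → (V4 →L[ℝ] ℝ), (∃ D : V4 →L[ℝ] V4 →L[ℝ] ℝ, HasFDerivAt f D z ∧
      ∀ v w, D v w = D w v) → DifferentiableAt ℝ f z ∧ extDeriv (fun y => one (f y)) z = 0 := by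
    rintro f ⟨D, h, hs⟩
    refine ⟨h.differentiableAt, ?_⟩
    rw [extDeriv_one h.differentiableAt, h.fderiv]
    refine ext2 fun v w => ?_
    rw [altOf_apply, hs v w, sub_self]
    rfl
  have h0 : ∃ D : V4 →L[ℝ] V4 →L[ℝ] ℝ, HasFDerivAt (fun _ : V4 => (0 : V4 →L[ℝ] ℝ)) D z ∧
      ∀ v w, D v w = D w v := ⟨0, hasFDerivAt_const _ _, fun v w => rfl⟩
  cases k with
  | B i => exact gen _ (dAr_hasFDerivAt i hz)
  | a => exact gen _ h0
  | b => exact gen _ h0
  | c => exact gen _ h0

theorem al_dom' (k : Ch) {z : V4} (hz : z ∈ domXi k) :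
    al k z = (dB (toXi k z)).compContinuousLinearMap (fderiv ℝ (toXi k) z) := by
  have hbe : DifferentiableAt ℝ (fun y => one (be y)) (toXi k z) :=
    oneL.differentiableAt.comp _ ((be_contDiffAt (nn_toXi_ne k hz)).differentiableAt (by simp))
  have h1 : extDeriv (fun y => (one (be (toXi k y))).compContinuousLinearMap
      (fderiv ℝ (toXi k) y)) z =
      (dB (toXi k z)).compContinuousLinearMap (fderiv ℝ (toXi k) z) :=
    extDeriv_pullback hbe (contDiffAt_toXi k hz) two_le_inf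
  obtain ⟨hc1, hc2⟩ := corr_closed k hz
  have hc : DifferentiableAt ℝ (fun y => one (corr k y)) z := oneL.differentiableAt.comp z hc1
  have hp : DifferentiableAt ℝ (pot k) z := (contDiff_pot k).differentiable (by simp) z
  have h2 := extDeriv_fun_add hp hc
  rw [hc2, add_zero] at h2
  have h3 : (fun y => pot k y + one (corr k y)) =ᶠ[𝓝 z]
      fun y => (one (be (toXi k y))).compContinuousLinearMap (fderiv ℝ (toXi k) y) := by
    filter_upwards [(A3.isOpen_domXi k).mem_nhds hz] with y hy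
    rw [pot, potf_eq k hy, one_sub, sub_add_cancel, one_comp]
    rfl
  have h4 := h3.extDeriv_eq
  rw [h2] at h4
  exact h4.trans h1

theorem al_dom (k : Ch) {z : V4} (hz : z ∈ domXi k) (v w : V4) :
    al k z ![v, w] = dB (toXi k z) ![fderiv ℝ (toXi k) z v, fderiv ℝ (toXi k) z w] := by
  rw [al_dom' k hz, comp_apply2]

theorem al_T_dom (k l : Ch) {z : V4} (hO : z ∈ O k l) (hz : z ∈ domXi k) (v w : V4) :
    al k z ![v, w] = al l (T k l z) ![fderiv ℝ (T k l) z v, fderiv ℝ (T k l) z w] := by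
  rw [al_dom k hz, al_dom l (toXi_T k l hO hz).1, (toXi_T k l hO hz).2, fderiv_toXi k l hO hz]
  rfl

/-! ### density -/

theorem dense_of_line (S : Set V4)
    (h : ∀ z, z ∉ S → ∃ e : V4, ∀ t : ℝ, t ≠ 0 → z + t • e ∈ S) : Dense S := by
  intro z
  by_cases hz : z ∈ S
  · exact subset_closure hz
  · obtain ⟨e, he⟩ := h z hz
    have h1 : Filter.Tendsto (fun n : ℕ => z + (1 / ((n : ℝ) + 1)) • e) Filter.atTop
        (𝓝 (z + (0 : ℝ) • e)) :=
      tendsto_const_nhds.add (tendsto_one_div_add_atTop_nhds_zero_nat.smul_const e)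
    rw [zero_smul, add_zero] at h1
    refine mem_closure_of_tendsto h1 (Filter.Eventually.of_forall fun n => he _ ?_)
    positivity

theorem dense_n3 : Dense {z : V4 | n3 z ≠ 0} := by
  refine dense_of_line _ fun z hz => ⟨(Pi.single 0 1 : V4), fun t ht => ?_⟩
  have hz' : n3 z = 0 := not_not.1 hz
  rw [n3] at hz'
  have h1 : (z 0).re = 0 := by nlinarith [sq_nonneg (z 0).re, sq_nonneg (z 0).im, sq_nonneg (z 1).re]
  change n3 (z + t • (Pi.single 0 1 : V4)) ≠ 0
  have e : n3 (z + t • (Pi.single 0 1 : V4)) = ((z 0).re + t) ^ 2 + (z 0).im ^ 2 + (z 1).re ^ 2 := by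
    simp [n3]
  rw [e, h1, zero_add]
  positivity

theorem dense_n5 : Dense {z : V4 | n5 z ≠ 0} := by
  refine dense_of_line _ fun z hz => ⟨(Pi.single 2 1 : V4), fun t ht => ?_⟩
  have hz' : n5 z = 0 := not_not.1 hz
  rw [n5] at hz'
  have h1 : (z 2).re = 0 := by
    nlinarith [sq_nonneg (z 1).im, sq_nonneg (z 2).re, sq_nonneg (z 2).im, sq_nonneg (z 3).re,
      sq_nonneg (z 3).im]
  change n5 (z + t • (Pi.single 2 1 : V4)) ≠ 0
  have e : n5 (z + t • (Pi.single 2 1 : V4)) = (z 1).im ^ 2 + ((z 2).re + t) ^ 2 + (z 2).im ^ 2 +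
      (z 3).re ^ 2 + (z 3).im ^ 2 := by
    simp [n5]
  rw [e, h1, zero_add]
  positivity

theorem dense_domXi (k : Ch) : Dense (domXi k) := by
  cases k with
  | a => exact dense_n3
  | b => exact dense_n5
  | c => exact dense_n3.inter_of_isOpen_left dense_n5 A3.isOpen_n3
  | B i =>
    refine dense_of_line _ fun z hz => ⟨(Pi.single i 1 : V4), fun t ht => ?_⟩
    have hz' : z i = 0 := not_not.1 hz
    change (z + t • (Pi.single i 1 : V4)) i ≠ 0
    simp [hz', ht]

theorem compat_al : Compat 2 al := by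
  intro k l z hO
  refine ext2 fun v w => ?_
  rw [comp_apply2]
  have hcl : z ∈ closure (O k l ∩ domXi k) :=
    (dense_domXi k).open_subset_closure_inter (isOpen_O k l) hO
  have hf : ContinuousOn (fun z => al k z ![v, w]) (O k l) := by
    have : (fun z => al k z ![v, w]) = fun z =>
        fderiv ℝ (potf k) z v w - fderiv ℝ (potf k) z w v := by
      funext z; exact al_apply k z v w
    rw [this]
    have h1 : Continuous (fderiv ℝ (potf k)) := (contDiff_potf k).continuous_fderiv (by simp)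
    exact (((h1.clm_apply continuous_const).clm_apply continuous_const).sub
      ((h1.clm_apply continuous_const).clm_apply continuous_const)).continuousOn
  have hg : ContinuousOn (fun z => al l (T k l z) ![fderiv ℝ (T k l) z v,
      fderiv ℝ (T k l) z w]) (O k l) := by
    have : (fun z => al l (T k l z) ![fderiv ℝ (T k l) z v, fderiv ℝ (T k l) z w]) = fun z =>
        fderiv ℝ (potf l) (T k l z) (fderiv ℝ (T k l) z v) (fderiv ℝ (T k l) z w) -
        fderiv ℝ (potf l) (T k l z) (fderiv ℝ (T k l) z w) (fderiv ℝ (T k l) z v) := by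
      funext z; exact al_apply l _ _ _
    rw [this]
    have h1 : Continuous (fderiv ℝ (potf l)) := (contDiff_potf l).continuous_fderiv (by simp)
    have h2 : ContinuousOn (T k l) (O k l) := (contDiffOn_T k l).continuousOn
    have h3 : ContinuousOn (fun z => fderiv ℝ (potf l) (T k l z)) (O k l) :=
      h1.comp_continuousOn h2
    have h4 : ContinuousOn (fderiv ℝ (T k l)) (O k l) :=
      (contDiffOn_T k l).continuousOn_fderiv_of_isOpen (isOpen_O k l) (by simp)
    have h5 : ∀ u : V4, ContinuousOn (fun z => fderiv ℝ (T k l) z u) (O k l) := fun u =>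
      h4.clm_apply continuousOn_const
    exact ((h3.clm_apply (h5 v)).clm_apply (h5 w)).sub ((h3.clm_apply (h5 w)).clm_apply (h5 v))
  have hEq : Set.EqOn (fun z => al k z ![v, w]) (fun z => al l (T k l z)
      ![fderiv ℝ (T k l) z v, fderiv ℝ (T k l) z w]) (O k l ∩ domXi k) := fun y hy =>
    al_T_dom k l hy.1 hy.2 v w
  have := hEq.of_subset_closure hf hg Set.inter_subset_left
    ((dense_domXi k).open_subset_closure_inter (isOpen_O k l))
  exact this hO

/-! ### the sign -/

theorem det_toXi_c {z : V4} (hz : z ∈ domXi .c) :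
    0 < LinearMap.det (fderiv ℝ (toXi .c) z : V4 →ₗ[ℝ] V4) := by
  have hz' : n3 z ≠ 0 ∧ n5 z ≠ 0 := hz
  have h3 : n3 (inv5 z) ≠ 0 := by rw [n3_inv5]; exact hz'.1
  have e : fderiv ℝ (toXi .c) z = fderiv ℝ inv3 (inv5 z) ∘L fderiv ℝ inv5 z :=
    fderiv_comp z ((contDiffAt_inv3 h3).differentiableAt (by simp))
      ((contDiffAt_inv5 hz'.2).differentiableAt (by simp))
  have e2 : (fderiv ℝ (toXi .c) z : V4 →ₗ[ℝ] V4) =
      (fderiv ℝ inv3 (inv5 z) : V4 →ₗ[ℝ] V4) ∘ₗ (fderiv ℝ inv5 z : V4 →ₗ[ℝ] V4) := by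
    rw [e]; rfl
  rw [e2, LinearMap.det_comp]
  exact mul_pos_of_neg_of_neg (det_inv3_neg h3) (det_inv5_neg hz'.2)

theorem pow4_al {z : V4} (hz : z ∈ domXi .c) : pow4 (al .c z) stdB =
    LinearMap.det (fderiv ℝ (toXi .c) z : V4 →ₗ[ℝ] V4) * pow4 (dB (toXi .c z)) stdB :=
  pow4_map4 _ _ _ (al_dom .c hz)

theorem pow4_al_nonpos (z : V4) : pow4 (al .c z) stdB ≤ 0 := by
  by_cases hz : z ∈ domXi .c
  · rw [pow4_al hz]
    exact mul_nonpos_of_nonneg_of_nonpos (det_toXi_c hz).le
      (pow4_dB_nonpos (nn_toXi_ne .c hz))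
  · have h : ∀ x y, al .c z ![x, y] = 0 := by
      intro x y
      rw [al_apply, ((aux_N .c trivial).2 z hz).fderiv_eq]
      simp
    rw [pow4_zero4 _ h]

theorem pow4_al_neg : ∃ z, pow4 (al .c z) stdB < 0 := by
  obtain ⟨r, hr, h⟩ := exists_pow4_dB_neg
  obtain ⟨s, hs⟩ : ∃ s : ℝ, s ^ 2 = r / 2 := ⟨√(r / 2), Real.sq_sqrt (by positivity)⟩
  have hx3 : n3 (![(s : ℂ), 0, (s : ℂ), 0] : V4) = r / 2 := by
    simp [n3, hs]
  have hx5 : n5 (![(s : ℂ), 0, (s : ℂ), 0] : V4) = r / 2 := by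
    simp [n5, hs]
  have hne : r / 2 ≠ 0 := by positivity
  have him : (![(s : ℂ), 0, (s : ℂ), 0] : V4) ∈ imXi .c :=
    ⟨by rw [hx3]; exact hne, by rw [hx5]; exact hne⟩
  obtain ⟨h1, h2⟩ := fromXi_spec .c him
  refine ⟨fromXi .c ![(s : ℂ), 0, (s : ℂ), 0], ?_⟩
  rw [pow4_al h1, h2]
  refine mul_neg_of_pos_of_neg (det_toXi_c h1) (h _ ?_)
  rw [nn_eq, hx3, hx5]
  ring

end B1

/-- B1 -/
theorem exists_alpha : ∃ pot α, AlphaData pot α ∧ (∀ z, pow4 (α .c z) stdB ≤ 0) ∧
    ∃ z, pow4 (α .c z) stdB < 0 :=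
  ⟨B1.pot, B1.al, ⟨B1.contDiff_pot, fun _ _ => rfl, B1.compat_al, B1.pot_compat, B1.pot_B⟩,
    B1.pow4_al_nonpos, B1.pow4_al_neg⟩

end Pool.Agent.Work.MP_2a78db_gt
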