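import Mathlib

/-!
Common definitions for the index part: the unit sphere of complex 5-space, circle rotations,
equivariant matrix functions and equivariant projections.
-/

namespace Pool.Agent.Work.MP_2a78db_gt

open Matrix

/-- The unit sphere of complex 5-space. -/
def S9 : Type := {z : Fin 5 → ℂ // ∑ i, ‖z i‖ ^ 2 = 1}

instance : TopologicalSpace S9 := inferInstanceAs (TopologicalSpace {z : Fin 5 → ℂ // _})

/-- Rotation of the sphere by a complex number of modulus one. -/
noncomputable def rot (l : Circle) (z : S9) : S9 :=
  ⟨fun i => (l : ℂ) * z.1 i, by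
    have h := z.2
    simpa [norm_mul] using h⟩

/-- `A` is a continuous matrix function on the sphere which is equivariant for the
weights `w` (source) and `w'` (target). -/
def Eqv {ι κ : Type} (w : ι → ℤ) (w' : κ → ℤ) (A : S9 → Matrix κ ι ℂ) : Prop :=
  Continuous A ∧ ∀ (l : Circle) (z : S9) (i : κ) (j : ι),
    A (rot l z) i j = (l : ℂ) ^ (w' i - w j) * A z i j

/-- Equivariant projection valued functions. -/
def IsProj {ι : Type} [Fintype ι] (w : ι → ℤ) (P : S9 → Matrix ι ι ℂ) : Prop :=
  Eqv w w P ∧ ∀ z, P z * P z = P z ∧ (P z)ᴴ = P z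

/-- Dimension of the space of homogeneous polynomials of degree `k` in five variables,
extended polynomially to all integers. -/
def dim5 (k : ℤ) : ℤ := ((k + 1) * (k + 2) * (k + 3) * (k + 4)) / 24

end Pool.Agent.Work.MP_2a78db_gt
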