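import Pool.Agent.Work.MP_2a78db_gt.Defs
import Pool.Agent.Work.MP_2a78db_gt.Sphere

/-!
Further common definitions used in the interfaces between the modules.
-/

namespace Pool.Agent.Work.MP_2a78db_gt

open scoped Topology ContDiff

/-- A space glued from the seven charts. -/
structure SpaceData (M : Type) [TopologicalSpace M] where
  e : Ch → OpenPartialHomeomorph M V4
  target_univ : ∀ k, (e k).target = Set.univ
  cover : ∀ x, ∃ k, x ∈ (e k).source
  overlap : ∀ k l, (e k).symm ⁻¹' (e l).source = O k l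
  trans : ∀ k l, ∀ z ∈ O k l, e l ((e k).symm z) = T k l z

/-- a real linear functional as a 1-form -/
noncomputable def one (f : V4 →L[ℝ] ℝ) : V4 [⋀^Fin 1]→L[ℝ] ℝ :=
  ContinuousAlternatingMap.ofSubsingleton ℝ V4 ℝ (0 : Fin 1) f

/-- The differential of the argument of the coordinate `0`. -/
noncomputable def dArg (z : V4) : V4 →L[ℝ] ℝ :=
  Complex.imCLM ∘L ((z 0)⁻¹ • (ContinuousLinearMap.proj (R := ℝ) (φ := fun _ : Fin 4 => ℂ) 0))

/-- the three charts of the product of spheres -/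
def isN : Ch → Prop
  | .B _ => False
  | _ => True

/-- The closed 2-form `α` with its potentials. -/
structure AlphaData (pot : Ch → V4 → V4 [⋀^Fin 1]→L[ℝ] ℝ)
    (α : Ch → V4 → V4 [⋀^Fin 2]→L[ℝ] ℝ) : Prop where
  pot_smooth : ∀ k, ContDiff ℝ ∞ (pot k)
  alpha_eq : ∀ k z, α k z = extDeriv (pot k) z
  compat : Compat 2 α
  pot_compat : ∀ k l, isN k → isN l → ∀ z ∈ O k l,
    pot k z = (pot l (T k l z)).compContinuousLinearMap (fderiv ℝ (T k l) z)
  pot_B : ∀ l, isN l → ∀ z ∈ O (.B 0) l,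
    pot (.B 0) z = (pot l (T (.B 0) l z)).compContinuousLinearMap (fderiv ℝ (T (.B 0) l) z)
      - one (dArg z)

/-- curried form -/
noncomputable def cur (α : V4 [⋀^Fin 2]→L[ℝ] ℝ) : V4 →L[ℝ] V4 →L[ℝ] ℝ :=
  LinearMap.toContinuousLinearMap
    { toFun := fun v => LinearMap.toContinuousLinearMap
        { toFun := fun w => α ![v, w]
          map_add' := fun x y => alt2_add_right α x y v
          map_smul' := fun t x => alt2_smul_right α t x v }
      map_add' := fun x y => by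
        ext w; exact alt2_add_left α x y w
      map_smul' := fun t x => by
        ext w; exact alt2_smul_left α t x w }

theorem cur_apply (α : V4 [⋀^Fin 2]→L[ℝ] ℝ) (v w : V4) : cur α v w = α ![v, w] := rfl

/-- The bilinear form `Im (conj v * w)` on `ℂ`. -/
noncomputable def imForm : ℂ →L[ℝ] ℂ →L[ℝ] ℝ :=
  (ContinuousLinearMap.compL ℝ ℂ ℂ ℝ Complex.imCLM) ∘L (ContinuousLinearMap.mul ℝ ℂ) ∘L
    (Complex.conjCLE : ℂ →L[ℝ] ℂ)

/-- The diagonal skew form `∑ ε_j Im (conj v_j * w_j)` on `ℂ^n`. -/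
noncomputable def stdForm {n : ℕ} (ε : Fin n → ℝ) : (Fin n → ℂ) →L[ℝ] (Fin n → ℂ) →L[ℝ] ℝ :=
  ∑ j, ε j • imForm.bilinearComp (ContinuousLinearMap.proj j) (ContinuousLinearMap.proj j)

theorem stdForm_apply {n : ℕ} (ε : Fin n → ℝ) (v w : Fin n → ℂ) :
    stdForm ε v w = ∑ j, ε j * ((starRingEnd ℂ) (v j) * w j).im := by
  simp [stdForm, imForm]

/-- complex 5-space -/
abbrev V5 : Type := Fin 5 → ℂ

/-- real inner product -/
noncomputable def rip (v w : V5) : ℝ := ∑ j, ((starRingEnd ℂ) (v j) * w j).re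

/-- The unit field `i (-z_0, z_1, ..., z_4)` on the sphere (real orthogonal to `z`). -/
noncomputable def u1 (z : S9) : V5 := fun i =>
  if i = 0 then -Complex.I * z.1 i else Complex.I * z.1 i

/-- Data of the impossible family. -/
structure Family (Om : S9 → V5 →L[ℝ] V5 →L[ℝ] ℝ) (u : S9 → V5) : Prop where
  cont : Continuous Om
  nd : ∀ z, Om z ∈ Nd V5
  equivariant : ∀ (l : Circle) z v w, Om (rot l z) ((l : ℂ) • v) ((l : ℂ) • w) = Om z v w
  unit : ∀ z, rip (u z) (u z) = 1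
  on_z : ∀ z w, Om z z.1 w = rip (u z) w
  on_u : ∀ z w, Om z (u z) w = - rip z.1 w
  ne : ∀ z, u z ≠ - u1 z
  orient : ∃ z₀, JoinedIn (Nd V5) (Om z₀) (stdForm fun _ => 1)

end Pool.Agent.Work.MP_2a78db_gt
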