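import Mathlib
import Pool.Agent.Work.MP_2a78db_gt.Common

/-!
Module B3: the global frame of the product of spheres in the charts `a`, `b`, `c` and in the
coordinate `xi`.
-/

namespace Pool.Agent.Work.MP_2a78db_gt

open scoped Topology ContDiff

namespace B3

/-- inner product of the components in `R^5` -/
def S5 (z v : V4) : ℝ :=
  (z 1).im * (v 1).im + (z 2).re * (v 2).re + (z 2).im * (v 2).im + (z 3).re * (v 3).re +
    (z 3).im * (v 3).im

/-- inner product of the components in `R^3` -/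
def S3 (z v : V4) : ℝ := (z 0).re * (v 0).re + (z 0).im * (v 0).im + (z 1).re * (v 1).re

/-- third frame coefficient -/
noncomputable def ga (τ : ℝ) (z v : V4) : ℝ :=
  (τ * (v 1).re * (1 - n5 z) + 2 * S5 z v) / (1 + n5 z)

/-- product with the `R^3` part -/
noncomputable def pg (τ : ℝ) (z v : V4) : ℝ :=
  (z 0).re * (v 0).re + (z 0).im * (v 0).im + (z 1).re * ga τ z v

/-- the frame as a function -/
noncomputable def fr (σ τ : ℝ) (z v : V4) : V4 :=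
  ![⟨(σ * (1 - n3 z) * (v 0).re + 2 * ((z 0).im * ga τ z v - (z 1).re * (v 0).im) +
        2 * σ * pg τ z v * (z 0).re) / 2,
     (σ * (1 - n3 z) * (v 0).im + 2 * ((z 1).re * (v 0).re - (z 0).re * ga τ z v) +
        2 * σ * pg τ z v * (z 0).im) / 2⟩,
    ⟨(σ * (1 - n3 z) * ga τ z v + 2 * ((z 0).re * (v 0).im - (z 0).im * (v 0).re) +
        2 * σ * pg τ z v * (z 1).re) / 2,
     ((1 + n5 z) * (v 1).im - 2 * (S5 z v + τ * (v 1).re) * (z 1).im) / 2⟩,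
    ⟨((1 + n5 z) * (v 2).re - 2 * (S5 z v + τ * (v 1).re) * (z 2).re) / 2,
     ((1 + n5 z) * (v 2).im - 2 * (S5 z v + τ * (v 1).re) * (z 2).im) / 2⟩,
    ⟨((1 + n5 z) * (v 3).re - 2 * (S5 z v + τ * (v 1).re) * (z 3).re) / 2,
     ((1 + n5 z) * (v 3).im - 2 * (S5 z v + τ * (v 1).re) * (z 3).im) / 2⟩]

theorem n5_nonneg (z : V4) : 0 ≤ n5 z := by unfold n5; positivity

theorem n3_nonneg (z : V4) : 0 ≤ n3 z := by unfold n3; positivity

theorem one_add_n5_pos (z : V4) : 0 < 1 + n5 z := by linarith [n5_nonneg z]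

theorem ext8 {v w : V4} (h : ∀ j, (v j).re = (w j).re ∧ (v j).im = (w j).im) : v = w := by
  funext j
  exact Complex.ext (h j).1 (h j).2

theorem S5_add (z v w : V4) : S5 z (v + w) = S5 z v + S5 z w := by
  simp [S5]; ring

theorem S5_smul (z v : V4) (t : ℝ) : S5 z (t • v) = t * S5 z v := by
  simp [S5]; ring

theorem ga_add (τ : ℝ) (z v w : V4) : ga τ z (v + w) = ga τ z v + ga τ z w := by
  unfold ga
  rw [S5_add]
  simp; ring

theorem ga_smul (τ : ℝ) (z v : V4) (t : ℝ) : ga τ z (t • v) = t * ga τ z v := by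
  unfold ga
  rw [S5_smul]
  simp; ring

theorem pg_add (τ : ℝ) (z v w : V4) : pg τ z (v + w) = pg τ z v + pg τ z w := by
  unfold pg
  rw [ga_add]
  simp; ring

theorem pg_smul (τ : ℝ) (z v : V4) (t : ℝ) : pg τ z (t • v) = t * pg τ z v := by
  unfold pg
  rw [ga_smul]
  simp; ring

/-- the frame -/
noncomputable def Fr (σ τ : ℝ) (z : V4) : V4 →L[ℝ] V4 :=
  LinearMap.toContinuousLinearMap
    { toFun := fr σ τ z
      map_add' := fun v w => by
        apply ext8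
        intro j
        fin_cases j <;> simp [fr, S5_add, ga_add, pg_add] <;> constructor <;> ring
      map_smul' := fun t v => by
        apply ext8
        intro j
        fin_cases j <;> simp [fr, S5_smul, ga_smul, pg_smul] <;> constructor <;> ring }

theorem Fr_apply (σ τ : ℝ) (z v : V4) : Fr σ τ z v = fr σ τ z v := rfl

theorem contDiff_mk {f g : V4 → ℝ} (hf : ContDiff ℝ ∞ f) (hg : ContDiff ℝ ∞ g) :
    ContDiff ℝ ∞ fun z => (⟨f z, g z⟩ : ℂ) := by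
  have h : (fun z => (⟨f z, g z⟩ : ℂ)) = fun z => (f z : ℂ) + (g z : ℂ) * Complex.I := by
    funext z; exact Complex.mk_eq_add_mul_I _ _
  rw [h]
  exact (Complex.ofRealCLM.contDiff.comp hf).add ((Complex.ofRealCLM.contDiff.comp hg).mul contDiff_const)

theorem contDiff_re (j : Fin 4) : ContDiff ℝ ∞ fun z : V4 => (z j).re :=
  Complex.reCLM.contDiff.comp (contDiff_apply ℝ ℂ j)

theorem contDiff_im (j : Fin 4) : ContDiff ℝ ∞ fun z : V4 => (z j).im :=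
  Complex.imCLM.contDiff.comp (contDiff_apply ℝ ℂ j)

theorem contDiff_n5 : ContDiff ℝ ∞ n5 := by
  unfold n5
  have := contDiff_re; have := contDiff_im
  fun_prop

theorem contDiff_n3 : ContDiff ℝ ∞ n3 := by
  unfold n3
  have := contDiff_re; have := contDiff_im
  fun_prop

theorem contDiff_S5 (v : V4) : ContDiff ℝ ∞ fun z => S5 z v := by
  unfold S5
  have := contDiff_re; have := contDiff_im
  fun_prop

theorem contDiff_ga (τ : ℝ) (v : V4) : ContDiff ℝ ∞ fun z => ga τ z v := by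
  unfold ga
  have h1 := contDiff_S5 v
  have h2 := contDiff_n5
  exact ContDiff.div (by fun_prop) (by fun_prop) fun z => (one_add_n5_pos z).ne'

theorem contDiff_pg (τ : ℝ) (v : V4) : ContDiff ℝ ∞ fun z => pg τ z v := by
  unfold pg
  have h1 := contDiff_ga τ v
  have := contDiff_re; have := contDiff_im
  fun_prop

theorem contDiff_Fr (σ τ : ℝ) : ContDiff ℝ ∞ (Fr σ τ) := by
  rw [contDiff_clm_apply_iff]
  intro v
  have h1 := contDiff_ga τ v
  have h2 := contDiff_pg τ v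
  have h3 := contDiff_S5 v
  have h4 := contDiff_n3
  have h5 := contDiff_n5
  have h6 := contDiff_re
  have h7 := contDiff_im
  rw [contDiff_pi]
  intro j
  fin_cases j
  all_goals
    simp only [Fr_apply, fr]
    apply contDiff_mk <;> fun_prop

/-! derivatives -/

/-- real part of a coordinate -/
noncomputable def reC (j : Fin 4) : V4 →L[ℝ] ℝ :=
  Complex.reCLM ∘L (ContinuousLinearMap.proj (R := ℝ) (φ := fun _ : Fin 4 => ℂ) j)

/-- imaginary part of a coordinate -/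
noncomputable def imC (j : Fin 4) : V4 →L[ℝ] ℝ :=
  Complex.imCLM ∘L (ContinuousLinearMap.proj (R := ℝ) (φ := fun _ : Fin 4 => ℂ) j)

@[simp] theorem reC_apply (j : Fin 4) (v : V4) : reC j v = (v j).re := rfl
@[simp] theorem imC_apply (j : Fin 4) (v : V4) : imC j v = (v j).im := rfl

theorem hasFDerivAt_mk {f g : V4 → ℝ} {f' g' : V4 →L[ℝ] ℝ} {z : V4} (hf : HasFDerivAt f f' z)
    (hg : HasFDerivAt g g' z) :
    HasFDerivAt (fun z => (⟨f z, g z⟩ : ℂ)) (Complex.ofRealCLM ∘L f' +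
      (ContinuousLinearMap.lsmul ℝ ℝ).flip Complex.I ∘L g') z := by
  have h : (fun z => (⟨f z, g z⟩ : ℂ)) = fun z => (f z : ℂ) + (g z) • Complex.I := by
    funext z; rw [Complex.mk_eq_add_mul_I]; rfl
  rw [h]
  exact (Complex.ofRealCLM.hasFDerivAt.comp z hf).add
    (((ContinuousLinearMap.lsmul ℝ ℝ).flip Complex.I).hasFDerivAt.comp z hg)

/-- constructor of linear maps with values in `V4` -/
noncomputable def mkL (r : Fin 4 → (V4 →L[ℝ] ℝ) × (V4 →L[ℝ] ℝ)) : V4 →L[ℝ] V4 :=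
  ContinuousLinearMap.pi fun j => Complex.ofRealCLM ∘L (r j).1 +
      (ContinuousLinearMap.lsmul ℝ ℝ).flip Complex.I ∘L (r j).2

theorem mkL_apply (r : Fin 4 → (V4 →L[ℝ] ℝ) × (V4 →L[ℝ] ℝ)) (v : V4) (j : Fin 4) :
    mkL r v j = ⟨(r j).1 v, (r j).2 v⟩ := by
  apply Complex.ext <;> simp [mkL]

theorem hasFDerivAt_mkL {F : V4 → V4} {f g : Fin 4 → V4 → ℝ} (hF : ∀ z j, F z j = ⟨f j z, g j z⟩)
    {r : Fin 4 → (V4 →L[ℝ] ℝ) × (V4 →L[ℝ] ℝ)} {z : V4}
    (h : ∀ j, HasFDerivAt (f j) (r j).1 z ∧ HasFDerivAt (g j) (r j).2 z) :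
    HasFDerivAt F (mkL r) z := by
  have hF' : F = fun z j => (⟨f j z, g j z⟩ : ℂ) := by
    funext z j; exact hF z j
  rw [hF']
  apply hasFDerivAt_pi.mpr
  intro j
  exact hasFDerivAt_mk (h j).1 (h j).2

/-- derivative of `n5` -/
noncomputable def dn5 (z : V4) : V4 →L[ℝ] ℝ :=
  (2 * (z 1).im) • imC 1 + (2 * (z 2).re) • reC 2 + (2 * (z 2).im) • imC 2 +
    (2 * (z 3).re) • reC 3 + (2 * (z 3).im) • imC 3

/-- derivative of `n3` -/
noncomputable def dn3 (z : V4) : V4 →L[ℝ] ℝ :=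
  (2 * (z 0).re) • reC 0 + (2 * (z 0).im) • imC 0 + (2 * (z 1).re) • reC 1

theorem dn5_apply (z v : V4) : dn5 z v = 2 * S5 z v := by
  simp [dn5, S5]; ring

theorem dn3_apply (z v : V4) : dn3 z v = 2 * S3 z v := by
  simp [dn3, S3]; ring

theorem hasFDerivAt_sq (c : V4 →L[ℝ] ℝ) (z : V4) :
    HasFDerivAt (fun z => (c z) ^ 2) ((2 * c z) • c) z := by
  have h := (c.hasFDerivAt (x := z)).pow 2
  simpa using h

theorem hasFDerivAt_n5 (z : V4) : HasFDerivAt n5 (dn5 z) z := by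
  have h := ((((hasFDerivAt_sq (imC 1) z).add (hasFDerivAt_sq (reC 2) z)).add
    (hasFDerivAt_sq (imC 2) z)).add (hasFDerivAt_sq (reC 3) z)).add (hasFDerivAt_sq (imC 3) z)
  exact h

theorem hasFDerivAt_n3 (z : V4) : HasFDerivAt n3 (dn3 z) z := by
  have h := ((hasFDerivAt_sq (reC 0) z).add (hasFDerivAt_sq (imC 0) z)).add
    (hasFDerivAt_sq (reC 1) z)
  exact h

theorem hasFDerivAt_quot (c : V4 →L[ℝ] ℝ) {N : V4 → ℝ} {N' : V4 →L[ℝ] ℝ} {z : V4}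
    (hN : HasFDerivAt N N' z) (h : N z ≠ 0) :
    HasFDerivAt (fun z => c z / N z) ((N z)⁻¹ • c - (c z / (N z) ^ 2) • N') z := by
  have h1 := (c.hasFDerivAt (x := z)).mul ((hasDerivAt_inv h).comp_hasFDerivAt z hN)
  have h2 : (fun z => c z / N z) = fun z => c z * (N z)⁻¹ := by
    funext z; rw [div_eq_mul_inv]
  rw [h2]
  refine h1.congr_fderiv ?_
  ext v
  simp
  field_simp
  ring

/-- derivative of `inv5` -/
noncomputable def D5 (z : V4) : V4 →L[ℝ] V4 :=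
  mkL ![(reC 0, imC 0), (reC 1, (n5 z)⁻¹ • imC 1 - (imC 1 z / (n5 z) ^ 2) • dn5 z),
    ((n5 z)⁻¹ • reC 2 - (reC 2 z / (n5 z) ^ 2) • dn5 z,
      (n5 z)⁻¹ • imC 2 - (imC 2 z / (n5 z) ^ 2) • dn5 z),
    ((n5 z)⁻¹ • reC 3 - (reC 3 z / (n5 z) ^ 2) • dn5 z,
      (n5 z)⁻¹ • imC 3 - (imC 3 z / (n5 z) ^ 2) • dn5 z)]

/-- derivative of `inv3` -/
noncomputable def D3 (z : V4) : V4 →L[ℝ] V4 :=
  mkL ![((n3 z)⁻¹ • reC 0 - (reC 0 z / (n3 z) ^ 2) • dn3 z,
      (n3 z)⁻¹ • imC 0 - (imC 0 z / (n3 z) ^ 2) • dn3 z),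
    ((n3 z)⁻¹ • reC 1 - (reC 1 z / (n3 z) ^ 2) • dn3 z, imC 1), (reC 2, imC 2), (reC 3, imC 3)]

theorem hasFDerivAt_inv5 {z : V4} (h : n5 z ≠ 0) : HasFDerivAt inv5 (D5 z) z := by
  have q := fun c => hasFDerivAt_quot c (hasFDerivAt_n5 z) h
  refine hasFDerivAt_mkL (f := ![reC 0, reC 1, fun z => reC 2 z / n5 z, fun z => reC 3 z / n5 z])
    (g := ![imC 0, fun z => imC 1 z / n5 z, fun z => imC 2 z / n5 z, fun z => imC 3 z / n5 z])
    ?_ ?_
  · intro z j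
    fin_cases j <;> rfl
  · intro j
    fin_cases j
    · exact ⟨(reC 0).hasFDerivAt, (imC 0).hasFDerivAt⟩
    · exact ⟨(reC 1).hasFDerivAt, q (imC 1)⟩
    · exact ⟨q (reC 2), q (imC 2)⟩
    · exact ⟨q (reC 3), q (imC 3)⟩

theorem hasFDerivAt_inv3 {z : V4} (h : n3 z ≠ 0) : HasFDerivAt inv3 (D3 z) z := by
  have q := fun c => hasFDerivAt_quot c (hasFDerivAt_n3 z) h
  refine hasFDerivAt_mkL (f := ![fun z => reC 0 z / n3 z, fun z => reC 1 z / n3 z, reC 2, reC 3])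
    (g := ![fun z => imC 0 z / n3 z, imC 1, imC 2, imC 3]) ?_ ?_
  · intro z j
    fin_cases j <;> rfl
  · intro j
    fin_cases j
    · exact ⟨q (reC 0), q (imC 0)⟩
    · exact ⟨q (reC 1), (imC 1).hasFDerivAt⟩
    · exact ⟨(reC 2).hasFDerivAt, (imC 2).hasFDerivAt⟩
    · exact ⟨(reC 3).hasFDerivAt, (imC 3).hasFDerivAt⟩

theorem fderiv_inv5 {z : V4} (h : n5 z ≠ 0) : fderiv ℝ inv5 z = D5 z := (hasFDerivAt_inv5 h).fderiv

theorem fderiv_inv3 {z : V4} (h : n3 z ≠ 0) : fderiv ℝ inv3 z = D3 z := (hasFDerivAt_inv3 h).fderiv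

theorem n3_inv5 (z : V4) : n3 (inv5 z) = n3 z := by
  simp [n3, inv5]

theorem n5_inv3 (z : V4) : n5 (inv3 z) = n5 z := by
  simp [n5, inv3]

theorem n5_inv5 {z : V4} (h : n5 z ≠ 0) : n5 (inv5 z) = 1 / n5 z := by
  have h2 : n5 (inv5 z) = n5 z / (n5 z) ^ 2 := by
    have h3 : ∀ d : ℝ, ((z 1).im / d) ^ 2 + ((z 2).re / d) ^ 2 + ((z 2).im / d) ^ 2 +
        ((z 3).re / d) ^ 2 + ((z 3).im / d) ^ 2 =
        ((z 1).im ^ 2 + (z 2).re ^ 2 + (z 2).im ^ 2 + (z 3).re ^ 2 + (z 3).im ^ 2) / d ^ 2 := by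
      intro d; ring
    exact h3 (n5 z)
  rw [h2]
  field_simp

theorem n3_inv3 {z : V4} (h : n3 z ≠ 0) : n3 (inv3 z) = 1 / n3 z := by
  have h2 : n3 (inv3 z) = n3 z / (n3 z) ^ 2 := by
    have h3 : ∀ d : ℝ, ((z 0).re / d) ^ 2 + ((z 0).im / d) ^ 2 + ((z 1).re / d) ^ 2 =
        ((z 0).re ^ 2 + (z 0).im ^ 2 + (z 1).re ^ 2) / d ^ 2 := by
      intro d; ring
    exact h3 (n3 z)
  rw [h2]
  field_simp

theorem S5_inv5 (z v : V4) : S5 (inv5 z) v = S5 z v / n5 z := by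
  simp [S5, inv5]; ring

theorem S5_inv3 (z v : V4) : S5 (inv3 z) v = S5 z v := by
  simp [S5, inv3]

theorem ga_inv5 (τ : ℝ) {z : V4} (h : n5 z ≠ 0) (v : V4) : ga (-τ) (inv5 z) v = ga τ z v := by
  unfold ga
  rw [S5_inv5, n5_inv5 h]
  have h1 := (one_add_n5_pos z).ne'
  have h2 : (1 + 1 / n5 z) ≠ 0 := by
    have : 0 < n5 z := lt_of_le_of_ne (n5_nonneg z) (Ne.symm h)
    positivity
  rw [div_eq_div_iff h2 h1]
  field_simp
  ring

theorem ga_inv3 (τ : ℝ) (z v : V4) : ga τ (inv3 z) v = ga τ z v := by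
  unfold ga
  rw [S5_inv3, n5_inv3]

theorem pg_inv3 (τ : ℝ) (z v : V4) : pg τ (inv3 z) v = pg τ z v / n3 z := by
  unfold pg
  rw [ga_inv3]
  simp [inv3]; ring

theorem pg_inv5 (τ : ℝ) {z : V4} (h : n5 z ≠ 0) (v : V4) : pg (-τ) (inv5 z) v = pg τ z v := by
  unfold pg
  rw [ga_inv5 τ h]
  simp [inv5]

theorem D5_apply (z v : V4) : D5 z v =
    ![v 0, ⟨(v 1).re, (v 1).im / n5 z - 2 * S5 z v * (z 1).im / (n5 z) ^ 2⟩,
      ⟨(v 2).re / n5 z - 2 * S5 z v * (z 2).re / (n5 z) ^ 2,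
        (v 2).im / n5 z - 2 * S5 z v * (z 2).im / (n5 z) ^ 2⟩,
      ⟨(v 3).re / n5 z - 2 * S5 z v * (z 3).re / (n5 z) ^ 2,
        (v 3).im / n5 z - 2 * S5 z v * (z 3).im / (n5 z) ^ 2⟩] := by
  apply ext8
  intro j
  unfold D5
  rw [mkL_apply]
  fin_cases j <;> simp [dn5_apply] <;> (try constructor) <;> ring

theorem D3_apply (z v : V4) : D3 z v =
    ![⟨(v 0).re / n3 z - 2 * S3 z v * (z 0).re / (n3 z) ^ 2,
        (v 0).im / n3 z - 2 * S3 z v * (z 0).im / (n3 z) ^ 2⟩,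
      ⟨(v 1).re / n3 z - 2 * S3 z v * (z 1).re / (n3 z) ^ 2, (v 1).im⟩, v 2, v 3] := by
  apply ext8
  intro j
  unfold D3
  rw [mkL_apply]
  fin_cases j <;> simp [dn3_apply] <;> (try constructor) <;> ring

theorem S5_fr (σ τ : ℝ) (z v : V4) : S5 z (fr σ τ z v) =
    ((1 - n5 z) * S5 z v - 2 * τ * (v 1).re * n5 z) / 2 := by
  have h : S5 z (fr σ τ z v) = ((1 + n5 z) * S5 z v - 2 * (S5 z v + τ * (v 1).re) * n5 z) / 2 := by
    conv_lhs => unfold S5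
    simp only [fr, Matrix.cons_val_one, Matrix.cons_val_zero, Matrix.cons_val]
    conv_rhs => enter [1, 1, 2]; unfold S5
    conv_rhs => enter [1, 2, 2]; unfold n5
    ring
  rw [h]; ring

theorem S3_fr (σ τ : ℝ) (z v : V4) : S3 z (fr σ τ z v) = σ * (1 + n3 z) * pg τ z v / 2 := by
  have h : S3 z (fr σ τ z v) = (σ * (1 - n3 z) * pg τ z v + 2 * σ * pg τ z v * n3 z) / 2 := by
    conv_lhs => unfold S3
    simp only [fr, Matrix.cons_val_one, Matrix.cons_val_zero]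
    conv_rhs => enter [1, 1, 2]; unfold pg
    conv_rhs => enter [1, 2, 2]; unfold n3
    ring
  rw [h]; ring

theorem Fr_inv5 (σ τ : ℝ) {z : V4} (h : n5 z ≠ 0) :
    fderiv ℝ inv5 z ∘L Fr σ τ z = Fr σ (-τ) (inv5 z) := by
  ext1 v
  rw [ContinuousLinearMap.comp_apply, fderiv_inv5 h, D5_apply, Fr_apply, Fr_apply, S5_fr]
  apply ext8
  intro j
  unfold fr
  rw [ga_inv5 τ h, pg_inv5 τ h, n3_inv5, n5_inv5 h, S5_inv5]
  fin_cases j
  · simp [inv5]
  · simp only [inv5, Fin.mk_one, Matrix.cons_val_one, Matrix.cons_val_zero, Matrix.cons_val]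
    constructor
    · trivial
    · field_simp; ring
  · simp only [inv5, Fin.reduceFinMk, Matrix.cons_val_one, Matrix.cons_val_zero, Matrix.cons_val]
    constructor
    · field_simp; ring
    · field_simp; ring
  · simp only [inv5, Fin.reduceFinMk, Matrix.cons_val_one, Matrix.cons_val_zero, Matrix.cons_val]
    constructor
    · field_simp; ring
    · field_simp; ring

theorem Fr_inv3 (σ τ : ℝ) {z : V4} (h : n3 z ≠ 0) :
    fderiv ℝ inv3 z ∘L Fr σ τ z = Fr (-σ) τ (inv3 z) := by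
  ext1 v
  rw [ContinuousLinearMap.comp_apply, fderiv_inv3 h, D3_apply, Fr_apply, Fr_apply, S3_fr]
  apply ext8
  intro j
  unfold fr
  rw [ga_inv3, pg_inv3, n3_inv3 h, n5_inv3, S5_inv3]
  fin_cases j
  · simp only [inv3, Fin.zero_eta, Matrix.cons_val_one, Matrix.cons_val_zero, Matrix.cons_val]
    constructor
    · field_simp; ring
    · field_simp; ring
  · simp only [inv3, Fin.mk_one, Matrix.cons_val_one, Matrix.cons_val_zero, Matrix.cons_val]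
    constructor
    · field_simp; ring
    · trivial
  · simp [inv3]
  · simp [inv3]

theorem cross_norm {σ : ℝ} (hσ : σ = 1 ∨ σ = -1) (p1 p2 p3 g1 g2 g3 : ℝ)
    (h1 : (σ * (1 - (p1 ^ 2 + p2 ^ 2 + p3 ^ 2)) * g1 + 2 * (p2 * g3 - p3 * g2) +
        2 * σ * (p1 * g1 + p2 * g2 + p3 * g3) * p1) / 2 = 0)
    (h2 : (σ * (1 - (p1 ^ 2 + p2 ^ 2 + p3 ^ 2)) * g2 + 2 * (p3 * g1 - p1 * g3) +
        2 * σ * (p1 * g1 + p2 * g2 + p3 * g3) * p2) / 2 = 0)
    (h3 : (σ * (1 - (p1 ^ 2 + p2 ^ 2 + p3 ^ 2)) * g3 + 2 * (p1 * g2 - p2 * g1) +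
        2 * σ * (p1 * g1 + p2 * g2 + p3 * g3) * p3) / 2 = 0) : g1 = 0 ∧ g2 = 0 ∧ g3 = 0 := by
  have key : (1 + (p1 ^ 2 + p2 ^ 2 + p3 ^ 2)) ^ 2 * (g1 ^ 2 + g2 ^ 2 + g3 ^ 2) = 0 := by
    have h1' : (σ * (1 - (p1 ^ 2 + p2 ^ 2 + p3 ^ 2)) * g1 + 2 * (p2 * g3 - p3 * g2) +
        2 * σ * (p1 * g1 + p2 * g2 + p3 * g3) * p1) = 0 := by linarith
    have h2' : (σ * (1 - (p1 ^ 2 + p2 ^ 2 + p3 ^ 2)) * g2 + 2 * (p3 * g1 - p1 * g3) +
        2 * σ * (p1 * g1 + p2 * g2 + p3 * g3) * p2) = 0 := by linarith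
    have h3' : (σ * (1 - (p1 ^ 2 + p2 ^ 2 + p3 ^ 2)) * g3 + 2 * (p1 * g2 - p2 * g1) +
        2 * σ * (p1 * g1 + p2 * g2 + p3 * g3) * p3) = 0 := by linarith
    have : (1 + (p1 ^ 2 + p2 ^ 2 + p3 ^ 2)) ^ 2 * (g1 ^ 2 + g2 ^ 2 + g3 ^ 2) =
        (σ * (1 - (p1 ^ 2 + p2 ^ 2 + p3 ^ 2)) * g1 + 2 * (p2 * g3 - p3 * g2) +
          2 * σ * (p1 * g1 + p2 * g2 + p3 * g3) * p1) ^ 2 +
        (σ * (1 - (p1 ^ 2 + p2 ^ 2 + p3 ^ 2)) * g2 + 2 * (p3 * g1 - p1 * g3) +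
          2 * σ * (p1 * g1 + p2 * g2 + p3 * g3) * p2) ^ 2 +
        (σ * (1 - (p1 ^ 2 + p2 ^ 2 + p3 ^ 2)) * g3 + 2 * (p1 * g2 - p2 * g1) +
          2 * σ * (p1 * g1 + p2 * g2 + p3 * g3) * p3) ^ 2 := by
      rcases hσ with rfl | rfl <;> ring
    rw [this, h1', h2', h3']
    ring
  have hpos : 0 < (1 + (p1 ^ 2 + p2 ^ 2 + p3 ^ 2)) ^ 2 := by positivity
  have h4 : g1 ^ 2 + g2 ^ 2 + g3 ^ 2 = 0 := by
    rcases mul_eq_zero.mp key with h | h
    · exact absurd h hpos.ne'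
    · exact h
  refine ⟨?_, ?_, ?_⟩
  · have : g1 ^ 2 = 0 := by nlinarith [sq_nonneg g1, sq_nonneg g2, sq_nonneg g3]
    exact pow_eq_zero_iff (by norm_num) |>.mp this
  · have : g2 ^ 2 = 0 := by nlinarith [sq_nonneg g1, sq_nonneg g2, sq_nonneg g3]
    exact pow_eq_zero_iff (by norm_num) |>.mp this
  · have : g3 ^ 2 = 0 := by nlinarith [sq_nonneg g1, sq_nonneg g2, sq_nonneg g3]
    exact pow_eq_zero_iff (by norm_num) |>.mp this

theorem Fr_injective {σ τ : ℝ} (hσ : σ = 1 ∨ σ = -1) (hτ : τ = 1 ∨ τ = -1) (z : V4) :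
    Function.Injective (Fr σ τ z) := by
  rw [injective_iff_map_eq_zero]
  intro v hv
  rw [Fr_apply] at hv
  have c := fun j => congrFun hv j
  have c0 := c 0
  have c1 := c 1
  have c2 := c 2
  have c3 := c 3
  simp only [fr, Matrix.cons_val_one, Matrix.cons_val_zero, Matrix.cons_val, Pi.zero_apply,
    Complex.ext_iff, Complex.zero_re, Complex.zero_im] at c0 c1 c2 c3
  obtain ⟨hg1, hg2, hg3⟩ := cross_norm hσ (z 0).re (z 0).im (z 1).re (v 0).re (v 0).im (ga τ z v)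
    c0.1 c0.2 c1.1
  have hN := n5_nonneg z
  have hgn := one_add_n5_pos z
  have hga : τ * (v 1).re * (1 - n5 z) + 2 * S5 z v = 0 := by
    unfold ga at hg3
    rcases div_eq_zero_iff.mp hg3 with h | h
    · exact h
    · exact absurd h hgn.ne'
  have e1 := c1.2
  have e2 := c2.1
  have e3 := c2.2
  have e4 := c3.1
  have e5 := c3.2
  have hS : (1 + n5 z) * S5 z v - 2 * (S5 z v + τ * (v 1).re) * n5 z = 0 := by
    have h : (1 + n5 z) * S5 z v - 2 * (S5 z v + τ * (v 1).re) * n5 z =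
      2 * ((z 1).im * (((1 + n5 z) * (v 1).im - 2 * (S5 z v + τ * (v 1).re) * (z 1).im) / 2) +
        (z 2).re * (((1 + n5 z) * (v 2).re - 2 * (S5 z v + τ * (v 1).re) * (z 2).re) / 2) +
        (z 2).im * (((1 + n5 z) * (v 2).im - 2 * (S5 z v + τ * (v 1).re) * (z 2).im) / 2) +
        (z 3).re * (((1 + n5 z) * (v 3).re - 2 * (S5 z v + τ * (v 1).re) * (z 3).re) / 2) +
        (z 3).im * (((1 + n5 z) * (v 3).im - 2 * (S5 z v + τ * (v 1).re) * (z 3).im) / 2)) := by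
      have h1 : S5 z v = (z 1).im * (v 1).im + (z 2).re * (v 2).re + (z 2).im * (v 2).im +
        (z 3).re * (v 3).re + (z 3).im * (v 3).im := rfl
      have h2 : n5 z = (z 1).im ^ 2 + (z 2).re ^ 2 + (z 2).im ^ 2 + (z 3).re ^ 2 + (z 3).im ^ 2 := rfl
      have h3 : ∀ N S K : ℝ, (1 + N) * S - 2 * K * N = (1 + N) * (S - ((z 1).im * (v 1).im +
        (z 2).re * (v 2).re + (z 2).im * (v 2).im + (z 3).re * (v 3).re + (z 3).im * (v 3).im)) -
        2 * K * (N - ((z 1).im ^ 2 + (z 2).re ^ 2 + (z 2).im ^ 2 + (z 3).re ^ 2 + (z 3).im ^ 2)) +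
        2 * ((z 1).im * (((1 + N) * (v 1).im - 2 * K * (z 1).im) / 2) +
        (z 2).re * (((1 + N) * (v 2).re - 2 * K * (z 2).re) / 2) +
        (z 2).im * (((1 + N) * (v 2).im - 2 * K * (z 2).im) / 2) +
        (z 3).re * (((1 + N) * (v 3).re - 2 * K * (z 3).re) / 2) +
        (z 3).im * (((1 + N) * (v 3).im - 2 * K * (z 3).im) / 2)) := by
        intro N S K; ring
      have h4 := h3 (n5 z) (S5 z v) (S5 z v + τ * (v 1).re)
      rw [sub_eq_zero.mpr h1, sub_eq_zero.mpr h2] at h4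
      linarith
    rw [h, e1, e2, e3, e4, e5]
    ring
  have hW : τ * (v 1).re = 0 := by
    have h1 : τ * (v 1).re * (1 + n5 z) ^ 2 = 0 := by
      linear_combination (1 - n5 z) * hga - 2 * hS
    rcases mul_eq_zero.mp h1 with h | h
    · exact h
    · exact absurd h (by positivity)
  have hS0 : S5 z v = 0 := by
    rw [hW] at hga
    linarith
  have hτ0 : τ ≠ 0 := by rcases hτ with rfl | rfl <;> norm_num
  have hv1 : (v 1).re = 0 := (mul_eq_zero.mp hW).resolve_left hτ0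
  have fin : ∀ x y : ℝ, ((1 + n5 z) * x - 2 * (S5 z v + τ * (v 1).re) * y) / 2 = 0 → x = 0 := by
    intro x y h
    rw [hS0, hW] at h
    have h2 : (1 + n5 z) * x = 0 := by linarith
    exact (mul_eq_zero.mp h2).resolve_left hgn.ne'
  apply ext8
  intro j
  fin_cases j
  · exact ⟨hg1, hg2⟩
  · exact ⟨hv1, fin _ _ e1⟩
  · exact ⟨fin _ _ e2, fin _ _ e3⟩
  · exact ⟨fin _ _ e4, fin _ _ e5⟩

theorem Fr_bijective {σ τ : ℝ} (hσ : σ = 1 ∨ σ = -1) (hτ : τ = 1 ∨ τ = -1) (z : V4) :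
    Function.Bijective (Fr σ τ z) := by
  have h := Fr_injective hσ hτ z
  exact ⟨h, (LinearMap.injective_iff_surjective (f := (Fr σ τ z : V4 →ₗ[ℝ] V4))).mp h⟩

end B3

/-- B3: global frame of the product of spheres, in the charts a, b, c and in the coordinate xi. -/
theorem exists_frame : ∃ Pa Pb Pc Px : V4 → (V4 →L[ℝ] V4),
    (ContDiff ℝ ∞ Pa ∧ ContDiff ℝ ∞ Pb ∧ ContDiff ℝ ∞ Pc ∧ ContDiff ℝ ∞ Px) ∧
    (∀ z, Function.Bijective (Pa z) ∧ Function.Bijective (Pb z) ∧ Function.Bijective (Pc z) ∧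
      Function.Bijective (Px z)) ∧
    (∀ z, n5 z ≠ 0 → fderiv ℝ inv5 z ∘L Pa z = Pc (inv5 z)) ∧
    (∀ z, n3 z ≠ 0 → fderiv ℝ inv3 z ∘L Pb z = Pc (inv3 z)) ∧
    (∀ z, n3 z ≠ 0 → fderiv ℝ inv3 z ∘L Pa z = Px (inv3 z)) ∧
    (∀ z, n5 z ≠ 0 → fderiv ℝ inv5 z ∘L Pb z = Px (inv5 z)) := by
  refine ⟨B3.Fr (-1) 1, B3.Fr 1 (-1), B3.Fr (-1) (-1), B3.Fr 1 1,
    ⟨B3.contDiff_Fr _ _, B3.contDiff_Fr _ _, B3.contDiff_Fr _ _, B3.contDiff_Fr _ _⟩,
    fun z => ⟨B3.Fr_bijective (by norm_num) (by norm_num) z,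
      B3.Fr_bijective (by norm_num) (by norm_num) z, B3.Fr_bijective (by norm_num) (by norm_num) z,
      B3.Fr_bijective (by norm_num) (by norm_num) z⟩, ?_, ?_, ?_, ?_⟩
  · intro z h; exact B3.Fr_inv5 _ _ h
  · intro z h; exact B3.Fr_inv3 _ _ h
  · intro z h
    have := B3.Fr_inv3 (-1) 1 h
    rwa [neg_neg] at this
  · intro z h
    have := B3.Fr_inv5 1 (-1) h
    rwa [neg_neg] at this

end Pool.Agent.Work.MP_2a78db_gt
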