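import Pool.Agent.Work.MP_2a78db_gt.A3
import Pool.Agent.Work.MP_2a78db_gt.B3

/-!
Module B2: an almost complex structure on the 8-manifold.
-/

namespace Pool.Agent.Work.MP_2a78db_gt

open scoped Topology ContDiff

namespace B2

/-! ### linear algebra -/

theorem exists_equiv {P : V4 →L[ℝ] V4} (h : Function.Bijective P) :
    ∃ e : V4 ≃L[ℝ] V4, (e : V4 →L[ℝ] V4) = P := by
  refine ⟨(LinearEquiv.ofBijective (P : V4 →ₗ[ℝ] V4) h).toContinuousLinearEquiv, ?_⟩
  ext v : 1
  rfl

theorem inverse_apply {P : V4 →L[ℝ] V4} (h : Function.Bijective P) (v : V4) :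
    P.inverse (P v) = v := by
  obtain ⟨e, rfl⟩ := exists_equiv h
  rw [ContinuousLinearMap.inverse_equiv]
  exact e.symm_apply_apply v

theorem apply_inverse {P : V4 →L[ℝ] V4} (h : Function.Bijective P) (v : V4) :
    P (P.inverse v) = v := by
  obtain ⟨e, rfl⟩ := exists_equiv h
  rw [ContinuousLinearMap.inverse_equiv]
  exact e.apply_symm_apply v

theorem cd_inverse {P : V4 → (V4 →L[ℝ] V4)} (hP : ContDiff ℝ ∞ P)
    (hb : ∀ z, Function.Bijective (P z)) : ContDiff ℝ ∞ fun z => (P z).inverse := by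
  rw [contDiff_iff_contDiffAt]
  intro z
  obtain ⟨e, he⟩ := exists_equiv (hb z)
  have h := contDiffAt_map_inverse (n := ∞) e
  rw [he] at h
  exact h.comp z hP.contDiffAt

/-- conjugation -/
noncomputable def cj (P A : V4 →L[ℝ] V4) : V4 →L[ℝ] V4 := P ∘L A ∘L P.inverse

theorem cj_apply {P : V4 →L[ℝ] V4} (h : Function.Bijective P) (A : V4 →L[ℝ] V4) (v : V4) :
    cj P A (P v) = P (A v) := by
  simp [cj, inverse_apply h]

theorem cj_sq {P : V4 →L[ℝ] V4} (h : Function.Bijective P) {A : V4 →L[ℝ] V4}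
    (hA : ∀ v, A (A v) = -v) (v : V4) : cj P A (cj P A v) = -v := by
  obtain ⟨u, rfl⟩ := h.2 v
  rw [cj_apply h, cj_apply h, hA, map_neg]

theorem cd_cj {P A : V4 → (V4 →L[ℝ] V4)} (hP : ContDiff ℝ ∞ P)
    (hb : ∀ z, Function.Bijective (P z)) (hA : ContDiff ℝ ∞ A) :
    ContDiff ℝ ∞ fun z => cj (P z) (A z) :=
  hP.clm_comp (hA.clm_comp (cd_inverse hP hb))

/-- conjugation by the inverse -/
noncomputable def cji (P A : V4 →L[ℝ] V4) : V4 →L[ℝ] V4 := P.inverse ∘L A ∘L P

theorem apply_cji {P : V4 →L[ℝ] V4} (h : Function.Bijective P) (A : V4 →L[ℝ] V4) (v : V4) :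
    P (cji P A v) = A (P v) := by
  simp [cji, apply_inverse h]

theorem cji_sq {P : V4 →L[ℝ] V4} (h : Function.Bijective P) {A : V4 →L[ℝ] V4}
    (hA : ∀ v, A (A v) = -v) (v : V4) : cji P A (cji P A v) = -v := by
  apply h.1
  rw [apply_cji h, apply_cji h, hA, map_neg]

theorem cd_cji {P A : V4 → (V4 →L[ℝ] V4)} (hP : ContDiff ℝ ∞ P)
    (hb : ∀ z, Function.Bijective (P z)) (hA : ContDiff ℝ ∞ A) :
    ContDiff ℝ ∞ fun z => cji (P z) (A z) :=
  (cd_inverse hP hb).clm_comp (hA.clm_comp hP)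

theorem cj_cji {P : V4 →L[ℝ] V4} (h : Function.Bijective P) (A : V4 →L[ℝ] V4) :
    cj P (cji P A) = A := by
  ext v : 1
  obtain ⟨u, rfl⟩ := h.2 v
  rw [cj_apply h, apply_cji h]

theorem cji_cj {P : V4 →L[ℝ] V4} (h : Function.Bijective P) (A : V4 →L[ℝ] V4) :
    cji P (cj P A) = A := by
  ext v : 1
  apply h.1
  rw [apply_cji h, cj_apply h]

/-- multiplication by `i` -/
noncomputable def I4 : V4 →L[ℝ] V4 := Complex.I • ContinuousLinearMap.id ℝ V4

theorem I4_apply (v : V4) : I4 v = Complex.I • v := rfl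

theorem I4_sq (v : V4) : I4 (I4 v) = -v := by
  rw [I4_apply, I4_apply, smul_smul, Complex.I_mul_I, neg_one_smul]

/-! ### coordinates -/

theorem inv3_inv3 {z : V4} (hz : n3 z ≠ 0) : inv3 (inv3 z) = z := by
  have h := A3.n3_inv3 hz
  funext j
  fin_cases j
  · apply Complex.ext
    · change (z 0).re / n3 z / n3 (inv3 z) = (z 0).re
      rw [h]; field_simp
    · change (z 0).im / n3 z / n3 (inv3 z) = (z 0).im
      rw [h]; field_simp
  · apply Complex.ext
    · change (z 1).re / n3 z / n3 (inv3 z) = (z 1).re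
      rw [h]; field_simp
    · rfl
  · rfl
  · rfl

theorem inv5_inv5 {z : V4} (hz : n5 z ≠ 0) : inv5 (inv5 z) = z := by
  have h := A3.n5_inv5 hz
  funext j
  fin_cases j
  · rfl
  · apply Complex.ext
    · rfl
    · change (z 1).im / n5 z / n5 (inv5 z) = (z 1).im
      rw [h]; field_simp
  · apply Complex.ext
    · change (z 2).re / n5 z / n5 (inv5 z) = (z 2).re
      rw [h]; field_simp
    · change (z 2).im / n5 z / n5 (inv5 z) = (z 2).im
      rw [h]; field_simp
  · apply Complex.ext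
    · change (z 3).re / n5 z / n5 (inv5 z) = (z 3).re
      rw [h]; field_simp
    · change (z 3).im / n5 z / n5 (inv5 z) = (z 3).im
      rw [h]; field_simp

theorem inv3_inv5_comm (z : V4) : inv3 (inv5 z) = inv5 (inv3 z) := by
  have h3 := A3.n3_inv5 z
  have h5 := A3.n5_inv3 z
  funext j
  fin_cases j
  · apply Complex.ext
    · change (z 0).re / n3 (inv5 z) = (z 0).re / n3 z
      rw [h3]
    · change (z 0).im / n3 (inv5 z) = (z 0).im / n3 z
      rw [h3]
  · apply Complex.ext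
    · change (z 1).re / n3 (inv5 z) = (z 1).re / n3 z
      rw [h3]
    · change (z 1).im / n5 z = (z 1).im / n5 (inv3 z)
      rw [h5]
  · apply Complex.ext
    · change (z 2).re / n5 z = (z 2).re / n5 (inv3 z)
      rw [h5]
    · change (z 2).im / n5 z = (z 2).im / n5 (inv3 z)
      rw [h5]
  · apply Complex.ext
    · change (z 3).re / n5 z = (z 3).re / n5 (inv3 z)
      rw [h5]
    · change (z 3).im / n5 z = (z 3).im / n5 (inv3 z)
      rw [h5]

theorem n3_inv3_ne {z : V4} (hz : n3 z ≠ 0) : n3 (inv3 z) ≠ 0 := by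
  rw [A3.n3_inv3 hz]; exact inv_ne_zero hz

theorem n5_inv5_ne {z : V4} (hz : n5 z ≠ 0) : n5 (inv5 z) ≠ 0 := by
  rw [A3.n5_inv5 hz]; exact inv_ne_zero hz

theorem blInv_bl {i : Fin 4} {w : V4} (hw : w i ≠ 0) : blInv i (bl i w) = w := by
  funext j
  by_cases hj : j = i
  · simp [blInv, bl, hj]
  · simp [blInv, bl, hj, hw]

theorem bl_blInv {i : Fin 4} {z : V4} (hz : z i ≠ 0) : bl i (blInv i z) = z := by
  funext j
  by_cases hj : j = i
  · simp [blInv, bl, hj]
  · simp only [blInv, bl, hj, if_true, if_false]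
    field_simp

theorem bl_self (i : Fin 4) (w : V4) : bl i w i = w i := by simp [bl]

theorem blInv_self (i : Fin 4) (w : V4) : blInv i w i = w i := by simp [blInv]

theorem to_mem {k : Ch} {z : V4} (hz : z ∈ domXi k) : toXi k z ∈ imXi k := by
  cases k with
  | a => exact n3_inv3_ne hz
  | b => exact n5_inv5_ne hz
  | c =>
    refine ⟨?_, ?_⟩
    · change n3 (inv3 (inv5 z)) ≠ 0
      refine n3_inv3_ne ?_
      rw [A3.n3_inv5]; exact hz.1
    · change n5 (inv3 (inv5 z)) ≠ 0
      rw [A3.n5_inv3]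
      exact n5_inv5_ne hz.2
  | B i =>
    change bl i z i ≠ 0
    rw [bl_self]; exact hz

theorem from_mem {k : Ch} {z : V4} (hz : z ∈ imXi k) : fromXi k z ∈ domXi k := by
  cases k with
  | a => exact n3_inv3_ne hz
  | b => exact n5_inv5_ne hz
  | c =>
    refine ⟨?_, ?_⟩
    · change n3 (inv5 (inv3 z)) ≠ 0
      rw [A3.n3_inv5]; exact n3_inv3_ne hz.1
    · change n5 (inv5 (inv3 z)) ≠ 0
      refine n5_inv5_ne ?_
      rw [A3.n5_inv3]; exact hz.2
  | B i =>
    change blInv i z i ≠ 0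
    rw [blInv_self]; exact hz

theorem from_to {k : Ch} {z : V4} (hz : z ∈ domXi k) : fromXi k (toXi k z) = z := by
  cases k with
  | a => exact inv3_inv3 hz
  | b => exact inv5_inv5 hz
  | c =>
    change inv5 (inv3 (inv3 (inv5 z))) = z
    rw [inv3_inv3, inv5_inv5 hz.2]
    rw [A3.n3_inv5]; exact hz.1
  | B i => exact blInv_bl hz

theorem to_from {k : Ch} {z : V4} (hz : z ∈ imXi k) : toXi k (fromXi k z) = z := by
  cases k with
  | a => exact inv3_inv3 hz
  | b => exact inv5_inv5 hz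
  | c =>
    change inv3 (inv5 (inv5 (inv3 z))) = z
    rw [inv5_inv5, inv3_inv3 hz.1]
    rw [A3.n5_inv3]; exact hz.2
  | B i => exact bl_blInv hz

theorem cd_to_at {k : Ch} {z : V4} (hz : z ∈ domXi k) : ContDiffAt ℝ ∞ (toXi k) z :=
  (A3.cd_toXi k).contDiffAt ((A3.isOpen_domXi k).mem_nhds hz)

theorem cd_from_at {k : Ch} {z : V4} (hz : z ∈ imXi k) : ContDiffAt ℝ ∞ (fromXi k) z :=
  (A3.cd_fromXi k).contDiffAt ((A3.isOpen_imXi k).mem_nhds hz)

theorem infty_ne_zero : (∞ : WithTop ℕ∞) ≠ 0 := by simp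

theorem D_from_to {k : Ch} {z : V4} (hz : z ∈ domXi k) (v : V4) :
    fderiv ℝ (fromXi k) (toXi k z) (fderiv ℝ (toXi k) z v) = v := by
  have h1 := (cd_from_at (to_mem hz)).differentiableAt infty_ne_zero
  have h2 := (cd_to_at hz).differentiableAt infty_ne_zero
  have h3 := fderiv_comp z h1 h2
  have h4 : fromXi k ∘ toXi k =ᶠ[𝓝 z] id := by
    filter_upwards [(A3.isOpen_domXi k).mem_nhds hz] with y hy
    exact from_to hy
  rw [h4.fderiv_eq, fderiv_id] at h3
  exact (congrArg (fun f : V4 →L[ℝ] V4 => f v) h3).symm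

theorem D_to_from {k : Ch} {z : V4} (hz : z ∈ domXi k) (v : V4) :
    fderiv ℝ (toXi k) z (fderiv ℝ (fromXi k) (toXi k z) v) = v := by
  have hm := to_mem hz
  have h1 := (cd_from_at hm).differentiableAt infty_ne_zero
  have h2 : DifferentiableAt ℝ (toXi k) (fromXi k (toXi k z)) := by
    rw [from_to hz]
    exact (cd_to_at hz).differentiableAt infty_ne_zero
  have h3 := fderiv_comp (toXi k z) h2 h1
  have h4 : toXi k ∘ fromXi k =ᶠ[𝓝 (toXi k z)] id := by
    filter_upwards [(A3.isOpen_imXi k).mem_nhds hm] with y hy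
    exact to_from hy
  rw [h4.fderiv_eq, fderiv_id, from_to hz] at h3
  exact (congrArg (fun f : V4 →L[ℝ] V4 => f v) h3).symm

/-- transition maps in the coordinate `xi` -/
theorem T_facts {k l : Ch} {z : V4} (hO : z ∈ O k l) (hz : z ∈ domXi k) :
    T k l z ∈ domXi l ∧ toXi l (T k l z) = toXi k z := by
  have gen : ∀ k l : Ch, z ∈ domXi k → toXi k z ∈ imXi l →
      fromXi l (toXi k z) ∈ domXi l ∧ toXi l (fromXi l (toXi k z)) = toXi k z :=
    fun k l _ h => ⟨from_mem h, to_from h⟩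
  cases k <;> cases l
  case a.a => exact ⟨hz, rfl⟩
  case b.b => exact ⟨hz, rfl⟩
  case c.c => exact ⟨hz, rfl⟩
  case a.b => exact gen _ _ hO.1 hO.2
  case b.a => exact gen _ _ hO.1 hO.2
  case a.B => exact gen _ _ hO.1 hO.2
  case b.B => exact gen _ _ hO.1 hO.2
  case c.B => exact gen _ _ hO.1 hO.2
  case B.a => exact gen _ _ hO.1 hO.2
  case B.b => exact gen _ _ hO.1 hO.2
  case B.c => exact gen _ _ hO.1 hO.2
  case a.c =>
    have h5 : n5 z ≠ 0 := hO
    have h3 : n3 z ≠ 0 := hz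
    refine ⟨⟨?_, n5_inv5_ne h5⟩, ?_⟩
    · change n3 (inv5 z) ≠ 0
      rw [A3.n3_inv5]; exact h3
    · change inv3 (inv5 (inv5 z)) = inv3 z
      rw [inv5_inv5 h5]
  case c.a =>
    have h5 : n5 z ≠ 0 := hO
    have h3 : n3 z ≠ 0 := hz.1
    refine ⟨?_, rfl⟩
    change n3 (inv5 z) ≠ 0
    rw [A3.n3_inv5]; exact h3
  case b.c =>
    have h3 : n3 z ≠ 0 := hO
    have h5 : n5 z ≠ 0 := hz
    refine ⟨⟨n3_inv3_ne h3, ?_⟩, ?_⟩
    · change n5 (inv3 z) ≠ 0
      rw [A3.n5_inv3]; exact h5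
    · change inv3 (inv5 (inv3 z)) = inv5 z
      rw [← inv3_inv5_comm, inv3_inv3]
      rw [A3.n3_inv5]; exact h3
  case c.b =>
    have h3 : n3 z ≠ 0 := hO
    have h5 : n5 z ≠ 0 := hz.2
    refine ⟨?_, ?_⟩
    · change n5 (inv3 z) ≠ 0
      rw [A3.n5_inv3]; exact h5
    · change inv5 (inv3 z) = inv3 (inv5 z)
      rw [inv3_inv5_comm]
  case B.B i j =>
    by_cases h : i = j
    · subst h
      have : T (.B i) (.B i) z = z := by simp [T]
      rw [this]
      exact ⟨hz, rfl⟩
    · have hT : T (.B i) (.B j) z = blT i j z := by simp [T, h]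
      have hzi : z i ≠ 0 := hz
      have hzj : z j ≠ 0 := by
        rcases hO with hO | hO
        · exact absurd hO h
        · exact hO
      rw [hT]
      refine ⟨?_, ?_⟩
      · change blT i j z j ≠ 0
        simp [blT, hzi, hzj]
      · change bl j (blT i j z) = bl i z
        funext k
        by_cases hk : k = j
        · subst hk
          have : ¬ k = i := fun h' => h h'.symm
          simp [bl, blT, this]
        · by_cases hk' : k = i
          · subst hk'
            simp only [bl, blT, hk, if_true, if_false]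
            field_simp
          · simp only [bl, blT, hk, hk', if_true, if_false]
            field_simp

/-! ### frames -/

/-- frames in all charts and in the coordinate `xi` -/
structure FR (PP : Ch → V4 → (V4 →L[ℝ] V4)) (Px : V4 → (V4 →L[ℝ] V4)) : Prop where
  cdP : ∀ k, ContDiff ℝ ∞ (PP k)
  cdx : ContDiff ℝ ∞ Px
  bijP : ∀ k z, Function.Bijective (PP k z)
  bijx : ∀ z, Function.Bijective (Px z)
  ac : ∀ z, n5 z ≠ 0 → ∀ v, fderiv ℝ inv5 z (PP .a z v) = PP .c (inv5 z) v
  ca : ∀ z, n5 z ≠ 0 → ∀ v, fderiv ℝ inv5 z (PP .c z v) = PP .a (inv5 z) v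
  bc : ∀ z, n3 z ≠ 0 → ∀ v, fderiv ℝ inv3 z (PP .b z v) = PP .c (inv3 z) v
  cb : ∀ z, n3 z ≠ 0 → ∀ v, fderiv ℝ inv3 z (PP .c z v) = PP .b (inv3 z) v
  toX : ∀ k, isN k → ∀ z ∈ domXi k, ∀ v, fderiv ℝ (toXi k) z (PP k z v) = Px (toXi k z) v

theorem diff_inv3 {z : V4} (hz : n3 z ≠ 0) : DifferentiableAt ℝ inv3 z :=
  (cd_to_at (k := .a) hz).differentiableAt infty_ne_zero

theorem diff_inv5 {z : V4} (hz : n5 z ≠ 0) : DifferentiableAt ℝ inv5 z :=
  (cd_to_at (k := .b) hz).differentiableAt infty_ne_zero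

theorem D_inv3_inv3 {z : V4} (hz : n3 z ≠ 0) (v : V4) :
    fderiv ℝ inv3 z (fderiv ℝ inv3 (inv3 z) v) = v := D_to_from (k := .a) hz v

theorem D_inv5_inv5 {z : V4} (hz : n5 z ≠ 0) (v : V4) :
    fderiv ℝ inv5 z (fderiv ℝ inv5 (inv5 z) v) = v := D_to_from (k := .b) hz v

theorem exists_FR : ∃ PP Px, FR PP Px := by
  obtain ⟨Pa, Pb, Pc, Px, ⟨ha, hb, hc, hx⟩, hbij, h1, h2, h3, h4⟩ := exists_frame
  have e1 : ∀ z, n5 z ≠ 0 → ∀ v, fderiv ℝ inv5 z (Pa z v) = Pc (inv5 z) v :=
    fun z hz v => congrArg (fun f : V4 →L[ℝ] V4 => f v) (h1 z hz)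
  have e2 : ∀ z, n3 z ≠ 0 → ∀ v, fderiv ℝ inv3 z (Pb z v) = Pc (inv3 z) v :=
    fun z hz v => congrArg (fun f : V4 →L[ℝ] V4 => f v) (h2 z hz)
  have e3 : ∀ z, n3 z ≠ 0 → ∀ v, fderiv ℝ inv3 z (Pa z v) = Px (inv3 z) v :=
    fun z hz v => congrArg (fun f : V4 →L[ℝ] V4 => f v) (h3 z hz)
  have e4 : ∀ z, n5 z ≠ 0 → ∀ v, fderiv ℝ inv5 z (Pb z v) = Px (inv5 z) v :=
    fun z hz v => congrArg (fun f : V4 →L[ℝ] V4 => f v) (h4 z hz)
  have e5 : ∀ z, n5 z ≠ 0 → ∀ v, fderiv ℝ inv5 z (Pc z v) = Pa (inv5 z) v := by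
    intro z hz v
    have h := e1 (inv5 z) (n5_inv5_ne hz) v
    rw [inv5_inv5 hz] at h
    rw [← h, D_inv5_inv5 hz]
  have e6 : ∀ z, n3 z ≠ 0 → ∀ v, fderiv ℝ inv3 z (Pc z v) = Pb (inv3 z) v := by
    intro z hz v
    have h := e2 (inv3 z) (n3_inv3_ne hz) v
    rw [inv3_inv3 hz] at h
    rw [← h, D_inv3_inv3 hz]
  refine ⟨fun k => match k with
    | .a => Pa
    | .b => Pb
    | .c => Pc
    | .B _ => fun _ => ContinuousLinearMap.id ℝ V4, Px, ?_, hx, ?_, fun z => (hbij z).2.2.2,
    e1, e5, e2, e6, ?_⟩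
  · intro k
    cases k with
    | a => exact ha
    | b => exact hb
    | c => exact hc
    | B i => exact contDiff_const
  · intro k z
    cases k with
    | a => exact (hbij z).1
    | b => exact (hbij z).2.1
    | c => exact (hbij z).2.2.1
    | B i => exact Function.bijective_id
  · intro k hk z hz v
    cases k with
    | a => exact e3 z hz v
    | b => exact e4 z hz v
    | c =>
      have hn3 : n3 z ≠ 0 := hz.1
      have hn5 : n5 z ≠ 0 := hz.2
      have hn3' : n3 (inv5 z) ≠ 0 := by rw [A3.n3_inv5]; exact hn3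
      have hc : fderiv ℝ (toXi .c) z = (fderiv ℝ inv3 (inv5 z)).comp (fderiv ℝ inv5 z) :=
        fderiv_comp z (diff_inv3 hn3') (diff_inv5 hn5)
      rw [hc]
      change fderiv ℝ inv3 (inv5 z) (fderiv ℝ inv5 z (Pc z v)) = Px (inv3 (inv5 z)) v
      rw [e5 z hn5, e3 (inv5 z) hn3']
    | B i => exact absurd hk id

/-! ### the cutoff -/

/-- the squared norm -/
def nn (z : V4) : ℝ := n3 z + n5 z

theorem cd_nn : ContDiff ℝ ∞ nn := A3.cd_n3.add A3.cd_n5

theorem n3_nonneg (z : V4) : 0 ≤ n3 z := by unfold n3; positivity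

theorem n5_nonneg (z : V4) : 0 ≤ n5 z := by unfold n5; positivity

/-- the cutoff function, `0` near the origin and `1` outside the unit ball -/
noncomputable def kap (z : V4) : ℝ := Real.smoothTransition ((4 * nn z - 1) / 3)

theorem cd_kap : ContDiff ℝ ∞ kap :=
  Real.smoothTransition.contDiff.comp
    (((contDiff_const.mul cd_nn).sub contDiff_const).div_const 3)

theorem kap_one {z : V4} (h : 1 ≤ nn z) : kap z = 1 :=
  Real.smoothTransition.one_of_one_le (by linarith)

theorem kap_zero {z : V4} (h : nn z ≤ 1 / 4) : kap z = 0 :=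
  Real.smoothTransition.zero_of_nonpos (by linarith)

section

variable (PP : Ch → V4 → (V4 →L[ℝ] V4)) (Px : V4 → (V4 →L[ℝ] V4))

/-- the constant value far from the origin -/
noncomputable def Jst : V4 →L[ℝ] V4 := cji (Px 0) I4

/-- the structure in the coordinate `xi` -/
noncomputable def Jx (z : V4) : V4 →L[ℝ] V4 := cj (Px (kap z • z)) (Jst Px)

/-- the structure in the coordinate `xi`, in the frame -/
noncomputable def JJ (z : V4) : V4 →L[ℝ] V4 := cji (Px z) (Jx Px z)

open Classical in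
/-- the structure in the chart `k`, in the frame -/
noncomputable def JJk (k : Ch) (z : V4) : V4 →L[ℝ] V4 :=
  if z ∈ domXi k then JJ Px (toXi k z) else Jst Px

open Classical in
/-- the structure in the chart `k` -/
noncomputable def Jk : Ch → V4 → (V4 →L[ℝ] V4)
  | .a => fun z => cj (PP .a z) (JJk Px .a z)
  | .b => fun z => cj (PP .b z) (JJk Px .b z)
  | .c => fun z => cj (PP .c z) (JJk Px .c z)
  | .B i => fun w => if w i = 0 then I4 else
      fderiv ℝ (blInv i) (bl i w) ∘L (Jx Px (bl i w) ∘L fderiv ℝ (bl i) w)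

variable {PP Px}

theorem Jk_N {k : Ch} (hk : isN k) (z : V4) : Jk PP Px k z = cj (PP k z) (JJk Px k z) := by
  cases k with
  | a => rfl
  | b => rfl
  | c => rfl
  | B i => exact absurd hk id

variable (h : FR PP Px)

include h

theorem Jst_sq (v : V4) : Jst Px (Jst Px v) = -v := cji_sq (h.bijx 0) I4_sq v

theorem Jx_sq (z v : V4) : Jx Px z (Jx Px z v) = -v := cj_sq (h.bijx _) (Jst_sq h) v

theorem JJ_sq (z v : V4) : JJ Px z (JJ Px z v) = -v := cji_sq (h.bijx _) (Jx_sq h z) v

theorem JJk_sq (k : Ch) (z v : V4) : JJk Px k z (JJk Px k z v) = -v := by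
  unfold JJk
  split_ifs
  · exact JJ_sq h _ v
  · exact Jst_sq h v

theorem cd_Jx : ContDiff ℝ ∞ (Jx Px) :=
  cd_cj (h.cdx.comp (cd_kap.smul contDiff_id)) (fun _ => h.bijx _) contDiff_const

theorem cd_JJ : ContDiff ℝ ∞ (JJ Px) := cd_cji h.cdx h.bijx (cd_Jx h)

theorem Jx_small {z : V4} (hz : nn z ≤ 1 / 4) : Jx Px z = I4 := by
  unfold Jx Jst
  rw [kap_zero hz, zero_smul]
  exact cj_cji (h.bijx 0) I4

theorem JJ_large {z : V4} (hz : 1 ≤ nn z) : JJ Px z = Jst Px := by
  unfold JJ Jx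
  rw [kap_one hz, one_smul]
  exact cji_cj (h.bijx z) _

omit h in
theorem large_of_not_mem {k : Ch} (hk : isN k) {z : V4} (hz : z ∉ domXi k) :
    ∀ᶠ y in 𝓝 z, y ∈ domXi k → 1 ≤ nn (toXi k y) := by
  have key : ∀ t : ℝ, 0 ≤ t → t ≠ 0 → t < 1 → 1 ≤ t⁻¹ := by
    intro t h0 h1 h2
    have h3 : 0 < t := lt_of_le_of_ne h0 h1.symm
    rw [one_le_inv₀ h3]
    exact h2.le
  have a3 : n3 z = 0 → ∀ᶠ y in 𝓝 z, n3 y < 1 := by
    intro h0
    have : ContinuousAt n3 z := A3.cd_n3.continuous.continuousAt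
    exact this.eventually_lt continuousAt_const (by rw [h0]; norm_num)
  have a5 : n5 z = 0 → ∀ᶠ y in 𝓝 z, n5 y < 1 := by
    intro h0
    have : ContinuousAt n5 z := A3.cd_n5.continuous.continuousAt
    exact this.eventually_lt continuousAt_const (by rw [h0]; norm_num)
  cases k with
  | a =>
    have h0 : n3 z = 0 := by
      by_contra hne; exact hz hne
    filter_upwards [a3 h0] with y hy hyd
    have hyn : n3 y ≠ 0 := hyd
    change 1 ≤ n3 (inv3 y) + n5 (inv3 y)
    rw [A3.n3_inv3 hyn]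
    have := key _ (n3_nonneg y) hyn hy
    have := n5_nonneg (inv3 y)
    linarith
  | b =>
    have h0 : n5 z = 0 := by
      by_contra hne; exact hz hne
    filter_upwards [a5 h0] with y hy hyd
    have hyn : n5 y ≠ 0 := hyd
    change 1 ≤ n3 (inv5 y) + n5 (inv5 y)
    rw [A3.n5_inv5 hyn]
    have := key _ (n5_nonneg y) hyn hy
    have := n3_nonneg (inv5 y)
    linarith
  | c =>
    have h0 : n3 z = 0 ∨ n5 z = 0 := by
      by_contra hne
      push Not at hne
      exact hz hne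
    rcases h0 with h0 | h0
    · filter_upwards [a3 h0] with y hy hyd
      have hyn : n3 y ≠ 0 := hyd.1
      change 1 ≤ n3 (inv3 (inv5 y)) + n5 (inv3 (inv5 y))
      have h1 : n3 (inv5 y) = n3 y := A3.n3_inv5 y
      rw [A3.n3_inv3 (by rw [h1]; exact hyn), h1]
      have := key _ (n3_nonneg y) hyn hy
      have := n5_nonneg (inv3 (inv5 y))
      linarith
    · filter_upwards [a5 h0] with y hy hyd
      have hyn : n5 y ≠ 0 := hyd.2
      change 1 ≤ n3 (inv3 (inv5 y)) + n5 (inv3 (inv5 y))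
      rw [A3.n5_inv3, A3.n5_inv5 hyn]
      have := key _ (n5_nonneg y) hyn hy
      have := n3_nonneg (inv3 (inv5 y))
      linarith
  | B i => exact absurd hk id

theorem cd_JJk {k : Ch} (hk : isN k) : ContDiff ℝ ∞ (JJk Px k) := by
  rw [contDiff_iff_contDiffAt]
  intro z
  by_cases hz : z ∈ domXi k
  · have h1 : ContDiffAt ℝ ∞ (fun y => JJ Px (toXi k y)) z :=
      (cd_JJ h).contDiffAt.comp z (cd_to_at hz)
    refine h1.congr_of_eventuallyEq ?_
    filter_upwards [(A3.isOpen_domXi k).mem_nhds hz] with y hy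
    simp [JJk, hy]
  · have h1 : ContDiffAt ℝ ∞ (fun _ : V4 => Jst Px) z := contDiffAt_const
    refine h1.congr_of_eventuallyEq ?_
    filter_upwards [large_of_not_mem hk hz] with y hy
    unfold JJk
    split_ifs with hd
    · exact JJ_large h (hy hd)
    · rfl

/-! ### complex linearity -/

omit h in
theorem fderiv_I {f : V4 → V4} {z : V4} (hf : DifferentiableAt ℂ f z) (v : V4) :
    fderiv ℝ f z (I4 v) = I4 (fderiv ℝ f z v) := by
  rw [hf.fderiv_restrictScalars ℝ]
  simp only [ContinuousLinearMap.coe_restrictScalars', I4_apply, map_smul]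

omit h in
theorem diffC_bl (i : Fin 4) : Differentiable ℂ (bl i) := by
  rw [differentiable_pi]
  intro j
  unfold bl
  by_cases hj : j = i
  · simp only [hj, if_true]
    exact differentiable_apply i
  · simp only [hj, if_false]
    exact (differentiable_apply i).mul (differentiable_apply j)

omit h in
theorem diffC_blT (i j : Fin 4) {w : V4} (hw : w j ≠ 0) : DifferentiableAt ℂ (blT i j) w := by
  have ap : ∀ k : Fin 4, DifferentiableAt ℂ (fun w : V4 => w k) w := fun k =>
    (differentiable_apply k).differentiableAt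
  have dv : ∀ f : V4 → ℂ, DifferentiableAt ℂ f w → DifferentiableAt ℂ (fun w => f w / w j) w := by
    intro f hf
    simp only [div_eq_mul_inv]
    exact hf.mul ((ap j).inv hw)
  rw [differentiableAt_pi]
  intro k
  unfold blT
  by_cases hk : k = j
  · simp only [hk, if_true]
    exact (ap i).mul (ap j)
  · by_cases hk' : k = i
    · simp only [hk, hk', if_false, if_true]
      by_cases hij : i = j
      · exact absurd (hk'.trans hij) hk
      · simp only [hij, if_false]
        exact dv _ (differentiableAt_const _)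
    · simp only [hk, hk', if_false]
      exact dv _ (ap k)

omit h in
theorem Jk_B_of_ne {i : Fin 4} {w : V4} (hw : w i ≠ 0) (v : V4) :
    Jk PP Px (.B i) w v = fderiv ℝ (blInv i) (bl i w) (Jx Px (bl i w) (fderiv ℝ (bl i) w v)) := by
  simp [Jk, hw]

omit h in
theorem Jk_B_of_eq {i : Fin 4} {w : V4} (hw : w i = 0) : Jk PP Px (.B i) w = I4 := by
  simp [Jk, hw]

theorem Jk_B_small {i : Fin 4} {w : V4} (hw : nn (bl i w) ≤ 1 / 4) : Jk PP Px (.B i) w = I4 := by
  by_cases h0 : w i = 0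
  · exact Jk_B_of_eq h0
  · ext v : 1
    rw [Jk_B_of_ne h0, Jx_small h hw, ← fderiv_I (diffC_bl i w)]
    exact D_from_to (k := .B i) h0 _

theorem cd_Jk (k : Ch) : ContDiff ℝ ∞ (Jk PP Px k) := by
  cases k with
  | a => exact cd_cj (h.cdP _) (h.bijP _) (cd_JJk h trivial)
  | b => exact cd_cj (h.cdP _) (h.bijP _) (cd_JJk h trivial)
  | c => exact cd_cj (h.cdP _) (h.bijP _) (cd_JJk h trivial)
  | B i =>
    rw [contDiff_iff_contDiffAt]
    intro w
    by_cases hw : w i = 0
    · have h1 : ContDiffAt ℝ ∞ (fun _ : V4 => I4) w := contDiffAt_const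
      refine h1.congr_of_eventuallyEq ?_
      have hb : bl i w = 0 := by
        funext j
        by_cases hj : j = i
        · simp [bl, hj, hw]
        · simp [bl, hj, hw]
      have hn : nn (bl i w) = 0 := by
        rw [hb]; simp [nn, n3, n5]
      have hc : ContinuousAt (fun y => nn (bl i y)) w :=
        (cd_nn.continuous.comp (A3.cd_bl i).continuous).continuousAt
      have hlt : ∀ᶠ y in 𝓝 w, nn (bl i y) < 1 / 4 :=
        hc.eventually_lt continuousAt_const (by rw [hn]; norm_num)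
      filter_upwards [hlt] with y hy
      exact Jk_B_small h hy.le
    · have hwd : w ∈ domXi (.B i) := hw
      have h1 : ContDiffAt ℝ ∞ (fderiv ℝ (blInv i)) (bl i w) :=
        (cd_from_at (k := .B i) (to_mem hwd)).fderiv_right (m := ∞) (by simp)
      have h2 : ContDiffAt ℝ ∞ (fun y => fderiv ℝ (blInv i) (bl i y)) w :=
        h1.comp w (A3.cd_bl i).contDiffAt
      have h3 : ContDiff ℝ ∞ (fderiv ℝ (bl i)) := (A3.cd_bl i).fderiv_right (m := ∞) (by simp)
      have h4 : ContDiff ℝ ∞ (fun y => Jx Px (bl i y)) := (cd_Jx h).comp (A3.cd_bl i)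
      have h5 := h2.clm_comp (h4.contDiffAt.clm_comp h3.contDiffAt)
      refine h5.congr_of_eventuallyEq ?_
      filter_upwards [(A3.isOpen_domXi (.B i)).mem_nhds hwd] with y hy
      have hy' : y i ≠ 0 := hy
      simp [Jk, hy']

theorem Jk_sq (k : Ch) (z v : V4) : Jk PP Px k z (Jk PP Px k z v) = -v := by
  cases k with
  | a => exact cj_sq (h.bijP _ _) (JJk_sq h _ _) v
  | b => exact cj_sq (h.bijP _ _) (JJk_sq h _ _) v
  | c => exact cj_sq (h.bijP _ _) (JJk_sq h _ _) v
  | B i =>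
    by_cases hw : z i = 0
    · rw [Jk_B_of_eq hw]; exact I4_sq v
    · have hd : z ∈ domXi (.B i) := hw
      have e1 : ∀ u, fderiv ℝ (bl i) z (fderiv ℝ (blInv i) (bl i z) u) = u :=
        fun u => D_to_from (k := .B i) hd u
      have e2 : fderiv ℝ (blInv i) (bl i z) (fderiv ℝ (bl i) z v) = v :=
        D_from_to (k := .B i) hd v
      rw [Jk_B_of_ne hw, Jk_B_of_ne hw, e1, Jx_sq h, map_neg, e2]

/-- The structure is the given one in the coordinate `xi`. -/
theorem star {k : Ch} {z : V4} (hz : z ∈ domXi k) (v : V4) :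
    fderiv ℝ (toXi k) z (Jk PP Px k z v) = Jx Px (toXi k z) (fderiv ℝ (toXi k) z v) := by
  have hN : isN k → fderiv ℝ (toXi k) z (Jk PP Px k z v) =
      Jx Px (toXi k z) (fderiv ℝ (toXi k) z v) := by
    intro hk
    obtain ⟨u, rfl⟩ := (h.bijP k z).2 v
    rw [Jk_N hk, cj_apply (h.bijP k z), h.toX k hk z hz, h.toX k hk z hz]
    have : JJk Px k z = cji (Px (toXi k z)) (Jx Px (toXi k z)) := by
      simp [JJk, hz, JJ]
    rw [this, apply_cji (h.bijx _)]
  cases k with
  | a => exact hN trivial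
  | b => exact hN trivial
  | c => exact hN trivial
  | B i =>
    have hw : z i ≠ 0 := hz
    rw [Jk_B_of_ne hw]
    exact D_to_from (k := .B i) hz _

theorem compat_dom {k l : Ch} {z : V4} (hO : z ∈ O k l) (hz : z ∈ domXi k) (v : V4) :
    fderiv ℝ (T k l) z (Jk PP Px k z v) = Jk PP Px l (T k l z) (fderiv ℝ (T k l) z v) := by
  obtain ⟨hT, hX⟩ := T_facts hO hz
  have hd : DifferentiableAt ℝ (T k l) z :=
    ((contDiffOn_T k l).contDiffAt ((isOpen_O k l).mem_nhds hO)).differentiableAt infty_ne_zero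
  have hd' : DifferentiableAt ℝ (toXi l) (T k l z) := (cd_to_at hT).differentiableAt infty_ne_zero
  have hc := fderiv_comp z hd' hd
  have he : toXi l ∘ T k l =ᶠ[𝓝 z] toXi k := by
    filter_upwards [(isOpen_O k l).mem_nhds hO, (A3.isOpen_domXi k).mem_nhds hz] with y hy hy'
    exact (T_facts hy hy').2
  rw [he.fderiv_eq] at hc
  have hc' : ∀ u, fderiv ℝ (toXi l) (T k l z) (fderiv ℝ (T k l) z u) = fderiv ℝ (toXi k) z u :=
    fun u => (congrArg (fun f : V4 →L[ℝ] V4 => f u) hc).symm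
  have hinj : Function.Injective (fderiv ℝ (toXi l) (T k l z)) := by
    intro x y hxy
    rw [← D_from_to hT x, ← D_from_to hT y, hxy]
  apply hinj
  rw [hc', star h hz, star h hT, hc', hX]

theorem compat (k l : Ch) (z : V4) (hO : z ∈ O k l) (v : V4) :
    fderiv ℝ (T k l) z (Jk PP Px k z v) = Jk PP Px l (T k l z) (fderiv ℝ (T k l) z v) := by
  by_cases hz : z ∈ domXi k
  · exact compat_dom h hO hz v
  · have refl : ∀ k : Ch, T k k = id → fderiv ℝ (T k k) z (Jk PP Px k z v) =
        Jk PP Px k (T k k z) (fderiv ℝ (T k k) z v) := by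
      intro k hk
      rw [hk, fderiv_id]
      rfl
    have fr : ∀ k l : Ch, ∀ f : V4 → V4, isN k → isN l → z ∉ domXi k → f z ∉ domXi l →
        (∀ u, fderiv ℝ f z (PP k z u) = PP l (f z) u) →
        fderiv ℝ f z (Jk PP Px k z v) = Jk PP Px l (f z) (fderiv ℝ f z v) := by
      intro k l f hk hl h1 h2 h3
      obtain ⟨u, rfl⟩ := (h.bijP k z).2 v
      rw [Jk_N hk, Jk_N hl, cj_apply (h.bijP k z), h3, h3, cj_apply (h.bijP l (f z))]
      simp [JJk, h1, h2]
    cases k <;> cases l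
    case a.a => exact refl .a rfl
    case b.b => exact refl .b rfl
    case c.c => exact refl .c rfl
    case a.b => exact absurd hO.1 hz
    case b.a => exact absurd hO.1 hz
    case a.B => exact absurd hO.1 hz
    case b.B => exact absurd hO.1 hz
    case c.B => exact absurd hO.1 hz
    case B.a => exact absurd hO.1 hz
    case B.b => exact absurd hO.1 hz
    case B.c => exact absurd hO.1 hz
    case a.c =>
      refine fr .a .c inv5 trivial trivial hz ?_ (h.ac z hO)
      intro hd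
      apply hz
      have := hd.1
      rw [A3.n3_inv5] at this
      exact this
    case c.a =>
      refine fr .c .a inv5 trivial trivial hz ?_ (h.ca z hO)
      intro hd
      apply hz
      have h1 : n3 (inv5 z) ≠ 0 := hd
      rw [A3.n3_inv5] at h1
      exact ⟨h1, hO⟩
    case b.c =>
      refine fr .b .c inv3 trivial trivial hz ?_ (h.bc z hO)
      intro hd
      apply hz
      have := hd.2
      rw [A3.n5_inv3] at this
      exact this
    case c.b =>
      refine fr .c .b inv3 trivial trivial hz ?_ (h.cb z hO)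
      intro hd
      apply hz
      have h1 : n5 (inv3 z) ≠ 0 := hd
      rw [A3.n5_inv3] at h1
      exact ⟨hO, h1⟩
    case B.B i j =>
      by_cases hij : i = j
      · subst hij
        exact refl (.B i) (by simp [T])
      · have hT : T (.B i) (.B j) = blT i j := by simp [T, hij]
        have hzj : z j ≠ 0 := by
          rcases hO with hO | hO
          · exact absurd hO hij
          · exact hO
        have hzi : z i = 0 := by
          by_contra hne; exact hz hne
        have hbj : blT i j z j = 0 := by simp [blT, hzi]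
        rw [hT, Jk_B_of_eq hzi, Jk_B_of_eq hbj]
        exact fderiv_I (diffC_blT i j hzj) v

end

end B2

/-- B2: an almost complex structure on the 8-manifold. -/
theorem exists_J : ∃ J : Ch → V4 → (V4 →L[ℝ] V4), (∀ k, ContDiff ℝ ∞ (J k)) ∧
    (∀ k z v, J k z (J k z v) = -v) ∧
    ∀ k l, ∀ z ∈ O k l, ∀ v,
      fderiv ℝ (T k l) z (J k z v) = J l (T k l z) (fderiv ℝ (T k l) z v) := by
  obtain ⟨PP, Px, h⟩ := B2.exists_FR
  exact ⟨B2.Jk PP Px, B2.cd_Jk h, B2.Jk_sq h, fun k l z hz v => B2.compat h k l z hz v⟩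

end Pool.Agent.Work.MP_2a78db_gt
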