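import Pool.Agent.Work.MP_2a78db_gt.Common

/-!
Module C1: Poincare lemma for 2-forms; exactness of closed 1-forms on the complement of a subspace
of codimension at least three, and outside `z 0 = 0` up to a multiple of the angle form.
-/

set_option autoImplicit false

namespace Pool.Agent.Work.MP_2a78db_gt.C1

open scoped Topology ContDiff
open MeasureTheory Set

/-- differentiation under the integral sign for jointly `C^1` functions -/
theorem hasFDerivAt_int {E G : Type*} [NormedAddCommGroup E] [NormedSpace ℝ E]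
    [FiniteDimensional ℝ E] [NormedAddCommGroup G] [NormedSpace ℝ G]
    {F : E → ℝ → G} (hF : ContDiff ℝ 1 (fun p : E × ℝ => F p.1 p.2)) :
    Continuous (fun p : E × ℝ => fderiv ℝ (fun y => F y p.2) p.1) ∧
    (∀ x, HasFDerivAt (fun x => ∫ t in (0:ℝ)..1, F x t)
      (∫ t in (0:ℝ)..1, fderiv ℝ (fun y => F y t) x) x) := by
  have hd : ∀ x t, HasFDerivAt (fun y => F y t)
      ((fderiv ℝ (fun p : E × ℝ => F p.1 p.2) (x, t)).comp (ContinuousLinearMap.inl ℝ E ℝ)) x := by
    intro x t
    have h1 : HasFDerivAt (fun p : E × ℝ => F p.1 p.2)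
        (fderiv ℝ (fun p : E × ℝ => F p.1 p.2) (x, t)) (x, t) :=
      (hF.differentiable (by simp) _).hasFDerivAt
    have h2 : HasFDerivAt (fun y : E => (y, t)) (ContinuousLinearMap.inl ℝ E ℝ) x :=
      hasFDerivAt_prodMk_left x t
    exact h1.comp x h2
  have hc : Continuous (fun p : E × ℝ => fderiv ℝ (fun y => F y p.2) p.1) := by
    have e : (fun p : E × ℝ => fderiv ℝ (fun y => F y p.2) p.1) = fun p : E × ℝ =>
        ((fderiv ℝ (fun p : E × ℝ => F p.1 p.2) p).comp (ContinuousLinearMap.inl ℝ E ℝ)) := by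
      funext p
      exact (hd p.1 p.2).fderiv
    rw [e]
    exact (hF.continuous_fderiv (by simp)).clm_comp continuous_const
  refine ⟨hc, fun x => ?_⟩
  have : ProperSpace E := FiniteDimensional.proper ℝ E
  obtain ⟨C, hC⟩ := (((isCompact_closedBall x 1).prod (isCompact_Icc (a := (0:ℝ)) (b := 1))).exists_bound_of_continuousOn
    hc.continuousOn)
  refine intervalIntegral.hasFDerivAt_integral_of_dominated_of_fderiv_le
    (F' := fun x t => fderiv ℝ (fun y => F y t) x) (bound := fun _ => C)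
    (Metric.ball_mem_nhds x one_pos) ?_ ?_ ?_ ?_ ?_ ?_
  · refine Filter.Eventually.of_forall fun y => ?_
    have : Continuous (F y) := hF.continuous.comp (by fun_prop : Continuous fun t : ℝ => (y, t))
    exact this.aestronglyMeasurable
  · have : Continuous (F x) := hF.continuous.comp (by fun_prop : Continuous fun t : ℝ => (x, t))
    exact this.intervalIntegrable _ _
  · have : Continuous (fun t : ℝ => fderiv ℝ (fun y => F y t) x) :=
      hc.comp (by fun_prop : Continuous fun t : ℝ => (x, t))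
    exact this.aestronglyMeasurable
  · refine Filter.Eventually.of_forall fun t ht y hy => ?_
    refine hC (y, t) ⟨Metric.ball_subset_closedBall hy, ?_⟩
    rw [Set.uIoc_of_le zero_le_one] at ht
    exact Set.Ioc_subset_Icc_self ht
  · exact intervalIntegrable_const
  · refine Filter.Eventually.of_forall fun t ht y hy => ?_
    exact (hd y t).differentiableAt.hasFDerivAt

theorem contDiff_one_int {E G : Type*} [NormedAddCommGroup E] [NormedSpace ℝ E]
    [FiniteDimensional ℝ E] [NormedAddCommGroup G] [NormedSpace ℝ G]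
    {F : E → ℝ → G} (hF : ContDiff ℝ 1 (fun p : E × ℝ => F p.1 p.2)) :
    ContDiff ℝ 1 (fun x => ∫ t in (0:ℝ)..1, F x t) := by
  obtain ⟨hc, hd⟩ := hasFDerivAt_int hF
  rw [contDiff_one_iff_fderiv]
  refine ⟨fun x => (hd x).differentiableAt, ?_⟩
  have e : fderiv ℝ (fun x => ∫ t in (0:ℝ)..1, F x t) =
      fun x => (∫ t in (0:ℝ)..1, fderiv ℝ (fun y => F y t) x) := by
    funext x
    exact (hd x).fderiv
  rw [e]
  exact intervalIntegral.continuous_parametric_intervalIntegral_of_continuous'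
    (f := fun x t => fderiv ℝ (fun y => F y t) x) hc 0 1

/-- evaluation of a form -/
noncomputable def evF {n : ℕ} (v : Fin n → V4) : (V4 [⋀^Fin n]→L[ℝ] ℝ) →L[ℝ] ℝ :=
  ContinuousAlternatingMap.apply ℝ V4 ℝ v

theorem evF_apply {n : ℕ} (v : Fin n → V4) (a : V4 [⋀^Fin n]→L[ℝ] ℝ) : evF v a = a v := rfl

/-- `curryLeft` as a continuous linear map -/
noncomputable abbrev cl :=
  (ContinuousAlternatingMap.curryLeftLI (𝕜 := ℝ) (E := V4) (F := ℝ) (n := 1)).toContinuousLinearMap

theorem cl_contDiff : ContDiff ℝ 1 (fun a : V4 [⋀^Fin 2]→L[ℝ] ℝ => cl a) :=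
  ContinuousLinearMap.contDiff (𝕜 := ℝ) (E := V4 [⋀^Fin 2]→L[ℝ] ℝ)
    (F := V4 →L[ℝ] V4 [⋀^Fin 1]→L[ℝ] ℝ) cl

theorem cl_hasFDerivAt (b : V4 [⋀^Fin 2]→L[ℝ] ℝ) :
    HasFDerivAt (𝕜 := ℝ) (E := V4 [⋀^Fin 2]→L[ℝ] ℝ)
    (F := V4 →L[ℝ] V4 [⋀^Fin 1]→L[ℝ] ℝ) (fun a : V4 [⋀^Fin 2]→L[ℝ] ℝ => cl a) cl b :=
  ContinuousLinearMap.hasFDerivAt (𝕜 := ℝ) (E := V4 [⋀^Fin 2]→L[ℝ] ℝ)
    (F := V4 →L[ℝ] V4 [⋀^Fin 1]→L[ℝ] ℝ) cl

theorem cl_apply (a : V4 [⋀^Fin 2]→L[ℝ] ℝ) (x v : V4) : cl a x ![v] = a ![x, v] := rfl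

theorem extDeriv_one_apply {η : V4 → V4 [⋀^Fin 1]→L[ℝ] ℝ} {z : V4} (hη : DifferentiableAt ℝ η z)
    (u v : V4) : extDeriv η z ![u, v] = fderiv ℝ η z u ![v] - fderiv ℝ η z v ![u] := by
  have e0 : (Fin.removeNth 0 ![u, v] : Fin 1 → V4) = ![v] := by
    funext i; fin_cases i; rfl
  have e1 : (Fin.removeNth 1 ![u, v] : Fin 1 → V4) = ![u] := by
    funext i; fin_cases i; rfl
  have key : ∀ a b : V4, fderiv ℝ (fun w => η w ![a]) z b = fderiv ℝ η z b ![a] := by
    intro a b
    have := (evF ![a]).hasFDerivAt.comp z hη.hasFDerivAt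
    have h2 : HasFDerivAt (fun w => η w ![a]) ((evF ![a]).comp (fderiv ℝ η z)) z := this
    rw [h2.fderiv]
    rfl
  rw [extDeriv_apply hη, Fin.sum_univ_two, e0, e1, key, key]
  simp
  ring

theorem extDeriv_two_apply {η : V4 → V4 [⋀^Fin 2]→L[ℝ] ℝ} {z : V4} (hη : DifferentiableAt ℝ η z)
    (x u v : V4) : extDeriv η z ![x, u, v] =
      fderiv ℝ η z x ![u, v] - fderiv ℝ η z u ![x, v] + fderiv ℝ η z v ![x, u] := by
  have e0 : (Fin.removeNth 0 ![x, u, v] : Fin 2 → V4) = ![u, v] := by
    funext i; fin_cases i <;> rfl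
  have e1 : (Fin.removeNth 1 ![x, u, v] : Fin 2 → V4) = ![x, v] := by
    funext i; fin_cases i <;> rfl
  have e2 : (Fin.removeNth 2 ![x, u, v] : Fin 2 → V4) = ![x, u] := by
    funext i; fin_cases i <;> rfl
  have key : ∀ a b c : V4, fderiv ℝ (fun w => η w ![a, c]) z b = fderiv ℝ η z b ![a, c] := by
    intro a b c
    have := (evF ![a, c]).hasFDerivAt.comp z hη.hasFDerivAt
    have h2 : HasFDerivAt (fun w => η w ![a, c]) ((evF ![a, c]).comp (fderiv ℝ η z)) z := this
    rw [h2.fderiv]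
    rfl
  rw [extDeriv_apply hη, Fin.sum_univ_three, e0, e1, e2, key, key, key]
  simp
  ring

/-- (C1a) Poincare lemma for 2-forms. -/
theorem poincare2 (om : V4 → V4 [⋀^Fin 2]→L[ℝ] ℝ) (hs : ContDiff ℝ ∞ om)
    (hd : ∀ z, extDeriv om z = 0) :
    ∃ β : V4 → V4 [⋀^Fin 1]→L[ℝ] ℝ, ContDiff ℝ 1 β ∧ ∀ z, extDeriv β z = om z := by
  set F : V4 → ℝ → V4 [⋀^Fin 1]→L[ℝ] ℝ := fun x t => t • (cl (om (t • x)) x) with hFdef
  have hs1 : ContDiff ℝ 1 om := hs.of_le (by exact_mod_cast le_top)
  have hF : ContDiff ℝ 1 (fun p : V4 × ℝ => F p.1 p.2) := by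
    have h1 : ContDiff ℝ 1 (fun p : V4 × ℝ => p.2 • p.1) := contDiff_snd.smul contDiff_fst
    have h2 : ContDiff ℝ 1 (fun p : V4 × ℝ => cl (om (p.2 • p.1))) :=
      cl_contDiff.comp (hs1.comp h1)
    exact contDiff_snd.smul (h2.clm_apply contDiff_fst)
  obtain ⟨hc, hder⟩ := hasFDerivAt_int hF
  have hC := contDiff_one_int hF
  refine ⟨fun x => ∫ t in (0:ℝ)..1, F x t, hC, fun x => ?_⟩
  have hF' : ∀ (t : ℝ) (h v : V4), fderiv ℝ (fun y => F y t) x h ![v] =
      t * (t * fderiv ℝ om (t • x) h ![x, v] + om (t • x) ![h, v]) := by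
    intro t h v
    have h1 : HasFDerivAt (fun y : V4 => t • y) (t • ContinuousLinearMap.id ℝ V4) x :=
      (hasFDerivAt_id x).const_smul t
    have h2 : HasFDerivAt om (fderiv ℝ om (t • x)) (t • x) :=
      (hs1.differentiable (by simp) _).hasFDerivAt
    have h3 : HasFDerivAt (fun y : V4 => om (t • y))
      ((fderiv ℝ om (t • x)).comp (t • ContinuousLinearMap.id ℝ V4)) x := h2.comp x h1
    have h4 : HasFDerivAt (fun y : V4 => cl (om (t • y)))
      (cl.comp ((fderiv ℝ om (t • x)).comp (t • ContinuousLinearMap.id ℝ V4))) x :=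
      HasFDerivAt.comp (𝕜 := ℝ) (G := V4 →L[ℝ] V4 [⋀^Fin 1]→L[ℝ] ℝ) x (cl_hasFDerivAt (om (t • x))) h3
    have h5 := (h4.clm_apply (hasFDerivAt_id x)).const_smul t
    have h6 : fderiv ℝ (fun y => F y t) x = _ := h5.fderiv
    rw [h6]
    have h7 : ∀ (a b : V4 [⋀^Fin 1]→L[ℝ] ℝ) (s : ℝ) (w : Fin 1 → V4),
      (s • (a + b)) w = s * (a w + b w) := fun a b s w => rfl
    have h8 : ∀ (a : V4 [⋀^Fin 2]→L[ℝ] ℝ) (s : ℝ) (p q : V4),
      cl (s • a) p ![q] = s * a ![p, q] := fun a s p q => by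
        rw [map_smul]; rfl
    change (t • ((cl (om (t • x))) h + cl (fderiv ℝ om (t • x) (t • h)) x)) ![v] = _
    rw [map_smul, h7, h8]
    change t * (om (t • x) ![h, v] + _) = _
    ring
  refine ContinuousAlternatingMap.ext fun w => ?_
  have hw : w = ![w 0, w 1] := by
    funext i; fin_cases i <;> rfl
  rw [hw]
  generalize w 0 = u
  generalize w 1 = v
  rw [extDeriv_one_apply (hder x).differentiableAt, (hder x).fderiv]
  have hci : ∀ h : V4, IntervalIntegrable (fun t : ℝ => fderiv ℝ (fun y => F y t) x h)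
      volume 0 1 := by
    intro h
    have h1 : Continuous (fun t : ℝ => fderiv ℝ (fun y => F y t) x) :=
      hc.comp (by fun_prop : Continuous fun t : ℝ => (x, t))
    exact (h1.clm_apply continuous_const).intervalIntegrable _ _
  have hcc : ∀ h v' : V4, IntervalIntegrable (fun t : ℝ =>
      t * (t * fderiv ℝ om (t • x) h ![x, v'] + om (t • x) ![h, v'])) volume 0 1 := by
    intro h v'
    have h1 : Continuous (fun t : ℝ => fderiv ℝ (fun y => F y t) x) :=
      hc.comp (by fun_prop : Continuous fun t : ℝ => (x, t))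
    have h2 : Continuous (fun t : ℝ => fderiv ℝ (fun y => F y t) x h ![v']) :=
      (evF ![v']).continuous.comp (h1.clm_apply continuous_const)
    have h3 : (fun t : ℝ => fderiv ℝ (fun y => F y t) x h ![v']) = fun t : ℝ =>
      t * (t * fderiv ℝ om (t • x) h ![x, v'] + om (t • x) ![h, v']) := by
      funext t
      exact hF' t h v'
    rw [← h3]
    exact h2.intervalIntegrable _ _
  have e1 : ∀ h v' : V4, (∫ t in (0:ℝ)..1, fderiv ℝ (fun y => F y t) x) h ![v'] =
      ∫ t in (0:ℝ)..1, t * (t * fderiv ℝ om (t • x) h ![x, v'] + om (t • x) ![h, v']) := by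
    intro h v'
    have h1 : Continuous (fun t : ℝ => fderiv ℝ (fun y => F y t) x) :=
      hc.comp (by fun_prop : Continuous fun t : ℝ => (x, t))
    rw [ContinuousLinearMap.intervalIntegral_apply (h1.intervalIntegrable _ _)]
    have h2 := (evF ![v']).intervalIntegral_comp_comm (hci h)
    rw [← evF_apply, ← h2]
    refine intervalIntegral.integral_congr fun t _ => ?_
    exact hF' t h v'
  rw [e1, e1, ← intervalIntegral.integral_sub]
  · have hderiv : ∀ t : ℝ, HasDerivAt (fun t : ℝ => t ^ 2 * om (t • x) ![u, v])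
        (t * (t * fderiv ℝ om (t • x) u ![x, v] + om (t • x) ![u, v]) -
          t * (t * fderiv ℝ om (t • x) v ![x, u] + om (t • x) ![v, u])) t := by
      intro t
      have h1 : HasDerivAt (fun t : ℝ => t • x) x t := by
        simpa using (hasDerivAt_id t).smul_const x
      have h2 : HasFDerivAt om (fderiv ℝ om (t • x)) (t • x) :=
        (hs1.differentiable (by simp) _).hasFDerivAt
      have h3 : HasDerivAt (fun t : ℝ => om (t • x)) (fderiv ℝ om (t • x) x) t :=
        h2.comp_hasDerivAt t h1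
      have h4 : HasDerivAt (fun t : ℝ => om (t • x) ![u, v]) (fderiv ℝ om (t • x) x ![u, v]) t :=
        (evF ![u, v]).hasFDerivAt.comp_hasDerivAt t h3
      have h5 := (hasDerivAt_pow 2 t).mul h4
      have hcl := congrArg (fun a => a ![x, u, v]) (hd (t • x))
      simp only [ContinuousAlternatingMap.coe_zero, Pi.zero_apply] at hcl
      rw [extDeriv_two_apply h2.differentiableAt] at hcl
      have hsw : om (t • x) ![v, u] = - om (t • x) ![u, v] := by
        have h6 := (om (t • x)).map_swap ![u, v] (i := 0) (j := 1) (by decide)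
        have h7 : (![u, v] ∘ ⇑(Equiv.swap (0 : Fin 2) 1)) = ![v, u] := by
          funext i; fin_cases i <;> rfl
        rw [h7] at h6
        exact h6
      have h7 : HasDerivAt (fun t : ℝ => t ^ 2 * om (t • x) ![u, v])
        (((2 : ℕ) : ℝ) * t ^ (2 - 1) * om (t • x) ![u, v] + t ^ 2 * fderiv ℝ om (t • x) x ![u, v]) t := h5
      refine h7.congr_deriv ?_
      rw [hsw]
      norm_num
      linear_combination t^2 * hcl
    rw [intervalIntegral.integral_eq_sub_of_hasDerivAt (fun t _ => hderiv t)]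
    · simp
    · refine IntervalIntegrable.sub ?_ ?_
      · exact hcc u v
      · exact hcc v u
  · exact hcc u v
  · exact hcc v u

theorem star_exact {E : Type*} [NormedAddCommGroup E] [NormedSpace ℝ E]
    {U : Set E} (hU : IsOpen U) {p : E} (hst : StarConvex ℝ p U)
    {θ : E → E →L[ℝ] ℝ} (hθ : DifferentiableOn ℝ θ U)
    (hd : ∀ a ∈ U, ∀ x y, fderiv ℝ θ a x y = fderiv ℝ θ a y x) :
    ∃ f : E → ℝ, ∀ a ∈ U, HasFDerivAt f (θ a) a := by
  refine ⟨fun x => ∫ᶜ y in .segment p x, θ y, fun b hb => ?_⟩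
  obtain ⟨r, hr, hrU⟩ := Metric.isOpen_iff.1 hU b hb
  have hC : Convex ℝ (convexJoin ℝ {p} (Metric.ball b r)) :=
    Convex.convexJoin (convex_singleton p) (convex_ball b r)
  have hCU : convexJoin ℝ {p} (Metric.ball b r) ⊆ U := by
    intro x hx
    rw [mem_convexJoin] at hx
    obtain ⟨a, ha, c, hc, hx⟩ := hx
    rw [Set.mem_singleton_iff.1 ha] at hx
    exact (starConvex_iff_segment_subset.1 hst (hrU hc)) hx
  have hpC : p ∈ convexJoin ℝ {p} (Metric.ball b r) :=
    (subset_convexJoin_left ⟨b, Metric.mem_ball_self hr⟩) rfl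
  have hbC : Metric.ball b r ⊆ convexJoin ℝ {p} (Metric.ball b r) :=
    subset_convexJoin_right ⟨p, rfl⟩
  have hda : ∀ x ∈ U, HasFDerivAt θ (fderiv ℝ θ x) x := fun x hx =>
    (hθ.differentiableAt (hU.mem_nhds hx)).hasFDerivAt
  have h := hC.hasFDerivWithinAt_curveIntegral_segment_of_hasFDerivWithinAt_symmetric
    (fun x hx => (hda x (hCU hx)).hasFDerivWithinAt)
    (fun a ha x _ y _ => hd a (hCU ha) x y) hpC (hbC (Metric.mem_ball_self hr))
  exact h.hasFDerivAt (Filter.mem_of_superset (Metric.ball_mem_nhds b hr) hbC)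

theorem glue2 {E : Type*} [NormedAddCommGroup E] [NormedSpace ℝ E]
    {U V : Set E} (hU : IsOpen U) (hV : IsOpen V) {f g : E → ℝ} {η : E → E →L[ℝ] ℝ}
    (hf : ∀ a ∈ U, HasFDerivAt f (η a) a) (hg : ∀ a ∈ V, HasFDerivAt g (η a) a)
    (h : ∀ a ∈ U, a ∈ V → f a = g a) : ∃ F : E → ℝ, ∀ a ∈ U ∪ V, HasFDerivAt F (η a) a := by
  classical
  refine ⟨U.piecewise f g, ?_⟩
  rintro a (ha | ha)
  · refine (hf a ha).congr_of_eventuallyEq ?_
    filter_upwards [hU.mem_nhds ha] with x hx
    exact Set.piecewise_eq_of_mem _ _ _ hx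
  · refine (hg a ha).congr_of_eventuallyEq ?_
    filter_upwards [hV.mem_nhds ha] with x hx
    by_cases hxU : x ∈ U
    · rw [Set.piecewise_eq_of_mem _ _ _ hxU]
      exact h x hxU hx
    · exact Set.piecewise_eq_of_notMem _ _ _ hxU

theorem const_diff {E : Type*} [NormedAddCommGroup E] [NormedSpace ℝ E]
    {W : Set E} (hW : IsOpen W) (hc : IsPreconnected W) {f g : E → ℝ} {η : E → E →L[ℝ] ℝ}
    (hf : ∀ a ∈ W, HasFDerivAt f (η a) a) (hg : ∀ a ∈ W, HasFDerivAt g (η a) a) :
    ∃ c, ∀ a ∈ W, f a = g a + c := by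
  obtain ⟨c, hc⟩ := hW.exists_is_const_of_fderiv_eq_zero (f := fun x => f x - g x) (𝕜 := ℝ) hc
    (fun a ha => ((hf a ha).sub (hg a ha)).differentiableAt.differentiableWithinAt)
    (fun a ha => by
      have h1 : HasFDerivAt (fun x => f x - g x) (η a - η a) a := (hf a ha).sub (hg a ha)
      rw [h1.fderiv]
      simp)
  exact ⟨c, fun a ha => by linarith [hc a ha]⟩

theorem exact_compl (L : Submodule ℝ V4) (hL : 2 < Module.rank ℝ (V4 ⧸ L))
    (θ : V4 → V4 →L[ℝ] ℝ) (hθ : DifferentiableOn ℝ θ (L : Set V4)ᶜ)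
    (hd : ∀ a ∉ L, ∀ x y, fderiv ℝ θ a x y = fderiv ℝ θ a y x) :
    ∃ f : V4 → ℝ, ∀ a ∉ L, HasFDerivAt f (θ a) a := by
  have hLc : IsClosed (L : Set V4) := L.closed_of_finiteDimensional
  -- a point outside
  have hne : L ≠ ⊤ := by
    rintro rfl
    have : Module.rank ℝ (V4 ⧸ (⊤ : Submodule ℝ V4)) = 0 := by
      rw [rank_eq_zero_iff]
      intro x
      exact ⟨1, one_ne_zero, Subsingleton.elim _ _⟩
    rw [this] at hL
    exact absurd hL (by simp)
  obtain ⟨q, hq⟩ : ∃ q, q ∉ L := by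
    by_contra hcon
    push Not at hcon
    exact hne (eq_top_iff.2 fun x _ => hcon x)
  obtain ⟨φ₀, hφq, hφL⟩ := Submodule.exists_le_ker_of_notMem hq
  set φ : V4 →L[ℝ] ℝ := LinearMap.toContinuousLinearMap ((φ₀ q)⁻¹ • φ₀) with hφ
  have hφ1 : φ q = 1 := by
    simp [hφ, hφq]
  have hφ0 : ∀ x ∈ L, φ x = 0 := by
    intro x hx
    have : φ₀ x = 0 := hφL hx
    simp [hφ, this]
  have hπ : Continuous (fun x : V4 => x - φ x • q) := by fun_prop
  -- the two star shaped pieces
  set U : Set V4 := {x | 0 < φ x} ∪ (fun x : V4 => x - φ x • q) ⁻¹' (L : Set V4)ᶜ with hUdef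
  set V : Set V4 := {x | φ x < 0} ∪ (fun x : V4 => x - φ x • q) ⁻¹' (L : Set V4)ᶜ with hVdef
  have hU : IsOpen U := (isOpen_lt continuous_const φ.continuous).union (hLc.isOpen_compl.preimage hπ)
  have hV : IsOpen V := (isOpen_lt φ.continuous continuous_const).union (hLc.isOpen_compl.preimage hπ)
  have hUL : U ⊆ (L : Set V4)ᶜ := by
    rintro x (hx | hx) hxL
    · have := hφ0 x hxL
      simp only [Set.mem_ofPred_eq] at hx
      linarith
    · refine hx ?_
      have := hφ0 x hxL
      simp only [this, zero_smul, sub_zero]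
      exact hxL
  have hVL : V ⊆ (L : Set V4)ᶜ := by
    rintro x (hx | hx) hxL
    · have := hφ0 x hxL
      simp only [Set.mem_ofPred_eq] at hx
      linarith
    · refine hx ?_
      have := hφ0 x hxL
      simp only [this, zero_smul, sub_zero]
      exact hxL
  have hstU : StarConvex ℝ q U := by
    intro x hx a b ha hb hab
    have e1 : φ (a • q + b • x) = a + b * φ x := by
      simp [hφ1]
    have e2 : (a • q + b • x) - φ (a • q + b • x) • q = b • (x - φ x • q) := by
      rw [e1, add_smul, smul_sub, mul_smul]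
      abel
    rcases eq_or_lt_of_le hb with hb0 | hb0
    · left
      simp only [Set.mem_ofPred_eq]
      rw [e1, ← hb0]
      rw [← hb0] at hab
      linarith
    · rcases hx with hx | hx
      · left
        simp only [Set.mem_ofPred_eq] at hx ⊢
        rw [e1]
        positivity
      · right
        simp only [Set.mem_preimage, Set.mem_compl_iff, SetLike.mem_coe] at hx ⊢
        rw [e2]
        intro hmem
        refine hx ?_
        have := L.smul_mem b⁻¹ hmem
        rwa [smul_smul, inv_mul_cancel₀ hb0.ne', one_smul] at this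
  have hstV : StarConvex ℝ (-q) V := by
    intro x hx a b ha hb hab
    have e1 : φ (a • (-q) + b • x) = -a + b * φ x := by
      simp [hφ1]
    have e2 : (a • (-q) + b • x) - φ (a • (-q) + b • x) • q = b • (x - φ x • q) := by
      rw [e1, add_smul, smul_sub, mul_smul, neg_smul, smul_neg]
      abel
    rcases eq_or_lt_of_le hb with hb0 | hb0
    · left
      simp only [Set.mem_ofPred_eq]
      rw [e1, ← hb0]
      rw [← hb0] at hab
      linarith
    · rcases hx with hx | hx
      · left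
        simp only [Set.mem_ofPred_eq] at hx ⊢
        rw [e1]
        have : b * φ x < 0 := mul_neg_of_pos_of_neg hb0 hx
        linarith
      · right
        simp only [Set.mem_preimage, Set.mem_compl_iff, SetLike.mem_coe] at hx ⊢
        rw [e2]
        intro hmem
        refine hx ?_
        have := L.smul_mem b⁻¹ hmem
        rwa [smul_smul, inv_mul_cancel₀ hb0.ne', one_smul] at this
  obtain ⟨f, hf⟩ := star_exact hU hstU (hθ.mono hUL) (fun a ha => hd a (hUL ha))
  obtain ⟨g, hg⟩ := star_exact hV hstV (hθ.mono hVL) (fun a ha => hd a (hVL ha))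
  -- the intersection
  set L' : Submodule ℝ V4 := L ⊔ Submodule.span ℝ {q} with hL'
  have hint : U ∩ V = (L' : Set V4)ᶜ := by
    ext x
    have hx' : x ∈ L' ↔ x - φ x • q ∈ L := by
      constructor
      · intro hx
        obtain ⟨y, hy, z, hz, rfl⟩ := Submodule.mem_sup.1 hx
        obtain ⟨c, rfl⟩ := Submodule.mem_span_singleton.1 hz
        have : φ (y + c • q) = c := by simp [hφ0 y hy, hφ1]
        rw [this]
        simpa using hy
      · intro hx
        have : x = (x - φ x • q) + φ x • q := by abel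
        rw [this]
        exact Submodule.add_mem_sup hx (Submodule.smul_mem _ _ (Submodule.mem_span_singleton_self q))
    simp only [Set.mem_inter_iff, Set.mem_compl_iff, SetLike.mem_coe, hx', hUdef, hVdef,
      Set.mem_union, Set.mem_ofPred_eq, Set.mem_preimage]
    constructor
    · rintro ⟨h1 | h1, h2 | h2⟩
      · linarith
      · exact h2
      · exact h1
      · exact h1
    · intro h
      exact ⟨Or.inr h, Or.inr h⟩
  have hrank : 1 < Module.rank ℝ (V4 ⧸ L') := by
    have h1 : (2 : ℕ) < Module.finrank ℝ (V4 ⧸ L) := by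
      have : ((2 : ℕ) : Cardinal) < (Module.finrank ℝ (V4 ⧸ L) : Cardinal) := by
        rw [Module.finrank_eq_rank]
        exact_mod_cast hL
      exact_mod_cast this
    have h2 := Submodule.finrank_quotient_add_finrank L
    have h3 := Submodule.finrank_quotient_add_finrank L'
    have h4 : Module.finrank ℝ L' ≤ Module.finrank ℝ L + 1 := by
      refine (Submodule.finrank_add_le_finrank_add_finrank _ _).trans ?_
      have := finrank_span_singleton (K := ℝ) (v := q) (by rintro rfl; exact hq L.zero_mem)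
      omega
    have h5 : 1 < Module.finrank ℝ (V4 ⧸ L') := by omega
    rw [← Module.finrank_eq_rank]
    exact_mod_cast h5
  have hconn := isConnected_compl_of_one_lt_codim hrank
  rw [← hint] at hconn
  obtain ⟨c, hc⟩ := const_diff (hU.inter hV) hconn.isPreconnected
    (fun a ha => hf a ha.1) (fun a ha => hg a ha.2)
  have hg' : ∀ a ∈ V, HasFDerivAt (fun x => g x + c) (θ a) a := fun a ha => (hg a ha).add_const c
  obtain ⟨F, hF⟩ := glue2 hU hV hf hg' (fun a ha ha' => hc a ⟨ha, ha'⟩)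
  refine ⟨F, fun a ha => hF a ?_⟩
  rcases lt_trichotomy (φ a) 0 with h | h | h
  · exact Or.inr (Or.inl h)
  · refine Or.inl (Or.inr ?_)
    simp only [Set.mem_preimage, Set.mem_compl_iff, SetLike.mem_coe, h, zero_smul, sub_zero]
    exact ha
  · exact Or.inl (Or.inl h)

/-- the zeroth coordinate -/
noncomputable def p0 : V4 →L[ℝ] ℂ := ContinuousLinearMap.proj (R := ℝ) (φ := fun _ : Fin 4 => ℂ) 0

theorem p0_apply (z : V4) : p0 z = z 0 := rfl

theorem hasFDerivAt_arg1 {z : V4} (hz : z 0 ∈ Complex.slitPlane) :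
    HasFDerivAt (fun z : V4 => (Complex.log (z 0)).im) (dArg z) z := by
  have h1 : HasDerivAt Complex.log (z 0)⁻¹ (p0 z) := Complex.hasDerivAt_log hz
  have h2 := h1.hasFDerivAt.restrictScalars ℝ
  have h3 := h2.comp z p0.hasFDerivAt
  have h4 := Complex.imCLM.hasFDerivAt.comp z h3
  refine h4.congr_fderiv ?_
  ext v
  simp [dArg, p0, mul_comm]

theorem hasFDerivAt_arg2 {z : V4} (hz : -z 0 ∈ Complex.slitPlane) :
    HasFDerivAt (fun z : V4 => (Complex.log (-z 0)).im) (dArg z) z := by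
  have h1 : HasDerivAt Complex.log (-z 0)⁻¹ ((-p0) z) := Complex.hasDerivAt_log hz
  have h2 := h1.hasFDerivAt.restrictScalars ℝ
  have h3 := h2.comp z (-p0).hasFDerivAt
  have h4 := Complex.imCLM.hasFDerivAt.comp z h3
  refine h4.congr_fderiv ?_
  ext v
  simp [dArg, p0, mul_comm, inv_neg]

/-- (C1c) closed 1-forms on `{z 0 ≠ 0}` are exact up to a multiple of `dArg` -/
theorem exact_w0 (θ : V4 → V4 →L[ℝ] ℝ) (hθ : DifferentiableOn ℝ θ {z | z 0 ≠ 0})
    (hd : ∀ a, a 0 ≠ 0 → ∀ x y, fderiv ℝ θ a x y = fderiv ℝ θ a y x) :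
    ∃ (t : ℝ) (f : V4 → ℝ), ∀ a, a 0 ≠ 0 → HasFDerivAt f (θ a - t • dArg a) a := by
  set U : Set V4 := p0 ⁻¹' Complex.slitPlane with hUdef
  set V : Set V4 := (-p0) ⁻¹' Complex.slitPlane with hVdef
  have hU : IsOpen U := Complex.isOpen_slitPlane.preimage p0.continuous
  have hV : IsOpen V := Complex.isOpen_slitPlane.preimage (-p0).continuous
  have hU0 : U ⊆ {z | z 0 ≠ 0} := fun z hz => Complex.slitPlane_ne_zero hz
  have hV0 : V ⊆ {z | z 0 ≠ 0} := fun z hz => neg_ne_zero.1 (Complex.slitPlane_ne_zero hz)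
  have hstU : StarConvex ℝ (fun _ => 1 : V4) U := by
    refine StarConvex.linear_preimage p0.toLinearMap ?_
    exact Complex.starConvex_one_slitPlane
  have hstV : StarConvex ℝ (fun _ => -1 : V4) V := by
    refine StarConvex.linear_preimage (-p0).toLinearMap ?_
    have : (-p0).toLinearMap (fun _ => -1 : V4) = 1 := by simp [p0]
    rw [this]
    exact Complex.starConvex_one_slitPlane
  obtain ⟨f, hf⟩ := star_exact hU hstU (hθ.mono hU0) (fun a ha => hd a (hU0 ha))
  obtain ⟨g, hg⟩ := star_exact hV hstV (hθ.mono hV0) (fun a ha => hd a (hV0 ha))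
  set P : Set V4 := (fun z : V4 => (p0 z).im) ⁻¹' Set.Ioi 0 with hP
  set N : Set V4 := (fun z : V4 => (p0 z).im) ⁻¹' Set.Iio 0 with hN
  have him : Continuous (fun z : V4 => (p0 z).im) := Complex.continuous_im.comp p0.continuous
  have hPo : IsOpen P := isOpen_Ioi.preimage him
  have hNo : IsOpen N := isOpen_Iio.preimage him
  have hPc : Convex ℝ P := (convex_Ioi (0:ℝ)).linear_preimage (Complex.imCLM.toLinearMap.comp p0.toLinearMap)
  have hNc : Convex ℝ N := (convex_Iio (0:ℝ)).linear_preimage (Complex.imCLM.toLinearMap.comp p0.toLinearMap)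
  have hPU : P ⊆ U := fun z hz => Complex.mem_slitPlane_iff.2 (Or.inr (ne_of_gt hz))
  have hNU : N ⊆ U := fun z hz => Complex.mem_slitPlane_iff.2 (Or.inr (ne_of_lt hz))
  have hPV : P ⊆ V := fun z hz => Complex.mem_slitPlane_iff.2 (Or.inr (by
    have h1 : 0 < (p0 z).im := hz
    have h2 : ((-p0) z).im = -(p0 z).im := rfl
    rw [h2]
    exact (neg_lt_zero.2 h1).ne))
  have hNV : N ⊆ V := fun z hz => Complex.mem_slitPlane_iff.2 (Or.inr (by
    have h1 : (p0 z).im < 0 := hz
    have h2 : ((-p0) z).im = -(p0 z).im := rfl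
    rw [h2]
    exact (neg_pos.2 h1).ne'))
  -- constants
  obtain ⟨cP, hcP⟩ := const_diff hPo hPc.isPreconnected
    (fun a ha => hf a (hPU ha)) (fun a ha => hg a (hPV ha))
  obtain ⟨cN, hcN⟩ := const_diff hNo hNc.isPreconnected
    (fun a ha => hf a (hNU ha)) (fun a ha => hg a (hNV ha))
  have hA1 : ∀ z ∈ U, HasFDerivAt (fun z : V4 => (Complex.log (z 0)).im) (dArg z) z :=
    fun z hz => hasFDerivAt_arg1 hz
  have hA2 : ∀ z ∈ V, HasFDerivAt (fun z : V4 => (Complex.log (-z 0)).im) (dArg z) z :=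
    fun z hz => hasFDerivAt_arg2 hz
  obtain ⟨aP, haP⟩ := const_diff hPo hPc.isPreconnected
    (fun a ha => hA1 a (hPU ha)) (fun a ha => hA2 a (hPV ha))
  obtain ⟨aN, haN⟩ := const_diff hNo hNc.isPreconnected
    (fun a ha => hA1 a (hNU ha)) (fun a ha => hA2 a (hNV ha))
  have haP' : aP = Real.pi := by
    have h1 := haP (fun _ => Complex.I) (by simp [hP, p0])
    simp only [Complex.log_im, Complex.arg_I, Complex.arg_neg_I] at h1
    linarith
  have haN' : aN = -Real.pi := by
    have h1 := haN (fun _ => -Complex.I) (by simp [hN, p0])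
    simp only [Complex.log_im, neg_neg, Complex.arg_I, Complex.arg_neg_I] at h1
    linarith
  have hpi := Real.pi_pos
  set t : ℝ := (cP - cN) / (2 * Real.pi) with ht
  have ht' : cP - t * aP = cN - t * aN := by
    rw [haP', haN', ht]
    field_simp
    ring
  have hf' : ∀ a ∈ U, HasFDerivAt (fun z : V4 => f z - t * (Complex.log (z 0)).im)
      (θ a - t • dArg a) a := fun a ha => (hf a ha).sub ((hA1 a ha).const_smul t)
  have hg' : ∀ a ∈ V, HasFDerivAt (fun z : V4 => g z - t * (Complex.log (-z 0)).im + (cP - t * aP))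
      (θ a - t • dArg a) a := fun a ha =>
    ((hg a ha).sub ((hA2 a ha).const_smul t)).add_const (cP - t * aP)
  obtain ⟨F, hF⟩ := glue2 hU hV hf' hg' (by
    intro a ha ha'
    have him0 : (p0 a).im ≠ 0 := by
      intro h0
      have h1 := Complex.mem_slitPlane_iff.1 ha
      have h2 := Complex.mem_slitPlane_iff.1 ha'
      have h3 : ((-p0) a).im = -(p0 a).im := rfl
      have h4 : ((-p0) a).re = -(p0 a).re := rfl
      rw [h3, h4, h0] at h2
      rw [h0] at h1
      simp only [ne_eq, not_true_eq_false, or_false, neg_zero] at h1 h2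
      linarith
    rcases lt_or_gt_of_ne him0 with h | h
    · have e1 := hcN a h
      have e2 := haN a h
      rw [e1, e2, ht']
      ring
    · have e1 := hcP a h
      have e2 := haP a h
      rw [e1, e2]
      ring)
  refine ⟨t, F, fun a ha => hF a ?_⟩
  rcases Complex.mem_slitPlane_or_neg_mem_slitPlane ha with h | h
  · exact Or.inl h
  · exact Or.inr h

end Pool.Agent.Work.MP_2a78db_gt.C1
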