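import Pool.Agent.Work.MP_2a78db_gt.Common
import Pool.Agent.Work.MP_2a78db_gt.A2
import Pool.Agent.Work.MP_2a78db_gt.A3
import Pool.Agent.Work.MP_2a78db_gt.C1

/-!
Module C2: gluing of primitives over the seven charts; the second cohomology has rank one.
-/

set_option autoImplicit false

namespace Pool.Agent.Work.MP_2a78db_gt

open scoped Topology ContDiff Manifold
open Filter

namespace C2

/-- pull back of a form in chart `l` to the chart `k` -/
noncomputable def pb {j : ℕ} (k l : Ch) (β : V4 → V4 [⋀^Fin j]→L[ℝ] ℝ) (z : V4) :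
    V4 [⋀^Fin j]→L[ℝ] ℝ :=
  (β (T k l z)).compContinuousLinearMap (fderiv ℝ (T k l) z)

/-! ### 1-forms -/

/-- `one` as a continuous linear equivalence -/
noncomputable def oneL : (V4 →L[ℝ] ℝ) ≃L[ℝ] (V4 [⋀^Fin 1]→L[ℝ] ℝ) :=
  (ContinuousAlternatingMap.ofSubsingletonLIE (𝕜 := ℝ) (E := V4) (F := ℝ)
    (0 : Fin 1)).toContinuousLinearEquiv

theorem oneL_apply (f : V4 →L[ℝ] ℝ) : oneL f = one f := rfl

theorem one_add (f g : V4 →L[ℝ] ℝ) : one (f + g) = one f + one g := oneL.map_add f g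
theorem one_sub (f g : V4 →L[ℝ] ℝ) : one (f - g) = one f - one g := oneL.map_sub f g
theorem one_smul' (t : ℝ) (f : V4 →L[ℝ] ℝ) : one (t • f) = t • one f := oneL.map_smul t f

theorem one_comp (f : V4 →L[ℝ] ℝ) (g : V4 →L[ℝ] V4) :
    (one f).compContinuousLinearMap g = one (f.comp g) := by
  ext v
  simp [one]

theorem extDeriv_one_fderiv {h : V4 → ℝ} {z : V4} (hh : ContDiffAt ℝ 2 h z) :
    extDeriv (fun y => one (fderiv ℝ h y)) z = 0 := by
  have e : (fun y => one (fderiv ℝ h y)) =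
      extDeriv (fun x => ContinuousAlternatingMap.constOfIsEmpty ℝ V4 (Fin 0) (h x)) := by
    funext y
    rw [extDeriv_constOfIsEmpty]
    rfl
  rw [e]
  refine extDeriv_extDeriv_apply (r := 2) ?_ (by simp)
  exact (ContinuousAlternatingMap.constOfIsEmptyLIE ℝ V4 ℝ (Fin 0)).toContinuousLinearEquiv.contDiff.contDiffAt.comp z hh

theorem extDeriv_sub' {j : ℕ} {β β' : V4 → V4 [⋀^Fin j]→L[ℝ] ℝ} {z : V4}
    (h : DifferentiableAt ℝ β z) (h' : DifferentiableAt ℝ β' z) :
    extDeriv (fun w => β w - β' w) z = extDeriv β z - extDeriv β' z := by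
  have h1 := extDeriv_fun_add (h.sub h') h'
  have e : (fun x => (β - β') x + β' x) = β := by
    funext x; simp
  rw [e] at h1
  rw [h1]
  simp only [add_sub_cancel_right]
  rfl

/-- closed 1-forms have symmetric derivative -/
theorem symm_of_extDeriv {η : V4 → V4 [⋀^Fin 1]→L[ℝ] ℝ} {z : V4} (hη : DifferentiableAt ℝ η z)
    (h : extDeriv η z = 0) (x y : V4) :
    fderiv ℝ (fun w => oneL.symm (η w)) z x y = fderiv ℝ (fun w => oneL.symm (η w)) z y x := by
  have h1 := congrArg (fun a => a ![x, y]) h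
  simp only [ContinuousAlternatingMap.coe_zero, Pi.zero_apply] at h1
  rw [extDeriv_apply hη, Fin.sum_univ_two] at h1
  have e : ∀ (u v : V4), fderiv ℝ (fun w => oneL.symm (η w)) z u v =
      fderiv ℝ (fun w => η w ![v]) z u := by
    intro u v
    have e1 : (fun w => η w ![v]) = fun w => (oneL.symm (η w)) v := by
      funext w
      have : η w = one (oneL.symm (η w)) := (oneL.apply_symm_apply (η w)).symm
      conv_lhs => rw [this]
      simp [one]
    have hd : DifferentiableAt ℝ (fun w => oneL.symm (η w)) z :=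
      oneL.symm.differentiableAt.comp z hη
    rw [e1, fderiv_clm_apply hd (differentiableAt_const v)]
    simp
  have e0 : (Fin.removeNth 0 ![x, y] : Fin 1 → V4) = ![y] := by
    funext i; fin_cases i; rfl
  have e1 : (Fin.removeNth 1 ![x, y] : Fin 1 → V4) = ![x] := by
    funext i; fin_cases i; rfl
  rw [e0, e1] at h1
  rw [e, e]
  simp at h1
  linarith

/-! ### transition maps -/

section trans

variable {M : Type} [TopologicalSpace M] (D : SpaceData M)

include D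

theorem mem_O {k l : Ch} {z : V4} : z ∈ O k l ↔ (D.e k).symm z ∈ (D.e l).source := by
  rw [← D.overlap k l]
  rfl

theorem T_mem {k l : Ch} {z : V4} (hz : z ∈ O k l) : T k l z ∈ O l k := by
  rw [mem_O D, D.symm_trans k l hz]
  exact D.symm_mem k z

theorem T_T {k l : Ch} {z : V4} (hz : z ∈ O k l) : T l k (T k l z) = z := by
  rw [← D.trans l k _ (T_mem D hz), D.symm_trans k l hz, D.apply_symm]

theorem T_mem3 {k l m : Ch} {z : V4} (hz : z ∈ O k l) (hz' : z ∈ O k m) : T k l z ∈ O l m := by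
  rw [mem_O D, D.symm_trans k l hz]
  exact (mem_O D).1 hz'

theorem T_T3 {k l m : Ch} {z : V4} (hz : z ∈ O k l) (hz' : z ∈ O k m) :
    T l m (T k l z) = T k m z := by
  rw [← D.trans l m _ (T_mem3 D hz hz'), D.symm_trans k l hz, D.trans k m z hz']

omit D in
theorem cdT {k l : Ch} {z : V4} (hz : z ∈ O k l) : ContDiffAt ℝ ∞ (T k l) z :=
  (contDiffOn_T k l).contDiffAt ((isOpen_O k l).mem_nhds hz)

omit D in
theorem dT {k l : Ch} {z : V4} (hz : z ∈ O k l) : DifferentiableAt ℝ (T k l) z :=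
  (cdT hz).differentiableAt (by simp)

theorem fderiv_T3 {k l m : Ch} {z : V4} (hz : z ∈ O k l) (hz' : z ∈ O k m) :
    (fderiv ℝ (T l m) (T k l z)).comp (fderiv ℝ (T k l) z) = fderiv ℝ (T k m) z := by
  rw [← fderiv_comp z (dT (T_mem3 D hz hz')) (dT hz)]
  refine Filter.EventuallyEq.fderiv_eq ?_
  filter_upwards [(isOpen_O k l).mem_nhds hz, (isOpen_O k m).mem_nhds hz'] with w hw hw'
  exact T_T3 D hw hw'

theorem T_self (k : Ch) : O k k = Set.univ := by
  ext z
  simp only [Set.mem_univ, iff_true]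
  rw [mem_O D]
  exact D.symm_mem k z

theorem T_id (k : Ch) (z : V4) : T k k z = z := by
  rw [← D.trans k k z (by rw [T_self D]; trivial), D.apply_symm]

theorem fderiv_T_id (k : Ch) (z : V4) : fderiv ℝ (T k k) z = ContinuousLinearMap.id ℝ V4 := by
  have : T k k = id := funext (T_id D k)
  rw [this, fderiv_id]

theorem pb_self {j : ℕ} (k : Ch) (β : V4 → V4 [⋀^Fin j]→L[ℝ] ℝ) (z : V4) : pb k k β z = β z := by
  rw [pb, fderiv_T_id D, T_id D]
  ext v
  simp

theorem pb_pb {j : ℕ} {k l m : Ch} {z : V4} (hz : z ∈ O k l) (hz' : z ∈ O k m)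
    (β : V4 → V4 [⋀^Fin j]→L[ℝ] ℝ) : pb k l (pb l m β) z = pb k m β z := by
  rw [pb, pb, pb, T_T3 D hz hz', ← fderiv_T3 D hz hz']
  rfl

theorem pb_symm {j : ℕ} {k l : Ch} {z : V4} (hz : z ∈ O k l)
    {β β' : V4 → V4 [⋀^Fin j]→L[ℝ] ℝ} (h : ∀ w ∈ O l k, β' w = pb l k β w) :
    β z = pb k l β' z := by
  have h2 := h _ (T_mem D hz)
  have hk : z ∈ O k k := by rw [T_self D]; trivial
  have h3 := pb_pb D hz hk β
  rw [pb_self D] at h3
  rw [← h3]
  change ((pb l k β) (T k l z)).compContinuousLinearMap _ = (β' (T k l z)).compContinuousLinearMap _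
  rw [h2]

omit D in
theorem pb_add {j : ℕ} (k l : Ch) (β β' : V4 → V4 [⋀^Fin j]→L[ℝ] ℝ) (z : V4) :
    pb k l (fun w => β w + β' w) z = pb k l β z + pb k l β' z := rfl

omit D in
theorem pb_sub {j : ℕ} (k l : Ch) (β β' : V4 → V4 [⋀^Fin j]→L[ℝ] ℝ) (z : V4) :
    pb k l (fun w => β w - β' w) z = pb k l β z - pb k l β' z := rfl

omit D in
theorem pb_smul {j : ℕ} (k l : Ch) (t : ℝ) (β : V4 → V4 [⋀^Fin j]→L[ℝ] ℝ) (z : V4) :
    pb k l (fun w => t • β w) z = t • pb k l β z := rfl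

omit D in
/-- pull back commutes with the exterior derivative -/
theorem extDeriv_pb {j : ℕ} {k l : Ch} {z : V4} (hz : z ∈ O k l)
    {β : V4 → V4 [⋀^Fin j]→L[ℝ] ℝ} (hβ : DifferentiableAt ℝ β (T k l z)) :
    extDeriv (pb k l β) z = pb k l (extDeriv β) z :=
  extDeriv_pullback hβ ((cdT hz).of_le (by norm_cast) : ContDiffAt ℝ 2 (T k l) z) (by simp)

/-- functions on the space -/
theorem fun_trans {k l : Ch} {z : V4} (hz : z ∈ O k l) {h : M → ℝ}
    (hh : DifferentiableAt ℝ (fun w => h ((D.e l).symm w)) (T k l z)) :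
    one (fderiv ℝ (fun w => h ((D.e k).symm w)) z) =
      pb k l (fun w => one (fderiv ℝ (fun w' => h ((D.e l).symm w')) w)) z := by
  have e : (fun w => h ((D.e k).symm w)) =ᶠ[𝓝 z] (fun w => h ((D.e l).symm w)) ∘ (T k l) := by
    filter_upwards [(isOpen_O k l).mem_nhds hz] with w hw
    rw [Function.comp_apply, D.symm_trans k l hw]
  rw [e.fderiv_eq, fderiv_comp z hh (dT hz), pb, one_comp]

end trans

/-! ### cut-off functions -/

section glue

variable {M : Type} [TopologicalSpace M] [T2Space M] [CompactSpace M] (D : SpaceData M)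

include D

theorem exists_cut (U V : Set M) (hU : IsOpen U) (hV : IsOpen V) :
    ∃ χ : M → ℝ,
      (∀ k z, (D.e k).symm z ∈ U ∪ V → ContDiffAt ℝ 2 (fun w => χ ((D.e k).symm w)) z) ∧
      (∀ x ∈ U ∪ V, x ∉ U → ∀ᶠ y in 𝓝 x, χ y = 0) ∧
      (∀ x ∈ U ∪ V, x ∉ V → ∀ᶠ y in 𝓝 x, χ y = 1) := by
  let _ := D.chartedSpace
  have _ := D.isManifold
  obtain ⟨p, hp, hps, hp0⟩ := hU.exists_contMDiff_support_eq (n := ⊤) 𝓘(ℝ, V4)
  obtain ⟨q, hq, hqs, hq0⟩ := hV.exists_contMDiff_support_eq (n := ⊤) 𝓘(ℝ, V4)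
  have hpc : Continuous p := hps.continuous
  have hqc : Continuous q := hqs.continuous
  have hpU : ∀ x, x ∈ U ↔ p x ≠ 0 := fun x => by rw [← hp]; rfl
  have hqV : ∀ x, x ∈ V ↔ q x ≠ 0 := fun x => by rw [← hq]; rfl
  have hpos : ∀ x ∈ U ∪ V, p x + q x ≠ 0 := by
    intro x hx
    have h1 := hp0 x
    have h2 := hq0 x
    rcases hx with hx | hx
    · have := lt_of_le_of_ne h1 (Ne.symm ((hpU x).1 hx))
      positivity
    · have := lt_of_le_of_ne h2 (Ne.symm ((hqV x).1 hx))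
      positivity
  have hu : ∀ x ∈ U ∪ V, ContinuousAt (fun x => p x / (p x + q x)) x := fun x hx =>
    hpc.continuousAt.div (hpc.add hqc).continuousAt (hpos x hx)
  refine ⟨fun x => Real.smoothTransition (3 * (p x / (p x + q x)) - 1), ?_, ?_, ?_⟩
  · intro k z hz
    have h1 : ContDiff ℝ ∞ (fun w => p ((D.e k).symm w)) :=
      contMDiff_iff_contDiff.1 (hps.comp (D.contMDiff_symm k))
    have h2 : ContDiff ℝ ∞ (fun w => q ((D.e k).symm w)) :=
      contMDiff_iff_contDiff.1 (hqs.comp (D.contMDiff_symm k))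
    have h3 : ContDiffAt ℝ ∞ (fun w => p ((D.e k).symm w) /
        (p ((D.e k).symm w) + q ((D.e k).symm w))) z :=
      h1.contDiffAt.div (h1.add h2).contDiffAt (hpos _ hz)
    have h4 : ContDiffAt ℝ ∞ (fun w => 3 * (p ((D.e k).symm w) /
        (p ((D.e k).symm w) + q ((D.e k).symm w))) - 1) z :=
      (contDiffAt_const.mul h3).sub contDiffAt_const
    have h5 : ContDiffAt ℝ ∞ (fun w => Real.smoothTransition (3 * (p ((D.e k).symm w) /
        (p ((D.e k).symm w) + q ((D.e k).symm w))) - 1)) z :=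
      Real.smoothTransition.contDiff.contDiffAt.comp z h4
    exact h5.of_le (by norm_cast)
  · intro x hx hxU
    have h0 : p x = 0 := by
      by_contra h
      exact hxU ((hpU x).2 h)
    have h1 : ∀ᶠ y in 𝓝 x, p y / (p y + q y) < 1 / 3 :=
      (hu x hx).eventually_lt continuousAt_const (by simp [h0])
    filter_upwards [h1] with y hy
    exact Real.smoothTransition.zero_of_nonpos (by linarith)
  · intro x hx hxV
    have h0 : q x = 0 := by
      by_contra h
      exact hxV ((hqV x).2 h)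
    have hp1 : p x ≠ 0 := by
      have := hpos x hx
      rwa [h0, add_zero] at this
    have h1 : ∀ᶠ y in 𝓝 x, 2 / 3 < p y / (p y + q y) :=
      continuousAt_const.eventually_lt (hu x hx) (by
        rw [h0, add_zero, div_self hp1]; norm_num)
    filter_upwards [h1] with y hy
    exact Real.smoothTransition.one_of_one_le (by linarith)

/-- primitives on the charts of `U` -/
def Glued (om : Ch → V4 → V4 [⋀^Fin 2]→L[ℝ] ℝ) (U : Set Ch)
    (β : Ch → V4 → V4 [⋀^Fin 1]→L[ℝ] ℝ) : Prop :=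
  (∀ l ∈ U, ContDiff ℝ 1 (β l)) ∧ (∀ l ∈ U, ∀ z, extDeriv (β l) z = om l z) ∧
    ∀ l ∈ U, ∀ m ∈ U, ∀ z ∈ O l m, β l z = pb l m (β m) z

omit D in
theorem contDiff_one_fderiv {h : V4 → ℝ} (hh : ContDiff ℝ 2 h) :
    ContDiff ℝ 1 (fun z => one (fderiv ℝ h z)) := by
  have h1 : ContDiff ℝ 1 (fderiv ℝ h) := hh.fderiv_right (by norm_num)
  exact oneL.contDiff.comp h1

theorem glue {om : Ch → V4 → V4 [⋀^Fin 2]→L[ℝ] ℝ} {U : Set Ch} {k : Ch} (hk : k ∉ U)
    {β : Ch → V4 → V4 [⋀^Fin 1]→L[ℝ] ℝ} (hβ : Glued om U β)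
    {β' : V4 → V4 [⋀^Fin 1]→L[ℝ] ℝ} (h1' : ContDiff ℝ 1 β') (hd' : ∀ z, extDeriv β' z = om k z)
    {f : V4 → ℝ} (hf : ∀ l ∈ U, ∀ z ∈ O k l, ContDiffAt ℝ 2 f z)
    (hf' : ∀ l ∈ U, ∀ z ∈ O k l, one (fderiv ℝ f z) = β' z - pb k l (β l) z) :
    ∃ γ, Glued om (insert k U) γ := by
  classical
  obtain ⟨hβ1, hβd, hβc⟩ := hβ
  obtain ⟨Us, hUs⟩ : ∃ Us : Set M, Us = ⋃ l ∈ U, (D.e l).source := ⟨_, rfl⟩
  have hUo : IsOpen Us := by
    rw [hUs]
    exact isOpen_biUnion fun l _ => (D.e l).open_source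
  obtain ⟨χ, hχ, hχ0, hχ1⟩ := exists_cut D Us (D.e k).source hUo (D.e k).open_source
  have hmemU : ∀ l ∈ U, ∀ z, (D.e l).symm z ∈ Us := by
    intro l hl z
    rw [hUs]
    exact Set.mem_biUnion hl (D.symm_mem l z)
  -- the function
  have hfk : ∀ w, f (D.e k ((D.e k).symm w)) = f w := fun w => by rw [D.apply_symm]
  obtain ⟨G1, hG1⟩ : ∃ G1 : M → ℝ, G1 = fun x => χ x * f (D.e k x) := ⟨_, rfl⟩
  obtain ⟨G2, hG2⟩ : ∃ G2 : M → ℝ, G2 = fun x => (1 - χ x) * f (D.e k x) := ⟨_, rfl⟩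
  have hc1 : ContDiff ℝ 2 (fun z => G1 ((D.e k).symm z)) := by
    rw [contDiff_iff_contDiffAt]
    intro z
    by_cases hz : (D.e k).symm z ∈ Us
    · have hz' := hz
      rw [hUs] at hz'
      obtain ⟨l, hl, hlz⟩ := Set.mem_iUnion₂.1 hz'
      have hO : z ∈ O k l := (mem_O D).2 hlz
      have e : (fun z => G1 ((D.e k).symm z)) = fun z => χ ((D.e k).symm z) * f z := by
        funext w
        rw [hG1]
        simp only [hfk]
      rw [e]
      exact (hχ k z (Or.inl hz)).mul (hf l hl z hO)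
    · have h2 := hχ0 _ (Or.inr (D.symm_mem k z)) hz
      have h3 : ∀ᶠ w in 𝓝 z, χ ((D.e k).symm w) = 0 :=
        (D.continuous_symm k).continuousAt.eventually h2
      refine (contDiffAt_const (c := (0 : ℝ))).congr_of_eventuallyEq ?_
      filter_upwards [h3] with w hw
      rw [hG1]
      simp only [hw, zero_mul]
  have hc2 : ∀ l ∈ U, ContDiff ℝ 2 (fun z => G2 ((D.e l).symm z)) := by
    intro l hl
    rw [contDiff_iff_contDiffAt]
    intro z
    by_cases hz : z ∈ O l k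
    · have h4 : ContDiffAt ℝ 2 (fun w => (1 - χ ((D.e l).symm w)) * f (T l k w)) z := by
        refine (contDiffAt_const.sub (hχ l z (Or.inl (hmemU l hl z)))).mul ?_
        exact (hf l hl _ (T_mem D hz)).comp z ((cdT hz).of_le (by norm_cast))
      refine h4.congr_of_eventuallyEq ?_
      filter_upwards [(isOpen_O l k).mem_nhds hz] with w hw
      rw [hG2]
      simp only [D.trans l k w hw]
    · have hz' : (D.e l).symm z ∉ (D.e k).source := fun h => hz ((mem_O D).2 h)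
      have h2 := hχ1 _ (Or.inl (hmemU l hl z)) hz'
      have h3 : ∀ᶠ w in 𝓝 z, χ ((D.e l).symm w) = 1 :=
        (D.continuous_symm l).continuousAt.eventually h2
      refine (contDiffAt_const (c := (0 : ℝ))).congr_of_eventuallyEq ?_
      filter_upwards [h3] with w hw
      rw [hG2]
      simp only [hw, sub_self, zero_mul]
  have hG2k : (fun z => G2 ((D.e k).symm z)) = fun z => f z - G1 ((D.e k).symm z) := by
    funext w
    rw [hG1, hG2]
    simp only [hfk]
    ring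
  obtain ⟨γ, hγ⟩ : ∃ γ : Ch → V4 → V4 [⋀^Fin 1]→L[ℝ] ℝ, γ = fun j =>
      if j = k then fun z => β' z - one (fderiv ℝ (fun w => G1 ((D.e k).symm w)) z)
      else fun z => β j z + one (fderiv ℝ (fun w => G2 ((D.e j).symm w)) z) := ⟨_, rfl⟩
  have hγk : γ k = fun z => β' z - one (fderiv ℝ (fun w => G1 ((D.e k).symm w)) z) := by
    rw [hγ]; simp
  have hγl : ∀ l ∈ U, γ l = fun z => β l z + one (fderiv ℝ (fun w => G2 ((D.e l).symm w)) z) := by
    intro l hl
    have : l ≠ k := fun h => hk (h ▸ hl)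
    rw [hγ]
    simp [this]
  -- compatibility between k and l
  have hkl : ∀ l ∈ U, ∀ z ∈ O k l, γ k z = pb k l (γ l) z := by
    intro l hl z hz
    have e1 : one (fderiv ℝ (fun w => G2 ((D.e k).symm w)) z) =
        pb k l (fun w => one (fderiv ℝ (fun w' => G2 ((D.e l).symm w')) w)) z :=
      fun_trans D hz ((hc2 l hl).differentiable (by norm_num) _)
    rw [hγk, hγl l hl, pb_add, ← e1, hG2k,
      fderiv_fun_sub ((hf l hl z hz).differentiableAt (by norm_num))
        (hc1.differentiable (by norm_num) z), one_sub, hf' l hl z hz]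
    beta_reduce
    abel
  refine ⟨γ, ?_, ?_, ?_⟩
  · rintro l (rfl | hl)
    · rw [hγk]
      exact h1'.sub (contDiff_one_fderiv hc1)
    · rw [hγl l hl]
      exact (hβ1 l hl).add (contDiff_one_fderiv (hc2 l hl))
  · rintro l (rfl | hl) z
    · have h5 := (contDiff_one_fderiv hc1).differentiable (by norm_num) z
      rw [hγk, extDeriv_sub' (h1'.differentiable (by norm_num) z) h5,
        extDeriv_one_fderiv hc1.contDiffAt, sub_zero, hd']
    · have h5 := (contDiff_one_fderiv (hc2 l hl)).differentiable (by norm_num) z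
      rw [hγl l hl, extDeriv_fun_add ((hβ1 l hl).differentiable (by norm_num) z) h5,
        extDeriv_one_fderiv (hc2 l hl).contDiffAt, add_zero, hβd l hl]
  · rintro l (rfl | hl) m (rfl | hm) z hz
    · rw [pb_self D]
    · exact hkl m hm z hz
    · exact pb_symm D hz fun w hw => hkl l hl w hw
    · have e1 : one (fderiv ℝ (fun w => G2 ((D.e l).symm w)) z) =
          pb l m (fun w => one (fderiv ℝ (fun w' => G2 ((D.e m).symm w')) w)) z :=
        fun_trans D hz ((hc2 m hm).differentiable (by norm_num) _)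
      rw [hγl l hl, hγl m hm, pb_add, ← e1]
      beta_reduce
      rw [hβc l hl m hm z hz]

omit [T2Space M] [CompactSpace M] D in
/-- the pull back of a `C^1` 1-form is `C^1` -/
theorem cd_pb {k l : Ch} {z : V4} (hz : z ∈ O k l) {β : V4 → V4 [⋀^Fin 1]→L[ℝ] ℝ}
    (hβ : ContDiff ℝ 1 β) : ContDiffAt ℝ 1 (pb k l β) z := by
  have e : pb k l β = fun w => oneL ((oneL.symm (β (T k l w))).comp (fderiv ℝ (T k l) w)) := by
    funext w
    rw [oneL_apply, ← one_comp, ← oneL_apply, oneL.apply_symm_apply]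
    rfl
  rw [e]
  refine oneL.contDiff.contDiffAt.comp z ?_
  refine ContDiffAt.clm_comp ?_ ?_
  · refine oneL.symm.contDiff.contDiffAt.comp z ?_
    exact hβ.contDiffAt.comp z ((cdT hz).of_le (by norm_cast))
  · exact (cdT hz).fderiv_right (m := 1) (by norm_cast)

omit [T2Space M] [CompactSpace M] in
theorem exists_theta {om : Ch → V4 → V4 [⋀^Fin 2]→L[ℝ] ℝ} (hom : Compat 2 om) {U : Set Ch}
    {k : Ch} {β : Ch → V4 → V4 [⋀^Fin 1]→L[ℝ] ℝ} (hβ : Glued om U β)
    {β' : V4 → V4 [⋀^Fin 1]→L[ℝ] ℝ} (h1' : ContDiff ℝ 1 β') (hd' : ∀ z, extDeriv β' z = om k z) :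
    ∃ θ : V4 → V4 →L[ℝ] ℝ, ∀ l ∈ U, ∀ z ∈ O k l, one (θ z) = β' z - pb k l (β l) z ∧
      ContDiffAt ℝ 1 θ z ∧ ∀ x y, fderiv ℝ θ z x y = fderiv ℝ θ z y x := by
  classical
  obtain ⟨hβ1, hβd, hβc⟩ := hβ
  refine ⟨fun z => oneL.symm (β' z - if h : ∃ l ∈ U, z ∈ O k l then
    pb k h.choose (β h.choose) z else 0), fun l hl z hz => ?_⟩
  have key : ∀ w ∈ O k l, oneL.symm (β' w - if h : ∃ l ∈ U, w ∈ O k l then
      pb k h.choose (β h.choose) w else 0) = oneL.symm (β' w - pb k l (β l) w) := by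
    intro w hw
    have hex : ∃ l ∈ U, w ∈ O k l := ⟨l, hl, hw⟩
    rw [dif_pos hex]
    obtain ⟨h1, h2⟩ := hex.choose_spec
    have h3 := hβc _ h1 l hl _ (T_mem3 D h2 hw)
    have h4 : pb k hex.choose (β hex.choose) w = pb k hex.choose (pb hex.choose l (β l)) w := by
      change (β _ _).compContinuousLinearMap _ = (pb _ l (β l) _).compContinuousLinearMap _
      rw [h3]
    rw [h4, pb_pb D h2 hw]
  have hev : (fun z => oneL.symm (β' z - if h : ∃ l ∈ U, z ∈ O k l then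
      pb k h.choose (β h.choose) z else 0)) =ᶠ[𝓝 z]
      fun w => oneL.symm (β' w - pb k l (β l) w) := by
    filter_upwards [(isOpen_O k l).mem_nhds hz] with w hw
    exact key w hw
  have hcd : ContDiffAt ℝ 1 (fun w => β' w - pb k l (β l) w) z :=
    h1'.contDiffAt.sub (cd_pb hz (hβ1 l hl))
  refine ⟨?_, ?_, ?_⟩
  · beta_reduce
    rw [key z hz]
    exact oneL.apply_symm_apply _
  · refine ContDiffAt.congr_of_eventuallyEq ?_ hev
    exact oneL.symm.contDiff.contDiffAt.comp z hcd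
  · intro x y
    rw [hev.fderiv_eq]
    refine symm_of_extDeriv (hcd.differentiableAt (by norm_num)) ?_ x y
    rw [extDeriv_sub' (h1'.differentiable (by norm_num) z)
      ((cd_pb hz (hβ1 l hl)).differentiableAt (by norm_num)),
      extDeriv_pb hz ((hβ1 l hl).differentiable (by norm_num) _), hd']
    have h5 : pb k l (extDeriv (β l)) z = pb k l (om l) z := by
      change (extDeriv (β l) _).compContinuousLinearMap _ = (om l _).compContinuousLinearMap _
      rw [hβd l hl]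
    rw [h5, hom k l z hz]
    exact sub_self _

omit [T2Space M] [CompactSpace M] D in
theorem cd2_of_hasFDerivAt {f : V4 → ℝ} {θ : V4 → V4 →L[ℝ] ℝ} {z : V4} {S : Set V4}
    (hS : IsOpen S) (hz : z ∈ S) (hf : ∀ w ∈ S, HasFDerivAt f (θ w) w)
    (hθ : ContDiffAt ℝ 1 θ z) : ContDiffAt ℝ 2 f z := by
  have h : ContDiffAt ℝ ((1 : ℕ) + 1) f z := by
    rw [contDiffAt_succ_iff_hasFDerivAt]
    exact ⟨θ, ⟨S, hS.mem_nhds hz, hf⟩, by exact_mod_cast hθ⟩
  exact h.of_le (by norm_num)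

/-- adding a chart whose overlap is the complement of a subspace of codimension at least 3 -/
theorem step3 {om : Ch → V4 → V4 [⋀^Fin 2]→L[ℝ] ℝ} (hom : Compat 2 om)
    (hs : ∀ k, ContDiff ℝ ∞ (om k)) (hd : ∀ k z, extDeriv (om k) z = 0) {U : Set Ch}
    {k : Ch} (hk : k ∉ U) (L : Submodule ℝ V4) (hL : 2 < Module.rank ℝ (V4 ⧸ L))
    (hLO : ∀ z, z ∉ L ↔ ∃ l ∈ U, z ∈ O k l)
    {β : Ch → V4 → V4 [⋀^Fin 1]→L[ℝ] ℝ} (hβ : Glued om U β) :
    ∃ γ, Glued om (insert k U) γ := by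
  obtain ⟨β', h1', hd'⟩ := C1.poincare2 (om k) (hs k) (hd k)
  obtain ⟨θ, hθ⟩ := exists_theta D hom hβ h1' hd'
  obtain ⟨f, hf⟩ := C1.exact_compl L hL θ
    (fun z hz => by
      obtain ⟨l, hl, hz'⟩ := (hLO z).1 hz
      exact ((hθ l hl z hz').2.1.differentiableAt (by norm_num)).differentiableWithinAt)
    (fun z hz => by
      obtain ⟨l, hl, hz'⟩ := (hLO z).1 hz
      exact (hθ l hl z hz').2.2)
  have hf2 : ∀ l ∈ U, ∀ z ∈ O k l, HasFDerivAt f (θ z) z := fun l hl z hz =>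
    hf z ((hLO z).2 ⟨l, hl, hz⟩)
  refine glue D hk hβ h1' hd' (f := f) (fun l hl z hz => ?_) (fun l hl z hz => ?_)
  · exact cd2_of_hasFDerivAt (isOpen_O k l) hz (hf2 l hl) (hθ l hl z hz).2.1
  · rw [(hf2 l hl z hz).fderiv]
    exact (hθ l hl z hz).1

end glue

/-! ### the subspaces -/

theorem rank_quot {W : Type} [AddCommGroup W] [Module ℝ W] (L : Submodule ℝ V4)
    (g : V4 →ₗ[ℝ] W) (hg : L ≤ LinearMap.ker g) (hs : Function.Surjective g) :
    Module.rank ℝ W ≤ Module.rank ℝ (V4 ⧸ L) := by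
  refine LinearMap.rank_le_of_surjective (L.liftQ g hg) fun c => ?_
  obtain ⟨z, hz⟩ := hs c
  exact ⟨Submodule.Quotient.mk z, by simpa using hz⟩

def L5 : Submodule ℝ V4 where
  carrier := {z | n5 z = 0}
  zero_mem' := by simp [n5]
  add_mem' := by
    intro x y hx hy
    obtain ⟨a1, a2, a3⟩ := A2.n5_eq_zero hx
    obtain ⟨b1, b2, b3⟩ := A2.n5_eq_zero hy
    simp [n5, a1, a2, a3, b1, b2, b3]
  smul_mem' := by
    intro t x hx
    obtain ⟨a1, a2, a3⟩ := A2.n5_eq_zero hx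
    simp [n5, a1, a2, a3]

def L3 : Submodule ℝ V4 where
  carrier := {z | n3 z = 0}
  zero_mem' := by simp [n3]
  add_mem' := by
    intro x y hx hy
    obtain ⟨a1, a2⟩ := A2.n3_eq_zero hx
    obtain ⟨b1, b2⟩ := A2.n3_eq_zero hy
    simp [n3, a1, a2, b1, b2]
  smul_mem' := by
    intro t x hx
    obtain ⟨a1, a2⟩ := A2.n3_eq_zero hx
    simp [n3, a1, a2]

def LB (n : ℕ) : Submodule ℝ V4 where
  carrier := {z | ∀ i : Fin 4, i.1 ≤ n → z i = 0}
  zero_mem' := by intro i _; rfl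
  add_mem' := by
    intro x y hx hy i hi
    simp [hx i hi, hy i hi]
  smul_mem' := by
    intro t x hx i hi
    simp [hx i hi]

theorem rank_CC : Module.rank ℝ (ℂ × ℂ) = 4 := by
  rw [rank_prod', Complex.rank_real_complex]
  norm_num

theorem rank_CR : Module.rank ℝ (ℂ × ℝ) = 3 := by
  rw [rank_prod', Complex.rank_real_complex, Module.rank_self]
  norm_num

theorem rank_L5 : 2 < Module.rank ℝ (V4 ⧸ L5) := by
  have h := rank_quot L5 ((LinearMap.proj (R := ℝ) (φ := fun _ : Fin 4 => ℂ) 2).prod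
    (LinearMap.proj (R := ℝ) (φ := fun _ : Fin 4 => ℂ) 3)) (fun z hz => by
      obtain ⟨a1, a2, a3⟩ := A2.n5_eq_zero hz
      simp [a2, a3]) (fun c => ⟨![0, 0, c.1, c.2], by simp⟩)
  rw [rank_CC] at h
  exact lt_of_lt_of_le (by norm_num) h

theorem rank_L3 : 2 < Module.rank ℝ (V4 ⧸ L3) := by
  have h := rank_quot L3 ((LinearMap.proj (R := ℝ) (φ := fun _ : Fin 4 => ℂ) 0).prod
    (Complex.reLm ∘ₗ (LinearMap.proj (R := ℝ) (φ := fun _ : Fin 4 => ℂ) 1))) (fun z hz => by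
      obtain ⟨a1, a2⟩ := A2.n3_eq_zero hz
      simp [a1, a2]) (fun c => ⟨![c.1, c.2, 0, 0], by simp⟩)
  rw [rank_CR] at h
  exact lt_of_lt_of_le (by norm_num) h

theorem rank_LB {n : ℕ} (hn : 1 ≤ n) : 2 < Module.rank ℝ (V4 ⧸ LB n) := by
  have h := rank_quot (LB n) ((LinearMap.proj (R := ℝ) (φ := fun _ : Fin 4 => ℂ) 0).prod
    (LinearMap.proj (R := ℝ) (φ := fun _ : Fin 4 => ℂ) 1)) (fun z hz => by
      have h0 : z 0 = 0 := hz 0 (Nat.zero_le _)
      have h1 : z 1 = 0 := hz 1 hn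
      simp [h0, h1]) (fun c => ⟨![c.1, c.2, 0, 0], by simp⟩)
  rw [rank_CC] at h
  exact lt_of_lt_of_le (by norm_num) h

/-! ### overlaps -/

theorem overlap_a (z : V4) : z ∉ L5 ↔ ∃ l ∈ ({.c} : Set Ch), z ∈ O .a l := by
  constructor
  · intro h
    exact ⟨.c, rfl, h⟩
  · rintro ⟨l, hl, h⟩
    rw [Set.mem_singleton_iff] at hl
    subst hl
    exact h

theorem overlap_b (z : V4) : z ∉ L3 ↔ ∃ l ∈ (insert .a {.c} : Set Ch), z ∈ O .b l := by
  have h0 : n3 (inv5 z) = n3 z := by simp [n3, inv5]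
  constructor
  · intro h
    exact ⟨.c, Or.inr rfl, h⟩
  · rintro ⟨l, hl, h⟩
    rcases hl with hl | hl
    · subst hl
      have h2 : n3 (inv5 z) ≠ 0 := h.2
      rw [h0] at h2
      exact h2
    · rw [Set.mem_singleton_iff] at hl
      subst hl
      exact h

theorem n_bl {k : Fin 4} {z : V4} (h : z k ≠ 0) : n3 (bl k z) ≠ 0 ∨ n5 (bl k z) ≠ 0 := by
  by_contra hcon
  rw [not_or, not_not, not_not] at hcon
  have := A2.eq_zero_of_n hcon.1 hcon.2 k
  apply h
  simpa [bl] using this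

theorem overlap_B (k : Fin 4) {U : Set Ch} (hU : ∀ l, l ∈ U ↔ isN l ∨ ∃ i : Fin 4, i < k ∧ l = .B i)
    (z : V4) : z ∉ LB k.1 ↔ ∃ l ∈ U, z ∈ O (.B k) l := by
  have hLB : z ∉ LB k.1 ↔ ∃ i : Fin 4, i.1 ≤ k.1 ∧ z i ≠ 0 := by
    change ¬ (∀ i : Fin 4, i.1 ≤ k.1 → z i = 0) ↔ _
    push Not
    rfl
  rw [hLB]
  constructor
  · rintro ⟨i, hi, h⟩
    rcases hi.lt_or_eq with hlt | heq
    · exact ⟨.B i, (hU _).2 (Or.inr ⟨i, hlt, rfl⟩), Or.inr h⟩
    · have : i = k := Fin.ext heq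
      subst this
      rcases n_bl h with h3 | h5
      · exact ⟨.a, (hU _).2 (Or.inl trivial), ⟨h, h3⟩⟩
      · exact ⟨.b, (hU _).2 (Or.inl trivial), ⟨h, h5⟩⟩
  · rintro ⟨l, hl, h⟩
    rcases (hU l).1 hl with hN | ⟨i, hi, rfl⟩
    · cases l with
      | a => exact ⟨k, le_refl _, h.1⟩
      | b => exact ⟨k, le_refl _, h.1⟩
      | c => exact ⟨k, le_refl _, h.1⟩
      | B i => exact absurd hN (fun h => h)
    · rcases h with h | h
      · exact absurd h (ne_of_gt hi)
      · exact ⟨i, (le_of_lt hi : i ≤ k), h⟩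

theorem coord0_of_mem {l : Ch} (hl : isN l) {z : V4} (h : z ∈ O (.B 0) l) : z 0 ≠ 0 := by
  cases l with
  | a => exact h.1
  | b => exact h.1
  | c => exact h.1
  | B i => exact absurd hl (fun h => h)

theorem cd_dArg {z : V4} (h : z 0 ≠ 0) : ContDiffAt ℝ 1 dArg z := by
  unfold dArg
  have h1 : ContDiffAt ℝ 1 (fun z : V4 => (z 0)⁻¹) z :=
    ContDiffAt.inv ((contDiff_apply ℝ ℂ (0 : Fin 4)).contDiffAt) h
  refine ContDiffAt.clm_comp contDiffAt_const ?_
  exact h1.smul contDiffAt_const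

theorem cd_extDeriv {j : ℕ} {β : V4 → V4 [⋀^Fin j]→L[ℝ] ℝ} (h : ContDiff ℝ ∞ β) :
    ContDiff ℝ ∞ (fun z => extDeriv β z) := by
  have h1 : ContDiff ℝ ∞ (fderiv ℝ β) := h.fderiv_right (by norm_cast)
  exact (ContinuousAlternatingMap.alternatizeUncurryFinCLM ℝ V4 ℝ (n := j)).contDiff.comp h1

section final

variable {M : Type} [TopologicalSpace M] [T2Space M] [CompactSpace M] (D : SpaceData M)

include D

/-- the step where the generator of the cohomology enters -/
theorem stepB0 {pot : Ch → V4 → V4 [⋀^Fin 1]→L[ℝ] ℝ} {α : Ch → V4 → V4 [⋀^Fin 2]→L[ℝ] ℝ}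
    (hα : AlphaData pot α) {om : Ch → V4 → V4 [⋀^Fin 2]→L[ℝ] ℝ} (hom : Compat 2 om)
    (hs : ∀ k, ContDiff ℝ ∞ (om k)) (hd : ∀ k z, extDeriv (om k) z = 0) {U : Set Ch}
    (hU : ∀ l, l ∈ U ↔ isN l) {β : Ch → V4 → V4 [⋀^Fin 1]→L[ℝ] ℝ} (hβ : Glued om U β) :
    ∃ t : ℝ, ∃ γ, Glued (fun k z => om k z - t • α k z) (insert (.B 0) U) γ := by
  obtain ⟨β', h1', hd'⟩ := C1.poincare2 (om (.B 0)) (hs _) (hd _)
  obtain ⟨θ, hθ⟩ := exists_theta D hom hβ h1' hd'
  have hU' : ∀ l, l ∈ U ↔ isN l ∨ ∃ i : Fin 4, i < 0 ∧ l = .B i := by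
    intro l
    rw [hU]
    simp
  have hw0 : ∀ z : V4, z 0 ≠ 0 → ∃ l ∈ U, z ∈ O (.B 0) l := by
    intro z hz
    rw [← overlap_B 0 hU']
    exact fun h => hz (h 0 le_rfl)
  obtain ⟨t, f, hf⟩ := C1.exact_w0 θ
    (fun z hz => by
      obtain ⟨l, hl, hz'⟩ := hw0 z hz
      exact ((hθ l hl z hz').2.1.differentiableAt (by norm_num)).differentiableWithinAt)
    (fun z hz => by
      obtain ⟨l, hl, hz'⟩ := hw0 z hz
      exact (hθ l hl z hz').2.2)
  have hN : ∀ l ∈ U, isN l := fun l hl => (hU l).1 hl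
  have hf2 : ∀ l ∈ U, ∀ z ∈ O (.B 0) l, HasFDerivAt f (θ z - t • dArg z) z := fun l hl z hz =>
    hf z (coord0_of_mem (hN l hl) hz)
  obtain ⟨hβ1, hβd, hβc⟩ := hβ
  have hp1 : ∀ k, ContDiff ℝ 1 (pot k) := fun k => (hα.pot_smooth k).of_le (by norm_cast)
  have hsm : ∀ k, ContDiff ℝ 1 (fun z => (-t) • pot k z) := fun k => (hp1 k).const_smul (-t)
  have hext : ∀ k z, extDeriv (fun z => (-t) • pot k z) z = (-t) • α k z := by
    intro k z
    rw [hα.alpha_eq k z]
    exact extDeriv_smul (-t) (pot k)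
  refine ⟨-t, glue D (k := .B 0) (β := fun l z => β l z - (-t) • pot l z)
    (β' := fun z => β' z - (-t) • pot (.B 0) z) (f := f) ?_ ⟨?_, ?_, ?_⟩ ?_ ?_ ?_ ?_⟩
  · intro h
    exact hN _ h
  · intro l hl
    exact (hβ1 l hl).sub (hsm l)
  · intro l hl z
    rw [extDeriv_sub' ((hβ1 l hl).differentiable (by norm_num) z)
      ((hsm l).differentiable (by norm_num) z), hβd l hl z, hext]
  · intro l hl m hm z hz
    rw [pb_sub, pb_smul, ← hβc l hl m hm z hz]
    beta_reduce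
    rw [hα.pot_compat l m (hN l hl) (hN m hm) z hz]
    rfl
  · exact h1'.sub (hsm _)
  · intro z
    rw [extDeriv_sub' (h1'.differentiable (by norm_num) z)
      ((hsm _).differentiable (by norm_num) z), hd' z, hext]
  · intro l hl z hz
    refine cd2_of_hasFDerivAt (isOpen_O (.B 0) l) hz (hf2 l hl) ?_
    exact (hθ l hl z hz).2.1.sub ((cd_dArg (coord0_of_mem (hN l hl) hz)).const_smul t)
  · intro l hl z hz
    have e := hα.pot_B l (hN l hl) z hz
    have e2 : (pot l (T (.B 0) l z)).compContinuousLinearMap (fderiv ℝ (T (.B 0) l) z) =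
      pb (.B 0) l (pot l) z := rfl
    rw [e2] at e
    rw [(hf2 l hl z hz).fderiv, one_sub, one_smul', (hθ l hl z hz).1, pb_sub, pb_smul, e]
    module

end final

end C2

open C2 in
/-- C2 -/
theorem H2_rank_one {M : Type} [TopologicalSpace M] [T2Space M] [CompactSpace M]
    (D : SpaceData M) {pot α} (hα : AlphaData pot α)
    (om : Ch → V4 → V4 [⋀^Fin 2]→L[ℝ] ℝ) (hs : ∀ k, ContDiff ℝ ∞ (om k))
    (hd : ∀ k z, extDeriv (om k) z = 0) (hc : Compat 2 om) :
    ∃ (t : ℝ) (β : Ch → V4 → V4 [⋀^Fin 1]→L[ℝ] ℝ), (∀ k, ContDiff ℝ 1 (β k)) ∧ Compat 1 β ∧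
      ∀ k z, om k z = t • α k z + extDeriv (β k) z := by
  obtain ⟨βc, hc1, hcd⟩ := C1.poincare2 (om .c) (hs .c) (hd .c)
  have g0 : Glued om {.c} (fun _ => βc) := by
    refine ⟨?_, ?_, ?_⟩
    · intro l hl
      exact hc1
    · intro l hl z
      rw [Set.mem_singleton_iff] at hl
      subst hl
      exact hcd z
    · intro l hl m hm z hz
      rw [Set.mem_singleton_iff] at hl hm
      subst hl hm
      rw [pb_self D]
  obtain ⟨β1, g1⟩ := step3 D hc hs hd (k := .a) (by simp) L5 rank_L5 overlap_a g0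
  obtain ⟨β2, g2⟩ := step3 D hc hs hd (k := .b) (by simp) L3 rank_L3 overlap_b g1
  have hU2 : ∀ l, l ∈ (insert .b (insert .a {.c}) : Set Ch) ↔ isN l := by
    intro l
    cases l <;> simp [isN]
  obtain ⟨t, β3, g3⟩ := stepB0 D hα hc hs hd hU2 g2
  have hαs : ∀ k, ContDiff ℝ ∞ (α k) := by
    intro k
    have : α k = fun z => extDeriv (pot k) z := funext (hα.alpha_eq k)
    rw [this]
    exact cd_extDeriv (hα.pot_smooth k)
  have hαd : ∀ k z, extDeriv (α k) z = 0 := by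
    intro k z
    have : α k = extDeriv (pot k) := funext (hα.alpha_eq k)
    rw [this]
    exact extDeriv_extDeriv_apply (r := ∞) (hα.pot_smooth k).contDiffAt
      (by simp; norm_cast)
  have hs' : ∀ k, ContDiff ℝ ∞ (fun z => om k z - t • α k z) := fun k =>
    (hs k).sub ((hαs k).const_smul t)
  have hd' : ∀ k z, extDeriv (fun z => om k z - t • α k z) z = 0 := by
    intro k z
    have h1 : ContDiff ℝ ∞ (fun z => t • α k z) := (hαs k).const_smul t
    rw [extDeriv_sub' ((hs k).differentiable (by simp) z) (h1.differentiable (by simp) z), hd]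
    have h2 : extDeriv (fun z => t • α k z) z = t • extDeriv (α k) z := extDeriv_smul t (α k)
    rw [h2, hαd, smul_zero, sub_zero]
  have hc' : Compat 2 (fun k z => om k z - t • α k z) := by
    intro k l z hz
    have h1 := hc k l z hz
    have h2 := hα.compat k l z hz
    beta_reduce
    rw [h1, h2]
    rfl
  have hB : ∀ (k : Fin 4) (U : Set Ch) (β : Ch → V4 → V4 [⋀^Fin 1]→L[ℝ] ℝ), 1 ≤ k.1 →
      (∀ l, l ∈ U ↔ isN l ∨ ∃ i : Fin 4, i < k ∧ l = .B i) →
      Glued (fun k z => om k z - t • α k z) U β →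
      ∃ γ, Glued (fun k z => om k z - t • α k z) (insert (.B k) U) γ := by
    intro k U β hk hU hg
    refine step3 D hc' hs' hd' (k := .B k) ?_ (LB k.1) (rank_LB hk) (overlap_B k hU) hg
    rw [hU]
    simp [isN]
  obtain ⟨β4, g4⟩ := hB 1 _ β3 (by simp) (by
    intro l
    rw [Set.mem_insert_iff, hU2]
    constructor
    · rintro (rfl | h)
      · exact Or.inr ⟨0, by decide, rfl⟩
      · exact Or.inl h
    · rintro (h | ⟨i, hi, rfl⟩)
      · exact Or.inr h
      · have : i = 0 := by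
          fin_cases i <;> simp_all
        exact Or.inl (by rw [this])) g3
  obtain ⟨β5, g5⟩ := hB 2 _ β4 (by simp) (by
    intro l
    rw [Set.mem_insert_iff, Set.mem_insert_iff, hU2]
    constructor
    · rintro (rfl | rfl | h)
      · exact Or.inr ⟨1, by decide, rfl⟩
      · exact Or.inr ⟨0, by decide, rfl⟩
      · exact Or.inl h
    · rintro (h | ⟨i, hi, rfl⟩)
      · exact Or.inr (Or.inr h)
      · have : i = 0 ∨ i = 1 := by
          fin_cases i <;> simp_all
        rcases this with rfl | rfl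
        · exact Or.inr (Or.inl rfl)
        · exact Or.inl rfl) g4
  obtain ⟨β6, g6⟩ := hB 3 _ β5 (by simp) (by
    intro l
    rw [Set.mem_insert_iff, Set.mem_insert_iff, Set.mem_insert_iff, hU2]
    constructor
    · rintro (rfl | rfl | rfl | h)
      · exact Or.inr ⟨2, by decide, rfl⟩
      · exact Or.inr ⟨1, by decide, rfl⟩
      · exact Or.inr ⟨0, by decide, rfl⟩
      · exact Or.inl h
    · rintro (h | ⟨i, hi, rfl⟩)
      · exact Or.inr (Or.inr (Or.inr h))
      · have : i = 0 ∨ i = 1 ∨ i = 2 := by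
          fin_cases i <;> simp_all
        rcases this with rfl | rfl | rfl
        · exact Or.inr (Or.inr (Or.inl rfl))
        · exact Or.inr (Or.inl rfl)
        · exact Or.inl rfl) g5
  have hall : ∀ l : Ch, l ∈ (insert (.B 3) (insert (.B 2) (insert (.B 1) (insert (.B 0)
      (insert .b (insert .a {.c}))))) : Set Ch) := by
    intro l
    cases l with
    | a => simp
    | b => simp
    | c => simp
    | B i => fin_cases i <;> simp
  obtain ⟨h1, h2, h3⟩ := g6
  refine ⟨t, β6, fun k => h1 k (hall k), fun k l z hz => h3 k (hall k) l (hall l) z hz,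
    fun k z => ?_⟩
  rw [h2 k (hall k) z]
  simp

end Pool.Agent.Work.MP_2a78db_gt
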