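import Pool.Agent.Work.MP_2a78db_gt.Darboux

/-!
Path connectedness of `GL⁺(8, ℝ)` and the path component of the 2-forms with negative fourth power.
-/

namespace Pool.Agent.Work.MP_2a78db_gt

namespace D0

open Matrix Module

section glsec

variable {ι : Type*} [Fintype ι] [DecidableEq ι]

/-- `M` is joined to `1` by matrices with positive determinant. -/
def PathOne (M : Matrix ι ι ℝ) : Prop :=
  ∃ f : ℝ → Matrix ι ι ℝ, Continuous f ∧ f 0 = 1 ∧ f 1 = M ∧ ∀ t, 0 < (f t).det

theorem PathOne.mul {M N : Matrix ι ι ℝ} (hM : PathOne M) (hN : PathOne N) : PathOne (M * N) := by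
  obtain ⟨f, hf, f0, f1, fd⟩ := hM
  obtain ⟨g, hg, g0, g1, gd⟩ := hN
  refine ⟨fun t => f t * g t, hf.matrix_mul hg, ?_, ?_, ?_⟩
  · simp [f0, g0]
  · simp [f1, g1]
  · intro t
    rw [det_mul]
    exact mul_pos (fd t) (gd t)

theorem pathOne_transvection {i j : ι} (hij : i ≠ j) (a : ℝ) :
    PathOne (Matrix.transvection i j a) := by
  refine ⟨fun t => Matrix.transvection i j (t * a), ?_, ?_, ?_, ?_⟩
  · refine continuous_pi fun k => continuous_pi fun l => ?_
    simp only [Matrix.transvection, Matrix.add_apply, Matrix.single_apply]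
    split_ifs
    · fun_prop
    · fun_prop
  · simp
  · simp
  · intro t
    rw [det_transvection_of_ne i j hij]
    exact one_pos

theorem tv_mulVec (i j : ι) (c : ℝ) (x : ι → ℝ) :
    Matrix.transvection i j c *ᵥ x = Function.update x i (x i + c * x j) := by
  ext k
  by_cases hk : k = i
  · subst hk
    simp [Matrix.transvection, add_mulVec, single_mulVec]
  · simp [Matrix.transvection, add_mulVec, single_mulVec, hk]

theorem diag_eq {i j : ι} (hij : i ≠ j) (c : ℝ) (hc : c ≠ 0) :
    (Matrix.diagonal (fun k ↦ if k = i then c else if k = j then c⁻¹ else 1) : Matrix ι ι ℝ) =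
    Matrix.transvection i j c * (Matrix.transvection j i (-c⁻¹) * (Matrix.transvection i j c *
      (Matrix.transvection i j (-1) * (Matrix.transvection j i 1 *
        Matrix.transvection i j (-1))))) := by
  apply Matrix.toLin'.injective
  refine LinearMap.ext fun x => ?_
  simp only [toLin'_apply, ← mulVec_mulVec, tv_mulVec]
  ext k
  rw [mulVec_diagonal]
  have hji : j ≠ i := hij.symm
  by_cases hki : k = i
  · subst hki
    simp only [Function.update_self, Function.update_of_ne hji, Function.update_of_ne hij, if_true]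
    field_simp
    ring
  · by_cases hkj : k = j
    · subst hkj
      simp only [Function.update_self, Function.update_of_ne hji, Function.update_of_ne hij,
        if_neg hji, if_true]
      field_simp
      ring
    · simp only [Function.update_of_ne hki, Function.update_of_ne hkj, if_neg hki, if_neg hkj,
        one_mul]

theorem pathOne_sl [Nontrivial ι] (M : SpecialLinearGroup ι ℝ) : PathOne M.1 := by
  refine Matrix.SpecialLinearGroup.diagonal_transvection_induction'
    (fun M : SpecialLinearGroup ι ℝ => PathOne M.1) M ?_ ?_ ?_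
  · intro i j hij c hc
    change PathOne (SpecialLinearGroup.diag2n hij c hc).1
    rw [SpecialLinearGroup.diag2n_coe, diag_eq hij c hc]
    have h1 := fun a => pathOne_transvection hij a
    have h2 := fun a => pathOne_transvection hij.symm a
    exact (h1 _).mul ((h2 _).mul ((h1 _).mul ((h1 _).mul ((h2 _).mul (h1 _)))))
  · intro i j hij a
    exact pathOne_transvection hij a
  · intro A B hA hB
    exact hA.mul hB

theorem pathOne_of_det_pos [Nontrivial ι] (M : Matrix ι ι ℝ) (hM : 0 < M.det) : PathOne M := by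
  set n : ℕ := Fintype.card ι with hn
  have hn0 : n ≠ 0 := by
    have : 1 < n := Fintype.one_lt_card
    omega
  set s : ℝ := M.det ^ ((1 : ℝ) / n) with hs
  have hs0 : 0 < s := Real.rpow_pos_of_pos hM _
  have hsn : s ^ n = M.det := by
    rw [hs, ← Real.rpow_natCast, ← Real.rpow_mul hM.le]
    rw [one_div, inv_mul_cancel₀ (by exact_mod_cast hn0), Real.rpow_one]
  have hdet : (s⁻¹ • M).det = 1 := by
    rw [det_smul, ← hn, inv_pow, hsn, inv_mul_cancel₀ hM.ne']
  obtain ⟨g, hg, g0, g1, gd⟩ := pathOne_sl (⟨s⁻¹ • M, hdet⟩ : SpecialLinearGroup ι ℝ)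
  refine ⟨fun t => (s ^ t) • g t, ?_, ?_, ?_, ?_⟩
  · exact (Real.continuous_const_rpow hs0.ne').smul hg
  · simp [g0]
  · simp only [Real.rpow_one, g1]
    rw [smul_smul, mul_inv_cancel₀ hs0.ne', one_smul]
  · intro t
    rw [det_smul]
    exact mul_pos (pow_pos (Real.rpow_pos_of_pos hs0 _) _) (gd t)

end glsec

/-- Complex conjugation of the coordinate `0`. -/
noncomputable def conj0 : V4 →ₗ[ℝ] V4 :=
  LinearMap.pi fun k => if k = 0 then Complex.conjAe.toLinearMap.comp (LinearMap.proj 0)
    else LinearMap.proj k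

theorem conj0_zero (x : V4) : conj0 x 0 = (starRingEnd ℂ) (x 0) := by
  simp [conj0]

theorem conj0_ne (x : V4) (k : Fin 4) (hk : k ≠ 0) : conj0 x k = x k := by
  simp [conj0, hk]

theorem stdForm_conj0 (x y : V4) :
    stdForm ![-1, 1, 1, 1] (conj0 x) (conj0 y) = stdForm (fun _ : Fin 4 => (1 : ℝ)) x y := by
  rw [stdForm_apply, stdForm_apply, Fin.sum_univ_four, Fin.sum_univ_four]
  rw [conj0_zero, conj0_zero, conj0_ne _ _ (by decide), conj0_ne _ _ (by decide),
    conj0_ne _ _ (by decide), conj0_ne _ _ (by decide), conj0_ne _ _ (by decide),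
    conj0_ne _ _ (by decide)]
  simp [Complex.mul_im]
  ring

theorem det_conj0 : LinearMap.det conj0 = -1 := by
  have h := b8.det_comp conj0 b8
  rw [b8.det_self, mul_one] at h
  rw [← h]
  have h1 : (⇑conj0 ∘ ⇑b8) = Function.update b8 1 ((-1 : ℝ) • b8 1) := by
    funext i
    rw [b8_eq]
    fin_cases i <;>
    · funext k
      by_cases hk : k = 0
      · subst hk
        simp [stdB, conj0_zero]
      · simp [stdB, conj0_ne _ _ hk, Pi.single_apply, hk]
  rw [h1, AlternatingMap.map_update_smul, Function.update_eq_self, b8.det_self]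
  simp

theorem stdForm_self {n : ℕ} (ε : Fin n → ℝ) (x : Fin n → ℂ) : stdForm ε x x = 0 := by
  rw [stdForm_apply]
  refine Finset.sum_eq_zero fun k _ => ?_
  simp [Complex.mul_im]
  ring_nf
  simp

theorem stdForm_nondeg (ε : Fin 4 → ℝ) (hε : ∀ k, ε k ≠ 0) (x : V4)
    (h : ∀ y, stdForm ε x y = 0) : x = 0 := by
  funext k
  have h1 := h (Pi.single k 1)
  have h2 := h (Pi.single k Complex.I)
  rw [stdForm_apply, Finset.sum_eq_single k] at h1 h2
  · simp only [Pi.single_eq_same, Complex.mul_im, Complex.conj_re, Complex.conj_im, Complex.one_re,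
      Complex.one_im, Complex.I_re, Complex.I_im, mul_zero, mul_one, zero_add, add_zero] at h1 h2
    have h3 : (x k).im = 0 := by
      rcases mul_eq_zero.1 h1 with h | h
      · exact absurd h (hε k)
      · linarith
    have h4 : (x k).re = 0 := by
      rcases mul_eq_zero.1 h2 with h | h
      · exact absurd h (hε k)
      · exact h
    exact Complex.ext h4 h3
  · intro b _ hb; simp [Pi.single_eq_of_ne hb]
  · intro hk; exact absurd (Finset.mem_univ k) hk
  · intro b _ hb; simp [Pi.single_eq_of_ne hb]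
  · intro hk; exact absurd (Finset.mem_univ k) hk

/-- D0 -/
theorem _root_.Pool.Agent.Work.MP_2a78db_gt.joined_of_pow4_neg (α : V4 [⋀^Fin 2]→L[ℝ] ℝ)
    (h : Nondeg α) (hneg : pow4 α stdB < 0) :
    JoinedIn (Nd V4) (cur α) (stdForm ![-1, 1, 1, 1]) := by
  obtain ⟨P, hPi, hP⟩ := exists_normal α h
  rw [pow4_eq α P hP] at hneg
  have hdetP : LinearMap.det P < 0 := by
    by_contra hcon
    push Not at hcon
    have := mul_nonneg (mul_nonneg (by norm_num : (0 : ℝ) ≤ 16) K_pos.le) hcon
    linarith
  set Q : V4 →ₗ[ℝ] V4 := conj0.comp P with hQ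
  have hdetQ : 0 < LinearMap.det Q := by
    rw [hQ, LinearMap.det_comp, det_conj0]; linarith
  have hα : ∀ v w, α ![v, w] = stdForm ![-1, 1, 1, 1] (Q v) (Q w) := by
    intro v w
    rw [hP, hQ, LinearMap.comp_apply, LinearMap.comp_apply, stdForm_conj0]
  have hM : 0 < (LinearMap.toMatrix b8 b8 Q).det := by
    rw [LinearMap.det_toMatrix]; exact hdetQ
  obtain ⟨f, hf, f0, f1, fd⟩ := pathOne_of_det_pos _ hM
  -- the path of linear maps
  set L : ℝ → (V4 →L[ℝ] V4) := fun t => LinearMap.toContinuousLinearMap (Matrix.toLin b8 b8 (f t))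
    with hL
  have hLc : ∀ v, Continuous fun t => L t v := by
    intro v
    have h1 : Continuous (fun M : Matrix (Fin 8) (Fin 8) ℝ => (Matrix.toLin b8 b8 M) v) :=
      LinearMap.continuous_of_finiteDimensional
        ((LinearMap.applyₗ (R := ℝ) v).comp (Matrix.toLin b8 b8).toLinearMap)
    exact h1.comp hf
  have hLdet : ∀ t, 0 < LinearMap.det (Matrix.toLin b8 b8 (f t)) := by
    intro t
    have := LinearMap.det_toMatrix b8 (Matrix.toLin b8 b8 (f t))
    rw [LinearMap.toMatrix_toLin] at this
    rw [← this]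
    exact fd t
  have hLs : ∀ t, Function.Surjective (L t) := by
    intro t
    exact (LinearEquiv.ofIsUnitDet (f := Matrix.toLin b8 b8 (f t)) (v := b8) (v' := b8) (by
      rw [LinearMap.toMatrix_toLin]; exact (fd t).ne'.isUnit)).surjective
  have hLi : ∀ t, Function.Injective (L t) := by
    intro t
    exact (LinearEquiv.ofIsUnitDet (f := Matrix.toLin b8 b8 (f t)) (v := b8) (v' := b8) (by
      rw [LinearMap.toMatrix_toLin]; exact (fd t).ne'.isUnit)).injective
  set G : ℝ → (V4 →L[ℝ] V4 →L[ℝ] ℝ) := fun t => (stdForm ![-1, 1, 1, 1]).bilinearComp (L t) (L t)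
    with hG
  have hGa : ∀ t v w, G t v w = stdForm ![-1, 1, 1, 1] (L t v) (L t w) := fun t v w => rfl
  have hGc : Continuous G := by
    refine continuous_clm_apply.2 fun v => continuous_clm_apply.2 fun w => ?_
    simp only [hGa]
    exact ((stdForm ![-1, 1, 1, 1]).continuous.comp (hLc v)).clm_apply (hLc w)
  have hG0 : G 0 = stdForm ![-1, 1, 1, 1] := by
    ext v w
    rw [hGa, hL]
    simp [f0]
  have hG1 : G 1 = cur α := by
    ext v w
    rw [hGa, cur_apply, hα, hL]
    simp [f1]
  refine JoinedIn.symm (JoinedIn.ofLine hGc.continuousOn hG0 hG1 ?_)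
  rintro _ ⟨t, _, rfl⟩
  refine ⟨fun v => by rw [hGa]; exact stdForm_self _ _, fun v hv => ?_⟩
  have h1 : L t v = 0 := by
    apply stdForm_nondeg ![-1, 1, 1, 1] (by intro k; fin_cases k <;> simp)
    intro y
    obtain ⟨w, rfl⟩ := hLs t y
    exact hv w
  exact hLi t (h1.trans (map_zero (L t)).symm)

end D0

end Pool.Agent.Work.MP_2a78db_gt
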