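import Pool.Agent.Work.MP_2a78db_gt.D1h

/-!
Module D1: the box trick.
-/

set_option autoImplicit false

namespace Pool.Agent.Work.MP_2a78db_gt

open scoped Topology ContDiff

namespace D1

/-- component in `R^3` -/
def p3 (z : V4) : Fin 3 → ℝ := ![(z 0).re, (z 0).im, (z 1).re]

/-- inclusion of `R^3` -/
def e3 (x : Fin 3 → ℝ) : V4 := ![⟨x 0, x 1⟩, ⟨x 2, 0⟩, 0, 0]

/-- scaling of the component in `R^5` -/
def sc5 (s : ℝ) (z : V4) : V4 :=
  ![z 0, ⟨(z 1).re, s * (z 1).im⟩, ⟨s * (z 2).re, s * (z 2).im⟩, ⟨s * (z 3).re, s * (z 3).im⟩]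

/-- the other stereographic chart -/
noncomputable def psi (y : Fin 3 → ℝ) : Fin 4 → ℝ :=
  ![(1 - ∑ i, y i ^ 2) / (∑ i, y i ^ 2 + 1), 2 * y 0 / (∑ i, y i ^ 2 + 1),
    2 * y 1 / (∑ i, y i ^ 2 + 1), 2 * y 2 / (∑ i, y i ^ 2 + 1)]

lemma psi_mem (y : Fin 3 → ℝ) : psi y ∈ S3set := by
  have h := phi_mem y
  simp only [S3set, Set.mem_ofPred_eq, phi, psi, Fin.sum_univ_four] at h ⊢
  simp at h ⊢
  have e : ((1 - ∑ i, y i ^ 2) / (∑ i, y i ^ 2 + 1)) ^ 2 =
      ((∑ i, y i ^ 2 - 1) / (∑ i, y i ^ 2 + 1)) ^ 2 := by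
    rw [div_pow, div_pow]; ring
  rw [e]
  exact h

lemma psi_cont : Continuous psi := by
  refine continuous_pi fun i => ?_
  have h : ∀ y : Fin 3 → ℝ, (∑ i, y i ^ 2 + 1) ≠ 0 := fun y => by positivity
  fin_cases i
  · exact (Continuous.div (by fun_prop) (by fun_prop) h)
  · exact (Continuous.div (by fun_prop) (by fun_prop) h)
  · exact (Continuous.div (by fun_prop) (by fun_prop) h)
  · exact (Continuous.div (by fun_prop) (by fun_prop) h)

lemma mk_cont {X : Type*} [TopologicalSpace X] {f g : X → ℝ} (hf : Continuous f)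
    (hg : Continuous g) : Continuous fun x => (⟨f x, g x⟩ : ℂ) :=
  Complex.equivRealProdCLM.symm.continuous.comp (hf.prodMk hg)

lemma mk_contAt {X : Type*} [TopologicalSpace X] {f g : X → ℝ} {x : X} (hf : ContinuousAt f x)
    (hg : ContinuousAt g x) : ContinuousAt (fun x => (⟨f x, g x⟩ : ℂ)) x :=
  Complex.equivRealProdCLM.symm.continuous.continuousAt.comp (hf.prodMk hg)

lemma re_cont (i : Fin 4) : Continuous fun z : V4 => (z i).re :=
  Complex.continuous_re.comp (continuous_apply i)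

lemma im_cont (i : Fin 4) : Continuous fun z : V4 => (z i).im :=
  Complex.continuous_im.comp (continuous_apply i)

lemma n3_cont : Continuous n3 := by
  unfold n3
  have h0 := re_cont 0
  have h1 := im_cont 0
  have h2 := re_cont 1
  fun_prop

lemma n5_cont : Continuous n5 := by
  unfold n5
  have h0 := im_cont 1
  have h1 := re_cont 2
  have h2 := im_cont 2
  have h3 := re_cont 3
  have h4 := im_cont 3
  fun_prop

lemma p3_cont : Continuous p3 := by
  refine continuous_pi fun i => ?_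
  fin_cases i
  · exact re_cont 0
  · exact im_cont 0
  · exact re_cont 1

lemma e3_cont : Continuous e3 := by
  refine continuous_pi fun i => ?_
  fin_cases i
  · exact mk_cont (continuous_apply 0) (continuous_apply 1)
  · exact mk_cont (continuous_apply 2) continuous_const
  · exact continuous_const
  · exact continuous_const

lemma sc5_cont {X : Type*} [TopologicalSpace X] {s : X → ℝ} {g : X → V4} (hs : Continuous s)
    (hg : Continuous g) : Continuous fun x => sc5 (s x) (g x) := by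
  refine continuous_pi fun i => ?_
  fin_cases i
  · exact (show Continuous fun x => g x 0 from (continuous_apply 0).comp hg)
  · exact mk_cont ((re_cont 1).comp hg) (hs.mul ((im_cont 1).comp hg))
  · exact mk_cont (hs.mul ((re_cont 2).comp hg)) (hs.mul ((im_cont 2).comp hg))
  · exact mk_cont (hs.mul ((re_cont 3).comp hg)) (hs.mul ((im_cont 3).comp hg))

lemma inv3_contAt {z : V4} (hz : n3 z ≠ 0) : ContinuousAt inv3 z := by
  refine continuousAt_pi.2 fun i => ?_
  have hn := n3_cont.continuousAt (x := z)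
  fin_cases i
  · exact mk_contAt ((re_cont 0).continuousAt.div hn hz) ((im_cont 0).continuousAt.div hn hz)
  · exact mk_contAt ((re_cont 1).continuousAt.div hn hz) (im_cont 1).continuousAt
  · exact (continuous_apply 2).continuousAt
  · exact (continuous_apply 3).continuousAt

lemma inv5_contAt {z : V4} (hz : n5 z ≠ 0) : ContinuousAt inv5 z := by
  refine continuousAt_pi.2 fun i => ?_
  have hn := n5_cont.continuousAt (x := z)
  fin_cases i
  · exact (continuous_apply 0).continuousAt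
  · exact mk_contAt (re_cont 1).continuousAt ((im_cont 1).continuousAt.div hn hz)
  · exact mk_contAt ((re_cont 2).continuousAt.div hn hz) ((im_cont 2).continuousAt.div hn hz)
  · exact mk_contAt ((re_cont 3).continuousAt.div hn hz) ((im_cont 3).continuousAt.div hn hz)

lemma n3_nonneg (z : V4) : 0 ≤ n3 z := by unfold n3; positivity

lemma n5_nonneg (z : V4) : 0 ≤ n5 z := by unfold n5; positivity

lemma n3_eq (z : V4) : n3 z = ∑ i, p3 z i ^ 2 := by
  rw [Fin.sum_univ_three]; rfl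

lemma n3_e3 (x : Fin 3 → ℝ) : n3 (e3 x) = ∑ i, x i ^ 2 := by
  rw [Fin.sum_univ_three]; rfl

lemma n5_inv3 (z : V4) : n5 (inv3 z) = n5 z := rfl

lemma inv3_sc5 (s : ℝ) (z : V4) : inv3 (sc5 s z) = sc5 s (inv3 z) := rfl

lemma inv5_eq (z : V4) : inv5 z = sc5 (1 / n5 z) z := by
  funext i
  fin_cases i
  · rfl
  · apply Complex.ext <;> simp [inv5, sc5]; ring
  · apply Complex.ext <;> simp [inv5, sc5] <;> ring
  · apply Complex.ext <;> simp [inv5, sc5] <;> ring

lemma inv3_inv5 (z : V4) : inv3 (inv5 z) = inv5 (inv3 z) := by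
  rw [inv5_eq, inv5_eq, inv3_sc5, n5_inv3]

lemma sc5_zero (z : V4) : sc5 0 z = e3 (p3 z) := by
  funext i
  fin_cases i
  · rfl
  · apply Complex.ext <;> simp [e3, p3, sc5]
  · apply Complex.ext <;> simp [e3, p3, sc5]
  · apply Complex.ext <;> simp [e3, p3, sc5]

lemma inv3_e3 (x : Fin 3 → ℝ) : inv3 (e3 x) = e3 ((∑ i, x i ^ 2)⁻¹ • x) := by
  funext i
  fin_cases i
  · apply Complex.ext <;> simp [inv3, n3_e3] <;> simp [e3] <;> ring
  · apply Complex.ext <;> simp [inv3, n3_e3] <;> simp [e3]; ring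
  · rfl
  · rfl

lemma p3_inv3 (z : V4) : p3 (inv3 z) = (∑ i, p3 z i ^ 2)⁻¹ • p3 z := by
  funext i
  rw [← n3_eq]
  fin_cases i <;> simp [p3, inv3] <;> ring

lemma inv3_one {z : V4} (h : n3 z = 1) : inv3 z = z := by
  funext i
  fin_cases i
  · apply Complex.ext <;> simp [inv3, h]
  · apply Complex.ext <;> simp [inv3, h]
  · rfl
  · rfl

lemma phi_inv {x : Fin 3 → ℝ} (hx : ∑ i, x i ^ 2 ≠ 0) :
    phi ((∑ i, x i ^ 2)⁻¹ • x) = psi x := by
  have hs : ∑ i, ((∑ i, x i ^ 2)⁻¹ • x) i ^ 2 = (∑ i, x i ^ 2)⁻¹ := by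
    simp only [Pi.smul_apply, smul_eq_mul, mul_pow, ← Finset.mul_sum]
    field_simp
  have hpos : 0 < ∑ i, x i ^ 2 := lt_of_le_of_ne (by positivity) (Ne.symm hx)
  unfold phi psi
  rw [hs]
  set N := ∑ i, x i ^ 2 with hN
  simp only [Pi.smul_apply, smul_eq_mul]
  funext i
  fin_cases i <;> simp <;> field_simp <;> ring

/-- common coordinate on the 3-sphere -/
noncomputable def qq (p : Fin 4 → ℝ) : Fin 3 → ℝ := (1 + |p 0|)⁻¹ • ![p 1, p 2, p 3]

lemma qq_cont : Continuous qq := by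
  have h0 : ∀ p : Fin 4 → ℝ, (1 + |p 0|) ≠ 0 := fun p =>
    ne_of_gt (by have := abs_nonneg (p 0); linarith)
  have h : Continuous fun p : Fin 4 → ℝ => (1 + |p 0|)⁻¹ :=
    Continuous.inv₀ (continuous_const.add (continuous_apply 0).abs) h0
  have h2 : Continuous fun p : Fin 4 → ℝ => (![p 1, p 2, p 3] : Fin 3 → ℝ) := by
    refine continuous_pi fun i => ?_
    fin_cases i
    · exact continuous_apply 1
    · exact continuous_apply 2
    · exact continuous_apply 3
  exact h.smul h2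

lemma sum_nonneg3 (x : Fin 3 → ℝ) : 0 ≤ ∑ i, x i ^ 2 := by positivity

lemma qq_phi_ge {x : Fin 3 → ℝ} (h : 0 ≤ phi x 0) : 1 ≤ ∑ i, x i ^ 2 ∧
    qq (phi x) = (∑ i, x i ^ 2)⁻¹ • x := by
  have hN := sum_nonneg3 x
  have h1 : 1 ≤ ∑ i, x i ^ 2 := by
    change 0 ≤ (∑ i, x i ^ 2 - 1) / (∑ i, x i ^ 2 + 1) at h
    rw [le_div_iff₀ (by positivity)] at h
    linarith
  refine ⟨h1, ?_⟩
  have hN0 : 0 < ∑ i, x i ^ 2 := by linarith
  rw [qq, abs_of_nonneg h]
  have h1 : (1:ℝ) + phi x 0 = 2 * (∑ i, x i ^ 2) / (∑ i, x i ^ 2 + 1) := by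
    change (1:ℝ) + ((∑ i, x i ^ 2 - 1) / (∑ i, x i ^ 2 + 1)) = _
    field_simp
    ring
  rw [h1]
  funext i
  fin_cases i <;> simp [phi] <;> field_simp

lemma qq_phi_lt {x : Fin 3 → ℝ} (h : ¬ 0 ≤ phi x 0) : qq (phi x) = x := by
  have hN := sum_nonneg3 x
  rw [not_le] at h
  rw [qq, abs_of_neg h]
  funext i
  have h1 : (1:ℝ) + -phi x 0 = 2 / (∑ i, x i ^ 2 + 1) := by
    change (1:ℝ) + -((∑ i, x i ^ 2 - 1) / (∑ i, x i ^ 2 + 1)) = _
    field_simp
    ring
  rw [h1]
  fin_cases i <;> simp [phi] <;> field_simp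

lemma qq_psi_ge {x : Fin 3 → ℝ} (h : 0 ≤ psi x 0) : qq (psi x) = x := by
  have hN := sum_nonneg3 x
  rw [qq, abs_of_nonneg h]
  have h1 : (1:ℝ) + psi x 0 = 2 / (∑ i, x i ^ 2 + 1) := by
    change (1:ℝ) + ((1 - ∑ i, x i ^ 2) / (∑ i, x i ^ 2 + 1)) = _
    field_simp
    ring
  rw [h1]
  funext i
  fin_cases i <;> simp [psi] <;> field_simp

lemma qq_psi_lt {x : Fin 3 → ℝ} (h : ¬ 0 ≤ psi x 0) : 0 < ∑ i, x i ^ 2 ∧
    qq (psi x) = (∑ i, x i ^ 2)⁻¹ • x := by
  have hN := sum_nonneg3 x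
  rw [not_le] at h
  have h1 : 1 < ∑ i, x i ^ 2 := by
    change (1 - ∑ i, x i ^ 2) / (∑ i, x i ^ 2 + 1) < 0 at h
    rw [div_lt_iff₀ (by positivity)] at h
    linarith
  have hN0 : 0 < ∑ i, x i ^ 2 := by linarith
  refine ⟨hN0, ?_⟩
  rw [qq, abs_of_neg h]
  have h1 : (1:ℝ) + -psi x 0 = 2 * (∑ i, x i ^ 2) / (∑ i, x i ^ 2 + 1) := by
    change (1:ℝ) + -((1 - ∑ i, x i ^ 2) / (∑ i, x i ^ 2 + 1)) = _
    field_simp
    ring
  rw [h1]
  funext i
  fin_cases i <;> simp [psi] <;> field_simp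

/-- the map on the 3-sphere -/
lemma exists_G (Fb Fc : V4 → (V4 →L[ℝ] V4 →L[ℝ] ℝ)) (hb : Continuous Fb) (hc : Continuous Fc)
    (hb' : ∀ z, Fb z ∈ Nd V4) (hc' : ∀ z, Fc z ∈ Nd V4)
    (h2 : ∀ z, n3 z ≠ 0 → Fb z = Fc (inv3 z)) :
    ∃ G : S3 → (V4 →L[ℝ] V4 →L[ℝ] ℝ), Continuous G ∧ (∀ p, G p ∈ Nd V4) ∧
      (∀ x, G ⟨phi x, phi_mem x⟩ = Fc (e3 x)) ∧ (∀ x, G ⟨psi x, psi_mem x⟩ = Fb (e3 x)) := by
  refine ⟨fun p => if 0 ≤ p.1 0 then Fb (e3 (qq p.1)) else Fc (e3 (qq p.1)), ?_, fun p => ?_,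
    fun x => ?_, fun x => ?_⟩
  · refine Continuous.if_le (hb.comp (e3_cont.comp (qq_cont.comp continuous_subtype_val)))
      (hc.comp (e3_cont.comp (qq_cont.comp continuous_subtype_val))) continuous_const
      ((continuous_apply 0).comp continuous_subtype_val) fun p hp => ?_
    have h3 : n3 (e3 (qq p.1)) = 1 := by
      have h4 : ∑ i, p.1 i ^ 2 = 1 := p.2
      rw [Fin.sum_univ_four, ← hp] at h4
      rw [n3_e3, Fin.sum_univ_three]
      simp only [qq, ← hp]
      simp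
      linarith
    rw [h2 _ (by rw [h3]; norm_num), inv3_one h3]
  · dsimp only
    split_ifs
    · exact hb' _
    · exact hc' _
  · dsimp only
    split_ifs with h
    · obtain ⟨h1, h3⟩ := qq_phi_ge h
      have hN0 : 0 < ∑ i, x i ^ 2 := by linarith
      have hs : ∑ i, ((∑ i, x i ^ 2)⁻¹ • x) i ^ 2 = (∑ i, x i ^ 2)⁻¹ := by
        simp only [Pi.smul_apply, smul_eq_mul, mul_pow, ← Finset.mul_sum]
        field_simp
      rw [h3, h2 _ (by rw [n3_e3, hs]; positivity), inv3_e3, hs, inv_inv, smul_smul,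
        mul_inv_cancel₀ hN0.ne', one_smul]
    · rw [qq_phi_lt h]
  · dsimp only
    split_ifs with h
    · rw [qq_psi_ge h]
    · obtain ⟨h1, h3⟩ := qq_psi_lt h
      rw [h3, h2 _ (by rw [n3_e3]; exact h1.ne'), inv3_e3]

lemma isOpen_n3 : IsOpen {z : V4 | n3 z ≠ 0} := isOpen_ne_fun n3_cont continuous_const

lemma isOpen_n5 : IsOpen {z : V4 | n5 z ≠ 0} := isOpen_ne_fun n5_cont continuous_const

lemma eq_zero_of {z : V4} (h3 : n3 z = 0) (h5 : n5 z = 0) : z = 0 := by
  unfold n3 at h3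
  unfold n5 at h5
  have a1 : (z 0).re = 0 := by nlinarith [sq_nonneg (z 0).re, sq_nonneg (z 0).im, sq_nonneg (z 1).re]
  have a2 : (z 0).im = 0 := by nlinarith [sq_nonneg (z 0).re, sq_nonneg (z 0).im, sq_nonneg (z 1).re]
  have a3 : (z 1).re = 0 := by nlinarith [sq_nonneg (z 0).re, sq_nonneg (z 0).im, sq_nonneg (z 1).re]
  have b1 : (z 1).im = 0 := by
    nlinarith [sq_nonneg (z 1).im, sq_nonneg (z 2).re, sq_nonneg (z 2).im, sq_nonneg (z 3).re,
      sq_nonneg (z 3).im]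
  have b2 : (z 2).re = 0 := by
    nlinarith [sq_nonneg (z 1).im, sq_nonneg (z 2).re, sq_nonneg (z 2).im, sq_nonneg (z 3).re,
      sq_nonneg (z 3).im]
  have b3 : (z 2).im = 0 := by
    nlinarith [sq_nonneg (z 1).im, sq_nonneg (z 2).re, sq_nonneg (z 2).im, sq_nonneg (z 3).re,
      sq_nonneg (z 3).im]
  have b4 : (z 3).re = 0 := by
    nlinarith [sq_nonneg (z 1).im, sq_nonneg (z 2).re, sq_nonneg (z 2).im, sq_nonneg (z 3).re,
      sq_nonneg (z 3).im]
  have b5 : (z 3).im = 0 := by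
    nlinarith [sq_nonneg (z 1).im, sq_nonneg (z 2).re, sq_nonneg (z 2).im, sq_nonneg (z 3).re,
      sq_nonneg (z 3).im]
  funext i
  fin_cases i <;> apply Complex.ext <;> simp [a1, a2, a3, b1, b2, b3, b4, b5]

end D1

open D1 in
/-- D1: the box trick -/
theorem box_trick (Fa Fb Fc : V4 → (V4 →L[ℝ] V4 →L[ℝ] ℝ)) (ha : Continuous Fa)
    (hb : Continuous Fb) (hc : Continuous Fc) (ha' : ∀ z, Fa z ∈ Nd V4) (hb' : ∀ z, Fb z ∈ Nd V4)
    (hc' : ∀ z, Fc z ∈ Nd V4) (h1 : ∀ z, n5 z ≠ 0 → Fa z = Fc (inv5 z))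
    (h2 : ∀ z, n3 z ≠ 0 → Fb z = Fc (inv3 z)) :
    ∃ (f : V4 → (V4 →L[ℝ] V4 →L[ℝ] ℝ)) (C : V4 →L[ℝ] V4 →L[ℝ] ℝ),
      ContinuousOn f {0}ᶜ ∧ (∀ z, z ≠ 0 → f z ∈ Nd V4) ∧
      (∀ z, n3 z ≠ 0 → n3 z + n5 z ≤ 1 / 16 → f z = Fa (inv3 z)) ∧
      (∀ z, n5 z ≠ 0 → n3 z + n5 z ≤ 1 / 16 → f z = Fb (inv5 z)) ∧
      (∀ z, 16 ≤ n3 z + n5 z → f z = C) := by
  classical
  obtain ⟨G, hG, hGN, hG1, hG2⟩ := exists_G Fb Fc hb hc hb' hc' h2
  obtain ⟨c, H, hH, hHN, hH0, hH1⟩ := null_Nd G hG hGN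
  set r : V4 → ℝ := fun z => √(n5 z) with hrdef
  have hr : Continuous r := n5_cont.sqrt
  -- the function `A`
  set A' : V4 → (V4 →L[ℝ] V4 →L[ℝ] ℝ) := fun z =>
    if r z ≤ 3 / 4 then Fc (sc5 (12 - 16 * r z) z)
      else H (cl (4 * r z - 3), ⟨phi (p3 z), phi_mem _⟩) with hA'
  have hA'c : Continuous A' := by
    refine Continuous.if_le (hc.comp (sc5_cont (continuous_const.sub (continuous_const.mul hr))
      continuous_id)) (hH.comp ((cl_cont.comp ((continuous_const.mul hr).sub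
      continuous_const)).prodMk (Continuous.subtype_mk (phi_contDiff.continuous.comp p3_cont) _)))
      hr continuous_const fun z hz => ?_
    rw [hz]
    have e1 : (4:ℝ) * (3 / 4) - 3 = 0 := by norm_num
    have e2 : (12:ℝ) - 16 * (3 / 4) = 0 := by norm_num
    rw [e1, e2, cl_zero, hH0]
    change Fc (sc5 0 z) = G ⟨phi (p3 z), _⟩
    rw [hG1, sc5_zero]
  have hA'N : ∀ z, A' z ∈ Nd V4 := by
    intro z
    rw [hA']
    dsimp only
    split_ifs
    · exact hc' _
    · exact hHN _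
  set A : V4 → (V4 →L[ℝ] V4 →L[ℝ] ℝ) := fun z => if r z ≤ 1 / 2 then Fa z else A' z with hA
  have hAc : Continuous A := by
    refine Continuous.if_le ha hA'c hr continuous_const fun z hz => ?_
    have h5 : n5 z = 1 / 4 := by
      have h6 : √(n5 z) = 1 / 2 := hz
      have h7 := Real.sq_sqrt (n5_nonneg z)
      rw [h6] at h7
      rw [← h7]; norm_num
    rw [h1 z (by rw [h5]; norm_num), hA']
    dsimp only
    rw [hz, if_pos (by norm_num), inv5_eq, h5]
    norm_num
  have hAN : ∀ z, A z ∈ Nd V4 := by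
    intro z
    rw [hA]
    dsimp only
    split_ifs
    · exact ha' _
    · exact hA'N _
  -- the function `B`
  set B2' : V4 → (V4 →L[ℝ] V4 →L[ℝ] ℝ) := fun z =>
    if r z ≤ 3 / 4 then Fb (sc5 (12 - 16 * r z) z)
      else H (cl (4 * r z - 3), ⟨psi (p3 z), psi_mem _⟩) with hB2'
  have hB2'c : Continuous B2' := by
    refine Continuous.if_le (hb.comp (sc5_cont (continuous_const.sub (continuous_const.mul hr))
      continuous_id)) (hH.comp ((cl_cont.comp ((continuous_const.mul hr).sub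
      continuous_const)).prodMk (Continuous.subtype_mk (psi_cont.comp p3_cont) _)))
      hr continuous_const fun z hz => ?_
    rw [hz]
    have e1 : (4:ℝ) * (3 / 4) - 3 = 0 := by norm_num
    have e2 : (12:ℝ) - 16 * (3 / 4) = 0 := by norm_num
    rw [e1, e2, cl_zero, hH0]
    change Fb (sc5 0 z) = G ⟨psi (p3 z), _⟩
    rw [hG2, sc5_zero]
  have hB2'N : ∀ z, B2' z ∈ Nd V4 := by
    intro z
    rw [hB2']
    dsimp only
    split_ifs
    · exact hb' _
    · exact hHN _
  set B2 : V4 → (V4 →L[ℝ] V4 →L[ℝ] ℝ) := fun z =>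
    if r z ≤ 1 / 2 then Fb (inv5 z) else B2' z with hB2
  have hB2N : ∀ z, B2 z ∈ Nd V4 := by
    intro z
    rw [hB2]
    dsimp only
    split_ifs
    · exact hb' _
    · exact hB2'N _
  have hB2c : ∀ z, n5 z ≠ 0 → ContinuousAt B2 z := by
    have h3 : ContinuousOn B2 {z | n5 z ≠ 0} := by
      rw [continuousOn_iff_continuous_domRestrict]
      refine Continuous.if_le (f' := fun z : {z : V4 | n5 z ≠ 0} => Fb (inv5 z.1))
        (g' := fun z : {z : V4 | n5 z ≠ 0} => B2' z.1)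
        (hb.comp ?_) (hB2'c.comp continuous_subtype_val)
        (hr.comp continuous_subtype_val) continuous_const fun z hz => ?_
      · rw [continuous_iff_continuousAt]
        intro z
        exact ContinuousAt.comp (f := fun z : {z : V4 | n5 z ≠ 0} => z.1) (inv5_contAt z.2)
          continuous_subtype_val.continuousAt
      · have hz' : √(n5 z.1) = 1 / 2 := hz
        have h5 : n5 z.1 = 1 / 4 := by
          have h7 := Real.sq_sqrt (n5_nonneg z.1)
          rw [hz'] at h7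
          rw [← h7]; norm_num
        have hrz : r z.1 = 1 / 2 := hz
        have e : B2' z.1 = Fb (sc5 (12 - 16 * r z.1) z.1) := if_pos (by rw [hrz]; norm_num)
        rw [e, hrz, inv5_eq, h5]
        norm_num
    intro z hz
    exact h3.continuousAt (isOpen_n5.mem_nhds hz)
  have hB1c : ∀ z, n3 z ≠ 0 → ContinuousAt (fun z => A (inv3 z)) z := fun z hz =>
    ContinuousAt.comp hAc.continuousAt (inv3_contAt hz)
  have hB12 : ∀ z, n3 z ≠ 0 → n5 z ≠ 0 → A (inv3 z) = B2 z := by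
    intro z h3 h5
    rw [hA, hB2]
    dsimp only
    have hri : r (inv3 z) = r z := rfl
    rw [hri]
    split_ifs with hcase
    · rw [h1 _ (by rw [n5_inv3]; exact h5), h2 (inv5 z) h3, inv3_inv5]
    · rw [hA', hB2']
      dsimp only
      rw [hri]
      split_ifs with hcase2
      · rw [← inv3_sc5, ← h2]
        exact h3
      · congr 2
        apply Subtype.ext
        change phi (p3 (inv3 z)) = psi (p3 z)
        rw [p3_inv3, phi_inv]
        rw [← n3_eq]
        exact h3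
  set B : V4 → (V4 →L[ℝ] V4 →L[ℝ] ℝ) := fun z => if n3 z ≠ 0 then A (inv3 z) else B2 z with hB
  have hBeq1 : ∀ z, n3 z ≠ 0 → B z = A (inv3 z) := fun z hz => if_pos hz
  have hBeq2 : ∀ z, n5 z ≠ 0 → B z = B2 z := by
    intro z hz
    rw [hB]
    dsimp only
    split_ifs with h
    · exact hB12 z h hz
    · rfl
  have hBc : ∀ z, z ≠ 0 → ContinuousAt B z := by
    intro z hz
    by_cases h3 : n3 z = 0
    · have h5 : n5 z ≠ 0 := fun h5 => hz (eq_zero_of h3 h5)
      refine (hB2c z h5).congr ?_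
      filter_upwards [isOpen_n5.mem_nhds h5] with w hw
      exact (hBeq2 w hw).symm
    · refine (hB1c z h3).congr ?_
      filter_upwards [isOpen_n3.mem_nhds h3] with w hw
      exact (hBeq1 w hw).symm
  have hBN : ∀ z, B z ∈ Nd V4 := by
    intro z
    rw [hB]
    dsimp only
    split_ifs
    · exact hAN _
    · exact hB2N _
  -- the function `f`
  set ρ : V4 → ℝ := fun z => max √(n3 z) √(n5 z) with hρ
  have hρc : Continuous ρ := n3_cont.sqrt.max n5_cont.sqrt
  have hρ0 : ∀ z, z ≠ 0 → 0 < ρ z := by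
    intro z hz
    by_contra h
    rw [not_lt] at h
    apply hz
    have h3 : √(n3 z) ≤ 0 := (le_max_left _ _).trans h
    have h5 : √(n5 z) ≤ 0 := (le_max_right _ _).trans h
    exact eq_zero_of (le_antisymm (Real.sqrt_eq_zero'.1 (le_antisymm h3 (Real.sqrt_nonneg _)))
      (n3_nonneg z)) (le_antisymm (Real.sqrt_eq_zero'.1 (le_antisymm h5 (Real.sqrt_nonneg _)))
      (n5_nonneg z))
  refine ⟨fun z => if ρ z ≤ 1 then B z else A ((max 0 (2 - ρ z) / ρ z) • z), A 0, ?_, ?_, ?_, ?_,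
    ?_⟩
  · rw [continuousOn_iff_continuous_domRestrict]
    have hne : ∀ z : ({0}ᶜ : Set V4), z.1 ≠ 0 := fun z => z.2
    refine Continuous.if_le (f' := fun z : ({0}ᶜ : Set V4) => B z.1)
      (g' := fun z : ({0}ᶜ : Set V4) => A ((max 0 (2 - ρ z.1) / ρ z.1) • z.1)) ?_ ?_
      (hρc.comp continuous_subtype_val) continuous_const ?_
    · rw [continuous_iff_continuousAt]
      intro z
      exact ContinuousAt.comp (f := fun z : ({0}ᶜ : Set V4) => z.1) (hBc z.1 (hne z))
        continuous_subtype_val.continuousAt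
    · have hρs : Continuous fun z : ({0}ᶜ : Set V4) => ρ z.1 := hρc.comp continuous_subtype_val
      exact hAc.comp (((continuous_const.max (continuous_const.sub hρs)).div hρs
        fun z => (hρ0 z.1 (hne z)).ne').smul continuous_subtype_val)
    · intro z hz
      have hz1 : ρ z.1 = 1 := hz
      rw [hz1]
      have e1 : max (0:ℝ) (2 - 1) / 1 = 1 := by norm_num
      rw [e1, one_smul]
      have hcase : √(n3 z.1) = 1 ∨ √(n5 z.1) = 1 := by
        rcases le_total √(n3 z.1) √(n5 z.1) with h | h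
        · right
          have : max √(n3 z.1) √(n5 z.1) = 1 := hz1
          rwa [max_eq_right h] at this
        · left
          have : max √(n3 z.1) √(n5 z.1) = 1 := hz1
          rwa [max_eq_left h] at this
      rcases hcase with h | h
      · have h3 : n3 z.1 = 1 := Real.sqrt_eq_one.1 h
        rw [hBeq1 _ (by rw [h3]; norm_num), inv3_one h3]
      · have h5 : n5 z.1 = 1 := Real.sqrt_eq_one.1 h
        have hr1 : r z.1 = 1 := h
        have e2 : (4:ℝ) * 1 - 3 = 1 := by norm_num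
        rw [hBeq2 _ (by rw [h5]; norm_num), hA, hB2]
        dsimp only
        rw [hr1, if_neg (by norm_num), if_neg (by norm_num), hA', hB2']
        dsimp only
        rw [hr1, if_neg (by norm_num), if_neg (by norm_num), e2, cl_one, hH1, hH1]
  · intro z _
    dsimp only
    split_ifs
    · exact hBN _
    · exact hAN _
  · intro z h3 hle
    have h5 := n5_nonneg z
    have h3' := n3_nonneg z
    have e3 : √(n3 z) ≤ 1 / 4 := by
      rw [Real.sqrt_le_left (by norm_num)]; linarith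
    have e5 : √(n5 z) ≤ 1 / 4 := by
      rw [Real.sqrt_le_left (by norm_num)]; linarith
    have hρ1 : ρ z ≤ 1 := (max_le e3 e5).trans (by norm_num)
    dsimp only
    rw [if_pos hρ1, hBeq1 z h3, hA]
    dsimp only
    have hri : r (inv3 z) = √(n5 z) := rfl
    rw [hri, if_pos (by linarith)]
  · intro z h5 hle
    have h5' := n5_nonneg z
    have h3' := n3_nonneg z
    have e3 : √(n3 z) ≤ 1 / 4 := by
      rw [Real.sqrt_le_left (by norm_num)]; linarith
    have e5 : √(n5 z) ≤ 1 / 4 := by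
      rw [Real.sqrt_le_left (by norm_num)]; linarith
    have hρ1 : ρ z ≤ 1 := (max_le e3 e5).trans (by norm_num)
    dsimp only
    rw [if_pos hρ1, hBeq2 z h5, hB2]
    dsimp only
    have hri : r z = √(n5 z) := rfl
    rw [hri, if_pos (by linarith)]
  · intro z hz
    have hρ2 : 2 ≤ ρ z := by
      by_contra h
      rw [not_le] at h
      have e3 : √(n3 z) < 2 := lt_of_le_of_lt (le_max_left _ _) h
      have e5 : √(n5 z) < 2 := lt_of_le_of_lt (le_max_right _ _) h
      rw [Real.sqrt_lt' (by norm_num)] at e3 e5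
      linarith
    dsimp only
    rw [if_neg (by linarith), max_eq_left (by linarith), zero_div, zero_smul]

end Pool.Agent.Work.MP_2a78db_gt
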