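import Pool.Agent.Work.MP_2a78db_gt.E1g
import Pool.Agent.Work.MP_2a78db_gt.D1

/-!
Module E1: existence of the family of forms on the 9-sphere.
-/

namespace Pool.Agent.Work.MP_2a78db_gt

/-- E1 -/
theorem exists_family (om : Ch → V4 → V4 [⋀^Fin 2]→L[ℝ] ℝ) (hs : ∀ k, Continuous (om k))
    (hc : Compat 2 om) (hn : ∀ k z, Nondeg (om k z)) (hneg : ∀ z, pow4 (om .c z) stdB < 0) :
    ∃ Om u, Family Om u :=
  E1.exists_family_of_box (fun Fa Fb Fc a b c a' b' c' h1 h2 =>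
    box_trick Fa Fb Fc a b c a' b' c' h1 h2) om hs hc hn hneg

end Pool.Agent.Work.MP_2a78db_gt
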