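import Mathlib

/-!
Differential forms and almost complex structures on a smooth manifold without boundary, used in
the final statement.
-/

namespace Pool.Agent.Work.MP_2a78db_gt

open scoped Manifold ContDiff Topology

section wedge

variable {V : Type*}

theorem two_update_zero (x w z : V) : Function.update ![x, w] 0 z = ![z, w] := by
  funext i; fin_cases i <;> simp

theorem two_update_one (x w z : V) : Function.update ![x, w] 1 z = ![x, z] := by
  funext i; fin_cases i <;> simp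

variable [AddCommGroup V] [Module ℝ V] [TopologicalSpace V]

theorem two_add_left (α : V [⋀^Fin 2]→L[ℝ] ℝ) (x y w : V) :
    α ![x + y, w] = α ![x, w] + α ![y, w] := by
  have h := α.map_update_add ![x, w] 0 x y
  rwa [two_update_zero, two_update_zero, two_update_zero] at h

theorem two_add_right (α : V [⋀^Fin 2]→L[ℝ] ℝ) (x y w : V) :
    α ![w, x + y] = α ![w, x] + α ![w, y] := by
  have h := α.map_update_add ![w, x] 1 x y
  rwa [two_update_one, two_update_one, two_update_one] at h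

theorem two_smul_left (α : V [⋀^Fin 2]→L[ℝ] ℝ) (t : ℝ) (x w : V) :
    α ![t • x, w] = t * α ![x, w] := by
  have h := α.map_update_smul ![x, w] 0 t x
  rwa [two_update_zero, two_update_zero] at h

theorem two_smul_right (α : V [⋀^Fin 2]→L[ℝ] ℝ) (t : ℝ) (x w : V) :
    α ![w, t • x] = t * α ![w, x] := by
  have h := α.map_update_smul ![w, x] 1 t x
  rwa [two_update_one, two_update_one] at h

/-- The multilinear map `v ↦ α (v_0, v_1) * α (v_2, v_3) * α (v_4, v_5) * α (v_6, v_7)`. -/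
noncomputable def tensorFour (α : V [⋀^Fin 2]→L[ℝ] ℝ) :
    ContinuousMultilinearMap ℝ (fun _ : Fin 8 => V) ℝ where
  toFun v := α ![v 0, v 1] * α ![v 2, v 3] * α ![v 4, v 5] * α ![v 6, v 7]
  map_update_add' := by
    intro h v i x y
    obtain rfl : h = instDecidableEqFin 8 := Subsingleton.elim _ _
    fin_cases i <;> simp [Function.update, two_add_left, two_add_right] <;> ring
  map_update_smul' := by
    intro h v i t x
    obtain rfl : h = instDecidableEqFin 8 := Subsingleton.elim _ _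
    fin_cases i <;> simp [Function.update, two_smul_left, two_smul_right] <;> ring
  cont := by
    have h : ∀ (β : V [⋀^Fin 2]→L[ℝ] ℝ) (i j : Fin 8),
        Continuous fun v : Fin 8 → V => β ![v i, v j] := by
      intro β i j
      refine β.cont.comp (continuous_pi fun k => ?_)
      fin_cases k
      · exact continuous_apply i
      · exact continuous_apply j
    exact (((h _ _ _).mul (h _ _ _)).mul (h _ _ _)).mul (h _ _ _)

/-- The fourth exterior power `α ∧ α ∧ α ∧ α` of an alternating 2-form: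
`(1 / 2 ^ 4) * ∑ σ, sign σ * α (v_σ0, v_σ1) * α (v_σ2, v_σ3) * α (v_σ4, v_σ5) * α (v_σ6, v_σ7)`. -/
noncomputable def fourthPower (α : V [⋀^Fin 2]→L[ℝ] ℝ) : V [⋀^Fin 8]→L[ℝ] ℝ :=
  (1 / 2 ^ 4 : ℝ) • ContinuousMultilinearMap.alternatization (tensorFour α)

end wedge

section forms

variable {E : Type*} [NormedAddCommGroup E] [NormedSpace ℝ E]
  {M : Type*} [TopologicalSpace M] [ChartedSpace E M] {k : ℕ}

/-- The coordinate expression, in a chart `e`, of a field `θ` of alternating `k`-forms on the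
tangent spaces of the manifold `M`: the pullback of `θ` under the inverse of the chart. -/
noncomputable def localForm (θ : ∀ x : M, TangentSpace 𝓘(ℝ, E) x [⋀^Fin k]→L[ℝ] ℝ)
    (e : OpenPartialHomeomorph M E) (y : E) : E [⋀^Fin k]→L[ℝ] ℝ :=
  (θ (e.symm y)).compContinuousLinearMap (mfderiv 𝓘(ℝ, E) 𝓘(ℝ, E) e.symm y)

/-- `θ` is a smooth differential form: its coordinate expressions are smooth. -/
def SmoothForm (θ : ∀ x : M, TangentSpace 𝓘(ℝ, E) x [⋀^Fin k]→L[ℝ] ℝ) : Prop :=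
  ∀ e ∈ atlas E M, ContDiffOn ℝ ∞ (localForm θ e) e.target

/-- `d θ = η`, in all charts. -/
def HasExtDeriv (θ : ∀ x : M, TangentSpace 𝓘(ℝ, E) x [⋀^Fin k]→L[ℝ] ℝ)
    (η : ∀ x : M, TangentSpace 𝓘(ℝ, E) x [⋀^Fin (k + 1)]→L[ℝ] ℝ) : Prop :=
  ∀ e ∈ atlas E M, ∀ y ∈ e.target, extDeriv (localForm θ e) y = localForm η e y

/-- `θ` is a closed form, `d θ = 0`. -/
def ClosedForm (θ : ∀ x : M, TangentSpace 𝓘(ℝ, E) x [⋀^Fin k]→L[ℝ] ℝ) : Prop :=
  HasExtDeriv θ fun _ => 0

/-- `η` is an exact form: `η = d γ` for a smooth form `γ`. -/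
def ExactForm (η : ∀ x : M, TangentSpace 𝓘(ℝ, E) x [⋀^Fin (k + 1)]→L[ℝ] ℝ) : Prop :=
  ∃ γ : ∀ x : M, TangentSpace 𝓘(ℝ, E) x [⋀^Fin k]→L[ℝ] ℝ, SmoothForm γ ∧ HasExtDeriv γ η

/-- A symplectic structure: a smooth closed 2-form, nondegenerate at every point. -/
def IsSymplectic (θ : ∀ x : M, TangentSpace 𝓘(ℝ, E) x [⋀^Fin 2]→L[ℝ] ℝ) : Prop :=
  SmoothForm θ ∧ ClosedForm θ ∧ ∀ x v, (∀ w, θ x ![v, w] = 0) → v = 0

/-- An almost complex structure: a smooth endomorphism `J` of the tangent bundle, linear on the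
fibres, with `J ^ 2 = -1`. -/
def IsAlmostComplex [IsManifold 𝓘(ℝ, E) ∞ M]
    (J : ∀ x : M, TangentSpace 𝓘(ℝ, E) x →L[ℝ] TangentSpace 𝓘(ℝ, E) x) : Prop :=
  ContMDiff 𝓘(ℝ, E).tangent 𝓘(ℝ, E).tangent ∞
    (fun p : TangentBundle 𝓘(ℝ, E) M => (⟨p.1, J p.1 p.2⟩ : TangentBundle 𝓘(ℝ, E) M)) ∧
  ∀ x v, J x (J x v) = -v

end forms

end Pool.Agent.Work.MP_2a78db_gt
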