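import Pool.Agent.Work.MP_2a78db_gt.F2a
import Pool.Agent.Work.MP_2a78db_gt.FDefs
import Pool.Agent.Work.MP_2a78db_gt.A1
import Pool.Agent.Work.MP_2a78db_gt.A2
import Pool.Agent.Work.MP_2a78db_gt.B1
import Pool.Agent.Work.MP_2a78db_gt.B2
import Pool.Agent.Work.MP_2a78db_gt.C2
import Pool.Agent.Work.MP_2a78db_gt.D0
import Pool.Agent.Work.MP_2a78db_gt.E1

/-!
Module F2: assembly of the final statement from the bridge (module F1) and the nonexistence of
the family of forms on the 9-sphere (module D3).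
-/

namespace Pool.Agent.Work.MP_2a78db_gt

open scoped Manifold ContDiff Topology

/-- The statement of module F1. -/
def BridgeStatement : Prop :=
  ∀ {M : Type} [TopologicalSpace M] [T2Space M] [CompactSpace M] (_ : SpaceData M),
    ∃ (_ : ChartedSpace (EuclideanSpace ℝ (Fin 8)) M) (_ : IsManifold (𝓡 8) ∞ M),
      SecondCountableTopology M ∧
      (∃ fam : ∀ k : ℕ, (∀ x : M, TangentSpace (𝓡 8) x [⋀^Fin k]→L[ℝ] ℝ) →
          Ch → V4 → V4 [⋀^Fin k]→L[ℝ] ℝ,
        (∀ k θ, SmoothForm θ → ∀ p, ContDiff ℝ ∞ (fam k θ p)) ∧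
        (∀ k θ, Compat k (fam k θ)) ∧
        (∀ k om, (∀ p, ContDiff ℝ ∞ (om p)) → Compat k om → ∃ θ, SmoothForm θ ∧ fam k θ = om) ∧
        (∀ k θ η, SmoothForm θ →
          (HasExtDeriv θ η ↔ ∀ p z, extDeriv (fam k θ p) z = fam (k + 1) η p z)) ∧
        (∀ k p z, fam k (fun _ => 0) p z = 0) ∧
        (∀ α p z, fam 8 (fun x => fourthPower (α x)) p z
          = (1 / 2 ^ 4 : ℝ) • pow4 (fam 2 α p z)) ∧
        (∀ θ : ∀ x : M, TangentSpace (𝓡 8) x [⋀^Fin 2]→L[ℝ] ℝ,
          (∀ x v, (∀ w, θ x ![v, w] = 0) → v = 0) → ∀ p z, Nondeg (fam 2 θ p z))) ∧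
      (∀ J : Ch → V4 → (V4 →L[ℝ] V4), (∀ k, ContDiff ℝ ∞ (J k)) →
        (∀ k z v, J k z (J k z v) = -v) →
        (∀ k l, ∀ z ∈ O k l, ∀ v,
          fderiv ℝ (T k l) z (J k z v) = J l (T k l z) (fderiv ℝ (T k l) z v)) →
        ∃ J' : ∀ x : M, TangentSpace (𝓡 8) x →L[ℝ] TangentSpace (𝓡 8) x,
          IsAlmostComplex J')

namespace F2

open MeasureTheory

/-- A continuous integrable function on `V4` which is nonpositive and somewhere negative has
negative integral. -/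
theorem integral_neg_of {f : V4 → ℝ} (hf : Continuous f) (hi : Integrable f)
    (h0 : ∀ z, f z ≤ 0) (h1 : ∃ z, f z < 0) : ∫ z, f z < 0 := by
  obtain ⟨z₀, hz₀⟩ := h1
  have h2 : 0 < ∫ z, -f z := by
    rw [integral_pos_iff_support_of_nonneg (fun z => neg_nonneg.2 (h0 z)) hi.neg]
    have hopen : IsOpen (Function.support fun z => -f z) := isOpen_ne_fun hf.neg continuous_const
    exact hopen.measure_pos _ ⟨z₀, by simp only [Function.mem_support]; exact (neg_pos.2 hz₀).ne'⟩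
  rw [integral_neg] at h2
  linarith

theorem continuous_pow4 (a : V4 → V4 [⋀^Fin 2]→L[ℝ] ℝ) (ha : Continuous a) :
    Continuous fun z => pow4 (a z) stdB := by
  have h2 : (fun z => pow4 (a z) stdB) = fun z => W (a z) (a z) (a z) (a z) :=
    funext fun z => W_diag _
  rw [h2]
  exact W_continuous a a a a ha ha ha ha

theorem integrable_pow4 {M : Type} [TopologicalSpace M] [T2Space M] [CompactSpace M]
    (D : SpaceData M) (a : Ch → V4 → V4 [⋀^Fin 2]→L[ℝ] ℝ) (ha : ∀ k, Continuous (a k))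
    (ca : Compat 2 a) : Integrable fun z => pow4 (a .c z) stdB := by
  have h2 : (fun z => pow4 (a .c z) stdB) = fun z => W (a .c z) (a .c z) (a .c z) (a .c z) :=
    funext fun z => W_diag _
  rw [h2]
  exact integrable_W D a a a a ha ha ha ha ca ca ca ca

/-- A smooth closed nondegenerate compatible family has negative fourth power. -/
theorem pow4_neg {M : Type} [TopologicalSpace M] [T2Space M] [CompactSpace M]
    (D : SpaceData M) {pot : Ch → V4 → V4 [⋀^Fin 1]→L[ℝ] ℝ}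
    {α : Ch → V4 → V4 [⋀^Fin 2]→L[ℝ] ℝ} (hα : AlphaData pot α)
    (hneg : ∀ z, pow4 (α .c z) stdB ≤ 0) (hαs : ∀ k, ContDiff ℝ ∞ (α k))
    (hαd : ∀ k z, extDeriv (α k) z = 0)
    (om : Ch → V4 → V4 [⋀^Fin 2]→L[ℝ] ℝ) (hs : ∀ k, ContDiff ℝ ∞ (om k))
    (hd : ∀ k z, extDeriv (om k) z = 0) (hc : Compat 2 om) (hn : ∀ k z, Nondeg (om k z)) :
    ∀ z, pow4 (om .c z) stdB < 0 := by
  obtain ⟨t, β, hβ, hβc, h⟩ := H2_rank_one D hα om hs hd hc
  have le1 : (1 : WithTop ℕ∞) ≤ ∞ := by simp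
  have hint := integral_pow4 D α om β t (fun k => (hαs k).of_le le1) (fun k => (hs k).of_le le1)
    hα.compat hc hαd hd hβ hβc h
  have hle : ∫ z, pow4 (om .c z) stdB ≤ 0 := by
    rw [hint]
    refine mul_nonpos_of_nonneg_of_nonpos (by positivity) ?_
    exact integral_nonpos fun z => hneg z
  have hcont : Continuous fun z => pow4 (om .c z) stdB := continuous_pow4 _ (hs .c).continuous
  have hii : Integrable fun z => pow4 (om .c z) stdB :=
    integrable_pow4 D om (fun k => (hs k).continuous) hc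
  have hne : ∀ z, pow4 (om .c z) stdB ≠ 0 := fun z => pow4_ne_zero _ (hn .c z)
  by_contra hcon
  push Not at hcon
  obtain ⟨z₁, hz₁⟩ := hcon
  have hpos : ∀ z, 0 < pow4 (om .c z) stdB := by
    intro z
    by_contra hz
    push Not at hz
    obtain ⟨w, -, hw⟩ := isPreconnected_univ.intermediate_value (Set.mem_univ z)
      (Set.mem_univ z₁) hcont.continuousOn ⟨hz, hz₁⟩
    exact hne w hw
  have h3 : ∫ z, -pow4 (om .c z) stdB < 0 :=
    integral_neg_of hcont.neg hii.neg (fun z => (neg_neg_of_pos (hpos z)).le)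
      ⟨0, neg_neg_of_pos (hpos 0)⟩
  rw [integral_neg] at h3
  linarith

end F2

/-- The final statement, from the bridge and the nonexistence of the family. -/
theorem main_of (hbr : BridgeStatement)
    (hnf : ∀ (Om : S9 → V5 →L[ℝ] V5 →L[ℝ] ℝ) (u : S9 → V5), ¬ Family Om u) :
    ∃ (M : Type) (_ : TopologicalSpace M) (_ : ChartedSpace (EuclideanSpace ℝ (Fin 8)) M)
      (_ : IsManifold (𝓡 8) ∞ M), T2Space M ∧ SecondCountableTopology M ∧ CompactSpace M ∧
      SimplyConnectedSpace M ∧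
      (∃ J : ∀ x : M, TangentSpace (𝓡 8) x →L[ℝ] TangentSpace (𝓡 8) x, IsAlmostComplex J) ∧
      (∃ α : ∀ x : M, TangentSpace (𝓡 8) x [⋀^Fin 2]→L[ℝ] ℝ,
        SmoothForm α ∧ ClosedForm α ∧ ¬ ExactForm fun x => fourthPower (α x)) ∧
      ¬ ∃ θ : ∀ x : M, TangentSpace (𝓡 8) x [⋀^Fin 2]→L[ℝ] ℝ, IsSymplectic θ := by
  obtain ⟨M, tM, t2, tc, ⟨D⟩⟩ := exists_space
  obtain ⟨cs, im, sc, ⟨fam, hfs, hfc, hfe, hfd, hf0, hf4, hfn⟩, hJ⟩ := hbr D
  obtain ⟨pot, α, hα, hαn, hαz⟩ := exists_alpha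
  obtain ⟨J, hJs, hJJ, hJc⟩ := exists_J
  have hαs : ∀ k, ContDiff ℝ ∞ (α k) := by
    intro k
    have h1 : α k = extDeriv (pot k) := funext fun z => hα.alpha_eq k z
    rw [h1]
    exact C2.cd_extDeriv (hα.pot_smooth k)
  have hαd : ∀ k z, extDeriv (α k) z = 0 := by
    intro k z
    have h1 : α k = extDeriv (pot k) := funext fun z => hα.alpha_eq k z
    rw [h1]
    exact extDeriv_extDeriv_apply (hα.pot_smooth k).contDiffAt (by
      simp only [minSmoothness_of_isRCLikeNormedField]; exact ENat.LEInfty.out)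
  refine ⟨M, tM, cs, im, t2, sc, tc, simplyConnected_of_data D, hJ J hJs hJJ hJc, ?_, ?_⟩
  · obtain ⟨θ, hθs, hθ⟩ := hfe 2 α hαs hα.compat
    refine ⟨θ, hθs, ?_, ?_⟩
    · refine (hfd 2 θ _ hθs).2 fun p z => ?_
      rw [hθ, hf0]
      exact hαd p z
    · rintro ⟨γ, hγs, hγ⟩
      have h1 := (hfd 7 γ _ hγs).1 hγ
      have h2 : ∀ z, extDeriv (fam 7 γ .c) z stdB = (1 / 2 ^ 4 : ℝ) * pow4 (α .c z) stdB := by
        intro z
        have h3 := h1 .c z
        have h4 := hf4 θ .c z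
        rw [hθ] at h4
        have h5 : extDeriv (fam 7 γ .c) z = (1 / 2 ^ 4 : ℝ) • pow4 (α .c z) := h3.trans h4
        rw [h5]
        rfl
      have h3 := stokes_top D (fam 7 γ) (hfs 7 γ hγs) (hfc 7 γ)
      rw [MeasureTheory.integral_congr_ae (Filter.Eventually.of_forall h2),
        MeasureTheory.integral_const_mul] at h3
      have h4 := F2.integral_neg_of (F2.continuous_pow4 _ (hαs .c).continuous)
        (F2.integrable_pow4 D α (fun k => (hαs k).continuous) hα.compat) hαn hαz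
      have h5 : (1 / 2 ^ 4 : ℝ) ≠ 0 := by norm_num
      rcases mul_eq_zero.1 h3 with h6 | h6
      · exact h5 h6
      · exact h4.ne h6
  · rintro ⟨θ, hθs, hθd, hθn⟩
    have hd : ∀ k z, extDeriv (fam 2 θ k) z = 0 := by
      intro k z
      have h1 := (hfd 2 θ _ hθs).1 hθd k z
      rw [hf0] at h1
      exact h1
    have hn := hfn θ hθn
    have hneg := F2.pow4_neg D hα hαn hαs hαd (fam 2 θ) (hfs 2 θ hθs) hd (hfc 2 θ) hn
    obtain ⟨Om, u, hOm⟩ := exists_family (fam 2 θ) (fun k => (hfs 2 θ hθs k).continuous)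
      (hfc 2 θ) hn hneg
    exact hnf Om u hOm

end Pool.Agent.Work.MP_2a78db_gt
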