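import Pool.Agent.Work.MP_2a78db_gt.FDefs

/-!
The three properties of a manifold which occur in the final statement.
-/

namespace Pool.Agent.Work.MP_2a78db_gt

open scoped Manifold ContDiff Topology

section

variable (E : Type*) [NormedAddCommGroup E] [NormedSpace ℝ E]
  (M : Type*) [TopologicalSpace M] [ChartedSpace E M]

/-- Fields of alternating `k`-forms on the tangent spaces of `M`. -/
abbrev FormField (k : ℕ) := ∀ x : M, TangentSpace 𝓘(ℝ, E) x [⋀^Fin k]→L[ℝ] ℝ

/-- Fields of endomorphisms of the tangent spaces of `M`. -/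
abbrev EndoField := ∀ x : M, TangentSpace 𝓘(ℝ, E) x →L[ℝ] TangentSpace 𝓘(ℝ, E) x

variable {E M}

/-- The value of a field of endomorphisms at a tangent vector. -/
noncomputable def EndoField.app (J : EndoField E M) {x : M} (v : TangentSpace 𝓘(ℝ, E) x) :
    TangentSpace 𝓘(ℝ, E) x := J x v

/-- The map of the tangent bundle to itself given by a field of endomorphisms. -/
noncomputable def EndoField.total (J : EndoField E M) :
    TangentBundle 𝓘(ℝ, E) M → TangentBundle 𝓘(ℝ, E) M :=
  fun p => ⟨p.1, EndoField.app J p.2⟩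

/-- `J` is smooth, as a map of the tangent bundle to itself. -/
def EndoField.Smooth [IsManifold 𝓘(ℝ, E) ∞ M] (J : EndoField E M) : Prop :=
  ContMDiff 𝓘(ℝ, E).tangent 𝓘(ℝ, E).tangent ∞ (EndoField.total J)

variable (E M)

/-- `M` admits an almost complex structure: a smooth endomorphism `J` of the tangent bundle,
linear on the fibres, with `J ^ 2 = -1`. -/
def HasAlmostComplexStructure [IsManifold 𝓘(ℝ, E) ∞ M] : Prop :=
  ∃ J : EndoField E M, EndoField.Smooth J ∧
    ∀ (x : M) (v : TangentSpace 𝓘(ℝ, E) x), EndoField.app J (EndoField.app J v) = -v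

/-- `M` has a smooth closed 2-form `α` such that `α ∧ α ∧ α ∧ α` is not exact. -/
def HasNonexactFourthPower : Prop :=
  ∃ α : FormField E M 2, SmoothForm α ∧ ClosedForm α ∧ ¬ ExactForm fun x => fourthPower (α x)

/-- `M` admits a symplectic form. -/
def HasSymplecticForm : Prop :=
  ∃ θ : FormField E M 2, IsSymplectic θ

end

end Pool.Agent.Work.MP_2a78db_gt
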