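import Pool.Agent.Work.MP_2a78db_gt.Common

/-!
Module A1, first part: the model of the manifold as a compact subset of a Euclidean space.
-/

set_option autoImplicit false

namespace Pool.Agent.Work.MP_2a78db_gt.A1

open scoped Topology

/-- scaling of the two components -/
noncomputable def sc (l m : ℝ) (z : V4) : V4 :=
  ![⟨l * (z 0).re, l * (z 0).im⟩, ⟨l * (z 1).re, m * (z 1).im⟩, ⟨m * (z 2).re, m * (z 2).im⟩,
    ⟨m * (z 3).re, m * (z 3).im⟩]

theorem sc0 (l m : ℝ) (z : V4) : sc l m z 0 = ⟨l * (z 0).re, l * (z 0).im⟩ := rfl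
theorem sc1 (l m : ℝ) (z : V4) : sc l m z 1 = ⟨l * (z 1).re, m * (z 1).im⟩ := rfl
theorem sc2 (l m : ℝ) (z : V4) : sc l m z 2 = ⟨m * (z 2).re, m * (z 2).im⟩ := rfl
theorem sc3 (l m : ℝ) (z : V4) : sc l m z 3 = ⟨m * (z 3).re, m * (z 3).im⟩ := rfl

theorem sc_sc (l m l' m' : ℝ) (z : V4) : sc l m (sc l' m' z) = sc (l * l') (m * m') z := by
  funext i
  fin_cases i <;> simp [sc, mul_assoc]

theorem sc_one (z : V4) : sc 1 1 z = z := by
  funext i
  fin_cases i <;> simp [sc]

theorem sc_diag (l : ℝ) (z : V4) : sc l l z = (l : ℂ) • z := by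
  funext i
  fin_cases i <;> (apply Complex.ext <;> simp [sc])

theorem n3_sc (l m : ℝ) (z : V4) : n3 (sc l m z) = l ^ 2 * n3 z := by
  simp only [n3, sc0, sc1]; ring

theorem n5_sc (l m : ℝ) (z : V4) : n5 (sc l m z) = m ^ 2 * n5 z := by
  simp only [n5, sc1, sc2, sc3]; ring

theorem inv3_eq (z : V4) : inv3 z = sc (1 / n3 z) 1 z := by
  funext i
  fin_cases i <;> simp [sc, inv3, div_eq_inv_mul]

theorem inv5_eq (z : V4) : inv5 z = sc 1 (1 / n5 z) z := by
  funext i
  fin_cases i <;> simp [sc, inv5, div_eq_inv_mul]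

theorem n3_nonneg (z : V4) : 0 ≤ n3 z := by unfold n3; positivity
theorem n5_nonneg (z : V4) : 0 ≤ n5 z := by unfold n5; positivity

theorem sum_normSq (z : V4) : ∑ i, Complex.normSq (z i) = n3 z + n5 z := by
  simp only [Fin.sum_univ_four, Complex.normSq_apply, n3, n5]; ring

theorem sum_mul_conj (z : V4) : ∑ i, z i * (starRingEnd ℂ) (z i) = ((n3 z + n5 z : ℝ) : ℂ) := by
  rw [← sum_normSq]
  push_cast
  exact Finset.sum_congr rfl (fun i _ => Complex.mul_conj (z i))

theorem continuous_n3 : Continuous n3 := by unfold n3; fun_prop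
theorem continuous_n5 : Continuous n5 := by unfold n5; fun_prop

theorem continuous_mk' {X : Type*} [TopologicalSpace X] {f g : X → ℝ} (hf : Continuous f)
    (hg : Continuous g) : Continuous fun x => (⟨f x, g x⟩ : ℂ) := by
  have : (fun x => (⟨f x, g x⟩ : ℂ)) = fun x => (f x : ℂ) + (g x : ℂ) * Complex.I := by
    funext x; exact (Complex.mk_eq_add_mul_I _ _)
  rw [this]
  fun_prop

theorem continuous_sc {X : Type*} [TopologicalSpace X] {f g : X → ℝ} {h : X → V4}
    (hf : Continuous f) (hg : Continuous g) (hh : Continuous h) :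
    Continuous fun x => sc (f x) (g x) (h x) := by
  apply continuous_pi
  intro i
  fin_cases i
  · exact continuous_mk' (by fun_prop) (by fun_prop)
  · exact continuous_mk' (by fun_prop) (by fun_prop)
  · exact continuous_mk' (by fun_prop) (by fun_prop)
  · exact continuous_mk' (by fun_prop) (by fun_prop)

/-- the ambient space -/
abbrev E : Type := V4 × ℝ × ℝ × (Fin 4 → Fin 4 → ℂ)

/-- the vector `eta` -/
noncomputable def eta (q : E) : V4 := sc (1 + q.2.2.1) (1 + q.2.1) q.1

/-- the trace function -/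
noncomputable def tau (q : E) : ℝ := (1 + q.2.1) * (1 + q.2.2.1) / 4

/-- the model -/
structure IsM (q : E) : Prop where
  h3 : n3 q.1 + q.2.1 ^ 2 = 1
  h5 : n5 q.1 + q.2.2.1 ^ 2 = 1
  herm : ∀ i j, q.2.2.2 j i = (starRingEnd ℂ) (q.2.2.2 i j)
  minor : ∀ i j k l, q.2.2.2 i j * q.2.2.2 k l = q.2.2.2 i l * q.2.2.2 k j
  line : ∀ i j k, q.2.2.2 i j * eta q k = q.2.2.2 k j * eta q i
  trace : ∑ i, q.2.2.2 i i = (tau q : ℂ)

theorem continuous_eta : Continuous eta := by
  unfold eta
  exact continuous_sc (by fun_prop) (by fun_prop) (by fun_prop)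

theorem continuous_tau : Continuous tau := by
  unfold tau; fun_prop

theorem isClosed_M : IsClosed {q : E | IsM q} := by
  have h : {q : E | IsM q} = {q | n3 q.1 + q.2.1 ^ 2 = 1} ∩ {q | n5 q.1 + q.2.2.1 ^ 2 = 1} ∩
      (⋂ i, ⋂ j, {q | q.2.2.2 j i = (starRingEnd ℂ) (q.2.2.2 i j)}) ∩
      (⋂ i, ⋂ j, ⋂ k, ⋂ l, {q | q.2.2.2 i j * q.2.2.2 k l = q.2.2.2 i l * q.2.2.2 k j}) ∩
      (⋂ i, ⋂ j, ⋂ k, {q | q.2.2.2 i j * eta q k = q.2.2.2 k j * eta q i}) ∩
      {q | ∑ i, q.2.2.2 i i = (tau q : ℂ)} := by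
    ext q
    simp only [Set.mem_inter_iff, Set.mem_iInter, Set.mem_ofPred_eq]
    constructor
    · intro h; exact ⟨⟨⟨⟨⟨h.h3, h.h5⟩, h.herm⟩, h.minor⟩, h.line⟩, h.trace⟩
    · rintro ⟨⟨⟨⟨⟨h1, h2⟩, h3⟩, h4⟩, h5⟩, h6⟩; exact ⟨h1, h2, h3, h4, h5, h6⟩
  have ce : ∀ k, Continuous fun q : E => eta q k := fun k =>
    (continuous_apply k).comp continuous_eta
  rw [h]
  refine IsClosed.inter (IsClosed.inter (IsClosed.inter (IsClosed.inter (IsClosed.inter ?_ ?_) ?_) ?_) ?_) ?_
  · exact isClosed_eq ((continuous_n3.comp continuous_fst).add (by fun_prop)) continuous_const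
  · exact isClosed_eq ((continuous_n5.comp continuous_fst).add (by fun_prop)) continuous_const
  · exact isClosed_iInter fun i => isClosed_iInter fun j =>
      isClosed_eq (by fun_prop) (Complex.continuous_conj.comp (by fun_prop))
  · exact isClosed_iInter fun i => isClosed_iInter fun j => isClosed_iInter fun k =>
      isClosed_iInter fun l => isClosed_eq (by fun_prop) (by fun_prop)
  · exact isClosed_iInter fun i => isClosed_iInter fun j => isClosed_iInter fun k =>
      isClosed_eq (Continuous.mul (by fun_prop) (ce k)) (Continuous.mul (by fun_prop) (ce i))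
  · exact isClosed_eq (by fun_prop) (Complex.continuous_ofReal.comp continuous_tau)

namespace IsM

variable {q : E}

theorem s_bound (h : IsM q) : -1 ≤ q.2.1 ∧ q.2.1 ≤ 1 := by
  have h1 := h.h3
  have h2 := n3_nonneg q.1
  constructor <;> nlinarith

theorem r_bound (h : IsM q) : -1 ≤ q.2.2.1 ∧ q.2.2.1 ≤ 1 := by
  have h1 := h.h5
  have h2 := n5_nonneg q.1
  constructor <;> nlinarith

theorem tau_nonneg (h : IsM q) : 0 ≤ tau q := by
  unfold tau
  have h1 := h.s_bound
  have h2 := h.r_bound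
  have : 0 ≤ (1 + q.2.1) * (1 + q.2.2.1) := mul_nonneg (by linarith) (by linarith)
  linarith

theorem tau_le (h : IsM q) : tau q ≤ 1 := by
  unfold tau
  have h1 := h.s_bound
  have h2 := h.r_bound
  nlinarith

theorem diag_im (h : IsM q) (i : Fin 4) : (q.2.2.2 i i).im = 0 := by
  have := congrArg Complex.im (h.herm i i)
  simp only [Complex.conj_im] at this
  linarith

theorem diag_eq (h : IsM q) (i : Fin 4) : q.2.2.2 i i = ((q.2.2.2 i i).re : ℂ) :=
  Complex.ext (by simp) (by simp [h.diag_im i])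

theorem normSq_eq (h : IsM q) (i j : Fin 4) :
    Complex.normSq (q.2.2.2 i j) = (q.2.2.2 i i).re * (q.2.2.2 j j).re := by
  have h1 := h.minor i j j i
  rw [h.herm i j, Complex.mul_conj, h.diag_eq i, h.diag_eq j] at h1
  exact_mod_cast h1

theorem sum_re (h : IsM q) : ∑ i, (q.2.2.2 i i).re = tau q := by
  have h1 := congrArg Complex.re h.trace
  simpa using h1

theorem diag_nonneg (h : IsM q) (i : Fin 4) : 0 ≤ (q.2.2.2 i i).re := by
  by_contra hneg
  push Not at hneg
  have hall : ∀ j, (q.2.2.2 j j).re ≤ 0 := by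
    intro j
    have h1 := h.normSq_eq i j
    have h2 := Complex.normSq_nonneg (q.2.2.2 i j)
    by_contra hj
    push Not at hj
    nlinarith
  have h3 := h.sum_re
  have h4 := h.tau_nonneg
  have h5 : ∑ j, (q.2.2.2 j j).re < ∑ _j : Fin 4, (0 : ℝ) :=
    Finset.sum_lt_sum (fun j _ => hall j) ⟨i, Finset.mem_univ _, hneg⟩
  rw [Finset.sum_const_zero] at h5
  linarith

theorem diag_le (h : IsM q) (i : Fin 4) : (q.2.2.2 i i).re ≤ tau q := by
  rw [← h.sum_re]
  exact Finset.single_le_sum (f := fun j => (q.2.2.2 j j).re) (fun j _ => h.diag_nonneg j)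
    (Finset.mem_univ i)

theorem norm_le (h : IsM q) (i j : Fin 4) : ‖q.2.2.2 i j‖ ≤ tau q := by
  have h1 := h.normSq_eq i j
  have h2 : ‖q.2.2.2 i j‖ ^ 2 ≤ tau q ^ 2 := by
    rw [← Complex.normSq_eq_norm_sq, h1, sq]
    exact mul_le_mul (h.diag_le i) (h.diag_le j) (h.diag_nonneg j) h.tau_nonneg
  exact le_of_sq_le_sq h2 h.tau_nonneg

end IsM

theorem norm_comp_le (z : V4) (i : Fin 4) : ‖z i‖ ^ 2 ≤ n3 z + n5 z := by
  rw [← sum_normSq, ← Complex.normSq_eq_norm_sq]
  exact Finset.single_le_sum (f := fun j => Complex.normSq (z j))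
    (fun j _ => Complex.normSq_nonneg _) (Finset.mem_univ i)

theorem isCompact_M : IsCompact {q : E | IsM q} := by
  apply Metric.isCompact_of_isClosed_isBounded isClosed_M
  rw [isBounded_iff_forall_norm_le]
  refine ⟨2, ?_⟩
  intro q hq
  have hq : IsM q := hq
  rw [Prod.norm_def, Prod.norm_def, Prod.norm_def]
  have hs := hq.s_bound
  have hr := hq.r_bound
  refine max_le ?_ (max_le ?_ (max_le ?_ ?_))
  · rw [pi_norm_le_iff_of_nonneg (by norm_num)]
    intro i
    have h1 := norm_comp_le q.1 i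
    have h2 := hq.h3
    have h3 := hq.h5
    nlinarith [norm_nonneg (q.1 i), sq_nonneg q.2.1, sq_nonneg q.2.2.1]
  · rw [Real.norm_eq_abs, abs_le]; constructor <;> linarith
  · rw [Real.norm_eq_abs, abs_le]; constructor <;> linarith
  · rw [pi_norm_le_iff_of_nonneg (by norm_num)]
    intro i
    rw [pi_norm_le_iff_of_nonneg (by norm_num)]
    intro j
    have h1 := hq.norm_le i j
    have h2 := hq.tau_le
    linarith

/-- The space. -/
abbrev M : Type := {q : E // IsM q}

instance : CompactSpace M := isCompact_iff_compactSpace.mp isCompact_M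

end Pool.Agent.Work.MP_2a78db_gt.A1
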