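import Pool.Agent.Work.MP_2a78db_gt.A1a

/-!
Module A1, second part: the stereographic charts.
-/

set_option autoImplicit false

namespace Pool.Agent.Work.MP_2a78db_gt.A1

open scoped Topology

/-- the matrix of a point which is not on the exceptional divisor -/
noncomputable def Aof (P : V4) (s r : ℝ) : Fin 4 → Fin 4 → ℂ := fun i j =>
  sc (1 + r) (1 + s) P i * (starRingEnd ℂ) (sc (1 + r) (1 + s) P j) / ((8 * (1 - s * r) : ℝ) : ℂ)

theorem sr_ne {s r : ℝ} (hs1 : -1 ≤ s) (hs2 : s ≤ 1) (hr1 : -1 ≤ r) (hr2 : r ≤ 1)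
    (hne : ¬ (s = 1 ∧ r = 1)) (h : 1 - s * r = 0) : s = -1 ∧ r = -1 := by
  have h1 : s * r = 1 := by linarith
  rcases lt_trichotomy s 0 with h0 | h0 | h0
  · have : s = -1 := by nlinarith
    exact ⟨this, by rw [this] at h1; linarith⟩
  · rw [h0] at h1; norm_num at h1
  · exfalso
    have : s = 1 := by nlinarith
    exact hne ⟨this, by rw [this] at h1; linarith⟩

theorem isM_Aof {P : V4} {s r : ℝ} (h3 : n3 P + s ^ 2 = 1) (h5 : n5 P + r ^ 2 = 1)
    (hne : ¬ (s = 1 ∧ r = 1)) : IsM (P, s, r, Aof P s r) := by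
  have hn3 := n3_nonneg P
  have hn5 := n5_nonneg P
  have hs1 : -1 ≤ s := by nlinarith
  have hs2 : s ≤ 1 := by nlinarith
  have hr1 : -1 ≤ r := by nlinarith
  have hr2 : r ≤ 1 := by nlinarith
  refine ⟨h3, h5, ?_, ?_, ?_, ?_⟩
  · intro i j
    simp only [Aof, map_div₀, map_mul, Complex.conj_conj, Complex.conj_ofReal]
    ring
  · intro i j k l
    simp only [Aof]
    ring
  · intro i j k
    simp only [Aof, eta]
    ring
  · simp only [Aof, tau]
    rw [← Finset.sum_div, sum_mul_conj, n3_sc, n5_sc]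
    by_cases h0 : 1 - s * r = 0
    · obtain ⟨h1, h2⟩ := sr_ne hs1 hs2 hr1 hr2 hne h0
      rw [h1, h2]; norm_num
    · have e : (1 + r) ^ 2 * n3 P + (1 + s) ^ 2 * n5 P =
          ((1 + s) * (1 + r) / 4) * (8 * (1 - s * r)) := by
        have e3 : n3 P = 1 - s ^ 2 := by linarith
        have e5 : n5 P = 1 - r ^ 2 := by linarith
        rw [e3, e5]; ring
      rw [e]
      push_cast
      have h0' : (1 - (s : ℂ) * r) ≠ 0 := by exact_mod_cast h0
      field_simp

theorem eq_zero_of_tau {q : E} (h : IsM q) (ht : tau q = 0) (i j : Fin 4) : q.2.2.2 i j = 0 := by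
  have := h.norm_le i j
  rw [ht] at this
  exact norm_le_zero_iff.mp this

theorem eta_sq {q : E} (h : IsM q) :
    n3 (eta q) + n5 (eta q) = tau q * (8 * (1 - q.2.1 * q.2.2.1)) := by
  unfold eta tau
  rw [n3_sc, n5_sc]
  have e3 : n3 q.1 = 1 - q.2.1 ^ 2 := by linarith [h.h3]
  have e5 : n5 q.1 = 1 - q.2.2.1 ^ 2 := by linarith [h.h5]
  rw [e3, e5]; ring

/-- Outside of the exceptional divisor the matrix is determined. -/
theorem A_unique {q : E} (h : IsM q) (hne : ¬ (q.2.1 = 1 ∧ q.2.2.1 = 1)) :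
    q.2.2.2 = Aof q.1 q.2.1 q.2.2.1 := by
  have hs := h.s_bound
  have hr := h.r_bound
  have hM := isM_Aof h.h3 h.h5 hne
  by_cases ht : tau q = 0
  · funext i j
    rw [eq_zero_of_tau h ht]
    exact (eq_zero_of_tau hM ht i j).symm
  · have h0 : 1 - q.2.1 * q.2.2.1 ≠ 0 := by
      intro h0
      obtain ⟨h1, h2⟩ := sr_ne hs.1 hs.2 hr.1 hr.2 hne h0
      apply ht
      simp [tau, h1]
    have h8 : ((8 * (1 - q.2.1 * q.2.2.1) : ℝ) : ℂ) ≠ 0 := by
      exact_mod_cast mul_ne_zero (by norm_num) h0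
    have htc : (tau q : ℂ) ≠ 0 := by exact_mod_cast ht
    funext i j
    have key : q.2.2.2 i j * ((n3 (eta q) + n5 (eta q) : ℝ) : ℂ) =
        (tau q : ℂ) * (eta q i * (starRingEnd ℂ) (eta q j)) := by
      rw [← sum_mul_conj, Finset.mul_sum]
      have e1 : ∀ k, q.2.2.2 i j * (eta q k * (starRingEnd ℂ) (eta q k)) =
          eta q i * (starRingEnd ℂ) (q.2.2.2 k k * eta q j) := by
        intro k
        have l1 := h.line i j k
        have l2 := h.line j k k
        calc q.2.2.2 i j * (eta q k * (starRingEnd ℂ) (eta q k))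
            = (q.2.2.2 i j * eta q k) * (starRingEnd ℂ) (eta q k) := by ring
          _ = eta q i * (q.2.2.2 k j * (starRingEnd ℂ) (eta q k)) := by rw [l1]; ring
          _ = eta q i * (starRingEnd ℂ) (q.2.2.2 j k * eta q k) := by
              rw [map_mul, h.herm j k]
          _ = eta q i * (starRingEnd ℂ) (q.2.2.2 k k * eta q j) := by rw [l2]
      rw [Finset.sum_congr rfl (fun k _ => e1 k), ← Finset.mul_sum, ← map_sum, ← Finset.sum_mul,
        h.trace, map_mul, Complex.conj_ofReal]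
      ring
    rw [eta_sq h] at key
    have key2 : q.2.2.2 i j * ((8 * (1 - q.2.1 * q.2.2.1) : ℝ) : ℂ) =
        eta q i * (starRingEnd ℂ) (eta q j) := by
      apply mul_left_cancel₀ htc
      rw [← key]
      push_cast
      ring
    rw [Aof, eq_div_iff h8]
    exact key2

/-- inverse of a stereographic chart -/
noncomputable def ptP (z : V4) : V4 := sc (2 / (1 + n3 z)) (2 / (1 + n5 z)) z

noncomputable def ptN (σ ρ : ℝ) (z : V4) : E :=
  (ptP z, σ * ((n3 z - 1) / (1 + n3 z)), ρ * ((n5 z - 1) / (1 + n5 z)),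
    Aof (ptP z) (σ * ((n3 z - 1) / (1 + n3 z))) (ρ * ((n5 z - 1) / (1 + n5 z))))

/-- a stereographic chart -/
noncomputable def toN (σ ρ : ℝ) (q : E) : V4 := sc (1 / (1 - σ * q.2.1)) (1 / (1 - ρ * q.2.2.1)) q.1

theorem one_add_n3 (z : V4) : 0 < 1 + n3 z := by have := n3_nonneg z; linarith
theorem one_add_n5 (z : V4) : 0 < 1 + n5 z := by have := n5_nonneg z; linarith

/-- Admissible signs. -/
structure Sg (σ ρ : ℝ) : Prop where
  s : σ = 1 ∨ σ = -1
  r : ρ = 1 ∨ ρ = -1
  ne : ¬ (σ = -1 ∧ ρ = -1)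

theorem Sg.ss {σ ρ : ℝ} (h : Sg σ ρ) : σ * σ = 1 := by rcases h.s with h | h <;> rw [h] <;> norm_num
theorem Sg.rr {σ ρ : ℝ} (h : Sg σ ρ) : ρ * ρ = 1 := by rcases h.r with h | h <;> rw [h] <;> norm_num

theorem frac_ne_one {x : ℝ} (hx : 0 < 1 + x) : (x - 1) / (1 + x) ≠ 1 := by
  intro h
  rw [div_eq_one_iff_eq hx.ne'] at h
  linarith

theorem isM_ptN {σ ρ : ℝ} (h : Sg σ ρ) (z : V4) : IsM (ptN σ ρ z) := by
  have h3 := one_add_n3 z
  have h5 := one_add_n5 z
  apply isM_Aof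
  · rw [ptP, n3_sc, mul_pow, sq σ, h.ss]
    field_simp
    ring
  · rw [ptP, n5_sc, mul_pow, sq ρ, h.rr]
    field_simp
    ring
  · rintro ⟨h1, h2⟩
    rcases h.s with hσ | hσ
    · rw [hσ, one_mul] at h1
      exact frac_ne_one h3 h1
    · rcases h.r with hρ | hρ
      · rw [hρ, one_mul] at h2
        exact frac_ne_one h5 h2
      · exact h.ne ⟨hσ, hρ⟩

theorem toN_ptN {σ ρ : ℝ} (h : Sg σ ρ) (z : V4) : toN σ ρ (ptN σ ρ z) = z := by
  have h3 := one_add_n3 z
  have h5 := one_add_n5 z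
  simp only [toN, ptN, ptP]
  rw [sc_sc, ← mul_assoc, ← mul_assoc, h.ss, h.rr]
  have e1 : 1 / (1 - 1 * ((n3 z - 1) / (1 + n3 z))) * (2 / (1 + n3 z)) = 1 := by
    have : 1 - 1 * ((n3 z - 1) / (1 + n3 z)) = 2 / (1 + n3 z) := by field_simp; ring
    rw [this]; field_simp
  have e2 : 1 / (1 - 1 * ((n5 z - 1) / (1 + n5 z))) * (2 / (1 + n5 z)) = 1 := by
    have : 1 - 1 * ((n5 z - 1) / (1 + n5 z)) = 2 / (1 + n5 z) := by field_simp; ring
    rw [this]; field_simp
  rw [e1, e2, sc_one]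

theorem ptN_fst_ne {σ ρ : ℝ} (h : Sg σ ρ) (z : V4) :
    (ptN σ ρ z).2.1 ≠ σ ∧ (ptN σ ρ z).2.2.1 ≠ ρ := by
  constructor
  · intro h1
    simp only [ptN] at h1
    have hσ : σ ≠ 0 := by rcases h.s with h | h <;> rw [h] <;> norm_num
    have : (n3 z - 1) / (1 + n3 z) = 1 := by
      apply mul_left_cancel₀ hσ; rw [h1, mul_one]
    exact frac_ne_one (one_add_n3 z) this
  · intro h1
    simp only [ptN] at h1
    have hσ : ρ ≠ 0 := by rcases h.r with h | h <;> rw [h] <;> norm_num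
    have : (n5 z - 1) / (1 + n5 z) = 1 := by
      apply mul_left_cancel₀ hσ; rw [h1, mul_one]
    exact frac_ne_one (one_add_n5 z) this

/-- one dimensional computation for stereographic projection -/
theorem stereo {σ s n : ℝ} (hσ : σ * σ = 1) (hn : n + s ^ 2 = 1) (hs : s ≠ σ) :
    1 - σ * s ≠ 0 ∧ 1 + (1 / (1 - σ * s)) ^ 2 * n = 2 / (1 - σ * s) ∧
    σ * (((1 / (1 - σ * s)) ^ 2 * n - 1) / (1 + (1 / (1 - σ * s)) ^ 2 * n)) = s := by
  have h0 : 1 - σ * s ≠ 0 := by
    intro h0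
    apply hs
    have : σ * (σ * s) = σ := by rw [show σ * s = 1 by linarith, mul_one]
    rw [← mul_assoc, hσ, one_mul] at this
    exact this
  have hn' : n = (1 - σ * s) * (1 + σ * s) := by
    have : (σ * s) ^ 2 = s ^ 2 := by rw [mul_pow, sq σ, hσ, one_mul]
    linear_combination hn + this
  have e1 : (1 / (1 - σ * s)) ^ 2 * n = (1 + σ * s) / (1 - σ * s) := by
    rw [hn']; field_simp
  have e2 : 1 + (1 / (1 - σ * s)) ^ 2 * n = 2 / (1 - σ * s) := by
    rw [e1]; field_simp; ring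
  refine ⟨h0, e2, ?_⟩
  rw [e2, e1]
  have : ((1 + σ * s) / (1 - σ * s) - 1) / (2 / (1 - σ * s)) = σ * s := by
    field_simp; ring
  rw [this, ← mul_assoc, hσ, one_mul]

theorem ptN_toN {σ ρ : ℝ} (h : Sg σ ρ) {q : E} (hq : IsM q) (h1 : q.2.1 ≠ σ) (h2 : q.2.2.1 ≠ ρ) :
    ptN σ ρ (toN σ ρ q) = q := by
  obtain ⟨a1, a2, a3⟩ := stereo h.ss hq.h3 h1
  obtain ⟨b1, b2, b3⟩ := stereo h.rr hq.h5 h2
  have e3 : n3 (toN σ ρ q) = (1 / (1 - σ * q.2.1)) ^ 2 * n3 q.1 := by rw [toN, n3_sc]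
  have e5 : n5 (toN σ ρ q) = (1 / (1 - ρ * q.2.2.1)) ^ 2 * n5 q.1 := by rw [toN, n5_sc]
  have eP : ptP (toN σ ρ q) = q.1 := by
    rw [ptP, e3, e5, a2, b2, toN, sc_sc]
    have c1 : 2 / (2 / (1 - σ * q.2.1)) * (1 / (1 - σ * q.2.1)) = 1 := by field_simp
    have c2 : 2 / (2 / (1 - ρ * q.2.2.1)) * (1 / (1 - ρ * q.2.2.1)) = 1 := by field_simp
    rw [c1, c2, sc_one]
  have hne : ¬ (q.2.1 = 1 ∧ q.2.2.1 = 1) := by
    rintro ⟨c1, c2⟩
    rcases h.s with hσ | hσ
    · exact h1 (by rw [c1, hσ])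
    · rcases h.r with hρ | hρ
      · exact h2 (by rw [c2, hρ])
      · exact h.ne ⟨hσ, hρ⟩
  unfold ptN
  rw [eP, e3, e5, a3, b3, ← A_unique hq hne]

theorem continuous_ptP : Continuous ptP := by
  unfold ptP
  refine continuous_sc ?_ ?_ continuous_id
  · exact continuous_const.div (continuous_const.add continuous_n3) (fun z => (one_add_n3 z).ne')
  · exact continuous_const.div (continuous_const.add continuous_n5) (fun z => (one_add_n5 z).ne')

theorem continuous_frac3 : Continuous fun z : V4 => (n3 z - 1) / (1 + n3 z) :=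
  (continuous_n3.sub continuous_const).div (continuous_const.add continuous_n3)
    (fun z => (one_add_n3 z).ne')

theorem continuous_frac5 : Continuous fun z : V4 => (n5 z - 1) / (1 + n5 z) :=
  (continuous_n5.sub continuous_const).div (continuous_const.add continuous_n5)
    (fun z => (one_add_n5 z).ne')

theorem continuous_ptN {σ ρ : ℝ} (h : Sg σ ρ) : Continuous (ptN σ ρ) := by
  have cs : Continuous fun z : V4 => σ * ((n3 z - 1) / (1 + n3 z)) :=
    continuous_const.mul continuous_frac3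
  have cr : Continuous fun z : V4 => ρ * ((n5 z - 1) / (1 + n5 z)) :=
    continuous_const.mul continuous_frac5
  have ct : Continuous fun z : V4 => tau (ptN σ ρ z) := by
    simp only [tau, ptN]
    exact ((continuous_const.add cs).mul (continuous_const.add cr)).div_const _
  unfold ptN
  refine continuous_ptP.prodMk (cs.prodMk (cr.prodMk ?_))
  apply continuous_pi
  intro i
  apply continuous_pi
  intro j
  rw [continuous_iff_continuousAt]
  intro z
  by_cases h0 : 1 - (σ * ((n3 z - 1) / (1 + n3 z))) * (ρ * ((n5 z - 1) / (1 + n5 z))) = 0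
  · have hM := isM_ptN h z
    have hne : ¬ ((ptN σ ρ z).2.1 = 1 ∧ (ptN σ ρ z).2.2.1 = 1) := by
      rintro ⟨c1, c2⟩
      have h12 := ptN_fst_ne h z
      rcases h.s with hσ | hσ
      · exact h12.1 (by rw [c1, hσ])
      · rcases h.r with hρ | hρ
        · exact h12.2 (by rw [c2, hρ])
        · exact h.ne ⟨hσ, hρ⟩
    have h1 := sr_ne hM.s_bound.1 hM.s_bound.2 hM.r_bound.1 hM.r_bound.2 hne h0
    have ht : tau (ptN σ ρ z) = 0 := by
      rw [tau, h1.1]; norm_num
    have hz : Aof (ptP z) (σ * ((n3 z - 1) / (1 + n3 z))) (ρ * ((n5 z - 1) / (1 + n5 z))) i j = 0 :=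
      eq_zero_of_tau hM ht i j
    rw [ContinuousAt, hz]
    apply squeeze_zero_norm (a := fun w => tau (ptN σ ρ w))
    · intro w
      exact (isM_ptN h w).norm_le i j
    · rw [← ht]
      exact ct.continuousAt
  · unfold Aof
    have csc : Continuous fun z : V4 => sc (1 + ρ * ((n5 z - 1) / (1 + n5 z)))
        (1 + σ * ((n3 z - 1) / (1 + n3 z))) (ptP z) :=
      continuous_sc (continuous_const.add cr) (continuous_const.add cs) continuous_ptP
    refine ContinuousAt.div ?_ ?_ ?_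
    · exact (((continuous_apply i).comp csc).mul
        (Complex.continuous_conj.comp ((continuous_apply j).comp csc))).continuousAt
    · exact (Complex.continuous_ofReal.comp
        (continuous_const.mul (continuous_const.sub (cs.mul cr)))).continuousAt
    · exact_mod_cast mul_ne_zero (by norm_num) h0

end Pool.Agent.Work.MP_2a78db_gt.A1
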