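import Pool.Agent.Work.MP_2a78db_gt.A1b

/-!
Module A1, third part: the blow-up charts.
-/

set_option autoImplicit false

namespace Pool.Agent.Work.MP_2a78db_gt.A1

open scoped Topology

/-- `w` with the entry `i` replaced by `1` -/
noncomputable def vv (i : Fin 4) (w : V4) : V4 := fun j => if j = i then 1 else w j

theorem vv_self (i : Fin 4) (w : V4) : vv i w i = 1 := by simp [vv]

theorem bl_eq (i : Fin 4) (w : V4) (j : Fin 4) : bl i w j = w i * vv i w j := by
  unfold bl vv
  split_ifs <;> simp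

/-- norm square of `vv` -/
noncomputable def vn (i : Fin 4) (w : V4) : ℝ := n3 (vv i w) + n5 (vv i w)

theorem vn_pos (i : Fin 4) (w : V4) : 0 < vn i w := by
  have h := norm_comp_le (vv i w) i
  rw [vv_self] at h
  unfold vn
  norm_num at h
  linarith

/-- inverse of a blow-up chart -/
noncomputable def ptB (i : Fin 4) (w : V4) : E :=
  (ptP (bl i w), -((n3 (bl i w) - 1) / (1 + n3 (bl i w))), -((n5 (bl i w) - 1) / (1 + n5 (bl i w))),
    fun k l => ((1 / ((1 + n3 (bl i w)) * (1 + n5 (bl i w)) * vn i w) : ℝ) : ℂ) *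
      (vv i w k * (starRingEnd ℂ) (vv i w l)))

/-- the coordinate `xi` on the model -/
noncomputable def xi (q : E) : V4 := sc (1 / (1 + q.2.1)) (1 / (1 + q.2.2.1)) q.1

theorem one_add_s3 (z : V4) : 1 + -((n3 z - 1) / (1 + n3 z)) = 2 / (1 + n3 z) := by
  have := one_add_n3 z
  field_simp; ring

theorem one_add_s5 (z : V4) : 1 + -((n5 z - 1) / (1 + n5 z)) = 2 / (1 + n5 z) := by
  have := one_add_n5 z
  field_simp; ring

theorem eta_ptB (i : Fin 4) (w : V4) :
    eta (ptB i w) = ((4 / ((1 + n3 (bl i w)) * (1 + n5 (bl i w))) : ℝ) : ℂ) • bl i w := by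
  have h3 := one_add_n3 (bl i w)
  have h5 := one_add_n5 (bl i w)
  simp only [eta, ptB, ptP]
  rw [one_add_s3, one_add_s5, sc_sc, ← sc_diag]
  congr 1
  · field_simp; norm_num
  · field_simp; norm_num

theorem isM_ptB (i : Fin 4) (w : V4) : IsM (ptB i w) := by
  have h3 := one_add_n3 (bl i w)
  have h5 := one_add_n5 (bl i w)
  have hv := vn_pos i w
  refine ⟨?_, ?_, ?_, ?_, ?_, ?_⟩
  · simp only [ptB, ptP]
    rw [n3_sc]; field_simp; ring
  · simp only [ptB, ptP]
    rw [n5_sc]; field_simp; ring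
  · intro k l
    simp only [ptB, map_mul, Complex.conj_conj, Complex.conj_ofReal]
    ring
  · intro k l m n
    simp only [ptB]
    ring
  · intro k l m
    rw [eta_ptB]
    simp only [ptB, Pi.smul_apply, smul_eq_mul, bl_eq]
    ring
  · simp only [ptB, tau]
    rw [← Finset.mul_sum, sum_mul_conj, one_add_s3, one_add_s5]
    have : (n3 (vv i w) + n5 (vv i w) : ℝ) = vn i w := rfl
    rw [this, ← Complex.ofReal_mul]
    congr 1
    field_simp
    norm_num

/-- a blow-up chart -/
noncomputable def toB (i : Fin 4) (q : E) : V4 := fun j =>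
  if j = i then xi q i else q.2.2.2 j i / q.2.2.2 i i

theorem xi_ptB (i : Fin 4) (w : V4) : xi (ptB i w) = bl i w := by
  have h3 := one_add_n3 (bl i w)
  have h5 := one_add_n5 (bl i w)
  simp only [xi, ptB, ptP]
  rw [one_add_s3, one_add_s5, sc_sc]
  have e1 : 1 / (2 / (1 + n3 (bl i w))) * (2 / (1 + n3 (bl i w))) = 1 := by field_simp
  have e2 : 1 / (2 / (1 + n5 (bl i w))) * (2 / (1 + n5 (bl i w))) = 1 := by field_simp
  rw [e1, e2, sc_one]

theorem ptB_diag_ne (i : Fin 4) (w : V4) : (ptB i w).2.2.2 i i ≠ 0 := by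
  have h3 := one_add_n3 (bl i w)
  have h5 := one_add_n5 (bl i w)
  have hv := vn_pos i w
  simp only [ptB, vv_self, map_one, mul_one]
  have : (0 : ℝ) < 1 / ((1 + n3 (bl i w)) * (1 + n5 (bl i w)) * vn i w) := by positivity
  exact_mod_cast this.ne'

theorem toB_ptB (i : Fin 4) (w : V4) : toB i (ptB i w) = w := by
  funext j
  unfold toB
  split_ifs with h
  · rw [xi_ptB, bl_eq, vv_self, mul_one, h]
  · have h1 := ptB_diag_ne i w
    rw [div_eq_iff h1]
    simp only [ptB, vv_self, map_one, mul_one]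
    rw [mul_comm]
    congr 1
    simp [vv, h]

theorem tau_ne_of_diag {q : E} (h : IsM q) {i : Fin 4} (hi : q.2.2.2 i i ≠ 0) : tau q ≠ 0 :=
  fun h0 => hi (eq_zero_of_tau h h0 i i)

theorem fin_of_tau {q : E} (ht : tau q ≠ 0) : 1 + q.2.1 ≠ 0 ∧ 1 + q.2.2.1 ≠ 0 := by
  unfold tau at ht
  constructor
  · intro h; rw [h] at ht; simp at ht
  · intro h; rw [h] at ht; simp at ht

theorem eta_eq_xi {q : E} (hf : 1 + q.2.1 ≠ 0 ∧ 1 + q.2.2.1 ≠ 0) :
    eta q = ((4 * tau q : ℝ) : ℂ) • xi q := by
  rw [← sc_diag, xi, sc_sc, eta]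
  congr 1
  · have := hf.1
    simp only [tau]; field_simp
  · have := hf.2
    simp only [tau]; field_simp

/-- in the blow-up chart, `xi` is the blow-down of the chart coordinate -/
theorem bl_toB {q : E} (h : IsM q) {i : Fin 4} (hi : q.2.2.2 i i ≠ 0) : bl i (toB i q) = xi q := by
  have ht := tau_ne_of_diag h hi
  have hf := fin_of_tau ht
  funext j
  unfold bl toB
  by_cases h1 : j = i
  · rw [if_pos h1, if_pos rfl, h1]
  · rw [if_neg h1, if_pos rfl, if_neg h1]
    have hl := h.line i i j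
    rw [eta_eq_xi hf] at hl
    simp only [Pi.smul_apply, smul_eq_mul] at hl
    have h4 : ((4 * tau q : ℝ) : ℂ) ≠ 0 := by exact_mod_cast mul_ne_zero (by norm_num) ht
    have hl' : q.2.2.2 i i * xi q j = q.2.2.2 j i * xi q i := by
      apply mul_left_cancel₀ h4
      linear_combination hl
    field_simp
    linear_combination -hl'

theorem vv_toB {q : E} {i : Fin 4} (hi : q.2.2.2 i i ≠ 0) (j : Fin 4) :
    vv i (toB i q) j = q.2.2.2 j i / q.2.2.2 i i := by
  unfold vv toB
  split_ifs with h1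
  · rw [h1, div_self hi]
  · rfl

theorem ptB_toB {q : E} (h : IsM q) {i : Fin 4} (hi : q.2.2.2 i i ≠ 0) : ptB i (toB i q) = q := by
  have ht := tau_ne_of_diag h hi
  have hf := fin_of_tau ht
  have hs : q.2.1 ≠ -1 := fun h0 => hf.1 (by rw [h0]; norm_num)
  have hr : q.2.2.1 ≠ -1 := fun h0 => hf.2 (by rw [h0]; norm_num)
  obtain ⟨a1, a2, a3⟩ := stereo (σ := -1) (by norm_num) h.h3 hs
  obtain ⟨b1, b2, b3⟩ := stereo (σ := -1) (by norm_num) h.h5 hr
  rw [show 1 - -1 * q.2.1 = 1 + q.2.1 by ring] at a1 a2 a3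
  rw [show 1 - -1 * q.2.2.1 = 1 + q.2.2.1 by ring] at b1 b2 b3
  have e3 : n3 (xi q) = (1 / (1 + q.2.1)) ^ 2 * n3 q.1 := by rw [xi, n3_sc]
  have e5 : n5 (xi q) = (1 / (1 + q.2.2.1)) ^ 2 * n5 q.1 := by rw [xi, n5_sc]
  have eP : ptP (xi q) = q.1 := by
    rw [ptP, e3, e5, a2, b2, xi, sc_sc]
    have c1 : 2 / (2 / (1 + q.2.1)) * (1 / (1 + q.2.1)) = 1 := by field_simp
    have c2 : 2 / (2 / (1 + q.2.2.1)) * (1 / (1 + q.2.2.1)) = 1 := by field_simp
    rw [c1, c2, sc_one]
  have es : -((n3 (xi q) - 1) / (1 + n3 (xi q))) = q.2.1 := by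
    rw [e3]; linarith
  have er : -((n5 (xi q) - 1) / (1 + n5 (xi q))) = q.2.2.1 := by
    rw [e5]; linarith
  -- the matrix
  have hre : q.2.2.2 i i = ((q.2.2.2 i i).re : ℂ) := h.diag_eq i
  have hre0 : (q.2.2.2 i i).re ≠ 0 := by
    intro h0; rw [h0] at hre; exact hi (by rw [hre]; simp)
  have hA : ∀ k l, q.2.2.2 k l =
      q.2.2.2 i i * (vv i (toB i q) k * (starRingEnd ℂ) (vv i (toB i q) l)) := by
    intro k l
    rw [vv_toB hi, vv_toB hi, map_div₀, ← h.herm l i]
    have hcc : (starRingEnd ℂ) (q.2.2.2 i i) = q.2.2.2 i i := (h.herm i i).symm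
    rw [hcc]
    have hm := h.minor k l i i
    field_simp
    linear_combination hm
  have htr : (tau q : ℝ) = (q.2.2.2 i i).re * vn i (toB i q) := by
    have h1 := h.trace
    rw [Finset.sum_congr rfl (fun k _ => hA k k), ← Finset.mul_sum, sum_mul_conj, hre,
      ← Complex.ofReal_mul] at h1
    exact (Complex.ofReal_injective h1).symm
  have hv := vn_pos i (toB i q)
  have ht2 : tau q = 1 / ((1 + n3 (xi q)) * (1 + n5 (xi q))) := by
    rw [e3, e5, a2, b2, tau]
    field_simp
    norm_num
  have hfin : ((1 / ((1 + n3 (xi q)) * (1 + n5 (xi q)) * vn i (toB i q)) : ℝ) : ℂ) =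
      q.2.2.2 i i := by
    rw [hre]
    congr 1
    have h3 := one_add_n3 (xi q)
    have h5 := one_add_n5 (xi q)
    rw [eq_comm, ← mul_right_cancel_iff_of_pos hv, ← htr, ht2]
    field_simp
  unfold ptB
  rw [bl_toB h hi, eP, es, er]
  refine Prod.ext rfl (Prod.ext rfl (Prod.ext rfl ?_))
  funext k l
  simp only
  rw [hfin, ← hA k l]

theorem continuous_bl (i : Fin 4) : Continuous (bl i) := by
  apply continuous_pi
  intro j
  unfold bl
  split_ifs <;> fun_prop

theorem continuous_vv (i : Fin 4) : Continuous (vv i) := by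
  apply continuous_pi
  intro j
  unfold vv
  split_ifs <;> fun_prop

theorem continuous_ptB (i : Fin 4) : Continuous (ptB i) := by
  have cb := continuous_bl i
  have cv := continuous_vv i
  have c3 := continuous_n3.comp cb
  have c5 := continuous_n5.comp cb
  have cvn : Continuous (vn i) := (continuous_n3.comp cv).add (continuous_n5.comp cv)
  unfold ptB
  refine (continuous_ptP.comp cb).prodMk (((continuous_frac3.comp cb).neg).prodMk
    (((continuous_frac5.comp cb).neg).prodMk ?_))
  apply continuous_pi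
  intro k
  apply continuous_pi
  intro l
  refine Continuous.mul ?_ ?_
  · refine Complex.continuous_ofReal.comp (Continuous.div continuous_const ?_ ?_)
    · exact ((continuous_const.add c3).mul (continuous_const.add c5)).mul cvn
    · intro w
      have h3 := one_add_n3 (bl i w)
      have h5 := one_add_n5 (bl i w)
      have hv := vn_pos i w
      positivity
  · exact ((continuous_apply k).comp cv).mul
      (Complex.continuous_conj.comp ((continuous_apply l).comp cv))

theorem continuousOn_toB (i : Fin 4) :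
    ContinuousOn (fun q : M => toB i q.1) {q | q.1.2.2.2 i i ≠ 0} := by
  have hval : Continuous fun q : M => q.1 := continuous_subtype_val
  have cxi : ContinuousOn (fun q : M => xi q.1) {q | q.1.2.2.2 i i ≠ 0} := by
    intro q hq
    have hf := fin_of_tau (tau_ne_of_diag q.2 hq)
    apply ContinuousAt.continuousWithinAt
    have c1 : ContinuousAt (fun q : M => 1 / (1 + q.1.2.1)) q :=
      ContinuousAt.div continuousAt_const (by fun_prop) hf.1
    have c2 : ContinuousAt (fun q : M => 1 / (1 + q.1.2.2.1)) q :=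
      ContinuousAt.div continuousAt_const (by fun_prop) hf.2
    have c3 : Continuous (fun p : ℝ × ℝ × V4 => sc p.1 p.2.1 p.2.2) :=
      continuous_sc (by fun_prop) (by fun_prop) (by fun_prop)
    exact c3.continuousAt.comp (c1.prodMk (c2.prodMk (continuousAt_subtype_val.fst)))
  rw [continuousOn_pi]
  intro j
  unfold toB
  by_cases h : j = i
  · simp only [if_pos h]
    exact (continuous_apply i).comp_continuousOn cxi
  · simp only [if_neg h]
    exact ContinuousOn.div (by fun_prop) (by fun_prop) (fun q hq => hq)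

theorem continuousOn_toN (σ ρ : ℝ) (hσ : σ * σ = 1) (hρ : ρ * ρ = 1) :
    ContinuousOn (fun q : M => toN σ ρ q.1) {q | q.1.2.1 ≠ σ ∧ q.1.2.2.1 ≠ ρ} := by
  intro q hq
  have h1 := (stereo hσ q.2.h3 hq.1).1
  have h2 := (stereo hρ q.2.h5 hq.2).1
  apply ContinuousAt.continuousWithinAt
  have c1 : ContinuousAt (fun q : M => 1 / (1 - σ * q.1.2.1)) q :=
    ContinuousAt.div continuousAt_const (by fun_prop) h1
  have c2 : ContinuousAt (fun q : M => 1 / (1 - ρ * q.1.2.2.1)) q :=
    ContinuousAt.div continuousAt_const (by fun_prop) h2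
  have c3 : Continuous (fun p : ℝ × ℝ × V4 => sc p.1 p.2.1 p.2.2) :=
    continuous_sc (by fun_prop) (by fun_prop) (by fun_prop)
  exact c3.continuousAt.comp (c1.prodMk (c2.prodMk (continuousAt_subtype_val.fst)))

/-- stereographic chart as a local homeomorphism -/
noncomputable def chN (σ ρ : ℝ) (h : Sg σ ρ) : OpenPartialHomeomorph M V4 where
  toFun q := toN σ ρ q.1
  invFun z := ⟨ptN σ ρ z, isM_ptN h z⟩
  source := {q | q.1.2.1 ≠ σ ∧ q.1.2.2.1 ≠ ρ}
  target := Set.univ
  map_source' _ _ := Set.mem_univ _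
  map_target' z _ := ptN_fst_ne h z
  left_inv' q hq := Subtype.ext (ptN_toN h q.2 hq.1 hq.2)
  right_inv' z _ := toN_ptN h z
  open_source := by
    have c1 : Continuous fun q : M => q.1.2.1 := by fun_prop
    have c2 : Continuous fun q : M => q.1.2.2.1 := by fun_prop
    exact (isOpen_ne_fun c1 continuous_const).inter (isOpen_ne_fun c2 continuous_const)
  open_target := isOpen_univ
  continuousOn_toFun := continuousOn_toN σ ρ h.ss h.rr
  continuousOn_invFun :=
    ((continuous_ptN h).subtype_mk (fun z => isM_ptN h z)).continuousOn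

/-- blow-up chart as a local homeomorphism -/
noncomputable def chB (i : Fin 4) : OpenPartialHomeomorph M V4 where
  toFun q := toB i q.1
  invFun z := ⟨ptB i z, isM_ptB i z⟩
  source := {q | q.1.2.2.2 i i ≠ 0}
  target := Set.univ
  map_source' _ _ := Set.mem_univ _
  map_target' z _ := ptB_diag_ne i z
  left_inv' q hq := Subtype.ext (ptB_toB q.2 hq)
  right_inv' z _ := toB_ptB i z
  open_source := by
    have c1 : Continuous fun q : M => q.1.2.2.2 i i := by fun_prop
    exact isOpen_ne_fun c1 continuous_const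
  open_target := isOpen_univ
  continuousOn_toFun := continuousOn_toB i
  continuousOn_invFun :=
    ((continuous_ptB i).subtype_mk (fun z => isM_ptB i z)).continuousOn

end Pool.Agent.Work.MP_2a78db_gt.A1
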