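import Pool.Agent.Work.MP_2a78db_gt.Common

/-!
Module B1, algebraic part: `pow4` of the standard form is positive, `pow4` is natural,
determinants of some explicit real linear maps of complex 4-space.
-/

namespace Pool.Agent.Work.MP_2a78db_gt.B1

open scoped Topology ContDiff

section general

variable {E : Type*} [NormedAddCommGroup E] [NormedSpace ℝ E]

theorem pow4_apply (α : E [⋀^Fin 2]→L[ℝ] ℝ) (v : Fin 8 → E) :
    pow4 α v = ∑ σ : Equiv.Perm (Fin 8), (Equiv.Perm.sign σ : ℤˣ) •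
      (α ![v (σ 0), v (σ 1)] * α ![v (σ 2), v (σ 3)] *
        α ![v (σ 4), v (σ 5)] * α ![v (σ 6), v (σ 7)]) := by
  simp only [pow4, wedge4, ContinuousMultilinearMap.alternatization_apply_apply]
  rfl

theorem pow4_comp (α : E [⋀^Fin 2]→L[ℝ] ℝ) (L : E →L[ℝ] E) (v : Fin 8 → E) :
    pow4 (α.compContinuousLinearMap L) v = pow4 α (fun i => L (v i)) := by
  rw [pow4_apply, pow4_apply]
  have h : ∀ x y : E, (α.compContinuousLinearMap L) ![x, y] = α ![L x, L y] := by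
    intro x y
    rw [ContinuousAlternatingMap.compContinuousLinearMap_apply]
    congr 1
    funext i
    fin_cases i <;> rfl
  simp only [h]

theorem pow4_map (α β : E [⋀^Fin 2]→L[ℝ] ℝ) (L : E → E)
    (h : ∀ x y, α ![x, y] = β ![L x, L y]) (v : Fin 8 → E) :
    pow4 α v = pow4 β (fun i => L (v i)) := by
  rw [pow4_apply, pow4_apply]
  simp only [h]

theorem pow4_of_zero (α : E [⋀^Fin 2]→L[ℝ] ℝ) (h : ∀ x y, α ![x, y] = 0) (v : Fin 8 → E) :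
    pow4 α v = 0 := by
  rw [pow4_apply]
  simp only [h]
  simp

theorem pow4_zero (v : Fin 8 → E) : pow4 (0 : E [⋀^Fin 2]→L[ℝ] ℝ) v = 0 := by
  rw [pow4_apply]
  simp

end general

theorem finrank_V4 : Module.finrank ℝ V4 = 8 := by
  have h : Module.finrank ℝ (Fin 4 → ℂ) = 8 := by
    rw [Module.finrank_pi_fintype]
    simp [Complex.finrank_real_complex]
  exact h

/-- a top form pulled back by a linear map -/
theorem top_comp (om : V4 [⋀^Fin 8]→L[ℝ] ℝ) (L : V4 →L[ℝ] V4) (v : Fin 8 → V4) :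
    om (fun i => L (v i)) = LinearMap.det (L : V4 →ₗ[ℝ] V4) * om v := by
  let e : Module.Basis (Fin 8) ℝ V4 := Module.finBasisOfFinrankEq ℝ V4 finrank_V4
  have h := AlternatingMap.eq_smul_basis_det e om.toAlternatingMap
  have h1 : ∀ w : Fin 8 → V4, om w = om e * e.det w := by
    intro w
    have := congrArg (fun f => f w) h
    simpa using this
  rw [h1, h1 v]
  have h2 := Module.Basis.det_comp e (L : V4 →ₗ[ℝ] V4) v
  have h3 : (fun i => L (v i)) = (L : V4 →ₗ[ℝ] V4) ∘ v := rfl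
  rw [h3, h2]
  ring


/-- partner in the pairing `(0 1)(2 3)(4 5)(6 7)` -/
def pr : Fin 8 → Fin 8 := ![1, 0, 3, 2, 5, 4, 7, 6]

/-- sign of a pair -/
def sg (x y : Fin 8) : ℤ := if x < y then 1 else -1

/-- matrix of the standard skew form -/
def J8 (x y : Fin 8) : ℤ := if y = pr x then sg x y else 0

theorem sg_block : ∀ x y : Fin 8, x ≠ y → pr x ≠ y →
    sg x y * sg x (pr y) * sg (pr x) y * sg (pr x) (pr y) = 1 := by decide

theorem sg_sq : ∀ x y : Fin 8, sg x y * sg x y = 1 := by decide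

theorem sign_perm8 (σ : Equiv.Perm (Fin 8)) : (σ.sign : ℤ) =
    sg (σ 0) (σ 1) * (sg (σ 0) (σ 2) * sg (σ 1) (σ 2)) *
    (sg (σ 0) (σ 3) * sg (σ 1) (σ 3) * sg (σ 2) (σ 3)) *
    (sg (σ 0) (σ 4) * sg (σ 1) (σ 4) * sg (σ 2) (σ 4) * sg (σ 3) (σ 4)) *
    (sg (σ 0) (σ 5) * sg (σ 1) (σ 5) * sg (σ 2) (σ 5) * sg (σ 3) (σ 5) * sg (σ 4) (σ 5)) *
    (sg (σ 0) (σ 6) * sg (σ 1) (σ 6) * sg (σ 2) (σ 6) * sg (σ 3) (σ 6) * sg (σ 4) (σ 6) *
      sg (σ 5) (σ 6)) *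
    (sg (σ 0) (σ 7) * sg (σ 1) (σ 7) * sg (σ 2) (σ 7) * sg (σ 3) (σ 7) * sg (σ 4) (σ 7) *
      sg (σ 5) (σ 7) * sg (σ 6) (σ 7)) := by
  rw [Equiv.Perm.sign_eq_prod_prod_Iio, Units.coe_prod]
  have h : ∀ j : Fin 8, ((∏ i ∈ Finset.Iio j, (if σ i < σ j then (1 : ℤˣ) else -1) : ℤˣ) : ℤ)
      = ∏ i ∈ Finset.Iio j, sg (σ i) (σ j) := by
    intro j
    rw [Units.coe_prod]
    refine Finset.prod_congr rfl fun i _ => ?_
    unfold sg
    split_ifs <;> rfl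
  simp only [h]
  simp only [Fin.prod_univ_eight]
  have e0 : Finset.Iio (0 : Fin 8) = ∅ := by decide
  have e1 : Finset.Iio (1 : Fin 8) = {0} := by decide
  have e2 : Finset.Iio (2 : Fin 8) = {0, 1} := by decide
  have e3 : Finset.Iio (3 : Fin 8) = {0, 1, 2} := by decide
  have e4 : Finset.Iio (4 : Fin 8) = {0, 1, 2, 3} := by decide
  have e5 : Finset.Iio (5 : Fin 8) = {0, 1, 2, 3, 4} := by decide
  have e6 : Finset.Iio (6 : Fin 8) = {0, 1, 2, 3, 4, 5} := by decide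
  have e7 : Finset.Iio (7 : Fin 8) = {0, 1, 2, 3, 4, 5, 6} := by decide
  rw [e0, e1, e2, e3, e4, e5, e6, e7]
  simp
  ring

theorem term_nonneg (σ : Equiv.Perm (Fin 8)) :
    0 ≤ (σ.sign : ℤ) *
      (J8 (σ 0) (σ 1) * J8 (σ 2) (σ 3) * J8 (σ 4) (σ 5) * J8 (σ 6) (σ 7)) := by
  by_cases h0 : σ 1 = pr (σ 0)
  swap
  · simp [J8, h0]
  by_cases h2 : σ 3 = pr (σ 2)
  swap
  · simp [J8, h2]
  by_cases h4 : σ 5 = pr (σ 4)
  swap
  · simp [J8, h4]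
  by_cases h6 : σ 7 = pr (σ 6)
  swap
  · simp [J8, h6]
  have inj : ∀ i j : Fin 8, i ≠ j → σ i ≠ σ j := fun i j hij h => hij (σ.injective h)
  have b1 := sg_block (σ 0) (σ 2) (inj _ _ (by decide)) (h0 ▸ inj 1 2 (by decide))
  have b2 := sg_block (σ 0) (σ 4) (inj _ _ (by decide)) (h0 ▸ inj 1 4 (by decide))
  have b3 := sg_block (σ 0) (σ 6) (inj _ _ (by decide)) (h0 ▸ inj 1 6 (by decide))
  have b4 := sg_block (σ 2) (σ 4) (inj _ _ (by decide)) (h2 ▸ inj 3 4 (by decide))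
  have b5 := sg_block (σ 2) (σ 6) (inj _ _ (by decide)) (h2 ▸ inj 3 6 (by decide))
  have b6 := sg_block (σ 4) (σ 6) (inj _ _ (by decide)) (h4 ▸ inj 5 6 (by decide))
  rw [← h0, ← h2] at b1
  rw [← h0, ← h4] at b2
  rw [← h0, ← h6] at b3
  rw [← h2, ← h4] at b4
  rw [← h2, ← h6] at b5
  rw [← h4, ← h6] at b6
  have j0 : J8 (σ 0) (σ 1) = sg (σ 0) (σ 1) := by simp [J8, h0]
  have j2 : J8 (σ 2) (σ 3) = sg (σ 2) (σ 3) := by simp [J8, h2]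
  have j4 : J8 (σ 4) (σ 5) = sg (σ 4) (σ 5) := by simp [J8, h4]
  have j6 : J8 (σ 6) (σ 7) = sg (σ 6) (σ 7) := by simp [J8, h6]
  rw [sign_perm8, j0, j2, j4, j6]
  have key : (sg (σ 0) (σ 1) * (sg (σ 0) (σ 2) * sg (σ 1) (σ 2)) *
    (sg (σ 0) (σ 3) * sg (σ 1) (σ 3) * sg (σ 2) (σ 3)) *
    (sg (σ 0) (σ 4) * sg (σ 1) (σ 4) * sg (σ 2) (σ 4) * sg (σ 3) (σ 4)) *
    (sg (σ 0) (σ 5) * sg (σ 1) (σ 5) * sg (σ 2) (σ 5) * sg (σ 3) (σ 5) * sg (σ 4) (σ 5)) *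
    (sg (σ 0) (σ 6) * sg (σ 1) (σ 6) * sg (σ 2) (σ 6) * sg (σ 3) (σ 6) * sg (σ 4) (σ 6) *
      sg (σ 5) (σ 6)) *
    (sg (σ 0) (σ 7) * sg (σ 1) (σ 7) * sg (σ 2) (σ 7) * sg (σ 3) (σ 7) * sg (σ 4) (σ 7) *
      sg (σ 5) (σ 7) * sg (σ 6) (σ 7))) *
    (sg (σ 0) (σ 1) * sg (σ 2) (σ 3) * sg (σ 4) (σ 5) * sg (σ 6) (σ 7)) =
    (sg (σ 0) (σ 2) * sg (σ 0) (σ 3) * sg (σ 1) (σ 2) * sg (σ 1) (σ 3)) *
    (sg (σ 0) (σ 4) * sg (σ 0) (σ 5) * sg (σ 1) (σ 4) * sg (σ 1) (σ 5)) *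
    (sg (σ 0) (σ 6) * sg (σ 0) (σ 7) * sg (σ 1) (σ 6) * sg (σ 1) (σ 7)) *
    (sg (σ 2) (σ 4) * sg (σ 2) (σ 5) * sg (σ 3) (σ 4) * sg (σ 3) (σ 5)) *
    (sg (σ 2) (σ 6) * sg (σ 2) (σ 7) * sg (σ 3) (σ 6) * sg (σ 3) (σ 7)) *
    (sg (σ 4) (σ 6) * sg (σ 4) (σ 7) * sg (σ 5) (σ 6) * sg (σ 5) (σ 7)) *
    (sg (σ 0) (σ 1) * sg (σ 0) (σ 1)) * (sg (σ 2) (σ 3) * sg (σ 2) (σ 3)) *
    (sg (σ 4) (σ 5) * sg (σ 4) (σ 5)) * (sg (σ 6) (σ 7) * sg (σ 6) (σ 7)) := by ring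
  rw [key, b1, b2, b3, b4, b5, b6, sg_sq, sg_sq, sg_sq, sg_sq]
  norm_num

/-! ### Alternating 2-forms from bilinear forms -/

/-- `one` as a continuous linear map -/
noncomputable def oneL : (V4 →L[ℝ] ℝ) →L[ℝ] (V4 [⋀^Fin 1]→L[ℝ] ℝ) :=
  (ContinuousAlternatingMap.ofSubsingletonLIE (𝕜 := ℝ) (E := V4) (F := ℝ)
    (0 : Fin 1)).toContinuousLinearEquiv.toContinuousLinearMap

theorem oneL_apply (f : V4 →L[ℝ] ℝ) : oneL f = one f := rfl

theorem one_apply (f : V4 →L[ℝ] ℝ) (v : Fin 1 → V4) : one f v = f (v 0) := rfl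

theorem one_sub (f g : V4 →L[ℝ] ℝ) : one (f - g) = one f - one g := by
  rw [← oneL_apply, ← oneL_apply, ← oneL_apply, map_sub]

theorem one_comp (f : V4 →L[ℝ] ℝ) (L : V4 →L[ℝ] V4) :
    (one f).compContinuousLinearMap L = one (f ∘L L) := by
  ext v
  rfl

/-- the alternating form `B v w - B w v` -/
noncomputable def altOf (B : V4 →L[ℝ] V4 →L[ℝ] ℝ) : V4 [⋀^Fin 2]→L[ℝ] ℝ :=
  ContinuousAlternatingMap.alternatizeUncurryFin (oneL ∘L B)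

theorem altOf_apply (B : V4 →L[ℝ] V4 →L[ℝ] ℝ) (v w : V4) :
    altOf B ![v, w] = B v w - B w v := by
  rw [altOf, ContinuousAlternatingMap.alternatizeUncurryFin_apply]
  simp [Fin.sum_univ_two, oneL_apply, one_apply, Fin.removeNth]
  ring

theorem ext2 {E : Type*} [NormedAddCommGroup E] [NormedSpace ℝ E] {α β : E [⋀^Fin 2]→L[ℝ] ℝ}
    (h : ∀ v w, α ![v, w] = β ![v, w]) : α = β := by
  ext v
  have : v = ![v 0, v 1] := by
    funext i; fin_cases i <;> rfl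
  rw [this, h]

theorem comp_apply2 {E : Type*} [NormedAddCommGroup E] [NormedSpace ℝ E]
    (α : E [⋀^Fin 2]→L[ℝ] ℝ) (L : E →L[ℝ] E) (x y : E) :
    (α.compContinuousLinearMap L) ![x, y] = α ![L x, L y] := by
  rw [ContinuousAlternatingMap.compContinuousLinearMap_apply]
  congr 1
  funext i
  fin_cases i <;> rfl

/-- the standard skew form, `v, w ↦ ∑ Im (conj v_j * w_j)` -/
noncomputable def Th : V4 →L[ℝ] V4 →L[ℝ] ℝ := stdForm fun _ => 1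

theorem Th_apply (v w : V4) : Th v w =
    ((v 0).re * (w 0).im - (v 0).im * (w 0).re) + ((v 1).re * (w 1).im - (v 1).im * (w 1).re) +
    ((v 2).re * (w 2).im - (v 2).im * (w 2).re) + ((v 3).re * (w 3).im - (v 3).im * (w 3).re) := by
  rw [Th, stdForm_apply]
  simp [Fin.sum_univ_four]
  ring

theorem Th_skew (v w : V4) : Th w v = - Th v w := by
  rw [Th_apply, Th_apply]; ring

/-- twice the standard form -/
noncomputable def stdAlt : V4 [⋀^Fin 2]→L[ℝ] ℝ := altOf Th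

theorem stdAlt_apply (v w : V4) : stdAlt ![v, w] = 2 * Th v w := by
  rw [stdAlt, altOf_apply, Th_skew v w]; ring

theorem Th_stdB (a b : Fin 8) : Th (stdB a) (stdB b) = (J8 a b : ℝ) := by
  rw [Th_apply]
  fin_cases a <;> fin_cases b <;> simp [stdB, J8, pr, sg]

theorem pow4_stdAlt_pos : 0 < pow4 stdAlt stdB := by
  rw [pow4_apply]
  have h : ∀ σ : Equiv.Perm (Fin 8), (Equiv.Perm.sign σ : ℤˣ) •
      (stdAlt ![stdB (σ 0), stdB (σ 1)] * stdAlt ![stdB (σ 2), stdB (σ 3)] *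
        stdAlt ![stdB (σ 4), stdB (σ 5)] * stdAlt ![stdB (σ 6), stdB (σ 7)]) =
      16 * (((σ.sign : ℤ) *
      (J8 (σ 0) (σ 1) * J8 (σ 2) (σ 3) * J8 (σ 4) (σ 5) * J8 (σ 6) (σ 7)) : ℤ) : ℝ) := by
    intro σ
    simp only [stdAlt_apply, Th_stdB, Units.smul_def, zsmul_eq_mul]
    push_cast
    ring
  simp only [h]
  refine Finset.sum_pos' (fun σ _ => ?_) ⟨1, Finset.mem_univ _, ?_⟩
  · have := term_nonneg σ
    have h2 : (0 : ℝ) ≤ (((σ.sign : ℤ) *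
      (J8 (σ 0) (σ 1) * J8 (σ 2) (σ 3) * J8 (σ 4) (σ 5) * J8 (σ 6) (σ 7)) : ℤ) : ℝ) := by
      exact_mod_cast this
    linarith
  · have : J8 0 1 * J8 2 3 * J8 4 5 * J8 6 7 = 1 := by decide
    simp [this]

theorem pow4_map4 (α β : V4 [⋀^Fin 2]→L[ℝ] ℝ) (L : V4 →L[ℝ] V4)
    (h : ∀ x y, α ![x, y] = β ![L x, L y]) :
    pow4 α stdB = LinearMap.det (L : V4 →ₗ[ℝ] V4) * pow4 β stdB := by
  have h1 : pow4 α stdB = pow4 β (fun i => L (stdB i)) := pow4_map α β L h stdB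
  have h2 : pow4 β (fun i => L (stdB i)) = LinearMap.det (L : V4 →ₗ[ℝ] V4) * pow4 β stdB :=
    top_comp (pow4 β) L stdB
  exact h1.trans h2

theorem pow4_zero4 (α : V4 [⋀^Fin 2]→L[ℝ] ℝ) (h : ∀ x y, α ![x, y] = 0) :
    pow4 α stdB = 0 := pow4_of_zero α h stdB

end Pool.Agent.Work.MP_2a78db_gt.B1
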