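import Pool.Agent.Work.MP_2a78db_gt.B1a

/-!
Module B1: real inner product, projections, derivatives of the two inversions, determinants.
-/

namespace Pool.Agent.Work.MP_2a78db_gt.B1

open scoped Topology ContDiff

/-- multiplication by `i` -/
noncomputable def mI : V4 →L[ℝ] V4 := (Complex.I : ℂ) • ContinuousLinearMap.id ℝ V4

/-- real inner product -/
noncomputable def ip : V4 →L[ℝ] V4 →L[ℝ] ℝ :=
  Th.bilinearComp (ContinuousLinearMap.id ℝ V4) mI

theorem ip_apply (v w : V4) : ip v w =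
    ((v 0).re * (w 0).re + (v 0).im * (w 0).im) + ((v 1).re * (w 1).re + (v 1).im * (w 1).im) +
    ((v 2).re * (w 2).re + (v 2).im * (w 2).im) + ((v 3).re * (w 3).re + (v 3).im * (w 3).im) := by
  have h : ip v w = Th v (Complex.I • w) := rfl
  rw [h, Th_apply]
  simp

theorem ip_comm (v w : V4) : ip v w = ip w v := by
  rw [ip_apply, ip_apply]; ring

/-- squared norm -/
noncomputable def nn (z : V4) : ℝ := ip z z

theorem nn_eq (z : V4) : nn z = n3 z + n5 z := by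
  rw [nn, ip_apply, n3, n5]; ring

theorem n3_nonneg (z : V4) : 0 ≤ n3 z := by unfold n3; positivity

theorem n5_nonneg (z : V4) : 0 ≤ n5 z := by unfold n5; positivity

/-- projection to the first factor -/
noncomputable def p3 : V4 →L[ℝ] V4 := LinearMap.toContinuousLinearMap
  { toFun := fun z => ![z 0, ((z 1).re : ℂ), 0, 0]
    map_add' := fun x y => by
      funext i; fin_cases i <;> simp
    map_smul' := fun t x => by
      funext i; fin_cases i <;> simp }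

theorem p3_apply (z : V4) : p3 z = ![z 0, ((z 1).re : ℂ), 0, 0] := rfl

/-- projection to the second factor -/
noncomputable def p5 : V4 →L[ℝ] V4 := ContinuousLinearMap.id ℝ V4 - p3

theorem p5_apply (z : V4) : p5 z = ![0, ((z 1).im : ℂ) * Complex.I, z 2, z 3] := by
  have h : p5 z = z - p3 z := rfl
  rw [h, p3_apply]
  funext i
  fin_cases i
  · simp
  · apply Complex.ext <;> simp
  · simp
  · simp

theorem inv3_eq (z : V4) : inv3 z = (n3 z)⁻¹ • p3 z + p5 z := by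
  rw [p3_apply, p5_apply, inv3]
  funext i
  fin_cases i <;> apply Complex.ext <;> simp <;> ring

theorem inv5_eq (z : V4) : inv5 z = p3 z + (n5 z)⁻¹ • p5 z := by
  rw [p3_apply, p5_apply, inv5]
  funext i
  fin_cases i <;> apply Complex.ext <;> simp <;> ring

theorem n3_eq (z : V4) : n3 z = ip (p3 z) z := by
  rw [ip_apply, p3_apply, n3]; simp; ring

theorem n5_eq (z : V4) : n5 z = ip (p5 z) z := by
  rw [ip_apply, p5_apply, n5]; simp; ring

theorem ip_p3 (v w : V4) : ip v (p3 w) = ip (p3 v) w := by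
  rw [ip_apply, ip_apply, p3_apply, p3_apply]; simp

theorem ip_p5 (v w : V4) : ip v (p5 w) = ip (p5 v) w := by
  rw [ip_apply, ip_apply, p5_apply, p5_apply]; simp

theorem hasFDerivAt_nn (z : V4) : HasFDerivAt nn ((2 : ℝ) • ip z) z := by
  have h := (ip.hasFDerivAt (x := z)).clm_apply (hasFDerivAt_id z)
  refine h.congr_fderiv ?_
  ext v
  simp [ip_comm v z]
  ring

theorem hasFDerivAt_n3 (z : V4) : HasFDerivAt n3 ((2 : ℝ) • ip (p3 z)) z := by
  have h := ((ip ∘L p3).hasFDerivAt (x := z)).clm_apply (hasFDerivAt_id z)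
  have e : n3 = fun y => ((ip ∘L p3) y) (id y) := by
    funext y; exact n3_eq y
  rw [e]
  refine h.congr_fderiv ?_
  ext v
  simp only [ContinuousLinearMap.add_apply, ContinuousLinearMap.comp_apply,
    ContinuousLinearMap.flip_apply, ContinuousLinearMap.smul_apply, id_eq,
    ContinuousLinearMap.id_apply, smul_eq_mul]
  rw [ip_comm (p3 v) z, ip_p3]
  ring

theorem hasFDerivAt_n5 (z : V4) : HasFDerivAt n5 ((2 : ℝ) • ip (p5 z)) z := by
  have h := ((ip ∘L p5).hasFDerivAt (x := z)).clm_apply (hasFDerivAt_id z)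
  have e : n5 = fun y => ((ip ∘L p5) y) (id y) := by
    funext y; exact n5_eq y
  rw [e]
  refine h.congr_fderiv ?_
  ext v
  simp only [ContinuousLinearMap.add_apply, ContinuousLinearMap.comp_apply,
    ContinuousLinearMap.flip_apply, ContinuousLinearMap.smul_apply, id_eq,
    ContinuousLinearMap.id_apply, smul_eq_mul]
  rw [ip_comm (p5 v) z, ip_p5]
  ring

theorem contDiff_nn : ContDiff ℝ ∞ nn := by
  have : nn = fun z => ip z z := rfl
  rw [this]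
  exact (ip.contDiff).clm_apply contDiff_id

theorem contDiff_n3 : ContDiff ℝ ∞ n3 := by
  have e : n3 = fun y => ((ip ∘L p3) y) y := by
    funext y; exact n3_eq y
  rw [e]
  exact ((ip ∘L p3).contDiff).clm_apply contDiff_id

theorem contDiff_n5 : ContDiff ℝ ∞ n5 := by
  have e : n5 = fun y => ((ip ∘L p5) y) y := by
    funext y; exact n5_eq y
  rw [e]
  exact ((ip ∘L p5).contDiff).clm_apply contDiff_id

theorem hasFDerivAt_inv3 {z : V4} (hz : n3 z ≠ 0) :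
    HasFDerivAt inv3 ((n3 z)⁻¹ • p3 + (-(2 : ℝ) * (n3 z ^ 2)⁻¹) • (ip (p3 z)).smulRight (p3 z) + p5)
      z := by
  have e : inv3 = fun y => (n3 y)⁻¹ • p3 y + p5 y := by
    funext y; exact inv3_eq y
  rw [e]
  have h1 := ((hasDerivAt_inv hz).comp_hasFDerivAt z (hasFDerivAt_n3 z)).smul
    (p3.hasFDerivAt (x := z))
  refine (h1.add (p5.hasFDerivAt (x := z))).congr_fderiv ?_
  ext v : 1
  simp only [Function.comp_apply, ContinuousLinearMap.add_apply, ContinuousLinearMap.smul_apply,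
    ContinuousLinearMap.smulRight_apply, smul_smul, smul_eq_mul]
  congr 3
  ring

theorem hasFDerivAt_inv5 {z : V4} (hz : n5 z ≠ 0) :
    HasFDerivAt inv5 (p3 + ((n5 z)⁻¹ • p5 + (-(2 : ℝ) * (n5 z ^ 2)⁻¹) • (ip (p5 z)).smulRight (p5 z)))
      z := by
  have e : inv5 = fun y => p3 y + (n5 y)⁻¹ • p5 y := by
    funext y; exact inv5_eq y
  rw [e]
  have h1 := ((hasDerivAt_inv hz).comp_hasFDerivAt z (hasFDerivAt_n5 z)).smul
    (p5.hasFDerivAt (x := z))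
  refine ((p3.hasFDerivAt (x := z)).add h1).congr_fderiv ?_
  ext v : 1
  simp only [Function.comp_apply, ContinuousLinearMap.add_apply, ContinuousLinearMap.smul_apply,
    ContinuousLinearMap.smulRight_apply, smul_smul, smul_eq_mul]
  congr 4
  ring

theorem contDiffAt_inv3 {z : V4} (hz : n3 z ≠ 0) : ContDiffAt ℝ ∞ inv3 z := by
  have e : inv3 = fun y => (n3 y)⁻¹ • p3 y + p5 y := by
    funext y; exact inv3_eq y
  rw [e]
  exact ((contDiff_n3.contDiffAt.inv hz).smul p3.contDiff.contDiffAt).add p5.contDiff.contDiffAt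

theorem contDiffAt_inv5 {z : V4} (hz : n5 z ≠ 0) : ContDiffAt ℝ ∞ inv5 z := by
  have e : inv5 = fun y => p3 y + (n5 y)⁻¹ • p5 y := by
    funext y; exact inv5_eq y
  rw [e]
  exact p3.contDiff.contDiffAt.add ((contDiff_n5.contDiffAt.inv hz).smul p5.contDiff.contDiffAt)

/-! ### determinants -/

/-- scaling of the two factors -/
noncomputable def sc (a b : ℝ) : V4 →L[ℝ] V4 := a • p3 + b • p5

theorem p3_p3 (z : V4) : p3 (p3 z) = p3 z := by
  simp [p3_apply]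

theorem p5_p5 (z : V4) : p5 (p5 z) = p5 z := by
  simp [p5_apply]

theorem p3_p5 (z : V4) : p3 (p5 z) = 0 := by
  rw [p5_apply, p3_apply]
  funext i; fin_cases i <;> simp

theorem p5_p3 (z : V4) : p5 (p3 z) = 0 := by
  rw [p5_apply, p3_apply]
  funext i; fin_cases i <;> simp

theorem p3_add_p5 (z : V4) : p3 z + p5 z = z := by
  have h : p5 z = z - p3 z := rfl
  rw [h]; abel

theorem sc_apply (a b : ℝ) (z : V4) : sc a b z = a • p3 z + b • p5 z := rfl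

theorem sc_sc (a b c d : ℝ) (z : V4) : sc a b (sc c d z) = sc (a * c) (b * d) z := by
  simp only [sc_apply, map_add, map_smul, p3_p3, p5_p5, p3_p5, p5_p3, smul_zero, add_zero,
    zero_add, smul_smul]
  rw [mul_comm c a, mul_comm d b]

theorem det_sc_pos {a b : ℝ} (ha : 0 < a) (hb : 0 < b) :
    0 < LinearMap.det (sc a b : V4 →ₗ[ℝ] V4) := by
  have h1 : (sc a b : V4 →ₗ[ℝ] V4) =
      (sc (√a) (√b) : V4 →ₗ[ℝ] V4) ∘ₗ (sc (√a) (√b) : V4 →ₗ[ℝ] V4) := by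
    refine LinearMap.ext fun z => ?_
    have := sc_sc (√a) (√b) (√a) (√b) z
    rw [Real.mul_self_sqrt ha.le, Real.mul_self_sqrt hb.le] at this
    exact this.symm
  have h2 : (sc (√a)⁻¹ (√b)⁻¹ : V4 →ₗ[ℝ] V4) ∘ₗ (sc (√a) (√b) : V4 →ₗ[ℝ] V4) =
      LinearMap.id := by
    refine LinearMap.ext fun z => ?_
    have := sc_sc (√a)⁻¹ (√b)⁻¹ (√a) (√b) z
    rw [inv_mul_cancel₀ (Real.sqrt_pos.2 ha).ne', inv_mul_cancel₀ (Real.sqrt_pos.2 hb).ne'] at this
    refine this.trans ?_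
    rw [sc_apply, one_smul, one_smul, p3_add_p5]
    rfl
  have h3 : LinearMap.det (sc (√a) (√b) : V4 →ₗ[ℝ] V4) ≠ 0 := by
    intro h
    have := congrArg LinearMap.det h2
    rw [LinearMap.det_comp, h, mul_zero, LinearMap.det_id] at this
    exact zero_ne_one this
  rw [h1, LinearMap.det_comp]
  exact mul_self_pos.2 h3

theorem det_inv3_neg {z : V4} (hz : n3 z ≠ 0) :
    LinearMap.det (fderiv ℝ inv3 z : V4 →ₗ[ℝ] V4) < 0 := by
  have hpos : 0 < n3 z := lt_of_le_of_ne (n3_nonneg z) hz.symm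
  rw [(hasFDerivAt_inv3 hz).fderiv]
  have h : (((n3 z)⁻¹ • p3 + (-(2 : ℝ) * (n3 z ^ 2)⁻¹) • (ip (p3 z)).smulRight (p3 z) + p5 :
      V4 →L[ℝ] V4) : V4 →ₗ[ℝ] V4) = (sc (n3 z)⁻¹ 1 : V4 →ₗ[ℝ] V4) ∘ₗ
      LinearMap.transvection (((-(2 : ℝ) * (n3 z)⁻¹) • ip (p3 z) : V4 →L[ℝ] ℝ) : V4 →ₗ[ℝ] ℝ)
        (p3 z) := by
    refine LinearMap.ext fun v => ?_
    have e1 : ((sc (n3 z)⁻¹ 1 : V4 →ₗ[ℝ] V4) ∘ₗ
      LinearMap.transvection (((-(2 : ℝ) * (n3 z)⁻¹) • ip (p3 z) : V4 →L[ℝ] ℝ) : V4 →ₗ[ℝ] ℝ)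
        (p3 z)) v = sc (n3 z)⁻¹ 1 (v + (-(2 : ℝ) * (n3 z)⁻¹ * ip (p3 z) v) • p3 z) := rfl
    rw [e1, sc_apply]
    simp only [map_add, map_smul, p3_p3, p5_p3, smul_zero, add_zero, one_smul, smul_add, smul_smul,
      ContinuousLinearMap.coe_coe, ContinuousLinearMap.add_apply, ContinuousLinearMap.smul_apply,
      ContinuousLinearMap.smulRight_apply]
    congr 3
    field_simp
  rw [h, LinearMap.det_comp, LinearMap.transvection.det]
  have h2 : 1 + (((-(2 : ℝ) * (n3 z)⁻¹) • ip (p3 z) : V4 →L[ℝ] ℝ) : V4 →ₗ[ℝ] ℝ) (p3 z) = -1 := by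
    have : (((-(2 : ℝ) * (n3 z)⁻¹) • ip (p3 z) : V4 →L[ℝ] ℝ) : V4 →ₗ[ℝ] ℝ) (p3 z) =
      (-(2 : ℝ) * (n3 z)⁻¹) * ip (p3 z) (p3 z) := rfl
    rw [this, ip_p3, p3_p3, ← n3_eq]
    field_simp
    norm_num
  rw [h2]
  have := det_sc_pos (inv_pos.2 hpos) one_pos
  linarith

theorem det_inv5_neg {z : V4} (hz : n5 z ≠ 0) :
    LinearMap.det (fderiv ℝ inv5 z : V4 →ₗ[ℝ] V4) < 0 := by
  have hpos : 0 < n5 z := lt_of_le_of_ne (n5_nonneg z) hz.symm
  rw [(hasFDerivAt_inv5 hz).fderiv]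
  have h : ((p3 + ((n5 z)⁻¹ • p5 + (-(2 : ℝ) * (n5 z ^ 2)⁻¹) • (ip (p5 z)).smulRight (p5 z)) :
      V4 →L[ℝ] V4) : V4 →ₗ[ℝ] V4) = (sc 1 (n5 z)⁻¹ : V4 →ₗ[ℝ] V4) ∘ₗ
      LinearMap.transvection (((-(2 : ℝ) * (n5 z)⁻¹) • ip (p5 z) : V4 →L[ℝ] ℝ) : V4 →ₗ[ℝ] ℝ)
        (p5 z) := by
    refine LinearMap.ext fun v => ?_
    have e1 : ((sc 1 (n5 z)⁻¹ : V4 →ₗ[ℝ] V4) ∘ₗ
      LinearMap.transvection (((-(2 : ℝ) * (n5 z)⁻¹) • ip (p5 z) : V4 →L[ℝ] ℝ) : V4 →ₗ[ℝ] ℝ)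
        (p5 z)) v = sc 1 (n5 z)⁻¹ (v + (-(2 : ℝ) * (n5 z)⁻¹ * ip (p5 z) v) • p5 z) := rfl
    rw [e1, sc_apply]
    simp only [map_add, map_smul, p5_p5, p3_p5, smul_zero, add_zero, one_smul, smul_add, smul_smul,
      ContinuousLinearMap.coe_coe, ContinuousLinearMap.add_apply, ContinuousLinearMap.smul_apply,
      ContinuousLinearMap.smulRight_apply]
    congr 3
    field_simp
  rw [h, LinearMap.det_comp, LinearMap.transvection.det]
  have h2 : 1 + (((-(2 : ℝ) * (n5 z)⁻¹) • ip (p5 z) : V4 →L[ℝ] ℝ) : V4 →ₗ[ℝ] ℝ) (p5 z) = -1 := by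
    have : (((-(2 : ℝ) * (n5 z)⁻¹) • ip (p5 z) : V4 →L[ℝ] ℝ) : V4 →ₗ[ℝ] ℝ) (p5 z) =
      (-(2 : ℝ) * (n5 z)⁻¹) * ip (p5 z) (p5 z) := rfl
    rw [this, ip_p5, p5_p5, ← n5_eq]
    field_simp
    norm_num
  rw [h2]
  have := det_sc_pos one_pos (inv_pos.2 hpos)
  linarith

/-- determinant of the map used for the sign of the fourth power -/
theorem det_rank_one (c t : ℝ) (ξ : V4) :
    LinearMap.det ((c • (ContinuousLinearMap.id ℝ V4 + (t • ip ξ).smulRight ξ) : V4 →L[ℝ] V4) :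
      V4 →ₗ[ℝ] V4) = c ^ 8 * (1 + t * nn ξ) := by
  have h : ((c • (ContinuousLinearMap.id ℝ V4 + (t • ip ξ).smulRight ξ) : V4 →L[ℝ] V4) :
      V4 →ₗ[ℝ] V4) = c • LinearMap.transvection ((t • ip ξ : V4 →L[ℝ] ℝ) : V4 →ₗ[ℝ] ℝ) ξ := rfl
  rw [h, LinearMap.det_smul, LinearMap.transvection.det, finrank_V4]
  rfl

end Pool.Agent.Work.MP_2a78db_gt.B1
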