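import Pool.Agent.Work.MP_2a78db_gt.B1b

/-!
Module B1: the cutoff function, the 1-form `be` in the coordinate `ξ`, its exterior derivative and
the sign of its fourth power.
-/

namespace Pool.Agent.Work.MP_2a78db_gt.B1

open scoped Topology ContDiff

/-- smooth cutoff, `1` on `s ≤ 1` and `0` on `s ≥ 2` -/
noncomputable def rh (s : ℝ) : ℝ := Real.smoothTransition (2 - s)

theorem rh_contDiff : ContDiff ℝ ∞ rh :=
  Real.smoothTransition.contDiff.comp (contDiff_const.sub contDiff_id)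

theorem rh_one {s : ℝ} (h : s ≤ 1) : rh s = 1 :=
  Real.smoothTransition.one_of_one_le (by linarith)

theorem rh_zero {s : ℝ} (h : 2 ≤ s) : rh s = 0 :=
  Real.smoothTransition.zero_of_nonpos (by linarith)

theorem rh_nonneg (s : ℝ) : 0 ≤ rh s := Real.smoothTransition.nonneg _

theorem rh_pos {s : ℝ} (h : s < 2) : 0 < rh s := Real.smoothTransition.pos_of_pos (by linarith)

theorem rh_antitone : Antitone rh := fun a b hab =>
  Real.smoothTransition.monotone (by linarith)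

theorem rh_deriv_nonpos (s : ℝ) : deriv rh s ≤ 0 := rh_antitone.deriv_nonpos

theorem exists_deriv_neg : ∃ s : ℝ, 0 < s ∧ s < 2 ∧ deriv rh s < 0 := by
  obtain ⟨c, hc, h⟩ := exists_deriv_eq_slope rh (one_lt_two : (1 : ℝ) < 2)
    rh_contDiff.continuous.continuousOn
    ((rh_contDiff.differentiable (by simp)).differentiableOn)
  refine ⟨c, by linarith [hc.1], hc.2, ?_⟩
  rw [h, rh_one le_rfl, rh_zero le_rfl]
  norm_num

theorem rh_hasDerivAt (s : ℝ) : HasDerivAt rh (deriv rh s) s :=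
  ((rh_contDiff.differentiable (by simp)) s).hasDerivAt

/-- `rh s / s` -/
noncomputable def gf (s : ℝ) : ℝ := rh s / s

/-- `(rh s - 1) / s` -/
noncomputable def hf (s : ℝ) : ℝ := (rh s - 1) / s

theorem gf_contDiffAt {s : ℝ} (hs : s ≠ 0) : ContDiffAt ℝ ∞ gf s :=
  rh_contDiff.contDiffAt.div contDiffAt_id hs

theorem gf_zero {s : ℝ} (hs : 2 ≤ s) : gf s = 0 := by rw [gf, rh_zero hs, zero_div]

theorem hf_contDiff : ContDiff ℝ ∞ hf := by
  rw [contDiff_iff_contDiffAt]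
  intro s
  by_cases hs : s = 0
  · have h : hf =ᶠ[𝓝 s] fun _ => 0 := by
      filter_upwards [Iio_mem_nhds (show s < 1 by rw [hs]; norm_num)] with y hy
      rw [hf, rh_one (le_of_lt hy), sub_self, zero_div]
    exact contDiffAt_const.congr_of_eventuallyEq h
  · exact (rh_contDiff.contDiffAt.sub contDiffAt_const).div contDiffAt_id hs

/-- the derivative of `gf` -/
theorem gf_hasDerivAt {s : ℝ} (hs : s ≠ 0) :
    HasDerivAt gf ((deriv rh s * s - rh s * 1) / s ^ 2) s :=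
  (rh_hasDerivAt s).div (hasDerivAt_id s) hs

/-- the 1-form in the coordinate `ξ` -/
noncomputable def be (ξ : V4) : V4 →L[ℝ] ℝ := gf (nn ξ) • Th ξ

theorem be_contDiffAt {ξ : V4} (h : nn ξ ≠ 0) : ContDiffAt ℝ ∞ be ξ :=
  ((gf_contDiffAt h).comp ξ contDiff_nn.contDiffAt).smul Th.contDiff.contDiffAt

theorem be_zero {ξ : V4} (h : 2 ≤ nn ξ) : be ξ = 0 := by
  rw [be, gf_zero h, zero_smul]

theorem be_hasFDerivAt {ξ : V4} (h : nn ξ ≠ 0) :
    HasFDerivAt be (gf (nn ξ) • Th + (((deriv gf (nn ξ)) • ((2 : ℝ) • ip ξ) :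
      V4 →L[ℝ] ℝ)).smulRight (Th ξ)) ξ := by
  have h1 : HasDerivAt gf (deriv gf (nn ξ)) (nn ξ) :=
    (gf_hasDerivAt h).differentiableAt.hasDerivAt
  exact (h1.comp_hasFDerivAt ξ (hasFDerivAt_nn ξ)).smul (Th.hasFDerivAt (x := ξ))

theorem extDeriv_one {f : V4 → (V4 →L[ℝ] ℝ)} {x : V4} (hf : DifferentiableAt ℝ f x) :
    extDeriv (fun z => one (f z)) x = altOf (fderiv ℝ f x) := by
  rw [extDeriv, altOf]
  congr 1
  have : (fun z => one (f z)) = fun z => oneL (f z) := rfl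
  rw [this]
  exact (oneL.hasFDerivAt.comp x hf.hasFDerivAt).fderiv

/-- the exterior derivative of `be` -/
noncomputable def dB (ξ : V4) : V4 [⋀^Fin 2]→L[ℝ] ℝ := extDeriv (fun z => one (be z)) ξ

theorem dB_apply {ξ : V4} (h : nn ξ ≠ 0) (v w : V4) : dB ξ ![v, w] =
    2 * gf (nn ξ) * Th v w +
      2 * deriv gf (nn ξ) * (ip ξ v * Th ξ w - ip ξ w * Th ξ v) := by
  rw [dB, extDeriv_one (be_hasFDerivAt h).differentiableAt, altOf_apply, (be_hasFDerivAt h).fderiv]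
  simp only [ContinuousLinearMap.add_apply, ContinuousLinearMap.smul_apply,
    ContinuousLinearMap.smulRight_apply, smul_eq_mul]
  rw [Th_skew v w]
  ring

theorem nn_nonneg (ξ : V4) : 0 ≤ nn ξ := by
  rw [nn_eq]; exact add_nonneg (n3_nonneg ξ) (n5_nonneg ξ)

theorem dB_eq_comp {ξ : V4} (h : nn ξ ≠ 0) (hg : 0 < gf (nn ξ)) :
    ∀ v w : V4, dB ξ ![v, w] = stdAlt ![(√(gf (nn ξ)) • (ContinuousLinearMap.id ℝ V4 +
      ((deriv gf (nn ξ) / gf (nn ξ)) • ip ξ).smulRight ξ)) v,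
      (√(gf (nn ξ)) • (ContinuousLinearMap.id ℝ V4 +
      ((deriv gf (nn ξ) / gf (nn ξ)) • ip ξ).smulRight ξ)) w] := by
  intro v w
  rw [dB_apply h, stdAlt_apply]
  have e : ∀ x : V4, (√(gf (nn ξ)) • (ContinuousLinearMap.id ℝ V4 +
      ((deriv gf (nn ξ) / gf (nn ξ)) • ip ξ).smulRight ξ)) x =
      √(gf (nn ξ)) • (x + ((deriv gf (nn ξ) / gf (nn ξ)) * ip ξ x) • ξ) := fun x => rfl
  rw [e, e]
  simp only [map_smul, map_add, ContinuousLinearMap.add_apply, ContinuousLinearMap.smul_apply,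
    smul_eq_mul]
  have h0 : Th ξ ξ = 0 := by have := Th_skew ξ ξ; linarith
  rw [h0, Th_skew ξ v]
  have hs : √(gf (nn ξ)) * √(gf (nn ξ)) = gf (nn ξ) := Real.mul_self_sqrt hg.le
  have hne : gf (nn ξ) ≠ 0 := hg.ne'
  generalize gf (nn ξ) = g at *
  generalize deriv gf (nn ξ) = g' at *
  have key : 2 * (√g * (√g * ((Th v) w + g' / g * (ip ξ) v * (Th ξ) w) +
      g' / g * (ip ξ) w * (√g * (-(Th ξ) v + g' / g * (ip ξ) v * 0)))) =
      2 * (√g * √g) * ((Th v) w + g' / g * (ip ξ) v * (Th ξ) w - g' / g * (ip ξ) w * (Th ξ) v) := by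
    ring
  rw [key, hs]
  field_simp
  ring

theorem pow4_dB {ξ : V4} (h : nn ξ ≠ 0) (hg : 0 < gf (nn ξ)) :
    pow4 (dB ξ) stdB = gf (nn ξ) ^ 3 * deriv rh (nn ξ) * pow4 stdAlt stdB := by
  rw [pow4_map4 (dB ξ) stdAlt _ (dB_eq_comp h hg), det_rank_one]
  have hs : √(gf (nn ξ)) ^ 8 = gf (nn ξ) ^ 4 := by
    have : √(gf (nn ξ)) ^ 8 = (√(gf (nn ξ)) ^ 2) ^ 4 := by ring
    rw [this, Real.sq_sqrt hg.le]
  rw [hs]
  have h1 : deriv gf (nn ξ) = (deriv rh (nn ξ) * nn ξ - rh (nn ξ) * 1) / nn ξ ^ 2 :=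
    (gf_hasDerivAt h).deriv
  have h2 : gf (nn ξ) ^ 4 * (1 + deriv gf (nn ξ) / gf (nn ξ) * nn ξ) =
      gf (nn ξ) ^ 3 * (gf (nn ξ) + deriv gf (nn ξ) * nn ξ) := by
    field_simp
  have h3 : gf (nn ξ) + deriv gf (nn ξ) * nn ξ = deriv rh (nn ξ) := by
    rw [h1, gf]
    field_simp
    ring
  rw [h2, h3]

theorem pow4_dB_nonpos {ξ : V4} (h : nn ξ ≠ 0) : pow4 (dB ξ) stdB ≤ 0 := by
  have hpos : 0 < nn ξ := lt_of_le_of_ne (nn_nonneg ξ) h.symm
  have hg : 0 ≤ gf (nn ξ) := div_nonneg (rh_nonneg _) hpos.le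
  rcases hg.eq_or_lt with h0 | h0
  · -- here `rh = 0`, hence the derivative of `gf` vanishes too
    have hr : 2 ≤ nn ξ := by
      by_contra hlt
      have := rh_pos (not_le.1 hlt)
      have h1 : 0 < gf (nn ξ) := div_pos this hpos
      exact h1.ne h0
    have hd : deriv rh (nn ξ) = 0 := by
      have hmin : IsLocalMin rh (nn ξ) := by
        filter_upwards with y
        rw [rh_zero hr]; exact rh_nonneg y
      exact hmin.deriv_eq_zero
    have hdg : deriv gf (nn ξ) = 0 := by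
      rw [(gf_hasDerivAt h).deriv, hd, rh_zero hr]; simp
    have : ∀ v w, dB ξ ![v, w] = 0 := fun v w => by
      rw [dB_apply h, ← h0, hdg]; simp
    rw [pow4_zero4 _ this]
  · rw [pow4_dB h h0]
    have h1 : 0 < gf (nn ξ) ^ 3 := by positivity
    have h2 := rh_deriv_nonpos (nn ξ)
    have h3 := pow4_stdAlt_pos
    exact mul_nonpos_of_nonpos_of_nonneg (mul_nonpos_of_nonneg_of_nonpos h1.le h2) h3.le

theorem exists_pow4_dB_neg : ∃ r : ℝ, 0 < r ∧ ∀ ξ : V4, nn ξ = r → pow4 (dB ξ) stdB < 0 := by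
  obtain ⟨s, hs0, hs2, hs⟩ := exists_deriv_neg
  refine ⟨s, hs0, fun ξ hξ => ?_⟩
  have hg : 0 < gf (nn ξ) := by rw [hξ]; exact div_pos (rh_pos hs2) hs0
  rw [pow4_dB (by rw [hξ]; exact hs0.ne') hg, hξ]
  rw [hξ] at hg
  exact mul_neg_of_neg_of_pos (mul_neg_of_pos_of_neg (by positivity) hs) pow4_stdAlt_pos

end Pool.Agent.Work.MP_2a78db_gt.B1
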