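import Pool.Agent.Work.MP_2a78db_gt.B1c

/-!
Module B1: the charts, the potentials in all charts.
-/

namespace Pool.Agent.Work.MP_2a78db_gt.B1

open scoped Topology ContDiff

theorem two_le_inf : minSmoothness ℝ 2 ≤ (∞ : WithTop ℕ∞) := by
  rw [minSmoothness_of_isRCLikeNormedField]
  exact WithTop.coe_le_coe.2 (le_top : (2 : ℕ∞) ≤ ⊤)

/-! ### values of the norms -/

theorem n3_inv3 (z : V4) : n3 (inv3 z) = (n3 z)⁻¹ := by
  by_cases h : n3 z = 0
  · have : inv3 z = p5 z := by rw [inv3_eq, h, inv_zero, zero_smul, zero_add]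
    rw [this, h, n3_eq, p3_p5]
    simp
  · rw [n3_eq, inv3_eq]
    have e1 : ip (p3 z) (p3 z) = n3 z := by rw [ip_p3, p3_p3, ← n3_eq]
    have e2 : ip (p3 z) (p5 z) = 0 := by rw [ip_p5, p5_p3]; simp
    simp only [map_add, map_smul, p3_p3, p3_p5, p5_p3, p5_p5, add_zero, zero_add, add_apply,
      smul_apply, smul_eq_mul, smul_zero, e1, e2]
    field_simp
    try ring

theorem n5_inv5 (z : V4) : n5 (inv5 z) = (n5 z)⁻¹ := by
  by_cases h : n5 z = 0
  · have : inv5 z = p3 z := by rw [inv5_eq, h, inv_zero, zero_smul, add_zero]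
    rw [this, h, n5_eq, p5_p3]
    simp
  · rw [n5_eq, inv5_eq]
    have e1 : ip (p5 z) (p5 z) = n5 z := by rw [ip_p5, p5_p5, ← n5_eq]
    have e2 : ip (p5 z) (p3 z) = 0 := by rw [ip_p3, p3_p5]; simp
    simp only [map_add, map_smul, p3_p3, p3_p5, p5_p3, p5_p5, add_zero, zero_add, add_apply,
      smul_apply, smul_eq_mul, smul_zero, e1, e2]
    field_simp
    try ring

theorem n3_inv5 (z : V4) : n3 (inv5 z) = n3 z := by
  simp [n3, inv5]

theorem n5_inv3 (z : V4) : n5 (inv3 z) = n5 z := by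
  simp [n5, inv3]

theorem inv3_inv3 {z : V4} (h : n3 z ≠ 0) : inv3 (inv3 z) = z := by
  rw [inv3_eq (inv3 z), n3_inv3, inv_inv, inv3_eq, map_add, map_add, map_smul, map_smul, p3_p3,
    p3_p5, p5_p3, p5_p5, smul_zero, add_zero, zero_add, smul_smul, mul_inv_cancel₀ h, one_smul,
    p3_add_p5]

theorem inv5_inv5 {z : V4} (h : n5 z ≠ 0) : inv5 (inv5 z) = z := by
  rw [inv5_eq (inv5 z), n5_inv5, inv_inv, inv5_eq, map_add, map_add, map_smul, map_smul, p3_p3,
    p3_p5, p5_p3, p5_p5, smul_zero, add_zero, zero_add, smul_smul, mul_inv_cancel₀ h, one_smul,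
    p3_add_p5]

theorem inv3_inv5 (z : V4) : inv3 (inv5 z) = inv5 (inv3 z) := by
  rw [inv3_eq (inv5 z), inv5_eq (inv3 z), n3_inv5, n5_inv3, inv5_eq z, inv3_eq z]
  simp only [map_add, map_smul, p3_p3, p5_p5, p3_p5, p5_p3, smul_zero, add_zero, zero_add]

/-! ### the blow-down maps -/

/-- `|v|^2` where `v` is `w` with `1` at the place `i` -/
noncomputable def qf (i : Fin 4) (w : V4) : ℝ := ∑ j, if j = i then 1 else Complex.normSq (w j)

theorem nn_sum (z : V4) : nn z = ∑ j, Complex.normSq (z j) := by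
  rw [nn, ip_apply, Fin.sum_univ_four]
  simp only [Complex.normSq_apply]

theorem nn_bl (i : Fin 4) (w : V4) : nn (bl i w) = Complex.normSq (w i) * qf i w := by
  rw [nn_sum, qf, Finset.mul_sum]
  refine Finset.sum_congr rfl fun j _ => ?_
  unfold bl
  split_ifs with h
  · rw [mul_one]
  · rw [Complex.normSq_mul]

theorem one_le_qf (i : Fin 4) (w : V4) : 1 ≤ qf i w := by
  rw [qf]
  have h : ∀ j ∈ Finset.univ, (0 : ℝ) ≤ if j = i then 1 else Complex.normSq (w j) := by
    intro j _
    split_ifs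
    · exact zero_le_one
    · exact Complex.normSq_nonneg _
  have := Finset.single_le_sum h (Finset.mem_univ i)
  simpa using this

theorem contDiff_normSq_coord (j : Fin 4) : ContDiff ℝ ∞ fun w : V4 => Complex.normSq (w j) := by
  have e : (fun w : V4 => Complex.normSq (w j)) = fun w : V4 =>
      (w j).re * (w j).re + (w j).im * (w j).im := by
    funext w; rw [Complex.normSq_apply]
  rw [e]
  have h1 : ContDiff ℝ ∞ fun w : V4 => (w j).re :=
    Complex.reCLM.contDiff.comp (contDiff_apply ℝ ℂ j)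
  have h2 : ContDiff ℝ ∞ fun w : V4 => (w j).im :=
    Complex.imCLM.contDiff.comp (contDiff_apply ℝ ℂ j)
  exact (h1.mul h1).add (h2.mul h2)

theorem contDiff_qf (i : Fin 4) : ContDiff ℝ ∞ (qf i) := by
  unfold qf
  refine ContDiff.sum fun j _ => ?_
  split_ifs
  · exact contDiff_const
  · exact contDiff_normSq_coord j

/-- derivative of the blow-down map -/
noncomputable def blD (i : Fin 4) (w : V4) : V4 →L[ℝ] V4 :=
  ContinuousLinearMap.pi fun j =>
    if j = i then ContinuousLinearMap.proj (R := ℝ) (φ := fun _ : Fin 4 => ℂ) i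
    else w i • ContinuousLinearMap.proj (R := ℝ) (φ := fun _ : Fin 4 => ℂ) j +
      w j • ContinuousLinearMap.proj (R := ℝ) (φ := fun _ : Fin 4 => ℂ) i

theorem blD_apply (i : Fin 4) (w u : V4) (j : Fin 4) :
    blD i w u j = if j = i then u i else w i * u j + w j * u i := by
  unfold blD
  rw [ContinuousLinearMap.pi_apply]
  split_ifs <;> rfl

theorem hasFDerivAt_bl (i : Fin 4) (w : V4) : HasFDerivAt (bl i) (blD i w) w := by
  refine hasFDerivAt_pi.2 fun j => ?_
  unfold bl
  have h1 : ∀ k : Fin 4, HasFDerivAt (fun w : V4 => w k)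
      (ContinuousLinearMap.proj (R := ℝ) (φ := fun _ : Fin 4 => ℂ) k) w := fun k =>
    (ContinuousLinearMap.proj (R := ℝ) (φ := fun _ : Fin 4 => ℂ) k).hasFDerivAt
  by_cases h : j = i
  · simp only [h, if_true]
    exact h1 i
  · simp only [h, if_false]
    exact (h1 i).mul (h1 j)

theorem contDiff_bl (i : Fin 4) : ContDiff ℝ ∞ (bl i) := by
  refine contDiff_pi.2 fun j => ?_
  unfold bl
  split_ifs
  · exact contDiff_apply ℝ ℂ i
  · exact (contDiff_apply ℝ ℂ i).mul (contDiff_apply ℝ ℂ j)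

/-- first part of the standard form -/
noncomputable def T1 (i : Fin 4) : V4 →L[ℝ] V4 →L[ℝ] ℝ := stdForm fun j => if j = i then 1 else 0

/-- second part of the standard form -/
noncomputable def T2 (i : Fin 4) : V4 →L[ℝ] V4 →L[ℝ] ℝ := stdForm fun j => if j = i then 0 else 1

theorem T1_apply (i : Fin 4) (w u : V4) : T1 i w u = ((starRingEnd ℂ) (w i) * u i).im := by
  rw [T1, stdForm_apply]
  simp

theorem Th_bl (i : Fin 4) (w u : V4) : Th (bl i w) (blD i w u) =
    qf i w * T1 i w u + Complex.normSq (w i) * T2 i w u := by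
  rw [Th, T1_apply, T2, stdForm_apply, stdForm_apply, qf, Finset.sum_mul, Finset.mul_sum,
    ← Finset.sum_add_distrib]
  refine Finset.sum_congr rfl fun j _ => ?_
  rw [blD_apply]
  unfold bl
  by_cases h : j = i
  · simp [h]
  · simp only [h, if_false, one_mul, Complex.normSq_apply, map_mul, Complex.mul_im, Complex.mul_re,
      Complex.conj_re, Complex.conj_im, Complex.add_im, Complex.add_re]
    ring

/-- differential of the argument of the coordinate `i` -/
noncomputable def dAr (i : Fin 4) (z : V4) : V4 →L[ℝ] ℝ :=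
  Complex.imCLM ∘L ((z i)⁻¹ • (ContinuousLinearMap.proj (R := ℝ) (φ := fun _ : Fin 4 => ℂ) i))

theorem dAr_apply (i : Fin 4) (z u : V4) : dAr i z u = ((z i)⁻¹ * u i).im := rfl

theorem dAr_apply' (i : Fin 4) (z u : V4) :
    dAr i z u = (Complex.normSq (z i))⁻¹ * T1 i z u := by
  rw [dAr_apply, T1_apply, Complex.inv_def]
  simp only [Complex.mul_im, Complex.mul_re, Complex.conj_re, Complex.conj_im, Complex.ofReal_re,
    Complex.ofReal_im]
  ring

/-- potential in the `i`-th blow-up chart -/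
noncomputable def potB (i : Fin 4) (w : V4) : V4 →L[ℝ] ℝ :=
  (hf (Complex.normSq (w i) * qf i w) * qf i w) • T1 i w +
    (rh (Complex.normSq (w i) * qf i w) / qf i w) • T2 i w

theorem potB_eq (i : Fin 4) {w : V4} (h : w i ≠ 0) :
    potB i w = be (bl i w) ∘L fderiv ℝ (bl i) w - dAr i w := by
  rw [(hasFDerivAt_bl i w).fderiv]
  refine ContinuousLinearMap.ext fun u => ?_
  have hl : potB i w u = (hf (Complex.normSq (w i) * qf i w) * qf i w) * T1 i w u +
    (rh (Complex.normSq (w i) * qf i w) / qf i w) * T2 i w u := rfl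
  have hr : (be (bl i w) ∘L blD i w - dAr i w) u =
      gf (nn (bl i w)) * Th (bl i w) (blD i w u) - dAr i w u := rfl
  rw [hl, hr, Th_bl, nn_bl, dAr_apply', hf, gf]
  have hq : qf i w ≠ 0 := (lt_of_lt_of_le one_pos (one_le_qf i w)).ne'
  have hn : Complex.normSq (w i) ≠ 0 := fun hh => h (Complex.normSq_eq_zero.1 hh)
  field_simp
  ring

theorem contDiff_potB (i : Fin 4) : ContDiff ℝ ∞ (potB i) := by
  have hs : ContDiff ℝ ∞ fun w : V4 => Complex.normSq (w i) * qf i w :=
    (contDiff_normSq_coord i).mul (contDiff_qf i)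
  have hq : ∀ w, qf i w ≠ 0 := fun w => (lt_of_lt_of_le one_pos (one_le_qf i w)).ne'
  unfold potB
  exact (((hf_contDiff.comp hs).mul (contDiff_qf i)).smul (T1 i).contDiff).add
    (((rh_contDiff.comp hs).div (contDiff_qf i) hq).smul (T2 i).contDiff)

end Pool.Agent.Work.MP_2a78db_gt.B1
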