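import Pool.Agent.Work.MP_2a78db_gt.C3c

/-!
Module C3, last theorem: the wedge form of the Stokes theorem on the glued space.
-/

namespace Pool.Agent.Work.MP_2a78db_gt

open C3 MeasureTheory
open scoped ContDiff

theorem wedge_ext_eq (β : V4 → V4 [⋀^Fin 1]→L[ℝ] ℝ) (o1 o2 o3 : V4 → V4 [⋀^Fin 2]→L[ℝ] ℝ)
    (Fβ : V4 → V4 [⋀^Fin 2]→L[ℝ] ℝ) (h : ∀ z, Fβ z = extDeriv β z) (z : V4) :
    wedge4 ![extDeriv β z, o1 z, o2 z, o3 z] stdB = wedge4 ![Fβ z, o1 z, o2 z, o3 z] stdB := by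
  refine (D0.wedge4_apply _ _).trans (Eq.trans ?_ (D0.wedge4_apply _ _).symm)
  refine Finset.sum_congr rfl fun σ _ => ?_
  have h1 : ∀ v, extDeriv β z v = Fβ z v := fun v => by rw [h]
  refine congrArg₂ (· * ·) rfl ?_
  refine congrArg₂ (· * ·) (congrArg₂ (· * ·) (congrArg₂ (· * ·) (h1 _) rfl) rfl) rfl

/-- Stated with the point `z` inside, so that its instances are syntactically equal to the goals
(unfolding `wedge4` in the kernel must be avoided). -/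
theorem wedge_sum_left (G : V4 → V4 [⋀^Fin 2]→L[ℝ] ℝ) (F : Ch → V4 → V4 [⋀^Fin 2]→L[ℝ] ℝ)
    (o1 o2 o3 : Ch → V4 → V4 [⋀^Fin 2]→L[ℝ] ℝ) (hw : ∀ z v, G z v = ∑ k, F k z v) (z : V4) :
    wedge4 ![G z, o1 .c z, o2 .c z, o3 .c z] stdB =
      ∑ k, wedge4 ![F k z, o1 .c z, o2 .c z, o3 .c z] stdB := by
  have key : ∀ (s g a b c : ℝ) (f : Ch → ℝ), g = ∑ k, f k →
      s * (g * a * b * c) = ∑ k, s * (f k * a * b * c) := by
    intro s g a b c f h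
    rw [h, Finset.sum_mul, Finset.sum_mul, Finset.sum_mul, Finset.mul_sum]
  refine (D0.wedge4_apply _ _).trans (Eq.trans ?_
    (Finset.sum_congr rfl fun k _ => (D0.wedge4_apply _ _).symm))
  refine Eq.trans ?_ Finset.sum_comm
  refine Finset.sum_congr rfl fun σ _ => ?_
  exact key _ _ _ _ _ _ (hw z _)

/-- C3 -/
theorem stokes_wedge {M : Type} [TopologicalSpace M] [T2Space M] [CompactSpace M]
    (D : SpaceData M) (β : Ch → V4 → V4 [⋀^Fin 1]→L[ℝ] ℝ) (hβ : ∀ k, ContDiff ℝ 1 (β k))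
    (hβc : Compat 1 β) (o1 o2 o3 : Ch → V4 → V4 [⋀^Fin 2]→L[ℝ] ℝ)
    (h1 : ∀ k, ContDiff ℝ 1 (o1 k)) (h2 : ∀ k, ContDiff ℝ 1 (o2 k))
    (h3 : ∀ k, ContDiff ℝ 1 (o3 k)) (c1 : Compat 2 o1) (c2 : Compat 2 o2) (c3 : Compat 2 o3)
    (d1 : ∀ k z, extDeriv (o1 k) z = 0) (d2 : ∀ k z, extDeriv (o2 k) z = 0)
    (d3 : ∀ k z, extDeriv (o3 k) z = 0) :
    ∫ z, wedge4 ![extDeriv (β .c) z, o1 .c z, o2 .c z, o3 .c z] stdB = 0 := by
  obtain ⟨ψ, hψs, hψc, hsup, hsum, hψ⟩ := exists_partition D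
  have hp1 : ∀ k l, ContDiff ℝ 1 (ψ k l) := fun k l => (hψs k l).of_le (by simp)
  have h0 : β .c = fun w => ∑ k, ψ k .c w • β .c w := by
    funext w
    rw [← Finset.sum_smul, hsum, one_smul]
  -- local forms
  obtain ⟨Fc, hFc⟩ : ∃ Fc : Ch → V4 → V4 [⋀^Fin 2]→L[ℝ] ℝ,
      ∀ k z, Fc k z = extDeriv (fun w => ψ k .c w • β .c w) z := ⟨_, fun _ _ => rfl⟩
  obtain ⟨Fk, hFk⟩ : ∃ Fk : Ch → V4 → V4 [⋀^Fin 2]→L[ℝ] ℝ,
      ∀ k z, Fk k z = extDeriv (fun w => ψ k k w • β k w) z := ⟨_, fun _ _ => rfl⟩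
  obtain ⟨Fβ, hFβ⟩ : ∃ Fβ : V4 → V4 [⋀^Fin 2]→L[ℝ] ℝ,
      Fβ = fun z => extDeriv (β .c) z := ⟨_, rfl⟩
  have hw : ∀ z, ∀ v, Fβ z v = ∑ k, Fc k z v := by
    intro z v
    have h4 : extDeriv (β .c) z = ∑ k, extDeriv (fun w => ψ k .c w • β .c w) z := by
      conv_lhs => rw [h0]
      rw [extDeriv_sum (fun k w => ψ k .c w • β .c w) (fun k => (hp1 k .c).smul (hβ .c))]
    rw [hFβ]
    simp only [h4, ContinuousAlternatingMap.sum_apply]
    exact Finset.sum_congr rfl fun k _ => by rw [hFc k z]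
  have hw' : ∀ z, wedge4 ![Fβ z, o1 .c z, o2 .c z, o3 .c z] stdB =
      ∑ k, wedge4 ![Fc k z, o1 .c z, o2 .c z, o3 .c z] stdB := by
    intro z
    exact wedge_sum_left Fβ Fc o1 o2 o3 hw z
  have key : ∀ k, Integrable (fun z => wedge4 ![Fc k z, o1 .c z, o2 .c z, o3 .c z] stdB) ∧
      ∫ z, wedge4 ![Fc k z, o1 .c z, o2 .c z, o3 .c z] stdB = 0 := by
    intro k
    have hcs : HasCompactSupport fun w => ψ k k w • β k w := (hψc k).smul_right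
    have hcd : ContDiff ℝ 1 fun w => ψ k k w • β k w := (hp1 k k).smul (hβ k)
    have hFke : Fk k = fun z => extDeriv (fun w => ψ k k w • β k w) z := funext (hFk k)
    have hloc : ∫ z, wedge4 ![Fk k z, o1 k z, o2 k z, o3 k z] stdB = 0 :=
      local_wedge _ hcd hcs _ _ _ (h1 k) (h2 k) (h3 k) (d1 k) (d2 k) (d3 k) (Fk k) (hFk k)
    have hg := glue_wedge D k (Fc k) (Fk k) (o1 .c) (o2 .c) (o3 .c) (o1 k) (o2 k) (o3 k)
      (by rw [hFke]; exact continuous_extDeriv _ hcd)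
      (by rw [hFke]; exact hasCompactSupport_extDeriv _ hcs)
      (fun v => (contDiff_eval _ (h1 k) v).continuous)
      (fun v => (contDiff_eval _ (h2 k) v).continuous)
      (fun v => (contDiff_eval _ (h3 k) v).continuous)
      (fun z hz => by rw [hFc, hFk]; exact ext_pull ψ hψs hψ β hβ hβc k hz)
      (fun z hz => c1 .c k z hz) (fun z hz => c2 .c k z hz) (fun z hz => c3 .c k z hz)
      (fun z hz => by rw [hFc]; exact ext_zero ψ hsup β k hz)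
    exact ⟨hg.1, hg.2 hloc⟩
  have e1 := funext hw'
  have e2 : ∫ z, ∑ k, wedge4 ![Fc k z, o1 .c z, o2 .c z, o3 .c z] stdB = 0 := by
    rw [integral_finsetSum _ fun k _ => (key k).1]
    exact Finset.sum_eq_zero fun k _ => (key k).2
  have e3 : ∫ z, wedge4 ![Fβ z, o1 .c z, o2 .c z, o3 .c z] stdB = 0 := by
    rw [e1]
    exact e2
  obtain ⟨G, hG⟩ : ∃ G : V4 → ℝ, G = fun z => wedge4 ![Fβ z, o1 .c z, o2 .c z, o3 .c z] stdB :=
    ⟨_, rfl⟩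
  have e3' : ∫ z, G z = 0 := by rw [hG]; exact e3
  have e4 : ∀ z, wedge4 ![extDeriv (β .c) z, o1 .c z, o2 .c z, o3 .c z] stdB = G z := by
    intro z
    rw [hG]
    exact wedge_ext_eq (β .c) (o1 .c) (o2 .c) (o3 .c) Fβ (fun z => congrFun hFβ z) z
  have e5 := funext e4
  rw [e5]
  exact e3'

end Pool.Agent.Work.MP_2a78db_gt
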