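import Pool.Agent.Work.MP_2a78db_gt.TopForm

/-!
Module C3, local part: integrals of exact compactly supported top forms on `V4` vanish.
-/

namespace Pool.Agent.Work.MP_2a78db_gt

namespace C3

open MeasureTheory Equiv
open scoped ContDiff

/-- The integral of a directional derivative of a compactly supported `C^1` function is zero. -/
theorem integral_fderiv_zero (F : V4 → ℝ) (hF : ContDiff ℝ 1 F) (hc : HasCompactSupport F)
    (v : V4) : ∫ x, fderiv ℝ F x v = 0 := by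
  have hd : Continuous fun x => fderiv ℝ F x v :=
    (hF.continuous_fderiv one_ne_zero).clm_apply continuous_const
  have hcd : HasCompactSupport fun x => fderiv ℝ F x v := hc.fderiv_apply (𝕜 := ℝ) v
  have h := integral_mul_fderiv_eq_neg_fderiv_mul_of_integrable (μ := (volume : Measure V4))
    (f := fun _ : V4 => (1 : ℝ)) (g := F) (v := v) (by simp) (by
      simp only [one_mul]
      exact hd.integrable_of_hasCompactSupport hcd) (by
      simp only [one_mul]
      exact hF.continuous.integrable_of_hasCompactSupport hc)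
    (fun x _ => differentiableAt_const _)
    (fun x _ => (hF.differentiable one_ne_zero).differentiableAt)
  simpa using h

/-- Integration by parts. -/
theorem integral_by_parts (F G : V4 → ℝ) (hF : ContDiff ℝ 1 F) (hc : HasCompactSupport F)
    (hG : ContDiff ℝ 1 G) (v : V4) :
    ∫ x, fderiv ℝ F x v * G x = - ∫ x, F x * fderiv ℝ G x v := by
  have hd : Continuous fun x => fderiv ℝ F x v :=
    (hF.continuous_fderiv one_ne_zero).clm_apply continuous_const
  have hcd : HasCompactSupport fun x => fderiv ℝ F x v := hc.fderiv_apply (𝕜 := ℝ) v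
  have hdG : Continuous fun x => fderiv ℝ G x v :=
    (hG.continuous_fderiv one_ne_zero).clm_apply continuous_const
  have h := integral_mul_fderiv_eq_neg_fderiv_mul_of_integrable (μ := (volume : Measure V4))
    (f := F) (g := G) (v := v)
    ((hd.mul hG.continuous).integrable_of_hasCompactSupport hcd.mul_right)
    ((hF.continuous.mul hdG).integrable_of_hasCompactSupport hc.mul_right)
    ((hF.continuous.mul hG.continuous).integrable_of_hasCompactSupport hc.mul_right)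
    (fun x _ => (hF.differentiable one_ne_zero).differentiableAt)
    (fun x _ => (hG.differentiable one_ne_zero).differentiableAt)
  rw [h, neg_neg]

/-- evaluation of a `C^1` form is `C^1` -/
theorem contDiff_eval {n : ℕ} (γ : V4 → V4 [⋀^Fin n]→L[ℝ] ℝ) (hγ : ContDiff ℝ 1 γ)
    (v : Fin n → V4) : ContDiff ℝ 1 fun z => γ z v :=
  (ContinuousAlternatingMap.apply ℝ V4 ℝ v).contDiff.comp hγ

theorem hasCompactSupport_eval {n : ℕ} (γ : V4 → V4 [⋀^Fin n]→L[ℝ] ℝ)
    (hc : HasCompactSupport γ) (v : Fin n → V4) : HasCompactSupport fun z => γ z v :=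
  hc.comp_left (g := fun a : V4 [⋀^Fin n]→L[ℝ] ℝ => a v) rfl

/-- Stokes for compactly supported 7-forms on `V4`. -/
theorem local_stokes (γ : V4 → V4 [⋀^Fin 7]→L[ℝ] ℝ) (hγ : ContDiff ℝ 1 γ)
    (hc : HasCompactSupport γ) : ∫ z, extDeriv γ z stdB = 0 := by
  have h1 : ∀ z, extDeriv γ z stdB =
      ∑ i : Fin 8, (-1 : ℝ) ^ i.val * fderiv ℝ (fun x => γ x (i.removeNth stdB)) z (stdB i) := by
    intro z
    rw [extDeriv_apply (hγ.differentiable one_ne_zero).differentiableAt]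
    refine Finset.sum_congr rfl fun i _ => ?_
    rw [zsmul_eq_mul]
    push_cast
    rfl
  simp_rw [h1]
  rw [integral_finsetSum]
  · refine Finset.sum_eq_zero fun i _ => ?_
    rw [integral_const_mul, integral_fderiv_zero _ (contDiff_eval γ hγ _)
      (hasCompactSupport_eval γ hc _), mul_zero]
  · intro i _
    refine Integrable.const_mul ?_ _
    have hF := contDiff_eval γ hγ (i.removeNth stdB)
    exact ((hF.continuous_fderiv one_ne_zero).clm_apply
      continuous_const).integrable_of_hasCompactSupport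
        ((hasCompactSupport_eval γ hc (i.removeNth stdB)).fderiv_apply (𝕜 := ℝ) _)

/-- value of the exterior derivative of a 1-form -/
theorem extDeriv_one (B : V4 → V4 [⋀^Fin 1]→L[ℝ] ℝ) (hB : ContDiff ℝ 1 B) (z x y : V4) :
    extDeriv B z ![x, y] = fderiv ℝ (fun w => B w ![y]) z x - fderiv ℝ (fun w => B w ![x]) z y := by
  rw [extDeriv_apply (hB.differentiable one_ne_zero).differentiableAt, Fin.sum_univ_two]
  have e0 : (0 : Fin 2).removeNth ![x, y] = ![y] := by
    funext i; fin_cases i; rfl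
  have e1 : (1 : Fin 2).removeNth ![x, y] = ![x] := by
    funext i; fin_cases i; rfl
  rw [e0, e1]
  simp
  ring

/-- value of the exterior derivative of a 2-form -/
theorem extDeriv_two (o : V4 → V4 [⋀^Fin 2]→L[ℝ] ℝ) (ho : ContDiff ℝ 1 o) (z x y w : V4) :
    extDeriv o z ![x, y, w] = fderiv ℝ (fun p => o p ![y, w]) z x +
      fderiv ℝ (fun p => o p ![w, x]) z y + fderiv ℝ (fun p => o p ![x, y]) z w := by
  rw [extDeriv_apply (ho.differentiable one_ne_zero).differentiableAt, Fin.sum_univ_three]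
  have e0 : (0 : Fin 3).removeNth ![x, y, w] = ![y, w] := by
    funext i; fin_cases i <;> rfl
  have e1 : (1 : Fin 3).removeNth ![x, y, w] = ![x, w] := by
    funext i; fin_cases i <;> rfl
  have e2 : (2 : Fin 3).removeNth ![x, y, w] = ![x, y] := by
    funext i; fin_cases i <;> rfl
  rw [e0, e1, e2]
  have hs : (fun p => o p ![x, w]) = fun p => - o p ![w, x] := by
    funext p
    have h := (o p).map_swap ![w, x] (i := 0) (j := 1) (by decide)
    refine Eq.trans ?_ h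
    have e : ![x, w] = ![w, x] ∘ ⇑(swap (0 : Fin 2) 1) := by
      funext i; fin_cases i <;> simp
    rw [← e]
    rfl
  rw [hs, fderiv_fun_neg]
  simp

/-- the 3-cycle of the positions 0, i, j -/
def cyc (i j : Fin 8) : Perm (Fin 8) := Equiv.swap 0 i * Equiv.swap i j

theorem alt_zero_of_cyc {X : Type*} (τ : Perm (Fin 8)) (hτ : Perm.sign τ = 1)
    (g : (Fin 8 → X) → ℝ) (v : Fin 8 → X)
    (h : ∀ v, g v + g (v ∘ τ) + g ((v ∘ τ) ∘ τ) = 0) : D0.alt g v = 0 := by
  have h1 := D0.alt_mul_perm g v τ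
  have h2 := D0.alt_mul_perm (fun v => g (v ∘ τ)) v τ
  rw [hτ] at h1 h2
  have h3 : D0.alt (fun v => g v + g (v ∘ τ) + g ((v ∘ τ) ∘ τ)) v = 0 := by
    unfold D0.alt
    exact Finset.sum_eq_zero fun σ _ => by
      rw [show (fun v => g v + g (v ∘ ⇑τ) + g ((v ∘ ⇑τ) ∘ ⇑τ)) (v ∘ ⇑σ) = 0 from h (v ∘ σ),
        mul_zero]
  rw [D0.alt_add (fun v => g v + g (v ∘ τ)) (fun v => g ((v ∘ τ) ∘ τ)), D0.alt_add] at h3
  rw [h1] at h2
  rw [h1, h2] at h3
  simp at h3
  linarith

theorem cyc_sign {i j : Fin 8} (hi : 0 ≠ i) (hij : i ≠ j) : Perm.sign (cyc i j) = 1 := by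
  unfold cyc
  rw [Perm.sign_mul, Perm.sign_swap hi, Perm.sign_swap hij]
  rfl

theorem cyc_apply (i j : Fin 8) (hi : 0 ≠ i) (hij : i ≠ j) (hj : 0 ≠ j) :
    cyc i j 0 = i ∧ cyc i j i = j ∧ cyc i j j = 0 ∧
      ∀ k, k ≠ 0 → k ≠ i → k ≠ j → cyc i j k = k := by
  unfold cyc
  refine ⟨?_, ?_, ?_, ?_⟩
  · rw [Perm.mul_apply, swap_apply_of_ne_of_ne hi hj, swap_apply_left]
  · rw [Perm.mul_apply, swap_apply_left, swap_apply_of_ne_of_ne hj.symm hij.symm]
  · rw [Perm.mul_apply, swap_apply_right, swap_apply_right]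
  · intro k h0 h1 h2
    rw [Perm.mul_apply, swap_apply_of_ne_of_ne h1 h2, swap_apply_of_ne_of_ne h0 h1]

/-- The pointwise cancellation coming from closedness. -/
theorem alt_wedge_zero (B : V4 → V4 [⋀^Fin 1]→L[ℝ] ℝ) (o1 o2 o3 : V4 → V4 [⋀^Fin 2]→L[ℝ] ℝ)
    (h1 : ContDiff ℝ 1 o1) (h2 : ContDiff ℝ 1 o2) (h3 : ContDiff ℝ 1 o3)
    (d1 : ∀ z, extDeriv o1 z = 0) (d2 : ∀ z, extDeriv o2 z = 0) (d3 : ∀ z, extDeriv o3 z = 0)
    (z : V4) :
    D0.alt (fun v : Fin 8 → V4 => B z ![v 1] * fderiv ℝ (fun z => (o1 z ![v 2, v 3] *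
      o2 z ![v 4, v 5] * o3 z ![v 6, v 7])) z (v 0)) stdB = 0 := by
  have hf : (fun v : Fin 8 → V4 => B z ![v 1] * fderiv ℝ (fun z => (o1 z ![v 2, v 3] *
      o2 z ![v 4, v 5] * o3 z ![v 6, v 7])) z (v 0)) = fun v =>
      (B z ![v 1] * (fderiv ℝ (fun z => o1 z ![v 2, v 3]) z (v 0) * o2 z ![v 4, v 5] *
        o3 z ![v 6, v 7]) +
      B z ![v 1] * (fderiv ℝ (fun z => o2 z ![v 4, v 5]) z (v 0) * o1 z ![v 2, v 3] *
        o3 z ![v 6, v 7])) +
      B z ![v 1] * (fderiv ℝ (fun z => o3 z ![v 6, v 7]) z (v 0) * o1 z ![v 2, v 3] *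
        o2 z ![v 4, v 5]) := by
    funext v
    have g1 := ((contDiff_eval o1 h1 ![v 2, v 3]).differentiable one_ne_zero z)
    have g2 := ((contDiff_eval o2 h2 ![v 4, v 5]).differentiable one_ne_zero z)
    have g3 := ((contDiff_eval o3 h3 ![v 6, v 7]).differentiable one_ne_zero z)
    rw [fderiv_fun_mul (g1.fun_mul g2) g3, fderiv_fun_mul g1 g2]
    simp only [add_apply, smul_apply, smul_eq_mul]
    ring
  rw [hf, D0.alt_add, D0.alt_add]
  have key : ∀ (o a b : V4 → V4 [⋀^Fin 2]→L[ℝ] ℝ) (_ : ContDiff ℝ 1 o)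
      (_ : ∀ z, extDeriv o z = 0) (i j p q r s : Fin 8) (_ : 0 ≠ i) (_ : i ≠ j) (_ : 0 ≠ j)
      (_ : ∀ k ∈ [1, p, q, r, s], k ≠ 0 ∧ k ≠ i ∧ k ≠ j),
      D0.alt (fun v : Fin 8 → V4 => B z ![v 1] *
        (fderiv ℝ (fun z => o z ![v i, v j]) z (v 0) * a z ![v p, v q] * b z ![v r, v s]))
        stdB = 0 := by
    intro o a b ho hd i j p q r s hi hij hj hk
    obtain ⟨c0, ci, cj, ck⟩ := cyc_apply i j hi hij hj
    refine alt_zero_of_cyc (cyc i j) (cyc_sign hi hij) _ _ fun v => ?_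
    have k1 := hk 1 (by simp)
    have kp := hk p (by simp)
    have kq := hk q (by simp)
    have kr := hk r (by simp)
    have ks := hk s (by simp)
    have n1 := ck 1 k1.1 k1.2.1 k1.2.2
    have np := ck p kp.1 kp.2.1 kp.2.2
    have nq := ck q kq.1 kq.2.1 kq.2.2
    have nr := ck r kr.1 kr.2.1 kr.2.2
    have ns := ck s ks.1 ks.2.1 ks.2.2
    simp only [Function.comp, c0, ci, cj, n1, np, nq, nr, ns]
    have h := extDeriv_two o ho z (v 0) (v i) (v j)
    rw [hd z] at h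
    have h0 : (0 : V4 [⋀^Fin 3]→L[ℝ] ℝ) ![v 0, v i, v j] = 0 := rfl
    rw [h0] at h
    have : fderiv ℝ (fun p => o p ![v i, v j]) z (v 0) =
      - (fderiv ℝ (fun p => o p ![v j, v 0]) z (v i)) -
        fderiv ℝ (fun p => o p ![v 0, v i]) z (v j) := by linarith
    rw [this]
    ring
  rw [key o1 o2 o3 h1 d1 2 3 4 5 6 7 (by decide) (by decide) (by decide) (by decide),
    key o2 o1 o3 h2 d2 4 5 2 3 6 7 (by decide) (by decide) (by decide) (by decide),
    key o3 o1 o2 h3 d3 6 7 2 3 4 5 (by decide) (by decide) (by decide) (by decide)]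
  ring

/-- Local Stokes for the wedge product with closed forms. -/
theorem local_wedge (B : V4 → V4 [⋀^Fin 1]→L[ℝ] ℝ) (hB : ContDiff ℝ 1 B)
    (hc : HasCompactSupport B) (o1 o2 o3 : V4 → V4 [⋀^Fin 2]→L[ℝ] ℝ)
    (h1 : ContDiff ℝ 1 o1) (h2 : ContDiff ℝ 1 o2) (h3 : ContDiff ℝ 1 o3)
    (d1 : ∀ z, extDeriv o1 z = 0) (d2 : ∀ z, extDeriv o2 z = 0) (d3 : ∀ z, extDeriv o3 z = 0)
    (F : V4 → V4 [⋀^Fin 2]→L[ℝ] ℝ) (hF : ∀ z, F z = extDeriv B z) :
    ∫ z, wedge4 ![F z, o1 z, o2 z, o3 z] stdB = 0 := by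
  -- the integrand
  have e1 : ∀ z, wedge4 ![F z, o1 z, o2 z, o3 z] stdB =
      2 * D0.alt (fun v : Fin 8 → V4 => fderiv ℝ (fun w => B w ![v 1]) z (v 0) *
        (o1 z ![v 2, v 3] * o2 z ![v 4, v 5] * o3 z ![v 6, v 7])) stdB := by
    intro z
    rw [D0.wedge4_apply, ← D0.alt_sub_swap _ _ 0 1 (by decide)]
    unfold D0.alt
    refine Finset.sum_congr rfl fun σ _ => ?_
    congr 1
    have s1 : ∀ k : Fin 8, ∀ v : Fin 8 → V4, k ≠ 0 → k ≠ 1 → (v ∘ Equiv.swap 0 1) k = v k := by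
      intro k v h1 h2
      simp [Equiv.swap_apply_of_ne_of_ne h1 h2]
    have s2 : ∀ v : Fin 8 → V4, (v ∘ Equiv.swap 0 1) 0 = v 1 := by intro v; simp
    have s3 : ∀ v : Fin 8 → V4, (v ∘ Equiv.swap 0 1) 1 = v 0 := by intro v; simp
    beta_reduce
    rw [s2, s3, s1 2 _ (by decide) (by decide), s1 3 _ (by decide) (by decide),
      s1 4 _ (by decide) (by decide), s1 5 _ (by decide) (by decide),
      s1 6 _ (by decide) (by decide), s1 7 _ (by decide) (by decide)]
    simp only [Matrix.cons_val, Function.comp]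
    rw [hF, extDeriv_one B hB]
    ring
  simp_rw [e1]
  rw [integral_const_mul]
  -- expand the antisymmetrization
  unfold D0.alt
  have hO : ∀ v : Fin 8 → V4, ContDiff ℝ 1 fun z =>
      (o1 z ![v 2, v 3] * o2 z ![v 4, v 5] * o3 z ![v 6, v 7]) := fun v =>
    ((contDiff_eval o1 h1 _).mul (contDiff_eval o2 h2 _)).mul (contDiff_eval o3 h3 _)
  have hb : ∀ y : V4, ContDiff ℝ 1 fun z => B z ![y] := fun y => contDiff_eval B hB _
  have hbc : ∀ y : V4, HasCompactSupport fun z => B z ![y] := fun y =>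
    hasCompactSupport_eval B hc _
  rw [integral_finsetSum]
  · have e2 : ∀ σ : Perm (Fin 8),
        ∫ z, ((Perm.sign σ : ℤ) : ℝ) * (fderiv ℝ (fun w => B w ![(stdB ∘ σ) 1]) z ((stdB ∘ σ) 0) *
          (o1 z ![(stdB ∘ σ) 2, (stdB ∘ σ) 3] * o2 z ![(stdB ∘ σ) 4, (stdB ∘ σ) 5] *
            o3 z ![(stdB ∘ σ) 6, (stdB ∘ σ) 7])) =
        - ∫ z, ((Perm.sign σ : ℤ) : ℝ) * (B z ![(stdB ∘ σ) 1] * fderiv ℝ (fun z =>
          (o1 z ![(stdB ∘ σ) 2, (stdB ∘ σ) 3] * o2 z ![(stdB ∘ σ) 4, (stdB ∘ σ) 5] *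
            o3 z ![(stdB ∘ σ) 6, (stdB ∘ σ) 7])) z ((stdB ∘ σ) 0)) := by
      intro σ
      rw [integral_const_mul, integral_const_mul,
        integral_by_parts _ _ (hb _) (hbc _) (hO (stdB ∘ σ))]
      ring
    rw [Finset.sum_congr rfl fun σ _ => e2 σ, Finset.sum_neg_distrib, ← integral_finsetSum]
    · have e3 : ∀ z, ∑ σ : Perm (Fin 8), ((Perm.sign σ : ℤ) : ℝ) * (B z ![(stdB ∘ σ) 1] *
          fderiv ℝ (fun z => (o1 z ![(stdB ∘ σ) 2, (stdB ∘ σ) 3] *
            o2 z ![(stdB ∘ σ) 4, (stdB ∘ σ) 5] * o3 z ![(stdB ∘ σ) 6, (stdB ∘ σ) 7])) z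
            ((stdB ∘ σ) 0)) = 0 := by
        intro z
        exact alt_wedge_zero B o1 o2 o3 h1 h2 h3 d1 d2 d3 z
      simp_rw [e3]
      simp
    · intro σ _
      refine Integrable.const_mul ?_ _
      have hd := ((hO (stdB ∘ σ)).continuous_fderiv one_ne_zero).clm_apply
        (continuous_const (y := (stdB ∘ σ) 0))
      exact ((hb _).continuous.mul hd).integrable_of_hasCompactSupport (hbc _).mul_right
  · intro σ _
    refine Integrable.const_mul ?_ _
    have hd := ((hb ((stdB ∘ σ) 1)).continuous_fderiv one_ne_zero).clm_apply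
      (continuous_const (y := (stdB ∘ σ) 0))
    exact (hd.mul (hO (stdB ∘ σ)).continuous).integrable_of_hasCompactSupport
      ((hbc _).fderiv_apply (𝕜 := ℝ) _).mul_right

end C3

end Pool.Agent.Work.MP_2a78db_gt
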