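import Pool.Agent.Work.MP_2a78db_gt.TopForm

/-!
Module C3, geometric part: the overlaps with the chart `c` are connected and of full measure.
-/

namespace Pool.Agent.Work.MP_2a78db_gt

namespace C3

open MeasureTheory Module

/-- the coordinate subspace `z i = 0` -/
noncomputable def S0 (i : Fin 4) : Submodule ℝ V4 :=
  LinearMap.ker (LinearMap.proj i : V4 →ₗ[ℝ] ℂ)

theorem mem_S0 (i : Fin 4) (z : V4) : z ∈ S0 i ↔ z i = 0 := Iff.rfl

/-- the subspace `n3 z = 0` -/
noncomputable def L3 : Submodule ℝ V4 :=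
  S0 0 ⊓ LinearMap.ker (Complex.reLm.comp (LinearMap.proj 1 : V4 →ₗ[ℝ] ℂ))

/-- the subspace `n5 z = 0` -/
noncomputable def L5 : Submodule ℝ V4 :=
  S0 2 ⊓ S0 3 ⊓ LinearMap.ker (Complex.imLm.comp (LinearMap.proj 1 : V4 →ₗ[ℝ] ℂ))

theorem mem_L3 (z : V4) : z ∈ L3 ↔ n3 z = 0 := by
  unfold L3 n3
  simp only [Submodule.mem_inf, mem_S0, LinearMap.mem_ker, LinearMap.comp_apply,
    LinearMap.proj_apply, Complex.reLm_coe]
  constructor
  · rintro ⟨h1, h2⟩
    rw [h1, h2]; simp
  · intro h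
    have h1 : (z 0).re = 0 := by nlinarith [sq_nonneg (z 0).re, sq_nonneg (z 0).im, sq_nonneg (z 1).re]
    have h2 : (z 0).im = 0 := by nlinarith [sq_nonneg (z 0).re, sq_nonneg (z 0).im, sq_nonneg (z 1).re]
    have h3 : (z 1).re = 0 := by nlinarith [sq_nonneg (z 0).re, sq_nonneg (z 0).im, sq_nonneg (z 1).re]
    exact ⟨Complex.ext h1 h2, h3⟩

theorem mem_L5 (z : V4) : z ∈ L5 ↔ n5 z = 0 := by
  unfold L5 n5
  simp only [Submodule.mem_inf, mem_S0, LinearMap.mem_ker, LinearMap.comp_apply,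
    LinearMap.proj_apply, Complex.imLm_coe]
  constructor
  · rintro ⟨⟨h1, h2⟩, h3⟩
    rw [h1, h2, h3]; simp
  · intro h
    have q1 := sq_nonneg (z 1).im
    have q2 := sq_nonneg (z 2).re
    have q3 := sq_nonneg (z 2).im
    have q4 := sq_nonneg (z 3).re
    have q5 := sq_nonneg (z 3).im
    have h1 : (z 1).im = 0 := pow_eq_zero_iff (n := 2) (by norm_num) |>.1 (by linarith)
    have h2 : (z 2).re = 0 := pow_eq_zero_iff (n := 2) (by norm_num) |>.1 (by linarith)
    have h3 : (z 2).im = 0 := pow_eq_zero_iff (n := 2) (by norm_num) |>.1 (by linarith)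
    have h4 : (z 3).re = 0 := pow_eq_zero_iff (n := 2) (by norm_num) |>.1 (by linarith)
    have h5 : (z 3).im = 0 := pow_eq_zero_iff (n := 2) (by norm_num) |>.1 (by linarith)
    exact ⟨⟨Complex.ext h2 h3, Complex.ext h4 h5⟩, h1⟩

theorem finrank_V4 : finrank ℝ V4 = 8 := by
  rw [Module.finrank_eq_card_basis D0.b8]
  simp

theorem finrank_S0 (i : Fin 4) : finrank ℝ (S0 i) + 2 = 8 := by
  have h := LinearMap.finrank_range_add_finrank_ker (LinearMap.proj i : V4 →ₗ[ℝ] ℂ)
  rw [finrank_V4, LinearMap.range_eq_top.2 (LinearMap.proj_surjective i), finrank_top,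
    Complex.finrank_real_complex] at h
  have h2 : finrank ℝ (S0 i) =
    finrank ℝ (LinearMap.ker (LinearMap.proj i : V4 →ₗ[ℝ] ℂ)) := rfl
  rw [h2, add_comm]
  exact h

theorem L3_le : L3 ≤ S0 0 := inf_le_left

theorem L5_le : L5 ≤ S0 2 := inf_le_left.trans inf_le_left

theorem finrank_L3 : finrank ℝ L3 + 2 ≤ 8 := by
  have h1 := Submodule.finrank_mono L3_le
  have h2 := finrank_S0 0
  omega

theorem finrank_L5 : finrank ℝ L5 + 2 ≤ 8 := by
  have h1 := Submodule.finrank_mono L5_le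
  have h2 := finrank_S0 2
  omega

/-- The complement of a finite union of subspaces of codimension at least 2 is preconnected. -/
theorem isPreconnected_compl (S : Finset (Submodule ℝ V4)) (hS : ∀ L ∈ S, finrank ℝ L + 2 ≤ 8) :
    IsPreconnected {z : V4 | ∀ L ∈ S, z ∉ L} := by
  classical
  refine isPreconnected_of_forall_pair fun x hx y hy => ?_
  have hsup : ∀ (L : Submodule ℝ V4) (w : V4), finrank ℝ L + 2 ≤ 8 → L ⊔ ℝ ∙ w ≠ ⊤ := by
    intro L w hL h
    have h1 := Submodule.finrank_add_le_finrank_add_finrank L (ℝ ∙ w)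
    rw [h, finrank_top, finrank_V4] at h1
    have h2 : finrank ℝ (ℝ ∙ w) ≤ 1 := by
      have := finrank_span_le_card (R := ℝ) ({w} : Set V4)
      simpa using this
    omega
  have hne := Subspace.biUnion_ne_univ_of_top_notMem
    (s := S.image (fun L => L ⊔ ℝ ∙ x) ∪ S.image (fun L => L ⊔ ℝ ∙ y)) (by
      intro h
      rw [Finset.mem_union, Finset.mem_image, Finset.mem_image] at h
      rcases h with ⟨L, hL, h⟩ | ⟨L, hL, h⟩
      · exact hsup L x (hS L hL) h
      · exact hsup L y (hS L hL) h)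
  obtain ⟨p, hp⟩ := (Set.ne_univ_iff_exists_notMem _).1 hne
  simp only [Set.mem_iUnion, not_exists, Finset.mem_union, Finset.mem_image] at hp
  have hpx : ∀ L ∈ S, p ∉ L ⊔ ℝ ∙ x := fun L hL h => hp _ (Or.inl ⟨L, hL, rfl⟩) h
  have hpy : ∀ L ∈ S, p ∉ L ⊔ ℝ ∙ y := fun L hL h => hp _ (Or.inr ⟨L, hL, rfl⟩) h
  have hseg : ∀ w : V4, (∀ L ∈ S, w ∉ L) → (∀ L ∈ S, p ∉ L ⊔ ℝ ∙ w) →
      segment ℝ w p ⊆ {z : V4 | ∀ L ∈ S, z ∉ L} := by
    rintro w hw hpw z ⟨a, b, ha, hb, hab, rfl⟩ L hL hz
    rcases eq_or_ne b 0 with h0 | h0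
    · rw [h0, add_zero] at hab
      rw [h0, hab, one_smul, zero_smul, add_zero] at hz
      exact hw L hL hz
    · apply hpw L hL
      have e : p = b⁻¹ • (a • w + b • p) + (-(b⁻¹ * a)) • w := by
        rw [smul_add, smul_smul, smul_smul, inv_mul_cancel₀ h0, one_smul, neg_smul]
        abel
      rw [e]
      exact Submodule.add_mem_sup (L.smul_mem _ hz)
        (Submodule.smul_mem _ _ (Submodule.mem_span_singleton_self w))
  refine ⟨segment ℝ x p ∪ segment ℝ y p, Set.union_subset (hseg x hx hpx) (hseg y hy hpy),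
    Or.inl (left_mem_segment ℝ x p), Or.inr (left_mem_segment ℝ y p), ?_⟩
  exact IsPreconnected.union p (right_mem_segment ℝ x p) (right_mem_segment ℝ y p)
    (convex_segment x p).isPreconnected (convex_segment y p).isPreconnected

theorem inv_ne (z : V4) (h3 : n3 z ≠ 0) (h5 : n5 z ≠ 0) (i : Fin 4) :
    (inv3 (inv5 z)) i = 0 ↔ z i = 0 := by
  have e3 : n3 (inv5 z) = n3 z := by simp [n3, inv5]
  fin_cases i
  · change (⟨((inv5 z) 0).re / n3 (inv5 z), ((inv5 z) 0).im / n3 (inv5 z)⟩ : ℂ) = 0 ↔ _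
    rw [e3]
    simp [inv5, Complex.ext_iff, h3]
  · change (⟨((inv5 z) 1).re / n3 (inv5 z), ((inv5 z) 1).im⟩ : ℂ) = 0 ↔ _
    rw [e3]
    simp [inv5, Complex.ext_iff, h3, h5]
  · simp [inv3, inv5, Complex.ext_iff, h5]
  · simp [inv3, inv5, Complex.ext_iff, h5]

/-- The overlaps with chart `c`, seen in chart `c`, are preconnected. -/
theorem isPreconnected_O (k : Ch) : IsPreconnected (O .c k) := by
  cases k with
  | a =>
    have : O .c .a = {z : V4 | ∀ L ∈ ({L5} : Finset (Submodule ℝ V4)), z ∉ L} := by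
      ext z; simp [O, mem_L5]
    rw [this]
    exact isPreconnected_compl _ (by simpa using finrank_L5)
  | b =>
    have : O .c .b = {z : V4 | ∀ L ∈ ({L3} : Finset (Submodule ℝ V4)), z ∉ L} := by
      ext z; simp [O, mem_L3]
    rw [this]
    exact isPreconnected_compl _ (by simpa using finrank_L3)
  | c => exact isPreconnected_univ
  | B i =>
    classical
    have : O .c (.B i) = {z : V4 | ∀ L ∈ ({L3, L5, S0 i} : Finset (Submodule ℝ V4)), z ∉ L} := by
      ext z
      simp only [O, domXi, imXi, toXi, Set.mem_ofPred_eq, Finset.mem_insert, Finset.mem_singleton,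
        forall_eq_or_imp, forall_eq, mem_L3, mem_L5, mem_S0]
      constructor
      · rintro ⟨⟨h3, h5⟩, hi⟩
        exact ⟨h3, h5, fun h => hi ((inv_ne z h3 h5 i).2 h)⟩
      · rintro ⟨h3, h5, hi⟩
        exact ⟨⟨h3, h5⟩, fun h => hi ((inv_ne z h3 h5 i).1 h)⟩
    rw [this]
    refine isPreconnected_compl _ ?_
    intro L hL
    simp only [Finset.mem_insert, Finset.mem_singleton] at hL
    rcases hL with rfl | rfl | rfl
    · exact finrank_L3
    · exact finrank_L5
    · exact (finrank_S0 i).le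

theorem S0_ne_top (i : Fin 4) : S0 i ≠ ⊤ := by
  intro h
  have h1 := finrank_S0 i
  rw [h, finrank_top, finrank_V4] at h1
  omega

theorem volume_S0 (i : Fin 4) : volume (S0 i : Set V4) = 0 :=
  Measure.addHaar_submodule _ _ (S0_ne_top i)

/-- The overlaps with chart `c` have full measure. -/
theorem volume_compl_O (k : Ch) : volume (O k .c)ᶜ = 0 := by
  cases k with
  | a =>
    refine measure_mono_null ?_ (volume_S0 2)
    intro z hz
    have : n5 z = 0 := by simpa [O] using hz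
    exact L5_le ((mem_L5 z).2 this)
  | b =>
    refine measure_mono_null ?_ (volume_S0 0)
    intro z hz
    have : n3 z = 0 := by simpa [O] using hz
    exact L3_le ((mem_L3 z).2 this)
  | c => simp [O]
  | B i =>
    refine measure_mono_null (t := (S0 i : Set V4) ∪ ((S0 0 : Set V4) ∪ (S0 2 : Set V4))) ?_ ?_
    · intro z hz
      by_contra hcon
      simp only [Set.mem_union, SetLike.mem_coe, mem_S0, not_or] at hcon
      obtain ⟨hi, h0, h2⟩ := hcon
      apply hz
      simp only [O, domXi, imXi, toXi, Set.mem_ofPred_eq]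
      have hb : ∀ j, z j ≠ 0 → bl i z j ≠ 0 := by
        intro j hj
        unfold bl
        split_ifs
        · exact hi
        · exact mul_ne_zero hi hj
      refine ⟨hi, ?_, ?_⟩
      · intro h
        exact hb 0 h0 (L3_le ((mem_L3 _).2 h))
      · intro h
        exact hb 2 h2 (L5_le ((mem_L5 _).2 h))
    · exact measure_union_null (volume_S0 i) (measure_union_null (volume_S0 0) (volume_S0 2))

end C3

end Pool.Agent.Work.MP_2a78db_gt
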