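import Pool.Agent.Work.MP_2a78db_gt.C3a
import Pool.Agent.Work.MP_2a78db_gt.C3b
import Pool.Agent.Work.MP_2a78db_gt.A3

/-!
Module C3: integrability of top forms and Stokes' theorem on the glued space.
-/

namespace Pool.Agent.Work.MP_2a78db_gt

namespace C3

open MeasureTheory
open scoped Topology ContDiff

variable {M : Type} [TopologicalSpace M]

theorem T_mem (D : SpaceData M) (k l : Ch) {z : V4} (hz : z ∈ O k l) : T k l z ∈ O l k := by
  rw [← D.overlap l k, Set.mem_preimage, D.symm_trans k l hz]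
  exact D.symm_mem k z

theorem T_T (D : SpaceData M) (k l : Ch) {z : V4} (hz : z ∈ O k l) : T l k (T k l z) = z := by
  rw [← D.trans l k _ (T_mem D k l hz), D.symm_trans k l hz, D.apply_symm]

theorem contDiffAt_T (k l : Ch) {z : V4} (hz : z ∈ O k l) : ContDiffAt ℝ ∞ (T k l) z :=
  (contDiffOn_T k l).contDiffAt ((isOpen_O k l).mem_nhds hz)

theorem hasFDerivAt_T (k l : Ch) {z : V4} (hz : z ∈ O k l) :
    HasFDerivAt (T k l) (fderiv ℝ (T k l) z) z :=
  ((contDiffAt_T k l hz).differentiableAt (by simp)).hasFDerivAt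

theorem det_ne (D : SpaceData M) (k l : Ch) {z : V4} (hz : z ∈ O k l) :
    (fderiv ℝ (T k l) z).det ≠ 0 := by
  have h1 := (hasFDerivAt_T l k (T_mem D k l hz)).comp z (hasFDerivAt_T k l hz)
  have h2 : HasFDerivAt (T l k ∘ T k l) (ContinuousLinearMap.id ℝ V4) z := by
    refine (hasFDerivAt_id z).congr_of_eventuallyEq ?_
    filter_upwards [(isOpen_O k l).mem_nhds hz] with w hw
    exact T_T D k l hw
  have h3 := h1.unique h2
  have h4 : (fderiv ℝ (T l k) (T k l z)).det * (fderiv ℝ (T k l) z).det = 1 := by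
    have h5 : (fderiv ℝ (T l k) (T k l z) : V4 →ₗ[ℝ] V4) ∘ₗ (fderiv ℝ (T k l) z : V4 →ₗ[ℝ] V4) =
        LinearMap.id := by
      refine LinearMap.ext fun v => ?_
      exact congrArg (fun A : V4 →L[ℝ] V4 => A v) h3
    have h6 := LinearMap.det_comp (fderiv ℝ (T l k) (T k l z) : V4 →ₗ[ℝ] V4)
      (fderiv ℝ (T k l) z : V4 →ₗ[ℝ] V4)
    rw [h5, LinearMap.det_id] at h6
    exact h6.symm
  exact right_ne_zero_of_mul_eq_one h4

theorem sign_const (D : SpaceData M) (k : Ch) :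
    ∃ ε : ℝ, ∀ z ∈ O .c k, (fderiv ℝ (T .c k) z).det = ε * |(fderiv ℝ (T .c k) z).det| := by
  have hcont : ContinuousOn (fun z => (fderiv ℝ (T .c k) z).det) (O .c k) :=
    ContinuousLinearMap.continuous_det.comp_continuousOn
      ((contDiffOn_T .c k).continuousOn_fderiv_of_isOpen (isOpen_O .c k) (by simp))
  by_cases hp : ∀ z ∈ O .c k, 0 < (fderiv ℝ (T .c k) z).det
  · exact ⟨1, fun z hz => by rw [abs_of_pos (hp z hz), one_mul]⟩
  · by_cases hn : ∀ z ∈ O .c k, (fderiv ℝ (T .c k) z).det < 0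
    · exact ⟨-1, fun z hz => by rw [abs_of_neg (hn z hz)]; ring⟩
    · exfalso
      push Not at hp hn
      obtain ⟨x, hx, hx'⟩ := hp
      obtain ⟨y, hy, hy'⟩ := hn
      obtain ⟨z, hz, hz'⟩ := (isPreconnected_O k).intermediate_value hx hy hcont ⟨hx', hy'⟩
      exact det_ne D .c k hz hz'

/-- Change of variables between chart `c` and chart `k`. -/
theorem cov (D : SpaceData M) (k : Ch) (g h : V4 → ℝ) (hh : Integrable h)
    (hg : ∀ z ∈ O .c k, g z = (fderiv ℝ (T .c k) z).det * h (T .c k z))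
    (hg0 : ∀ z, z ∉ O .c k → g z = 0) :
    Integrable g ∧ (∫ z, h z = 0 → ∫ z, g z = 0) := by
  obtain ⟨ε, hε⟩ := sign_const D k
  have hmeas : MeasurableSet (O .c k) := (isOpen_O .c k).measurableSet
  have hinj : Set.InjOn (T .c k) (O .c k) := by
    intro x hx y hy hxy
    rw [← T_T D .c k hx, hxy, T_T D .c k hy]
  have himg : T .c k '' O .c k = O k .c := by
    ext y
    constructor
    · rintro ⟨x, hx, rfl⟩
      exact T_mem D .c k hx
    · intro hy
      exact ⟨T k .c y, T_mem D k .c hy, T_T D k .c hy⟩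
  have hder : ∀ x ∈ O .c k,
      HasFDerivWithinAt (T .c k) (fderiv ℝ (T .c k) x) (O .c k) x := fun x hx =>
    (hasFDerivAt_T .c k hx).hasFDerivWithinAt
  have h1 : IntegrableOn h (T .c k '' O .c k) := hh.integrableOn
  rw [integrableOn_image_iff_integrableOn_abs_det_fderiv_smul volume hmeas hder hinj] at h1
  have heq : Set.EqOn (fun x => ε * (|(fderiv ℝ (T .c k) x).det| • h (T .c k x))) g (O .c k) := by
    intro x hx
    simp only [smul_eq_mul]
    rw [hg x hx, ← mul_assoc, ← hε x hx]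
  have h2 : IntegrableOn g (O .c k) := (integrableOn_congr_fun heq hmeas).1 (h1.const_mul ε)
  have hsupp : Function.support g ⊆ O .c k := by
    intro z hz
    by_contra hcon
    exact hz (hg0 z hcon)
  have h3 : Integrable g := (integrableOn_iff_integrable_of_support_subset hsupp).1 h2
  refine ⟨h3, fun h0 => ?_⟩
  rw [← setIntegral_eq_integral_of_forall_compl_eq_zero (s := O .c k) (fun z hz => hg0 z hz),
    ← setIntegral_congr_fun hmeas heq, integral_const_mul,
    ← integral_image_eq_integral_abs_det_fderiv_smul volume hmeas hder hinj, himg]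
  have h4 : ∫ x in O k .c, h x = ∫ x, h x := by
    rw [← setIntegral_univ (μ := volume) (f := h)]
    apply setIntegral_congr_set
    have : O k .c =ᵐ[volume] (Set.univ : Set V4) := by
      rw [ae_eq_univ]
      exact volume_compl_O k
    exact this
  rw [h4, h0, mul_zero]

/-- Pullback of a localized compatible form. -/
theorem pull {n : ℕ} (ψ : Ch → Ch → V4 → ℝ)
    (hψ : ∀ k l l', ∀ z ∈ O l l', ψ k l z = ψ k l' (T l l' z))
    (γ : Ch → V4 → V4 [⋀^Fin n]→L[ℝ] ℝ) (hc : Compat n γ) (k : Ch) {z : V4} (hz : z ∈ O .c k) :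
    ψ k .c z • γ .c z =
      (ψ k k (T .c k z) • γ k (T .c k z)).compContinuousLinearMap (fderiv ℝ (T .c k) z) := by
  rw [hψ k .c k z hz, hc .c k z hz]
  rfl

theorem ext_pull {n : ℕ} (ψ : Ch → Ch → V4 → ℝ) (hψs : ∀ k l, ContDiff ℝ ∞ (ψ k l))
    (hψ : ∀ k l l', ∀ z ∈ O l l', ψ k l z = ψ k l' (T l l' z))
    (γ : Ch → V4 → V4 [⋀^Fin n]→L[ℝ] ℝ) (hs : ∀ k, ContDiff ℝ 1 (γ k)) (hc : Compat n γ)
    (k : Ch) {z : V4} (hz : z ∈ O .c k) :
    extDeriv (fun w => ψ k .c w • γ .c w) z =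
      (extDeriv (fun w => ψ k k w • γ k w) (T .c k z)).compContinuousLinearMap
        (fderiv ℝ (T .c k) z) := by
  have hd : DifferentiableAt ℝ (fun w => ψ k k w • γ k w) (T .c k z) :=
    (((hψs k k).of_le (by simp)).smul (hs k)).differentiable one_ne_zero _
  rw [← extDeriv_pullback hd (contDiffAt_T .c k hz) (by
    rw [minSmoothness_of_isRCLikeNormedField]; exact WithTop.coe_le_coe.2 le_top)]
  apply Filter.EventuallyEq.extDeriv_eq
  filter_upwards [(isOpen_O .c k).mem_nhds hz] with w hw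
  exact pull ψ hψ γ hc k hw

theorem ext_zero {n : ℕ} (ψ : Ch → Ch → V4 → ℝ) (hsup : ∀ k l, tsupport (ψ k l) ⊆ O l k)
    (γ : Ch → V4 → V4 [⋀^Fin n]→L[ℝ] ℝ) (k : Ch) {z : V4} (hz : z ∉ O .c k) :
    extDeriv (fun w => ψ k .c w • γ .c w) z = 0 := by
  have h1 : z ∉ tsupport (ψ k .c) := fun h => hz (hsup k .c h)
  have h2 : (fun w => ψ k .c w • γ .c w) =ᶠ[𝓝 z] fun _ => 0 := by
    filter_upwards [(isClosed_tsupport (ψ k .c)).isOpen_compl.mem_nhds h1] with w hw
    rw [image_eq_zero_of_notMem_tsupport hw, zero_smul]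
  rw [h2.extDeriv_eq]
  ext v
  rw [extDeriv_apply (differentiableAt_const _)]
  simp

theorem extDeriv_sum {n : ℕ} (F : Ch → V4 → V4 [⋀^Fin n]→L[ℝ] ℝ)
    (hF : ∀ k, ContDiff ℝ 1 (F k)) (z : V4) :
    extDeriv (fun w => ∑ k, F k w) z = ∑ k, extDeriv (F k) z := by
  have hd : ∀ k, DifferentiableAt ℝ (F k) z := fun k => (hF k).differentiable one_ne_zero z
  have h : ∀ S : Finset Ch, extDeriv (fun w => ∑ k ∈ S, F k w) z = ∑ k ∈ S, extDeriv (F k) z := by
    intro S
    induction S using Finset.induction_on with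
    | empty =>
      simp only [Finset.sum_empty]
      ext v
      rw [extDeriv_apply (differentiableAt_const _)]
      simp
    | insert j S ha ih =>
      simp only [Finset.sum_insert ha]
      rw [extDeriv_fun_add (hd j) (DifferentiableAt.fun_sum fun k _ => hd k), ih]
  exact h Finset.univ

/-- continuity of the exterior derivative of a `C^1` form, evaluated -/
theorem continuous_extDeriv {n : ℕ} (γ : V4 → V4 [⋀^Fin n]→L[ℝ] ℝ) (hγ : ContDiff ℝ 1 γ)
    (v : Fin (n + 1) → V4) : Continuous fun z => extDeriv γ z v := by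
  have h1 : ∀ z, extDeriv γ z v =
      ∑ i, (-1 : ℝ) ^ i.val * fderiv ℝ (fun x => γ x (i.removeNth v)) z (v i) := by
    intro z
    rw [extDeriv_apply (hγ.differentiable one_ne_zero).differentiableAt]
    refine Finset.sum_congr rfl fun i _ => ?_
    rw [zsmul_eq_mul]
    push_cast
    rfl
  simp_rw [h1]
  refine continuous_finsetSum _ fun i _ => Continuous.mul continuous_const ?_
  exact ((contDiff_eval γ hγ _).continuous_fderiv one_ne_zero).clm_apply continuous_const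

theorem hasCompactSupport_extDeriv {n : ℕ} (γ : V4 → V4 [⋀^Fin n]→L[ℝ] ℝ)
    (hc : HasCompactSupport γ) : HasCompactSupport fun z => extDeriv γ z := by
  have h := hc.fderiv (𝕜 := ℝ)
  refine HasCompactSupport.comp_left (g := fun A : V4 →L[ℝ] V4 [⋀^Fin n]→L[ℝ] ℝ =>
    ContinuousAlternatingMap.alternatizeUncurryFin A) h ?_
  ext v
  simp [ContinuousAlternatingMap.alternatizeUncurryFin_apply]

end C3

open C3 MeasureTheory
open scoped ContDiff

/-- C3 -/
theorem integrable_top {M : Type} [TopologicalSpace M] [T2Space M] [CompactSpace M]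
    (D : SpaceData M) (η : Ch → V4 → V4 [⋀^Fin 8]→L[ℝ] ℝ) (hs : ∀ k, Continuous (η k))
    (hc : Compat 8 η) : Integrable fun z => η .c z stdB := by
  obtain ⟨ψ, hψs, hψc, hsup, hsum, hψ⟩ := exists_partition D
  have h1 : (fun z => η .c z stdB) = fun z => ∑ k, (ψ k .c z • η .c z) stdB := by
    funext z
    have : ∀ k, (ψ k .c z • η .c z) stdB = ψ k .c z * η .c z stdB := fun k => rfl
    simp only [this]
    rw [← Finset.sum_mul, hsum, one_mul]
  rw [h1]
  refine integrable_finsetSum _ fun k _ => ?_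
  refine (cov D k _ (fun z => (ψ k k z • η k z) stdB) ?_ ?_ ?_).1
  · have : (fun z => (ψ k k z • η k z) stdB) = fun z => ψ k k z * η k z stdB := rfl
    rw [this]
    have he : Continuous fun z => η k z stdB :=
      (ContinuousAlternatingMap.apply ℝ V4 ℝ stdB).continuous.comp (hs k)
    exact ((hψs k k).continuous.mul he).integrable_of_hasCompactSupport (hψc k).mul_right
  · intro z hz
    rw [pull ψ hψ η hc k hz, D0.top_comp]
  · intro z hz
    have h2 : ψ k .c z = 0 := image_eq_zero_of_notMem_tsupport fun h => hz (hsup k .c h)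
    rw [h2, zero_smul]
    rfl

/-- C3 -/
theorem stokes_top {M : Type} [TopologicalSpace M] [T2Space M] [CompactSpace M]
    (D : SpaceData M) (γ : Ch → V4 → V4 [⋀^Fin 7]→L[ℝ] ℝ) (hs : ∀ k, ContDiff ℝ ∞ (γ k))
    (hc : Compat 7 γ) : ∫ z, extDeriv (γ .c) z stdB = 0 := by
  obtain ⟨ψ, hψs, hψc, hsup, hsum, hψ⟩ := exists_partition D
  have hs1 : ∀ k, ContDiff ℝ 1 (γ k) := fun k => (hs k).of_le (by simp)
  have hp1 : ∀ k l, ContDiff ℝ 1 (ψ k l) := fun k l => (hψs k l).of_le (by simp)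
  have h0 : γ .c = fun w => ∑ k, ψ k .c w • γ .c w := by
    funext w
    rw [← Finset.sum_smul, hsum, one_smul]
  have h1 : ∀ z, extDeriv (γ .c) z stdB =
      ∑ k, extDeriv (fun w => ψ k .c w • γ .c w) z stdB := by
    intro z
    conv_lhs => rw [h0]
    rw [extDeriv_sum (fun k w => ψ k .c w • γ .c w) (fun k => (hp1 k .c).smul (hs1 .c)),
      ContinuousAlternatingMap.sum_apply]
  simp_rw [h1]
  have key : ∀ k, Integrable (fun z => extDeriv (fun w => ψ k .c w • γ .c w) z stdB) ∧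
      ∫ z, extDeriv (fun w => ψ k .c w • γ .c w) z stdB = 0 := by
    intro k
    have hcs : HasCompactSupport fun w => ψ k k w • γ k w := (hψc k).smul_right
    have hcd : ContDiff ℝ 1 fun w => ψ k k w • γ k w := (hp1 k k).smul (hs1 k)
    have hint : Integrable fun z => extDeriv (fun w => ψ k k w • γ k w) z stdB :=
      (continuous_extDeriv _ hcd stdB).integrable_of_hasCompactSupport
        ((hasCompactSupport_extDeriv _ hcs).comp_left
          (g := fun a : V4 [⋀^Fin 8]→L[ℝ] ℝ => a stdB) rfl)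
    have hcov := cov D k (fun z => extDeriv (fun w => ψ k .c w • γ .c w) z stdB)
      (fun z => extDeriv (fun w => ψ k k w • γ k w) z stdB) hint (fun z hz => by
        rw [ext_pull ψ hψs hψ γ hs1 hc k hz, D0.top_comp]) (fun z hz => by
        rw [ext_zero ψ hsup γ k hz]; rfl)
    exact ⟨hcov.1, hcov.2 (local_stokes _ hcd hcs)⟩
  rw [integral_finsetSum _ fun k _ => (key k).1]
  exact Finset.sum_eq_zero fun k _ => (key k).2

namespace C3

section generic

variable {E : Type*} [NormedAddCommGroup E] [NormedSpace ℝ E]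

theorem wedge4_eq_zero (F o1 o2 o3 : E [⋀^Fin 2]→L[ℝ] ℝ) (v : Fin 8 → E) (h : F = 0) :
    wedge4 ![F, o1, o2, o3] v = 0 := by
  rw [D0.wedge4_apply, h]
  refine Finset.sum_eq_zero fun σ _ => ?_
  have e0 : (![0, o1, o2, o3] : Fin 4 → E [⋀^Fin 2]→L[ℝ] ℝ) 0 = 0 := rfl
  have : (0 : E [⋀^Fin 2]→L[ℝ] ℝ) ![v (σ 0), v (σ 1)] = 0 := rfl
  rw [e0, this]
  ring

theorem wedge4_sum_left (G : E [⋀^Fin 2]→L[ℝ] ℝ) (F : Ch → E [⋀^Fin 2]→L[ℝ] ℝ)
    (o1 o2 o3 : E [⋀^Fin 2]→L[ℝ] ℝ) (v : Fin 8 → E) (h : ∀ w, G w = ∑ k, F k w) :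
    wedge4 ![G, o1, o2, o3] v = ∑ k, wedge4 ![F k, o1, o2, o3] v := by
  simp only [D0.wedge4_apply, Matrix.cons_val]
  rw [Finset.sum_comm]
  refine Finset.sum_congr rfl fun σ _ => ?_
  rw [h, Finset.sum_mul, Finset.sum_mul, Finset.sum_mul, Finset.mul_sum]

theorem wedge4_continuous {X : Type*} [TopologicalSpace X] (F o1 o2 o3 : X → E [⋀^Fin 2]→L[ℝ] ℝ)
    (hF : ∀ v, Continuous fun z => F z v) (h1 : ∀ v, Continuous fun z => o1 z v)
    (h2 : ∀ v, Continuous fun z => o2 z v) (h3 : ∀ v, Continuous fun z => o3 z v)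
    (v : Fin 8 → E) : Continuous fun z => wedge4 ![F z, o1 z, o2 z, o3 z] v := by
  simp only [D0.wedge4_apply, Matrix.cons_val]
  refine continuous_finsetSum _ fun σ _ => Continuous.mul continuous_const ?_
  exact (((hF _).mul (h1 _)).mul (h2 _)).mul (h3 _)

theorem top_comp_gen (b : Module.Basis (Fin 8) ℝ E) (η : E [⋀^Fin 8]→L[ℝ] ℝ) (L : E →L[ℝ] E) :
    η (⇑L ∘ b) = L.det * η b := by
  have h1 := AlternatingMap.eq_smul_basis_det b η.toAlternatingMap
  have h2 : η (⇑L ∘ b) = η.toAlternatingMap (⇑L ∘ b) := rfl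
  rw [h2, h1, AlternatingMap.smul_apply]
  have h3 := b.det_comp (L : E →ₗ[ℝ] E) b
  rw [b.det_self, mul_one] at h3
  have h4 : b.det (⇑L ∘ ⇑b) = LinearMap.det (L : E →ₗ[ℝ] E) := h3
  rw [h4]
  simp only [ContinuousAlternatingMap.coe_toAlternatingMap, smul_eq_mul]
  rw [mul_comm]

theorem wedge_pull (F o1 o2 o3 F' o1' o2' o3' : E [⋀^Fin 2]→L[ℝ] ℝ) (L : E →L[ℝ] E)
    (hF : ∀ x y, F ![x, y] = F' ![L x, L y]) (h1 : ∀ x y, o1 ![x, y] = o1' ![L x, L y])
    (h2 : ∀ x y, o2 ![x, y] = o2' ![L x, L y]) (h3 : ∀ x y, o3 ![x, y] = o3' ![L x, L y])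
    (v : Fin 8 → E) :
    wedge4 ![F, o1, o2, o3] v = wedge4 ![F', o1', o2', o3'] (⇑L ∘ v) := by
  rw [D0.wedge4_apply, D0.wedge4_apply]
  refine Finset.sum_congr rfl fun σ _ => ?_
  congr 1
  simp only [Matrix.cons_val, hF, h1, h2, h3, Function.comp]

theorem wedge_top_gen (b : Module.Basis (Fin 8) ℝ E) (v : Fin 8 → E) (hv : ⇑b = v)
    (F o1 o2 o3 F' o1' o2' o3' : E [⋀^Fin 2]→L[ℝ] ℝ) (L : E →L[ℝ] E)
    (hF : ∀ x y, F ![x, y] = F' ![L x, L y]) (h1 : ∀ x y, o1 ![x, y] = o1' ![L x, L y])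
    (h2 : ∀ x y, o2 ![x, y] = o2' ![L x, L y]) (h3 : ∀ x y, o3 ![x, y] = o3' ![L x, L y]) :
    wedge4 ![F, o1, o2, o3] v = L.det * wedge4 ![F', o1', o2', o3'] v := by
  have e1 := wedge_pull F o1 o2 o3 F' o1' o2' o3' L hF h1 h2 h3 v
  have e2 := top_comp_gen b (wedge4 ![F', o1', o2', o3']) L
  rw [hv] at e2
  exact e1.trans e2

end generic

theorem ev2 (F F' : V4 [⋀^Fin 2]→L[ℝ] ℝ) (L : V4 →L[ℝ] V4)
    (hF : F = F'.compContinuousLinearMap L) (x y : V4) : F ![x, y] = F' ![L x, L y] := by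
  rw [hF]
  have : (⇑L ∘ ![x, y]) = ![L x, L y] := by funext i; fin_cases i <;> simp
  rw [ContinuousAlternatingMap.compContinuousLinearMap_apply, this]

/-- One chart of the wedge product statement. -/
theorem glue_wedge {M : Type} [TopologicalSpace M] (D : SpaceData M) (k : Ch)
    (Fc Fk c1 c2 c3 k1 k2 k3 : V4 → V4 [⋀^Fin 2]→L[ℝ] ℝ)
    (hF : ∀ v, Continuous fun z => Fk z v) (hFc : HasCompactSupport Fk)
    (h1 : ∀ v, Continuous fun z => k1 z v)
    (h2 : ∀ v, Continuous fun z => k2 z v) (h3 : ∀ v, Continuous fun z => k3 z v)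
    (hp : ∀ z ∈ O .c k, Fc z = (Fk (T .c k z)).compContinuousLinearMap (fderiv ℝ (T .c k) z))
    (hp1 : ∀ z ∈ O .c k, c1 z = (k1 (T .c k z)).compContinuousLinearMap (fderiv ℝ (T .c k) z))
    (hp2 : ∀ z ∈ O .c k, c2 z = (k2 (T .c k z)).compContinuousLinearMap (fderiv ℝ (T .c k) z))
    (hp3 : ∀ z ∈ O .c k, c3 z = (k3 (T .c k z)).compContinuousLinearMap (fderiv ℝ (T .c k) z))
    (h0 : ∀ z, z ∉ O .c k → Fc z = 0) :
    Integrable (fun z => wedge4 ![Fc z, c1 z, c2 z, c3 z] stdB) ∧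
      (∫ z, wedge4 ![Fk z, k1 z, k2 z, k3 z] stdB = 0 →
        ∫ z, wedge4 ![Fc z, c1 z, c2 z, c3 z] stdB = 0) := by
  have hint : Integrable fun z => wedge4 ![Fk z, k1 z, k2 z, k3 z] stdB := by
    apply Continuous.integrable_of_hasCompactSupport
    · exact wedge4_continuous _ _ _ _ hF h1 h2 h3 stdB
    · refine hFc.mono ?_
      intro z hz hz0
      exact hz (wedge4_eq_zero (Fk z) (k1 z) (k2 z) (k3 z) stdB hz0)
  exact cov D k (fun z => wedge4 ![Fc z, c1 z, c2 z, c3 z] stdB)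
    (fun z => wedge4 ![Fk z, k1 z, k2 z, k3 z] stdB) hint
    (fun z hz => wedge_top_gen D0.b8 stdB D0.b8_eq _ _ _ _ _ _ _ _ _ (ev2 _ _ _ (hp z hz))
      (ev2 _ _ _ (hp1 z hz)) (ev2 _ _ _ (hp2 z hz)) (ev2 _ _ _ (hp3 z hz)))
    (fun z hz => wedge4_eq_zero _ _ _ _ stdB (h0 z hz))

end C3

end Pool.Agent.Work.MP_2a78db_gt
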