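import Pool.Agent.Work.MP_2a78db_gt.Cliff

/-!
The chirality dichotomy for orthogonal complex structures.
-/

namespace Pool.Agent.Work.MP_2a78db_gt.Cliff

open Matrix Fock

theorem core1 {R : Type*} [CommRing R] (a b c d : R) (ha : a * a = -1) (hb : b * b = -1)
    (hc : c * c = -1) (hd : d * d = -1) :
    (a + b + c + d) * (a + b + c + d) + 4 =
      2 * (c * d + b * d + b * c) * (a * b * c * d + 1) := by
  linear_combination
    (1) * ha + (1 + (-2) * a * c * d^2 + (-2) * a * c^2 * d) * hb + (1 + 2 * a * d + (-2) * a *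
    b * d^2) * hc + (1 + 2 * a * c + 2 * a * b) * hd

theorem core2 {R : Type*} [CommRing R] (a b c d : R) (ha : a * a = -1) (hb : b * b = -1)
    (hc : c * c = -1) (hd : d * d = -1) :
    ((a + b + c + d) * (a + b + c + d)) * ((a + b + c + d) * (a + b + c + d) + 16) =
      4 * (c * d + b * d + b * c) * (4 - 4 * (a * (b + c + d)) +
        (c * d + b * d + b * c) * (a * b * c * d - 1)) * (a * b * c * d - 1) := by
  linear_combination
    (15 + 6 * d^2 + 12 * c * d + 6 * c^2 + 12 * b * d + 12 * b * c + 16 * b * c^2 * d^3 + 16 * b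
    * c^3 * d^2 + 6 * b^2 + 16 * b^2 * c * d^3 + 48 * b^2 * c^2 * d^2 + 16 * b^2 * c^3 * d +
    (-4) * b^2 * c^4 * d^4 + 16 * b^3 * c * d^2 + 16 * b^3 * c^2 * d + (-8) * b^3 * c^3 * d^4 +
    (-8) * b^3 * c^4 * d^3 + (-4) * b^4 * c^2 * d^4 + (-8) * b^4 * c^3 * d^3 + (-4) * b^4 * c^4
    * d^2 + 4 * a * d + 4 * a * c + 4 * a * b + 1 * a^2) * ha + (9 + 2 * d^2 + 4 * c * d + (-16)
    * c * d^3 + 2 * c^2 + (-48) * c^2 * d^2 + (-4) * c^2 * d^4 + (-16) * c^3 * d + (-8) * c^3 *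
    d^3 + (-4) * c^4 * d^2 + 4 * c^4 * d^4 + 4 * b * d + 4 * b * c + (-16) * b * c * d^2 + (-16)
    * b * c^2 * d + 8 * b * c^3 * d^4 + 8 * b * c^4 * d^3 + 1 * b^2 + 4 * b^2 * c^2 * d^4 + 8 *
    b^2 * c^3 * d^3 + 4 * b^2 * c^4 * d^2 + (-4) * a * d + (-4) * a * c + (-16) * a * c * d^2 +
    (-16) * a * c^2 * d + 16 * a * c^2 * d^3 + 16 * a * c^3 * d^2 + 4 * a * b + 8 * a * b * c *
    d^3 + 16 * a * b * c^2 * d^2 + 8 * a * b * c^3 * d) * hb + (7 + 46 * d^2 + 8 * d^4 + 20 * c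
    * d + 8 * c * d^3 + 1 * c^2 + 4 * c^2 * d^2 + (-4) * c^2 * d^4 + 20 * b * d + (-8) * b * d^3
    + 4 * b * c + (-16) * b * c * d^2 + (-8) * b * c * d^4 + (-8) * b * c^2 * d^3 + 12 * a * d +
    (-16) * a * d^3 + 4 * a * c + (-16) * a * c * d^2 + (-4) * a * b + (-32) * a * b * d^2 +
    (-8) * a * b * c * d + 8 * a * b * c * d^3) * hc + ((-31) + (-7) * d^2 + 12 * c * d + 12 * b
    * d + 28 * b * c + 8 * b * c * d^2 + 20 * a * d + 28 * a * c + 28 * a * b + (-16) * a * b *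
    c * d) * hd

theorem ncore {A : Type*} [Ring A] [Algebra ℂ A] (a b c d : A)
    (hab : a * b = b * a) (hac : a * c = c * a) (had : a * d = d * a) (hbc : b * c = c * b)
    (hbd : b * d = d * b) (hcd : c * d = d * c) (ha : a * a = -1) (hb : b * b = -1)
    (hc : c * c = -1) (hd : d * d = -1) :
    ((a + b + c + d) * (a + b + c + d) + 4 =
      2 * (c * d + b * d + b * c) * (a * b * c * d + 1)) ∧
    (((a + b + c + d) * (a + b + c + d)) * ((a + b + c + d) * (a + b + c + d) + 16) =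
      4 * (c * d + b * d + b * c) * (4 - 4 * (a * (b + c + d)) +
        (c * d + b * d + b * c) * (a * b * c * d - 1)) * (a * b * c * d - 1)) := by
  have hcomm : ∀ x ∈ ({a, b, c, d} : Set A), ∀ y ∈ ({a, b, c, d} : Set A), x * y = y * x := by
    intro x hx y hy
    simp only [Set.mem_insert_iff, Set.mem_singleton_iff] at hx hy
    rcases hx with rfl | rfl | rfl | rfl <;> rcases hy with rfl | rfl | rfl | rfl <;>
      first
      | rfl
      | assumption
      | (symm; assumption)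
  have hm := Algebra.isMulCommutative_adjoin ℂ hcomm
  let _ : CommRing (Algebra.adjoin ℂ ({a, b, c, d} : Set A)) := IsMulCommutative.instCommRing
  let a' : Algebra.adjoin ℂ ({a, b, c, d} : Set A) := ⟨a, Algebra.subset_adjoin (by simp)⟩
  let b' : Algebra.adjoin ℂ ({a, b, c, d} : Set A) := ⟨b, Algebra.subset_adjoin (by simp)⟩
  let c' : Algebra.adjoin ℂ ({a, b, c, d} : Set A) := ⟨c, Algebra.subset_adjoin (by simp)⟩
  let d' : Algebra.adjoin ℂ ({a, b, c, d} : Set A) := ⟨d, Algebra.subset_adjoin (by simp)⟩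
  have ea : a' * a' = -1 := Subtype.ext ha
  have eb : b' * b' = -1 := Subtype.ext hb
  have ec : c' * c' = -1 := Subtype.ext hc
  have ed : d' * d' = -1 := Subtype.ext hd
  have h1 := congrArg Subtype.val (core1 a' b' c' d' ea eb ec ed)
  have h2 := congrArg Subtype.val (core2 a' b' c' d' ea eb ec ed)
  exact ⟨h1, h2⟩

theorem four_mul' {A : Type*} [Ring A] [Algebra ℂ A] (P : A) : (4 : A) * P = (4 : ℂ) • P := by
  rw [Algebra.smul_def, map_ofNat]

theorem finA {A : Type*} [Ring A] [Algebra ℂ A] (σ G Y P : A) (h : σ * σ + 4 = 2 * G * (Y + 1))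
    (hY : Y * P = -P) : ((1 / 2 : ℂ) • σ) * ((1 / 2 : ℂ) • σ) * P = -P := by
  have h1 : σ * σ * P = - ((4 : ℂ) • P) := by
    have h2 : (σ * σ + 4) * P = 0 := by
      rw [h, mul_assoc, add_mul, hY, one_mul, neg_add_cancel, mul_zero]
    rw [add_mul, four_mul'] at h2
    exact eq_neg_of_add_eq_zero_left h2
  rw [smul_mul_smul_comm, smul_mul_assoc, h1, smul_neg, smul_smul]
  norm_num

theorem finB {A : Type*} [Ring A] [Algebra ℂ A] (σ K Y P : A)
    (h : (σ * σ) * (σ * σ + 16) = K * (Y - 1)) (hY : Y * P = P) :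
    ((1 / 2 : ℂ) • σ) * ((1 / 2 : ℂ) • σ) * (((1 / 2 : ℂ) • σ) * ((1 / 2 : ℂ) • σ) + 4) * P
      = 0 := by
  have h1 : (σ * σ) * (σ * σ + 16) * P = 0 := by
    rw [h, mul_assoc, sub_mul, hY, one_mul, sub_self, mul_zero]
  have h2 : ((1 / 2 : ℂ) • σ) * ((1 / 2 : ℂ) • σ) * (((1 / 2 : ℂ) • σ) * ((1 / 2 : ℂ) • σ) + 4) =
      (1 / 16 : ℂ) • ((σ * σ) * (σ * σ + 16)) := by
    have h4 : (4 : A) = (1 / 4 : ℂ) • 16 := by
      rw [Algebra.smul_def, ← map_ofNat (algebraMap ℂ A) 16, ← map_mul,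
        show (1 / 4 : ℂ) * OfNat.ofNat 16 = OfNat.ofNat 4 by norm_num, map_ofNat]
    rw [smul_mul_smul_comm, h4]
    rw [show (1 / 2 * (1 / 2) : ℂ) = 1 / 4 by norm_num, ← smul_add, smul_mul_smul_comm]
    norm_num
  rw [h2, smul_mul_assoc, h1, smul_zero]

/-- Adapted orthonormal family for an orthogonal complex structure. -/
structure AB (J : V5 →ₗ[ℝ] V5) (b : Fin 5 → V5) : Prop where
  ocs : OCS J
  on : ∀ i j, rip (b i) (b j) = if i = j then 1 else 0
  on' : ∀ i j, rip (b i) (J (b j)) = 0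

theorem exists_AB {J : V5 →ₗ[ℝ] V5} (h : OCS J) {z : V5} (hz : rip z z = 1) :
    ∃ b, AB J b ∧ b 0 = z := by
  obtain ⟨b, h0, h1, h2⟩ := exists_adapted h hz 4 (by omega)
  refine ⟨fun i => b i, ⟨h, fun i j => ?_, fun i j => ?_⟩, h0⟩
  · rw [h1 i (by omega) j (by omega)]
    simp [Fin.ext_iff]
  · exact h2 i (by omega) j (by omega)

/-- the ten vectors -/
noncomputable def AB.g (J : V5 →ₗ[ℝ] V5) (b : Fin 5 → V5) : RI → V5
  | .inl j => b j
  | .inr j => J (b j)

theorem AB.isON {J : V5 →ₗ[ℝ] V5} {b : Fin 5 → V5} (h : AB J b) : ON (AB.g J b) := by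
  rintro (i | i) (j | j)
  · show rip (b i) (b j) = _
    rw [h.on]; simp
  · show rip (b i) (J (b j)) = _
    rw [h.on']; simp
  · show rip (J (b i)) (b j) = _
    rw [rip_comm, h.on']; simp
  · show rip (J (b i)) (J (b j)) = _
    rw [h.ocs.orth, h.on]; simp

/-- the element `c(b_j) c(J b_j)` -/
noncomputable def X (J : V5 →ₗ[ℝ] V5) (b : Fin 5 → V5) (j : Fin 5) :
    Matrix (Finset (Fin 5)) (Finset (Fin 5)) ℂ := c (b j) * c (J (b j))

/-- one quarter of the sum of `c(f) c(J f)` over a real orthonormal basis -/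
noncomputable def Xi (J : V5 →ₗ[ℝ] V5) : Matrix (Finset (Fin 5)) (Finset (Fin 5)) ℂ :=
  (1 / 4 : ℂ) • ∑ k, c (fb k) * c (J (fb k))

/-- the part of `Xi` orthogonal to `z` and `J z` -/
noncomputable def Th (J : V5 →ₗ[ℝ] V5) (z : V5) : Matrix (Finset (Fin 5)) (Finset (Fin 5)) ℂ :=
  Xi J - (1 / 2 : ℂ) • (c z * c (J z))

section

variable {J : V5 →ₗ[ℝ] V5} {b : Fin 5 → V5}

theorem AB.cb (h : AB J b) (j : Fin 5) : c (b j) * c (b j) = 1 := by
  apply c_sq; rw [h.on, if_pos rfl]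

theorem AB.cJb (h : AB J b) (j : Fin 5) : c (J (b j)) * c (J (b j)) = 1 := by
  apply c_sq; rw [h.ocs.orth, h.on, if_pos rfl]

theorem AB.bJb (h : AB J b) (i j : Fin 5) : c (b i) * c (J (b j)) = - (c (J (b j)) * c (b i)) :=
  c_anti (h.on' i j)

theorem AB.bb (h : AB J b) {i j : Fin 5} (hij : i ≠ j) : c (b i) * c (b j) = - (c (b j) * c (b i)) :=
  c_anti (by rw [h.on, if_neg hij])

theorem AB.JbJb (h : AB J b) {i j : Fin 5} (hij : i ≠ j) :
    c (J (b i)) * c (J (b j)) = - (c (J (b j)) * c (J (b i))) :=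
  c_anti (by rw [h.ocs.orth, h.on, if_neg hij])

theorem AB.X_c (h : AB J b) (j k : Fin 5) :
    X J b j * c (b k) = (if j = k then (-1 : ℂ) else 1) • (c (b k) * X J b j) := by
  unfold X
  by_cases hjk : j = k
  · subst hjk
    rw [if_pos rfl, mul_assoc, ← neg_eq_iff_eq_neg.2 (h.bJb j j)]
    simp [mul_neg]
  · rw [if_neg hjk, one_smul, mul_assoc, ← neg_eq_iff_eq_neg.2 (h.bJb k j), mul_neg,
      ← mul_assoc, h.bb hjk, neg_mul, neg_neg, mul_assoc]

theorem AB.X_cJ (h : AB J b) (j k : Fin 5) :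
    X J b j * c (J (b k)) = (if j = k then (-1 : ℂ) else 1) • (c (J (b k)) * X J b j) := by
  unfold X
  by_cases hjk : j = k
  · subst hjk
    rw [if_pos rfl]
    rw [h.bJb j j, neg_mul, mul_neg, mul_assoc, h.bJb j j]
    simp [mul_neg]
  · rw [if_neg hjk, one_smul, mul_assoc, h.JbJb hjk, mul_neg, ← mul_assoc, h.bJb j k, neg_mul,
      neg_neg, mul_assoc]

theorem AB.X_sq (h : AB J b) (j : Fin 5) : X J b j * X J b j = -1 := by
  have e : X J b j * (c (b j) * c (J (b j))) = -1 := by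
    rw [← mul_assoc, h.X_c, if_pos rfl, neg_smul, one_smul, neg_mul, mul_assoc, X, mul_assoc,
      h.cJb, mul_one, h.cb]
  exact e

theorem AB.X_comm (h : AB J b) (j k : Fin 5) : X J b j * X J b k = X J b k * X J b j := by
  by_cases hjk : j = k
  · rw [hjk]
  · have e : X J b j * (c (b k) * c (J (b k))) = (c (b k) * c (J (b k))) * X J b j := by
      rw [← mul_assoc, h.X_c, if_neg hjk, one_smul, mul_assoc, h.X_cJ, if_neg hjk, one_smul,
        mul_assoc]
    exact e

theorem par_c (v : V5) : par * c v = - (c v * par) := par_gen _ _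

theorem c_par (v : V5) : c v * par = - (par * c v) := by rw [par_c, neg_neg]

theorem par_cc (v w : V5) : par * (c v * c w) = (c v * c w) * par := by
  rw [← mul_assoc, par_c, neg_mul, mul_assoc, par_c, mul_neg, neg_neg, mul_assoc]

theorem step {A : Type*} [Ring A] [Algebra ℂ A] {X' P' a : A} {ε δ : ℂ}
    (h1 : X' * a = ε • (a * X')) (h2 : P' * a = δ • (a * P')) :
    (X' * P') * a = (ε * δ) • (a * (X' * P')) := by
  rw [mul_assoc, h2, mul_smul_comm, ← mul_assoc, h1, smul_mul_assoc, smul_smul, mul_assoc,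
    mul_comm δ ε]

/-- the volume element -/
noncomputable def W (J : V5 →ₗ[ℝ] V5) (b : Fin 5 → V5) :
    Matrix (Finset (Fin 5)) (Finset (Fin 5)) ℂ :=
  X J b 0 * (X J b 1 * (X J b 2 * (X J b 3 * (X J b 4 * par))))

theorem AB.W_scalar (h : AB J b) : ∃ α : ℂ, W J b = α • 1 := by
  apply h.isON.scalar
  have hp : ∀ v : V5, par * c v = (-1 : ℂ) • (c v * par) := fun v => by
    rw [neg_smul, one_smul, par_c]
  rintro (k | k)
  · show W J b * c (b k) = c (b k) * W J b
    unfold W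
    rw [step (h.X_c 0 k) (step (h.X_c 1 k) (step (h.X_c 2 k) (step (h.X_c 3 k)
      (step (h.X_c 4 k) (hp (b k))))))]
    fin_cases k <;> simp
  · show W J b * c (J (b k)) = c (J (b k)) * W J b
    unfold W
    rw [step (h.X_cJ 0 k) (step (h.X_cJ 1 k) (step (h.X_cJ 2 k) (step (h.X_cJ 3 k)
      (step (h.X_cJ 4 k) (hp (J (b k)))))))]
    fin_cases k <;> simp

theorem step2 {A : Type*} [Ring A] [Algebra ℂ A] {X' P' : A} {δ : ℂ}
    (h0 : P' * X' = X' * P') (h1 : X' * X' = -1) (h2 : P' * P' = δ • 1) :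
    (X' * P') * (X' * P') = (-δ) • 1 := by
  rw [mul_assoc, ← mul_assoc P', h0, mul_assoc X' P' P', h2, ← mul_assoc, h1, mul_smul_comm,
    mul_one, smul_neg, neg_smul]

theorem AB.W_sq (h : AB J b) : W J b * W J b = (-1 : ℂ) • 1 := by
  have hpX : ∀ j, par * X J b j = X J b j * par := fun j => par_cc _ _
  have c4 : ∀ j, (X J b 4 * par) * X J b j = X J b j * (X J b 4 * par) := fun j => by
    rw [mul_assoc, hpX, ← mul_assoc, h.X_comm 4 j, mul_assoc]
  have c3 : ∀ j, (X J b 3 * (X J b 4 * par)) * X J b j = X J b j * (X J b 3 * (X J b 4 * par)) :=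
    fun j => by rw [mul_assoc, c4, ← mul_assoc, h.X_comm 3 j, mul_assoc]
  have c2 : ∀ j, (X J b 2 * (X J b 3 * (X J b 4 * par))) * X J b j =
      X J b j * (X J b 2 * (X J b 3 * (X J b 4 * par))) :=
    fun j => by rw [mul_assoc, c3, ← mul_assoc, h.X_comm 2 j, mul_assoc]
  have c1 : ∀ j, (X J b 1 * (X J b 2 * (X J b 3 * (X J b 4 * par)))) * X J b j =
      X J b j * (X J b 1 * (X J b 2 * (X J b 3 * (X J b 4 * par)))) :=
    fun j => by rw [mul_assoc, c2, ← mul_assoc, h.X_comm 1 j, mul_assoc]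
  have hp : (par : Matrix (Finset (Fin 5)) (Finset (Fin 5)) ℂ) * par = (1 : ℂ) • 1 := by
    rw [par_mul_par, one_smul]
  have := step2 (c1 0) (h.X_sq 0) (step2 (c2 1) (h.X_sq 1) (step2 (c3 2) (h.X_sq 2)
    (step2 (c4 3) (h.X_sq 3) (step2 (hpX 4) (h.X_sq 4) hp))))
  unfold W
  rw [this]
  norm_num

theorem AB.alpha (h : AB J b) : W J b = Complex.I • 1 ∨ W J b = (-Complex.I) • 1 := by
  obtain ⟨α, hα⟩ := h.W_scalar
  have h1 := h.W_sq
  rw [hα, smul_mul_smul_comm, mul_one] at h1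
  have h2 := congrFun (congrFun h1 ∅) ∅
  simp only [Matrix.smul_apply, Matrix.one_apply_eq, smul_eq_mul, mul_one] at h2
  have h3 : (α - Complex.I) * (α + Complex.I) = 0 := by
    have := Complex.I_mul_I
    linear_combination h2 - this
  rcases mul_eq_zero.1 h3 with h4 | h4
  · left; rw [hα, sub_eq_zero.1 h4]
  · right; rw [hα, eq_neg_of_add_eq_zero_left h4]

theorem AB.Xi_eq (h : AB J b) :
    Xi J = (1 / 2 : ℂ) • (X J b 0 + X J b 1 + X J b 2 + X J b 3 + X J b 4) := by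
  unfold Xi
  rw [← h.isON.clifford_sum J, Fintype.sum_sum_type]
  have e1 : ∀ j, c (AB.g J b (Sum.inl j)) * c (J (AB.g J b (Sum.inl j))) = X J b j :=
    fun j => rfl
  have e2 : ∀ j, c (AB.g J b (Sum.inr j)) * c (J (AB.g J b (Sum.inr j))) = X J b j := by
    intro j
    show c (J (b j)) * c (J (J (b j))) = c (b j) * c (J (b j))
    rw [h.ocs.sq, h.bJb]
    have : c (-(b j)) = - c (b j) := by
      have := c_smul (-1) (b j)
      simpa using this
    rw [this, mul_neg]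
  simp only [e1, e2]
  rw [Fin.sum_univ_five]
  module

theorem AB.Th_eq (h : AB J b) :
    Th J (b 0) = (1 / 2 : ℂ) • (X J b 1 + X J b 2 + X J b 3 + X J b 4) := by
  unfold Th
  rw [h.Xi_eq]
  show (1 / 2 : ℂ) • (X J b 0 + X J b 1 + X J b 2 + X J b 3 + X J b 4) -
    (1 / 2 : ℂ) • X J b 0 = _
  module

theorem AB.W_mul (h : AB J b) {P : Matrix (Finset (Fin 5)) (Finset (Fin 5)) ℂ} {α : ℂ}
    (hα : W J b = α • 1) (h0 : X J b 0 * P = (-Complex.I) • P) (h1 : par * P = P) :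
    X J b 1 * X J b 2 * X J b 3 * X J b 4 * P = (Complex.I * α) • P := by
  have e1 : W J b * P = α • P := by rw [hα, smul_mul_assoc, one_mul]
  have e2 : W J b * P = (-Complex.I) • (X J b 1 * X J b 2 * X J b 3 * X J b 4 * P) := by
    have e3 : X J b 0 * (X J b 1 * (X J b 2 * (X J b 3 * X J b 4))) =
        (X J b 1 * X J b 2 * X J b 3 * X J b 4) * X J b 0 := by
      simp only [mul_assoc]
      rw [← mul_assoc (X J b 0), h.X_comm 0 1, mul_assoc, ← mul_assoc (X J b 0), h.X_comm 0 2,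
        mul_assoc, ← mul_assoc (X J b 0), h.X_comm 0 3, mul_assoc, h.X_comm 0 4]
    calc W J b * P = X J b 0 * (X J b 1 * (X J b 2 * (X J b 3 * X J b 4))) * (par * P) := by
          unfold W; simp only [mul_assoc]
      _ = (X J b 1 * X J b 2 * X J b 3 * X J b 4) * (X J b 0 * P) := by
          rw [h1, e3, mul_assoc]
      _ = _ := by rw [h0, mul_smul_comm]
  have e4 := congrArg (fun x => Complex.I • x) (e1.symm.trans e2)
  simp only [smul_smul, mul_neg, Complex.I_mul_I, neg_neg, one_smul] at e4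
  exact e4.symm

/-- first chirality -/
def condA (J : V5 →ₗ[ℝ] V5) (z : V5) : Prop :=
  Th J z * Th J z * PP z (J z) = - PP z (J z)

/-- second chirality -/
def condB (J : V5 →ₗ[ℝ] V5) (z : V5) : Prop :=
  Th J z * Th J z * (Th J z * Th J z + 4) * PP z (J z) = 0

theorem par_pev : par * pev = pev := by
  unfold pev
  rw [mul_smul_comm, mul_add, mul_one, par_mul_par, add_comm]

theorem AB.prep (h : AB J b) : X J b 0 * PP (b 0) (J (b 0)) = (-Complex.I) • PP (b 0) (J (b 0)) ∧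
    par * PP (b 0) (J (b 0)) = PP (b 0) (J (b 0)) := by
  have hP : PP (b 0) (J (b 0)) = ((1 / 2 : ℂ) • (1 + Complex.I • X J b 0)) * pev := rfl
  constructor
  · have e : X J b 0 * (1 + Complex.I • X J b 0) = (-Complex.I) • (1 + Complex.I • X J b 0) := by
      rw [mul_add, mul_one, mul_smul_comm, h.X_sq, smul_add, smul_smul, neg_mul, Complex.I_mul_I,
        neg_neg, one_smul, smul_neg, neg_smul, add_comm]
    rw [hP, ← mul_assoc, mul_smul_comm, e, smul_comm, smul_mul_assoc]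
  · have e : par * ((1 / 2 : ℂ) • (1 + Complex.I • X J b 0)) =
        ((1 / 2 : ℂ) • (1 + Complex.I • X J b 0)) * par := by
      have := par_cc (b 0) (J (b 0))
      unfold X
      rw [mul_smul_comm, smul_mul_assoc, mul_add, add_mul, mul_one, one_mul, mul_smul_comm,
        smul_mul_assoc, this]
    rw [hP, ← mul_assoc, e, mul_assoc, par_pev]

theorem AB.condA_of (h : AB J b) (hα : W J b = Complex.I • 1) : condA J (b 0) := by
  have hTh := h.Th_eq
  obtain ⟨h0, h1⟩ := h.prep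
  unfold condA
  rw [hTh]
  generalize PP (b 0) (J (b 0)) = P at *
  have hY := h.W_mul hα h0 h1
  rw [Complex.I_mul_I, neg_smul, one_smul] at hY
  have core := ncore (X J b 1) (X J b 2) (X J b 3) (X J b 4) (h.X_comm _ _) (h.X_comm _ _)
    (h.X_comm _ _) (h.X_comm _ _) (h.X_comm _ _) (h.X_comm _ _) (h.X_sq _) (h.X_sq _)
    (h.X_sq _) (h.X_sq _)
  exact finA _ _ _ _ core.1 hY

theorem AB.condB_of (h : AB J b) (hα : W J b = (-Complex.I) • 1) : condB J (b 0) := by
  have hTh := h.Th_eq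
  obtain ⟨h0, h1⟩ := h.prep
  unfold condB
  rw [hTh]
  generalize PP (b 0) (J (b 0)) = P at *
  have hY := h.W_mul hα h0 h1
  rw [mul_neg, Complex.I_mul_I, neg_neg, one_smul] at hY
  have core := ncore (X J b 1) (X J b 2) (X J b 3) (X J b 4) (h.X_comm _ _) (h.X_comm _ _)
    (h.X_comm _ _) (h.X_comm _ _) (h.X_comm _ _) (h.X_comm _ _) (h.X_sq _) (h.X_sq _)
    (h.X_sq _) (h.X_sq _)
  exact finB _ _ _ _ core.2 hY

theorem dich (hJ : OCS J) {z : V5} (hz : rip z z = 1) : condA J z ∨ condB J z := by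
  obtain ⟨b, h, rfl⟩ := exists_AB hJ hz
  rcases h.alpha with hα | hα
  · exact Or.inl (h.condA_of hα)
  · exact Or.inr (h.condB_of hα)

/-- the projection does not vanish -/
theorem PP_ne (hJ : OCS J) {z : V5} (hz : rip z z = 1) : PP z (J z) ≠ 0 := by
  obtain ⟨b, h, rfl⟩ := exists_AB hJ hz
  intro h0
  set E : Matrix (Finset (Fin 5)) (Finset (Fin 5)) ℂ := 1 + Complex.I • X J b 0 with hE
  have h1 : E * (1 + par) = 0 := by
    have h2 : PP (b 0) (J (b 0)) = (1 / 4 : ℂ) • (E * (1 + par)) := by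
      show ((1 / 2 : ℂ) • E) * ((1 / 2 : ℂ) • (1 + par)) = _
      rw [smul_mul_smul_comm]; norm_num
    rw [h2] at h0
    exact (smul_eq_zero.1 h0).resolve_left (by norm_num)
  have hEc : E * c (b 1) = c (b 1) * E := by
    rw [hE, add_mul, mul_add, one_mul, mul_one, smul_mul_assoc, mul_smul_comm, h.X_c,
      if_neg (by decide), one_smul]
  have h2 : E * (1 - par) = 0 := by
    have e : E * (1 - par) = c (b 1) * (E * (1 + par)) * c (b 1) := by
      have e1 : (1 + par) * c (b 1) = c (b 1) * (1 - par) := by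
        rw [add_mul, mul_sub, one_mul, mul_one, par_c, sub_eq_add_neg]
      rw [mul_assoc, mul_assoc E, e1, ← mul_assoc E, hEc, mul_assoc (c (b 1)) E, ← mul_assoc,
        h.cb, one_mul]
    rw [e, h1, mul_zero, zero_mul]
  have h3 : E = 0 := by
    have e : (2 : ℂ) • E = E * (1 + par) + E * (1 - par) := by
      rw [← mul_add, two_smul]
      simp [mul_add]
    rw [h1, h2, add_zero] at e
    exact (smul_eq_zero.1 e).resolve_left two_ne_zero
  have h4 : (2 : ℂ) • (1 : Matrix (Finset (Fin 5)) (Finset (Fin 5)) ℂ) = 0 := by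
    have e : (2 : ℂ) • (1 : Matrix (Finset (Fin 5)) (Finset (Fin 5)) ℂ) =
        E + c (b 0) * E * c (b 0) := by
      have e1 : c (b 0) * X J b 0 * c (b 0) = - X J b 0 := by
        rw [mul_assoc, h.X_c, if_pos rfl, neg_smul, one_smul, mul_neg, ← mul_assoc, h.cb, one_mul]
      rw [hE, mul_add, add_mul, mul_one, h.cb, mul_smul_comm, smul_mul_assoc, e1, smul_neg]
      module
    rw [e, h3, mul_zero, zero_mul, add_zero]
  have h5 := (smul_eq_zero.1 h4).resolve_left two_ne_zero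
  exact one_ne_zero h5

theorem excl (hJ : OCS J) {z : V5} (hz : rip z z = 1) : ¬ (condA J z ∧ condB J z) := by
  rintro ⟨hA, hB⟩
  apply PP_ne hJ hz
  unfold condA at hA
  unfold condB at hB
  generalize PP z (J z) = P at *
  generalize Th J z * Th J z = S at *
  have e : S * (S + 4) * P = (-3 : ℂ) • P := by
    have e4 : (4 : Matrix (Finset (Fin 5)) (Finset (Fin 5)) ℂ) * P = (4 : ℂ) • P := four_mul' P
    rw [mul_assoc, add_mul, hA, e4, mul_add, mul_neg, hA, mul_smul_comm, hA]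
    module
  rw [e] at hB
  exact (smul_eq_zero.1 hB).resolve_left (by norm_num)

end

end Pool.Agent.Work.MP_2a78db_gt.Cliff
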