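import Pool.Agent.Work.MP_2a78db_gt.D3Defs

/-!
Orthogonal complex structures on complex 5-space and the associated Clifford elements.
-/

namespace Pool.Agent.Work.MP_2a78db_gt.Cliff

open Matrix Fock

/-- index of real coordinates -/
abbrev RI : Type := Fin 5 ⊕ Fin 5

/-- real coordinates -/
def co (v : V5) : RI → ℝ
  | .inl j => (v j).re
  | .inr j => (v j).im

/-- real standard basis of complex 5-space -/
noncomputable def fb : RI → V5
  | .inl j => Pi.single j 1
  | .inr j => Pi.single j Complex.I

theorem co_add (v w : V5) : co (v + w) = co v + co w := by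
  funext k; rcases k with j | j <;> simp [co]

theorem co_smul (t : ℝ) (v : V5) : co (t • v) = t • co v := by
  funext k; rcases k with j | j <;> simp [co]

theorem rip_eq (v w : V5) : rip v w = ∑ k, co v k * co w k := by
  unfold rip
  rw [Fintype.sum_sum_type, ← Finset.sum_add_distrib]
  refine Finset.sum_congr rfl fun j _ => ?_
  simp [co]

theorem co_injective {v w : V5} (h : co v = co w) : v = w := by
  funext j
  apply Complex.ext
  · exact congrFun h (Sum.inl j)
  · exact congrFun h (Sum.inr j)

theorem co_fb (k l : RI) : co (fb k) l = if k = l then 1 else 0 := by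
  rcases k with j | j <;> rcases l with i | i <;> simp only [co, fb, Pi.single_apply] <;>
    by_cases h : i = j <;> simp [h, eq_comm (a := j) (b := i)]

theorem co_sum {κ : Type*} (s : Finset κ) (f : κ → V5) (l : RI) :
    co (∑ k ∈ s, f k) l = ∑ k ∈ s, co (f k) l := by
  rcases l with i | i <;> simp [co]

theorem rip_comm (v w : V5) : rip v w = rip w v := by
  rw [rip_eq, rip_eq]; exact Finset.sum_congr rfl fun k _ => mul_comm _ _

theorem rip_add_left (v v' w : V5) : rip (v + v') w = rip v w + rip v' w := by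
  rw [rip_eq, rip_eq, rip_eq, ← Finset.sum_add_distrib, co_add]
  exact Finset.sum_congr rfl fun k _ => by rw [Pi.add_apply]; ring

theorem rip_smul_left (t : ℝ) (v w : V5) : rip (t • v) w = t * rip v w := by
  rw [rip_eq, rip_eq, Finset.mul_sum, co_smul]
  exact Finset.sum_congr rfl fun k _ => by rw [Pi.smul_apply, smul_eq_mul]; ring

theorem rip_add_right (v w w' : V5) : rip v (w + w') = rip v w + rip v w' := by
  rw [rip_comm, rip_add_left, rip_comm w, rip_comm w']

theorem rip_smul_right (t : ℝ) (v w : V5) : rip v (t • w) = t * rip v w := by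
  rw [rip_comm, rip_smul_left, rip_comm]

theorem rip_neg_left (v w : V5) : rip (-v) w = - rip v w := by
  have := rip_smul_left (-1) v w
  simpa using this

theorem rip_neg_right (v w : V5) : rip v (-w) = - rip v w := by
  rw [rip_comm, rip_neg_left, rip_comm]

theorem rip_fb (v : V5) (k : RI) : rip v (fb k) = co v k := by
  rw [rip_eq, Finset.sum_eq_single k]
  · rw [co_fb, if_pos rfl, mul_one]
  · intro l _ hl
    rw [co_fb, if_neg (fun h => hl h.symm), mul_zero]
  · simp

theorem rip_self_nonneg (v : V5) : 0 ≤ rip v v := by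
  rw [rip_eq]
  exact Finset.sum_nonneg fun k _ => mul_self_nonneg _

theorem rip_self_eq_zero {v : V5} (h : rip v v = 0) : v = 0 := by
  rw [rip_eq, Finset.sum_eq_zero_iff_of_nonneg (fun k _ => mul_self_nonneg _)] at h
  apply co_injective
  funext k
  have := h k (Finset.mem_univ _)
  have h0 : co v k = 0 := mul_self_eq_zero.1 this
  rw [h0]
  rcases k with j | j <;> simp [co]

theorem eq_of_rip {v w : V5} (h : ∀ x, rip v x = rip w x) : v = w := by
  apply co_injective
  funext k
  rw [← rip_fb, ← rip_fb, h]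

theorem expand_fb (v : V5) : v = ∑ k, co v k • fb k := by
  apply co_injective
  funext l
  rw [co_sum]
  simp only [co_smul, Pi.smul_apply, co_fb, smul_eq_mul]
  simp

/-- an orthogonal complex structure -/
structure OCS (J : V5 →ₗ[ℝ] V5) : Prop where
  sq : ∀ v, J (J v) = -v
  orth : ∀ v w, rip (J v) (J w) = rip v w

theorem OCS.skew {J : V5 →ₗ[ℝ] V5} (h : OCS J) (v w : V5) : rip (J v) w = - rip v (J w) := by
  have h1 := h.orth v (J w)
  rw [h.sq, rip_neg_right] at h1
  linarith

theorem OCS.self {J : V5 →ₗ[ℝ] V5} (h : OCS J) (v : V5) : rip v (J v) = 0 := by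
  have h1 := h.skew v v
  rw [rip_comm] at h1
  linarith

theorem finrank_V5 : Module.finrank ℝ V5 = 10 := by
  rw [Module.finrank_pi_fintype]
  simp [Complex.finrank_real_complex]

/-- the linear map `rip x` -/
noncomputable def ripL (x : V5) : V5 →ₗ[ℝ] ℝ where
  toFun := rip x
  map_add' := rip_add_right x
  map_smul' t v := by rw [rip_smul_right]; rfl

theorem exists_orth (k : ℕ) (hk : k < 5) (b : ℕ → V5) (J : V5 →ₗ[ℝ] V5) :
    ∃ v : V5, rip v v = 1 ∧ ∀ i < k, rip (b i) v = 0 ∧ rip (J (b i)) v = 0 := by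
  let L : V5 →ₗ[ℝ] (Fin k → ℝ) × (Fin k → ℝ) :=
    LinearMap.prod (LinearMap.pi fun i => ripL (b i)) (LinearMap.pi fun i => ripL (J (b i)))
  have hL : LinearMap.ker L ≠ ⊥ := by
    apply LinearMap.ker_ne_bot_of_finrank_lt
    rw [finrank_V5]
    simp
    omega
  obtain ⟨v, hv, hv0⟩ := (Submodule.ne_bot_iff _).1 hL
  have hpos : 0 < rip v v :=
    lt_of_le_of_ne (rip_self_nonneg v) (fun h => hv0 (rip_self_eq_zero h.symm))
  have hv1 : ∀ i < k, rip (b i) v = 0 ∧ rip (J (b i)) v = 0 := by
    intro i hi
    have h1 := congrArg Prod.fst (LinearMap.mem_ker.1 hv)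
    have h2 := congrArg Prod.snd (LinearMap.mem_ker.1 hv)
    exact ⟨congrFun h1 ⟨i, hi⟩, congrFun h2 ⟨i, hi⟩⟩
  refine ⟨(Real.sqrt (rip v v))⁻¹ • v, ?_, ?_⟩
  · rw [rip_smul_left, rip_smul_right, ← mul_assoc, ← mul_inv, Real.mul_self_sqrt hpos.le]
    exact inv_mul_cancel₀ hpos.ne'
  · intro i hi
    rw [rip_smul_right, rip_smul_right, (hv1 i hi).1, (hv1 i hi).2, mul_zero]
    exact ⟨rfl, rfl⟩

theorem exists_adapted {J : V5 →ₗ[ℝ] V5} (h : OCS J) {z : V5} (hz : rip z z = 1) (k : ℕ)
    (hk : k < 5) : ∃ b : ℕ → V5, b 0 = z ∧ (∀ i ≤ k, ∀ j ≤ k, rip (b i) (b j) =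
      if i = j then 1 else 0) ∧ ∀ i ≤ k, ∀ j ≤ k, rip (b i) (J (b j)) = 0 := by
  induction k with
  | zero =>
    refine ⟨fun _ => z, rfl, ?_, ?_⟩
    · intro i hi j hj
      rw [Nat.le_zero.1 hi, Nat.le_zero.1 hj, if_pos rfl, hz]
    · intro i _ j _
      exact h.self z
  | succ k ih =>
    obtain ⟨b, hb0, hb1, hb2⟩ := ih (by omega)
    obtain ⟨v, hv1, hv2⟩ := exists_orth (k + 1) hk b J
    have hlt : ∀ i, i ≤ k + 1 → i ≠ k + 1 → i < k + 1 := fun i h1 h2 => by omega
    refine ⟨Function.update b (k + 1) v, ?_, ?_, ?_⟩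
    · rw [Function.update_of_ne (by omega), hb0]
    · intro i hi j hj
      by_cases hi' : i = k + 1 <;> by_cases hj' : j = k + 1
      · rw [hi', hj', Function.update_self, hv1, if_pos rfl]
      · rw [hi', Function.update_self, Function.update_of_ne hj', if_neg (Ne.symm hj'), rip_comm]
        exact (hv2 j (hlt j hj hj')).1
      · rw [hj', Function.update_self, Function.update_of_ne hi', if_neg hi']
        exact (hv2 i (hlt i hi hi')).1
      · rw [Function.update_of_ne hi', Function.update_of_ne hj']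
        exact hb1 i (by omega) j (by omega)
    · intro i hi j hj
      by_cases hi' : i = k + 1 <;> by_cases hj' : j = k + 1
      · rw [hi', hj', Function.update_self, h.self]
      · rw [hi', Function.update_self, Function.update_of_ne hj', rip_comm]
        exact (hv2 j (hlt j hj hj')).2
      · rw [hj', Function.update_self, Function.update_of_ne hi']
        have := h.skew (b i) v
        rw [(hv2 i (hlt i hi hi')).2] at this
        linarith
      · rw [Function.update_of_ne hi', Function.update_of_ne hj']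
        exact hb2 i (by omega) j (by omega)

/-- an orthonormal basis -/
def ON (g : RI → V5) : Prop := ∀ m m', rip (g m) (g m') = if m = m' then 1 else 0

theorem ON.parseval {g : RI → V5} (h : ON g) (k l : RI) :
    ∑ m, co (g m) k * co (g m) l = if k = l then 1 else 0 := by
  let G : Matrix RI RI ℝ := Matrix.of fun m k => co (g m) k
  have h1 : G * Gᵀ = 1 := by
    ext m m'
    rw [Matrix.mul_apply, Matrix.one_apply, ← h m m', rip_eq]
    rfl
  have h2 : Gᵀ * G = 1 := mul_eq_one_comm.1 h1
  have h3 := congrFun (congrFun h2 k) l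
  rw [Matrix.mul_apply, Matrix.one_apply] at h3
  exact h3

theorem ON.expand {g : RI → V5} (h : ON g) (v : V5) : v = ∑ m, rip (g m) v • g m := by
  apply co_injective
  funext l
  rw [co_sum]
  simp only [co_smul, Pi.smul_apply, smul_eq_mul, rip_eq, Finset.sum_mul]
  rw [Finset.sum_comm]
  have : ∀ k, ∑ m, co (g m) k * co v k * co (g m) l = (if k = l then 1 else 0) * co v k := by
    intro k
    rw [← h.parseval k l, Finset.sum_mul]
    exact Finset.sum_congr rfl fun m _ => by ring
  simp only [this]
  simp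

theorem c_sum {κ : Type*} (s : Finset κ) (f : κ → V5) :
    c (∑ k ∈ s, f k) = ∑ k ∈ s, c (f k) := by
  classical
  induction s using Finset.induction_on with
  | empty =>
    simp only [Finset.sum_empty]
    have := c_smul (0 : ℝ) (0 : V5)
    simpa using this
  | insert a s ha ih => rw [Finset.sum_insert ha, Finset.sum_insert ha, c_add, ih]

theorem ON.clifford_sum {g : RI → V5} (h : ON g) (J : V5 →ₗ[ℝ] V5) :
    ∑ m, c (g m) * c (J (g m)) = ∑ k, c (fb k) * c (J (fb k)) := by
  have e : ∀ m, c (g m) * c (J (g m)) =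
      ∑ k, ∑ l, ((co (g m) k * co (g m) l : ℝ) : ℂ) • (c (fb k) * c (J (fb l))) := by
    intro m
    have e1 : c (g m) = ∑ k, ((co (g m) k : ℝ) : ℂ) • c (fb k) := by
      conv_lhs => rw [expand_fb (g m), c_sum]
      exact Finset.sum_congr rfl fun k _ => by rw [c_smul]
    have e2 : c (J (g m)) = ∑ k, ((co (g m) k : ℝ) : ℂ) • c (J (fb k)) := by
      conv_lhs => rw [expand_fb (g m), map_sum, c_sum]
      exact Finset.sum_congr rfl fun k _ => by rw [map_smul, c_smul]
    rw [e1, e2, Finset.sum_mul_sum]
    refine Finset.sum_congr rfl fun k _ => Finset.sum_congr rfl fun l _ => ?_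
    rw [smul_mul_smul_comm, Complex.ofReal_mul]
  simp only [e]
  rw [Finset.sum_comm]
  have e3 : ∀ k, ∑ m, ∑ l, ((co (g m) k * co (g m) l : ℝ) : ℂ) • (c (fb k) * c (J (fb l))) =
      c (fb k) * c (J (fb k)) := by
    intro k
    rw [Finset.sum_comm]
    have : ∀ l, ∑ m, ((co (g m) k * co (g m) l : ℝ) : ℂ) • (c (fb k) * c (J (fb l))) =
        (if k = l then (1 : ℂ) else 0) • (c (fb k) * c (J (fb l))) := by
      intro l
      rw [← Finset.sum_smul]
      congr 1
      rw [← Complex.ofReal_sum, h.parseval k l]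
      split_ifs <;> simp
    simp only [this]
    simp
  simp only [e3]

/-- commuting with an orthonormal basis implies being a scalar -/
theorem ON.scalar {g : RI → V5} (h : ON g) (W : Matrix (Finset (Fin 5)) (Finset (Fin 5)) ℂ)
    (hW : ∀ m, W * c (g m) = c (g m) * W) : ∃ α : ℂ, W = α • 1 := by
  have h1 : ∀ v : V5, W * c v = c v * W := by
    intro v
    rw [h.expand v, c_sum, Finset.mul_sum, Finset.sum_mul]
    refine Finset.sum_congr rfl fun m _ => ?_
    rw [c_smul, mul_smul_comm, smul_mul_assoc, hW]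
  apply scalar_of_commute
  · intro i
    have e1 := h1 (Pi.single i 1)
    have e2 := h1 (Pi.single i Complex.I)
    rw [c_single] at e1
    rw [c_single_I] at e2
    have e3 : cr i = (1 / 2 : ℂ) • ((cr i + an i) + (-Complex.I) • (Complex.I • (cr i - an i))) := by
      rw [smul_smul, neg_mul, Complex.I_mul_I, neg_neg, one_smul]
      module
    rw [e3, mul_smul_comm, smul_mul_assoc, mul_add, add_mul, mul_smul_comm (-Complex.I),
      smul_mul_assoc (-Complex.I), e1, e2]
  · intro i
    have e1 := h1 (Pi.single i 1)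
    have e2 := h1 (Pi.single i Complex.I)
    rw [c_single] at e1
    rw [c_single_I] at e2
    have e3 : an i = (1 / 2 : ℂ) • ((cr i + an i) + Complex.I • (Complex.I • (cr i - an i))) := by
      rw [smul_smul, Complex.I_mul_I]
      module
    rw [e3, mul_smul_comm, smul_mul_assoc, mul_add, add_mul, mul_smul_comm Complex.I,
      smul_mul_assoc Complex.I, e1, e2]

theorem c_sq {v : V5} (h : rip v v = 1) : c v * c v = 1 := by
  have e := c_anticomm v v
  have : (2 * ∑ j, ((starRingEnd ℂ) (v j) * v j).re : ℝ) = 2 := by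
    have : ∑ j, ((starRingEnd ℂ) (v j) * v j).re = 1 := h
    rw [this]; norm_num
  rw [this, ← two_smul ℂ] at e
  have e2 := congrArg (fun x => (1 / 2 : ℂ) • x) e
  simp only [smul_smul] at e2
  norm_num at e2
  exact e2

theorem c_anti {v w : V5} (h : rip v w = 0) : c v * c w = - (c w * c v) := by
  have e := c_anticomm v w
  have : (2 * ∑ j, ((starRingEnd ℂ) (v j) * w j).re : ℝ) = 0 := by
    have : ∑ j, ((starRingEnd ℂ) (v j) * w j).re = 0 := h
    rw [this]; norm_num
  rw [this, Complex.ofReal_zero, zero_smul] at e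
  exact eq_neg_of_add_eq_zero_left e

end Pool.Agent.Work.MP_2a78db_gt.Cliff
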