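import Mathlib

/-!
Module D1, part a: homotopies into subsets, nondegenerate skew matrices, first reduction step.
-/

set_option autoImplicit false

namespace Pool.Agent.Work.MP_2a78db_gt.D1

open Matrix
open scoped Topology

/-! ### Homotopies of maps with values in a subset -/

/-- `f` and `g` are homotopic as maps into the set `S`. -/
def Htp {X Y : Type*} [TopologicalSpace X] [TopologicalSpace Y] (S : Set Y) (f g : X → Y) : Prop :=
  ∃ H : ℝ × X → Y, Continuous H ∧ (∀ p, H p ∈ S) ∧ (∀ x, H (0, x) = f x) ∧ (∀ x, H (1, x) = g x)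

/-- clamp to the unit interval -/
noncomputable def cl (t : ℝ) : ℝ := max 0 (min t 1)

lemma cl_cont : Continuous cl := by unfold cl; fun_prop

lemma cl_mem (t : ℝ) : cl t ∈ Set.Icc (0:ℝ) 1 :=
  ⟨le_max_left _ _, max_le zero_le_one (min_le_right _ _)⟩

lemma cl_zero : cl 0 = 0 := by simp [cl]

lemma cl_one : cl 1 = 1 := by simp [cl]

lemma cl_of_mem {t : ℝ} (h : t ∈ Set.Icc (0:ℝ) 1) : cl t = t := by
  rw [cl, min_eq_left h.2, max_eq_right h.1]

lemma cl_of_nonpos {t : ℝ} (h : t ≤ 0) : cl t = 0 := by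
  rw [cl, max_eq_left]
  exact (min_le_left _ _).trans h

lemma cl_of_one_le {t : ℝ} (h : 1 ≤ t) : cl t = 1 := by
  rw [cl, min_eq_right h, max_eq_right zero_le_one]

section Htp

variable {X Y Z : Type*} [TopologicalSpace X] [TopologicalSpace Y] [TopologicalSpace Z]
  {S : Set Y} {S' : Set Z} {f g k : X → Y}

lemma Htp.of_clamp (H : ℝ × X → Y) (hH : ContinuousOn H (Set.Icc (0:ℝ) 1 ×ˢ Set.univ))
    (hS : ∀ t ∈ Set.Icc (0:ℝ) 1, ∀ x, H (t, x) ∈ S) (h0 : ∀ x, H (0, x) = f x)
    (h1 : ∀ x, H (1, x) = g x) : Htp S f g := by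
  refine ⟨fun p => H (cl p.1, p.2), ?_, fun p => hS _ (cl_mem _) _, fun x => ?_, fun x => ?_⟩
  · exact hH.comp_continuous ((cl_cont.comp continuous_fst).prodMk continuous_snd)
      fun p => ⟨cl_mem _, Set.mem_univ _⟩
  · simp only [cl_zero]; exact h0 x
  · simp only [cl_one]; exact h1 x

lemma Htp.mem_left (h : Htp S f g) (x : X) : f x ∈ S := by
  obtain ⟨H, _, hS, h0, _⟩ := h
  rw [← h0]; exact hS _

lemma Htp.mem_right (h : Htp S f g) (x : X) : g x ∈ S := by
  obtain ⟨H, _, hS, _, h1⟩ := h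
  rw [← h1]; exact hS _

lemma Htp.cont_left (h : Htp S f g) : Continuous f := by
  obtain ⟨H, hH, _, h0, _⟩ := h
  have : f = fun x => H (0, x) := funext fun x => (h0 x).symm
  rw [this]
  exact hH.comp (continuous_const.prodMk continuous_id)

lemma Htp.cont_right (h : Htp S f g) : Continuous g := by
  obtain ⟨H, hH, _, _, h1⟩ := h
  have : g = fun x => H (1, x) := funext fun x => (h1 x).symm
  rw [this]
  exact hH.comp (continuous_const.prodMk continuous_id)

lemma Htp.refl (hf : Continuous f) (hS : ∀ x, f x ∈ S) : Htp S f f :=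
  ⟨fun p => f p.2, hf.comp continuous_snd, fun _ => hS _, fun _ => rfl, fun _ => rfl⟩

lemma Htp.symm (h : Htp S f g) : Htp S g f := by
  obtain ⟨H, hH, hS, h0, h1⟩ := h
  refine ⟨fun p => H (1 - p.1, p.2), ?_, fun p => hS _, fun x => ?_, fun x => ?_⟩
  · exact hH.comp ((continuous_const.sub continuous_fst).prodMk continuous_snd)
  · simp only [sub_zero]; exact h1 x
  · simp only [sub_self]; exact h0 x

lemma Htp.trans (h : Htp S f g) (h' : Htp S g k) : Htp S f k := by
  obtain ⟨H, hH, hS, h0, h1⟩ := h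
  obtain ⟨H', hH', hS', h0', h1'⟩ := h'
  refine ⟨fun p => if p.1 ≤ 1 / 2 then H (cl (2 * p.1), p.2) else H' (cl (2 * p.1 - 1), p.2),
    ?_, fun p => ?_, fun x => ?_, fun x => ?_⟩
  · refine Continuous.if_le ?_ ?_ continuous_fst continuous_const ?_
    · exact hH.comp ((cl_cont.comp (continuous_const.mul continuous_fst)).prodMk continuous_snd)
    · exact hH'.comp ((cl_cont.comp ((continuous_const.mul continuous_fst).sub
        continuous_const)).prodMk continuous_snd)
    · intro p hp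
      rw [hp]
      have e1 : (2:ℝ) * (1 / 2) = 1 := by norm_num
      rw [e1, cl_one, sub_self, cl_zero, h1, h0']
  · dsimp only
    split_ifs
    · exact hS _
    · exact hS' _
  · simp only [mul_zero, cl_zero]
    rw [if_pos (by norm_num)]
    exact h0 x
  · have : ¬ ((1:ℝ) ≤ 1 / 2) := by norm_num
    simp only [if_neg this]
    have e : (2:ℝ) * 1 - 1 = 1 := by norm_num
    rw [e, cl_one]
    exact h1' x

lemma Htp.map (h : Htp S f g) (φ : Y → Z) (hφ : ContinuousOn φ S)
    (hφS : ∀ y ∈ S, φ y ∈ S') : Htp S' (φ ∘ f) (φ ∘ g) := by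
  obtain ⟨H, hH, hS, h0, h1⟩ := h
  refine ⟨fun p => φ (H p), hφ.comp_continuous hH hS, fun p => hφS _ (hS p), fun x => ?_,
    fun x => ?_⟩
  · simp only [h0, Function.comp]
  · simp only [h1, Function.comp]

lemma Htp.congr_left {f' : X → Y} (h : Htp S f g) (hf : ∀ x, f' x = f x) : Htp S f' g := by
  have : f' = f := funext hf
  rw [this]; exact h

lemma Htp.congr_right {g' : X → Y} (h : Htp S f g) (hg : ∀ x, g' x = g x) : Htp S f g' := by
  have : g' = g := funext hg
  rw [this]; exact h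

end Htp

/-- `f` is null-homotopic in `S` -/
def Null {X Y : Type*} [TopologicalSpace X] [TopologicalSpace Y] (S : Set Y) (f : X → Y) : Prop :=
  ∃ c, Htp S f (fun _ => c)

/-! ### Nondegenerate skew matrices -/

/-- nondegenerate skew matrices -/
def Sk (n : Type) [Fintype n] : Set (Matrix n n ℝ) := {A | Aᵀ = -A ∧ ∀ v, A *ᵥ v = 0 → v = 0}

section Sk

variable {n : Type} [Fintype n] [DecidableEq n]

lemma Sk_conj {A P : Matrix n n ℝ} (hA : A ∈ Sk n) (hP : ∀ v, P *ᵥ v = 0 → v = 0) :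
    Pᵀ * A * P ∈ Sk n := by
  refine ⟨?_, fun v hv => ?_⟩
  · rw [transpose_mul, transpose_mul, transpose_transpose, hA.1]
    simp [Matrix.mul_assoc]
  · apply hP
    apply hA.2
    -- `Pᵀ` is injective as `P` is
    have hdet : P.det ≠ 0 := by
      intro h
      obtain ⟨v, hv0, hv⟩ := Matrix.exists_mulVec_eq_zero_iff.2 h
      exact hv0 (hP v hv)
    have hdet' : Pᵀ.det ≠ 0 := by rwa [det_transpose]
    have hinj : ∀ u, Pᵀ *ᵥ u = 0 → u = 0 := by
      intro u hu
      by_contra hne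
      exact hdet' (Matrix.exists_mulVec_eq_zero_iff.1 ⟨u, hne, hu⟩)
    apply hinj
    rw [← hv]
    simp [Matrix.mulVec_mulVec, Matrix.mul_assoc]

end Sk

end Pool.Agent.Work.MP_2a78db_gt.D1
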