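import Pool.Agent.Work.MP_2a78db_gt.D1a

/-!
Module D1, part b: the 3-sphere, maps missing a direction, normal form of a row.
-/

set_option autoImplicit false

namespace Pool.Agent.Work.MP_2a78db_gt.D1

open Matrix
open scoped Topology ContDiff

/-- the unit sphere of `R^4` -/
def S3set : Set (Fin 4 → ℝ) := {p | ∑ i, p i ^ 2 = 1}

/-- the unit sphere of `R^4` -/
abbrev S3 : Type := ↥S3set

lemma isClosed_S3set : IsClosed S3set :=
  isClosed_eq (by fun_prop) continuous_const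

lemma isCompact_S3set : IsCompact S3set := by
  apply Metric.isCompact_of_isClosed_isBounded isClosed_S3set
  rw [isBounded_iff_forall_norm_le]
  refine ⟨1, fun p hp => ?_⟩
  rw [pi_norm_le_iff_of_nonneg zero_le_one]
  intro i
  have h : p i ^ 2 ≤ 1 := by
    have h1 : ∑ i, p i ^ 2 = 1 := hp
    rw [← h1]
    exact Finset.single_le_sum (f := fun i => p i ^ 2) (fun i _ => sq_nonneg _) (Finset.mem_univ i)
  rw [Real.norm_eq_abs]
  exact (sq_le_one_iff_abs_le_one _).1 h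

instance : CompactSpace S3 := isCompact_iff_compactSpace.1 isCompact_S3set

/-- inverse stereographic projection, as a map into `R^4` -/
noncomputable def phi (y : Fin 3 → ℝ) : Fin 4 → ℝ :=
  ![(∑ i, y i ^ 2 - 1) / (∑ i, y i ^ 2 + 1), 2 * y 0 / (∑ i, y i ^ 2 + 1),
    2 * y 1 / (∑ i, y i ^ 2 + 1), 2 * y 2 / (∑ i, y i ^ 2 + 1)]

lemma phi_mem (y : Fin 3 → ℝ) : phi y ∈ S3set := by
  have h : (0:ℝ) < ∑ i, y i ^ 2 + 1 := by positivity
  rw [Fin.sum_univ_three] at h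
  simp only [S3set, Set.mem_ofPred_eq, phi, Fin.sum_univ_four, Fin.sum_univ_three]
  simp
  field_simp
  ring

lemma phi_contDiff : ContDiff ℝ ∞ phi := by
  rw [contDiff_pi]
  intro i
  have h : ∀ y : Fin 3 → ℝ, (∑ i, y i ^ 2 + 1) ≠ 0 := fun y => by positivity
  fin_cases i
  · exact ContDiff.div (by fun_prop) (by fun_prop) h
  · exact ContDiff.div (by fun_prop) (by fun_prop) h
  · exact ContDiff.div (by fun_prop) (by fun_prop) h
  · exact ContDiff.div (by fun_prop) (by fun_prop) h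

/-- every point except the pole is in the image of `phi` -/
lemma exists_phi (p : Fin 4 → ℝ) (hp : p ∈ S3set) : p = ![1, 0, 0, 0] ∨ ∃ y, phi y = p := by
  have h1 : p 0 ^ 2 + p 1 ^ 2 + p 2 ^ 2 + p 3 ^ 2 = 1 := by
    have : ∑ i, p i ^ 2 = 1 := hp
    rwa [Fin.sum_univ_four] at this
  by_cases h : p 0 = 1
  · left
    rw [h] at h1
    have a1 : p 1 = 0 := by nlinarith [sq_nonneg (p 1), sq_nonneg (p 2), sq_nonneg (p 3)]
    have a2 : p 2 = 0 := by nlinarith [sq_nonneg (p 1), sq_nonneg (p 2), sq_nonneg (p 3)]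
    have a3 : p 3 = 0 := by nlinarith [sq_nonneg (p 1), sq_nonneg (p 2), sq_nonneg (p 3)]
    funext i
    fin_cases i
    · exact h
    · exact a1
    · exact a2
    · exact a3
  · right
    have h0 : 1 - p 0 ≠ 0 := fun h' => h (by linarith)
    refine ⟨![p 1 / (1 - p 0), p 2 / (1 - p 0), p 3 / (1 - p 0)], ?_⟩
    have hn : ∑ i, (![p 1 / (1 - p 0), p 2 / (1 - p 0), p 3 / (1 - p 0)] : Fin 3 → ℝ) i ^ 2
        = (1 + p 0) / (1 - p 0) := by
      rw [Fin.sum_univ_three]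
      simp
      field_simp
      linarith
    have hn1 : (1 + p 0) / (1 - p 0) + 1 = 2 / (1 - p 0) := by field_simp; ring
    have hn2 : (1 + p 0) / (1 - p 0) - 1 = 2 * p 0 / (1 - p 0) := by field_simp; ring
    funext i
    simp only [phi, hn, hn1, hn2]
    fin_cases i <;> simp <;> field_simp

section miss

variable {ι : Type} [Fintype ι]

lemma dot_self_nonneg (v : ι → ℝ) : 0 ≤ v ⬝ᵥ v := by
  rw [dotProduct]; exact Finset.sum_nonneg fun i _ => mul_self_nonneg _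

lemma dot_self_pos {v : ι → ℝ} (hv : v ≠ 0) : 0 < v ⬝ᵥ v := by
  refine lt_of_le_of_ne (dot_self_nonneg v) fun h => hv ?_
  exact dotProduct_self_eq_zero.1 h.symm

/-- strict Cauchy–Schwarz -/
lemma strict_cs {g w : ι → ℝ} (hg : g ≠ 0) (hw : ∀ t : ℝ, w ≠ t • g) :
    (g ⬝ᵥ w) ^ 2 < (g ⬝ᵥ g) * (w ⬝ᵥ w) := by
  have hg0 := dot_self_pos hg
  have hz : (g ⬝ᵥ g) • w - (g ⬝ᵥ w) • g ≠ 0 := by
    intro h
    apply hw ((g ⬝ᵥ w) / (g ⬝ᵥ g))
    rw [sub_eq_zero] at h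
    have h2 : (g ⬝ᵥ g)⁻¹ • ((g ⬝ᵥ g) • w) = (g ⬝ᵥ g)⁻¹ • ((g ⬝ᵥ w) • g) := by rw [h]
    rw [smul_smul, inv_mul_cancel₀ hg0.ne', one_smul, smul_smul] at h2
    rw [div_eq_inv_mul]
    exact h2
  have h1 := dot_self_pos hz
  have h2 : ((g ⬝ᵥ g) • w - (g ⬝ᵥ w) • g) ⬝ᵥ ((g ⬝ᵥ g) • w - (g ⬝ᵥ w) • g) =
      (g ⬝ᵥ g) * ((g ⬝ᵥ g) * (w ⬝ᵥ w) - (g ⬝ᵥ w) ^ 2) := by
    simp only [sub_dotProduct, dotProduct_sub, smul_dotProduct, dotProduct_smul, smul_eq_mul]
    rw [dotProduct_comm w g]; ring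
  rw [h2] at h1
  have := (mul_pos_iff_of_pos_left hg0).1 h1
  linarith

/-- a nonvanishing map from the 3-sphere to a space of dimension at least 5 can be moved to miss
a line, which can be chosen in a given open half space -/
lemma miss (hι : 5 ≤ Fintype.card ι) (v : S3 → ι → ℝ) (hv : Continuous v)
    (hv0 : ∀ x, v x ≠ 0) (w0 : ι → ℝ) (hw0 : w0 ≠ 0) :
    ∃ (g : S3 → ι → ℝ) (w : ι → ℝ), Continuous g ∧ (∀ x, 0 < v x ⬝ᵥ g x) ∧ 0 < w ⬝ᵥ w0 ∧
      ∀ x, ∀ t : ℝ, w ≠ t • g x := by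
  -- lower bound
  have hne : (Set.univ : Set S3).Nonempty :=
    ⟨⟨phi 0, phi_mem 0⟩, Set.mem_univ _⟩
  obtain ⟨x0, _, hx0⟩ := isCompact_univ.exists_isMinOn hne hv.norm.continuousOn
  set ε : ℝ := ‖v x0‖ with hε
  have hε0 : 0 < ε := norm_pos_iff.2 (hv0 x0)
  have hεv : ∀ x, ε ≤ ‖v x‖ := fun x => hx0 (Set.mem_univ x)
  -- extension and smooth approximation
  obtain ⟨V, hV⟩ := ContinuousMap.exists_restrict_eq (X := Fin 4 → ℝ) (s := S3set)
    isClosed_S3set (⟨v, hv⟩ : C(S3, ι → ℝ))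
  have hVv : ∀ x : S3, V x.1 = v x := fun x => by
    have := congrArg (fun f : C(S3, ι → ℝ) => f x) hV
    exact this
  have hcard : (0:ℝ) < Fintype.card ι := by
    have : 0 < Fintype.card ι := by omega
    exact_mod_cast this
  obtain ⟨g, hg, hgV, _⟩ := V.continuous.exists_contDiff_approx 1
    (ε := fun _ => ε / Fintype.card ι) continuous_const (fun _ => by positivity)
  have hdot : ∀ x : S3, 0 < v x ⬝ᵥ g x.1 := by
    intro x
    have h1 : ‖v x - g x.1‖ < ε / Fintype.card ι := by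
      have := hgV x.1
      rwa [dist_comm, dist_eq_norm, hVv] at this
    have hvx : 0 < ‖v x‖ := norm_pos_iff.2 (hv0 x)
    -- `v ⬝ v ≥ ‖v‖^2`
    have h2 : ‖v x‖ ^ 2 ≤ v x ⬝ᵥ v x := by
      have h5 : ‖v x‖ ≤ √(v x ⬝ᵥ v x) := by
        rw [pi_norm_le_iff_of_nonneg (Real.sqrt_nonneg _)]
        intro i
        rw [Real.norm_eq_abs]
        apply Real.abs_le_sqrt
        rw [dotProduct, sq]
        exact Finset.single_le_sum (f := fun i => v x i * v x i) (fun i _ => mul_self_nonneg _)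
          (Finset.mem_univ i)
      calc ‖v x‖ ^ 2 ≤ √(v x ⬝ᵥ v x) ^ 2 := by gcongr
        _ = v x ⬝ᵥ v x := Real.sq_sqrt (dot_self_nonneg _)
    have h3 : |v x ⬝ᵥ (v x - g x.1)| ≤ Fintype.card ι * (‖v x‖ * ‖v x - g x.1‖) := by
      rw [dotProduct]
      refine (Finset.abs_sum_le_sum_abs _ _).trans ?_
      have : ∀ i ∈ (Finset.univ : Finset ι), |v x i * (v x - g x.1) i| ≤ ‖v x‖ * ‖v x - g x.1‖ := by
        intro i _
        rw [abs_mul]
        exact mul_le_mul (norm_le_pi_norm (v x) i) (norm_le_pi_norm (v x - g x.1) i)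
          (abs_nonneg _) (norm_nonneg _)
      refine (Finset.sum_le_card_nsmul _ _ _ this).trans (le_of_eq ?_)
      rw [Finset.card_univ, nsmul_eq_mul]
    have h4 : Fintype.card ι * (‖v x‖ * ‖v x - g x.1‖) < ‖v x‖ ^ 2 := by
      have h5 : Fintype.card ι * ‖v x - g x.1‖ < ‖v x‖ := by
        have := (lt_div_iff₀ hcard).1 h1
        linarith [hεv x]
      nlinarith
    have h6 : v x ⬝ᵥ g x.1 = v x ⬝ᵥ v x - v x ⬝ᵥ (v x - g x.1) := by
      rw [dotProduct_sub]; ring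
    rw [h6]
    have := (abs_le.1 h3).2
    linarith
  -- the cone over the image of the chart
  have hG : ContDiff ℝ 1 (fun p : (Fin 3 → ℝ) × ℝ => p.2 • g (phi p.1)) :=
    contDiff_snd.smul (hg.comp ((phi_contDiff.of_le (by exact_mod_cast le_top)).comp contDiff_fst))
  have hL : ContDiff ℝ 1 (fun t : ℝ => t • g ![1, 0, 0, 0]) := contDiff_id.smul contDiff_const
  have hd1 := hG.dense_compl_range_of_finrank_lt_finrank (by simp; omega)
  have hd2 := hL.dense_compl_range_of_finrank_lt_finrank (by simp; omega)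
  have hopen1 : IsOpen {w : ι → ℝ | 0 < w ⬝ᵥ w0} :=
    isOpen_lt continuous_const (by unfold dotProduct; fun_prop)
  have hopen2 : IsOpen (Set.range (fun t : ℝ => t • g ![1, 0, 0, 0]))ᶜ := by
    rw [isOpen_compl_iff]
    have : Set.range (fun t : ℝ => t • g ![1, 0, 0, 0]) =
        ((Submodule.span ℝ {g ![1, 0, 0, 0]} : Submodule ℝ (ι → ℝ)) : Set (ι → ℝ)) := by
      ext w
      simp [Submodule.mem_span_singleton]
    rw [this]
    exact Submodule.closed_of_finiteDimensional _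
  have hne2 : ({w : ι → ℝ | 0 < w ⬝ᵥ w0} ∩
      (Set.range (fun t : ℝ => t • g ![1, 0, 0, 0]))ᶜ).Nonempty := by
    apply hd2.inter_open_nonempty _ hopen1
    exact ⟨w0, dot_self_pos hw0⟩
  obtain ⟨w, ⟨hw1, hw2⟩, hw3⟩ := hd1.inter_open_nonempty _ (hopen1.inter hopen2) hne2
  refine ⟨fun x => g x.1, w, hg.continuous.comp continuous_subtype_val, hdot, hw1, ?_⟩
  intro x t ht
  rcases exists_phi x.1 x.2 with h | ⟨y, hy⟩
  · exact hw2 ⟨t, by rw [← h]; exact ht.symm⟩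
  · exact hw3 ⟨(y, t), by simp only; rw [hy]; exact ht.symm⟩

end miss

end Pool.Agent.Work.MP_2a78db_gt.D1
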