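import Pool.Agent.Work.MP_2a78db_gt.D1b

/-!
Module D1, part c: reduction of the size of the matrices by two.
-/

set_option autoImplicit false

namespace Pool.Agent.Work.MP_2a78db_gt.D1

open Matrix
open scoped Topology ContDiff

section move

variable {X : Type} [TopologicalSpace X] {n : Type} [Fintype n] [DecidableEq n]

omit [DecidableEq n] in
lemma Sk_diag {A : Matrix n n ℝ} (hA : A ∈ Sk n) (o : n) : A o o = 0 := by
  have := congrFun (congrFun hA.1 o) o
  rw [transpose_apply, Matrix.neg_apply] at this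
  linarith

/-- moving the row of index `o` -/
lemma move (o : n) (A : X → Matrix n n ℝ) (hA : Continuous A) (hS : ∀ x, A x ∈ Sk n)
    (v' : X → n → ℝ) (hv' : Continuous v') (h0 : ∀ x, v' x o = 0)
    (hpos : ∀ x, 0 < (fun j => A x o j) ⬝ᵥ (v' x)) :
    ∃ A', Htp (Sk n) A A' ∧ ∀ x j, A' x o j = v' x j := by
  set v : X → n → ℝ := fun x j => A x o j with hv
  have hvc : Continuous v := continuous_pi fun j => hA.matrix_elem o j
  have hvv : ∀ x, 0 < v x ⬝ᵥ v x := by
    intro x
    apply dot_self_pos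
    intro h
    have := hpos x
    change 0 < v x ⬝ᵥ v' x at this
    rw [h] at this
    simp at this
  have hvo : ∀ x, v x o = 0 := fun x => Sk_diag (hS x) o
  set P : ℝ × X → Matrix n n ℝ := fun p =>
    1 + (p.1 * (v p.2 ⬝ᵥ v p.2)⁻¹) • vecMulVec (v p.2) (v' p.2 - v p.2) with hP
  have hPc : Continuous P := by
    have h1 : Continuous fun p : ℝ × X => v p.2 ⬝ᵥ v p.2 := by
      have := hvc.comp (continuous_snd (X := ℝ) (Y := X))
      exact this.dotProduct this
    have h2 : Continuous fun p : ℝ × X => (v p.2 ⬝ᵥ v p.2)⁻¹ := h1.inv₀ fun p => (hvv _).ne'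
    have h3 : Continuous fun p : ℝ × X => vecMulVec (v p.2) (v' p.2 - v p.2) :=
      (hvc.comp continuous_snd).matrix_vecMulVec
        ((hv'.comp continuous_snd).sub (hvc.comp continuous_snd))
    exact continuous_const.add ((continuous_fst.mul h2).smul h3)
  have hPinj : ∀ t ∈ Set.Icc (0:ℝ) 1, ∀ x, ∀ y, P (t, x) *ᵥ y = 0 → y = 0 := by
    intro t ht x y hy
    have hc := hvv x
    simp only [hP, add_mulVec, one_mulVec, smul_mulVec, vecMulVec_mulVec] at hy
    set s : ℝ := t * (v x ⬝ᵥ v x)⁻¹ * ((v' x - v x) ⬝ᵥ y) with hs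
    have hy' : y = -(s • v x) := by
      have : y = -((t * (v x ⬝ᵥ v x)⁻¹) • (MulOpposite.op ((v' x - v x) ⬝ᵥ y) • v x)) :=
        eq_neg_of_add_eq_zero_left hy
      rw [this]
      congr 1
      funext i
      simp [hs]
      ring
    have h1 : (v' x - v x) ⬝ᵥ y = -(s * (v x ⬝ᵥ v' x - v x ⬝ᵥ v x)) := by
      conv_lhs => rw [hy']
      rw [dotProduct_neg, dotProduct_smul, sub_dotProduct, smul_eq_mul, dotProduct_comm (v' x)]
    have h2 : s * ((1 - t) * (v x ⬝ᵥ v x) + t * (v x ⬝ᵥ v' x)) = 0 := by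
      have h3 : s * (v x ⬝ᵥ v x) = t * ((v' x - v x) ⬝ᵥ y) := by
        rw [hs]; field_simp
      rw [h1] at h3
      linarith
    have h3 : 0 < (1 - t) * (v x ⬝ᵥ v x) + t * (v x ⬝ᵥ v' x) := by
      have h4 : 0 < v x ⬝ᵥ v' x := hpos x
      rcases ht.2.eq_or_lt with h5 | h5
      · rw [h5]; simpa using h4
      · have h6 : 0 < (1 - t) * (v x ⬝ᵥ v x) := mul_pos (by linarith) hc
        have h7 : 0 ≤ t * (v x ⬝ᵥ v' x) := mul_nonneg ht.1 h4.le
        linarith
    rcases mul_eq_zero.1 h2 with h4 | h4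
    · rw [hy', h4]; simp
    · exact absurd h4 h3.ne'
  refine ⟨fun x => (P (1, x))ᵀ * A x * P (1, x), ?_, ?_⟩
  · refine Htp.of_clamp (fun p => (P p)ᵀ * A p.2 * P p) ?_ ?_ ?_ ?_
    · apply Continuous.continuousOn
      exact (hPc.matrix_transpose.matrix_mul (hA.comp continuous_snd)).matrix_mul hPc
    · intro t ht x
      exact Sk_conj (hS x) (hPinj t ht x)
    · intro x
      simp [hP]
    · intro x
      rfl
  · intro x j
    have hcol : ∀ a, P (1, x) a o = if a = o then 1 else 0 := by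
      intro a
      simp [hP, Matrix.add_apply, vecMulVec_apply, h0, hvo, Matrix.one_apply]
    have e1 : ((P (1, x))ᵀ * A x * P (1, x)) o j = ∑ b, A x o b * P (1, x) b j := by
      rw [Matrix.mul_assoc, Matrix.mul_apply]
      have : ∀ a, (P (1, x))ᵀ o a * (A x * P (1, x)) a j =
          if a = o then (A x * P (1, x)) a j else 0 := by
        intro a
        rw [transpose_apply, hcol]
        split_ifs <;> simp
      simp only [this]
      rw [Finset.sum_ite_eq' Finset.univ o]
      simp [Matrix.mul_apply]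
    refine e1.trans ?_
    have e2 : ∀ b, A x o b * P (1, x) b j = A x o b * (1 : Matrix n n ℝ) b j +
        (v x ⬝ᵥ v x)⁻¹ * (v x b * v x b) * (v' x j - v x j) := by
      intro b
      simp only [hP, Matrix.add_apply, Matrix.smul_apply, vecMulVec_apply, smul_eq_mul,
        Pi.sub_apply, one_mul]
      have : A x o b = v x b := rfl
      rw [this]; ring
    simp only [e2]
    rw [Finset.sum_add_distrib]
    have e3 : ∑ b, A x o b * (1 : Matrix n n ℝ) b j = v x j := by
      simp [Matrix.one_apply, hv]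
    have e4 : ∑ b, (v x ⬝ᵥ v x)⁻¹ * (v x b * v x b) * (v' x j - v x j) = v' x j - v x j := by
      rw [← Finset.sum_mul, ← Finset.mul_sum]
      have : ∑ b, v x b * v x b = v x ⬝ᵥ v x := rfl
      rw [this, inv_mul_cancel₀ (hvv x).ne', one_mul]
    rw [e3, e4]; ring

end move

section normal_row

variable {n : Type} [Fintype n] [DecidableEq n]

/-- extension by zero at `o` -/
def embo (o : n) (v : {i : n // i ≠ o} → ℝ) : n → ℝ := fun i => if h : i ≠ o then v ⟨i, h⟩ else 0

omit [Fintype n] in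
lemma embo_o (o : n) (v : {i : n // i ≠ o} → ℝ) : embo o v o = 0 := by simp [embo]

omit [Fintype n] in
lemma embo_ne (o : n) (v : {i : n // i ≠ o} → ℝ) (i : {i : n // i ≠ o}) :
    embo o v i = v i := by
  rw [embo, dif_pos i.2]

omit [Fintype n] in
lemma embo_cont {X : Type} [TopologicalSpace X] (o : n) {v : X → {i : n // i ≠ o} → ℝ}
    (hv : Continuous v) : Continuous fun x => embo o (v x) := by
  refine continuous_pi fun i => ?_
  unfold embo
  split_ifs with h
  · exact (continuous_apply _).comp hv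
  · exact continuous_const

lemma dot_res (o : n) {u : n → ℝ} (w : n → ℝ) (hu : u o = 0) :
    u ⬝ᵥ w = (fun i : {i : n // i ≠ o} => u i) ⬝ᵥ (fun i : {i : n // i ≠ o} => w i) := by
  simp only [dotProduct]
  rw [← Fintype.sum_subtype_add_sum_subtype (fun i => i ≠ o) (fun i => u i * w i)]
  have : ∑ i : {x // ¬x ≠ o}, u i * w i = 0 := by
    apply Finset.sum_eq_zero
    intro i _
    have hi : (i : n) = o := not_not.1 i.2
    rw [hi, hu, zero_mul]
  rw [this, add_zero]

lemma normal_row (o : n) (hcard : 6 ≤ Fintype.card n) (A : S3 → Matrix n n ℝ)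
    (hA : Continuous A) (hS : ∀ x, A x ∈ Sk n) (w0 : n → ℝ) (hw0 : w0 ≠ 0) (hw0o : w0 o = 0) :
    ∃ A', Htp (Sk n) A A' ∧ ∀ x j, A' x o j = w0 j := by
  have hcard' : 5 ≤ Fintype.card {i : n // i ≠ o} := by
    have h := Fintype.card_subtype_compl (fun i => i = o)
    rw [Fintype.card_subtype_eq] at h
    change 5 ≤ Fintype.card {i : n // ¬ i = o}
    omega
  set v : S3 → {i : n // i ≠ o} → ℝ := fun x i => A x o i with hv
  have hvc : Continuous v := continuous_pi fun i => hA.matrix_elem o i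
  have hv0 : ∀ x, v x ≠ 0 := by
    intro x h
    -- the row vanishes, so `e_o` is in the kernel
    have h1 : A x *ᵥ (Pi.single o 1) = 0 := by
      rw [mulVec_single_one]
      funext i
      have h2 := congrFun (congrFun (hS x).1 o) i
      rw [transpose_apply, Matrix.neg_apply] at h2
      change A x i o = 0
      by_cases hi : i = o
      · rw [hi]; exact Sk_diag (hS x) o
      · have h3 : A x o i = 0 := congrFun h ⟨i, hi⟩
        rw [h2, h3, neg_zero]
    have h4 := (hS x).2 _ h1
    have h5 := congrFun h4 o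
    simp at h5
  set r0 : {i : n // i ≠ o} → ℝ := fun i => w0 i with hr0
  have hr00 : r0 ≠ 0 := by
    intro h
    apply hw0
    funext i
    by_cases hi : i = o
    · rw [hi]; exact hw0o
    · exact congrFun h ⟨i, hi⟩
  obtain ⟨g, w, hg, hvg, hww0, hgw⟩ := miss hcard' v hvc hv0 r0 hr00
  have hg0 : ∀ x, g x ≠ 0 := by
    intro x h
    have := hvg x
    rw [h] at this
    simp at this
  have hw0' : w ≠ 0 := by
    intro h
    rw [h] at hww0
    simp at hww0
  have hW := dot_self_pos hw0'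
  set c : S3 → ℝ := fun x => √((g x ⬝ᵥ g x) / (w ⬝ᵥ w)) with hc
  have hcc : Continuous c := by
    have : Continuous fun x => g x ⬝ᵥ g x := hg.dotProduct hg
    exact (this.div_const _).sqrt
  have hcsq : ∀ x, c x ^ 2 * (w ⬝ᵥ w) = g x ⬝ᵥ g x := by
    intro x
    rw [hc]
    simp only
    rw [Real.sq_sqrt (div_nonneg (dot_self_nonneg _) hW.le)]
    field_simp
  have hc0 : ∀ x, 0 < c x := fun x => Real.sqrt_pos.2 (div_pos (dot_self_pos (hg0 x)) hW)
  have hcs := fun x => strict_cs (hg0 x) (hgw x)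
  have p2 : ∀ x, 0 < g x ⬝ᵥ (g x + c x • w) := by
    intro x
    have h1 := hcs x
    have h2 := hcsq x
    have h3 := dot_self_pos (hg0 x)
    have h4 := hc0 x
    rw [dotProduct_add, dotProduct_smul, smul_eq_mul]
    have h5 : (c x * (g x ⬝ᵥ w)) ^ 2 < (g x ⬝ᵥ g x) ^ 2 := by
      have h6 : c x ^ 2 * (g x ⬝ᵥ w) ^ 2 < c x ^ 2 * ((g x ⬝ᵥ g x) * (w ⬝ᵥ w)) := by
        apply mul_lt_mul_of_pos_left h1; positivity
      calc (c x * (g x ⬝ᵥ w)) ^ 2 = c x ^ 2 * (g x ⬝ᵥ w) ^ 2 := by ring
        _ < c x ^ 2 * ((g x ⬝ᵥ g x) * (w ⬝ᵥ w)) := h6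
        _ = (c x ^ 2 * (w ⬝ᵥ w)) * (g x ⬝ᵥ g x) := by ring
        _ = (g x ⬝ᵥ g x) ^ 2 := by rw [h2]; ring
    have := abs_lt_of_sq_lt_sq h5 h3.le
    linarith [(abs_lt.1 this).1]
  have p3 : ∀ x, 0 < (g x + c x • w) ⬝ᵥ w := by
    intro x
    have h1 := hcs x
    have h2 := hcsq x
    have h4 := hc0 x
    rw [add_dotProduct, smul_dotProduct, smul_eq_mul]
    have h5 : (g x ⬝ᵥ w) ^ 2 < (c x * (w ⬝ᵥ w)) ^ 2 := by
      calc (g x ⬝ᵥ w) ^ 2 < (g x ⬝ᵥ g x) * (w ⬝ᵥ w) := h1
        _ = (c x ^ 2 * (w ⬝ᵥ w)) * (w ⬝ᵥ w) := by rw [h2]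
        _ = _ := by ring
    have := abs_lt_of_sq_lt_sq h5 (by positivity)
    linarith [(abs_lt.1 this).1]
  -- step 1
  obtain ⟨A1, hA1, hr1⟩ := move o A hA hS (fun x => embo o (g x)) (embo_cont o hg)
    (fun x => embo_o o _) (fun x => by
      rw [dot_res o _ (Sk_diag (hS x) o)]
      simp only [embo_ne]
      exact hvg x)
  obtain ⟨A2, hA2, hr2⟩ := move o A1 hA1.cont_right hA1.mem_right
    (fun x => embo o (g x + c x • w)) (embo_cont o (hg.add (hcc.smul continuous_const)))
    (fun x => embo_o o _) (fun x => by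
      simp only [hr1]
      rw [dot_res o _ (embo_o o _)]
      simp only [embo_ne]
      exact p2 x)
  obtain ⟨A3, hA3, hr3⟩ := move o A2 hA2.cont_right hA2.mem_right
    (fun x => embo o w) (embo_cont o continuous_const)
    (fun x => embo_o o _) (fun x => by
      simp only [hr2]
      rw [dot_res o _ (embo_o o _)]
      simp only [embo_ne]
      exact p3 x)
  obtain ⟨A4, hA4, hr4⟩ := move o A3 hA3.cont_right hA3.mem_right
    (fun x => w0) continuous_const (fun x => hw0o) (fun x => by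
      simp only [hr3]
      rw [dot_res o _ (embo_o o _)]
      simp only [embo_ne]
      exact hww0)
  exact ⟨A4, ((hA1.trans hA2).trans hA3).trans hA4, hr4⟩

end normal_row

section split

variable {m : Type} [Fintype m] [DecidableEq m]

/-- the standard skew `2 × 2` matrix -/
def J2 : Matrix (Fin 2) (Fin 2) ℝ := !![0, 1; -1, 0]

/-- stabilization -/
def ext (B : Matrix m m ℝ) : Matrix (Fin 2 ⊕ m) (Fin 2 ⊕ m) ℝ := fromBlocks J2 0 0 B

lemma J2_skew : J2ᵀ = -J2 := by
  ext i j; fin_cases i <;> fin_cases j <;> simp [J2]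

omit [Fintype m] [DecidableEq m] in
lemma ext_cont : Continuous (ext : Matrix m m ℝ → _) := by
  unfold ext
  exact continuous_const.matrix_fromBlocks continuous_const continuous_const continuous_id

omit [DecidableEq m] in
lemma ext_mem {B : Matrix m m ℝ} (hB : B ∈ Sk m) : ext B ∈ Sk (Fin 2 ⊕ m) := by
  refine ⟨?_, fun v hv => ?_⟩
  · rw [ext, fromBlocks_transpose, J2_skew, hB.1, fromBlocks_neg]; simp
  · rw [ext, fromBlocks_mulVec] at hv
    have h1 : ∀ i, (J2 *ᵥ (v ∘ Sum.inl)) i = 0 := by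
      intro i
      have := congrFun hv (Sum.inl i)
      simpa using this
    have h2 : B *ᵥ (v ∘ Sum.inr) = 0 := by
      funext k
      have := congrFun hv (Sum.inr k)
      simpa using this
    have h3 := hB.2 _ h2
    have e0 := h1 0
    have e1 := h1 1
    simp [J2, Matrix.mulVec, dotProduct, Fin.sum_univ_two] at e0 e1
    funext k
    rcases k with k | k
    · fin_cases k
      · exact e1
      · exact e0
    · exact congrFun h3 k

lemma split_row {X : Type} [TopologicalSpace X] (A : X → Matrix (Fin 2 ⊕ m) (Fin 2 ⊕ m) ℝ)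
    (hA : Continuous A) (hS : ∀ x, A x ∈ Sk (Fin 2 ⊕ m))
    (hrow : ∀ x j, A x (Sum.inl 0) j = (Pi.single (Sum.inl 1) 1 : Fin 2 ⊕ m → ℝ) j) :
    ∃ B : X → Matrix m m ℝ, Continuous B ∧ (∀ x, B x ∈ Sk m) ∧
      Htp (Sk (Fin 2 ⊕ m)) A (fun x => ext (B x)) := by
  set B : X → Matrix m m ℝ := fun x => (A x).toBlocks₂₂ with hB
  set C : X → Matrix (Fin 2) m ℝ := fun x => (A x).toBlocks₁₂ with hC
  have hBc : Continuous B := continuous_matrix fun i j => hA.matrix_elem _ _
  have hCc : Continuous C := continuous_matrix fun i j => hA.matrix_elem _ _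
  have hC0 : ∀ x k, C x 0 k = 0 := by
    intro x k
    have := hrow x (Sum.inr k)
    rw [Pi.single_apply, if_neg (by simp)] at this
    exact this
  have hskew : ∀ x i j, A x j i = -A x i j := by
    intro x i j
    have := congrFun (congrFun (hS x).1 i) j
    rwa [transpose_apply, Matrix.neg_apply] at this
  have hblocks : ∀ x, A x = fromBlocks J2 (C x) (-(C x)ᵀ) (B x) := by
    intro x
    rw [← fromBlocks_toBlocks (A x)]
    congr 1
    · ext i j
      change A x (Sum.inl i) (Sum.inl j) = J2 i j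
      have h01 : A x (Sum.inl 0) (Sum.inl 1) = 1 := by rw [hrow]; simp
      fin_cases i <;> fin_cases j
      · exact Sk_diag (hS x) _
      · exact h01
      · change A x (Sum.inl 1) (Sum.inl 0) = -1
        rw [hskew x (Sum.inl 0) (Sum.inl 1), h01]
      · exact Sk_diag (hS x) _
    · ext k i
      exact hskew x (Sum.inl i) (Sum.inr k)
  have hBskew : ∀ x, (B x)ᵀ = -(B x) := by
    intro x
    ext i j
    exact hskew x (Sum.inr i) (Sum.inr j)
  -- matrix-vector products
  have hmv : ∀ (t : ℝ) (x : X) (v : Fin 2 ⊕ m → ℝ),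
      fromBlocks J2 (t • C x) (-(t • C x)ᵀ) (B x) *ᵥ v =
      Sum.elim ![v (Sum.inl 1), -v (Sum.inl 0) + t * (C x *ᵥ (v ∘ Sum.inr)) 1]
        (fun k => -(t * (C x 1 k * v (Sum.inl 1))) + (B x *ᵥ (v ∘ Sum.inr)) k) := by
    intro t x v
    rw [fromBlocks_mulVec]
    have hC00 : (C x *ᵥ (v ∘ Sum.inr)) 0 = 0 := by
      simp [Matrix.mulVec, dotProduct, hC0]
    congr 1
    · funext i
      fin_cases i
      · simp [J2, Matrix.mulVec, dotProduct, Fin.sum_univ_two, smul_mulVec]
        right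
        exact hC00
      · simp [J2, Matrix.mulVec, dotProduct, Fin.sum_univ_two, smul_mulVec]
    · funext k
      simp [Matrix.mulVec, dotProduct, Fin.sum_univ_two, hC0]
      ring
  have hBnd : ∀ x y, B x *ᵥ y = 0 → y = 0 := by
    intro x y hy
    have h1 := (hS x).2 (Sum.elim ![(C x *ᵥ y) 1, 0] y) (by
      have h2 := hmv 1 x (Sum.elim ![(C x *ᵥ y) 1, 0] y)
      rw [one_smul, ← hblocks] at h2
      rw [h2]
      have h3 : (Sum.elim ![(C x *ᵥ y) 1, 0] y) ∘ Sum.inr = y := by funext k; rfl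
      rw [h3, hy]
      funext k
      rcases k with k | k
      · fin_cases k <;> simp
      · simp)
    funext k
    exact congrFun h1 (Sum.inr k)
  refine ⟨B, hBc, fun x => ⟨hBskew x, hBnd x⟩, ?_⟩
  refine Htp.of_clamp (fun p => fromBlocks J2 ((1 - p.1) • C p.2) (-((1 - p.1) • C p.2)ᵀ) (B p.2))
    ?_ ?_ ?_ ?_
  · apply Continuous.continuousOn
    have h1 : Continuous fun p : ℝ × X => (1 - p.1) • C p.2 :=
      (continuous_const.sub continuous_fst).smul (hCc.comp continuous_snd)
    exact continuous_const.matrix_fromBlocks h1 h1.matrix_transpose.neg (hBc.comp continuous_snd)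
  · intro t _ x
    refine ⟨?_, fun v hv => ?_⟩
    · rw [fromBlocks_transpose, fromBlocks_neg, J2_skew, hBskew]
      simp
    · rw [hmv] at hv
      have e0 : v (Sum.inl 1) = 0 := by
        have := congrFun hv (Sum.inl 0)
        simpa using this
      have e2 : B x *ᵥ (v ∘ Sum.inr) = 0 := by
        funext k
        have := congrFun hv (Sum.inr k)
        simpa [e0] using this
      have e3 := hBnd x _ e2
      have e1 : v (Sum.inl 0) = 0 := by
        have := congrFun hv (Sum.inl 1)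
        simpa [e3] using this
      funext k
      rcases k with k | k
      · fin_cases k
        · exact e1
        · exact e0
      · exact congrFun e3 k
  · intro x
    simp only [sub_zero, one_smul]
    exact (hblocks x).symm
  · intro x
    simp [ext]

/-- reduction of the size by two -/
lemma reduce (hm : 4 ≤ Fintype.card m) (A : S3 → Matrix (Fin 2 ⊕ m) (Fin 2 ⊕ m) ℝ)
    (hA : Continuous A) (hS : ∀ x, A x ∈ Sk (Fin 2 ⊕ m)) :
    ∃ B : S3 → Matrix m m ℝ, Continuous B ∧ (∀ x, B x ∈ Sk m) ∧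
      Htp (Sk (Fin 2 ⊕ m)) A (fun x => ext (B x)) := by
  obtain ⟨A', hA', hrow⟩ := normal_row (Sum.inl 0 : Fin 2 ⊕ m) (by simp; omega) A hA hS
    (Pi.single (Sum.inl 1) 1) (by simp) (by simp)
  obtain ⟨B, hB, hBS, h⟩ := split_row A' hA'.cont_right hA'.mem_right hrow
  exact ⟨B, hB, hBS, hA'.trans h⟩

end split

end Pool.Agent.Work.MP_2a78db_gt.D1
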