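import Pool.Agent.Work.MP_2a78db_gt.D1c

/-!
Module D1, part d: skew 4x4 matrices and quaternions, the explicit null-homotopy.
-/

set_option autoImplicit false

namespace Pool.Agent.Work.MP_2a78db_gt.D1

open Matrix Quaternion
open scoped Topology ContDiff

/-- left multiplication -/
def Lm (q : ℍ[ℝ]) : Matrix (Fin 4) (Fin 4) ℝ :=
  !![q.re, -q.imI, -q.imJ, -q.imK;
     q.imI, q.re, -q.imK, q.imJ;
     q.imJ, q.imK, q.re, -q.imI;
     q.imK, -q.imJ, q.imI, q.re]

/-- right multiplication -/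
def Rm (q : ℍ[ℝ]) : Matrix (Fin 4) (Fin 4) ℝ :=
  !![q.re, -q.imI, -q.imJ, -q.imK;
     q.imI, q.re, q.imK, -q.imJ;
     q.imJ, -q.imK, q.re, q.imI;
     q.imK, q.imJ, -q.imI, q.re]

lemma Lm_mul (p q : ℍ[ℝ]) : Lm (p * q) = Lm p * Lm q := by
  ext i j
  fin_cases i <;> fin_cases j <;>
    simp [Lm, Matrix.mul_apply, Fin.sum_univ_four] <;> ring

lemma Rm_mul (p q : ℍ[ℝ]) : Rm (p * q) = Rm q * Rm p := by
  ext i j
  fin_cases i <;> fin_cases j <;>
    simp [Rm, Matrix.mul_apply, Fin.sum_univ_four] <;> ring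

lemma LR_comm (p q : ℍ[ℝ]) : Lm p * Rm q = Rm q * Lm p := by
  ext i j
  fin_cases i <;> fin_cases j <;>
    simp [Lm, Rm, Matrix.mul_apply, Fin.sum_univ_four] <;> ring

lemma Lm_transpose (p : ℍ[ℝ]) : (Lm p)ᵀ = Lm (star p) := by
  ext i j
  fin_cases i <;> fin_cases j <;> simp [Lm]

lemma Rm_transpose (p : ℍ[ℝ]) : (Rm p)ᵀ = Rm (star p) := by
  ext i j
  fin_cases i <;> fin_cases j <;> simp [Rm]

lemma Lm_one : Lm 1 = 1 := by
  ext i j
  fin_cases i <;> fin_cases j <;> simp [Lm]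

lemma Rm_one : Rm 1 = 1 := by
  ext i j
  fin_cases i <;> fin_cases j <;> simp [Rm]

lemma Lm_coe (r : ℝ) : Lm (r : ℍ[ℝ]) = r • (1 : Matrix (Fin 4) (Fin 4) ℝ) := by
  ext i j
  fin_cases i <;> fin_cases j <;> simp [Lm]

lemma Rm_coe (r : ℝ) : Rm (r : ℍ[ℝ]) = r • (1 : Matrix (Fin 4) (Fin 4) ℝ) := by
  ext i j
  fin_cases i <;> fin_cases j <;> simp [Rm]

/-- quaternion conjugation -/
def cm : Matrix (Fin 4) (Fin 4) ℝ := !![1, 0, 0, 0; 0, -1, 0, 0; 0, 0, -1, 0; 0, 0, 0, -1]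

lemma cm_L (p : ℍ[ℝ]) : cm * Lm p * cm = Rm (star p) := by
  ext i j
  fin_cases i <;> fin_cases j <;>
    simp [cm, Lm, Rm, Matrix.mul_apply, Fin.sum_univ_four]

lemma cm_R (p : ℍ[ℝ]) : cm * Rm p * cm = Lm (star p) := by
  ext i j
  fin_cases i <;> fin_cases j <;>
    simp [cm, Lm, Rm, Matrix.mul_apply, Fin.sum_univ_four]

lemma cm_cm : cm * cm = 1 := by
  ext i j
  fin_cases i <;> fin_cases j <;> simp [cm, Matrix.mul_apply, Fin.sum_univ_four]

lemma cm_T : cmᵀ = cm := by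
  ext i j
  fin_cases i <;> fin_cases j <;> simp [cm]

/-- self-dual part -/
noncomputable def aq (B : Matrix (Fin 4) (Fin 4) ℝ) : ℍ[ℝ] :=
  ⟨0, -(B 0 1 + B 2 3) / 2, (B 1 3 - B 0 2) / 2, -(B 0 3 + B 1 2) / 2⟩

/-- anti-self-dual part -/
noncomputable def bq (B : Matrix (Fin 4) (Fin 4) ℝ) : ℍ[ℝ] :=
  ⟨0, (B 2 3 - B 0 1) / 2, -(B 0 2 + B 1 3) / 2, (B 1 2 - B 0 3) / 2⟩

lemma decomp {B : Matrix (Fin 4) (Fin 4) ℝ} (hB : B ∈ Sk (Fin 4)) :
    B = Lm (aq B) + Rm (bq B) := by
  have h : ∀ i j, B j i = -B i j := fun i j => by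
    have := congrFun (congrFun hB.1 i) j
    rwa [transpose_apply, Matrix.neg_apply] at this
  have hd : ∀ i, B i i = 0 := fun i => Sk_diag hB i
  ext i j
  have h01 := h 0 1
  have h02 := h 0 2
  have h03 := h 0 3
  have h12 := h 1 2
  have h13 := h 1 3
  have h23 := h 2 3
  fin_cases i <;> fin_cases j <;> simp [Lm, Rm, aq, bq, hd] <;> linarith

lemma star_im {a : ℍ[ℝ]} (ha : a.re = 0) : star a = -a := by
  ext <;> simp [ha]

lemma mul_self_im {a : ℍ[ℝ]} (ha : a.re = 0) : a * a = ((-(normSq a) : ℝ) : ℍ[ℝ]) := by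
  have h := Quaternion.self_mul_star a
  rw [star_im ha, mul_neg] at h
  rw [Quaternion.coe_neg, ← h, neg_neg]

lemma LR_prod {a b : ℍ[ℝ]} (ha : a.re = 0) (hb : b.re = 0) :
    (Lm a - Rm b) * (Lm a + Rm b) = (normSq b - normSq a) • (1 : Matrix (Fin 4) (Fin 4) ℝ) := by
  rw [sub_mul, mul_add, mul_add, ← Lm_mul, ← Rm_mul, LR_comm, mul_self_im ha, mul_self_im hb,
    Lm_coe, Rm_coe, sub_smul, neg_smul, neg_smul]
  abel

lemma LR_prod' {a b : ℍ[ℝ]} (ha : a.re = 0) (hb : b.re = 0) :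
    (Lm a + Rm b) * (Lm a - Rm b) = (normSq b - normSq a) • (1 : Matrix (Fin 4) (Fin 4) ℝ) := by
  rw [add_mul, mul_sub, mul_sub, ← Lm_mul, ← Rm_mul, LR_comm, mul_self_im ha, mul_self_im hb,
    Lm_coe, Rm_coe, sub_smul, neg_smul, neg_smul]
  abel

lemma LR_mem {a b : ℍ[ℝ]} (ha : a.re = 0) (hb : b.re = 0) (h : normSq a ≠ normSq b) :
    Lm a + Rm b ∈ Sk (Fin 4) := by
  refine ⟨?_, fun v hv => ?_⟩
  · rw [transpose_add, Lm_transpose, Rm_transpose, star_im ha, star_im hb]
    ext i j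
    fin_cases i <;> fin_cases j <;> simp [Lm, Rm, ha, hb] <;> ring
  · have h1 : ((Lm a - Rm b) * (Lm a + Rm b)) *ᵥ v = 0 := by
      rw [← mulVec_mulVec, hv, mulVec_zero]
    rw [LR_prod ha hb, smul_mulVec, one_mulVec] at h1
    rcases smul_eq_zero.1 h1 with h2 | h2
    · exact absurd (by linarith) h
    · exact h2

lemma normSq_ne {B : Matrix (Fin 4) (Fin 4) ℝ} (hB : B ∈ Sk (Fin 4)) :
    normSq (aq B) ≠ normSq (bq B) := by
  intro h
  have ha : (aq B).re = 0 := rfl
  have hb : (bq B).re = 0 := rfl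
  have h1 : B * (Lm (aq B) - Rm (bq B)) = 0 := by
    conv_lhs => rw [decomp hB]
    have e := LR_prod' (a := aq B) (b := bq B) ha hb
    rw [h, sub_self, zero_smul] at e
    have e2 : aq (Lm (aq B) + Rm (bq B)) = aq B := by rw [← decomp hB]
    have e3 : bq (Lm (aq B) + Rm (bq B)) = bq B := by rw [← decomp hB]
    rw [e2, e3]
    exact e
  -- columns of the second factor are in the kernel
  have h2 : Lm (aq B) - Rm (bq B) = 0 := by
    ext i j
    have h3 : B *ᵥ (fun i => (Lm (aq B) - Rm (bq B)) i j) = 0 := by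
      funext k
      have := congrFun (congrFun h1 k) j
      rw [Matrix.mul_apply] at this
      exact this
    exact congrFun (hB.2 _ h3) i
  have h4 : ∀ i j, (Lm (aq B)) i j = (Rm (bq B)) i j := fun i j => by
    have := congrFun (congrFun h2 i) j
    rw [Matrix.sub_apply] at this
    exact sub_eq_zero.1 this
  have a1 := h4 1 0
  have a1' := h4 2 3
  have a2 := h4 2 0
  have a2' := h4 1 3
  have a3 := h4 3 0
  have a3' := h4 1 2
  simp [Lm, Rm] at a1 a1' a2 a2' a3 a3'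
  have z1 : (aq B).imI = 0 := by linarith
  have z2 : (aq B).imJ = 0 := by linarith
  have z3 : (aq B).imK = 0 := by linarith
  have za : aq B = 0 := by ext <;> simp [ha, z1, z2, z3]
  have zb : bq B = 0 := by
    apply normSq_eq_zero.1
    rw [← h, za]; simp
  have hB0 : B = 0 := by
    rw [decomp hB, za, zb]
    ext i j
    fin_cases i <;> fin_cases j <;> simp [Lm, Rm]
  have h5 := hB.2 (fun _ => 1) (by rw [hB0]; simp)
  have := congrFun h5 0
  simp at this

/-! ### The explicit homotopy -/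

/-- rotation in two coordinate planes -/
def Gm (c s : ℝ) : Matrix (Fin 2 ⊕ Fin 4) (Fin 2 ⊕ Fin 4) ℝ :=
  fromBlocks !![1, 0; 0, c] !![0, 0, 0, 0; 0, -s, 0, 0] !![0, 0; 0, s; 0, 0; 0, 0]
    !![1, 0, 0, 0; 0, c, 0, 0; 0, 0, c, -s; 0, 0, s, c]

lemma Gm_orth {c s : ℝ} (h : c ^ 2 + s ^ 2 = 1) : Gm c s * (Gm c s)ᵀ = 1 := by
  ext i j
  rcases i with i | i <;> rcases j with j | j <;> fin_cases i <;> fin_cases j <;>
    simp [Gm, fromBlocks_transpose, Matrix.mul_apply, Fin.sum_univ_four, Fin.sum_univ_two] <;>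
    linarith

lemma Gm_orth' {c s : ℝ} (h : c ^ 2 + s ^ 2 = 1) : (Gm c s)ᵀ * Gm c s = 1 :=
  mul_eq_one_comm.1 (Gm_orth h)

lemma Gm_one : Gm 1 0 = 1 := by
  ext i j
  rcases i with i | i <;> rcases j with j | j <;> fin_cases i <;> fin_cases j <;>
    simp [Gm]

/-- the endpoint of the rotation -/
def sg2 : Matrix (Fin 2) (Fin 2) ℝ := !![1, 0; 0, -1]

lemma sg2_sq : sg2 * sg2 = 1 := by
  ext i j
  fin_cases i <;> fin_cases j <;> simp [sg2]

lemma Gm_neg : Gm (-1) 0 = fromBlocks sg2 0 0 cm := by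
  ext i j
  rcases i with i | i <;> rcases j with j | j <;> fin_cases i <;> fin_cases j <;>
    simp [Gm, cm, sg2]

lemma Gm_cont {X : Type*} [TopologicalSpace X] {c s : X → ℝ} (hc : Continuous c)
    (hs : Continuous s) : Continuous fun x => Gm (c x) (s x) := by
  refine continuous_matrix fun i j => ?_
  rcases i with i | i <;> rcases j with j | j <;> fin_cases i <;> fin_cases j <;>
    simp [Gm] <;> fun_prop

lemma Lm_cont : Continuous Lm := by
  refine continuous_matrix fun i j => ?_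
  fin_cases i <;> fin_cases j <;> simp [Lm] <;>
    first
      | exact Quaternion.continuous_re
      | exact Quaternion.continuous_imI
      | exact Quaternion.continuous_imJ
      | exact Quaternion.continuous_imK
      | exact Quaternion.continuous_imI.neg
      | exact Quaternion.continuous_imJ.neg
      | exact Quaternion.continuous_imK.neg

lemma Rm_cont : Continuous Rm := by
  refine continuous_matrix fun i j => ?_
  fin_cases i <;> fin_cases j <;> simp [Rm] <;>
    first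
      | exact Quaternion.continuous_re
      | exact Quaternion.continuous_imI
      | exact Quaternion.continuous_imJ
      | exact Quaternion.continuous_imK
      | exact Quaternion.continuous_imI.neg
      | exact Quaternion.continuous_imJ.neg
      | exact Quaternion.continuous_imK.neg

/-- the quaternion unit -/
def qi : ℍ[ℝ] := ⟨0, 1, 0, 0⟩

lemma normSq_qi : normSq qi = 1 := by
  rw [normSq_def']; simp [qi]

lemma Li_mem : Lm qi ∈ Sk (Fin 4) := by
  have h := LR_mem (a := qi) (b := 0) rfl rfl (by rw [normSq_qi]; simp)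
  have h0 : Rm 0 = 0 := by
    ext i j
    fin_cases i <;> fin_cases j <;> simp [Rm]
  rwa [h0, add_zero] at h

lemma Lm_unit {p : ℍ[ℝ]} (hp : normSq p = 1) : (Lm p)ᵀ * Lm p = 1 := by
  rw [Lm_transpose, ← Lm_mul, Quaternion.star_mul_self, hp, Quaternion.coe_one, Lm_one]

lemma final_null {X : Type} [TopologicalSpace X] (p : X → ℍ[ℝ]) (hp : Continuous p)
    (hn : ∀ x, normSq (p x) = 1) :
    Htp (Sk (Fin 2 ⊕ Fin 4)) (fun x => ext ((Lm (p x))ᵀ * Lm qi * Lm (p x)))
      (fun _ => ext (Lm qi)) := by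
  set D : X → Matrix (Fin 2 ⊕ Fin 4) (Fin 2 ⊕ Fin 4) ℝ := fun x => fromBlocks 1 0 0 (Lm (p x))
    with hD
  have hDc : Continuous D := continuous_const.matrix_fromBlocks continuous_const continuous_const
    (Lm_cont.comp hp)
  have hDD : ∀ x, (D x)ᵀ * D x = 1 := by
    intro x
    rw [hD]
    simp only [fromBlocks_transpose, fromBlocks_multiply, transpose_one, transpose_zero,
      Matrix.mul_zero, Matrix.zero_mul, add_zero, zero_add, Matrix.mul_one, Lm_unit (hn x),
      fromBlocks_one]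
  set G : ℝ → Matrix (Fin 2 ⊕ Fin 4) (Fin 2 ⊕ Fin 4) ℝ := fun t =>
    Gm (Real.cos (Real.pi * t)) (Real.sin (Real.pi * t)) with hG
  have hGc : Continuous G := Gm_cont (by fun_prop) (by fun_prop)
  have hGG : ∀ t, G t * (G t)ᵀ = 1 := fun t => Gm_orth (Real.cos_sq_add_sin_sq _)
  have hGG' : ∀ t, (G t)ᵀ * G t = 1 := fun t => Gm_orth' (Real.cos_sq_add_sin_sq _)
  set W : ℝ × X → Matrix (Fin 2 ⊕ Fin 4) (Fin 2 ⊕ Fin 4) ℝ := fun q =>
    G q.1 * D q.2 * (G q.1)ᵀ with hW
  have hWc : Continuous W := ((hGc.comp continuous_fst).matrix_mul (hDc.comp continuous_snd)).matrix_mul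
    (hGc.comp continuous_fst).matrix_transpose
  refine ⟨fun q => (W q)ᵀ * ext (Lm qi) * W q, ?_, fun q => ?_, fun x => ?_, fun x => ?_⟩
  · exact (hWc.matrix_transpose.matrix_mul continuous_const).matrix_mul hWc
  · apply Sk_conj (ext_mem Li_mem)
    intro v hv
    have h1 : (G q.1 * (D q.2)ᵀ * (G q.1)ᵀ) * W q = 1 := by
      rw [hW]
      simp only
      calc G q.1 * (D q.2)ᵀ * (G q.1)ᵀ * (G q.1 * D q.2 * (G q.1)ᵀ)
          = G q.1 * (D q.2)ᵀ * ((G q.1)ᵀ * G q.1) * D q.2 * (G q.1)ᵀ := by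
            simp only [Matrix.mul_assoc]
        _ = G q.1 * ((D q.2)ᵀ * D q.2) * (G q.1)ᵀ := by
            rw [hGG', Matrix.mul_one]; simp only [Matrix.mul_assoc]
        _ = 1 := by rw [hDD, Matrix.mul_one, hGG]
    have h2 : ((G q.1 * (D q.2)ᵀ * (G q.1)ᵀ) * W q) *ᵥ v = 0 := by
      rw [← mulVec_mulVec, hv, mulVec_zero]
    rwa [h1, one_mulVec] at h2
  · -- start
    have hG0 : G 0 = 1 := by rw [hG]; simp [Gm_one]
    have hW0 : W (0, x) = D x := by
      rw [hW]; simp only [hG0, transpose_one, Matrix.mul_one, Matrix.one_mul]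
    simp only [hW0]
    rw [hD]
    simp only [ext, fromBlocks_transpose, fromBlocks_multiply, transpose_one, transpose_zero,
      Matrix.mul_zero, Matrix.zero_mul, add_zero, zero_add, Matrix.mul_one, Matrix.one_mul]
  · -- end
    have hG1 : G 1 = fromBlocks sg2 0 0 cm := by
      rw [hG]; simp only [mul_one, Real.cos_pi, Real.sin_pi, Gm_neg]
    have hsg : sg2ᵀ = sg2 := by
      ext i j
      fin_cases i <;> fin_cases j <;> simp [sg2]
    have hW1 : W (1, x) = fromBlocks 1 0 0 (Rm (star (p x))) := by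
      rw [hW, hD]
      simp only [hG1, fromBlocks_transpose, fromBlocks_multiply, transpose_zero,
        Matrix.mul_zero, Matrix.zero_mul, add_zero, zero_add, Matrix.mul_one, hsg, cm_T, sg2_sq,
        cm_L]
    simp only [hW1]
    simp only [ext, fromBlocks_transpose, fromBlocks_multiply, transpose_one, transpose_zero,
      Matrix.mul_zero, Matrix.zero_mul, add_zero, zero_add, Matrix.mul_one, Matrix.one_mul]
    congr 1
    rw [Rm_transpose, star_star, ← LR_comm, Matrix.mul_assoc, ← Rm_mul,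
      Quaternion.star_mul_self, hn, Quaternion.coe_one, Rm_one, Matrix.mul_one]

end Pool.Agent.Work.MP_2a78db_gt.D1
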