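import Pool.Agent.Work.MP_2a78db_gt.D1d

/-!
Module D1, part e: logarithms on spheres and lifting through the Hopf map.
-/

set_option autoImplicit false

namespace Pool.Agent.Work.MP_2a78db_gt.D1

open Matrix Quaternion
open scoped Topology ContDiff unitInterval

/-- closed ball -/
def Bal (n : ℕ) : Set (Fin n → ℝ) := {z | ∑ i, z i ^ 2 ≤ 1}

/-- sphere -/
def Sph (n : ℕ) : Set (Fin (n + 1) → ℝ) := {y | ∑ i, y i ^ 2 = 1}

lemma isClosed_Bal (n : ℕ) : IsClosed (Bal n) := isClosed_le (by fun_prop) continuous_const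

lemma isClosed_Sph (n : ℕ) : IsClosed (Sph n) := isClosed_eq (by fun_prop) continuous_const

lemma isCompact_Bal (n : ℕ) : IsCompact (Bal n) := by
  apply Metric.isCompact_of_isClosed_isBounded (isClosed_Bal n)
  rw [isBounded_iff_forall_norm_le]
  refine ⟨1, fun p hp => ?_⟩
  rw [pi_norm_le_iff_of_nonneg zero_le_one]
  intro i
  have h : p i ^ 2 ≤ 1 :=
    (Finset.single_le_sum (f := fun i => p i ^ 2) (fun i _ => sq_nonneg _)
      (Finset.mem_univ i)).trans hp
  rw [Real.norm_eq_abs]
  exact (sq_le_one_iff_abs_le_one _).1 h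

instance (n : ℕ) : CompactSpace (Bal n) := isCompact_iff_compactSpace.1 (isCompact_Bal n)

/-- contraction -/
def sc {n : ℕ} : C(I × Bal n, Bal n) where
  toFun p := ⟨(p.1 : ℝ) • p.2.1, by
    have h1 : ∑ i, p.2.1 i ^ 2 ≤ 1 := p.2.2
    have h2 : (p.1 : ℝ) ^ 2 ≤ 1 := by
      have := p.1.2.1
      have := p.1.2.2
      nlinarith
    change ∑ i, ((p.1 : ℝ) • p.2.1) i ^ 2 ≤ 1
    simp only [Pi.smul_apply, smul_eq_mul, mul_pow]
    rw [← Finset.mul_sum]
    have h3 : 0 ≤ ∑ i, p.2.1 i ^ 2 := Finset.sum_nonneg fun i _ => sq_nonneg _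
    nlinarith [sq_nonneg (p.1 : ℝ)]⟩
  continuous_toFun := by
    apply Continuous.subtype_mk
    exact (continuous_subtype_val.comp continuous_fst).smul
      (continuous_subtype_val.comp continuous_snd)

/-- the centre -/
def ctr (n : ℕ) : Bal n := ⟨0, by change ∑ i, (0 : Fin n → ℝ) i ^ 2 ≤ 1; simp⟩

lemma sc_zero {n : ℕ} (z : Bal n) : sc (0, z) = ctr n := by
  apply Subtype.ext
  change ((0 : I) : ℝ) • z.1 = 0
  simp

lemma sc_one {n : ℕ} (z : Bal n) : sc (1, z) = z := by
  apply Subtype.ext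
  change ((1 : I) : ℝ) • z.1 = z.1
  simp

/-- projection of the sphere to the ball -/
def tl {n : ℕ} : C(Sph n, Bal n) where
  toFun y := ⟨fun i => y.1 i.succ, by
    have h : ∑ i, y.1 i ^ 2 = 1 := y.2
    rw [Fin.sum_univ_succ] at h
    change ∑ i : Fin n, y.1 i.succ ^ 2 ≤ 1
    nlinarith [sq_nonneg (y.1 0)]⟩
  continuous_toFun := by
    apply Continuous.subtype_mk
    exact continuous_pi fun i => (continuous_apply _).comp continuous_subtype_val

/-- sign -/
def sg : Bool → ℝ
  | true => 1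
  | false => -1

/-- the two hemispheres as graphs -/
noncomputable def up {n : ℕ} (b : Bool) : C(Bal n, Sph n) where
  toFun z := ⟨Fin.cons (sg b * √(1 - ∑ i, z.1 i ^ 2)) z.1, by
    change ∑ i : Fin (n + 1), (Fin.cons (sg b * √(1 - ∑ i, z.1 i ^ 2)) z.1 : Fin (n + 1) → ℝ) i ^ 2 = 1
    rw [Fin.sum_univ_succ]
    simp only [Fin.cons_zero, Fin.cons_succ]
    have h : ∑ i, z.1 i ^ 2 ≤ 1 := z.2
    have h2 : sg b ^ 2 = 1 := by cases b <;> simp [sg]
    rw [mul_pow, h2, Real.sq_sqrt (by linarith)]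
    ring⟩
  continuous_toFun := by
    apply Continuous.subtype_mk
    refine continuous_pi fun i => ?_
    refine Fin.cases ?_ (fun j => ?_) i
    · simp only [Fin.cons_zero]
      exact continuous_const.mul ((continuous_const.sub (continuous_finsetSum _ fun i _ =>
        ((continuous_apply i).comp continuous_subtype_val).pow 2)).sqrt)
    · simp only [Fin.cons_succ]
      exact (continuous_apply j).comp continuous_subtype_val

lemma up_tl {n : ℕ} (b : Bool) (y : Sph n) (hy : 0 ≤ sg b * y.1 0) : up b (tl y) = y := by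
  apply Subtype.ext
  funext i
  change (Fin.cons (sg b * √(1 - ∑ i : Fin n, y.1 i.succ ^ 2)) (fun i : Fin n => y.1 i.succ) :
    Fin (n + 1) → ℝ) i = y.1 i
  refine Fin.cases ?_ (fun j => ?_) i
  · rw [Fin.cons_zero]
    have h : ∑ i, y.1 i ^ 2 = 1 := y.2
    rw [Fin.sum_univ_succ] at h
    have h2 : sg b ^ 2 = 1 := by cases b <;> simp [sg]
    have h3 : 1 - ∑ i : Fin n, y.1 i.succ ^ 2 = (sg b * y.1 0) ^ 2 := by
      rw [mul_pow, h2]; linarith
    rw [h3, Real.sqrt_sq hy, ← mul_assoc, ← sq, h2, one_mul]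
  · rw [Fin.cons_succ]

lemma up_eq {n : ℕ} (z : Bal n) (hz : ∑ i, z.1 i ^ 2 = 1) (b b' : Bool) :
    up b z = up b' z := by
  apply Subtype.ext
  change (Fin.cons (sg b * √(1 - ∑ i, z.1 i ^ 2)) z.1 : Fin (n + 1) → ℝ) =
    Fin.cons (sg b' * √(1 - ∑ i, z.1 i ^ 2)) z.1
  rw [hz]; simp

lemma tl_bd {n : ℕ} (y : Sph n) (hy : y.1 0 = 0) : ∑ i, (tl y).1 i ^ 2 = 1 := by
  have h : ∑ i, y.1 i ^ 2 = 1 := y.2
  rw [Fin.sum_univ_succ, hy] at h
  change ∑ i : Fin n, y.1 i.succ ^ 2 = 1
  simpa using h

/-- gluing functions on the two hemispheres -/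
lemma glue {n : ℕ} {Y : Type*} [TopologicalSpace Y] (F : Bool → C(Bal n, Y))
    (h : ∀ z : Bal n, ∑ i, z.1 i ^ 2 = 1 → F true z = F false z) :
    ∃ f : C(Sph n, Y), ∀ b, ∀ y : Sph n, 0 ≤ sg b * y.1 0 → f y = F b (tl y) := by
  refine ⟨⟨fun y => if 0 ≤ y.1 0 then F true (tl y) else F false (tl y), ?_⟩, ?_⟩
  · refine Continuous.if_le ((F true).continuous.comp tl.continuous)
      ((F false).continuous.comp tl.continuous) continuous_const
      ((continuous_apply 0).comp continuous_subtype_val) ?_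
    intro y hy
    exact h _ (tl_bd y hy.symm)
  · intro b y hy
    change (if 0 ≤ y.1 0 then F true (tl y) else F false (tl y)) = F b (tl y)
    cases b
    · simp only [sg] at hy
      split_ifs with h0
      · exact h _ (tl_bd y (by linarith))
      · rfl
    · simp only [sg, one_mul] at hy
      rw [if_pos hy]

/-- logarithm on a ball -/
lemma log_bal {n : ℕ} (f : C(Bal n, {z : ℂ // z ≠ 0})) :
    ∃ l : C(Bal n, ℂ), ∀ z, Complex.exp (l z) = f z := by
  have h0 : Complex.exp (Complex.log (f (ctr n)).1) = (f (ctr n)).1 :=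
    Complex.exp_log (f (ctr n)).2
  have hH : ∀ z : Bal n, (f.comp sc) (0, z) =
      (⟨_, (Complex.exp_ne_zero ((ContinuousMap.const (Bal n) (Complex.log (f (ctr n)).1)) z))⟩ :
        {z : ℂ // z ≠ 0}) := by
    intro z
    apply Subtype.ext
    change (f (sc (0, z))).1 = Complex.exp (Complex.log (f (ctr n)).1)
    rw [sc_zero, h0]
  set L := Complex.isCoveringMap_exp.liftHomotopy (f.comp sc)
    (ContinuousMap.const (Bal n) (Complex.log (f (ctr n)).1)) hH with hL
  refine ⟨L.comp ⟨fun z => (1, z), by fun_prop⟩, fun z => ?_⟩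
  have h1 := congrFun (Complex.isCoveringMap_exp.liftHomotopy_lifts (f.comp sc)
    (ContinuousMap.const (Bal n) (Complex.log (f (ctr n)).1)) hH) (1, z)
  have h2 := congrArg Subtype.val h1
  change Complex.exp (L (1, z)) = (f (sc (1, z))).1 at h2
  rw [sc_one] at h2
  exact h2

/-- the circle is connected -/
lemma circle_preconnected : IsPreconnected {z : Fin 2 → ℝ | ∑ i, z i ^ 2 = 1} := by
  have h := isPreconnected_sphere (E := EuclideanSpace ℝ (Fin 2))
    (by rw [← Module.finrank_eq_rank, finrank_euclideanSpace_fin]; norm_num) 0 1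
  have h2 := h.image (fun z : EuclideanSpace ℝ (Fin 2) => z.ofLp)
    (PiLp.continuous_ofLp 2 _).continuousOn
  convert h2 using 1
  ext z
  simp only [Set.mem_ofPred_eq, Set.mem_image, mem_sphere_iff_norm, sub_zero]
  constructor
  · intro hz
    refine ⟨WithLp.toLp 2 z, ?_, rfl⟩
    rw [EuclideanSpace.norm_eq]
    simp only [Real.norm_eq_abs, sq_abs]
    rw [hz, Real.sqrt_one]
  · rintro ⟨w, hw, rfl⟩
    rw [EuclideanSpace.norm_eq] at hw
    simp only [Real.norm_eq_abs, sq_abs] at hw
    rwa [Real.sqrt_eq_one] at hw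

lemma sphere3_preconnected : IsPreconnected S3set := by
  have h := isPreconnected_sphere (E := EuclideanSpace ℝ (Fin 4))
    (by rw [← Module.finrank_eq_rank, finrank_euclideanSpace_fin]; norm_num) 0 1
  have h2 := h.image (fun z : EuclideanSpace ℝ (Fin 4) => z.ofLp)
    (PiLp.continuous_ofLp 2 _).continuousOn
  convert h2 using 1
  ext z
  simp only [S3set, Set.mem_ofPred_eq, Set.mem_image, mem_sphere_iff_norm, sub_zero]
  constructor
  · intro hz
    refine ⟨WithLp.toLp 2 z, ?_, rfl⟩
    rw [EuclideanSpace.norm_eq]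
    simp only [Real.norm_eq_abs, sq_abs]
    rw [hz, Real.sqrt_one]
  · rintro ⟨w, hw, rfl⟩
    rw [EuclideanSpace.norm_eq] at hw
    simp only [Real.norm_eq_abs, sq_abs] at hw
    rwa [Real.sqrt_eq_one] at hw

/-- logarithm on the 2-sphere -/
lemma log_sph2 (f : C(Sph 2, {z : ℂ // z ≠ 0})) :
    ∃ l : C(Sph 2, ℂ), ∀ y, Complex.exp (l y) = f y := by
  have hF : ∀ b, ∃ l : C(Bal 2, ℂ), ∀ z, Complex.exp (l z) = f (up b z) := fun b =>
    log_bal (f.comp (up b))
  choose F hF using hF
  -- a point of the circle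
  set z0 : Bal 2 := ⟨![1, 0], by change ∑ i, (![1, 0] : Fin 2 → ℝ) i ^ 2 ≤ 1; simp⟩ with hz0
  have hz0' : ∑ i, z0.1 i ^ 2 = 1 := by
    change ∑ i, (![1, 0] : Fin 2 → ℝ) i ^ 2 = 1; simp
  set c : ℂ := F true z0 - F false z0 with hc
  have hexpc : Complex.exp c = 1 := by
    rw [hc, Complex.exp_sub, hF, hF, up_eq z0 hz0' true false, div_self]
    exact (f _).2
  -- the two logarithms differ by a constant on the circle
  have hagree : ∀ z : Bal 2, ∑ i, z.1 i ^ 2 = 1 → F true z = F false z + c := by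
    intro z hz
    have hsub : {z : Fin 2 → ℝ | ∑ i, z i ^ 2 = 1} ⊆ Bal 2 := fun z hz => le_of_eq hz
    have hpre : IsPreconnected {z : Bal 2 | ∑ i, z.1 i ^ 2 = 1} := by
      apply Topology.IsInducing.subtypeVal.isPreconnected_image.1
      convert circle_preconnected using 1
      ext w
      constructor
      · rintro ⟨w', hw', rfl⟩; exact hw'
      · intro hw; exact ⟨⟨w, hsub hw⟩, hw, rfl⟩
    have := Complex.isCoveringMap_exp.eqOn_of_comp_eqOn hpre
      (F true).continuous.continuousOn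
      ((F false).continuous.add continuous_const : Continuous fun z => F false z + c).continuousOn
      (fun w hw => by
        apply Subtype.ext
        change Complex.exp (F true w) = Complex.exp (F false w + c)
        rw [Complex.exp_add, hexpc, mul_one, hF, hF, up_eq w hw true false])
      (a := z0) hz0' (by change F true z0 = F false z0 + c; rw [hc]; ring)
    exact this hz
  obtain ⟨l, hl⟩ := glue (fun b => match b with
    | true => F true
    | false => ⟨fun z => F false z + c, (F false).continuous.add continuous_const⟩) hagree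
  refine ⟨l, fun y => ?_⟩
  rcases le_total 0 (y.1 0) with h | h
  · have h1 := hl true y (by simpa [sg] using h)
    rw [h1]
    change Complex.exp (F true (tl y)) = f y
    rw [hF, up_tl true y (by simpa [sg] using h)]
  · have h1 := hl false y (by simpa [sg] using h)
    rw [h1]
    change Complex.exp (F false (tl y) + c) = f y
    rw [Complex.exp_add, hexpc, mul_one, hF, up_tl false y (by simpa [sg] using h)]

end Pool.Agent.Work.MP_2a78db_gt.D1
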