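import Pool.Agent.Work.MP_2a78db_gt.D1e

/-!
Module D1, part f: lifting through the Hopf map, null-homotopy of maps to skew matrices.
-/

set_option autoImplicit false

namespace Pool.Agent.Work.MP_2a78db_gt.D1

open Matrix Quaternion
open scoped Topology ContDiff unitInterval

@[simp] lemma qi_re : qi.re = 0 := rfl
@[simp] lemma qi_imI : qi.imI = 1 := rfl
@[simp] lemma qi_imJ : qi.imJ = 0 := rfl
@[simp] lemma qi_imK : qi.imK = 0 := rfl

/-- the quaternion j -/
def qj : ℍ[ℝ] := ⟨0, 0, 1, 0⟩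

@[simp] lemma qj_re : qj.re = 0 := rfl
@[simp] lemma qj_imI : qj.imI = 0 := rfl
@[simp] lemma qj_imJ : qj.imJ = 1 := rfl
@[simp] lemma qj_imK : qj.imK = 0 := rfl

/-- unit imaginary quaternions -/
def Uim : Set ℍ[ℝ] := {u | u.re = 0 ∧ normSq u = 1}

lemma Uim_sq {u : ℍ[ℝ]} (hu : u ∈ Uim) : u * u = -1 := by
  rw [mul_self_im hu.1, hu.2]; simp

lemma Uim_norm {u : ℍ[ℝ]} (hu : u ∈ Uim) : ‖u‖ = 1 := by
  have h := Quaternion.normSq_eq_norm_mul_self u
  rw [hu.2] at h
  nlinarith [norm_nonneg u]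

/-- a starting point -/
lemma exists_start {u : ℍ[ℝ]} (hu : u ∈ Uim) : ∃ Q : ℍ[ℝ], Q ≠ 0 ∧ Q * qi = u * Q := by
  have hqi : qi * qi = -1 := Uim_sq ⟨rfl, normSq_qi⟩
  by_cases h : u = -qi
  · refine ⟨qj, ?_, ?_⟩
    · intro h0
      have := congrArg QuaternionAlgebra.imJ h0
      simp at this
    · rw [h]
      ext <;> simp
  · refine ⟨1 - u * qi, ?_, ?_⟩
    · intro h0
      apply h
      have h1 : u * qi = 1 := (sub_eq_zero.1 h0).symm
      have h2 : u * qi * qi = qi := by rw [h1, one_mul]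
      rw [mul_assoc, hqi, mul_neg, mul_one] at h2
      rw [← h2, neg_neg]
    · rw [sub_mul, mul_sub, one_mul, mul_one, mul_assoc, hqi, ← mul_assoc, Uim_sq hu]
      simp
      abel

/-- transport -/
lemma transport {X : Type*} [TopologicalSpace X] {u v : X → ℍ[ℝ]} (hu : Continuous u)
    (hv : Continuous v) (hu1 : ∀ x, u x ∈ Uim) (hv1 : ∀ x, v x ∈ Uim)
    (hd : ∀ x, ‖u x - v x‖ < 1)
    (h : ∃ Q : X → ℍ[ℝ], Continuous Q ∧ (∀ x, Q x ≠ 0) ∧ ∀ x, Q x * qi = u x * Q x) :
    ∃ Q : X → ℍ[ℝ], Continuous Q ∧ (∀ x, Q x ≠ 0) ∧ ∀ x, Q x * qi = v x * Q x := by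
  obtain ⟨Q, hQ, hQ0, hQu⟩ := h
  refine ⟨fun x => (1 - v x * u x) * Q x, (continuous_const.sub (hv.mul hu)).mul hQ, fun x => ?_,
    fun x => ?_⟩
  · apply mul_ne_zero _ (hQ0 x)
    intro h0
    have h1 : v x * u x = 1 := (sub_eq_zero.1 h0).symm
    have h2 : v x * u x * u x = u x := by rw [h1, one_mul]
    rw [mul_assoc, Uim_sq (hu1 x), mul_neg, mul_one] at h2
    have h3 : ‖u x - v x‖ = 2 := by
      have : u x - v x = (2:ℝ) • u x := by
        rw [two_smul]
        nth_rewrite 2 [← h2]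
        abel
      rw [this, norm_smul, Uim_norm (hu1 x)]; norm_num
    have := hd x
    linarith
  · rw [mul_assoc, hQu, ← mul_assoc, ← mul_assoc]
    congr 1
    rw [sub_mul, mul_sub, one_mul, mul_one, mul_assoc, Uim_sq (hu1 x), ← mul_assoc,
      Uim_sq (hv1 x)]
    simp
    abel

lemma lift_bal {n : ℕ} (u : C(Bal n, ℍ[ℝ])) (hu : ∀ z, u z ∈ Uim) :
    ∃ Q : Bal n → ℍ[ℝ], Continuous Q ∧ (∀ z, Q z ≠ 0) ∧ ∀ z, Q z * qi = u z * Q z := by
  have huc : UniformContinuous (fun p : I × Bal n => u (sc p)) :=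
    CompactSpace.uniformContinuous_of_continuous (u.continuous.comp sc.continuous)
  rw [Metric.uniformContinuous_iff] at huc
  obtain ⟨δ, hδ, hu1⟩ := huc 1 one_pos
  obtain ⟨N, hN⟩ := exists_nat_gt (1 / δ)
  have hN0 : 0 < (N : ℝ) := lt_trans (by positivity) hN
  have hN1 : 1 / (N : ℝ) < δ := by
    rw [div_lt_iff₀ hN0]; rw [div_lt_iff₀ hδ] at hN; linarith
  let tt : ℕ → I := fun k => ⟨cl (k / N), cl_mem _⟩
  have htt : ∀ k, dist (tt k) (tt (k + 1)) < δ := by
    intro k
    rw [Subtype.dist_eq, Real.dist_eq]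
    refine lt_of_le_of_lt ?_ hN1
    change |cl ((k : ℝ) / N) - cl (((k + 1 : ℕ) : ℝ) / N)| ≤ 1 / N
    have h1 : ∀ a b : ℝ, |cl a - cl b| ≤ |a - b| := by
      intro a b
      unfold cl
      rw [abs_le]
      have e1 := neg_abs_le (a - b)
      have e2 := le_abs_self (a - b)
      constructor
      · simp only [max_def, min_def]
        split_ifs <;> linarith
      · simp only [max_def, min_def]
        split_ifs <;> linarith
    refine (h1 _ _).trans (le_of_eq ?_)
    have : (k : ℝ) / N - ((k + 1 : ℕ) : ℝ) / N = -(1 / N) := by push_cast; ring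
    rw [this, abs_neg, abs_of_pos (by positivity)]
  have key : ∀ k : ℕ, ∃ Q : Bal n → ℍ[ℝ], Continuous Q ∧ (∀ z, Q z ≠ 0) ∧
      ∀ z, Q z * qi = u (sc (tt k, z)) * Q z := by
    intro k
    induction k with
    | zero =>
      obtain ⟨Q0, h0, h1⟩ := exists_start (hu (ctr n))
      refine ⟨fun _ => Q0, continuous_const, fun _ => h0, fun z => ?_⟩
      have : tt 0 = 0 := by
        apply Subtype.ext
        change cl (((0:ℕ) : ℝ) / N) = 0
        simp [cl_zero]
      rw [this, sc_zero]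
      exact h1
    | succ k ih =>
      refine transport (u := fun z => u (sc (tt k, z))) (v := fun z => u (sc (tt (k + 1), z)))
        ?_ ?_ (fun z => hu _) (fun z => hu _) (fun z => ?_) ih
      · exact u.continuous.comp (sc.continuous.comp (continuous_const.prodMk continuous_id))
      · exact u.continuous.comp (sc.continuous.comp (continuous_const.prodMk continuous_id))
      · rw [← dist_eq_norm]
        apply hu1
        rw [Prod.dist_eq]
        simp only [dist_self]
        rw [max_eq_left dist_nonneg]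
        exact htt k
  obtain ⟨Q, hQ, hQ0, hQu⟩ := key N
  refine ⟨Q, hQ, hQ0, fun z => ?_⟩
  have h1 : tt N = 1 := by
    apply Subtype.ext
    change cl ((N : ℝ) / N) = 1
    rw [div_self hN0.ne', cl_one]
  have h2 := hQu z
  rwa [h1, sc_one] at h2

/-- complex numbers as quaternions -/
noncomputable def cq (z : ℂ) : ℍ[ℝ] := (z.re : ℍ[ℝ]) + z.im • qi

lemma cq_cont : Continuous cq :=
  (Quaternion.continuous_coe.comp Complex.continuous_re).add
    (Complex.continuous_im.smul continuous_const)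

lemma cq_comm (z : ℂ) : cq z * qi = qi * cq z := by
  rw [cq, add_mul, mul_add, smul_mul_assoc, mul_smul_comm, Quaternion.coe_commutes]

lemma cq_ne {z : ℂ} (hz : z ≠ 0) : cq z ≠ 0 := by
  intro h
  apply hz
  have h1 := congrArg QuaternionAlgebra.re h
  have h2 := congrArg QuaternionAlgebra.imI h
  simp [cq] at h1 h2
  exact Complex.ext (by simpa using h1) (by simpa using h2)

lemma comm_qi {q : ℍ[ℝ]} (h : q * qi = qi * q) : cq ⟨q.re, q.imI⟩ = q := by
  have h1 := congrArg QuaternionAlgebra.imJ h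
  have h2 := congrArg QuaternionAlgebra.imK h
  simp at h1 h2
  have h3 : q.imJ = 0 := by linarith
  have h4 : q.imK = 0 := by linarith
  ext <;> simp [cq, h3, h4]

/-- lifting through the Hopf map on the 3-sphere -/
lemma lift_sph (u : C(Sph 3, ℍ[ℝ])) (hu : ∀ z, u z ∈ Uim) :
    ∃ Q : C(Sph 3, ℍ[ℝ]), (∀ z, Q z ≠ 0) ∧ ∀ z, Q z * qi = u z * Q z := by
  have hQ : ∀ b, ∃ Q : Bal 3 → ℍ[ℝ], Continuous Q ∧ (∀ z, Q z ≠ 0) ∧
      ∀ z, Q z * qi = u (up b z) * Q z := fun b =>
    lift_bal (u.comp (up b)) fun z => hu _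
  choose Q hQc hQ0 hQu using hQ
  -- the boundary of the ball
  have hib0 : ∀ y : Sph 2, y.1 ∈ Bal 3 := fun y => by
    have h : ∑ i, y.1 i ^ 2 = 1 := y.2
    exact le_of_eq h
  let ib : C(Sph 2, Bal 3) := ⟨fun y => ⟨y.1, hib0 y⟩,
    Continuous.subtype_mk continuous_subtype_val hib0⟩
  have hib : ∀ y, ∑ i, (ib y).1 i ^ 2 = 1 := fun y => y.2
  let lam : Sph 2 → ℍ[ℝ] := fun y => (Q false (ib y))⁻¹ * Q true (ib y)
  have hlamc : Continuous lam :=
    (((hQc false).comp ib.continuous).inv₀ fun y => hQ0 _ _).mul ((hQc true).comp ib.continuous)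
  have hlam0 : ∀ y, lam y ≠ 0 := fun y => mul_ne_zero (inv_ne_zero (hQ0 _ _)) (hQ0 _ _)
  have hlamqi : ∀ y, lam y * qi = qi * lam y := by
    intro y
    have h1 := hQu true (ib y)
    have h2 := hQu false (ib y)
    rw [up_eq (ib y) (hib y) true false] at h1
    have h3 : qi * (Q false (ib y))⁻¹ = (Q false (ib y))⁻¹ * u (up false (ib y)) := by
      have hne := hQ0 false (ib y)
      calc qi * (Q false (ib y))⁻¹ = (Q false (ib y))⁻¹ * (Q false (ib y) * qi) * (Q false (ib y))⁻¹ := by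
            rw [← mul_assoc, inv_mul_cancel₀ hne, one_mul]
        _ = (Q false (ib y))⁻¹ * u (up false (ib y)) * (Q false (ib y) * (Q false (ib y))⁻¹) := by
            rw [h2]; simp only [mul_assoc]
        _ = _ := by rw [mul_inv_cancel₀ hne, mul_one]
    change (Q false (ib y))⁻¹ * Q true (ib y) * qi = qi * ((Q false (ib y))⁻¹ * Q true (ib y))
    rw [mul_assoc, h1, ← mul_assoc, ← h3, mul_assoc]
  let f : C(Sph 2, {z : ℂ // z ≠ 0}) := ⟨fun y => ⟨⟨(lam y).re, (lam y).imI⟩, by
    intro h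
    apply hlam0 y
    rw [← comm_qi (hlamqi y), h]
    ext <;> simp [cq]⟩, by
    apply Continuous.subtype_mk
    have h1 : Continuous fun y => (lam y).re := Quaternion.continuous_re.comp hlamc
    have h2 : Continuous fun y => (lam y).imI := Quaternion.continuous_imI.comp hlamc
    have h3 : (fun y => (⟨(lam y).re, (lam y).imI⟩ : ℂ)) =
        fun y => ((lam y).re : ℂ) + ((lam y).imI : ℂ) * Complex.I := by
      funext y
      rw [Complex.mk_eq_add_mul_I]
    rw [h3]
    fun_prop⟩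
  obtain ⟨l, hl⟩ := log_sph2 f
  obtain ⟨L, hL⟩ := ContinuousMap.exists_restrict_eq (X := Fin 3 → ℝ) (s := Sph 2)
    (isClosed_Sph 2) l
  have hLl : ∀ y : Sph 2, L y.1 = l y := fun y => by
    have := congrArg (fun f : C(Sph 2, ℂ) => f y) hL
    exact this
  have hfin : ∀ y : Sph 2, cq (Complex.exp (L y.1)) = lam y := by
    intro y
    rw [hLl, hl]
    exact comm_qi (hlamqi y)
  have hcm : Continuous fun z : Bal 3 => cq (Complex.exp (L z.1)) :=
    cq_cont.comp (Complex.continuous_exp.comp (L.continuous.comp continuous_subtype_val))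
  obtain ⟨q, hq⟩ := glue (fun b => match b with
    | true => (⟨Q true, hQc true⟩ : C(Bal 3, ℍ[ℝ]))
    | false => ⟨fun z => Q false z * cq (Complex.exp (L z.1)), (hQc false).mul hcm⟩) (by
      intro z hz
      change Q true z = Q false z * cq (Complex.exp (L z.1))
      have h1 := hfin ⟨z.1, hz⟩
      have h2 : cq (Complex.exp (L z.1)) = (Q false z)⁻¹ * Q true z := h1
      rw [h2, ← mul_assoc, mul_inv_cancel₀ (hQ0 _ _), one_mul])
  refine ⟨q, fun y => ?_, fun y => ?_⟩
  · rcases le_total 0 (y.1 0) with h | h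
    · rw [hq true y (by simpa [sg] using h)]
      exact hQ0 _ _
    · rw [hq false y (by simpa [sg] using h)]
      exact mul_ne_zero (hQ0 _ _) (cq_ne (Complex.exp_ne_zero _))
  · rcases le_total 0 (y.1 0) with h | h
    · rw [hq true y (by simpa [sg] using h)]
      have h1 := hQu true (tl y)
      rw [up_tl true y (by simpa [sg] using h)] at h1
      exact h1
    · rw [hq false y (by simpa [sg] using h)]
      have h1 := hQu false (tl y)
      rw [up_tl false y (by simpa [sg] using h)] at h1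
      change Q false (tl y) * cq (Complex.exp (L (tl y).1)) * qi =
        u y * (Q false (tl y) * cq (Complex.exp (L (tl y).1)))
      rw [mul_assoc, cq_comm, ← mul_assoc, h1, mul_assoc]

end Pool.Agent.Work.MP_2a78db_gt.D1
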