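import Pool.Agent.Work.MP_2a78db_gt.D1f

/-!
Module D1, part g: maps from the 3-sphere to nondegenerate skew 8×8 matrices are null-homotopic.
-/

set_option autoImplicit false

namespace Pool.Agent.Work.MP_2a78db_gt.D1

open Matrix Quaternion
open scoped Topology ContDiff unitInterval

lemma null_unit (u : S3 → ℍ[ℝ]) (hu : Continuous u) (h : ∀ x, u x ∈ Uim) :
    Htp (Sk (Fin 2 ⊕ Fin 4)) (fun x => ext (Lm (u x))) (fun _ => ext (Lm qi)) := by
  obtain ⟨Q, hQ0, hQ⟩ := lift_sph ⟨u, hu⟩ h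
  have hn : ∀ x, ‖Q x‖ ≠ 0 := fun x => norm_ne_zero_iff.2 (hQ0 x)
  have hqc : Continuous fun x => star (‖Q x‖⁻¹ • Q x) := by
    have h1 : Continuous fun x => ‖Q x‖⁻¹ • Q x := (Q.continuous.norm.inv₀ hn).smul Q.continuous
    exact continuous_star.comp h1
  have hq1 : ∀ x, normSq (‖Q x‖⁻¹ • Q x) = 1 := by
    intro x
    rw [Quaternion.normSq_eq_norm_mul_self, norm_smul, norm_inv, norm_norm,
      inv_mul_cancel₀ (hn x), one_mul]
  have hp1 : ∀ x, normSq (star (‖Q x‖⁻¹ • Q x)) = 1 := by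
    intro x
    rw [Quaternion.normSq_star, hq1 x]
  refine (final_null (fun x => star (‖Q x‖⁻¹ • Q x)) hqc hp1).congr_left fun x => ?_
  congr 1
  rw [Lm_transpose, star_star, ← Lm_mul, ← Lm_mul]
  congr 1
  have h1 : (‖Q x‖⁻¹ • Q x) * qi = u x * (‖Q x‖⁻¹ • Q x) := by
    rw [smul_mul_assoc, mul_smul_comm]
    congr 1
    exact hQ x
  rw [h1, mul_assoc, Quaternion.self_mul_star, hq1 x, Quaternion.coe_one, mul_one]

lemma Rm_zero : Rm 0 = 0 := by
  ext i j
  fin_cases i <;> fin_cases j <;> simp [Rm]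

lemma case1 (a b : S3 → ℍ[ℝ]) (ha : Continuous a) (hb : Continuous b) (ha0 : ∀ x, (a x).re = 0)
    (hb0 : ∀ x, (b x).re = 0) (hlt : ∀ x, normSq (b x) < normSq (a x)) :
    Htp (Sk (Fin 2 ⊕ Fin 4)) (fun x => ext (Lm (a x) + Rm (b x))) (fun _ => ext (Lm qi)) := by
  have hpos : ∀ x, 0 < normSq (a x) := fun x => lt_of_le_of_lt Quaternion.normSq_nonneg (hlt x)
  have hna : ∀ x, 0 < ‖a x‖ := by
    intro x
    rw [norm_pos_iff]
    intro h
    have := hpos x
    rw [h] at this
    simp at this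
  -- step 1
  have h1 : Htp (Sk (Fin 4)) (fun x => Lm (a x) + Rm (b x)) (fun x => Lm (a x)) := by
    refine Htp.of_clamp (fun p => Lm (a p.2) + Rm ((1 - p.1) • b p.2)) ?_ ?_ ?_ ?_
    · apply Continuous.continuousOn
      exact (Lm_cont.comp (ha.comp continuous_snd)).add (Rm_cont.comp
        ((continuous_const.sub continuous_fst).smul (hb.comp continuous_snd)))
    · intro t ht x
      apply LR_mem (ha0 x)
      · simp [hb0 x]
      · rw [Quaternion.normSq_smul]
        apply ne_of_gt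
        refine lt_of_le_of_lt ?_ (hlt x)
        have h2 : (1 - t) ^ 2 ≤ 1 := by nlinarith [ht.1, ht.2]
        have h3 : 0 ≤ normSq (b x) := Quaternion.normSq_nonneg
        nlinarith
    · intro x; simp
    · intro x; simp [Rm_zero]
  have h2 : Htp (Sk (Fin 4)) (fun x => Lm (a x)) (fun x => Lm (‖a x‖⁻¹ • a x)) := by
    refine Htp.of_clamp (fun p => Lm (((1 - p.1) + p.1 * ‖a p.2‖⁻¹) • a p.2)) ?_ ?_ ?_ ?_
    · apply Continuous.continuousOn
      have h3 : Continuous fun p : ℝ × S3 => a p.2 := ha.comp continuous_snd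
      have h4 : Continuous fun p : ℝ × S3 => ‖a p.2‖⁻¹ := h3.norm.inv₀ fun p => (hna p.2).ne'
      exact Lm_cont.comp (((continuous_const.sub continuous_fst).add
        (continuous_fst.mul h4)).smul h3)
    · intro t ht x
      have h3 : 0 < (1 - t) + t * ‖a x‖⁻¹ := by
        rcases eq_or_lt_of_le ht.1 with h | h
        · rw [← h]; simp
        · have := mul_pos h (inv_pos.2 (hna x))
          linarith [ht.2]
      have h4 := LR_mem (a := ((1 - t) + t * ‖a x‖⁻¹) • a x) (b := 0) (by simp [ha0 x]) rfl (by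
        rw [Quaternion.normSq_smul]
        simp only [map_zero]
        have := hpos x
        positivity)
      rwa [Rm_zero, add_zero] at h4
    · intro x; simp
    · intro x; simp
  have h3 : Htp (Sk (Fin 2 ⊕ Fin 4)) (ext ∘ fun x => Lm (a x) + Rm (b x))
      (ext ∘ fun x => Lm (‖a x‖⁻¹ • a x)) :=
    (h1.trans h2).map ext ext_cont.continuousOn fun y hy => ext_mem hy
  refine h3.trans (null_unit (fun x => ‖a x‖⁻¹ • a x) ?_ ?_)
  · exact (ha.norm.inv₀ fun x => (hna x).ne').smul ha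
  · intro x
    refine ⟨by simp [ha0 x], ?_⟩
    rw [Quaternion.normSq_eq_norm_mul_self, norm_smul, norm_inv, norm_norm,
      inv_mul_cancel₀ (hna x).ne', one_mul]

lemma aq_cont : Continuous aq := by
  have h : aq = fun B : Matrix (Fin 4) (Fin 4) ℝ =>
    ((-(B 0 1 + B 2 3) / 2) • (⟨0, 1, 0, 0⟩ : ℍ[ℝ]) + ((B 1 3 - B 0 2) / 2) • (⟨0, 0, 1, 0⟩ : ℍ[ℝ])
      + (-(B 0 3 + B 1 2) / 2) • (⟨0, 0, 0, 1⟩ : ℍ[ℝ])) := by
    funext B
    apply QuaternionAlgebra.ext <;> simp [aq]
  rw [h]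
  have hc : ∀ i j : Fin 4, Continuous fun B : Matrix (Fin 4) (Fin 4) ℝ => B i j := fun i j =>
    continuous_id.matrix_elem i j
  have h01 := hc 0 1
  have h23 := hc 2 3
  have h13 := hc 1 3
  have h02 := hc 0 2
  have h03 := hc 0 3
  have h12 := hc 1 2
  exact (((((h01.add h23).neg).div_const 2).smul continuous_const).add
    (((h13.sub h02).div_const 2).smul continuous_const)).add
    (((h03.add h12).neg.div_const 2).smul continuous_const)

lemma bq_cont : Continuous bq := by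
  have h : bq = fun B : Matrix (Fin 4) (Fin 4) ℝ =>
    (((B 2 3 - B 0 1) / 2) • (⟨0, 1, 0, 0⟩ : ℍ[ℝ]) + (-(B 0 2 + B 1 3) / 2) • (⟨0, 0, 1, 0⟩ : ℍ[ℝ])
      + ((B 1 2 - B 0 3) / 2) • (⟨0, 0, 0, 1⟩ : ℍ[ℝ])) := by
    funext B
    apply QuaternionAlgebra.ext <;> simp [bq]
  rw [h]
  have hc : ∀ i j : Fin 4, Continuous fun B : Matrix (Fin 4) (Fin 4) ℝ => B i j := fun i j =>
    continuous_id.matrix_elem i j
  have h01 := hc 0 1
  have h23 := hc 2 3
  have h13 := hc 1 3
  have h02 := hc 0 2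
  have h03 := hc 0 3
  have h12 := hc 1 2
  exact ((((h23.sub h01).div_const 2).smul continuous_const).add
    (((h02.add h13).neg.div_const 2).smul continuous_const)).add
    (((h12.sub h03).div_const 2).smul continuous_const)

lemma case2 (a b : S3 → ℍ[ℝ]) (ha : Continuous a) (hb : Continuous b) (ha0 : ∀ x, (a x).re = 0)
    (hb0 : ∀ x, (b x).re = 0) (hlt : ∀ x, normSq (a x) < normSq (b x)) :
    Null (Sk (Fin 2 ⊕ Fin 4)) (fun x => ext (Lm (a x) + Rm (b x))) := by
  have h1 := case1 (fun x => star (b x)) (fun x => star (a x)) (continuous_star.comp hb)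
    (continuous_star.comp ha) (fun x => by simp [hb0 x]) (fun x => by simp [ha0 x]) (fun x => by
      rw [Quaternion.normSq_star, Quaternion.normSq_star]; exact hlt x)
  set C : Matrix (Fin 2 ⊕ Fin 4) (Fin 2 ⊕ Fin 4) ℝ := fromBlocks 1 0 0 cm with hC
  have hCC : C * C = 1 := by
    rw [hC, fromBlocks_multiply]
    simp [cm_cm, fromBlocks_one]
  have hCT : Cᵀ = C := by
    rw [hC, fromBlocks_transpose]
    simp [cm_T]
  have hinj : ∀ v, C *ᵥ v = 0 → v = 0 := by
    intro v hv
    have : C *ᵥ (C *ᵥ v) = v := by rw [mulVec_mulVec, hCC, one_mulVec]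
    rw [← this, hv, mulVec_zero]
  have h2 := h1.map (S' := Sk (Fin 2 ⊕ Fin 4)) (fun M => Cᵀ * M * C)
    ((continuous_const.matrix_mul continuous_id).matrix_mul continuous_const).continuousOn
    (fun y hy => Sk_conj hy hinj)
  refine ⟨_, h2.congr_left fun x => ?_⟩
  change ext (Lm (a x) + Rm (b x)) = Cᵀ * ext (Lm (star (b x)) + Rm (star (a x))) * C
  rw [hCT, hC, ext, ext, fromBlocks_multiply, fromBlocks_multiply]
  simp only [Matrix.mul_zero, Matrix.zero_mul, add_zero, zero_add, Matrix.one_mul, Matrix.mul_one]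
  congr 1
  rw [mul_add, add_mul, cm_L, cm_R, star_star, star_star, add_comm]

lemma ext_null (B : S3 → Matrix (Fin 4) (Fin 4) ℝ) (hB : Continuous B)
    (hS : ∀ x, B x ∈ Sk (Fin 4)) : Null (Sk (Fin 2 ⊕ Fin 4)) (fun x => ext (B x)) := by
  have hna : Continuous fun x => normSq (aq (B x)) :=
    Quaternion.continuous_normSq.comp (aq_cont.comp hB)
  have hnb : Continuous fun x => normSq (bq (B x)) :=
    Quaternion.continuous_normSq.comp (bq_cont.comp hB)
  have : PreconnectedSpace S3 := isPreconnected_iff_preconnectedSpace.1 sphere3_preconnected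
  have hcl : IsClopen {x : S3 | normSq (bq (B x)) < normSq (aq (B x))} := by
    refine ⟨?_, isOpen_lt hnb hna⟩
    have : {x : S3 | normSq (bq (B x)) < normSq (aq (B x))} =
        {x : S3 | normSq (bq (B x)) ≤ normSq (aq (B x))} := by
      ext x
      constructor
      · intro h
        exact le_of_lt (show normSq (bq (B x)) < normSq (aq (B x)) from h)
      · intro h
        exact lt_of_le_of_ne (show normSq (bq (B x)) ≤ normSq (aq (B x)) from h)
          (normSq_ne (hS x)).symm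
    rw [this]
    exact isClosed_le hnb hna
  have hdec : ∀ x, ext (B x) = ext (Lm (aq (B x)) + Rm (bq (B x))) := fun x => by
    rw [← decomp (hS x)]
  rcases isClopen_iff.1 hcl with h | h
  · obtain ⟨c, hc⟩ := case2 (fun x => aq (B x)) (fun x => bq (B x)) (aq_cont.comp hB)
      (bq_cont.comp hB) (fun _ => rfl) (fun _ => rfl) (fun x => by
        have h1 : ¬ (normSq (bq (B x)) < normSq (aq (B x))) := by
          intro h2
          have h3 : x ∈ {x : S3 | normSq (bq (B x)) < normSq (aq (B x))} := h2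
          rw [h] at h3
          exact h3
        exact lt_of_le_of_ne (not_lt.1 h1) (normSq_ne (hS x)))
    exact ⟨c, hc.congr_left hdec⟩
  · have h1 := case1 (fun x => aq (B x)) (fun x => bq (B x)) (aq_cont.comp hB)
      (bq_cont.comp hB) (fun _ => rfl) (fun _ => rfl) (fun x => by
        have h3 : x ∈ {x : S3 | normSq (bq (B x)) < normSq (aq (B x))} := by
          rw [h]; trivial
        exact h3)
    exact ⟨_, h1.congr_left hdec⟩

/-- maps from the 3-sphere to nondegenerate skew 8×8 matrices are null-homotopic -/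
theorem null_Sk (A : S3 → Matrix (Fin 2 ⊕ (Fin 2 ⊕ Fin 4)) (Fin 2 ⊕ (Fin 2 ⊕ Fin 4)) ℝ)
    (hA : Continuous A) (hS : ∀ x, A x ∈ Sk (Fin 2 ⊕ (Fin 2 ⊕ Fin 4))) :
    Null (Sk (Fin 2 ⊕ (Fin 2 ⊕ Fin 4))) A := by
  obtain ⟨B, hB, hBS, h⟩ := reduce (by simp) A hA hS
  obtain ⟨B', hB', hBS', h'⟩ := reduce (by simp) B hB hBS
  obtain ⟨c, hc⟩ := ext_null B' hB' hBS'
  exact ⟨ext c, h.trans ((h'.trans hc).map ext ext_cont.continuousOn fun y hy => ext_mem hy)⟩

end Pool.Agent.Work.MP_2a78db_gt.D1
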