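import Pool.Agent.Work.MP_2a78db_gt.D1g
import Pool.Agent.Work.MP_2a78db_gt.Common

/-!
Module D1, part h: maps from the 3-sphere to nondegenerate skew forms on `V4` are null-homotopic.
-/

set_option autoImplicit false

namespace Pool.Agent.Work.MP_2a78db_gt.D1

open Matrix
open scoped Topology ContDiff

/-- index type with 8 elements -/
abbrev I8 : Type := Fin 2 ⊕ (Fin 2 ⊕ Fin 4)

lemma finrank_V4 : Module.finrank ℝ V4 = 8 := by
  rw [Module.finrank_pi_fintype]
  simp [Complex.finrank_real_complex]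

/-- a real basis -/
noncomputable def bs : Module.Basis I8 ℝ V4 :=
  (Module.finBasisOfFinrankEq ℝ V4 finrank_V4).reindex
    (Fintype.equivFinOfCardEq (α := I8) (n := 8) (by simp)).symm

/-- coordinates -/
noncomputable def Cd (i : I8) : V4 →L[ℝ] ℝ := LinearMap.toContinuousLinearMap (bs.coord i)

lemma Cd_apply (i : I8) (v : V4) : Cd i v = bs.repr v i := rfl

lemma Cd_bs (i j : I8) : Cd i (bs j) = if j = i then 1 else 0 := by
  rw [Cd_apply, Module.Basis.repr_self, Finsupp.single_apply]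

/-- matrix of a form -/
noncomputable def toM (B : V4 →L[ℝ] V4 →L[ℝ] ℝ) : Matrix I8 I8 ℝ := fun i j => B (bs i) (bs j)

/-- form of a matrix -/
noncomputable def ofM (A : Matrix I8 I8 ℝ) : V4 →L[ℝ] V4 →L[ℝ] ℝ :=
  ∑ i, ∑ j, A i j • (Cd i).smulRight (Cd j)

lemma ofM_apply (A : Matrix I8 I8 ℝ) (v w : V4) :
    ofM A v w = ∑ i, ∑ j, A i j * (Cd i v * Cd j w) := by
  simp [ofM]

lemma toM_cont : Continuous toM := by
  refine continuous_matrix fun i j => ?_
  unfold toM
  fun_prop

instance instContAdd : ContinuousAdd (V4 →L[ℝ] V4 →L[ℝ] ℝ) :=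
  (inferInstance : IsTopologicalAddGroup (V4 →L[ℝ] V4 →L[ℝ] ℝ)).toContinuousAdd

lemma ofM_cont : Continuous ofM := by
  unfold ofM
  refine continuous_finsetSum _ fun i _ => continuous_finsetSum _ fun j _ => ?_
  exact (continuous_id.matrix_elem i j).smul continuous_const

lemma exp_left (B : V4 →L[ℝ] V4 →L[ℝ] ℝ) (v w : V4) : B v w = ∑ i, Cd i v * B (bs i) w := by
  have h : B v = ∑ i, Cd i v • B (bs i) := by
    conv_lhs => rw [← bs.sum_repr v]
    rw [map_sum]
    refine Finset.sum_congr rfl fun i _ => ?_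
    rw [map_smul, Cd_apply]
  rw [h, _root_.sum_apply]
  rfl

lemma exp_right (f : V4 →L[ℝ] ℝ) (w : V4) : f w = ∑ j, Cd j w * f (bs j) := by
  conv_lhs => rw [← bs.sum_repr w]
  rw [map_sum]
  refine Finset.sum_congr rfl fun i _ => ?_
  rw [map_smul, Cd_apply, smul_eq_mul]

lemma ofM_toM (B : V4 →L[ℝ] V4 →L[ℝ] ℝ) : ofM (toM B) = B := by
  ext v w
  rw [ofM_apply, exp_left]
  refine Finset.sum_congr rfl fun i _ => ?_
  rw [exp_right (B (bs i)), Finset.mul_sum]
  refine Finset.sum_congr rfl fun j _ => ?_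
  rw [toM]
  ring

lemma Nd_skew {B : V4 →L[ℝ] V4 →L[ℝ] ℝ} (hB : B ∈ Nd V4) (v w : V4) : B v w = - B w v := by
  have h := hB.1 (v + w)
  simp only [map_add, _root_.add_apply, hB.1 v, hB.1 w] at h
  linarith

lemma toM_mem {B : V4 →L[ℝ] V4 →L[ℝ] ℝ} (hB : B ∈ Nd V4) : toM B ∈ Sk I8 := by
  refine ⟨?_, fun v hv => ?_⟩
  · ext i j
    rw [transpose_apply, Matrix.neg_apply]
    exact Nd_skew hB _ _
  · have h1 : ∀ i, B (bs i) (∑ j, v j • bs j) = 0 := by
      intro i
      have h3 := congrFun hv i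
      rw [map_sum]
      simp only [map_smul, smul_eq_mul]
      rw [Matrix.mulVec, dotProduct, Pi.zero_apply] at h3
      rw [← h3]
      exact Finset.sum_congr rfl fun j _ => mul_comm _ _
    have h2 : ∑ j, v j • bs j = 0 := by
      apply hB.2
      intro w
      rw [Nd_skew hB, neg_eq_zero, exp_left]
      apply Finset.sum_eq_zero
      intro i _
      rw [h1 i, mul_zero]
    funext i
    exact Fintype.linearIndependent_iff.1 bs.linearIndependent v h2 i

lemma ofM_mem {A : Matrix I8 I8 ℝ} (hA : A ∈ Sk I8) : ofM A ∈ Nd V4 := by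
  have hs : ∀ i j, A j i = - A i j := fun i j => by
    have := congrFun (congrFun hA.1 i) j
    rwa [transpose_apply, Matrix.neg_apply] at this
  refine ⟨fun v => ?_, fun v hv => ?_⟩
  · have h1 : ofM A v v = - ofM A v v := by
      rw [ofM_apply, ← Finset.sum_neg_distrib]
      conv_lhs => rw [Finset.sum_comm]
      refine Finset.sum_congr rfl fun i _ => ?_
      rw [← Finset.sum_neg_distrib]
      refine Finset.sum_congr rfl fun j _ => ?_
      rw [hs i j]; ring
    linarith
  · have h1 : A *ᵥ (fun i => Cd i v) = 0 := by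
      funext j
      have h2 := hv (bs j)
      rw [ofM_apply] at h2
      simp only [Cd_bs, mul_ite, mul_one, mul_zero, Finset.sum_ite_eq, Finset.mem_univ,
        if_true] at h2
      rw [Matrix.mulVec, dotProduct, Pi.zero_apply, ← neg_eq_zero, ← Finset.sum_neg_distrib,
        ← h2]
      refine Finset.sum_congr rfl fun i _ => ?_
      rw [hs i j]; ring
    have h3 := hA.2 _ h1
    rw [← bs.sum_repr v]
    apply Finset.sum_eq_zero
    intro i _
    have := congrFun h3 i
    rw [Pi.zero_apply, Cd_apply] at this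
    rw [this, zero_smul]

/-- maps from the 3-sphere to nondegenerate skew forms are null-homotopic -/
theorem null_Nd (G : S3 → (V4 →L[ℝ] V4 →L[ℝ] ℝ)) (hG : Continuous G)
    (hN : ∀ x, G x ∈ Nd V4) : Null (Nd V4) G := by
  obtain ⟨c, hc⟩ := null_Sk (fun x => toM (G x)) (toM_cont.comp hG) fun x => toM_mem (hN x)
  have h := hc.map (S' := Nd V4) ofM ofM_cont.continuousOn fun y hy => ofM_mem hy
  exact ⟨ofM c, h.congr_left fun x => (ofM_toM (G x)).symm⟩

end Pool.Agent.Work.MP_2a78db_gt.D1
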