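import Pool.Agent.Work.MP_2a78db_gt.Sphere

/-!
The normalized rotation invariant measure on the unit sphere of complex 5-space and the
moments of monomials (via the Gaussian measure).
-/

namespace Pool.Agent.Work.MP_2a78db_gt.D2

open MeasureTheory Set Metric ComplexConjugate

noncomputable section

/-! ### Polar coordinates -/

theorem polar_formula {E : Type*} [NormedAddCommGroup E] [NormedSpace ℝ E] [MeasurableSpace E]
    [BorelSpace E] [FiniteDimensional ℝ E] [Nontrivial E] (μ : Measure E) [μ.IsAddHaarMeasure]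
    (F : sphere (0 : E) 1 → ℂ) (f : ℝ → ℂ) (G : E → ℂ)
    (hG : ∀ x : ({0}ᶜ : Set E), G x = F (homeomorphUnitSphereProd E x).1 * f ‖x.1‖) :
    ∫ x, G x ∂μ = (∫ s, F s ∂μ.toSphere) *
      ∫ y in Ioi (0 : ℝ), ((y ^ (Module.finrank ℝ E - 1) : ℝ) : ℂ) * f y := by
  calc
    ∫ x, G x ∂μ = ∫ x : ({(0)}ᶜ : Set E), G x.1 ∂(μ.comap (↑)) := by
      rw [integral_subtype_comap (measurableSet_singleton _).compl fun x ↦ G x,
        restrict_compl_singleton]
    _ = ∫ x : ({(0)}ᶜ : Set E), F (homeomorphUnitSphereProd E x).1 *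
          f (homeomorphUnitSphereProd E x).2 ∂(μ.comap (↑)) := by
      refine integral_congr_ae (Filter.Eventually.of_forall fun x => ?_)
      simp only [hG, homeomorphUnitSphereProd_apply_snd_coe]
    _ = ∫ x, F x.1 * f x.2 ∂μ.toSphere.prod (.volumeIoiPow (Module.finrank ℝ E - 1)) := by
      simpa using μ.measurePreserving_homeomorphUnitSphereProd.integral_comp
        (Homeomorph.measurableEmbedding _) (fun x => F x.1 * f x.2)
    _ = (∫ s, F s ∂μ.toSphere) *
          ∫ x : Ioi (0 : ℝ), f x ∂.volumeIoiPow (Module.finrank ℝ E - 1) :=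
      integral_prod_mul F (fun x : Ioi (0 : ℝ) => f x)
    _ = _ := by
      congr 1
      simp only [Measure.volumeIoiPow, ENNReal.ofReal]
      rw [integral_withDensity_eq_integral_smul,
        integral_subtype_comap measurableSet_Ioi
          fun a ↦ Real.toNNReal (a ^ (Module.finrank ℝ E - 1)) • f a,
        setIntegral_congr_fun measurableSet_Ioi fun x hx ↦ ?_]
      · simp only [NNReal.smul_def, Real.coe_toNNReal _ (pow_nonneg (le_of_lt hx) _)]
        simp
      · exact (measurable_subtype_coe.pow_const _).real_toNNReal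

/-! ### The sphere and the measure -/

/-- square norm -/
def nsq (x : Fin 5 → ℂ) : ℝ := ∑ i, ‖x i‖ ^ 2

theorem nsq_nonneg (x : Fin 5 → ℂ) : 0 ≤ nsq x := Finset.sum_nonneg fun _ _ => by positivity

theorem continuous_nsq : Continuous nsq := by unfold nsq; fun_prop

instance : MeasurableSpace S9 := inferInstanceAs (MeasurableSpace {z : Fin 5 → ℂ // ∑ i, ‖z i‖ ^ 2 = 1})
instance : BorelSpace S9 := inferInstanceAs (BorelSpace {z : Fin 5 → ℂ // ∑ i, ‖z i‖ ^ 2 = 1})
instance : T2Space S9 := inferInstanceAs (T2Space {z : Fin 5 → ℂ // ∑ i, ‖z i‖ ^ 2 = 1})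
instance : SecondCountableTopology S9 :=
  inferInstanceAs (SecondCountableTopology {z : Fin 5 → ℂ // ∑ i, ‖z i‖ ^ 2 = 1})

instance : CompactSpace S9 := by
  suffices h : IsCompact {z : Fin 5 → ℂ | ∑ i, ‖z i‖ ^ 2 = 1} from isCompact_iff_compactSpace.1 h
  refine Metric.isCompact_of_isClosed_isBounded (isClosed_eq (by fun_prop) continuous_const) ?_
  refine (isBounded_iff_forall_norm_le).2 ⟨1, fun z hz => ?_⟩
  rw [pi_norm_le_iff_of_nonneg zero_le_one]
  intro i
  have h1 : ‖z i‖ ^ 2 ≤ 1 := by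
    rw [← (show ∑ i, ‖z i‖ ^ 2 = 1 from hz)]
    exact Finset.single_le_sum (f := fun i => ‖z i‖ ^ 2) (fun _ _ => by positivity)
      (Finset.mem_univ i)
  nlinarith [norm_nonneg (z i)]

theorem continuous_val : Continuous (fun z : S9 => z.1) := continuous_subtype_val

@[fun_prop]
theorem continuous_coord (i : Fin 5) : Continuous (fun z : S9 => z.1 i) :=
  (continuous_apply i).comp continuous_val

/-- underlying function of the normalization -/
def nzf (x : Fin 5 → ℂ) : Fin 5 → ℂ :=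
  if nsq x = 0 then fun i => if i = 0 then 1 else 0 else fun i => (((√(nsq x))⁻¹ : ℝ) : ℂ) * x i

theorem nzf_mem (x : Fin 5 → ℂ) : ∑ i, ‖nzf x i‖ ^ 2 = 1 := by
  unfold nzf
  split_ifs with h
  · simp [Fin.sum_univ_succ]
  · simp only [norm_mul, mul_pow, ← Finset.mul_sum, Complex.norm_real, norm_inv, inv_pow,
      Real.norm_eq_abs, sq_abs, Real.sq_sqrt (nsq_nonneg x)]
    exact inv_mul_cancel₀ h

theorem measurable_nzf : Measurable nzf := by
  unfold nzf
  refine Measurable.ite (measurableSet_eq_fun continuous_nsq.measurable measurable_const)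
    measurable_const ?_
  have := continuous_nsq.measurable
  fun_prop

/-- normalization -/
def nz (x : Fin 5 → ℂ) : S9 := ⟨nzf x, nzf_mem x⟩

theorem measurable_nz : Measurable nz := measurable_nzf.subtype_mk

/-- Euclidean space -/
abbrev E5 : Type := EuclideanSpace ℂ (Fin 5)

/-- the Haar measure transported to Euclidean space -/
def nu : Measure E5 := Measure.map (WithLp.toLp 2) (volume : Measure (Fin 5 → ℂ))

instance : nu.IsAddHaarMeasure := by
  unfold nu
  exact (PiLp.continuousLinearEquiv 2 ℝ (fun _ : Fin 5 => ℂ)).symm.isAddHaarMeasure_map volume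

theorem integral_nu (g : (Fin 5 → ℂ) → ℂ) : ∫ x : Fin 5 → ℂ, g x = ∫ x : E5, g (WithLp.ofLp x) ∂nu := by
  unfold nu
  rw [show (WithLp.toLp 2 : (Fin 5 → ℂ) → E5) = MeasurableEquiv.toLp 2 (Fin 5 → ℂ) from rfl,
    integral_map_equiv]
  rfl

theorem nsq_ofLp (x : E5) : nsq (WithLp.ofLp x) = ‖x‖ ^ 2 := by
  rw [EuclideanSpace.norm_sq_eq]; rfl

theorem finrank_E5 : Module.finrank ℝ E5 = 10 := by
  have h1 : Module.finrank ℝ E5 = Module.finrank ℝ (Fin 5 → ℂ) :=
    LinearEquiv.finrank_eq (WithLp.linearEquiv 2 ℝ (Fin 5 → ℂ))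
  rw [h1, Module.finrank_pi_fintype]
  simp

theorem radial (k : ℕ) : ∫ y in Ioi (0 : ℝ), ((y ^ 9 : ℝ) : ℂ) * (((y ^ 2) ^ k * Real.exp (-y ^ 2) : ℝ) : ℂ)
    = ((k + 4).factorial / 2 : ℝ) := by
  have h1 : ∀ y ∈ Ioi (0 : ℝ), ((y ^ 9 : ℝ) : ℂ) * (((y ^ 2) ^ k * Real.exp (-y ^ 2) : ℝ) : ℂ) =
      ((y ^ ((2 * k + 9 : ℕ) : ℝ) * Real.exp (-y ^ (2 : ℝ)) : ℝ) : ℂ) := by
    intro y hy
    rw [← Complex.ofReal_mul, Real.rpow_natCast, Real.rpow_two]
    congr 1
    ring
  rw [setIntegral_congr_fun measurableSet_Ioi h1, integral_complex_ofReal,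
    integral_rpow_mul_exp_neg_rpow (by norm_num) (by push_cast; linarith [k.cast_nonneg (α := ℝ)])]
  congr 1
  have : ((((2 * k + 9 : ℕ) : ℝ) + 1) / 2) = ((k + 4 : ℕ) : ℝ) + 1 := by push_cast; ring
  rw [this, Real.Gamma_nat_eq_factorial]
  ring

/-- point of the sphere in Euclidean space as a point of `S9` -/
def toS9 (s : sphere (0 : E5) 1) : S9 := ⟨WithLp.ofLp s.1, by
  have h := nsq_ofLp s.1
  rw [norm_eq_of_mem_sphere] at h
  simpa [nsq] using h⟩

theorem J_formula (F : S9 → ℂ) (k : ℕ) :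
    ∫ x : Fin 5 → ℂ, F (nz x) * (((nsq x) ^ k * Real.exp (-nsq x) : ℝ) : ℂ) =
      ((k + 4).factorial / 24 : ℝ) * ∫ x : Fin 5 → ℂ, F (nz x) * ((Real.exp (-nsq x) : ℝ) : ℂ) := by
  have key : ∀ k : ℕ, ∫ x : Fin 5 → ℂ, F (nz x) * (((nsq x) ^ k * Real.exp (-nsq x) : ℝ) : ℂ) =
      (∫ s, F (toS9 s) ∂nu.toSphere) * ((k + 4).factorial / 2 : ℝ) := by
    intro k
    rw [integral_nu, ← radial k]
    have h := polar_formula nu (fun s => F (toS9 s))
      (fun y => (((y ^ 2) ^ k * Real.exp (-y ^ 2) : ℝ) : ℂ))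
      (fun x => F (nz (WithLp.ofLp x)) *
        (((nsq (WithLp.ofLp x)) ^ k * Real.exp (-nsq (WithLp.ofLp x)) : ℝ) : ℂ)) ?_
    · rw [h, finrank_E5]
    · intro x
      have hx : ‖x.1‖ ≠ 0 := norm_ne_zero_iff.2 x.2
      have hx2 : nsq (WithLp.ofLp x.1) ≠ 0 := by rw [nsq_ofLp]; positivity
      simp only [nsq_ofLp]
      congr 2
      apply Subtype.ext
      funext i
      simp only [nz, nzf, if_neg hx2, toS9, homeomorphUnitSphereProd_apply_fst_coe]
      rw [nsq_ofLp, Real.sqrt_sq (norm_nonneg _)]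
      simp
  have h0 := key 0
  have hk := key k
  simp only [pow_zero, one_mul] at h0
  rw [hk, h0]
  simp [Nat.factorial]
  ring

theorem gauss_ne {a b : ℕ} (hab : a ≠ b) :
    ∫ z : ℂ, conj z ^ a * z ^ b * ((Real.exp (-‖z‖ ^ 2) : ℝ) : ℂ) = 0 := by
  set θ : ℝ := Real.pi / ((b : ℝ) - a) with hθ
  have hba : ((b : ℝ) - a) ≠ 0 := sub_ne_zero.2 (by exact_mod_cast hab.symm)
  have h1 := (rotation (Circle.exp θ)).measurePreserving.integral_comp
    (rotation (Circle.exp θ)).toHomeomorph.measurableEmbedding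
    (fun z : ℂ => conj z ^ a * z ^ b * ((Real.exp (-‖z‖ ^ 2) : ℝ) : ℂ))
  have h2 : ∀ z : ℂ, conj (rotation (Circle.exp θ) z) ^ a * (rotation (Circle.exp θ) z) ^ b *
      ((Real.exp (-‖rotation (Circle.exp θ) z‖ ^ 2) : ℝ) : ℂ) =
      - (conj z ^ a * z ^ b * ((Real.exp (-‖z‖ ^ 2) : ℝ) : ℂ)) := by
    intro z
    have h3 : conj ((Circle.exp θ : Circle) : ℂ) ^ a * ((Circle.exp θ : Circle) : ℂ) ^ b = -1 := by
      rw [Circle.coe_exp, ← Complex.exp_conj, ← Complex.exp_nat_mul, ← Complex.exp_nat_mul,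
        ← Complex.exp_add]
      have : (a : ℂ) * conj ((θ : ℂ) * Complex.I) + b * ((θ : ℂ) * Complex.I) =
          Real.pi * Complex.I := by
        rw [map_mul, Complex.conj_ofReal, Complex.conj_I]
        have h4 : ((θ : ℂ)) * ((b : ℂ) - a) = Real.pi := by
          rw [hθ]
          have : ((b : ℂ) - a) ≠ 0 := by exact_mod_cast hba
          push_cast
          field_simp
        rw [← h4]; ring
      rw [this, Complex.exp_pi_mul_I]
    rw [LinearIsometryEquiv.norm_map, rotation_apply, map_mul, mul_pow, mul_pow]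
    linear_combination (conj z ^ a * z ^ b * ((Real.exp (-‖z‖ ^ 2) : ℝ) : ℂ)) * h3
  simp only [h2] at h1
  rw [integral_neg] at h1
  have := self_eq_neg.1 h1.symm
  exact this

theorem gauss_eq (a : ℕ) :
    ∫ z : ℂ, conj z ^ a * z ^ a * ((Real.exp (-‖z‖ ^ 2) : ℝ) : ℂ) = Real.pi * a.factorial := by
  have h1 : ∀ z : ℂ, conj z ^ a * z ^ a * ((Real.exp (-‖z‖ ^ 2) : ℝ) : ℂ) =
      ((‖z‖ ^ ((2 * a : ℕ) : ℝ) * Real.exp (-‖z‖ ^ (2 : ℝ)) : ℝ) : ℂ) := by
    intro z
    rw [← mul_pow, Complex.conj_mul', Real.rpow_natCast, Real.rpow_two]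
    push_cast
    ring
  simp only [h1]
  rw [integral_complex_ofReal, Complex.integral_rpow_mul_exp_neg_rpow (by norm_num)
    (by push_cast; linarith [a.cast_nonneg (α := ℝ)])]
  have : ((((2 * a : ℕ) : ℝ) + 2) / 2) = (a : ℝ) + 1 := by push_cast; ring
  rw [this, Real.Gamma_nat_eq_factorial]
  push_cast
  ring

/-- monomials -/
def mon (a : Fin 5 → ℕ) (x : Fin 5 → ℂ) : ℂ := ∏ i, x i ^ a i

theorem gauss_prod (a b : Fin 5 → ℕ) :
    ∫ x : Fin 5 → ℂ, conj (mon a x) * mon b x * ((Real.exp (-nsq x) : ℝ) : ℂ) =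
      if a = b then (Real.pi : ℂ) ^ 5 * ∏ i, ((a i).factorial : ℂ) else 0 := by
  have h1 : ∀ x : Fin 5 → ℂ, conj (mon a x) * mon b x * ((Real.exp (-nsq x) : ℝ) : ℂ) =
      ∏ i, (conj (x i) ^ a i * (x i) ^ b i * ((Real.exp (-‖x i‖ ^ 2) : ℝ) : ℂ)) := by
    intro x
    simp only [mon, nsq, Finset.prod_mul_distrib, map_prod, map_pow]
    rw [← Finset.sum_neg_distrib, Real.exp_sum]
    push_cast
    rfl
  simp only [h1]
  rw [integral_fintype_prod_volume_eq_prod
    (fun i (z : ℂ) => conj z ^ a i * z ^ b i * ((Real.exp (-‖z‖ ^ 2) : ℝ) : ℂ))]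
  split_ifs with hab
  · subst hab
    simp only [gauss_eq]
    rw [Finset.prod_mul_distrib]
    simp
  · obtain ⟨i, hi⟩ := Function.ne_iff.1 hab
    exact Finset.prod_eq_zero (Finset.mem_univ i) (gauss_ne hi)

theorem integral_gauss : ∫ x : Fin 5 → ℂ, Real.exp (-nsq x) = Real.pi ^ 5 := by
  have h := gauss_prod 0 0
  simp only [mon, Pi.zero_apply, pow_zero, Finset.prod_const_one, map_one, one_mul, if_true,
    Nat.factorial_zero, Nat.cast_one, mul_one] at h
  rw [integral_complex_ofReal] at h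
  exact_mod_cast h

theorem integrable_gauss : Integrable (fun x : Fin 5 → ℂ => Real.exp (-nsq x)) := by
  by_contra h
  have := integral_undef h
  rw [integral_gauss] at this
  exact absurd this (by positivity)

/-- the Gaussian probability measure -/
def gs : Measure (Fin 5 → ℂ) :=
  volume.withDensity (fun x => ((Real.toNNReal (Real.exp (-nsq x) / Real.pi ^ 5) : NNReal) : ENNReal))

instance : IsProbabilityMeasure gs := by
  constructor
  unfold gs
  rw [withDensity_apply _ MeasurableSet.univ, Measure.restrict_univ]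
  have h : ∫⁻ x : Fin 5 → ℂ, ENNReal.ofReal (Real.exp (-nsq x) / Real.pi ^ 5) = 1 := by
    rw [← ofReal_integral_eq_lintegral_ofReal (integrable_gauss.div_const _)
      (Filter.Eventually.of_forall fun x => by positivity), integral_div, integral_gauss,
      div_self (by positivity), ENNReal.ofReal_one]
  exact h

/-- the rotation invariant probability measure of the sphere -/
def sg : Measure S9 := Measure.map nz gs

instance : IsProbabilityMeasure sg :=
  Measure.isProbabilityMeasure_map measurable_nz.aemeasurable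

theorem integral_gs (g : (Fin 5 → ℂ) → ℂ) :
    ∫ x, g x ∂gs = (∫ x : Fin 5 → ℂ, g x * ((Real.exp (-nsq x) : ℝ) : ℂ)) / (Real.pi : ℂ) ^ 5 := by
  unfold gs
  rw [integral_withDensity_eq_integral_smul, ← integral_div]
  · refine integral_congr_ae (Filter.Eventually.of_forall fun x => ?_)
    simp only [NNReal.smul_def]
    rw [Real.coe_toNNReal _ (by positivity), Complex.real_smul]
    push_cast
    ring
  · exact (((Real.measurable_exp.comp continuous_nsq.measurable.neg)).div_const _).real_toNNReal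

theorem integral_sg (F : S9 → ℂ) (hF : Continuous F) :
    ∫ z, F z ∂sg = (∫ x : Fin 5 → ℂ, F (nz x) * ((Real.exp (-nsq x) : ℝ) : ℂ)) / (Real.pi : ℂ) ^ 5 := by
  unfold sg
  rw [integral_map measurable_nz.aemeasurable hF.aestronglyMeasurable, integral_gs]

theorem nsq_eq_zero {x : Fin 5 → ℂ} (h : nsq x = 0) : x = 0 := by
  funext i
  have := (Finset.sum_eq_zero_iff_of_nonneg (fun i _ => by positivity)).1 h i (Finset.mem_univ i)
  simpa using this

theorem sg_symm (φ : (Fin 5 → ℂ) ≃ᵐ (Fin 5 → ℂ)) (hφ : MeasurePreserving φ volume volume)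
    (hn : ∀ x, nsq (φ x) = nsq x) (ψ : S9 → S9) (hψ : Continuous ψ)
    (h : ∀ x, nsq x ≠ 0 → nz (φ x) = ψ (nz x)) (F : S9 → ℂ) (hF : Continuous F) :
    ∫ z, F (ψ z) ∂sg = ∫ z, F z ∂sg := by
  rw [integral_sg (fun z => F (ψ z)) (hF.comp hψ), integral_sg _ hF]
  congr 1
  rw [← hφ.integral_comp' (fun x => F (nz x) * ((Real.exp (-nsq x) : ℝ) : ℂ))]
  refine integral_congr_ae ?_
  have : ∀ᵐ x : Fin 5 → ℂ, x ≠ 0 := by
    rw [ae_iff]; simp
  filter_upwards [this] with x hx
  rw [hn, h x fun h0 => hx (nsq_eq_zero h0)]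

theorem continuous_rot (l : Circle) : Continuous (rot l) := by
  refine Continuous.subtype_mk (continuous_pi fun i => ?_) _
  fun_prop

/-- complex conjugation of the sphere -/
def cj (z : S9) : S9 := ⟨fun i => conj (z.1 i), by
  have h := z.2
  simpa using h⟩

theorem continuous_cj : Continuous cj := by
  refine Continuous.subtype_mk (continuous_pi fun i => ?_) _
  fun_prop

/-- apply an isometry of the complex plane in each coordinate -/
def pimap (e : ℂ ≃ₗᵢ[ℝ] ℂ) : (Fin 5 → ℂ) ≃ᵐ (Fin 5 → ℂ) :=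
  MeasurableEquiv.piCongrRight fun _ => e.toMeasurableEquiv

theorem pimap_apply (e : ℂ ≃ₗᵢ[ℝ] ℂ) (x : Fin 5 → ℂ) (i : Fin 5) : pimap e x i = e (x i) := rfl

theorem pimap_mp (e : ℂ ≃ₗᵢ[ℝ] ℂ) : MeasurePreserving (pimap e) volume volume :=
  volume_preserving_pi fun _ => e.measurePreserving

theorem nsq_pimap (e : ℂ ≃ₗᵢ[ℝ] ℂ) (x : Fin 5 → ℂ) : nsq (pimap e x) = nsq x := by
  simp [nsq, pimap_apply]

theorem sg_rot (l : Circle) (F : S9 → ℂ) (hF : Continuous F) :
    ∫ z, F (rot l z) ∂sg = ∫ z, F z ∂sg := by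
  refine sg_symm (pimap (rotation l)) (pimap_mp _) (nsq_pimap _) (rot l) (continuous_rot l) ?_ F hF
  intro x hx
  apply Subtype.ext
  funext i
  simp only [nz, nzf, nsq_pimap, if_neg hx, rot, pimap_apply, rotation_apply]
  ring

theorem sg_cj (F : S9 → ℂ) (hF : Continuous F) :
    ∫ z, F (cj z) ∂sg = ∫ z, F z ∂sg := by
  refine sg_symm (pimap Complex.conjLIE) (pimap_mp _) (nsq_pimap _) cj continuous_cj ?_ F hF
  intro x hx
  apply Subtype.ext
  funext i
  simp only [nz, nzf, nsq_pimap, if_neg hx, cj, pimap_apply, Complex.conjLIE_apply, map_mul,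
    Complex.conj_ofReal]

/-- moments of monomials -/
theorem moments (a b : Fin 5 → ℕ) (k : ℕ) (ha : ∑ i, a i = k) (hb : ∑ i, b i = k) :
    ((k + 4).factorial : ℂ) * ∫ z : S9, conj (mon a z.1) * mon b z.1 ∂sg =
      if a = b then 24 * ∏ i, ((a i).factorial : ℂ) else 0 := by
  have hcont : Continuous (fun z : S9 => conj (mon a z.1) * mon b z.1) := by
    have hm : ∀ c : Fin 5 → ℕ, Continuous (fun z : S9 => mon c z.1) := by
      intro c
      unfold mon
      fun_prop
    exact (Complex.continuous_conj.comp (hm a)).mul (hm b)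
  rw [integral_sg _ hcont]
  have h1 := J_formula (fun z : S9 => conj (mon a z.1) * mon b z.1) k
  have h2 : ∀ x : Fin 5 → ℂ, x ≠ 0 → conj (mon a (nz x).1) * mon b (nz x).1 *
      (((nsq x) ^ k * Real.exp (-nsq x) : ℝ) : ℂ) =
      conj (mon a x) * mon b x * ((Real.exp (-nsq x) : ℝ) : ℂ) := by
    intro x hx
    have hx' : nsq x ≠ 0 := fun h0 => hx (nsq_eq_zero h0)
    have hm : ∀ c : Fin 5 → ℕ, ∑ i, c i = k → mon c (nz x).1 =
        (((√(nsq x))⁻¹ : ℝ) : ℂ) ^ k * mon c x := by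
      intro c hc
      simp only [mon, nz, nzf, if_neg hx', mul_pow, Finset.prod_mul_distrib,
        Finset.prod_pow_eq_pow_sum, hc]
    rw [hm a ha, hm b hb, map_mul, map_pow, Complex.conj_ofReal]
    have h3 : (((√(nsq x))⁻¹ : ℝ) : ℂ) ^ k * (((√(nsq x))⁻¹ : ℝ) : ℂ) ^ k * ((nsq x ^ k : ℝ) : ℂ) = 1 := by
      rw [← mul_pow, ← Complex.ofReal_mul, ← Complex.ofReal_pow, ← Complex.ofReal_mul, ← mul_pow,
        ← mul_inv, Real.mul_self_sqrt (nsq_nonneg x), inv_mul_cancel₀ hx', one_pow,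
        Complex.ofReal_one]
    rw [Complex.ofReal_mul]
    linear_combination (conj (mon a x) * mon b x * ((Real.exp (-nsq x) : ℝ) : ℂ)) * h3
  have h4 : ∫ x : Fin 5 → ℂ, conj (mon a (nz x).1) * mon b (nz x).1 *
      (((nsq x) ^ k * Real.exp (-nsq x) : ℝ) : ℂ) =
      ∫ x : Fin 5 → ℂ, conj (mon a x) * mon b x * ((Real.exp (-nsq x) : ℝ) : ℂ) := by
    refine integral_congr_ae ?_
    have : ∀ᵐ x : Fin 5 → ℂ, x ≠ 0 := by
      rw [ae_iff]; simp
    filter_upwards [this] with x hx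
    exact h2 x hx
  rw [h4, gauss_prod] at h1
  have hpi : (Real.pi : ℂ) ≠ 0 := by exact_mod_cast Real.pi_ne_zero
  generalize (∫ x : Fin 5 → ℂ, conj (mon a (nz x).1) * mon b (nz x).1 *
    ((Real.exp (-nsq x) : ℝ) : ℂ)) = J at h1 ⊢
  split_ifs at h1 ⊢ with hab
  · field_simp
    push_cast at h1
    linear_combination (-24) * h1
  · have h5 : (((k + 4).factorial / 24 : ℝ) : ℂ) ≠ 0 := by
      have : ((k + 4).factorial / 24 : ℝ) ≠ 0 := by positivity
      exact_mod_cast this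
    have h6 := (mul_eq_zero.1 h1.symm).resolve_left h5
    rw [h6]
    simp

end

end Pool.Agent.Work.MP_2a78db_gt.D2
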