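import Pool.Agent.Work.MP_2a78db_gt.D2Q

/-!
Rank functions of homogeneous projections.
-/

namespace Pool.Agent.Work.MP_2a78db_gt.D2

open scoped Matrix.Norms.L2Operator
open Matrix Filter Topology

noncomputable section

set_option linter.unusedSectionVars false
set_option linter.unusedSimpArgs false

/-! ### Block matrices with two blocks -/

section two

variable {m n m' n' : Type*} [Fintype m] [DecidableEq m] [Fintype n] [DecidableEq n]
  [Fintype m'] [DecidableEq m'] [Fintype n'] [DecidableEq n']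

theorem norm_fromRows_one_zero : ‖(fromRows (1 : Matrix m m ℂ) (0 : Matrix n m ℂ))‖ ≤ 1 := by
  apply norm_le_one_of_conj
  rw [conjTranspose_fromRows_eq_fromCols_conjTranspose, fromCols_mul_fromRows]
  simp

theorem norm_fromRows_zero_one : ‖(fromRows (0 : Matrix m n ℂ) (1 : Matrix n n ℂ))‖ ≤ 1 := by
  apply norm_le_one_of_conj
  rw [conjTranspose_fromRows_eq_fromCols_conjTranspose, fromCols_mul_fromRows]
  simp

theorem norm_sandwich {a b c d : Type*} [Fintype a] [DecidableEq a] [Fintype b] [DecidableEq b]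
    [Fintype c] [DecidableEq c] [Fintype d] [DecidableEq d]
    (S : Matrix a b ℂ) (A : Matrix b c ℂ) (T : Matrix d c ℂ) (hS : ‖S‖ ≤ 1) (hT : ‖T‖ ≤ 1) :
    ‖S * A * Tᴴ‖ ≤ ‖A‖ := by
  refine (l2_opNorm_mul _ _).trans ?_
  rw [l2_opNorm_conjTranspose]
  have h1 := l2_opNorm_mul S A
  calc ‖S * A‖ * ‖T‖ ≤ (‖S‖ * ‖A‖) * 1 := mul_le_mul h1 hT (norm_nonneg _) (by positivity)
    _ ≤ 1 * ‖A‖ * 1 := by gcongr
    _ = ‖A‖ := by ring

theorem norm_fromBlocks_le (A : Matrix m m' ℂ) (B : Matrix m n' ℂ) (C : Matrix n m' ℂ)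
    (D : Matrix n n' ℂ) : ‖fromBlocks A B C D‖ ≤ ‖A‖ + ‖B‖ + ‖C‖ + ‖D‖ := by
  have h : fromBlocks A B C D =
      fromRows (1 : Matrix m m ℂ) (0 : Matrix n m ℂ) * A *
        (fromRows (1 : Matrix m' m' ℂ) (0 : Matrix n' m' ℂ))ᴴ +
      fromRows (1 : Matrix m m ℂ) (0 : Matrix n m ℂ) * B *
        (fromRows (0 : Matrix m' n' ℂ) (1 : Matrix n' n' ℂ))ᴴ +
      fromRows (0 : Matrix m n ℂ) (1 : Matrix n n ℂ) * C *
        (fromRows (1 : Matrix m' m' ℂ) (0 : Matrix n' m' ℂ))ᴴ +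
      fromRows (0 : Matrix m n ℂ) (1 : Matrix n n ℂ) * D *
        (fromRows (0 : Matrix m' n' ℂ) (1 : Matrix n' n' ℂ))ᴴ := by
    simp only [conjTranspose_fromRows_eq_fromCols_conjTranspose, fromRows_mul,
      fromRows_mul_fromCols]
    ext (i | i) (j | j) <;> simp
  rw [h]
  refine (norm_add_le _ _).trans ?_
  refine add_le_add ((norm_add_le _ _).trans (add_le_add ((norm_add_le _ _).trans
    (add_le_add ?_ ?_)) ?_)) ?_
  · exact norm_sandwich _ _ _ norm_fromRows_one_zero norm_fromRows_one_zero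
  · exact norm_sandwich _ _ _ norm_fromRows_one_zero norm_fromRows_zero_one
  · exact norm_sandwich _ _ _ norm_fromRows_zero_one norm_fromRows_one_zero
  · exact norm_sandwich _ _ _ norm_fromRows_zero_one norm_fromRows_zero_one

theorem two_sum (E F : Matrix m m ℂ) :
    fromCols (1 : Matrix m m ℂ) (1 : Matrix m m ℂ) * fromBlocks E 0 0 F *
      fromRows (1 : Matrix m m ℂ) (1 : Matrix m m ℂ) = E + F := by
  rw [fromCols_mul_fromBlocks, fromCols_mul_fromRows]
  simp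

theorem four_sum (E F G : Matrix m m ℂ) :
    fromRows E F * G * fromCols (1 : Matrix m m ℂ) (1 : Matrix m m ℂ) * fromBlocks E 0 0 F =
      fromBlocks (E * G * E) (E * G * F) (F * G * E) (F * G * F) := by
  rw [fromRows_mul, fromRows_mul_fromCols, fromBlocks_multiply]
  simp

theorem rank_fromBlocks (E : Matrix m m ℂ) (F : Matrix n n ℂ) (hE : E * E = E) (hF : F * F = F) :
    (fromBlocks E 0 0 F).rank = E.rank + F.rank := by
  have h : fromBlocks E 0 0 F * fromBlocks E 0 0 F = fromBlocks E 0 0 F := by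
    rw [fromBlocks_multiply]; simp [hE, hF]
  have h1 := rank_eq_trace _ h
  have h2 : (fromBlocks E 0 0 F).trace = E.trace + F.trace := by
    simp [Matrix.trace, Fintype.sum_sum_type]
  rw [h2, ← rank_eq_trace _ hE, ← rank_eq_trace _ hF] at h1
  exact_mod_cast h1

end two

/-! ### Nearby projections -/

section near

variable {n : Type*} [Fintype n] [DecidableEq n]

/-- a projection near an approximate projection -/
def near (T : Matrix n n ℂ) : Matrix n n ℂ := by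
  classical
  exact if h : ∃ E : Matrix n n ℂ, E * E = E ∧ Eᴴ = E ∧ ‖E - T‖ ≤ 2 * ‖T * T - T‖ then h.choose else 0

theorem near_mul (T : Matrix n n ℂ) : near T * near T = near T := by
  unfold near
  split_ifs with h
  · exact h.choose_spec.1
  · simp

theorem near_star (T : Matrix n n ℂ) : (near T)ᴴ = near T := by
  unfold near
  split_ifs with h
  · exact h.choose_spec.2.1
  · simp

theorem near_le (T : Matrix n n ℂ) (hT : Tᴴ = T) (h : ‖T * T - T‖ ≤ 1 / 8) :
    ‖near T - T‖ ≤ 2 * ‖T * T - T‖ := by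
  have h1 := exists_proj T hT h
  have h2 : ∃ E : Matrix n n ℂ, E * E = E ∧ Eᴴ = E ∧ ‖E - T‖ ≤ 2 * ‖T * T - T‖ := h1
  unfold near
  rw [dif_pos h2]
  exact h2.choose_spec.2.2

theorem norm_proj_le (E : Matrix n n ℂ) (h1 : E * E = E) (h2 : Eᴴ = E) : ‖E‖ ≤ 1 := by
  have h := l2_opNorm_conjTranspose_mul_self E
  rw [h2, h1] at h
  nlinarith [norm_nonneg E]

theorem rank_le_of_close (E F : Matrix n n ℂ) (hE : E * E = E) (hE' : Eᴴ = E)
    (h : ‖E - F‖ < 1) : E.rank ≤ F.rank := by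
  refine rank_le_of_norm_lt E F 1 1 hE ?_
  have h1 : E - 1 * F * 1 * E = (E - F) * E := by
    rw [sub_mul, hE]; simp
  rw [h1]
  calc ‖(E - F) * E‖ ≤ ‖E - F‖ * ‖E‖ := l2_opNorm_mul _ _
    _ ≤ ‖E - F‖ * 1 := by gcongr; exact norm_proj_le E hE hE'
    _ < 1 := by rw [mul_one]; exact h

theorem near_rank (T E : Matrix n n ℂ) (hE : E * E = E) (hE' : Eᴴ = E) (hT : Tᴴ = T)
    (h : ‖E - T‖ ≤ 1 / 32) : (near T).rank = E.rank := by
  have h0 := norm_proj_le E hE hE'
  have h1 : ‖T * T - T‖ ≤ 1 / 8 := by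
    have h3 : ‖T - E‖ ≤ 1 / 32 := by rw [← norm_neg]; simpa using h
    have h4 : T * T - T = E * (T - E) + (T - E) * E + (T - E) * (T - E) - (T - E) := by
      simp only [mul_sub, sub_mul, hE]
      abel
    rw [h4]
    have h5 : ‖E * (T - E)‖ ≤ 1 / 32 := (l2_opNorm_mul _ _).trans (by nlinarith [norm_nonneg E, norm_nonneg (T - E)])
    have h6 : ‖(T - E) * E‖ ≤ 1 / 32 := (l2_opNorm_mul _ _).trans (by nlinarith [norm_nonneg E, norm_nonneg (T - E)])
    have h7 : ‖(T - E) * (T - E)‖ ≤ 1 / 1024 := (l2_opNorm_mul _ _).trans (by nlinarith [norm_nonneg (T - E)])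
    have h8 := norm_sub_le (E * (T - E) + (T - E) * E + (T - E) * (T - E)) (T - E)
    have h9 := norm_add_le (E * (T - E) + (T - E) * E) ((T - E) * (T - E))
    have h10 := norm_add_le (E * (T - E)) ((T - E) * E)
    linarith
  have h2 := near_le T hT h1
  have h3 : ‖near T - E‖ < 1 := by
    have : near T - E = (near T - T) - (E - T) := by abel
    rw [this]
    have := norm_sub_le (near T - T) (E - T)
    linarith
  refine le_antisymm (rank_le_of_close _ _ (near_mul T) (near_star T) h3) ?_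
  refine rank_le_of_close _ _ hE hE' ?_
  rw [← norm_neg]
  simpa using h3

end near

/-! ### Asymptotic equality -/

section asym

variable {Γ : Type} (l : Filter Γ)
  {I J K : Γ → Type} [∀ γ, Fintype (I γ)] [∀ γ, DecidableEq (I γ)]
  [∀ γ, Fintype (J γ)] [∀ γ, DecidableEq (J γ)] [∀ γ, Fintype (K γ)] [∀ γ, DecidableEq (K γ)]

/-- asymptotic equality -/
def AE (M N : ∀ γ, Matrix (I γ) (J γ) ℂ) : Prop := Tendsto (fun γ => ‖M γ - N γ‖) l (𝓝 0)

/-- boundedness -/
def Bd (M : ∀ γ, Matrix (I γ) (J γ) ℂ) : Prop := ∃ C : ℝ, ∀ γ, ‖M γ‖ ≤ C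

variable {l}

theorem AE.refl (M : ∀ γ, Matrix (I γ) (J γ) ℂ) : AE l M M := by
  unfold AE; simp [tendsto_const_nhds]

theorem AE.symm {M N : ∀ γ, Matrix (I γ) (J γ) ℂ} (h : AE l M N) : AE l N M := by
  unfold AE at *
  simpa only [norm_sub_rev] using h

theorem AE.trans {M N O : ∀ γ, Matrix (I γ) (J γ) ℂ} (h : AE l M N) (h' : AE l N O) :
    AE l M O := by
  unfold AE at *
  refine squeeze_zero (fun γ => norm_nonneg _) (fun γ => ?_) (by simpa using h.add h')
  have : M γ - O γ = (M γ - N γ) + (N γ - O γ) := by abel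
  rw [this]
  exact norm_add_le _ _

theorem AE.mul {M M' : ∀ γ, Matrix (I γ) (J γ) ℂ} {N N' : ∀ γ, Matrix (J γ) (K γ) ℂ}
    (h : AE l M M') (h' : AE l N N') (hM : Bd M) (hN : Bd N') :
    AE l (fun γ => M γ * N γ) (fun γ => M' γ * N' γ) := by
  obtain ⟨C, hC⟩ := hM
  obtain ⟨D, hD⟩ := hN
  unfold AE at *
  refine squeeze_zero (fun γ => norm_nonneg _) (fun γ => ?_)
    (by simpa using (h'.const_mul C).add (h.mul_const D))
  have : M γ * N γ - M' γ * N' γ = M γ * (N γ - N' γ) + (M γ - M' γ) * N' γ := by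
    rw [Matrix.mul_sub, Matrix.sub_mul]; abel
  rw [this]
  refine (norm_add_le _ _).trans (add_le_add ((l2_opNorm_mul _ _).trans ?_)
    ((l2_opNorm_mul _ _).trans ?_))
  · exact mul_le_mul_of_nonneg_right (hC γ) (norm_nonneg _)
  · exact mul_le_mul_of_nonneg_left (hD γ) (norm_nonneg _)

theorem Bd.mul {M : ∀ γ, Matrix (I γ) (J γ) ℂ} {N : ∀ γ, Matrix (J γ) (K γ) ℂ}
    (hM : Bd M) (hN : Bd N) : Bd (fun γ => M γ * N γ) := by
  obtain ⟨C, hC⟩ := hM
  obtain ⟨D, hD⟩ := hN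
  refine ⟨|C| * |D|, fun γ => (l2_opNorm_mul _ _).trans ?_⟩
  exact mul_le_mul ((hC γ).trans (le_abs_self _)) ((hD γ).trans (le_abs_self _)) (norm_nonneg _)
    (abs_nonneg _)

theorem AE.blocks {I' J' : Γ → Type} [∀ γ, Fintype (I' γ)] [∀ γ, DecidableEq (I' γ)]
    [∀ γ, Fintype (J' γ)] [∀ γ, DecidableEq (J' γ)]
    {A A' : ∀ γ, Matrix (I γ) (J γ) ℂ} {B B' : ∀ γ, Matrix (I γ) (J' γ) ℂ}
    {C C' : ∀ γ, Matrix (I' γ) (J γ) ℂ} {D D' : ∀ γ, Matrix (I' γ) (J' γ) ℂ}
    (hA : AE l A A') (hB : AE l B B') (hC : AE l C C') (hD : AE l D D') :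
    AE l (fun γ => fromBlocks (A γ) (B γ) (C γ) (D γ))
      (fun γ => fromBlocks (A' γ) (B' γ) (C' γ) (D' γ)) := by
  unfold AE at *
  refine squeeze_zero (fun γ => norm_nonneg _) (fun γ => ?_)
    (by simpa using ((hA.add hB).add hC).add hD)
  have : fromBlocks (A γ) (B γ) (C γ) (D γ) - fromBlocks (A' γ) (B' γ) (C' γ) (D' γ) =
      fromBlocks (A γ - A' γ) (B γ - B' γ) (C γ - C' γ) (D γ - D' γ) := by
    ext (i | i) (j | j) <;> simp
  rw [this]
  exact norm_fromBlocks_le _ _ _ _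

end asym

/-! ### Toeplitz matrices -/

namespace Quant

variable {Γ A : Type} [AddCommGroup Γ] [NormedCommRing A] [StarRing A] [NormedAlgebra ℂ A]
  (Q : Quant Γ A)
variable {κ ι μ : Type} [Fintype κ] [DecidableEq κ] [Fintype ι] [DecidableEq ι]
  [Fintype μ] [DecidableEq μ]

/-- Toeplitz matrix of a matrix symbol -/
def T (d : κ → Γ) (e : ι → Γ) (M : Matrix κ ι A) :
    Matrix (Σ k, Q.Ix (d k)) (Σ i, Q.Ix (e i)) ℂ :=
  blk (fun k i => Q.t (d k) (e i) (M k i))

/-- homogeneous matrix symbols -/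
def HW (a : κ → Γ) (b : ι → Γ) (M : Matrix κ ι A) : Prop := ∀ k i, M k i ∈ Q.W (a k - b i)

variable {Q}

theorem HW.mul {a : κ → Γ} {b : ι → Γ} {c : μ → Γ} {M : Matrix κ ι A} {N : Matrix ι μ A}
    (hM : Q.HW a b M) (hN : Q.HW b c N) : Q.HW a c (M * N) := by
  intro k j
  rw [Matrix.mul_apply]
  refine Submodule.sum_mem _ fun i _ => ?_
  have := Q.W_mul (hM k i) (hN i j)
  rwa [sub_add_sub_cancel] at this

theorem HW.star {a : κ → Γ} {b : ι → Γ} {M : Matrix κ ι A} (hM : Q.HW a b M) :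
    Q.HW b a Mᴴ := by
  intro i k
  have := Q.W_star (hM k i)
  rwa [neg_sub] at this

theorem HW.add {a : κ → Γ} {b : ι → Γ} {M N : Matrix κ ι A} (hM : Q.HW a b M)
    (hN : Q.HW a b N) : Q.HW a b (M + N) := fun k i => Submodule.add_mem _ (hM k i) (hN k i)

theorem HW.sub {a : κ → Γ} {b : ι → Γ} {M N : Matrix κ ι A} (hM : Q.HW a b M)
    (hN : Q.HW a b N) : Q.HW a b (M - N) := fun k i => Submodule.sub_mem _ (hM k i) (hN k i)

theorem HW.neg {a : κ → Γ} {b : ι → Γ} {M : Matrix κ ι A} (hM : Q.HW a b M) :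
    Q.HW a b (-M) := fun k i => Submodule.neg_mem _ (hM k i)

theorem HW.zero {a : κ → Γ} {b : ι → Γ} : Q.HW a b (0 : Matrix κ ι A) :=
  fun _ _ => Submodule.zero_mem _

theorem HW.one {a : κ → Γ} : Q.HW a a (1 : Matrix κ κ A) := by
  intro k i
  rw [Matrix.one_apply]
  split_ifs with h
  · subst h
    rw [sub_self]
    exact Q.W_one
  · exact Submodule.zero_mem _

theorem HW.sum {J : Type} {s : Finset J} {a : κ → Γ} {b : ι → Γ} {M : J → Matrix κ ι A}
    (hM : ∀ j ∈ s, Q.HW a b (M j)) : Q.HW a b (∑ j ∈ s, M j) := by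
  intro k i
  rw [Matrix.sum_apply]
  exact Submodule.sum_mem _ fun j hj => hM j hj k i

variable (Q)

theorem T_add (d : κ → Γ) (e : ι → Γ) (M N : Matrix κ ι A) :
    Q.T d e (M + N) = Q.T d e M + Q.T d e N := by
  ext ⟨k, a⟩ ⟨i, b⟩
  simp [T, blk]

theorem T_sub (d : κ → Γ) (e : ι → Γ) (M N : Matrix κ ι A) :
    Q.T d e (M - N) = Q.T d e M - Q.T d e N := by
  ext ⟨k, a⟩ ⟨i, b⟩
  simp [T, blk]

theorem T_zero (d : κ → Γ) (e : ι → Γ) : Q.T d e (0 : Matrix κ ι A) = 0 := by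
  ext ⟨k, a⟩ ⟨i, b⟩
  simp [T, blk]

theorem T_star (d : κ → Γ) (e : ι → Γ) (M : Matrix κ ι A) :
    Q.T e d Mᴴ = (Q.T d e M)ᴴ := by
  ext ⟨i, a⟩ ⟨k, b⟩
  simp only [T, blk, conjTranspose_apply, Q.t_star (d k) (e i)]

theorem T_one (d : κ → Γ) : Q.T d d (1 : Matrix κ κ A) = 1 := by
  ext ⟨k, a⟩ ⟨i, b⟩
  simp only [T, blk, Matrix.one_apply]
  by_cases h : k = i
  · subst h
    simp only [if_true, Q.t_one, Matrix.one_apply]
    simp
  · have : ¬ ((⟨k, a⟩ : Σ k, Q.Ix (d k)) = ⟨i, b⟩) := fun h' => h (Sigma.mk.inj_iff.1 h').1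
    simp [h, this]

theorem T_norm (d : κ → Γ) (e : ι → Γ) (M : Matrix κ ι A) :
    ‖Q.T d e M‖ ≤ ∑ k, ∑ i, ‖M k i‖ :=
  (norm_blk_le _).trans (Finset.sum_le_sum fun _ _ => Finset.sum_le_sum fun _ _ => Q.t_norm _ _ _)

theorem T_bd (d : κ → Γ) (e : ι → Γ) (M : Matrix κ ι A) :
    Bd (fun γ => Q.T (fun k => γ + d k) (fun i => γ + e i) M) := ⟨_, fun _ => Q.T_norm _ _ M⟩

theorem T_mul (a : κ → Γ) (b : ι → Γ) (c : μ → Γ) (M : Matrix κ ι A) (N : Matrix ι μ A)
    (hM : Q.HW a b M) (hN : Q.HW b c N) :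
    AE Q.l (fun γ => Q.T (fun k => γ + a k) (fun i => γ + b i) M *
      Q.T (fun i => γ + b i) (fun j => γ + c j) N)
      (fun γ => Q.T (fun k => γ + a k) (fun j => γ + c j) (M * N)) := by
  have h1 : Tendsto (fun γ => ∑ k, ∑ j, ∑ i,
      ‖Q.t (γ + a k) (γ + b i) (M k i) * Q.t (γ + b i) (γ + c j) (N i j) -
        Q.t (γ + a k) (γ + c j) (M k i * N i j)‖) Q.l (𝓝 0) := by
    have : (0 : ℝ) = ∑ k : κ, ∑ j : μ, ∑ i : ι, 0 := by simp
    rw [this]
    refine tendsto_finsetSum _ fun k _ => tendsto_finsetSum _ fun j _ =>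
      tendsto_finsetSum _ fun i _ => Q.t_mul _ _ _ _ (hM k i) _ (hN i j)
  refine squeeze_zero (fun γ => norm_nonneg _) (fun γ => ?_) h1
  have h2 : Q.T (fun k => γ + a k) (fun i => γ + b i) M *
      Q.T (fun i => γ + b i) (fun j => γ + c j) N -
      Q.T (fun k => γ + a k) (fun j => γ + c j) (M * N) =
      blk (fun k j => ∑ i, (Q.t (γ + a k) (γ + b i) (M k i) * Q.t (γ + b i) (γ + c j) (N i j) -
        Q.t (γ + a k) (γ + c j) (M k i * N i j))) := by
    rw [T, T, blk_mul]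
    ext ⟨k, x⟩ ⟨j, y⟩
    simp [T, blk, Matrix.mul_apply, Matrix.sum_apply, Finset.sum_sub_distrib]
  rw [h2]
  refine (norm_blk_le _).trans (Finset.sum_le_sum fun k _ => Finset.sum_le_sum fun j _ => ?_)
  exact norm_sum_le _ _

/-! ### Projections and their rank functions -/

/-- homogeneous projections -/
structure Pr (a : ι → Γ) (P : Matrix ι ι A) : Prop where
  hw : Q.HW a a P
  mul : P * P = P
  star : Pᴴ = P

/-- rank function -/
def hh (d : ι → Γ) (P : Matrix ι ι A) : ℕ := (near (Q.T d d P)).rank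

variable {Q}

theorem Pr.T_star {a : ι → Γ} {P : Matrix ι ι A} (h : Q.Pr a P) (d : ι → Γ) :
    (Q.T d d P)ᴴ = Q.T d d P := by
  rw [← Q.T_star, h.star]

theorem Pr.near_ae {a : ι → Γ} {P : Matrix ι ι A} (h : Q.Pr a P) :
    AE Q.l (fun γ => near (Q.T (fun i => γ + a i) (fun i => γ + a i) P))
      (fun γ => Q.T (fun i => γ + a i) (fun i => γ + a i) P) := by
  have h1 := Q.T_mul a a a P P h.hw h.hw
  rw [h.mul] at h1
  unfold AE at *
  have h2 : Tendsto (fun γ => 2 * ‖Q.T (fun i => γ + a i) (fun i => γ + a i) P *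
      Q.T (fun i => γ + a i) (fun i => γ + a i) P -
      Q.T (fun i => γ + a i) (fun i => γ + a i) P‖) Q.l (𝓝 0) := by
    simpa using h1.const_mul 2
  refine squeeze_zero' (Eventually.of_forall fun γ => norm_nonneg _) ?_ h2
  have h3 := h1.eventually (ge_mem_nhds (show (0 : ℝ) < 1 / 8 by norm_num))
  filter_upwards [h3] with γ h3
  exact near_le _ (h.T_star _) h3

theorem near_bd {I : Γ → Type} [∀ γ, Fintype (I γ)] [∀ γ, DecidableEq (I γ)]
    (M : ∀ γ, Matrix (I γ) (I γ) ℂ) : Bd (fun γ => near (M γ)) :=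
  ⟨1, fun γ => norm_proj_le _ (near_mul _) (near_star _)⟩

theorem hh_le {a : ι → Γ} {b : κ → Γ} {P : Matrix ι ι A} {R : Matrix κ κ A}
    (hP : Q.Pr a P) (hR : Q.Pr b R) (X : Matrix κ ι A) (Y : Matrix ι κ A)
    (hX : Q.HW b a X) (hY : Q.HW a b Y) (h : Y * R * X * P = P) :
    ∀ᶠ γ in Q.l, Q.hh (fun i => γ + a i) P ≤ Q.hh (fun k => γ + b k) R := by
  have hYR := hY.mul hR.hw
  have h1 : AE Q.l (fun γ => Q.T (fun i => γ + a i) (fun k => γ + b k) Y *
      near (Q.T (fun k => γ + b k) (fun k => γ + b k) R) *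
      Q.T (fun k => γ + b k) (fun i => γ + a i) X *
      near (Q.T (fun i => γ + a i) (fun i => γ + a i) P))
      (fun γ => near (Q.T (fun i => γ + a i) (fun i => γ + a i) P)) := by
    have e1 := (AE.refl (l := Q.l) (fun γ => Q.T (fun i => γ + a i) (fun k => γ + b k) Y)).mul
      hR.near_ae (Q.T_bd _ _ _) (Q.T_bd _ _ _)
    have e2 := e1.mul (AE.refl (fun γ => Q.T (fun k => γ + b k) (fun i => γ + a i) X))
      ((Q.T_bd _ _ _).mul (near_bd _)) (Q.T_bd _ _ _)
    have e3 := e2.mul hP.near_ae (((Q.T_bd _ _ _).mul (near_bd _)).mul (Q.T_bd _ _ _))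
      (Q.T_bd _ _ _)
    have f1 := Q.T_mul a b b Y R hY hR.hw
    have f2 := (f1.mul (AE.refl (fun γ => Q.T (fun k => γ + b k) (fun i => γ + a i) X))
      ((Q.T_bd _ _ _).mul (Q.T_bd _ _ _)) (Q.T_bd _ _ _)).trans
      (Q.T_mul a b a (Y * R) X hYR hX)
    have f3 := (f2.mul (AE.refl (fun γ => Q.T (fun i => γ + a i) (fun i => γ + a i) P))
      (((Q.T_bd _ _ _).mul (Q.T_bd _ _ _)).mul (Q.T_bd _ _ _)) (Q.T_bd _ _ _)).trans
      (Q.T_mul a a a (Y * R * X) P (hYR.mul hX) hP.hw)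
    rw [h] at f3
    exact (e3.trans f3).trans hP.near_ae.symm
  have h2 := h1.symm.eventually (gt_mem_nhds (show (0 : ℝ) < 1 by norm_num))
  filter_upwards [h2] with γ h2
  exact rank_le_of_norm_lt _ _ _ _ (near_mul _) h2

theorem hh_eq {a : ι → Γ} {b : κ → Γ} {P : Matrix ι ι A} {R : Matrix κ κ A}
    (hP : Q.Pr a P) (hR : Q.Pr b R) (X : Matrix κ ι A) (Y : Matrix ι κ A)
    (hX : Q.HW b a X) (hY : Q.HW a b Y) (h : Y * X = P) (h' : X * Y = R) :
    ∀ᶠ γ in Q.l, Q.hh (fun i => γ + a i) P = Q.hh (fun k => γ + b k) R := by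
  have h1 : Y * R * X * P = P := by
    rw [← h', ← Matrix.mul_assoc Y X Y, h, Matrix.mul_assoc P Y X, h, hP.mul, hP.mul]
  have h2 : X * P * Y * R = R := by
    rw [← h, ← Matrix.mul_assoc X Y X, h', Matrix.mul_assoc R X Y, h', hR.mul, hR.mul]
  filter_upwards [hh_le hP hR X Y hX hY h1, hh_le hR hP Y X hY hX h2] with γ h3 h4
  exact le_antisymm h3 h4

/-- additivity of the rank function -/
theorem hh_add {a : ι → Γ} {P R : Matrix ι ι A} (hP : Q.Pr a P) (hR : Q.Pr a R)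
    (h : P * R = 0) :
    ∀ᶠ γ in Q.l, Q.hh (fun i => γ + a i) (P + R) =
      Q.hh (fun i => γ + a i) P + Q.hh (fun i => γ + a i) R := by
  have h' : R * P = 0 := by
    have := congrArg conjTranspose h
    rwa [conjTranspose_mul, hP.star, hR.star, conjTranspose_zero] at this
  have hS : Q.Pr a (P + R) := by
    refine ⟨hP.hw.add hR.hw, ?_, ?_⟩
    · rw [Matrix.mul_add, Matrix.add_mul, Matrix.add_mul, hP.mul, hR.mul, h, h']; simp
    · rw [conjTranspose_add, hP.star, hR.star]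
  set E := fun γ => near (Q.T (fun i => γ + a i) (fun i => γ + a i) P) with hE
  set F := fun γ => near (Q.T (fun i => γ + a i) (fun i => γ + a i) R) with hF
  set G := fun γ => near (Q.T (fun i => γ + a i) (fun i => γ + a i) (P + R)) with hG
  have aE : AE Q.l E (fun γ => Q.T (fun i => γ + a i) (fun i => γ + a i) P) := hP.near_ae
  have aF : AE Q.l F (fun γ => Q.T (fun i => γ + a i) (fun i => γ + a i) R) := hR.near_ae
  have aG : AE Q.l G (fun γ => Q.T (fun i => γ + a i) (fun i => γ + a i) (P + R)) := hS.near_ae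
  have aGEF : AE Q.l G (fun γ => E γ + F γ) := by
    refine aG.trans ?_
    unfold AE at *
    refine squeeze_zero (fun γ => norm_nonneg _) (fun γ => ?_) (by simpa using aE.add aF)
    beta_reduce
    rw [Q.T_add]
    have : Q.T (fun i => γ + a i) (fun i => γ + a i) P + Q.T (fun i => γ + a i) (fun i => γ + a i) R
        - (E γ + F γ) = - ((E γ - Q.T (fun i => γ + a i) (fun i => γ + a i) P) +
          (F γ - Q.T (fun i => γ + a i) (fun i => γ + a i) R)) := by abel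
    rw [this, norm_neg]
    exact norm_add_le _ _
  -- products
  have prod : ∀ (U V W : Matrix ι ι A), Q.Pr a U → Q.Pr a V → Q.Pr a W → ∀ Z, U * V * W = Z →
      AE Q.l (fun γ => near (Q.T (fun i => γ + a i) (fun i => γ + a i) U) *
        near (Q.T (fun i => γ + a i) (fun i => γ + a i) V) *
        near (Q.T (fun i => γ + a i) (fun i => γ + a i) W))
        (fun γ => Q.T (fun i => γ + a i) (fun i => γ + a i) Z) := by
    intro U V W hU hV hW Z hZ
    have e1 := hU.near_ae.mul hV.near_ae (near_bd _) (Q.T_bd _ _ _)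
    have e2 := e1.mul hW.near_ae ((near_bd _).mul (near_bd _)) (Q.T_bd _ _ _)
    have f1 := Q.T_mul a a a U V hU.hw hV.hw
    have f2 := (f1.mul (AE.refl (fun γ => Q.T (fun i => γ + a i) (fun i => γ + a i) W))
      ((Q.T_bd _ _ _).mul (Q.T_bd _ _ _)) (Q.T_bd _ _ _)).trans
      (Q.T_mul a a a (U * V) W (hU.hw.mul hV.hw) hW.hw)
    rw [hZ] at f2
    exact e2.trans f2
  have p1 := (prod P (P + R) P hP hS hP P (by
    rw [Matrix.mul_add, hP.mul, h, add_zero, hP.mul])).trans aE.symm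
  have p2 := prod P (P + R) R hP hS hR 0 (by
    rw [Matrix.mul_add, hP.mul, h, add_zero, h])
  have p3 := prod R (P + R) P hR hS hP 0 (by
    rw [Matrix.mul_add, hR.mul, h', zero_add, h'])
  have p4 := (prod R (P + R) R hR hS hR R (by
    rw [Matrix.mul_add, hR.mul, h', zero_add, hR.mul])).trans aF.symm
  simp only [T_zero] at p2 p3
  have p5 := AE.blocks p1 p2 p3 p4
  have h1 := p5.symm.eventually (gt_mem_nhds (show (0 : ℝ) < 1 by norm_num))
  have h2 := aGEF.eventually (gt_mem_nhds (show (0 : ℝ) < 1 by norm_num))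
  filter_upwards [h1, h2] with γ h1 h2
  have r1 : (fromBlocks (E γ) 0 0 (F γ)).rank = (E γ).rank + (F γ).rank :=
    rank_fromBlocks _ _ (near_mul _) (near_mul _)
  change (G γ).rank = (E γ).rank + (F γ).rank
  rw [← r1]
  apply le_antisymm
  · refine rank_le_of_norm_lt (G γ) (fromBlocks (E γ) 0 0 (F γ))
      (fromRows (1 : Matrix (Σ i, Q.Ix (γ + a i)) (Σ i, Q.Ix (γ + a i)) ℂ)
        (1 : Matrix (Σ i, Q.Ix (γ + a i)) (Σ i, Q.Ix (γ + a i)) ℂ))
      (fromCols (1 : Matrix (Σ i, Q.Ix (γ + a i)) (Σ i, Q.Ix (γ + a i)) ℂ)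
        (1 : Matrix (Σ i, Q.Ix (γ + a i)) (Σ i, Q.Ix (γ + a i)) ℂ))
      (near_mul _) ?_
    rw [two_sum]
    have h3 : G γ - (E γ + F γ) * G γ = (G γ - (E γ + F γ)) * G γ := by
      rw [Matrix.sub_mul]
      congr 1
      exact (near_mul _).symm
    rw [h3]
    calc ‖(G γ - (E γ + F γ)) * G γ‖ ≤ ‖G γ - (E γ + F γ)‖ * ‖G γ‖ := l2_opNorm_mul _ _
      _ ≤ ‖G γ - (E γ + F γ)‖ * 1 := by
        gcongr; exact norm_proj_le _ (near_mul _) (near_star _)
      _ < 1 := by rw [mul_one]; exact h2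
  · refine rank_le_of_norm_lt (fromBlocks (E γ) 0 0 (F γ)) (G γ)
      (fromCols (1 : Matrix (Σ i, Q.Ix (γ + a i)) (Σ i, Q.Ix (γ + a i)) ℂ)
        (1 : Matrix (Σ i, Q.Ix (γ + a i)) (Σ i, Q.Ix (γ + a i)) ℂ))
      (fromRows (E γ) (F γ)) ?_ ?_
    · rw [fromBlocks_multiply]
      have e1 : E γ * E γ = E γ := near_mul _
      have e2 : F γ * F γ = F γ := near_mul _
      simp [e1, e2]
    · rw [four_sum]
      exact h1

end Quant

end

end Pool.Agent.Work.MP_2a78db_gt.D2
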