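import Pool.Agent.Work.MP_2a78db_gt.D2P

/-!
The resolution of the diagonal.
-/

namespace Pool.Agent.Work.MP_2a78db_gt.D2

open scoped Kronecker
open Matrix Filter Topology ComplexConjugate

noncomputable section

set_option linter.unusedSectionVars false
set_option linter.unusedSimpArgs false

/-! ### Algebra -/

section alg

variable {R 𝔽 : Type*} [CommRing R] [Ring 𝔽] [Algebra R 𝔽]

theorem alg_cW (aa as c : 𝔽) (s s' : R) (h2 : aa * c + c * aa = s • 1)
    (h3 : as * c + c * as = s' • 1) :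
    c * (aa * as) = s • as - s' • aa + aa * as * c := by
  have e1 : c * aa = s • 1 - aa * c := by rw [← h2]; abel
  have e2 : c * as = s' • 1 - as * c := by rw [← h3]; abel
  rw [← mul_assoc, e1, sub_mul, mul_assoc, e2, mul_sub]
  simp only [smul_mul_assoc, one_mul, mul_smul_comm, mul_one, mul_assoc]
  abel

theorem alg_D (aa as c : 𝔽) (s s' : R) (h0 : aa * aa = 0) (h0' : as * as = 0)
    (h1 : aa * as + as * aa = 1) (h2 : aa * c + c * aa = s • 1)
    (h3 : as * c + c * as = s' • 1) :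
    (aa * as) * c * (aa * as) = (aa * as) * c - s' • aa := by
  have hW : (aa * as) * (aa * as) = aa * as := by
    have : as * aa = 1 - aa * as := by rw [← h1]; abel
    calc (aa * as) * (aa * as) = aa * (as * aa) * as := by noncomm_ring
      _ = aa * as - (aa * aa) * as * as := by rw [this]; noncomm_ring
      _ = aa * as := by rw [h0]; simp
  have hWas : (aa * as) * as = 0 := by rw [mul_assoc, h0', mul_zero]
  have hWaa : (aa * as) * aa = aa := by
    have : as * aa = 1 - aa * as := by rw [← h1]; abel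
    calc (aa * as) * aa = aa * (as * aa) := by noncomm_ring
      _ = aa - (aa * aa) * as := by rw [this]; noncomm_ring
      _ = aa := by rw [h0]; simp
  rw [mul_assoc, alg_cW aa as c s s' h2 h3, mul_add, mul_sub, mul_smul_comm, mul_smul_comm,
    hWas, hWaa, ← mul_assoc, hW]
  simp only [smul_zero, zero_sub]
  abel

theorem alg_DD (aa as c : 𝔽) (s s' : R) (h0 : aa * aa = 0) (h0' : as * as = 0)
    (h1 : aa * as + as * aa = 1) (h2 : aa * c + c * aa = s • 1)
    (h3 : as * c + c * as = s' • 1) (hc : c * c = 1) :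
    ((aa * as) * c * (aa * as)) * ((aa * as) * c * (aa * as)) = (1 - s * s') • (aa * as) := by
  have hW : (aa * as) * (aa * as) = aa * as := by
    have : as * aa = 1 - aa * as := by rw [← h1]; abel
    calc (aa * as) * (aa * as) = aa * (as * aa) * as := by noncomm_ring
      _ = aa * as - (aa * aa) * as * as := by rw [this]; noncomm_ring
      _ = aa * as := by rw [h0]; simp
  have hWaa : (aa * as) * aa = aa := by
    have : as * aa = 1 - aa * as := by rw [← h1]; abel
    calc (aa * as) * aa = aa * (as * aa) := by noncomm_ring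
      _ = aa - (aa * aa) * as := by rw [this]; noncomm_ring
      _ = aa := by rw [h0]; simp
  have hD := alg_D aa as c s s' h0 h0' h1 h2 h3
  set W := aa * as with hWdef
  have e1 : c * aa = s • 1 - aa * c := by rw [← h2]; abel
  calc (W * c * W) * (W * c * W) = W * c * (W * W * c * W) := by noncomm_ring
    _ = W * c * (W * c * W) := by rw [hW]
    _ = W * c * (W * c - s' • aa) := by rw [hD]
    _ = (W * c * W) * c - s' • (W * (c * aa)) := by
      rw [mul_sub, mul_smul_comm]; noncomm_ring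
    _ = (W * c - s' • aa) * c - s' • (W * (s • 1 - aa * c)) := by rw [hD, e1]
    _ = W * (c * c) - s' • (aa * c) - (s' • (s • W) - s' • ((W * aa) * c)) := by
      rw [sub_mul, mul_sub, mul_smul_comm, mul_one, smul_mul_assoc, smul_sub]
      simp only [mul_assoc]
    _ = (1 - s * s') • W := by
      rw [hc, hWaa, mul_one, sub_smul, one_smul, smul_smul, mul_comm s' s]
      abel

end alg

/-- injectivity on the fibres -/
theorem det_fibre {ι : Type} [Fintype ι] [DecidableEq ι] (p f : Matrix ι ι ℂ) (t : ℝ) (ht : 0 ≤ t)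
    (hp : p * p = p) (hf : p * f = f) (h : t = 0 → f * fᴴ = p) :
    (((t : ℂ) • p + f * fᴴ) + (1 - p)).det ≠ 0 := by
  intro hdet
  obtain ⟨v, hv, hv0⟩ := Matrix.exists_mulVec_eq_zero_iff.2 hdet
  apply hv
  have h1 : (1 - p) *ᵥ v = 0 := by
    have : (1 - p) * (((t : ℂ) • p + f * fᴴ) + (1 - p)) = 1 - p := by
      have e1 : (1 - p) * p = 0 := by rw [sub_mul, hp, one_mul, sub_self]
      have e2 : (1 - p) * f = 0 := by rw [sub_mul, hf, one_mul, sub_self]
      rw [mul_add, mul_add, mul_smul_comm, e1, ← mul_assoc, e2, mul_sub, mul_one, e1]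
      simp
    rw [← this, ← mulVec_mulVec, hv0, mulVec_zero]
  have h2 : p *ᵥ v = v := by
    rw [sub_mulVec, one_mulVec, sub_eq_zero] at h1
    exact h1.symm
  have h3 : (t : ℂ) • v + f *ᵥ (fᴴ *ᵥ v) = 0 := by
    rw [add_mulVec, h1, add_zero, add_mulVec, smul_mulVec, h2, ← mulVec_mulVec] at hv0
    exact hv0
  have h4 : (t : ℂ) * (star v ⬝ᵥ v) + star (fᴴ *ᵥ v) ⬝ᵥ (fᴴ *ᵥ v) = 0 := by
    have := congrArg (fun u => star v ⬝ᵥ u) h3
    simp only [dotProduct_add, dotProduct_smul, smul_eq_mul, dotProduct_zero] at this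
    rw [star_mulVec, conjTranspose_conjTranspose, ← dotProduct_mulVec]
    exact this
  have h5 : ∀ u : ι → ℂ, star u ⬝ᵥ u = ((∑ i, ‖u i‖ ^ 2 : ℝ) : ℂ) := by
    intro u
    simp only [dotProduct, Pi.star_apply, RCLike.star_def, Complex.conj_mul']
    push_cast
    rfl
  rw [h5, h5] at h4
  have h6 : t * (∑ i, ‖v i‖ ^ 2) + ∑ i, ‖(fᴴ *ᵥ v) i‖ ^ 2 = 0 := by exact_mod_cast h4
  have h7 : 0 ≤ t * (∑ i, ‖v i‖ ^ 2) := mul_nonneg ht (Finset.sum_nonneg fun _ _ => by positivity)
  have h8 : 0 ≤ ∑ i, ‖(fᴴ *ᵥ v) i‖ ^ 2 := Finset.sum_nonneg fun _ _ => by positivity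
  have h9 : ∑ i, ‖(fᴴ *ᵥ v) i‖ ^ 2 = 0 := by linarith
  have h10 : t * (∑ i, ‖v i‖ ^ 2) = 0 := by linarith
  have zero_of : ∀ u : ι → ℂ, ∑ i, ‖u i‖ ^ 2 = 0 → u = 0 := by
    intro u hu
    funext i
    have := (Finset.sum_eq_zero_iff_of_nonneg (fun i _ => by positivity)).1 hu i (Finset.mem_univ i)
    simpa using this
  have h11 := zero_of _ h9
  rcases mul_eq_zero.1 h10 with h12 | h12
  · rw [← h2, ← h h12, ← mulVec_mulVec, h11, mulVec_zero]
  · exact zero_of _ h12

/-! ### Inverses of homogeneous matrices -/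

/-- evaluation -/
def evx (x : S9 × S9) : C(S9 × S9, ℂ) →+* ℂ where
  toFun f := f x
  map_one' := rfl
  map_mul' _ _ := rfl
  map_zero' := rfl
  map_add' _ _ := rfl

/-- rotation of functions -/
def ro (l l' : Circle) : C(S9 × S9, ℂ) →+* C(S9 × S9, ℂ) where
  toFun f := ⟨fun x => f (rot l x.1, rot l' x.2), f.continuous.comp
    (((continuous_rot l).comp continuous_fst).prodMk ((continuous_rot l').comp continuous_snd))⟩
  map_one' := rfl
  map_mul' _ _ := rfl
  map_zero' := rfl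
  map_add' _ _ := rfl

variable {ι κ : Type} [Fintype ι] [DecidableEq ι] [Fintype κ] [DecidableEq κ]

/-- the character -/
def ch (l l' : Circle) (v : ι → ℤ × ℤ) (i : ι) : ℂ := (l : ℂ) ^ (v i).1 * (l' : ℂ) ^ (v i).2

theorem ch_ne (l l' : Circle) (v : ι → ℤ × ℤ) (i : ι) : ch l l' v i ≠ 0 :=
  mul_ne_zero (zpow_ne_zero _ (Circle.coe_ne_zero l)) (zpow_ne_zero _ (Circle.coe_ne_zero l'))

theorem hw_iff {v : ι → ℤ × ℤ} {N : Matrix ι ι C(S9 × S9, ℂ)} :
    Q2.HW v v N ↔ ∀ l l' : Circle, N.map (ro l l') =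
      diagonal (fun i => algebraMap ℂ C(S9 × S9, ℂ) (ch l l' v i)) * N *
        diagonal (fun i => algebraMap ℂ C(S9 × S9, ℂ) (ch l l' v i)⁻¹) := by
  have e : ∀ (l l' : Circle) (i j : ι), ch l l' v i * (ch l l' v j)⁻¹ =
      (l : ℂ) ^ (v i - v j).1 * (l' : ℂ) ^ (v i - v j).2 := by
    intro l l' i j
    unfold ch
    rw [Prod.fst_sub, Prod.snd_sub, zpow_sub₀ (Circle.coe_ne_zero l),
      zpow_sub₀ (Circle.coe_ne_zero l')]
    field_simp
  constructor
  · intro h l l'
    ext i j x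
    rw [mul_diagonal, diagonal_mul]
    have := h i j l l' x.1 x.2
    simp only [Matrix.map_apply, ContinuousMap.mul_apply]
    change N i j (rot l x.1, rot l' x.2) = ch l l' v i * N i j x * (ch l l' v j)⁻¹
    rw [this, ← e]
    ring
  · intro h i j l l' z y
    have := congrArg (fun f : C(S9 × S9, ℂ) => f (z, y)) (congrFun (congrFun (h l l') i) j)
    rw [mul_diagonal, diagonal_mul] at this
    change N i j (rot l z, rot l' y) = ch l l' v i * N i j (z, y) * (ch l l' v j)⁻¹ at this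
    rw [this, ← e]
    ring

theorem exists_inv {v : ι → ℤ × ℤ} {N : Matrix ι ι C(S9 × S9, ℂ)} (hN : Q2.HW v v N)
    (hdet : ∀ x, (N.map (evx x)).det ≠ 0) :
    ∃ G : Matrix ι ι C(S9 × S9, ℂ), G * N = 1 ∧ Q2.HW v v G := by
  have h1 : IsUnit N.det := by
    rw [ContinuousMap.isUnit_iff_forall_ne_zero]
    intro x
    have := RingHom.map_det (evx x) N
    rw [show (N.det : C(S9 × S9, ℂ)) x = evx x N.det from rfl, this]
    exact hdet x
  refine ⟨N⁻¹, Matrix.nonsing_inv_mul N h1, ?_⟩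
  rw [hw_iff] at hN ⊢
  intro l l'
  set D : Matrix ι ι C(S9 × S9, ℂ) := diagonal (fun i => algebraMap ℂ C(S9 × S9, ℂ) (ch l l' v i))
  set D' : Matrix ι ι C(S9 × S9, ℂ) :=
    diagonal (fun i => algebraMap ℂ C(S9 × S9, ℂ) (ch l l' v i)⁻¹)
  have hD : D * D' = 1 := by
    rw [diagonal_mul_diagonal, ← diagonal_one]
    congr 1
    funext i
    rw [← map_mul, mul_inv_cancel₀ (ch_ne l l' v i), map_one]
  have hD' : D' * D = 1 := by
    rw [diagonal_mul_diagonal, ← diagonal_one]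
    congr 1
    funext i
    rw [← map_mul, inv_mul_cancel₀ (ch_ne l l' v i), map_one]
  have h2 : N⁻¹.map (ro l l') * N.map (ro l l') = 1 := by
    rw [← Matrix.map_mul, Matrix.nonsing_inv_mul N h1]
    exact Matrix.map_one _ (map_zero _) (map_one _)
  have h3 : N.map (ro l l') * (D * N⁻¹ * D') = 1 := by
    rw [hN l l']
    calc D * N * D' * (D * N⁻¹ * D') = D * N * (D' * D) * N⁻¹ * D' := by
          simp only [Matrix.mul_assoc]
      _ = D * (N * N⁻¹) * D' := by rw [hD', Matrix.mul_one]; simp only [Matrix.mul_assoc]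
      _ = 1 := by rw [Matrix.mul_nonsing_inv N h1, Matrix.mul_one, hD]
  exact left_inv_eq_right_inv h2 h3

theorem HW.blocks {Γ A : Type} [AddCommGroup Γ] [NormedCommRing A] [StarRing A]
    [NormedAlgebra ℂ A] {Q : Quant Γ A} {κ' ι' : Type} {a : κ → Γ} {a' : κ' → Γ} {b : ι → Γ}
    {b' : ι' → Γ} {M : Matrix κ ι A} {N : Matrix κ ι' A} {M' : Matrix κ' ι A} {N' : Matrix κ' ι' A}
    (h1 : Q.HW a b M) (h2 : Q.HW a b' N) (h3 : Q.HW a' b M') (h4 : Q.HW a' b' N') :
    Q.HW (Sum.elim a a') (Sum.elim b b') (fromBlocks M N M' N') := by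
  rintro (k | k) (i | i)
  · exact h1 k i
  · exact h2 k i
  · exact h3 k i
  · exact h4 k i

theorem Pr.blocks {Γ A : Type} [AddCommGroup Γ] [NormedCommRing A] [StarRing A]
    [NormedAlgebra ℂ A] {Q : Quant Γ A} {a : ι → Γ} {b : κ → Γ} {P : Matrix ι ι A}
    {P' : Matrix κ κ A} (hP : Q.Pr a P) (hP' : Q.Pr b P') :
    Q.Pr (Sum.elim a b) (fromBlocks P 0 0 P') := by
  refine ⟨HW.blocks hP.hw Quant.HW.zero Quant.HW.zero hP'.hw, ?_, ?_⟩
  · rw [fromBlocks_multiply]
    simp [hP.mul, hP'.mul]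
  · rw [fromBlocks_conjTranspose]
    simp [hP.star, hP'.star]

theorem hh_blocks {Γ A : Type} [AddCommGroup Γ] [NormedCommRing A] [StarRing A]
    [NormedAlgebra ℂ A] {Q : Quant Γ A} {a : ι → Γ} {b : κ → Γ} {P : Matrix ι ι A}
    {P' : Matrix κ κ A} (hP : Q.Pr a P) (hP' : Q.Pr b P') :
    ∀ᶠ γ in Q.l, Q.hh (fun i => γ + Sum.elim a b i) (fromBlocks P 0 0 P') =
      Q.hh (fun i => γ + a i) P + Q.hh (fun i => γ + b i) P' := by
  have z1 : Q.Pr (Sum.elim a b) (fromBlocks P 0 0 (0 : Matrix κ κ A)) := Pr.blocks hP Quant.Pr.zero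
  have z2 : Q.Pr (Sum.elim a b) (fromBlocks (0 : Matrix ι ι A) 0 0 P') :=
    Pr.blocks Quant.Pr.zero hP'
  have h1 := Quant.hh_add z1 z2 (by rw [fromBlocks_multiply]; simp)
  have h2 := Quant.hh_eq z1 hP (fromCols P 0) (fromRows P 0) (by
      rintro i (j | j)
      · exact hP.hw i j
      · exact Submodule.zero_mem _) (by
      rintro (i | i) j
      · exact hP.hw i j
      · exact Submodule.zero_mem _) (by
      rw [fromRows_mul_fromCols]; simp [hP.mul]) (by
      rw [fromCols_mul_fromRows]; simp [hP.mul])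
  have h3 := Quant.hh_eq z2 hP' (fromCols 0 P') (fromRows 0 P') (by
      rintro i (j | j)
      · exact Submodule.zero_mem _
      · exact hP'.hw i j) (by
      rintro (i | i) j
      · exact Submodule.zero_mem _
      · exact hP'.hw i j) (by
      rw [fromRows_mul_fromCols]; simp [hP'.mul]) (by
      rw [fromCols_mul_fromRows]; simp [hP'.mul])
  filter_upwards [h1, h2, h3] with γ h1 h2 h3
  rw [← h2, ← h3, ← h1, fromBlocks_add]
  simp

/-! ### The data on the product -/

/-- first coordinates -/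
def zz (i : Fin 5) : C(S9 × S9, ℂ) := pu1 (zc i)

/-- second coordinates -/
def yy (i : Fin 5) : C(S9 × S9, ℂ) := pu2 (zc i)

/-- the pairing -/
def ss : C(S9 × S9, ℂ) := ∑ i, yy i * zz i

theorem sum_zz : ∑ i, star (zz i) * zz i = 1 := by
  have := sum_zc
  ext x
  have h := congrArg (fun f : C(S9, ℂ) => f x.1) this
  simpa [zz] using h

theorem sum_yy : ∑ i, star (yy i) * yy i = 1 := by
  have := sum_zc
  ext x
  have h := congrArg (fun f : C(S9, ℂ) => f x.2) this
  simpa [yy] using h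

theorem zz_mem (i : Fin 5) : zz i ∈ Q2.W (1, 0) := pu1_mem_W2 (zc_mem_W1 i)

theorem yy_mem (i : Fin 5) : yy i ∈ Q2.W (0, 1) := pu2_mem_W2 (zc_mem_W1 i)

theorem ss_mem : ss ∈ Q2.W (1, 1) := by
  refine Submodule.sum_mem _ fun i _ => ?_
  have := Q2.W_mul (yy_mem i) (zz_mem i)
  simpa using this

/-- creation by the second variable -/
def aS : Matrix (Idx 5) (Idx 5) C(S9 × S9, ℂ) := cr 5 (fun i => star (yy i))

/-- annihilation by the second variable -/
def aA : Matrix (Idx 5) (Idx 5) C(S9 × S9, ℂ) := an 5 yy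

/-- Clifford multiplication -/
def cC : Matrix (Idx 5) (Idx 5) C(S9 × S9, ℂ) := cr 5 zz + an 5 (fun i => star (zz i))

/-- projection -/
def wW : Matrix (Idx 5) (Idx 5) C(S9 × S9, ℂ) := aA * aS

/-- compression -/
def dD : Matrix (Idx 5) (Idx 5) C(S9 × S9, ℂ) := wW * cC * wW

theorem aA_star : aAᴴ = aS := an_star 5 yy

theorem aS_star : aSᴴ = aA := by
  rw [← aA_star, conjTranspose_conjTranspose]

theorem aAaS : aA * aS + aS * aA = 1 := by
  unfold aA aS
  rw [car]
  have : ∑ i, yy i * star (yy i) = 1 := by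
    rw [← sum_yy]
    exact Finset.sum_congr rfl fun i _ => mul_comm _ _
  rw [this, one_smul]

theorem aAcC : aA * cC + cC * aA = ss • (1 : Matrix (Idx 5) (Idx 5) C(S9 × S9, ℂ)) := by
  unfold aA cC ss
  rw [Matrix.mul_add, Matrix.add_mul, ← car 5 zz yy]
  have := an_anti 5 yy (fun i => star (zz i))
  calc an 5 yy * cr 5 zz + an 5 yy * an 5 (fun i => star (zz i)) +
      (cr 5 zz * an 5 yy + an 5 (fun i => star (zz i)) * an 5 yy) =
      (an 5 yy * cr 5 zz + cr 5 zz * an 5 yy) + (an 5 yy * an 5 (fun i => star (zz i)) +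
        an 5 (fun i => star (zz i)) * an 5 yy) := by abel
    _ = _ := by rw [this, add_zero]

theorem aScC : aS * cC + cC * aS = star ss • (1 : Matrix (Idx 5) (Idx 5) C(S9 × S9, ℂ)) := by
  have h1 : star ss = ∑ i, star (zz i) * star (yy i) := by
    unfold ss
    rw [star_sum]
    exact Finset.sum_congr rfl fun i _ => by rw [star_mul]
  unfold aS cC
  rw [h1, Matrix.mul_add, Matrix.add_mul, ← car 5 (fun i => star (yy i)) (fun i => star (zz i))]
  have := cr_anti 5 (fun i => star (yy i)) zz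
  calc cr 5 (fun i => star (yy i)) * cr 5 zz +
      cr 5 (fun i => star (yy i)) * an 5 (fun i => star (zz i)) +
      (cr 5 zz * cr 5 (fun i => star (yy i)) +
        an 5 (fun i => star (zz i)) * cr 5 (fun i => star (yy i))) =
      (an 5 (fun i => star (zz i)) * cr 5 (fun i => star (yy i)) +
        cr 5 (fun i => star (yy i)) * an 5 (fun i => star (zz i))) +
      (cr 5 (fun i => star (yy i)) * cr 5 zz + cr 5 zz * cr 5 (fun i => star (yy i))) := by abel
    _ = _ := by rw [this, add_zero]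

theorem cCcC : cC * cC = 1 := by
  unfold cC
  have h := car 5 zz (fun i => star (zz i))
  rw [sum_zz, one_smul] at h
  rw [Matrix.add_mul, Matrix.mul_add, Matrix.mul_add, cr_sq, an_sq, zero_add, add_zero,
    add_comm, h]

theorem cC_star : cCᴴ = cC := by
  unfold cC
  rw [conjTranspose_add, cr_star, an_star]
  simp only [star_star]
  rw [add_comm]

theorem wW_star : wWᴴ = wW := by
  unfold wW
  rw [conjTranspose_mul, aS_star, aA_star]

theorem aSaA : aS * aA = 1 - aA * aS := by rw [← aAaS]; abel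

theorem wWwW : wW * wW = wW := by
  unfold wW
  have h0 : aA * aA = 0 := an_sq 5 yy
  calc (aA * aS) * (aA * aS) = aA * (aS * aA) * aS := by simp only [Matrix.mul_assoc]
    _ = aA * aS - (aA * aA) * aS * aS := by
      rw [aSaA, Matrix.mul_sub, Matrix.sub_mul, Matrix.mul_one]; simp only [Matrix.mul_assoc]
    _ = aA * aS := by rw [h0]; simp

theorem dD_star : dDᴴ = dD := by
  unfold dD
  rw [conjTranspose_mul, conjTranspose_mul, wW_star, cC_star, Matrix.mul_assoc]

theorem wWdD : wW * dD = dD := by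
  unfold dD
  rw [← Matrix.mul_assoc, ← Matrix.mul_assoc, wWwW]

theorem dDwW : dD * wW = dD := by
  unfold dD
  rw [Matrix.mul_assoc _ wW wW, wWwW]

theorem dDdD : dD * dD = (1 - ss * star ss) • wW := by
  have := alg_DD aA aS cC ss (star ss) (an_sq 5 yy) (cr_sq 5 _) aAaS aAcC aScC cCcC
  exact this

theorem wW_dp (s : ℕ → Prop) [DecidablePred s] : wW * dp 5 s = dp 5 s * wW := by
  have h1 : aS * dp 5 s = dp 5 (fun k => 1 ≤ k ∧ s (k - 1)) * aS :=
    cr_dp 5 _ s (fun k => 1 ≤ k ∧ s (k - 1)) (fun k => by simp)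
  have h2 : aA * dp 5 (fun k => 1 ≤ k ∧ s (k - 1)) = dp 5 s * aA :=
    an_dp 5 _ s (fun k => 1 ≤ k ∧ s (k - 1)) (fun k => by simp)
  unfold wW
  rw [Matrix.mul_assoc, h1, ← Matrix.mul_assoc, h2, Matrix.mul_assoc]

theorem cC_dp : cC * dp 5 Even = dp 5 (fun k => ¬ Even k) * cC := by
  unfold cC
  rw [Matrix.add_mul, Matrix.mul_add, cr_dp 5 zz Even (fun k => ¬ Even k)
      (fun k => by simp [Nat.even_add_one]), an_dp 5 _ (fun k => ¬ Even k) Even
      (fun k => by simp [Nat.even_add_one])]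

theorem cC_dp' : cC * dp 5 (fun k => ¬ Even k) = dp 5 Even * cC := by
  unfold cC
  rw [Matrix.add_mul, Matrix.mul_add, cr_dp 5 zz (fun k => ¬ Even k) Even
      (fun k => by simp [Nat.even_add_one]), an_dp 5 _ Even (fun k => ¬ Even k)
      (fun k => by simp [Nat.even_add_one])]

theorem dD_dp : dD * dp 5 Even = dp 5 (fun k => ¬ Even k) * dD := by
  unfold dD
  rw [Matrix.mul_assoc, wW_dp, ← Matrix.mul_assoc, Matrix.mul_assoc wW cC, cC_dp,
    ← Matrix.mul_assoc wW, wW_dp]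
  simp only [Matrix.mul_assoc]

theorem dD_dp' : dD * dp 5 (fun k => ¬ Even k) = dp 5 Even * dD := by
  unfold dD
  rw [Matrix.mul_assoc, wW_dp, ← Matrix.mul_assoc, Matrix.mul_assoc wW cC, cC_dp',
    ← Matrix.mul_assoc wW, wW_dp]
  simp only [Matrix.mul_assoc]

/-- Fock weights -/
def uF (a : Idx 5) : ℤ × ℤ := deg 5 a • ((1, 0) : ℤ × ℤ)

theorem aA_hw : Q2.HW (fun a => uF a + (1, 1)) uF aA := by
  intro a b
  by_cases h : deg 5 b = deg 5 a + 1
  · have h1 := an_mem (Q2.W (0, 1)) 5 yy yy_mem a b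
    have h2 : uF a + (1, 1) - uF b = (0, 1) := by
      unfold uF
      rw [h]
      ext <;> simp
    rw [h2]
    exact h1
  · rw [aA, an_deg 5 _ a b h]
    exact Submodule.zero_mem _

theorem aS_hw : Q2.HW uF (fun a => uF a + (1, 1)) aS := by
  have := aA_hw.star
  rwa [aA_star] at this

theorem wW_hw : Q2.HW uF uF wW := by
  have h := aA_hw.mul aS_hw
  intro a b
  have := h a b
  beta_reduce at this
  rwa [add_sub_add_right_eq_sub] at this

theorem cC_hw : Q2.HW uF uF cC :=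
  (Quant.HW_cr (1, 0) zz zz_mem).add (Quant.HW_an (1, 0) _ fun i => Q2.W_star (zz_mem i))

theorem dD_hw : Q2.HW uF uF dD := (wW_hw.mul cC_hw).mul wW_hw

theorem wW_pr (s : ℕ → Prop) [DecidablePred s] : Q2.Pr uF (wW * dp 5 s) := by
  refine ⟨wW_hw.mul (Quant.Pr_dp s).hw, ?_, ?_⟩
  · calc wW * dp 5 s * (wW * dp 5 s) = wW * (dp 5 s * wW) * dp 5 s := by
          simp only [Matrix.mul_assoc]
      _ = (wW * wW) * (dp 5 s * dp 5 s) := by rw [← wW_dp]; simp only [Matrix.mul_assoc]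
      _ = wW * dp 5 s := by rw [wWwW, dp_mul]
  · rw [conjTranspose_mul, dp_star, wW_star, wW_dp]

/-! ### The two bundles -/

/-- `pu1` as a ring homomorphism -/
def pu1R : C(S9, ℂ) →+* C(S9 × S9, ℂ) where
  toFun := pu1
  map_one' := rfl
  map_mul' _ _ := rfl
  map_zero' := rfl
  map_add' _ _ := rfl

/-- `pu2` as a ring homomorphism -/
def pu2R : C(S9, ℂ) →+* C(S9 × S9, ℂ) where
  toFun := pu2
  map_one' := rfl
  map_mul' _ _ := rfl
  map_zero' := rfl
  map_add' _ _ := rfl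

/-- `cjc` as a ring homomorphism -/
def cjcR : C(S9, ℂ) →+* C(S9, ℂ) where
  toFun := cjc
  map_one' := rfl
  map_mul' _ _ := rfl
  map_zero' := rfl
  map_add' _ _ := rfl

theorem pr_pu1 {w : ι → ℤ} {P : Matrix ι ι C(S9, ℂ)} (hP : Q1.Pr w P) :
    Q2.Pr (fun i => (w i, 0)) (P.map pu1) := by
  refine ⟨fun i j => ?_, ?_, ?_⟩
  · have := pu1_mem_W2 (hP.hw i j)
    have h2 : ((w i, 0) - (w j, 0) : ℤ × ℤ) = (w i - w j, 0) := by simp
    rw [h2]
    exact this
  · have := Matrix.map_mul (L := P) (M := P) (f := pu1R)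
    rw [hP.mul] at this
    exact this.symm
  · have := congrArg (fun M : Matrix ι ι C(S9, ℂ) => M.map pu1) hP.star
    exact this

theorem pr_pu2 {w : ι → ℤ} {P : Matrix ι ι C(S9, ℂ)} (hP : Q1.Pr w P) :
    Q2.Pr (fun i => (0, w i)) (P.map pu2) := by
  refine ⟨fun i j => ?_, ?_, ?_⟩
  · have := pu2_mem_W2 (hP.hw i j)
    have h2 : ((0, w i) - (0, w j) : ℤ × ℤ) = (0, w i - w j) := by simp
    rw [h2]
    exact this
  · have := Matrix.map_mul (L := P) (M := P) (f := pu2R)
    rw [hP.mul] at this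
    exact this.symm
  · have := congrArg (fun M : Matrix ι ι C(S9, ℂ) => M.map pu2) hP.star
    exact this

theorem cj_rot (l : Circle) (z : S9) : cj (rot l z) = rot l⁻¹ (cj z) := by
  apply Subtype.ext
  funext i
  simp only [cj, rot, map_mul]
  rw [← Circle.coe_inv_eq_conj]

theorem cjc_mem {m : ℤ} {f : C(S9, ℂ)} (hf : f ∈ W1 m) : cjc f ∈ W1 (-m) := by
  intro l z
  change f (cj (rot l z)) = _ * f (cj z)
  rw [cj_rot, hf, Circle.coe_inv, _root_.inv_zpow, _root_.zpow_neg]

theorem pr_cjc {w : ι → ℤ} {P : Matrix ι ι C(S9, ℂ)} (hP : Q1.Pr w P) :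
    Q1.Pr (fun i => - w i) (P.map cjc) := by
  refine ⟨fun i j => ?_, ?_, ?_⟩
  · have := cjc_mem (hP.hw i j)
    rw [neg_sub] at this
    have h : -w i - -w j = w j - w i := by ring
    rw [h]
    exact this
  · have := Matrix.map_mul (L := P) (M := P) (f := cjcR)
    rw [hP.mul] at this
    exact this.symm
  · have := congrArg (fun M : Matrix ι ι C(S9, ℂ) => M.map cjc) hP.star
    exact this

theorem pr_star {w : ι → ℤ} {P : Matrix ι ι C(S9, ℂ)} (hP : Q1.Pr w P) :
    Q1.Pr (fun i => - w i) (P.map star) := by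
  have hT : P.map star = Pᵀ := by
    have := hP.star
    conv_rhs => rw [← this]
    ext i j
    simp
  rw [hT]
  refine ⟨fun i j => ?_, ?_, ?_⟩
  · have := hP.hw j i
    have h : -w i - -w j = w j - w i := by ring
    rw [h]
    exact this
  · rw [← transpose_mul, hP.mul]
  · ext i j : 1
    exact congrFun (congrFun hP.star j) i

section main

variable (w : ι → ℤ) (P : Matrix ι ι C(S9, ℂ))

/-- first bundle -/
def pZ : Matrix ι ι C(S9 × S9, ℂ) := P.map pu1

/-- second bundle -/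
def pT : Matrix ι ι C(S9 × S9, ℂ) := (P.map cjc).map pu2

/-- phases -/
def rh : Matrix ι ι C(S9 × S9, ℂ) :=
  diagonal fun k => if 0 ≤ w k then ss ^ (w k).toNat else star ss ^ (- w k).toNat

/-- comparison map -/
def ph : Matrix ι ι C(S9 × S9, ℂ) := pZ P * rh w * pT P

/-- weights -/
def vZ (i : ι) : ℤ × ℤ := (w i, 0)

/-- weights -/
def vT (i : ι) : ℤ × ℤ := (0, - w i)

variable {w P}

theorem pZ_pr (hP : Q1.Pr w P) : Q2.Pr (vZ w) (pZ P) := pr_pu1 hP

theorem pT_pr (hP : Q1.Pr w P) : Q2.Pr (vT w) (pT P) := pr_pu2 (pr_cjc hP)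

theorem pow_mem_W {f : C(S9 × S9, ℂ)} {c : ℤ × ℤ} (hf : f ∈ Q2.W c) (n : ℕ) :
    f ^ n ∈ Q2.W (n • c) := by
  induction n with
  | zero => simpa using Q2.W_one
  | succ n ih =>
    rw [pow_succ, add_smul, one_smul]
    exact Q2.W_mul ih hf

theorem rh_hw : Q2.HW (vZ w) (vT w) (rh w) := by
  intro i j
  unfold rh
  by_cases hij : i = j
  · subst hij
    rw [diagonal_apply_eq]
    have h : vZ w i - vT w i = (w i, w i) := by
      unfold vZ vT
      ext <;> simp
    rw [h]
    split_ifs with hw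
    · have := pow_mem_W ss_mem (w i).toNat
      have h2 : (w i).toNat • ((1, 1) : ℤ × ℤ) = (w i, w i) := by
        ext <;> simp [Int.toNat_of_nonneg hw]
      rwa [h2] at this
    · have := pow_mem_W (Q2.W_star ss_mem) (- w i).toNat
      have h2 : (- w i).toNat • (-((1, 1) : ℤ × ℤ)) = (w i, w i) := by
        have : 0 ≤ - w i := by linarith
        ext <;> simp [Int.toNat_of_nonneg this]
      rwa [h2] at this
  · rw [diagonal_apply_ne _ hij]
    exact Submodule.zero_mem _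

theorem ph_hw (hP : Q1.Pr w P) : Q2.HW (vZ w) (vT w) (ph w P) :=
  ((pZ_pr hP).hw.mul rh_hw).mul (pT_pr hP).hw

theorem pZph (hP : Q1.Pr w P) : pZ P * ph w P = ph w P := by
  unfold ph
  rw [← Matrix.mul_assoc, ← Matrix.mul_assoc, (pZ_pr hP).mul]

theorem phpT (hP : Q1.Pr w P) : ph w P * pT P = ph w P := by
  unfold ph
  rw [Matrix.mul_assoc _ (pT P), (pT_pr hP).mul]

theorem pTph (hP : Q1.Pr w P) : pT P * (ph w P)ᴴ = (ph w P)ᴴ := by
  have := congrArg conjTranspose (phpT hP)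
  rwa [conjTranspose_mul, (pT_pr hP).star] at this

theorem phpZ (hP : Q1.Pr w P) : (ph w P)ᴴ * pZ P = (ph w P)ᴴ := by
  have := congrArg conjTranspose (pZph hP)
  rwa [conjTranspose_mul, (pZ_pr hP).star] at this

/-- evaluation of matrices -/
def ev (x : S9 × S9) (M : Matrix κ ι C(S9 × S9, ℂ)) : Matrix κ ι ℂ := M.map (evx x)

theorem ev_mul {μ : Type} [Fintype μ] (x : S9 × S9) (M : Matrix κ ι C(S9 × S9, ℂ))
    (N : Matrix ι μ C(S9 × S9, ℂ)) : ev x (M * N) = ev x M * ev x N := Matrix.map_mul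

theorem ev_add (x : S9 × S9) (M N : Matrix κ ι C(S9 × S9, ℂ)) :
    ev x (M + N) = ev x M + ev x N := rfl

theorem ev_sub (x : S9 × S9) (M N : Matrix κ ι C(S9 × S9, ℂ)) :
    ev x (M - N) = ev x M - ev x N := rfl

theorem ev_one (x : S9 × S9) : ev x (1 : Matrix ι ι C(S9 × S9, ℂ)) = 1 :=
  Matrix.map_one _ (map_zero _) (map_one _)

theorem ev_star (x : S9 × S9) (M : Matrix κ ι C(S9 × S9, ℂ)) : ev x Mᴴ = (ev x M)ᴴ := rfl

theorem ev_smul (x : S9 × S9) (f : C(S9 × S9, ℂ)) (M : Matrix κ ι C(S9 × S9, ℂ)) :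
    ev x (f • M) = f x • ev x M := rfl

theorem ss_apply (x : S9 × S9) : ss x = ∑ i, x.2.1 i * x.1.1 i := by
  simp [ss, yy, zz, zc]

theorem ss_defect (x : S9 × S9) :
    1 - ‖ss x‖ ^ 2 = ∑ i, ‖x.1.1 i - ss x * conj (x.2.1 i)‖ ^ 2 := by
  have h1 := x.1.2
  have h2 := x.2.2
  have h3 := ss_apply x
  set s := ss x
  have key : ((1 - ‖s‖ ^ 2 : ℝ) : ℂ) = ((∑ i, ‖x.1.1 i - s * conj (x.2.1 i)‖ ^ 2 : ℝ) : ℂ) := by
    have e1 : ∀ i, ((‖x.1.1 i - s * conj (x.2.1 i)‖ ^ 2 : ℝ) : ℂ) =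
        ((‖x.1.1 i‖ ^ 2 : ℝ) : ℂ) - conj s * (x.2.1 i * x.1.1 i) -
          s * conj (x.2.1 i * x.1.1 i) + s * conj s * ((‖x.2.1 i‖ ^ 2 : ℝ) : ℂ) := by
      intro i
      push_cast
      rw [← Complex.conj_mul', ← Complex.conj_mul', ← Complex.conj_mul']
      simp only [map_sub, map_mul, Complex.conj_conj]
      ring
    rw [Complex.ofReal_sum]
    simp only [e1]
    rw [Finset.sum_add_distrib, Finset.sum_sub_distrib, Finset.sum_sub_distrib, ← Finset.mul_sum,
      ← Finset.mul_sum, ← Finset.mul_sum, ← map_sum, ← h3, ← Complex.ofReal_sum,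
      ← Complex.ofReal_sum, h1, h2]
    push_cast
    rw [← Complex.conj_mul']
    ring
  exact_mod_cast key

theorem diag_case (hP : Q1.Pr w P) (x : S9 × S9) (h : 1 - ‖ss x‖ ^ 2 = 0) :
    ev x (ph w P) * (ev x (ph w P))ᴴ = ev x (pZ P) ∧
    (ev x (ph w P))ᴴ * ev x (ph w P) = ev x (pT P) := by
  have hs : ‖ss x‖ = 1 := by
    have : ‖ss x‖ ^ 2 = 1 := by linarith
    nlinarith [norm_nonneg (ss x)]
  set l : Circle := ⟨ss x, mem_sphere_zero_iff_norm.2 hs⟩ with hl
  have hls : (l : ℂ) = ss x := rfl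
  have hz : x.1 = rot l (cj x.2) := by
    rw [ss_defect] at h
    have h1 := (Finset.sum_eq_zero_iff_of_nonneg (fun i _ => by positivity)).1 h
    apply Subtype.ext
    funext i
    have h2 := h1 i (Finset.mem_univ i)
    have h3 : x.1.1 i - ss x * conj (x.2.1 i) = 0 := by simpa using h2
    simp only [rot, cj]
    rw [hls]
    linear_combination h3
  set Rm : Matrix ι ι ℂ := diagonal fun k => (l : ℂ) ^ (w k) with hRm
  have hRR : Rmᴴ * Rm = 1 := by
    rw [hRm, diagonal_conjTranspose, diagonal_mul_diagonal, ← diagonal_one]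
    congr 1
    funext k
    simp only [Pi.star_apply, RCLike.star_def, conj_zpow]
    rw [← zpow_add₀ (Circle.coe_ne_zero l)]
    simp
  have e1 : ev x (rh w) = Rm := by
    ext i j
    simp only [ev, rh, Matrix.map_apply, hRm]
    by_cases hij : i = j
    · subst hij
      rw [diagonal_apply_eq, diagonal_apply_eq]
      split_ifs with hw
      · rw [map_pow]
        change (ss x) ^ _ = _
        rw [← hls, ← zpow_natCast, Int.toNat_of_nonneg hw]
      · rw [map_pow]
        change (conj (ss x)) ^ _ = _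
        have : 0 ≤ - w i := by linarith
        have h2 := conj_zpow l 1
        rw [zpow_one] at h2
        rw [← hls, h2, ← zpow_natCast, Int.toNat_of_nonneg this, ← _root_.zpow_mul]
        congr 1
        ring
    · rw [diagonal_apply_ne _ hij, diagonal_apply_ne _ hij, map_zero]
  have e2 : ev x (pZ P) = Rm * ev x (pT P) * Rmᴴ := by
    ext i j
    rw [hRm, diagonal_conjTranspose, mul_diagonal, diagonal_mul]
    change P i j x.1 = (l : ℂ) ^ (w i) * P i j (cj x.2) * conj ((l : ℂ) ^ (w j))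
    rw [hz, hP.hw i j l (cj x.2), conj_zpow, zpow_sub₀ (Circle.coe_ne_zero l), _root_.zpow_neg]
    field_simp
  have hq : ev x (pT P) * ev x (pT P) = ev x (pT P) := by rw [← ev_mul, (pT_pr hP).mul]
  have hq' : (ev x (pT P))ᴴ = ev x (pT P) := by rw [← ev_star, (pT_pr hP).star]
  have e3 : ev x (ph w P) = Rm * ev x (pT P) := by
    unfold ph
    rw [ev_mul, ev_mul, e1, e2]
    calc Rm * ev x (pT P) * Rmᴴ * Rm * ev x (pT P) =
        Rm * ev x (pT P) * (Rmᴴ * Rm) * ev x (pT P) := by simp only [Matrix.mul_assoc]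
      _ = Rm * (ev x (pT P) * ev x (pT P)) := by
        rw [hRR, Matrix.mul_one]; simp only [Matrix.mul_assoc]
      _ = Rm * ev x (pT P) := by rw [hq]
  constructor
  · rw [e3, conjTranspose_mul, hq', e2]
    calc Rm * ev x (pT P) * (ev x (pT P) * Rmᴴ) = Rm * (ev x (pT P) * ev x (pT P)) * Rmᴴ := by
          simp only [Matrix.mul_assoc]
      _ = _ := by rw [hq]
  · rw [e3, conjTranspose_mul, hq']
    calc ev x (pT P) * Rmᴴ * (Rm * ev x (pT P)) = ev x (pT P) * (Rmᴴ * Rm) * ev x (pT P) := by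
          simp only [Matrix.mul_assoc]
      _ = _ := by rw [hRR, Matrix.mul_one, hq]

theorem one_sub_apply (x : S9 × S9) : (1 - ss * star ss) x = ((1 - ‖ss x‖ ^ 2 : ℝ) : ℂ) := by
  have : (1 - ss * star ss) x = 1 - ss x * conj (ss x) := rfl
  rw [this, mul_comm, Complex.conj_mul']
  push_cast
  rfl

theorem defect_nonneg (x : S9 × S9) : 0 ≤ 1 - ‖ss x‖ ^ 2 := by
  rw [ss_defect]
  exact Finset.sum_nonneg fun _ _ => by positivity

theorem exists_G1 (hP : Q1.Pr w P) : ∃ G : Matrix ι ι C(S9 × S9, ℂ),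
    G * ((1 - ss * star ss) • pZ P + ph w P * (ph w P)ᴴ) = pZ P ∧ Q2.HW (vZ w) (vZ w) G := by
  have hone : (1 - ss * star ss) ∈ Q2.W 0 := by
    refine Submodule.sub_mem _ Q2.W_one ?_
    have := Q2.W_mul ss_mem (Q2.W_star ss_mem)
    rwa [add_neg_cancel] at this
  have hsm : Q2.HW (vZ w) (vZ w) ((1 - ss * star ss) • pZ P) := by
    intro i j
    have := Q2.W_mul hone ((pZ_pr hP).hw i j)
    rwa [zero_add] at this
  obtain ⟨G, hG, hG'⟩ := exists_inv (N := (1 - ss * star ss) • pZ P + ph w P * (ph w P)ᴴ +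
    (1 - pZ P)) (v := vZ w) ((hsm.add ((ph_hw hP).mul (ph_hw hP).star)).add
      (Quant.HW.one.sub (pZ_pr hP).hw)) (by
    intro x
    have h1 := det_fibre (ev x (pZ P)) (ev x (ph w P)) (1 - ‖ss x‖ ^ 2) (defect_nonneg x)
      (by rw [← ev_mul, (pZ_pr hP).mul]) (by rw [← ev_mul, pZph hP])
      (fun h => (diag_case hP x h).1)
    rw [← one_sub_apply] at h1
    change (ev x _).det ≠ 0
    rw [ev_add, ev_add, ev_sub, ev_one, ev_mul, ev_smul, ev_star]
    exact h1)
  refine ⟨G, ?_, hG'⟩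
  have h2 := congrArg (fun M => M * pZ P) hG
  beta_reduce at h2
  rw [Matrix.one_mul, Matrix.mul_assoc, Matrix.add_mul, Matrix.add_mul, Matrix.sub_mul,
    Matrix.one_mul, (pZ_pr hP).mul, sub_self, add_zero, Matrix.smul_mul, (pZ_pr hP).mul,
    Matrix.mul_assoc, phpZ hP] at h2
  exact h2

theorem exists_G2 (hP : Q1.Pr w P) : ∃ G : Matrix ι ι C(S9 × S9, ℂ),
    G * ((1 - ss * star ss) • pT P + (ph w P)ᴴ * ph w P) = pT P ∧ Q2.HW (vT w) (vT w) G := by
  have hone : (1 - ss * star ss) ∈ Q2.W 0 := by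
    refine Submodule.sub_mem _ Q2.W_one ?_
    have := Q2.W_mul ss_mem (Q2.W_star ss_mem)
    rwa [add_neg_cancel] at this
  have hsm : Q2.HW (vT w) (vT w) ((1 - ss * star ss) • pT P) := by
    intro i j
    have := Q2.W_mul hone ((pT_pr hP).hw i j)
    rwa [zero_add] at this
  obtain ⟨G, hG, hG'⟩ := exists_inv (N := (1 - ss * star ss) • pT P + (ph w P)ᴴ * ph w P +
    (1 - pT P)) (v := vT w) ((hsm.add ((ph_hw hP).star.mul (ph_hw hP))).add
      (Quant.HW.one.sub (pT_pr hP).hw)) (by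
    intro x
    have h1 := det_fibre (ev x (pT P)) (ev x (ph w P))ᴴ (1 - ‖ss x‖ ^ 2) (defect_nonneg x)
      (by rw [← ev_mul, (pT_pr hP).mul]) (by rw [← ev_star, ← ev_mul, pTph hP])
      (fun h => by rw [conjTranspose_conjTranspose]; exact (diag_case hP x h).2)
    rw [← one_sub_apply, conjTranspose_conjTranspose] at h1
    change (ev x _).det ≠ 0
    rw [ev_add, ev_add, ev_sub, ev_one, ev_mul, ev_smul, ev_star]
    exact h1)
  refine ⟨G, ?_, hG'⟩
  have h2 := congrArg (fun M => M * pT P) hG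
  beta_reduce at h2
  rw [Matrix.one_mul, Matrix.mul_assoc, Matrix.add_mul, Matrix.add_mul, Matrix.sub_mul,
    Matrix.one_mul, (pT_pr hP).mul, sub_self, add_zero, Matrix.smul_mul, (pT_pr hP).mul,
    Matrix.mul_assoc, phpT hP] at h2
  exact h2

end main

end

end Pool.Agent.Work.MP_2a78db_gt.D2
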