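import Mathlib

/-!
Creation and annihilation matrices over a commutative ring.
-/

namespace Pool.Agent.Work.MP_2a78db_gt.D2

open Matrix

/-- index set of the Fock space -/
def Idx : ℕ → Type
  | 0 => Unit
  | n + 1 => Idx n ⊕ Idx n

instance instFintypeIdx : ∀ n, Fintype (Idx n)
  | 0 => inferInstanceAs (Fintype Unit)
  | n + 1 => by
    have := instFintypeIdx n
    exact inferInstanceAs (Fintype (Idx n ⊕ Idx n))

instance instDecidableEqIdx : ∀ n, DecidableEq (Idx n)
  | 0 => inferInstanceAs (DecidableEq Unit)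
  | n + 1 => by
    have := instDecidableEqIdx n
    exact inferInstanceAs (DecidableEq (Idx n ⊕ Idx n))

/-- degree -/
def deg : ∀ n, Idx n → ℕ
  | 0, _ => 0
  | n + 1, .inl a => deg n a
  | n + 1, .inr a => deg n a + 1

variable {R : Type*} [CommRing R]

/-- creation matrix -/
def cr : ∀ n, (Fin n → R) → Matrix (Idx n) (Idx n) R
  | 0, _ => 0
  | n + 1, u => (fromBlocks (cr n (Fin.tail u)) 0 (u 0 • (1 : Matrix (Idx n) (Idx n) R))
      (-(cr n (Fin.tail u))) : Matrix (Idx n ⊕ Idx n) (Idx n ⊕ Idx n) R)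

/-- annihilation matrix -/
def an : ∀ n, (Fin n → R) → Matrix (Idx n) (Idx n) R
  | 0, _ => 0
  | n + 1, v => (fromBlocks (an n (Fin.tail v)) (v 0 • (1 : Matrix (Idx n) (Idx n) R)) 0
      (-(an n (Fin.tail v))) : Matrix (Idx n ⊕ Idx n) (Idx n ⊕ Idx n) R)

theorem fromBlocks_one' (n : ℕ) (a : R) :
    (a • (1 : Matrix (Idx (n + 1)) (Idx (n + 1)) R)) =
      (fromBlocks (a • (1 : Matrix (Idx n) (Idx n) R)) 0 0 (a • (1 : Matrix (Idx n) (Idx n) R)) :
        Matrix (Idx n ⊕ Idx n) (Idx n ⊕ Idx n) R) := by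
  have : (1 : Matrix (Idx (n + 1)) (Idx (n + 1)) R) =
    (1 : Matrix (Idx n ⊕ Idx n) (Idx n ⊕ Idx n) R) := by
    ext a b
    simp only [Matrix.one_apply]
    congr
  rw [this]
  exact (fromBlocks_one (α := R) (l := Idx n) (m := Idx n)) ▸ fromBlocks_smul _ _ _ _ _ |>.trans (by simp)

theorem car (n : ℕ) (u v : Fin n → R) :
    an n v * cr n u + cr n u * an n v = (∑ i, v i * u i) • (1 : Matrix (Idx n) (Idx n) R) := by
  induction n with
  | zero => simp [an, cr]
  | succ n ih =>
    have h := ih (Fin.tail u) (Fin.tail v)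
    rw [fromBlocks_one', Fin.sum_univ_succ]
    change (fromBlocks _ _ _ _ : Matrix (Idx n ⊕ Idx n) (Idx n ⊕ Idx n) R) *
      (fromBlocks _ _ _ _ : Matrix (Idx n ⊕ Idx n) (Idx n ⊕ Idx n) R) +
      (fromBlocks _ _ _ _ : Matrix (Idx n ⊕ Idx n) (Idx n ⊕ Idx n) R) *
      (fromBlocks _ _ _ _ : Matrix (Idx n ⊕ Idx n) (Idx n ⊕ Idx n) R) = _
    rw [fromBlocks_multiply, fromBlocks_multiply, fromBlocks_add]
    have h' : (∑ i, Fin.tail v i * Fin.tail u i) = ∑ i : Fin n, v i.succ * u i.succ := rfl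
    rw [h'] at h
    congr 1
    · rw [add_smul, ← h]
      simp
      module
    · simp
    · simp
    · rw [add_smul, ← h]
      simp
      module

theorem cr_anti (n : ℕ) (u v : Fin n → R) : cr n u * cr n v + cr n v * cr n u = 0 := by
  induction n with
  | zero => simp [cr]
  | succ n ih =>
    have h := ih (Fin.tail u) (Fin.tail v)
    change (fromBlocks _ _ _ _ : Matrix (Idx n ⊕ Idx n) (Idx n ⊕ Idx n) R) *
      (fromBlocks _ _ _ _ : Matrix (Idx n ⊕ Idx n) (Idx n ⊕ Idx n) R) +
      (fromBlocks _ _ _ _ : Matrix (Idx n ⊕ Idx n) (Idx n ⊕ Idx n) R) *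
      (fromBlocks _ _ _ _ : Matrix (Idx n ⊕ Idx n) (Idx n ⊕ Idx n) R) = _
    rw [fromBlocks_multiply, fromBlocks_multiply, fromBlocks_add]
    refine Eq.trans ?_ (fromBlocks_zero (α := R) (l := Idx n) (m := Idx n) (n := Idx n) (o := Idx n))
    congr 1
    · simpa using h
    · simp
    · simp
    · simpa using h

theorem an_anti (n : ℕ) (u v : Fin n → R) : an n u * an n v + an n v * an n u = 0 := by
  induction n with
  | zero => simp [an]
  | succ n ih =>
    have h := ih (Fin.tail u) (Fin.tail v)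
    change (fromBlocks _ _ _ _ : Matrix (Idx n ⊕ Idx n) (Idx n ⊕ Idx n) R) *
      (fromBlocks _ _ _ _ : Matrix (Idx n ⊕ Idx n) (Idx n ⊕ Idx n) R) +
      (fromBlocks _ _ _ _ : Matrix (Idx n ⊕ Idx n) (Idx n ⊕ Idx n) R) *
      (fromBlocks _ _ _ _ : Matrix (Idx n ⊕ Idx n) (Idx n ⊕ Idx n) R) = _
    rw [fromBlocks_multiply, fromBlocks_multiply, fromBlocks_add]
    refine Eq.trans ?_ (fromBlocks_zero (α := R) (l := Idx n) (m := Idx n) (n := Idx n) (o := Idx n))
    congr 1
    · simpa using h
    · simp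
    · simp
    · simpa using h

theorem cr_sq (n : ℕ) (u : Fin n → R) : cr n u * cr n u = 0 := by
  induction n with
  | zero => simp [cr]
  | succ n ih =>
    have h := ih (Fin.tail u)
    change (fromBlocks _ _ _ _ : Matrix (Idx n ⊕ Idx n) (Idx n ⊕ Idx n) R) *
      (fromBlocks _ _ _ _ : Matrix (Idx n ⊕ Idx n) (Idx n ⊕ Idx n) R) = _
    rw [fromBlocks_multiply]
    refine Eq.trans ?_ (fromBlocks_zero (α := R) (l := Idx n) (m := Idx n) (n := Idx n) (o := Idx n))
    congr 1
    · simpa using h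
    · simp
    · simp
    · simpa using h

theorem an_sq (n : ℕ) (u : Fin n → R) : an n u * an n u = 0 := by
  induction n with
  | zero => simp [an]
  | succ n ih =>
    have h := ih (Fin.tail u)
    change (fromBlocks _ _ _ _ : Matrix (Idx n ⊕ Idx n) (Idx n ⊕ Idx n) R) *
      (fromBlocks _ _ _ _ : Matrix (Idx n ⊕ Idx n) (Idx n ⊕ Idx n) R) = _
    rw [fromBlocks_multiply]
    refine Eq.trans ?_ (fromBlocks_zero (α := R) (l := Idx n) (m := Idx n) (n := Idx n) (o := Idx n))
    congr 1
    · simpa using h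
    · simp
    · simp
    · simpa using h

theorem cr_star [StarRing R] (n : ℕ) (u : Fin n → R) : (cr n u)ᴴ = an n (fun i => star (u i)) := by
  induction n with
  | zero => simp [an, cr]
  | succ n ih =>
    change (fromBlocks _ _ _ _ : Matrix (Idx n ⊕ Idx n) (Idx n ⊕ Idx n) R)ᴴ = _
    rw [fromBlocks_conjTranspose]
    change _ = (fromBlocks _ _ _ _ : Matrix (Idx n ⊕ Idx n) (Idx n ⊕ Idx n) R)
    congr 1
    · exact ih _
    · simp
    · simp
    · rw [conjTranspose_neg, ih]
      rfl

theorem an_star [StarRing R] (n : ℕ) (u : Fin n → R) : (an n u)ᴴ = cr n (fun i => star (u i)) := by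
  have := cr_star n (fun i => star (u i))
  simp only [star_star] at this
  rw [← this, conjTranspose_conjTranspose]

/-! ### degrees -/

theorem cr_mem {S : Type*} [SetLike S R] [AddSubgroupClass S R] (s : S) (n : ℕ) (u : Fin n → R)
    (hu : ∀ i, u i ∈ s) (a b : Idx n) : cr n u a b ∈ s := by
  induction n with
  | zero => exact zero_mem s
  | succ n ih =>
    have h := ih (Fin.tail u) (fun i => hu _)
    rcases a with a | a <;> rcases b with b | b
    · exact h a b
    · exact zero_mem s
    · change (u 0 • (1 : Matrix (Idx n) (Idx n) R)) a b ∈ s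
      rw [Matrix.smul_apply, Matrix.one_apply]
      split_ifs
      · simpa using hu 0
      · simp
    · change (-(cr n (Fin.tail u))) a b ∈ s
      rw [Matrix.neg_apply]
      exact neg_mem (h a b)

theorem cr_deg (n : ℕ) (u : Fin n → R) (a b : Idx n) (h : deg n a ≠ deg n b + 1) :
    cr n u a b = 0 := by
  induction n with
  | zero => rfl
  | succ n ih =>
    rcases a with a | a <;> rcases b with b | b
    · exact ih (Fin.tail u) a b h
    · rfl
    · change (u 0 • (1 : Matrix (Idx n) (Idx n) R)) a b = 0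
      have : a ≠ b := by
        rintro rfl
        exact h rfl
      rw [Matrix.smul_apply, Matrix.one_apply_ne this, smul_zero]
    · change (-(cr n (Fin.tail u))) a b = 0
      rw [Matrix.neg_apply, neg_eq_zero]
      refine ih (Fin.tail u) a b fun h' => h ?_
      change deg n a + 1 = deg n b + 1 + 1
      omega

theorem an_eq_transpose (n : ℕ) (u : Fin n → R) : an n u = (cr n u)ᵀ := by
  induction n with
  | zero => simp [an, cr]
  | succ n ih =>
    change _ = (fromBlocks _ _ _ _ : Matrix (Idx n ⊕ Idx n) (Idx n ⊕ Idx n) R)ᵀ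
    rw [fromBlocks_transpose]
    change (fromBlocks _ _ _ _ : Matrix (Idx n ⊕ Idx n) (Idx n ⊕ Idx n) R) = _
    congr 1
    · exact ih _
    · simp
    · rw [transpose_neg, ih]

theorem an_mem {S : Type*} [SetLike S R] [AddSubgroupClass S R] (s : S) (n : ℕ) (u : Fin n → R)
    (hu : ∀ i, u i ∈ s) (a b : Idx n) : an n u a b ∈ s := by
  rw [an_eq_transpose]
  exact cr_mem s n u hu b a

theorem an_deg (n : ℕ) (u : Fin n → R) (a b : Idx n) (h : deg n b ≠ deg n a + 1) :
    an n u a b = 0 := by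
  rw [an_eq_transpose]
  exact cr_deg n u b a h

/-- diagonal projection on a set of degrees -/
def dp (n : ℕ) (s : ℕ → Prop) [DecidablePred s] : Matrix (Idx n) (Idx n) R :=
  diagonal fun a => if s (deg n a) then 1 else 0

theorem dp_mul (n : ℕ) (s : ℕ → Prop) [DecidablePred s] :
    dp n s * dp n s = (dp n s : Matrix (Idx n) (Idx n) R) := by
  unfold dp
  rw [diagonal_mul_diagonal]
  congr 1
  funext a
  split_ifs <;> simp

theorem dp_star [StarRing R] (n : ℕ) (s : ℕ → Prop) [DecidablePred s] :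
    (dp n s : Matrix (Idx n) (Idx n) R)ᴴ = dp n s := by
  unfold dp
  rw [diagonal_conjTranspose]
  congr 1
  funext a
  simp only [Pi.star_apply]
  split_ifs <;> simp

theorem cr_dp (n : ℕ) (u : Fin n → R) (s t : ℕ → Prop) [DecidablePred s] [DecidablePred t]
    (h : ∀ k, s k ↔ t (k + 1)) : cr n u * dp n s = dp n t * cr n u := by
  ext a b
  unfold dp
  rw [mul_diagonal, diagonal_mul]
  by_cases hab : deg n a = deg n b + 1
  · rw [hab]
    simp only [h]
    ring
  · rw [cr_deg n u a b hab]; simp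

theorem an_dp (n : ℕ) (u : Fin n → R) (s t : ℕ → Prop) [DecidablePred s] [DecidablePred t]
    (h : ∀ k, s k ↔ t (k + 1)) : an n u * dp n t = dp n s * an n u := by
  ext a b
  unfold dp
  rw [mul_diagonal, diagonal_mul]
  by_cases hab : deg n b = deg n a + 1
  · rw [hab]
    simp only [h]
    ring
  · rw [an_deg n u a b hab]; simp

end Pool.Agent.Work.MP_2a78db_gt.D2
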