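import Pool.Agent.Work.MP_2a78db_gt.D2E

/-!
The equality of rank functions coming from the resolution of the diagonal.
-/

namespace Pool.Agent.Work.MP_2a78db_gt.D2

open scoped Kronecker
open Matrix Filter Topology ComplexConjugate

noncomputable section

set_option linter.unusedSectionVars false
set_option linter.unusedSimpArgs false

variable {ι : Type} [Fintype ι] [DecidableEq ι] {w : ι → ℤ} {P : Matrix ι ι C(S9, ℂ)}

/-- rank function of a part of the resolution -/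
def gg (s : ℕ → Prop) [DecidablePred s] (v : ι → ℤ × ℤ) (B : Matrix ι ι C(S9 × S9, ℂ))
    (γ : ℤ × ℤ) : ℕ :=
  Q2.hh (fun p : Idx 5 × ι => γ + (uF p.1 + v p.2)) ((wW * dp 5 s) ⊗ₖ B)

/-- the big symbol -/
def uU (w : ι → ℤ) (P : Matrix ι ι C(S9, ℂ)) :
    Matrix (Idx 5 × ι ⊕ Idx 5 × ι) (Idx 5 × ι ⊕ Idx 5 × ι) C(S9 × S9, ℂ) :=
  fromBlocks (dD ⊗ₖ pZ P) (wW ⊗ₖ ph w P) (-(wW ⊗ₖ (ph w P)ᴴ)) (dD ⊗ₖ pT P)

theorem uU_star (hP : Q1.Pr w P) : (uU w P)ᴴ =
    fromBlocks (dD ⊗ₖ pZ P) (-(wW ⊗ₖ ph w P)) (wW ⊗ₖ (ph w P)ᴴ) (dD ⊗ₖ pT P) := by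
  unfold uU
  rw [fromBlocks_conjTranspose]
  simp only [conjTranspose_kronecker, conjTranspose_neg, dD_star, wW_star, (pZ_pr hP).star,
    (pT_pr hP).star, conjTranspose_conjTranspose]

theorem uU_star_mul (hP : Q1.Pr w P) : (uU w P)ᴴ * uU w P =
    fromBlocks (wW ⊗ₖ ((1 - ss * star ss) • pZ P + ph w P * (ph w P)ᴴ)) 0 0
      (wW ⊗ₖ ((1 - ss * star ss) • pT P + (ph w P)ᴴ * ph w P)) := by
  rw [uU_star hP]
  unfold uU
  rw [fromBlocks_multiply]
  congr 1
  · rw [Matrix.neg_mul, Matrix.mul_neg, neg_neg, ← mul_kronecker_mul, ← mul_kronecker_mul, dDdD,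
      wWwW, (pZ_pr hP).mul, smul_kronecker, kronecker_add, kronecker_smul]
  · rw [Matrix.neg_mul, ← mul_kronecker_mul, ← mul_kronecker_mul, pZph hP, phpT hP, wWdD, dDwW,
      add_neg_cancel]
  · rw [Matrix.mul_neg, ← mul_kronecker_mul, ← mul_kronecker_mul, pTph hP, phpZ hP, wWdD, dDwW,
      add_neg_cancel]
  · rw [← mul_kronecker_mul, ← mul_kronecker_mul, dDdD, wWwW, (pT_pr hP).mul, smul_kronecker,
      kronecker_add, kronecker_smul, add_comm]

/-- source and target -/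
def cP (s t : ℕ → Prop) [DecidablePred s] [DecidablePred t] (P : Matrix ι ι C(S9, ℂ)) :
    Matrix (Idx 5 × ι ⊕ Idx 5 × ι) (Idx 5 × ι ⊕ Idx 5 × ι) C(S9 × S9, ℂ) :=
  fromBlocks ((wW * dp 5 s) ⊗ₖ pZ P) 0 0 ((wW * dp 5 t) ⊗ₖ pT P)

/-- weights -/
def uW (w : ι → ℤ) : Idx 5 × ι ⊕ Idx 5 × ι → ℤ × ℤ :=
  Sum.elim (fun p => uF p.1 + vZ w p.2) (fun p => uF p.1 + vT w p.2)

theorem cP_pr (s t : ℕ → Prop) [DecidablePred s] [DecidablePred t] (hP : Q1.Pr w P) :
    Q2.Pr (uW w) (cP s t P) :=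
  Pr.blocks ((wW_pr s).kron (pZ_pr hP)) ((wW_pr t).kron (pT_pr hP))

theorem uU_hw (hP : Q1.Pr w P) : Q2.HW (uW w) (uW w) (uU w P) :=
  HW.blocks (dD_hw.kron (pZ_pr hP).hw) (wW_hw.kron (ph_hw hP))
    (wW_hw.kron (ph_hw hP).star).neg (dD_hw.kron (pT_pr hP).hw)

theorem step (s t : ℕ → Prop) [DecidablePred s] [DecidablePred t] (hP : Q1.Pr w P)
    (hs : dD * dp 5 s = dp 5 t * dD) (ht : dD * dp 5 t = dp 5 s * dD) :
    ∀ᶠ γ in Q2.l, Q2.hh (fun i => γ + uW w i) (cP s t P) ≤ Q2.hh (fun i => γ + uW w i) (cP t s P) := by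
  obtain ⟨G1, hG1, hG1'⟩ := exists_G1 hP
  obtain ⟨G2, hG2, hG2'⟩ := exists_G2 hP
  have hFw : Q2.HW uF uF (1 : Matrix (Idx 5) (Idx 5) C(S9 × S9, ℂ)) := Quant.HW.one
  refine Quant.hh_le (cP_pr s t hP) (cP_pr t s hP) (uU w P)
    (fromBlocks ((1 : Matrix (Idx 5) (Idx 5) C(S9 × S9, ℂ)) ⊗ₖ G1) 0 0
      ((1 : Matrix (Idx 5) (Idx 5) C(S9 × S9, ℂ)) ⊗ₖ G2) * (uU w P)ᴴ) (uU_hw hP)
    ((HW.blocks (hFw.kron hG1') Quant.HW.zero Quant.HW.zero (hFw.kron hG2')).mul
      (uU_hw hP).star) ?_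
  have h1 : cP t s P * uU w P = uU w P * cP s t P := by
    unfold cP uU
    rw [fromBlocks_multiply, fromBlocks_multiply]
    simp only [Matrix.zero_mul, Matrix.mul_zero, add_zero, zero_add, neg_zero, Matrix.mul_neg,
      Matrix.neg_mul, ← mul_kronecker_mul, (pZ_pr hP).mul, (pT_pr hP).mul, pZph hP, phpT hP, pTph hP, phpZ hP]
    have e1 : wW * dp 5 t * dD = dD * (wW * dp 5 s) := by
      rw [← Matrix.mul_assoc dD, dDwW, hs, wW_dp, Matrix.mul_assoc, wWdD]
    have e2 : wW * dp 5 s * dD = dD * (wW * dp 5 t) := by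
      rw [← Matrix.mul_assoc dD, dDwW, ht, wW_dp, Matrix.mul_assoc, wWdD]
    have e3 : wW * dp 5 t * wW = wW * (wW * dp 5 t) := by rw [Matrix.mul_assoc, ← wW_dp]
    have e4 : wW * dp 5 s * wW = wW * (wW * dp 5 s) := by rw [Matrix.mul_assoc, ← wW_dp]
    rw [e1, e2, e3, e4]
  have h2 : fromBlocks ((1 : Matrix (Idx 5) (Idx 5) C(S9 × S9, ℂ)) ⊗ₖ G1) 0 0
      ((1 : Matrix (Idx 5) (Idx 5) C(S9 × S9, ℂ)) ⊗ₖ G2) * ((uU w P)ᴴ * uU w P) =
      fromBlocks (wW ⊗ₖ pZ P) 0 0 (wW ⊗ₖ pT P) := by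
    rw [uU_star_mul hP, fromBlocks_multiply]
    simp only [Matrix.zero_mul, Matrix.mul_zero, add_zero, zero_add, ← mul_kronecker_mul,
      Matrix.one_mul, hG1, hG2]
  set Y := fromBlocks ((1 : Matrix (Idx 5) (Idx 5) C(S9 × S9, ℂ)) ⊗ₖ G1) 0 0
      ((1 : Matrix (Idx 5) (Idx 5) C(S9 × S9, ℂ)) ⊗ₖ G2)
  calc Y * (uU w P)ᴴ * cP t s P * uU w P * cP s t P =
      Y * (uU w P)ᴴ * (cP t s P * uU w P) * cP s t P := by simp only [Matrix.mul_assoc]
    _ = (Y * ((uU w P)ᴴ * uU w P)) * (cP s t P * cP s t P) := by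
      rw [h1]; simp only [Matrix.mul_assoc]
    _ = fromBlocks (wW ⊗ₖ pZ P) 0 0 (wW ⊗ₖ pT P) * cP s t P := by
      rw [h2, (cP_pr s t hP).mul]
    _ = cP s t P := by
      unfold cP
      rw [fromBlocks_multiply]
      simp only [Matrix.zero_mul, Matrix.mul_zero, add_zero, zero_add, ← mul_kronecker_mul,
        (pZ_pr hP).mul, (pT_pr hP).mul, ← Matrix.mul_assoc wW wW, wWwW]

theorem main_eq (hP : Q1.Pr w P) : ∀ᶠ γ in Q2.l,
    gg Even (vZ w) (pZ P) γ + gg (fun k => ¬ Even k) (vT w) (pT P) γ =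
    gg (fun k => ¬ Even k) (vZ w) (pZ P) γ + gg Even (vT w) (pT P) γ := by
  have h1 := step Even (fun k => ¬ Even k) hP dD_dp dD_dp'
  have h2 := step (fun k => ¬ Even k) Even hP dD_dp' dD_dp
  have h3 := hh_blocks ((wW_pr Even).kron (pZ_pr hP)) ((wW_pr (fun k => ¬ Even k)).kron (pT_pr hP))
  have h4 := hh_blocks ((wW_pr (fun k => ¬ Even k)).kron (pZ_pr hP)) ((wW_pr Even).kron (pT_pr hP))
  filter_upwards [h1, h2, h3, h4] with γ h1 h2 h3 h4
  have h5 := le_antisymm h1 h2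
  unfold cP uW at h5
  rw [h3, h4] at h5
  exact h5

/-! ### Decomposition into degrees -/

theorem deg_le : ∀ (n : ℕ) (a : Idx n), deg n a ≤ n
  | 0, _ => le_refl 0
  | n + 1, .inl a => (deg_le n a).trans (Nat.le_succ n)
  | n + 1, .inr a => Nat.succ_le_succ (deg_le n a)

variable {v : ι → ℤ × ℤ} {B : Matrix ι ι C(S9 × S9, ℂ)}

theorem gg_sum (s : ℕ → Prop) [DecidablePred s] (hB : Q2.Pr v B) : ∀ᶠ γ in Q2.l,
    gg s v B γ = ∑ k ∈ (Finset.range 6).filter s, gg (fun j => j = k) v B γ := by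
  have h1 := Quant.hh_sum (Q := Q2) (a := fun p : Idx 5 × ι => uF p.1 + v p.2)
    ((Finset.range 6).filter s) (P := fun k => (wW * dp 5 (fun j => j = k)) ⊗ₖ B)
    (fun k _ => (wW_pr _).kron hB) (fun k _ l _ hkl => by
      rw [← mul_kronecker_mul]
      have : wW * dp 5 (fun j => j = k) * (wW * dp 5 (fun j => j = l)) = 0 := by
        have e : dp 5 (fun j => j = k) * dp 5 (fun j => j = l) =
            (0 : Matrix (Idx 5) (Idx 5) C(S9 × S9, ℂ)) := by
          unfold dp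
          rw [diagonal_mul_diagonal]
          ext a b : 1
          rw [diagonal_apply, Matrix.zero_apply]
          split_ifs with h1 h2 h3
          · exact absurd (h2.symm.trans h3) hkl
          all_goals simp
        calc wW * dp 5 (fun j => j = k) * (wW * dp 5 (fun j => j = l)) =
            wW * (dp 5 (fun j => j = k) * wW) * dp 5 (fun j => j = l) := by
              simp only [Matrix.mul_assoc]
          _ = wW * wW * (dp 5 (fun j => j = k) * dp 5 (fun j => j = l)) := by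
            rw [← wW_dp]; simp only [Matrix.mul_assoc]
          _ = 0 := by rw [e, Matrix.mul_zero]
      rw [this]
      simp)
  filter_upwards [h1] with γ h1
  unfold gg
  rw [← h1]
  congr 1
  have h2 : (dp 5 s : Matrix (Idx 5) (Idx 5) C(S9 × S9, ℂ)) =
      ∑ k ∈ (Finset.range 6).filter s, dp 5 (fun j => j = k) := by
    ext a b : 1
    rw [Matrix.sum_apply]
    unfold dp
    simp only [diagonal_apply]
    by_cases hab : a = b
    · simp only [hab, if_true]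
      by_cases hb : s (deg 5 b)
      · rw [if_pos hb, Finset.sum_eq_single (deg 5 b)]
        · simp
        · intro k _ hk; simp [Ne.symm hk]
        · intro h
          exact absurd (Finset.mem_filter.2 ⟨Finset.mem_range.2 (Nat.lt_succ_of_le (deg_le 5 b)), hb⟩) h
      · rw [if_neg hb]
        refine (Finset.sum_eq_zero fun k hk => ?_).symm
        have : deg 5 b ≠ k := by
          rintro rfl
          exact hb (Finset.mem_filter.1 hk).2
        simp [this]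
    · simp [hab]
  rw [h2, Finset.mul_sum]
  ext p q : 1
  simp only [kroneckerMap_apply, Matrix.sum_apply, Finset.sum_mul]

theorem gg_rec (k : ℕ) (hB : Q2.Pr v B) : ∀ᶠ γ in Q2.l,
    (gg (fun j => j = k + 1) v B γ : ℤ) + gg (fun j => j = k) v B (γ + (1, 1)) =
      ((Nat.choose 5 (k + 1) : ℕ) : ℤ) * Q2.hh (fun i => γ + ((k + 1) • ((1, 0) : ℤ × ℤ) + v i)) B := by
  have hdp : Q2.Pr uF (dp 5 (fun j => j = k + 1) : Matrix (Idx 5) (Idx 5) C(S9 × S9, ℂ)) :=
    Quant.Pr_dp _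
  have hdp' : Q2.Pr (fun a => uF a + (1, 1))
    (dp 5 (fun j => j = k) : Matrix (Idx 5) (Idx 5) C(S9 × S9, ℂ)) := Quant.Pr_dp _
  have e1 : aA * dp 5 (fun j => j = k + 1) = dp 5 (fun j => j = k) * aA :=
    an_dp 5 _ (fun j => j = k) (fun j => j = k + 1) (fun j => by simp)
  have e2 : aS * dp 5 (fun j => j = k) = dp 5 (fun j => j = k + 1) * aS :=
    cr_dp 5 _ (fun j => j = k) (fun j => j = k + 1) (fun j => by simp)
  set V : Matrix (Idx 5) (Idx 5) C(S9 × S9, ℂ) := aS * aA * dp 5 (fun j => j = k + 1) with hV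
  have hcom : aS * aA * dp 5 (fun j => j = k + 1) = dp 5 (fun j => j = k + 1) * (aS * aA) := by
    rw [Matrix.mul_assoc, e1, ← Matrix.mul_assoc, e2, Matrix.mul_assoc]
  have hVV' : (aS * aA) * (aS * aA) = aS * aA := by
    have h0 : aS * aS = 0 := cr_sq 5 _
    have : aA * aS = 1 - aS * aA := by rw [← aAaS]; abel
    calc (aS * aA) * (aS * aA) = aS * (aA * aS) * aA := by simp only [Matrix.mul_assoc]
      _ = aS * aA - (aS * aS) * aA * aA := by
        rw [this, Matrix.mul_sub, Matrix.sub_mul, Matrix.mul_one]; simp only [Matrix.mul_assoc]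
      _ = aS * aA := by rw [h0]; simp
  have hVw : Q2.HW uF uF V := (aS_hw.mul aA_hw).mul hdp.hw
  have hVpr : Q2.Pr uF V := by
    refine ⟨hVw, ?_, ?_⟩
    · calc V * V = aS * aA * (dp 5 (fun j => j = k + 1) * (aS * aA)) * dp 5 (fun j => j = k + 1) := by
            rw [hV]; simp only [Matrix.mul_assoc]
        _ = (aS * aA * (aS * aA)) * (dp 5 (fun j => j = k + 1) * dp 5 (fun j => j = k + 1)) := by
            rw [← hcom]; simp only [Matrix.mul_assoc]
        _ = V := by rw [hVV', dp_mul]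
    · rw [hV, conjTranspose_mul, dp_star, conjTranspose_mul, aS_star, aA_star, ← hcom]
  have hsum : wW * dp 5 (fun j => j = k + 1) + V = dp 5 (fun j => j = k + 1) := by
    rw [hV, ← Matrix.add_mul]
    unfold wW
    rw [aAaS, Matrix.one_mul]
  have horth : wW * dp 5 (fun j => j = k + 1) * V = 0 := by
    calc wW * dp 5 (fun j => j = k + 1) * V =
        wW * (dp 5 (fun j => j = k + 1) * (aS * aA)) * dp 5 (fun j => j = k + 1) := by
          rw [hV]; simp only [Matrix.mul_assoc]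
      _ = aA * (aS * aS) * aA * dp 5 (fun j => j = k + 1) * dp 5 (fun j => j = k + 1) := by
          rw [← hcom]; unfold wW; simp only [Matrix.mul_assoc]
      _ = 0 := by
          have h0 : aS * aS = 0 := cr_sq 5 _
          rw [h0]; simp
  have h1 := Quant.hh_add ((wW_pr (fun j => j = k + 1)).kron hB) (hVpr.kron hB) (by
    rw [← mul_kronecker_mul, horth]; simp)
  rw [← add_kronecker, hsum] at h1
  have hWpr : Q2.Pr (fun a => uF a + (1, 1)) (wW * dp 5 (fun j => j = k)) := by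
    have := wW_pr (fun j => j = k)
    refine ⟨fun a b => ?_, this.mul, this.star⟩
    have h := this.hw a b
    rwa [← add_sub_add_right_eq_sub _ _ ((1, 1) : ℤ × ℤ)] at h
  have h2 := Quant.hh_eq (hVpr.kron hB) (hWpr.kron hB)
    ((aA * dp 5 (fun j => j = k + 1)) ⊗ₖ B) ((aS * dp 5 (fun j => j = k)) ⊗ₖ B)
    ((aA_hw.mul hdp.hw).kron hB.hw) ((aS_hw.mul hdp'.hw).kron hB.hw) (by
      rw [← mul_kronecker_mul, hB.mul]
      refine congrArg (fun M => M ⊗ₖ B) ?_
      calc aS * dp 5 (fun j => j = k) * (aA * dp 5 (fun j => j = k + 1)) =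
          aS * (dp 5 (fun j => j = k) * aA) * dp 5 (fun j => j = k + 1) := by
            simp only [Matrix.mul_assoc]
        _ = aS * aA * (dp 5 (fun j => j = k + 1) * dp 5 (fun j => j = k + 1)) := by
            rw [← e1]; simp only [Matrix.mul_assoc]
        _ = V := by rw [dp_mul]) (by
      rw [← mul_kronecker_mul, hB.mul]
      refine congrArg (fun M => M ⊗ₖ B) ?_
      calc aA * dp 5 (fun j => j = k + 1) * (aS * dp 5 (fun j => j = k)) =
          aA * (dp 5 (fun j => j = k + 1) * aS) * dp 5 (fun j => j = k) := by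
            simp only [Matrix.mul_assoc]
        _ = aA * aS * (dp 5 (fun j => j = k) * dp 5 (fun j => j = k)) := by
            rw [← e2]; simp only [Matrix.mul_assoc]
        _ = wW * dp 5 (fun j => j = k) := by rw [dp_mul, wW])
  have h3 := Quant.hh_kron (u := uF) hB (fun a => deg 5 a = k + 1)
  filter_upwards [h1, h2, h3] with γ h1 h2 h3
  have h4 : gg (fun j => j = k) v B (γ + (1, 1)) =
      Q2.hh (fun p : Idx 5 × ι => γ + (uF p.1 + (1, 1) + v p.2)) ((wW * dp 5 (fun j => j = k)) ⊗ₖ B) := by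
    unfold gg
    congr 1
    funext p
    abel
  rw [h4, ← h2]
  unfold gg
  have h5 : ((Q2.hh (fun p : Idx 5 × ι => γ + (uF p.1 + v p.2)) ((wW * dp 5 (fun j => j = k + 1)) ⊗ₖ B) : ℕ) : ℤ)
      + Q2.hh (fun p : Idx 5 × ι => γ + (uF p.1 + v p.2)) (V ⊗ₖ B) =
      (Q2.hh (fun p : Idx 5 × ι => γ + (uF p.1 + v p.2)) (dp 5 (fun j => j = k + 1) ⊗ₖ B) : ℕ) := by
    rw [h1]; push_cast; rfl
  rw [h5]
  have h6 : Q2.hh (fun p : Idx 5 × ι => γ + (uF p.1 + v p.2)) (dp 5 (fun j => j = k + 1) ⊗ₖ B) =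
      ∑ f : Idx 5, if deg 5 f = k + 1 then Q2.hh (fun i => γ + (uF f + v i)) B else 0 := h3
  rw [h6, Nat.cast_sum]
  have h7 := sum_idx_five (fun j => ((if j = k + 1 then
    Q2.hh (fun i => γ + (j • ((1, 0) : ℤ × ℤ) + v i)) B else 0 : ℕ) : ℤ))
  refine Eq.trans h7 ?_
  rcases k with _ | _ | _ | _ | _ | k
  · simp
  · simp [Nat.choose]
  · simp [Nat.choose]
  · simp [Nat.choose]
  · simp [Nat.choose]
  · simp [Nat.choose]

theorem gg_zero (hB : Q2.Pr v B) : ∀ᶠ γ in Q2.l,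
    gg (fun j => j = 0) v B γ = Q2.hh (fun i => γ + (0 • ((1, 0) : ℤ × ℤ) + v i)) B := by
  have e1 : aA * dp 5 (fun j => j = 0) = dp 5 (fun _ => False) * aA :=
    an_dp 5 _ (fun _ => False) (fun j => j = 0) (fun j => by simp)
  have e3 : (dp 5 (fun _ => False) : Matrix (Idx 5) (Idx 5) C(S9 × S9, ℂ)) = 0 := by
    unfold dp
    ext a b : 1
    simp [diagonal_apply]
  have e2 : wW * dp 5 (fun j => j = 0) = dp 5 (fun j => j = 0) := by
    have h : wW = 1 - aS * aA := by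
      unfold wW; rw [← aAaS]; abel
    rw [h, Matrix.sub_mul, Matrix.one_mul, Matrix.mul_assoc, e1, e3]
    simp
  have h3 := Quant.hh_kron (u := uF) hB (fun a => deg 5 a = 0)
  filter_upwards [h3] with γ h3
  unfold gg
  rw [e2]
  have h6 : Q2.hh (fun p : Idx 5 × ι => γ + (uF p.1 + v p.2)) (dp 5 (fun j => j = 0) ⊗ₖ B) =
      ∑ f : Idx 5, if deg 5 f = 0 then Q2.hh (fun i => γ + (uF f + v i)) B else 0 := h3
  have h7 := sum_idx_five (fun j => ((if j = 0 then
    Q2.hh (fun i => γ + (j • ((1, 0) : ℤ × ℤ) + v i)) B else 0 : ℕ) : ℤ))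
  have h8 : ((∑ f : Idx 5, if deg 5 f = 0 then Q2.hh (fun i => γ + (uF f + v i)) B else 0 : ℕ) : ℤ) =
      (Q2.hh (fun i => γ + (0 • ((1, 0) : ℤ × ℤ) + v i)) B : ℕ) := by
    rw [Nat.cast_sum]
    refine Eq.trans h7 ?_
    simp
  rw [h6]
  exact_mod_cast h8

end

end Pool.Agent.Work.MP_2a78db_gt.D2
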