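import Pool.Agent.Work.MP_2a78db_gt.D2S

/-!
Quantization of the sphere and of the product of two spheres.
-/

namespace Pool.Agent.Work.MP_2a78db_gt.D2

open scoped InnerProductSpace
open MeasureTheory Filter Topology ComplexConjugate

noncomputable section

set_option linter.unusedSectionVars false
set_option linter.unusedSimpArgs false

/-! ### One variable -/

/-- orthonormal monomials -/
def e1 (m : ℤ) (a : Nn m) : C(S9, ℂ) := (((√(cN a.1))⁻¹ : ℝ) : ℂ) • mc a.1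

theorem e1_orthonormal (m : ℤ) : Orthonormal ℂ (fun a => jj sg (e1 m a)) := by
  rw [orthonormal_iff_ite]
  intro a b
  have h : ∑ i, a.1 i = ∑ i, b.1 i := by
    have h1 := mem_Nn.1 a.2
    have h2 := mem_Nn.1 b.2
    exact_mod_cast h1.trans h2.symm
  unfold e1
  rw [map_smul, map_smul, inner_smul_left, inner_smul_right, inner_mc _ _ h]
  by_cases hab : a = b
  · subst hab
    simp only [if_true, Complex.conj_ofReal]
    rw [← Complex.ofReal_mul, ← Complex.ofReal_mul, ← mul_assoc, ← mul_inv,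
      Real.mul_self_sqrt (cN_pos _).le, inv_mul_cancel₀ (cN_pos _).ne', Complex.ofReal_one]
  · have : a.1 ≠ b.1 := fun h => hab (Subtype.ext h)
    simp [hab, this]

/-- homogeneous polynomials -/
def H1 (m : ℤ) : Submodule ℂ C(S9, ℂ) := Submodule.span ℂ (Set.range (e1 m))

theorem mc_mem_H1 {m : ℤ} {a : Fin 5 → ℕ} (h : a ∈ Nn m) : mc a ∈ H1 m := by
  have h1 : mc a = ((√(cN a) : ℝ) : ℂ) • e1 m ⟨a, h⟩ := by
    unfold e1
    rw [smul_smul, ← Complex.ofReal_mul, mul_inv_cancel₀, Complex.ofReal_one, one_smul]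
    exact (Real.sqrt_pos.2 (cN_pos a)).ne'
  rw [h1]
  exact Submodule.smul_mem _ _ (Submodule.subset_span ⟨_, rfl⟩)

theorem exists_pol {m : ℤ} {p : C(S9, ℂ)} (hp : p ∈ H1 m) : ∃ v, p = pol m v := by
  obtain ⟨w, hw⟩ := (Submodule.mem_span_range_iff_exists_fun ℂ).1 hp
  refine ⟨fun a => if h : a ∈ Nn m then w ⟨a, h⟩ * (((√(cN a))⁻¹ : ℝ) : ℂ) else 0, ?_⟩
  unfold pol
  rw [← hw, ← Finset.sum_coe_sort (Nn m)]
  refine Finset.sum_congr rfl fun a _ => ?_
  beta_reduce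
  rw [dif_pos a.2, e1, smul_smul]

/-- weight spaces -/
def W1 (m : ℤ) : Submodule ℂ C(S9, ℂ) where
  carrier := {f | ∀ (l : Circle) (z : S9), f (rot l z) = (l : ℂ) ^ m * f z}
  add_mem' := by
    intro f g hf hg l z
    rw [ContinuousMap.add_apply, ContinuousMap.add_apply, hf, hg, mul_add]
  zero_mem' := by
    intro l z
    simp
  smul_mem' := by
    intro c f hf l z
    rw [ContinuousMap.smul_apply, ContinuousMap.smul_apply, hf, smul_eq_mul, smul_eq_mul]
    ring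

theorem W1_mul (a b : ℤ) (f g : C(S9, ℂ)) (hf : f ∈ W1 a) (hg : g ∈ W1 b) :
    f * g ∈ W1 (a + b) := by
  intro l z
  rw [ContinuousMap.mul_apply, ContinuousMap.mul_apply, hf, hg, zpow_add₀ (Circle.coe_ne_zero l)]
  ring

theorem conj_zpow (l : Circle) (m : ℤ) : conj ((l : ℂ) ^ m) = (l : ℂ) ^ (-m) := by
  rw [map_zpow₀, ← Circle.coe_inv_eq_conj, Circle.coe_inv, inv_zpow, zpow_neg]

theorem W1_star {a : ℤ} {f : C(S9, ℂ)} (hf : f ∈ W1 a) : star f ∈ W1 (-a) := by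
  intro l z
  rw [ContinuousMap.star_apply, ContinuousMap.star_apply, hf, RCLike.star_def, map_mul,
    conj_zpow]

theorem W1_one : (1 : C(S9, ℂ)) ∈ W1 0 := by
  intro l z
  simp

theorem zc_mem_W1 (i : Fin 5) : zc i ∈ W1 1 := by
  intro l z
  simp [zc, rot]

theorem exp_zpow (k : ℤ) (hk : k ≠ 0) : ((Circle.exp (Real.pi / k) : Circle) : ℂ) ^ k = -1 := by
  rw [Circle.coe_exp, ← Complex.exp_int_mul]
  have : (k : ℂ) * (((Real.pi / k : ℝ) : ℂ) * Complex.I) = Real.pi * Complex.I := by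
    have : (k : ℂ) ≠ 0 := by exact_mod_cast hk
    push_cast
    field_simp
  rw [this, Complex.exp_pi_mul_I]

theorem W1_orth (a b : ℤ) (f g : C(S9, ℂ)) (hab : a ≠ b) (hf : f ∈ W1 a) (hg : g ∈ W1 b) :
    ⟪jj sg f, jj sg g⟫_ℂ = 0 := by
  rw [inner_jj]
  have hk : b - a ≠ 0 := sub_ne_zero.2 hab.symm
  have h1 := sg_rot (Circle.exp (Real.pi / ((b - a : ℤ) : ℝ)))
    (fun z => conj (f z) * g z) (by fun_prop)
  have h2 : ∀ z, conj (f (rot (Circle.exp (Real.pi / ((b - a : ℤ) : ℝ))) z)) *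
      g (rot (Circle.exp (Real.pi / ((b - a : ℤ) : ℝ))) z) = - (conj (f z) * g z) := by
    intro z
    rw [hf, hg, map_mul, conj_zpow]
    have h3 := exp_zpow (b - a) hk
    generalize Circle.exp (Real.pi / ((b - a : ℤ) : ℝ)) = l at h3 ⊢
    have h4 : (l : ℂ) ^ (-a) * (l : ℂ) ^ b = -1 := by
      rw [← zpow_add₀ (Circle.coe_ne_zero _), show -a + b = b - a by ring]
      exact h3
    linear_combination (conj (f z) * g z) * h4
  simp only [h2] at h1
  rw [integral_neg] at h1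
  exact self_eq_neg.1 h1.symm

theorem mc_mem_W1 {m : ℤ} {a : Fin 5 → ℕ} (h : a ∈ Nn m) : mc a ∈ W1 m := by
  intro l z
  rw [mc_apply, mc_apply, ← mem_Nn.1 h, zpow_natCast, ← Finset.prod_pow_eq_pow_sum]
  simp only [mon, rot, mul_pow, Finset.prod_mul_distrib]

theorem e1_mem_W1 (m : ℤ) (a : Nn m) : e1 m a ∈ W1 m :=
  Submodule.smul_mem _ _ (mc_mem_W1 a.2)

/-- approximate invariance -/
def Appr (g : C(S9, ℂ)) (c : ℤ) : Prop := ∀ ε > 0, ∀ᶠ m : ℤ in atTop, ∀ p ∈ H1 m,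
  ∃ h ∈ H1 (m + c), ‖jj sg (g * p - h)‖ ≤ ε * ‖jj sg p‖

theorem appr_zc (i : Fin 5) : Appr (zc i) 1 := by
  intro ε hε
  refine Eventually.of_forall fun m p hp => ?_
  refine ⟨zc i * p, ?_, ?_⟩
  · obtain ⟨v, rfl⟩ := exists_pol hp
    unfold pol
    rw [Finset.mul_sum]
    refine Submodule.sum_mem _ fun a ha => ?_
    rw [mul_smul_comm, zc_mul_mc]
    refine Submodule.smul_mem _ _ (mc_mem_H1 (mem_Nn.2 ?_))
    simp only [Pi.add_apply, Finset.sum_add_distrib, sum_single]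
    push_cast
    have := mem_Nn.1 ha
    push_cast at this
    rw [this]
  · simp only [sub_self, map_zero, norm_zero]
    positivity

theorem appr_star_zc (i : Fin 5) : Appr (star (zc i)) (-1) := by
  intro ε hε
  obtain ⟨N, hN⟩ := exists_nat_gt (4 / ε ^ 2)
  filter_upwards [eventually_ge_atTop ((N : ℤ) + 1)] with m hm p hp
  obtain ⟨k, rfl⟩ : ∃ k : ℕ, m = k + 1 := ⟨(m - 1).toNat, by omega⟩
  obtain ⟨v, rfl⟩ := exists_pol hp
  refine ⟨dI i k v, ?_, ?_⟩
  · have h1 := dI_mem i k v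
    have h2 : ((k : ℤ) + 1 + -1) = k := by ring
    rw [h2]
    refine (Submodule.span_le.2 ?_) h1
    rintro _ ⟨a, ha, rfl⟩
    exact mc_mem_H1 ha
  · have h1 := hankel i k v
    have h2 : (4 : ℝ) / (k + 5) ≤ ε ^ 2 := by
      have hk : (N : ℝ) ≤ k := by
        have : (N : ℤ) ≤ k := by linarith
        exact_mod_cast this
      rw [div_le_iff₀ (by positivity)]
      rw [div_lt_iff₀ (by positivity)] at hN
      nlinarith [sq_nonneg ε]
    have h3 : ‖jj sg (star (zc i) * pol (k + 1) v - dI i k v)‖ ^ 2 ≤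
        (ε * ‖jj sg (pol (k + 1) v)‖) ^ 2 := by
      rw [mul_pow]
      exact h1.trans (mul_le_mul_of_nonneg_right h2 (by positivity))
    exact (pow_le_pow_iff_left₀ (norm_nonneg _) (by positivity) two_ne_zero).1 h3

theorem dense_of_sep {X : Type} [TopologicalSpace X] [CompactSpace X] (G : Set C(X, ℂ))
    (hG : ∀ x y : X, x ≠ y → ∃ g ∈ G, g x ≠ g y) (f : C(X, ℂ)) :
    f ∈ closure (Algebra.adjoin ℂ (G ∪ star G) : Set C(X, ℂ)) := by
  have h1 := ContinuousMap.starSubalgebra_topologicalClosure_eq_top_of_separatesPoints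
    (StarAlgebra.adjoin ℂ G) (by
      intro x y hxy
      obtain ⟨g, hg, hgxy⟩ := hG x y hxy
      exact ⟨g, ⟨g, StarAlgebra.subset_adjoin ℂ G hg, rfl⟩, hgxy⟩)
  have h2 : f ∈ (StarAlgebra.adjoin ℂ G).topologicalClosure := by rw [h1]; trivial
  rw [← SetLike.mem_coe, StarSubalgebra.topologicalClosure_coe] at h2
  have h3 : ((StarAlgebra.adjoin ℂ G : StarSubalgebra ℂ C(X, ℂ)) : Set C(X, ℂ)) =
      (Algebra.adjoin ℂ (G ∪ star G) : Set C(X, ℂ)) := by
    rw [← StarAlgebra.adjoin_toSubalgebra]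
    rfl
  rwa [h3] at h2

/-- quantization of the sphere -/
def Q1 : Quant ℤ C(S9, ℂ) :=
  Quant.ofRep (jj sg) (jj_norm sg) (jj_adj sg) atTop inferInstance
    (fun c => tendsto_atTop_add_const_right _ c tendsto_id) W1 W1_mul W1_star W1_one W1_orth
    (fun m => Nn m) (fun _ => inferInstance) (fun _ => inferInstance) e1 e1_orthonormal e1_mem_W1
    (Set.range zc ∪ star (Set.range zc)) (by
      rintro g (⟨i, rfl⟩ | ⟨i, hi⟩)
      · exact ⟨1, appr_zc i⟩
      · have : g = star (zc i) := by rw [hi, star_star]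
        subst this
        exact ⟨-1, appr_star_zc i⟩) (by
      intro f
      refine dense_of_sep _ ?_ f
      intro x y hxy
      have : ∃ i, x.1 i ≠ y.1 i := by
        by_contra h
        push Not at h
        exact hxy (Subtype.ext (funext h))
      obtain ⟨i, hi⟩ := this
      exact ⟨zc i, ⟨i, rfl⟩, hi⟩)

/-! ### Two variables -/

/-- product measure -/
abbrev sg2 : Measure (S9 × S9) := sg.prod sg

/-- functions of the first variable -/
def pu1 (f : C(S9, ℂ)) : C(S9 × S9, ℂ) := ⟨fun p => f p.1, f.continuous.comp continuous_fst⟩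

/-- functions of the second variable -/
def pu2 (f : C(S9, ℂ)) : C(S9 × S9, ℂ) := ⟨fun p => f p.2, f.continuous.comp continuous_snd⟩

@[simp] theorem pu1_apply (f : C(S9, ℂ)) (p : S9 × S9) : pu1 f p = f p.1 := rfl
@[simp] theorem pu2_apply (f : C(S9, ℂ)) (p : S9 × S9) : pu2 f p = f p.2 := rfl

theorem inner_prod (f g f' g' : C(S9, ℂ)) :
    ⟪jj sg2 (pu1 f * pu2 g), jj sg2 (pu1 f' * pu2 g')⟫_ℂ =
      ⟪jj sg f, jj sg f'⟫_ℂ * ⟪jj sg g, jj sg g'⟫_ℂ := by
  rw [inner_jj, inner_jj, inner_jj, ← integral_prod_mul]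
  refine integral_congr_ae (Eventually.of_forall fun p => ?_)
  simp only [ContinuousMap.mul_apply, pu1_apply, pu2_apply, map_mul]
  ring

/-- orthonormal monomials in two variables -/
def e2 (m : ℤ × ℤ) (a : Nn m.1 × Nn m.2) : C(S9 × S9, ℂ) := pu1 (e1 m.1 a.1) * pu2 (e1 m.2 a.2)

theorem e2_orthonormal (m : ℤ × ℤ) : Orthonormal ℂ (fun a => jj sg2 (e2 m a)) := by
  rw [orthonormal_iff_ite]
  rintro ⟨a, b⟩ ⟨a', b'⟩
  unfold e2
  rw [inner_prod, orthonormal_iff_ite.1 (e1_orthonormal m.1), orthonormal_iff_ite.1 (e1_orthonormal m.2)]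
  simp only [Prod.mk.injEq]
  split_ifs <;> simp_all

/-- bihomogeneous polynomials -/
def H2 (m : ℤ × ℤ) : Submodule ℂ C(S9 × S9, ℂ) := Submodule.span ℂ (Set.range (e2 m))

theorem prod_mem_H2 {m n : ℤ} {f g : C(S9, ℂ)} (hf : f ∈ H1 m) (hg : g ∈ H1 n) :
    pu1 f * pu2 g ∈ H2 (m, n) := by
  obtain ⟨v, rfl⟩ := (Submodule.mem_span_range_iff_exists_fun ℂ).1 hf
  obtain ⟨w, rfl⟩ := (Submodule.mem_span_range_iff_exists_fun ℂ).1 hg
  have : pu1 (∑ i, v i • e1 m i) * pu2 (∑ i, w i • e1 n i) =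
      ∑ i, ∑ j, (v i * w j) • e2 (m, n) (i, j) := by
    ext p
    simp only [ContinuousMap.mul_apply, pu1_apply, pu2_apply, ContinuousMap.coe_sum,
      Finset.sum_apply, ContinuousMap.coe_smul, Pi.smul_apply, smul_eq_mul, e2, Finset.sum_mul_sum]
    refine Finset.sum_congr rfl fun i _ => Finset.sum_congr rfl fun j _ => ?_
    ring
  rw [this]
  refine Submodule.sum_mem _ fun i _ => Submodule.sum_mem _ fun j _ => ?_
  exact Submodule.smul_mem _ _ (Submodule.subset_span ⟨_, rfl⟩)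

theorem exists_cols {m n : ℤ} {p : C(S9 × S9, ℂ)} (hp : p ∈ H2 (m, n)) :
    ∃ u : Nn n → C(S9, ℂ), (∀ b, u b ∈ H1 m) ∧ p = ∑ b, pu1 (u b) * pu2 (e1 n b) := by
  obtain ⟨v, rfl⟩ := (Submodule.mem_span_range_iff_exists_fun ℂ).1 hp
  refine ⟨fun b => ∑ a, v (a, b) • e1 m a, fun b => ?_, ?_⟩
  · exact Submodule.sum_mem _ fun a _ => Submodule.smul_mem _ _ (Submodule.subset_span ⟨_, rfl⟩)
  · rw [Fintype.sum_prod_type, Finset.sum_comm]
    refine Finset.sum_congr rfl fun b _ => ?_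
    ext p
    simp only [ContinuousMap.mul_apply, pu1_apply, pu2_apply, ContinuousMap.coe_sum,
      Finset.sum_apply, ContinuousMap.coe_smul, Pi.smul_apply, smul_eq_mul, e2, Finset.sum_mul]
    refine Finset.sum_congr rfl fun i _ => ?_
    ring

theorem norm_cols {n : ℤ} (u : Nn n → C(S9, ℂ)) :
    ‖jj sg2 (∑ b, pu1 (u b) * pu2 (e1 n b))‖ ^ 2 = ∑ b, ‖jj sg (u b)‖ ^ 2 := by
  have h : ((‖jj sg2 (∑ b, pu1 (u b) * pu2 (e1 n b))‖ ^ 2 : ℝ) : ℂ) =
      ((∑ b, ‖jj sg (u b)‖ ^ 2 : ℝ) : ℂ) := by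
    have h1 : ((‖jj sg2 (∑ b, pu1 (u b) * pu2 (e1 n b))‖ ^ 2 : ℝ) : ℂ) =
        ⟪jj sg2 (∑ b, pu1 (u b) * pu2 (e1 n b)), jj sg2 (∑ b, pu1 (u b) * pu2 (e1 n b))⟫_ℂ := by
      rw [inner_self_eq_norm_sq_to_K]; norm_cast
    rw [h1, map_sum, sum_inner, Complex.ofReal_sum]
    refine Finset.sum_congr rfl fun b _ => ?_
    rw [inner_sum, Finset.sum_eq_single b]
    · rw [inner_prod, orthonormal_iff_ite.1 (e1_orthonormal n), if_pos rfl, mul_one,
        inner_self_eq_norm_sq_to_K]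
      norm_cast
    · intro c _ hc
      rw [inner_prod, orthonormal_iff_ite.1 (e1_orthonormal n), if_neg (Ne.symm hc), mul_zero]
    · simp
  exact_mod_cast h

/-- the filter -/
def l2 : Filter (ℤ × ℤ) := atTop ×ˢ atTop

theorem appr2_1 {g : C(S9, ℂ)} {c : ℤ} (hg : Appr g c) : ∀ ε > 0, ∀ᶠ γ : ℤ × ℤ in l2,
    ∀ p ∈ H2 γ, ∃ h ∈ H2 (γ + (c, 0)), ‖jj sg2 (pu1 g * p - h)‖ ≤ ε * ‖jj sg2 p‖ := by
  intro ε hε
  have h1 : ∀ᶠ γ : ℤ × ℤ in l2, ∀ p ∈ H1 γ.1,
      ∃ h ∈ H1 (γ.1 + c), ‖jj sg (g * p - h)‖ ≤ ε * ‖jj sg p‖ :=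
    tendsto_fst.eventually (hg ε hε)
  filter_upwards [h1] with γ h1 p hp
  obtain ⟨m, n⟩ := γ
  obtain ⟨u, hu, rfl⟩ := exists_cols hp
  choose w hw hw' using fun b => h1 (u b) (hu b)
  have hmn : ((m, n) + (c, 0) : ℤ × ℤ) = (m + c, n) := by simp
  rw [hmn]
  refine ⟨∑ b, pu1 (w b) * pu2 (e1 n b), ?_, ?_⟩
  · exact Submodule.sum_mem _ fun b _ => prod_mem_H2 (hw b) (Submodule.subset_span ⟨_, rfl⟩)
  · have h2 : pu1 g * ∑ b, pu1 (u b) * pu2 (e1 n b) - ∑ b, pu1 (w b) * pu2 (e1 n b) =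
        ∑ b, pu1 (g * u b - w b) * pu2 (e1 n b) := by
      rw [Finset.mul_sum, ← Finset.sum_sub_distrib]
      refine Finset.sum_congr rfl fun b _ => ?_
      ext p
      simp only [ContinuousMap.mul_apply, pu1_apply, pu2_apply, ContinuousMap.sub_apply]
      ring
    rw [h2]
    have h3 : ‖jj sg2 (∑ b, pu1 (g * u b - w b) * pu2 (e1 n b))‖ ^ 2 ≤
        (ε * ‖jj sg2 (∑ b, pu1 (u b) * pu2 (e1 n b))‖) ^ 2 := by
      rw [mul_pow, norm_cols, norm_cols, Finset.mul_sum]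
      refine Finset.sum_le_sum fun b _ => ?_
      rw [← mul_pow]
      exact pow_le_pow_left₀ (norm_nonneg _) (hw' b) 2
    exact (pow_le_pow_iff_left₀ (norm_nonneg _) (by positivity) two_ne_zero).1 h3

/-- exchange of the variables -/
def sw (f : C(S9 × S9, ℂ)) : C(S9 × S9, ℂ) := ⟨fun p => f p.swap, f.continuous.comp continuous_swap⟩

@[simp] theorem sw_apply (f : C(S9 × S9, ℂ)) (p : S9 × S9) : sw f p = f p.swap := rfl

theorem norm_sw (f : C(S9 × S9, ℂ)) : ‖jj sg2 (sw f)‖ = ‖jj sg2 f‖ := by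
  have h : ‖jj sg2 (sw f)‖ ^ 2 = ‖jj sg2 f‖ ^ 2 := by
    rw [norm_jj, norm_jj]
    have := (Measure.measurePreserving_swap (μ := sg) (ν := sg)).integral_comp
      (MeasurableEquiv.prodComm).measurableEmbedding (fun p => ‖f p‖ ^ 2)
    exact this
  exact (pow_left_inj₀ (norm_nonneg _) (norm_nonneg _) two_ne_zero).1 h

theorem sw_mem {m n : ℤ} {f : C(S9 × S9, ℂ)} (hf : f ∈ H2 (m, n)) : sw f ∈ H2 (n, m) := by
  obtain ⟨v, rfl⟩ := (Submodule.mem_span_range_iff_exists_fun ℂ).1 hf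
  have : sw (∑ a, v a • e2 (m, n) a) = ∑ a : Nn m × Nn n, v a • e2 (n, m) (a.2, a.1) := by
    ext p
    simp only [sw_apply, ContinuousMap.coe_sum, Finset.sum_apply, ContinuousMap.coe_smul,
      Pi.smul_apply, smul_eq_mul, e2, ContinuousMap.mul_apply, pu1_apply, pu2_apply, Prod.fst_swap,
      Prod.snd_swap]
    refine Finset.sum_congr rfl fun a _ => ?_
    ring
  rw [this]
  exact Submodule.sum_mem _ fun a _ => Submodule.smul_mem _ _ (Submodule.subset_span ⟨_, rfl⟩)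

theorem appr2_2 {g : C(S9, ℂ)} {c : ℤ} (hg : Appr g c) : ∀ ε > 0, ∀ᶠ γ : ℤ × ℤ in l2,
    ∀ p ∈ H2 γ, ∃ h ∈ H2 (γ + (0, c)), ‖jj sg2 (pu2 g * p - h)‖ ≤ ε * ‖jj sg2 p‖ := by
  intro ε hε
  have h1 := appr2_1 hg ε hε
  have h2 : Tendsto Prod.swap l2 l2 := tendsto_snd.prodMk tendsto_fst
  filter_upwards [h2.eventually h1] with γ h1 p hp
  obtain ⟨m, n⟩ := γ
  obtain ⟨h, hh, hh'⟩ := h1 (sw p) (sw_mem hp)
  refine ⟨sw h, ?_, ?_⟩
  · have h3 : ((m, n) : ℤ × ℤ).swap + (c, 0) = (n + c, m) := by simp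
    rw [h3] at hh
    have h4 : ((m, n) + (0, c) : ℤ × ℤ) = (m, n + c) := by simp
    rw [h4]
    exact sw_mem hh
  · rw [norm_sw p] at hh'
    rw [← norm_sw] at hh'
    have h5 : sw (pu1 g * sw p - h) = pu2 g * p - sw h := by
      ext q
      simp
    rwa [h5] at hh'

/-- weight spaces -/
def W2 (m : ℤ × ℤ) : Submodule ℂ C(S9 × S9, ℂ) where
  carrier := {f | ∀ (l l' : Circle) (z y : S9),
    f (rot l z, rot l' y) = (l : ℂ) ^ m.1 * (l' : ℂ) ^ m.2 * f (z, y)}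
  add_mem' := by
    intro f g hf hg l l' z y
    rw [ContinuousMap.add_apply, ContinuousMap.add_apply, hf, hg, mul_add]
  zero_mem' := by
    intro l l' z y
    simp
  smul_mem' := by
    intro c f hf l l' z y
    rw [ContinuousMap.smul_apply, ContinuousMap.smul_apply, hf, smul_eq_mul, smul_eq_mul]
    ring

theorem W2_mul (a b : ℤ × ℤ) (f g : C(S9 × S9, ℂ)) (hf : f ∈ W2 a) (hg : g ∈ W2 b) :
    f * g ∈ W2 (a + b) := by
  intro l l' z y
  rw [ContinuousMap.mul_apply, ContinuousMap.mul_apply, hf, hg, Prod.fst_add, Prod.snd_add,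
    zpow_add₀ (Circle.coe_ne_zero l), zpow_add₀ (Circle.coe_ne_zero l')]
  ring

theorem W2_star {a : ℤ × ℤ} {f : C(S9 × S9, ℂ)} (hf : f ∈ W2 a) : star f ∈ W2 (-a) := by
  intro l l' z y
  rw [ContinuousMap.star_apply, ContinuousMap.star_apply, hf, RCLike.star_def, map_mul, map_mul,
    conj_zpow, conj_zpow]
  rfl

theorem W2_one : (1 : C(S9 × S9, ℂ)) ∈ W2 0 := by
  intro l l' z y
  simp

theorem pu1_mem_W2 {f : C(S9, ℂ)} {m : ℤ} (hf : f ∈ W1 m) : pu1 f ∈ W2 (m, 0) := by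
  intro l l' z y
  simp [hf l z]

theorem pu2_mem_W2 {f : C(S9, ℂ)} {m : ℤ} (hf : f ∈ W1 m) : pu2 f ∈ W2 (0, m) := by
  intro l l' z y
  simp [hf l' y]

theorem e2_mem_W2 (m : ℤ × ℤ) (a : Nn m.1 × Nn m.2) : e2 m a ∈ W2 m := by
  have := W2_mul _ _ _ _ (pu1_mem_W2 (e1_mem_W1 m.1 a.1)) (pu2_mem_W2 (e1_mem_W1 m.2 a.2))
  unfold e2
  simpa using this

theorem sg2_rot (l l' : Circle) (F : S9 × S9 → ℂ) (hF : Continuous F) :
    ∫ p, F (rot l p.1, rot l' p.2) ∂sg2 = ∫ p, F p ∂sg2 := by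
  have i1 : Integrable (fun p : S9 × S9 => F (rot l p.1, rot l' p.2)) sg2 := by
    apply integrable_cont
    exact hF.comp (((continuous_rot l).comp continuous_fst).prodMk
      ((continuous_rot l').comp continuous_snd))
  rw [integral_prod _ i1, integral_prod _ (integrable_cont sg2 hF)]
  have h1 : ∀ z, ∫ y, F (rot l z, rot l' y) ∂sg = ∫ y, F (rot l z, y) ∂sg := by
    intro z
    exact sg_rot l' (fun y => F (rot l z, y)) (by fun_prop)
  simp only [h1]
  refine sg_rot l (fun z => ∫ y, F (z, y) ∂sg) ?_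
  have h2 := continuous_parametric_integral_of_continuous (μ := sg) (f := fun z y => F (z, y))
    (s := Set.univ) (by exact hF) isCompact_univ
  simpa using h2

theorem W2_orth (a b : ℤ × ℤ) (f g : C(S9 × S9, ℂ)) (hab : a ≠ b) (hf : f ∈ W2 a) (hg : g ∈ W2 b) :
    ⟪jj sg2 f, jj sg2 g⟫_ℂ = 0 := by
  rw [inner_jj]
  have key : ∀ l l' : Circle, (l : ℂ) ^ (b.1 - a.1) * (l' : ℂ) ^ (b.2 - a.2) = -1 →
      ∫ p, conj (f p) * g p ∂sg2 = 0 := by
    intro l l' hl
    have h1 := sg2_rot l l' (fun z => conj (f z) * g z) (by fun_prop)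
    have h2 : ∀ p : S9 × S9, conj (f (rot l p.1, rot l' p.2)) * g (rot l p.1, rot l' p.2) =
        - (conj (f p) * g p) := by
      intro p
      rw [hf, hg, map_mul, map_mul, conj_zpow, conj_zpow]
      have h4 : ((l : ℂ) ^ (-a.1) * (l : ℂ) ^ b.1) * ((l' : ℂ) ^ (-a.2) * (l' : ℂ) ^ b.2) = -1 := by
        rw [← zpow_add₀ (Circle.coe_ne_zero _), ← zpow_add₀ (Circle.coe_ne_zero _),
          show -a.1 + b.1 = b.1 - a.1 by ring, show -a.2 + b.2 = b.2 - a.2 by ring]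
        exact hl
      linear_combination (conj (f (p.1, p.2)) * g (p.1, p.2)) * h4
    simp only [h2] at h1
    rw [integral_neg] at h1
    exact self_eq_neg.1 h1.symm
  by_cases h : a.1 = b.1
  · have h' : b.2 - a.2 ≠ 0 := by
      intro h'
      exact hab (Prod.ext h (by linarith))
    refine key 1 (Circle.exp (Real.pi / ((b.2 - a.2 : ℤ) : ℝ))) ?_
    rw [exp_zpow _ h']
    simp
  · have h' : b.1 - a.1 ≠ 0 := sub_ne_zero.2 (Ne.symm h)
    refine key (Circle.exp (Real.pi / ((b.1 - a.1 : ℤ) : ℝ))) 1 ?_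
    rw [exp_zpow _ h']
    simp

/-- quantization of the product of two spheres -/
def Q2 : Quant (ℤ × ℤ) C(S9 × S9, ℂ) :=
  Quant.ofRep (jj sg2) (jj_norm sg2) (jj_adj sg2) l2 (by unfold l2; infer_instance)
    (fun c => by
      have h1 : Tendsto (fun x : ℤ => x + c.1) atTop atTop :=
        tendsto_atTop_add_const_right _ _ tendsto_id
      have h2 : Tendsto (fun x : ℤ => x + c.2) atTop atTop :=
        tendsto_atTop_add_const_right _ _ tendsto_id
      exact h1.prodMap h2) W2 W2_mul W2_star W2_one W2_orth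
    (fun m => Nn m.1 × Nn m.2) (fun _ => inferInstance) (fun _ => inferInstance) e2 e2_orthonormal
    e2_mem_W2
    ((Set.range (fun i => pu1 (zc i)) ∪ Set.range (fun i => pu2 (zc i))) ∪
      star (Set.range (fun i => pu1 (zc i)) ∪ Set.range (fun i => pu2 (zc i)))) (by
      rintro g ((⟨i, rfl⟩ | ⟨i, rfl⟩) | (⟨i, hi⟩ | ⟨i, hi⟩))
      · exact ⟨(1, 0), appr2_1 (appr_zc i)⟩
      · exact ⟨(0, 1), appr2_2 (appr_zc i)⟩
      · have : g = pu1 (star (zc i)) := by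
          have h : star (pu1 (zc i)) = pu1 (star (zc i)) := rfl
          rw [← h]
          beta_reduce at hi
          rw [hi, star_star]
        subst this
        exact ⟨(-1, 0), appr2_1 (appr_star_zc i)⟩
      · have : g = pu2 (star (zc i)) := by
          have h : star (pu2 (zc i)) = pu2 (star (zc i)) := rfl
          rw [← h]
          beta_reduce at hi
          rw [hi, star_star]
        subst this
        exact ⟨(0, -1), appr2_2 (appr_star_zc i)⟩) (by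
      intro f
      refine dense_of_sep _ ?_ f
      intro x y hxy
      by_cases h1 : x.1 = y.1
      · have : ∃ i, x.2.1 i ≠ y.2.1 i := by
          by_contra h
          push Not at h
          exact hxy (Prod.ext h1 (Subtype.ext (funext h)))
        obtain ⟨i, hi⟩ := this
        exact ⟨pu2 (zc i), Or.inr ⟨i, rfl⟩, hi⟩
      · have : ∃ i, x.1.1 i ≠ y.1.1 i := by
          by_contra h
          push Not at h
          exact h1 (Subtype.ext (funext h))
        obtain ⟨i, hi⟩ := this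
        exact ⟨pu1 (zc i), Or.inl ⟨i, rfl⟩, hi⟩)

end

end Pool.Agent.Work.MP_2a78db_gt.D2
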