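import Pool.Agent.Work.MP_2a78db_gt.D2C
import Pool.Agent.Work.MP_2a78db_gt.D2F

/-!
Finite additivity, direct sums over an index set and the Koszul relation.
-/

namespace Pool.Agent.Work.MP_2a78db_gt.D2

open scoped Matrix.Norms.L2Operator Kronecker
open Matrix Filter Topology

noncomputable section

set_option linter.unusedSectionVars false
set_option linter.unusedSimpArgs false

namespace Quant

variable {Γ A : Type} [AddCommGroup Γ] [NormedCommRing A] [StarRing A] [NormedAlgebra ℂ A]
  {Q : Quant Γ A}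
variable {κ ι μ F G : Type} [Fintype κ] [DecidableEq κ] [Fintype ι] [DecidableEq ι]
  [Fintype μ] [DecidableEq μ] [Fintype F] [DecidableEq F] [Fintype G] [DecidableEq G]

theorem HW.shift {a : κ → Γ} {b : ι → Γ} {M : Matrix κ ι A} (h : Q.HW a b M) (c : Γ) :
    Q.HW (fun k => c + a k) (fun i => c + b i) M := by
  intro k i
  have := h k i
  rwa [← add_sub_add_left_eq_sub _ _ c] at this

theorem Pr.shift {a : ι → Γ} {P : Matrix ι ι A} (h : Q.Pr a P) (c : Γ) :
    Q.Pr (fun i => c + a i) P := ⟨h.hw.shift c, h.mul, h.star⟩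

theorem Pr.zero {a : ι → Γ} : Q.Pr a (0 : Matrix ι ι A) := ⟨HW.zero, by simp, by simp⟩

theorem Pr.one {a : ι → Γ} : Q.Pr a (1 : Matrix ι ι A) := ⟨HW.one, by simp, by simp⟩

theorem hh_zero (d : ι → Γ) : Q.hh d (0 : Matrix ι ι A) = 0 := by
  unfold hh
  rw [Q.T_zero, near_rank 0 0 (by simp) (by simp) (by simp) (by simp), Matrix.rank_zero]

theorem hh_one (d : ι → Γ) : Q.hh d (1 : Matrix ι ι A) = ∑ i, Fintype.card (Q.Ix (d i)) := by
  unfold hh
  rw [Q.T_one, near_rank 1 1 (by simp) (by simp) (by simp) (by simp), Matrix.rank_one,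
    Fintype.card_sigma]

theorem Pr.sum {J : Type} {s : Finset J} {a : ι → Γ} {P : J → Matrix ι ι A}
    (hP : ∀ j ∈ s, Q.Pr a (P j)) (orth : ∀ i ∈ s, ∀ j ∈ s, i ≠ j → P i * P j = 0) :
    Q.Pr a (∑ j ∈ s, P j) := by
  refine ⟨HW.sum fun j hj => (hP j hj).hw, ?_, ?_⟩
  · rw [Finset.sum_mul]
    refine Finset.sum_congr rfl fun i hi => ?_
    rw [Finset.mul_sum, Finset.sum_eq_single i]
    · exact (hP i hi).mul
    · intro j hj hji
      exact orth i hi j hj hji.symm
    · intro h; exact absurd hi h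
  · rw [conjTranspose_sum]
    exact Finset.sum_congr rfl fun j hj => (hP j hj).star

theorem hh_sum {J : Type} (s : Finset J) {a : ι → Γ} {P : J → Matrix ι ι A}
    (hP : ∀ j ∈ s, Q.Pr a (P j)) (orth : ∀ i ∈ s, ∀ j ∈ s, i ≠ j → P i * P j = 0) :
    ∀ᶠ γ in Q.l, Q.hh (fun i => γ + a i) (∑ j ∈ s, P j) =
      ∑ j ∈ s, Q.hh (fun i => γ + a i) (P j) := by
  classical
  induction s using Finset.induction_on with
  | empty => simp [hh_zero]
  | insert j s hj ih =>
    have h1 := ih (fun i hi => hP i (Finset.mem_insert_of_mem hi))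
      (fun i hi k hk => orth i (Finset.mem_insert_of_mem hi) k (Finset.mem_insert_of_mem hk))
    have h2 : Q.Pr a (∑ j ∈ s, P j) := Pr.sum (fun i hi => hP i (Finset.mem_insert_of_mem hi))
      (fun i hi k hk => orth i (Finset.mem_insert_of_mem hi) k (Finset.mem_insert_of_mem hk))
    have h3 : P j * ∑ j ∈ s, P j = 0 := by
      rw [Finset.mul_sum]
      refine Finset.sum_eq_zero fun i hi => ?_
      refine orth j (Finset.mem_insert_self _ _) i (Finset.mem_insert_of_mem hi) ?_
      rintro rfl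
      exact hj hi
    filter_upwards [h1, hh_add (hP j (Finset.mem_insert_self _ _)) h2 h3] with γ h4 h5
    rw [Finset.sum_insert hj, Finset.sum_insert hj, h5, h4]

theorem HW.kron {a : κ → Γ} {b : ι → Γ} {u : F → Γ} {v : G → Γ} {M : Matrix F G A}
    {N : Matrix κ ι A} (hM : Q.HW u v M) (hN : Q.HW a b N) :
    Q.HW (fun p : F × κ => u p.1 + a p.2) (fun p : G × ι => v p.1 + b p.2) (M ⊗ₖ N) := by
  intro p q
  rw [kroneckerMap_apply]
  have := Q.W_mul (hM p.1 q.1) (hN p.2 q.2)
  rwa [← add_sub_add_comm] at this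

theorem HW.diagonal {u : F → Γ} (d : F → A) (hd : ∀ a, d a ∈ Q.W 0) :
    Q.HW u u (diagonal d) := by
  intro a b
  by_cases h : a = b
  · subst h
    simpa using hd a
  · rw [diagonal_apply_ne _ h]
    exact Submodule.zero_mem _

theorem Pr.kron {a : ι → Γ} {u : F → Γ} {M : Matrix F F A} {N : Matrix ι ι A}
    (hM : Q.Pr u M) (hN : Q.Pr a N) : Q.Pr (fun p : F × ι => u p.1 + a p.2) (M ⊗ₖ N) := by
  refine ⟨hM.hw.kron hN.hw, ?_, ?_⟩
  · rw [← mul_kronecker_mul, hM.mul, hN.mul]
  · rw [conjTranspose_kronecker, hM.star, hN.star]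

theorem Pr.diag {u : F → Γ} (s : F → Prop) [DecidablePred s] :
    Q.Pr u (diagonal fun a => if s a then (1 : A) else 0) := by
  refine ⟨HW.diagonal _ fun a => ?_, ?_, ?_⟩
  · split_ifs
    · exact Q.W_one
    · exact Submodule.zero_mem _
  · rw [diagonal_mul_diagonal]
    congr 1
    funext a
    split_ifs <;> simp
  · rw [diagonal_conjTranspose]
    congr 1
    funext a
    simp only [Pi.star_apply]
    split_ifs <;> simp

/-- one block -/
theorem hh_single {u : F → Γ} {a : ι → Γ} {P : Matrix ι ι A} (hP : Q.Pr a P) (f : F) :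
    ∀ᶠ γ in Q.l, Q.hh (fun p : F × ι => γ + (u p.1 + a p.2))
      ((diagonal fun b => if b = f then (1 : A) else 0) ⊗ₖ P) =
      Q.hh (fun i => γ + (u f + a i)) P := by
  set X : Matrix ι (F × ι) A := fun i p => if p.1 = f then P i p.2 else 0 with hX
  have hX1 : Q.HW (fun i => u f + a i) (fun p : F × ι => u p.1 + a p.2) X := by
    intro i p
    simp only [hX]
    split_ifs with h
    · have := hP.hw i p.2
      rw [h]
      rwa [← add_sub_add_left_eq_sub _ _ (u f)] at this
    · exact Submodule.zero_mem _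
  have h1 : Xᴴ * X = (diagonal fun b => if b = f then (1 : A) else 0) ⊗ₖ P := by
    ext ⟨b, i⟩ ⟨c, k⟩
    rw [Matrix.mul_apply, kroneckerMap_apply]
    simp only [conjTranspose_apply, hX]
    by_cases hb : b = f
    · by_cases hc : c = f
      · subst hb
        subst hc
        simp only [if_true, diagonal_apply_eq, one_mul]
        have : (Pᴴ * P) i k = P i k := by rw [hP.star, hP.mul]
        rw [← this, Matrix.mul_apply]
        simp only [conjTranspose_apply]
      · simp only [hb, hc, if_true, if_false, mul_zero, Finset.sum_const_zero]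
        rw [diagonal_apply_ne _ (Ne.symm hc), zero_mul]
    · simp only [hb, if_false, star_zero, zero_mul, Finset.sum_const_zero]
      by_cases hc : b = c
      · subst hc
        simp [hb]
      · rw [diagonal_apply_ne _ hc, zero_mul]
  have h2 : X * Xᴴ = P := by
    ext i k
    rw [Matrix.mul_apply, Fintype.sum_prod_type]
    simp only [conjTranspose_apply, hX]
    rw [Finset.sum_eq_single f]
    · simp only [if_true]
      have : (P * Pᴴ) i k = P i k := by rw [hP.star, hP.mul]
      rw [← this, Matrix.mul_apply]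
      simp only [conjTranspose_apply]
    · intro b _ hb
      simp [hb]
    · simp
  exact hh_eq ((Pr.diag (fun b => b = f)).kron hP) (hP.shift (u f)) X Xᴴ hX1 hX1.star h1 h2

/-- direct sums -/
theorem hh_kron {u : F → Γ} {a : ι → Γ} {P : Matrix ι ι A} (hP : Q.Pr a P) (s : F → Prop)
    [DecidablePred s] :
    ∀ᶠ γ in Q.l, Q.hh (fun p : F × ι => γ + (u p.1 + a p.2))
      ((diagonal fun b => if s b then (1 : A) else 0) ⊗ₖ P) =
      ∑ f, if s f then Q.hh (fun i => γ + (u f + a i)) P else 0 := by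
  have h1 : (diagonal fun b => if s b then (1 : A) else 0) ⊗ₖ P =
      ∑ f ∈ Finset.univ.filter s, (diagonal fun b => if b = f then (1 : A) else 0) ⊗ₖ P := by
    ext ⟨b, i⟩ ⟨c, k⟩
    rw [Matrix.sum_apply]
    simp only [kroneckerMap_apply, diagonal_apply]
    by_cases hbc : b = c
    · subst hbc
      simp only [if_true]
      by_cases hb : s b
      · rw [Finset.sum_eq_single b]
        · simp [hb]
        · intro f _ hf; simp [Ne.symm hf]
        · intro h; exact absurd (Finset.mem_filter.2 ⟨Finset.mem_univ _, hb⟩) h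
      · rw [if_neg hb, zero_mul]
        symm
        refine Finset.sum_eq_zero fun f hf => ?_
        have : b ≠ f := by
          rintro rfl
          exact hb (Finset.mem_filter.1 hf).2
        simp [this]
    · simp [hbc]
  have h2 := hh_sum (Q := Q) (a := fun p : F × ι => u p.1 + a p.2) (Finset.univ.filter s)
    (P := fun f => (diagonal fun b => if b = f then (1 : A) else 0) ⊗ₖ P)
    (fun f _ => (Pr.diag (fun b => b = f)).kron hP) (fun f _ g _ hfg => by
      rw [← mul_kronecker_mul, diagonal_mul_diagonal]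
      have : (diagonal fun i => (if i = f then (1 : A) else 0) * if i = g then 1 else 0) = 0 := by
        ext b c
        simp only [diagonal_apply, Matrix.zero_apply]
        split_ifs with h1 h2 h3
        · subst h2; exact absurd h3 hfg
        all_goals simp
      rw [this]
      simp)
  have h3 : ∀ᶠ γ in Q.l, ∀ f : F, Q.hh (fun p : F × ι => γ + (u p.1 + a p.2))
      ((diagonal fun b => if b = f then (1 : A) else 0) ⊗ₖ P) =
      Q.hh (fun i => γ + (u f + a i)) P := by
    rw [Filter.eventually_all]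
    exact fun f => hh_single hP f
  filter_upwards [h2, h3] with γ h2 h3
  rw [h1, h2, Finset.sum_filter]
  refine Finset.sum_congr rfl fun f _ => ?_
  rw [h3 f]

end Quant

/-! ### sums over the Fock index set -/

/-- sum over the Fock index set -/
def SI {M : Type*} [AddCommMonoid M] (n : ℕ) (f : ℕ → M) : M := ∑ a : Idx n, f (deg n a)

theorem SI_succ {M : Type*} [AddCommMonoid M] (n : ℕ) (f : ℕ → M) :
    SI (n + 1) f = SI n f + SI n (fun k => f (k + 1)) :=
  Fintype.sum_sum_type (fun a : Idx n ⊕ Idx n => f (deg (n + 1) a))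

theorem SI_zero {M : Type*} [AddCommMonoid M] (f : ℕ → M) : SI 0 f = f 0 := by
  change ∑ a : Unit, f 0 = f 0
  simp

theorem sum_idx_five (f : ℕ → ℤ) :
    ∑ a : Idx 5, f (deg 5 a) = f 0 + 5 * f 1 + 10 * f 2 + 10 * f 3 + 5 * f 4 + f 5 := by
  change SI 5 f = _
  simp only [SI_succ, SI_zero]
  ring_nf

namespace Quant

variable {Γ A : Type} [AddCommGroup Γ] [NormedCommRing A] [StarRing A] [NormedAlgebra ℂ A]
  {Q : Quant Γ A}
variable {ι : Type} [Fintype ι] [DecidableEq ι]

theorem HW_cr (c : Γ) (z : Fin 5 → A) (hz : ∀ i, z i ∈ Q.W c) :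
    Q.HW (fun a => deg 5 a • c) (fun a => deg 5 a • c) (cr 5 z) := by
  intro a b
  by_cases h : deg 5 a = deg 5 b + 1
  · have := cr_mem (Q.W c) 5 z hz a b
    beta_reduce
    rw [h, add_smul, one_smul, add_sub_cancel_left]
    exact this
  · rw [cr_deg 5 z a b h]
    exact Submodule.zero_mem _

theorem HW_an (c : Γ) (z : Fin 5 → A) (hz : ∀ i, z i ∈ Q.W (-c)) :
    Q.HW (fun a => deg 5 a • c) (fun a => deg 5 a • c) (an 5 z) := by
  intro a b
  by_cases h : deg 5 b = deg 5 a + 1
  · have := an_mem (Q.W (-c)) 5 z hz a b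
    beta_reduce
    rw [h, add_smul, one_smul, sub_add_cancel_left]
    exact this
  · rw [an_deg 5 z a b h]
    exact Submodule.zero_mem _

theorem Pr_dp {u : Idx 5 → Γ} (s : ℕ → Prop) [DecidablePred s] :
    Q.Pr u (dp 5 s : Matrix (Idx 5) (Idx 5) A) := Pr.diag (fun a => s (deg 5 a))

/-- Koszul relation -/
theorem koszul (c : Γ) (z : Fin 5 → A) (hz : ∀ i, z i ∈ Q.W c) (hz1 : ∑ i, star (z i) * z i = 1)
    {a : ι → Γ} {P : Matrix ι ι A} (hP : Q.Pr a P) :
    ∀ᶠ γ in Q.l,
      (Q.hh (fun i => γ + (0 • c + a i)) P : ℤ) - 5 * Q.hh (fun i => γ + (1 • c + a i)) P +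
      10 * Q.hh (fun i => γ + (2 • c + a i)) P - 10 * Q.hh (fun i => γ + (3 • c + a i)) P +
      5 * Q.hh (fun i => γ + (4 • c + a i)) P - Q.hh (fun i => γ + (5 • c + a i)) P = 0 := by
  set C : Matrix (Idx 5) (Idx 5) A := cr 5 z + an 5 (fun i => star (z i)) with hC
  have hCC : C * C = 1 := by
    have h := car 5 z (fun i => star (z i))
    rw [hz1, one_smul] at h
    rw [hC, Matrix.add_mul, Matrix.mul_add, Matrix.mul_add, cr_sq, an_sq, zero_add, add_zero,
      add_comm, h]
  have hCw : Q.HW (fun a => deg 5 a • c) (fun a => deg 5 a • c) C :=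
    (HW_cr c z hz).add (HW_an c _ fun i => Q.W_star (hz i))
  have hc1 : C * dp 5 Even = dp 5 (fun k => ¬ Even k) * C := by
    rw [hC, Matrix.add_mul, Matrix.mul_add, cr_dp 5 z Even (fun k => ¬ Even k)
      (fun k => by simp [Nat.even_add_one]), an_dp 5 _ (fun k => ¬ Even k) Even
      (fun k => by simp [Nat.even_add_one])]
  have hev : Q.Pr (fun a => deg 5 a • c) (dp 5 Even : Matrix (Idx 5) (Idx 5) A) := Pr_dp Even
  have hod : Q.Pr (fun a => deg 5 a • c) (dp 5 (fun k => ¬ Even k) : Matrix (Idx 5) (Idx 5) A) :=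
    Pr_dp _
  have h1 := hh_eq (hev.kron hP) (hod.kron hP)
    ((C * dp 5 Even) ⊗ₖ P) ((dp 5 Even * C) ⊗ₖ P)
    ((hCw.mul hev.hw).kron hP.hw) ((hev.hw.mul hCw).kron hP.hw) (by
      rw [← mul_kronecker_mul, hP.mul]
      congr 1
      rw [Matrix.mul_assoc, ← Matrix.mul_assoc C C, hCC, Matrix.one_mul, dp_mul]) (by
      rw [← mul_kronecker_mul, hP.mul]
      congr 1
      rw [← Matrix.mul_assoc, Matrix.mul_assoc C, dp_mul, hc1, Matrix.mul_assoc, hCC,
        Matrix.mul_one])
  have h2 := hh_kron (u := fun a => deg 5 a • c) hP (fun a => Even (deg 5 a))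
  have h3 := hh_kron (u := fun a => deg 5 a • c) hP (fun a => ¬ Even (deg 5 a))
  filter_upwards [h1, h2, h3] with γ h1 h2 h3
  unfold dp at h1
  rw [h2, h3] at h1
  have h4 := sum_idx_five (fun k => ((if Even k then Q.hh (fun i => γ + (k • c + a i)) P else 0 : ℕ) : ℤ))
  have h5 := sum_idx_five (fun k => ((if ¬ Even k then Q.hh (fun i => γ + (k • c + a i)) P else 0 : ℕ) : ℤ))
  have h6 : ((∑ f : Idx 5, if Even (deg 5 f) then Q.hh (fun i => γ + (deg 5 f • c + a i)) P else 0 : ℕ) : ℤ)
      = ((∑ f : Idx 5, if ¬ Even (deg 5 f) then Q.hh (fun i => γ + (deg 5 f • c + a i)) P else 0 : ℕ) : ℤ) := by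
    exact_mod_cast h1
  rw [Nat.cast_sum, Nat.cast_sum, h4, h5] at h6
  have e1 : ¬ Even 1 := by decide
  have e2 : Even 2 := by decide
  have e3 : ¬ Even 3 := by decide
  have e4 : Even 4 := by decide
  have e5 : ¬ Even 5 := by decide
  simp only [Even.zero, e1, e2, e3, e4, e5, if_true, if_false, not_true, not_false_iff,
    Nat.cast_zero, mul_zero, add_zero, zero_add] at h6
  linarith

end Quant

end

end Pool.Agent.Work.MP_2a78db_gt.D2
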