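import Pool.Agent.Work.MP_2a78db_gt.D2I
import Pool.Agent.Work.MP_2a78db_gt.D2K

/-!
Rank functions of symbols depending on one of two variables, and of complex conjugates.
-/

namespace Pool.Agent.Work.MP_2a78db_gt.D2

open scoped Matrix.Norms.L2Operator InnerProductSpace Kronecker
open Matrix MeasureTheory Filter Topology ComplexConjugate

noncomputable section

set_option linter.unusedSectionVars false
set_option linter.unusedSimpArgs false

section ampl

variable {N M C : Type} [Fintype N] [DecidableEq N] [Fintype M] [DecidableEq M]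
  [Fintype C] [DecidableEq C]

/-- amplification -/
def ampl (e : M ≃ N × C) : Matrix N N ℂ →⋆ₙₐ[ℂ] Matrix M M ℂ where
  toFun B := (B ⊗ₖ (1 : Matrix C C ℂ)).submatrix e e
  map_smul' := by
    intro c B
    rw [smul_kronecker]
    rfl
  map_zero' := by
    rw [zero_kronecker]
    rfl
  map_add' := by
    intro B B'
    rw [add_kronecker]
    rfl
  map_mul' := by
    intro B B'
    rw [submatrix_mul_equiv, ← mul_kronecker_mul, Matrix.one_mul]
  map_star' := by
    intro B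
    rw [star_eq_conjTranspose, star_eq_conjTranspose, conjTranspose_submatrix,
      conjTranspose_kronecker, conjTranspose_one]

theorem ampl_apply (e : M ≃ N × C) (B : Matrix N N ℂ) :
    ampl e B = (B ⊗ₖ (1 : Matrix C C ℂ)).submatrix e e := rfl

theorem ampl_trace (e : M ≃ N × C) (B : Matrix N N ℂ) :
    (ampl e B).trace = B.trace * Fintype.card C := by
  rw [ampl_apply]
  have : ((B ⊗ₖ (1 : Matrix C C ℂ)).submatrix e e).trace = (B ⊗ₖ (1 : Matrix C C ℂ)).trace := by
    simp only [Matrix.trace, diag_apply, submatrix_apply]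
    exact Equiv.sum_comp e (fun x => (B ⊗ₖ (1 : Matrix C C ℂ)) x x)
  rw [this, trace_kronecker, trace_one]

theorem near_ampl (e : M ≃ N × C) (T : Matrix N N ℂ) (hT : Tᴴ = T)
    (h : ‖near T - T‖ ≤ 1 / 32) : (near (ampl e T)).rank = (near T).rank * Fintype.card C := by
  have h1 : ampl e (near T) * ampl e (near T) = ampl e (near T) := by
    rw [← map_mul, near_mul]
  have h2 : (ampl e (near T))ᴴ = ampl e (near T) := by
    rw [← star_eq_conjTranspose, ← map_star, star_eq_conjTranspose, near_star]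
  have h3 : (ampl e T)ᴴ = ampl e T := by
    rw [← star_eq_conjTranspose, ← map_star, star_eq_conjTranspose, hT]
  have h4 : ‖ampl e (near T) - ampl e T‖ ≤ 1 / 32 := by
    rw [← map_sub]
    exact (NonUnitalStarAlgHom.norm_apply_le (ampl e) _).trans h
  rw [near_rank _ _ h1 h2 h3 h4]
  have h5 := rank_eq_trace _ h1
  rw [ampl_trace, ← rank_eq_trace _ (near_mul T)] at h5
  exact_mod_cast h5

end ampl

section cnj

variable {N : Type} [Fintype N] [DecidableEq N]

theorem norm_toLp_conj (v : N → ℂ) :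
    ‖WithLp.toLp 2 (fun i => conj (v i))‖ = ‖WithLp.toLp 2 v‖ := by
  rw [EuclideanSpace.norm_eq, EuclideanSpace.norm_eq]
  simp

theorem norm_conj_le (B : Matrix N N ℂ) : ‖B.map conj‖ ≤ ‖B‖ := by
  refine opNorm_le _ _ (norm_nonneg _) fun v => ?_
  have h1 : (B.map conj) *ᵥ v = fun i => conj ((B *ᵥ (fun j => conj (v j))) i) := by
    funext i
    simp [Matrix.mulVec, dotProduct, map_sum]
  rw [h1, norm_toLp_conj]
  refine (l2_opNorm_mulVec B (WithLp.toLp 2 (fun j => conj (v j)))).trans ?_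
  rw [norm_toLp_conj]

theorem near_conj (T : Matrix N N ℂ) (hT : Tᴴ = T)
    (h : ‖near T - T‖ ≤ 1 / 32) : (near (T.map conj)).rank = (near T).rank := by
  have h0 : ∀ B C : Matrix N N ℂ, (B * C).map conj = B.map conj * C.map conj := by
    intro B C
    exact Matrix.map_mul (f := (starRingEnd ℂ))
  have h0' : ∀ B : Matrix N N ℂ, (B.map conj)ᴴ = (Bᴴ).map conj := by
    intro B
    ext i j
    simp
  have h1 : (near T).map conj * (near T).map conj = (near T).map conj := by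
    rw [← h0, near_mul]
  have h2 : ((near T).map conj)ᴴ = (near T).map conj := by
    rw [h0', near_star]
  have h3 : (T.map conj)ᴴ = T.map conj := by
    rw [h0', hT]
  have h4 : ‖(near T).map conj - T.map conj‖ ≤ 1 / 32 := by
    have : (near T).map conj - T.map conj = (near T - T).map conj := by
      ext i j
      simp
    rw [this]
    exact (norm_conj_le _).trans h
  rw [near_rank _ _ h1 h2 h3 h4]
  have h5 := rank_eq_trace _ h1
  have h6 : ((near T).map conj).trace = conj ((near T).trace) := by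
    simp [Matrix.trace, map_sum]
  rw [h6, ← rank_eq_trace _ (near_mul T)] at h5
  simp only [map_natCast] at h5
  exact_mod_cast h5

end cnj

/-! ### Symbols depending on one variable -/

variable {ι : Type} [Fintype ι] [DecidableEq ι]

/-- rearrangement of indices -/
def ee1 (d : ι → ℤ) (M : ℤ) : (Σ i, (Nn (d i) × Nn M : Type)) ≃ (Σ i, (Nn (d i) : Type)) × Nn M where
  toFun p := (⟨p.1, p.2.1⟩, p.2.2)
  invFun p := ⟨p.1.1, (p.1.2, p.2)⟩
  left_inv p := rfl
  right_inv p := rfl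

/-- rearrangement of indices -/
def ee2 (d : ι → ℤ) (M : ℤ) : (Σ i, (Nn M × Nn (d i) : Type)) ≃ (Σ i, (Nn (d i) : Type)) × Nn M where
  toFun p := (⟨p.1, p.2.2⟩, p.2.1)
  invFun p := ⟨p.1.1, (p.2, p.1.2)⟩
  left_inv p := rfl
  right_inv p := rfl

theorem T2_pu1 (d : ι → ℤ) (M : ℤ) (P : Matrix ι ι C(S9, ℂ)) :
    Q2.T (fun i => (d i, M)) (fun i => (d i, M)) (P.map pu1) = ampl (ee1 d M) (Q1.T d d P) := by
  ext ⟨i, a, c⟩ ⟨j, b, c'⟩
  change ⟪jj sg2 (pu1 (e1 (d i) a) * pu2 (e1 M c)),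
    jj sg2 (pu1 (P i j) * (pu1 (e1 (d j) b) * pu2 (e1 M c')))⟫_ℂ =
    ⟪jj sg (e1 (d i) a), jj sg (P i j * e1 (d j) b)⟫_ℂ * (1 : Matrix (Nn M) (Nn M) ℂ) c c'
  have h1 : pu1 (P i j) * (pu1 (e1 (d j) b) * pu2 (e1 M c')) =
      pu1 (P i j * e1 (d j) b) * pu2 (e1 M c') := by
    ext p; simp [mul_assoc]
  rw [h1, inner_prod, orthonormal_iff_ite.1 (e1_orthonormal M), Matrix.one_apply]

theorem T2_pu2 (d : ι → ℤ) (M : ℤ) (P : Matrix ι ι C(S9, ℂ)) :
    Q2.T (fun i => (M, d i)) (fun i => (M, d i)) (P.map pu2) = ampl (ee2 d M) (Q1.T d d P) := by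
  ext ⟨i, c, a⟩ ⟨j, c', b⟩
  change ⟪jj sg2 (pu1 (e1 M c) * pu2 (e1 (d i) a)),
    jj sg2 (pu2 (P i j) * (pu1 (e1 M c') * pu2 (e1 (d j) b)))⟫_ℂ =
    ⟪jj sg (e1 (d i) a), jj sg (P i j * e1 (d j) b)⟫_ℂ * (1 : Matrix (Nn M) (Nn M) ℂ) c c'
  have h1 : pu2 (P i j) * (pu1 (e1 M c') * pu2 (e1 (d j) b)) =
      pu1 (e1 M c') * pu2 (P i j * e1 (d j) b) := by
    ext p; simp; ring
  rw [h1, inner_prod, orthonormal_iff_ite.1 (e1_orthonormal M), Matrix.one_apply, mul_comm]

theorem near_ev {w : ι → ℤ} {P : Matrix ι ι C(S9, ℂ)} (hP : Q1.Pr w P) :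
    ∀ᶠ m : ℤ in atTop, ‖near (Q1.T (fun i => m + w i) (fun i => m + w i) P) -
      Q1.T (fun i => m + w i) (fun i => m + w i) P‖ ≤ 1 / 32 :=
  Tendsto.eventually hP.near_ae (ge_mem_nhds (show (0 : ℝ) < 1 / 32 by norm_num))

theorem hh2_pu1 {w : ι → ℤ} {P : Matrix ι ι C(S9, ℂ)} (hP : Q1.Pr w P) :
    ∀ᶠ m : ℤ in atTop, ∀ M : ℤ, Q2.hh (fun i => (m, M) + (w i, 0)) (P.map pu1) =
      Q1.hh (fun i => m + w i) P * (Nn M).card := by
  filter_upwards [near_ev hP] with m hm M
  have h1 : (fun i => (m, M) + (w i, 0)) = fun i => (m + w i, M) := by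
    funext i; simp
  rw [h1]
  unfold Quant.hh
  rw [T2_pu1 (fun i => m + w i) M P]
  refine (near_ampl _ _ (hP.T_star _) hm).trans ?_
  rw [Fintype.card_coe]

theorem hh2_pu2 {w : ι → ℤ} {P : Matrix ι ι C(S9, ℂ)} (hP : Q1.Pr w P) :
    ∀ᶠ m : ℤ in atTop, ∀ M : ℤ, Q2.hh (fun i => (M, m) + (0, w i)) (P.map pu2) =
      Q1.hh (fun i => m + w i) P * (Nn M).card := by
  filter_upwards [near_ev hP] with m hm M
  have h1 : (fun i => (M, m) + (0, w i)) = fun i => (M, m + w i) := by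
    funext i; simp
  rw [h1]
  unfold Quant.hh
  rw [T2_pu2 (fun i => m + w i) M P]
  refine (near_ampl _ _ (hP.T_star _) hm).trans ?_
  rw [Fintype.card_coe]

/-! ### Complex conjugation -/

/-- composition with the conjugation of the sphere -/
def cjc (f : C(S9, ℂ)) : C(S9, ℂ) := ⟨fun z => f (cj z), f.continuous.comp continuous_cj⟩

theorem cj_cj (z : S9) : cj (cj z) = z := by
  apply Subtype.ext
  funext i
  simp [cj]

theorem e1_cj (m : ℤ) (a : Nn m) (z : S9) : e1 m a (cj z) = conj (e1 m a z) := by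
  simp only [e1, ContinuousMap.coe_smul, Pi.smul_apply, smul_eq_mul, mc_apply, map_mul,
    Complex.conj_ofReal]
  congr 1
  simp [mon, cj, map_prod]

theorem T1_cjc (d : ι → ℤ) (P : Matrix ι ι C(S9, ℂ)) :
    Q1.T d d (P.map cjc) = (Q1.T d d (P.map star)).map conj := by
  ext ⟨i, a⟩ ⟨j, b⟩
  change ⟪jj sg (e1 (d i) a), jj sg (cjc (P i j) * e1 (d j) b)⟫_ℂ =
    conj ⟪jj sg (e1 (d i) a), jj sg (star (P i j) * e1 (d j) b)⟫_ℂ
  rw [inner_jj, inner_jj, ← integral_conj]
  have h1 := sg_cj (fun z => conj (e1 (d i) a (cj z)) * (P i j z * e1 (d j) b (cj z)))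
    (by have := continuous_cj; fun_prop)
  simp only [cj_cj, e1_cj] at h1
  refine Eq.trans ?_ (h1.trans ?_)
  · rfl
  · refine integral_congr_ae (Eventually.of_forall fun z => ?_)
    simp [mul_comm]

theorem hh1_cjc {w : ι → ℤ} {P : Matrix ι ι C(S9, ℂ)} (hP : Q1.Pr w (P.map star)) :
    ∀ᶠ m : ℤ in atTop, Q1.hh (fun i => m + w i) (P.map cjc) =
      Q1.hh (fun i => m + w i) (P.map star) := by
  filter_upwards [near_ev hP] with m hm
  unfold Quant.hh
  rw [T1_cjc]
  exact near_conj _ (hP.T_star _) hm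

end

end Pool.Agent.Work.MP_2a78db_gt.D2
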