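import Pool.Agent.Work.MP_2a78db_gt.D2Rank

/-!
Abstract Toeplitz quantization: from a representation of a commutative star algebra with
graded orthonormal families to asymptotically multiplicative matrices.
-/

namespace Pool.Agent.Work.MP_2a78db_gt.D2

open scoped Matrix.Norms.L2Operator InnerProductSpace
open Matrix Filter Topology

noncomputable section

set_option linter.unusedSectionVars false
set_option linter.unusedSimpArgs false
set_option linter.style.haveILetI false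

/-- Quantization data. -/
structure Quant (Γ A : Type) [AddCommGroup Γ] [NormedCommRing A] [StarRing A]
    [NormedAlgebra ℂ A] where
  l : Filter Γ
  ne : l.NeBot
  shift : ∀ c : Γ, Tendsto (fun γ => γ + c) l l
  W : Γ → Submodule ℂ A
  W_mul : ∀ {a b : Γ} {f g : A}, f ∈ W a → g ∈ W b → f * g ∈ W (a + b)
  W_star : ∀ {a : Γ} {f : A}, f ∈ W a → star f ∈ W (-a)
  W_one : (1 : A) ∈ W 0
  Ix : Γ → Type
  fin : ∀ γ, Fintype (Ix γ)
  dec : ∀ γ, DecidableEq (Ix γ)
  t : ∀ γ δ, A →ₗ[ℂ] Matrix (Ix γ) (Ix δ) ℂ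
  t_star : ∀ γ δ f, t δ γ (star f) = (t γ δ f)ᴴ
  t_one : ∀ γ, t γ γ 1 = 1
  t_norm : ∀ γ δ f, ‖t γ δ f‖ ≤ ‖f‖
  t_mul : ∀ a b c : Γ, ∀ f ∈ W (a - b), ∀ g ∈ W (b - c),
    Tendsto (fun γ => ‖t (γ + a) (γ + b) f * t (γ + b) (γ + c) g - t (γ + a) (γ + c) (f * g)‖)
      l (𝓝 0)

attribute [instance] Quant.fin Quant.dec Quant.ne

section rep

variable {Γ A L : Type} [AddCommGroup Γ] [NormedCommRing A] [StarRing A]
  [NormedAlgebra ℂ A] [NormedAddCommGroup L] [InnerProductSpace ℂ L]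

/-- removing the components of wrong weight does not increase the distance -/
theorem component (j : A →ₗ[ℂ] L) (W H : Γ → Submodule ℂ A)
    (orth : ∀ a b f g, a ≠ b → f ∈ W a → g ∈ W b → ⟪j f, j g⟫_ℂ = 0)
    (hHW : ∀ a, H a ≤ W a) (τ : Γ) (u : A) (hu : u ∈ W τ) (h : A) (hh : h ∈ ⨆ a, H a) :
    ∃ h' ∈ H τ, ‖j (u - h')‖ ≤ ‖j (u - h)‖ := by
  have key : ∃ h' ∈ H τ, ∃ r : A, h = h' + r ∧ ∀ v ∈ W τ, ⟪j v, j r⟫_ℂ = 0 := by
    refine Submodule.iSup_induction H (motive := fun h => ∃ h' ∈ H τ, ∃ r : A, h = h' + r ∧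
      ∀ v ∈ W τ, ⟪j v, j r⟫_ℂ = 0) hh ?_ ?_ ?_
    · intro a x hx
      by_cases ha : a = τ
      · subst ha
        exact ⟨x, hx, 0, by simp, fun v _ => by simp⟩
      · exact ⟨0, zero_mem _, x, by simp, fun v hv => orth τ a v x (Ne.symm ha) hv (hHW a hx)⟩
    · exact ⟨0, zero_mem _, 0, by simp, fun v _ => by simp⟩
    · rintro x y ⟨x', hx', r, rfl, hr⟩ ⟨y', hy', s, rfl, hs⟩
      refine ⟨x' + y', add_mem hx' hy', r + s, by abel, fun v hv => ?_⟩
      rw [map_add, inner_add_right, hr v hv, hs v hv, add_zero]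
  obtain ⟨h', hh', r, rfl, hr⟩ := key
  refine ⟨h', hh', ?_⟩
  have h1 : ⟪j (u - h'), j r⟫_ℂ = 0 := hr _ (sub_mem hu (hHW τ hh'))
  have h2 : j (u - (h' + r)) = j (u - h') - j r := by rw [← map_sub]; congr 1; abel
  have h3 := @norm_sub_mul_self ℂ L _ _ _ (j (u - h')) (j r)
  rw [h1] at h3
  simp only [map_zero, mul_zero, sub_zero] at h3
  rw [h2]
  nlinarith [norm_nonneg (j (u - h')), norm_nonneg (j (u - h') - j r), norm_nonneg (j r)]

theorem q_lemma (j : A →ₗ[ℂ] L) (hj : ∀ f g, ‖j (f * g)‖ ≤ ‖f‖ * ‖j g‖)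
    (W H : Γ → Submodule ℂ A)
    (W_mul : ∀ (a b : Γ) (f g : A), f ∈ W a → g ∈ W b → f * g ∈ W (a + b))
    (orth : ∀ a b f g, a ≠ b → f ∈ W a → g ∈ W b → ⟪j f, j g⟫_ℂ = 0)
    (hHW : ∀ a, H a ≤ W a) (l : Filter Γ) (hl : ∀ c : Γ, Tendsto (fun γ => γ + c) l l)
    (G : Set A) (hG : ∀ g ∈ G, ∃ c : Γ, ∀ ε > 0, ∀ᶠ γ in l, ∀ p ∈ H γ, ∃ h ∈ H (γ + c),
      ‖j (g * p - h)‖ ≤ ε * ‖j p‖)
    (f : A) (hf : f ∈ closure (Algebra.adjoin ℂ G : Set A)) (c : Γ) (hfc : f ∈ W c)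
    (ε : ℝ) (hε : 0 < ε) :
    ∀ᶠ γ in l, ∀ p ∈ H γ, ∃ h ∈ H (γ + c), ‖j (f * p - h)‖ ≤ ε * ‖j p‖ := by
  set P : A → Prop := fun f => ∀ ε > 0, ∀ᶠ γ in l, ∀ p ∈ H γ, ∃ h ∈ ⨆ a, H a,
    ‖j (f * p - h)‖ ≤ ε * ‖j p‖ with hP
  have P_one : P 1 := by
    intro ε hε
    refine Eventually.of_forall fun γ p hp => ⟨p, Submodule.mem_iSup_of_mem γ hp, ?_⟩
    simp only [one_mul, sub_self, map_zero, norm_zero]
    positivity
  have P_add : ∀ f g, P f → P g → P (f + g) := by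
    intro f g hf hg ε hε
    filter_upwards [hf (ε / 2) (half_pos hε), hg (ε / 2) (half_pos hε)] with γ h1 h2 p hp
    obtain ⟨u, hu, hu'⟩ := h1 p hp
    obtain ⟨v, hv, hv'⟩ := h2 p hp
    refine ⟨u + v, add_mem hu hv, ?_⟩
    have : (f + g) * p - (u + v) = (f * p - u) + (g * p - v) := by ring
    rw [this, map_add]
    refine (norm_add_le _ _).trans ?_
    linarith
  have P_smul : ∀ (r : ℂ) f, P f → P (r • f) := by
    intro r f hf ε hε
    filter_upwards [hf (ε / (‖r‖ + 1)) (by positivity)] with γ h1 p hp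
    obtain ⟨u, hu, hu'⟩ := h1 p hp
    refine ⟨r • u, Submodule.smul_mem _ _ hu, ?_⟩
    rw [smul_mul_assoc, ← smul_sub, map_smul, norm_smul]
    calc ‖r‖ * ‖j (f * p - u)‖ ≤ ‖r‖ * (ε / (‖r‖ + 1) * ‖j p‖) := by gcongr
      _ = (‖r‖ / (‖r‖ + 1)) * (ε * ‖j p‖) := by ring
      _ ≤ 1 * (ε * ‖j p‖) := by
        have : ‖r‖ / (‖r‖ + 1) ≤ 1 := by rw [div_le_one (by positivity)]; linarith
        gcongr
      _ = ε * ‖j p‖ := one_mul _
  have P_gen : ∀ g ∈ G, ∀ f, P f → P (f * g) := by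
    intro g hg f hf ε hε
    obtain ⟨c, hc⟩ := hG g hg
    set ε1 := min 1 (ε / (2 * (‖f‖ + 1))) with hε1
    have hε1p : 0 < ε1 := lt_min one_pos (by positivity)
    have h2 := (hl c).eventually (hf (ε / (2 * (‖g‖ + 1))) (by positivity))
    filter_upwards [hc ε1 hε1p, h2] with γ h1 h2 p hp
    obtain ⟨u, hu, hu'⟩ := h1 p hp
    obtain ⟨v, hv, hv'⟩ := h2 u hu
    refine ⟨v, hv, ?_⟩
    have h3 : f * g * p - v = f * (g * p - u) + (f * u - v) := by ring
    have h4 : ‖j u‖ ≤ (‖g‖ + 1) * ‖j p‖ := by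
      have : j u = j (g * p) - j (g * p - u) := by rw [← map_sub]; congr 1; abel
      rw [this]
      refine (norm_sub_le _ _).trans ?_
      have := hj g p
      have : ε1 * ‖j p‖ ≤ 1 * ‖j p‖ := by
        have := min_le_left 1 (ε / (2 * (‖f‖ + 1)))
        gcongr
      linarith
    rw [h3, map_add]
    refine (norm_add_le _ _).trans ?_
    have h5 : ‖j (f * (g * p - u))‖ ≤ ε / 2 * ‖j p‖ := by
      refine (hj _ _).trans ?_
      calc ‖f‖ * ‖j (g * p - u)‖ ≤ ‖f‖ * (ε1 * ‖j p‖) := by gcongr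
        _ ≤ ‖f‖ * ((ε / (2 * (‖f‖ + 1))) * ‖j p‖) := by
          have := min_le_right 1 (ε / (2 * (‖f‖ + 1)))
          gcongr
        _ = (‖f‖ / (‖f‖ + 1)) * (ε / 2 * ‖j p‖) := by field_simp
        _ ≤ 1 * (ε / 2 * ‖j p‖) := by
          have : ‖f‖ / (‖f‖ + 1) ≤ 1 := by rw [div_le_one (by positivity)]; linarith
          gcongr
        _ = ε / 2 * ‖j p‖ := one_mul _
    have h6 : ‖j (f * u - v)‖ ≤ ε / 2 * ‖j p‖ := by
      refine hv'.trans ?_
      calc ε / (2 * (‖g‖ + 1)) * ‖j u‖ ≤ ε / (2 * (‖g‖ + 1)) * ((‖g‖ + 1) * ‖j p‖) := by gcongr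
        _ = ε / 2 * ‖j p‖ := by field_simp
    linarith
  have P_adj : ∀ g ∈ Algebra.adjoin ℂ G, ∀ f, P f → P (f * g) := by
    intro g hg
    induction hg using Algebra.adjoin_induction with
    | mem x hx => exact P_gen x hx
    | algebraMap r =>
      intro f hf
      rw [mul_comm, ← Algebra.smul_def]
      exact P_smul r f hf
    | add x y _ _ hx hy =>
      intro f hf
      rw [mul_add]
      exact P_add _ _ (hx f hf) (hy f hf)
    | mul x y _ _ hx hy =>
      intro f hf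
      rw [← mul_assoc]
      exact hy _ (hx f hf)
  have P_f : P f := by
    intro ε hε
    obtain ⟨g, hg, hfg⟩ := Metric.mem_closure_iff.1 hf (ε / 2) (half_pos hε)
    have h1 : P g := by simpa using P_adj g hg 1 P_one
    filter_upwards [h1 (ε / 2) (half_pos hε)] with γ h1 p hp
    obtain ⟨u, hu, hu'⟩ := h1 p hp
    refine ⟨u, hu, ?_⟩
    have h2 : f * p - u = (f - g) * p + (g * p - u) := by ring
    rw [h2, map_add]
    refine (norm_add_le _ _).trans ?_
    have h3 : ‖j ((f - g) * p)‖ ≤ ε / 2 * ‖j p‖ := by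
      refine (hj _ _).trans ?_
      rw [dist_eq_norm] at hfg
      gcongr
    linarith
  filter_upwards [P_f ε hε] with γ h1 p hp
  obtain ⟨u, hu, hu'⟩ := h1 p hp
  have hfp : f * p ∈ W (γ + c) := by
    rw [mul_comm]
    exact W_mul _ _ _ _ (hHW γ hp) hfc
  obtain ⟨h', hh', hle⟩ := component j W H orth hHW (γ + c) (f * p) hfp u hu
  exact ⟨h', hh', hle.trans hu'⟩

/-! ### Matrices -/

theorem opNorm_le {m n : Type*} [Fintype m] [Fintype n] [DecidableEq n] (M : Matrix m n ℂ) (C : ℝ)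
    (hC : 0 ≤ C) (h : ∀ v : n → ℂ, ‖WithLp.toLp 2 (M *ᵥ v)‖ ≤ C * ‖WithLp.toLp 2 v‖) : ‖M‖ ≤ C := by
  rw [l2_opNorm_def]
  refine ContinuousLinearMap.opNorm_le_bound _ hC fun v => ?_
  exact h (WithLp.ofLp v)

variable {I J : Type} [Fintype I] [Fintype J] [DecidableEq I] [DecidableEq J]

/-- linear combination -/
def synth (e : I → A) (v : I → ℂ) : A := ∑ a, v a • e a

/-- coefficients -/
def coef (j : A →ₗ[ℂ] L) (e : I → A) (x : L) : I → ℂ := fun a => ⟪j (e a), x⟫_ℂ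

/-- Toeplitz matrix -/
def tm (j : A →ₗ[ℂ] L) (e : I → A) (e' : J → A) (f : A) : Matrix I J ℂ :=
  fun a b => ⟪j (e a), j (f * e' b)⟫_ℂ

theorem tm_mulVec (j : A →ₗ[ℂ] L) (e : I → A) (e' : J → A) (f : A) (v : J → ℂ) :
    tm j e e' f *ᵥ v = coef j e (j (f * synth e' v)) := by
  funext a
  simp only [Matrix.mulVec, dotProduct, tm, coef, synth, Finset.mul_sum, map_sum, inner_sum]
  refine Finset.sum_congr rfl fun b _ => ?_
  rw [mul_smul_comm, map_smul, inner_smul_right, mul_comm]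

theorem norm_synth (j : A →ₗ[ℂ] L) (e : I → A) (he : Orthonormal ℂ (fun a => j (e a)))
    (v : I → ℂ) : ‖j (synth e v)‖ = ‖WithLp.toLp 2 v‖ := by
  have h1 : j (synth e v) = ∑ a, v a • j (e a) := by simp [synth]
  have h2 : ‖j (synth e v)‖ ^ 2 = ‖WithLp.toLp 2 v‖ ^ 2 := by
    rw [EuclideanSpace.norm_sq_eq, h1, ← @inner_self_eq_norm_sq ℂ, he.inner_sum]
    simp only [map_sum]
    refine Finset.sum_congr rfl fun a _ => ?_
    rw [Complex.conj_mul']
    norm_cast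
  exact (pow_left_inj₀ (norm_nonneg _) (norm_nonneg _) two_ne_zero).1 h2

theorem norm_coef (j : A →ₗ[ℂ] L) (e : I → A) (he : Orthonormal ℂ (fun a => j (e a)))
    (x : L) : ‖WithLp.toLp 2 (coef j e x)‖ ≤ ‖x‖ := by
  have h2 : ‖WithLp.toLp 2 (coef j e x)‖ ^ 2 ≤ ‖x‖ ^ 2 := by
    rw [EuclideanSpace.norm_sq_eq]
    exact he.sum_inner_products_le x
  exact (pow_le_pow_iff_left₀ (norm_nonneg _) (norm_nonneg _) two_ne_zero).1 h2

theorem coef_synth (j : A →ₗ[ℂ] L) (e : I → A) (he : Orthonormal ℂ (fun a => j (e a)))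
    (v : I → ℂ) : coef j e (j (synth e v)) = v := by
  funext a
  have h1 : j (synth e v) = ∑ a, v a • j (e a) := by simp [synth]
  simp only [coef, h1]
  exact he.inner_right_fintype v a

theorem exists_synth (e : I → A) (h : A) (hh : h ∈ Submodule.span ℂ (Set.range e)) :
    ∃ v, h = synth e v := by
  obtain ⟨v, hv⟩ := (Submodule.mem_span_range_iff_exists_fun ℂ).1 hh
  exact ⟨v, hv.symm⟩

theorem norm_proj_sub (j : A →ₗ[ℂ] L) (e : I → A) (he : Orthonormal ℂ (fun a => j (e a)))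
    (x : L) (h : A) (hh : h ∈ Submodule.span ℂ (Set.range e)) :
    ‖j (synth e (coef j e x)) - x‖ ≤ ‖x - j h‖ := by
  obtain ⟨v, rfl⟩ := exists_synth e h hh
  set y := x - j (synth e v) with hy
  have h1 : coef j e y = coef j e x - v := by
    funext a
    have := congrFun (coef_synth j e he v) a
    simp only [coef, hy, inner_sub_right, Pi.sub_apply] at this ⊢
    rw [this]
  have h2 : j (synth e (coef j e x)) - x = j (synth e (coef j e y)) - y := by
    rw [h1, hy]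
    simp only [synth, Pi.sub_apply, sub_smul, Finset.sum_sub_distrib, map_sub]
    abel
  rw [h2]
  set z := j (synth e (coef j e y)) with hz
  have h3 : ⟪z, z - y⟫_ℂ = 0 := by
    have : z = ∑ a, coef j e y a • j (e a) := by simp [hz, synth]
    conv_lhs => rw [this]
    rw [sum_inner]
    refine Finset.sum_eq_zero fun a _ => ?_
    rw [inner_smul_left, ← this, inner_sub_right]
    have h4 := congrFun (coef_synth j e he (coef j e y)) a
    simp only [coef] at h4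
    rw [show ⟪j (e a), z⟫_ℂ = ⟪j (e a), y⟫_ℂ from h4, sub_self, mul_zero]
  have h5 := @norm_sub_mul_self ℂ L _ _ _ z (z - y)
  rw [h3] at h5
  simp only [map_zero, mul_zero, sub_zero, sub_sub_cancel] at h5
  nlinarith [norm_nonneg y, norm_nonneg z, norm_nonneg (z - y)]

theorem tm_norm (j : A →ₗ[ℂ] L) (hj : ∀ f g, ‖j (f * g)‖ ≤ ‖f‖ * ‖j g‖) (e : I → A) (e' : J → A)
    (he : Orthonormal ℂ (fun a => j (e a))) (he' : Orthonormal ℂ (fun a => j (e' a))) (f : A) :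
    ‖tm j e e' f‖ ≤ ‖f‖ := by
  refine opNorm_le _ _ (norm_nonneg f) fun v => ?_
  rw [tm_mulVec]
  refine (norm_coef j e he _).trans ((hj _ _).trans ?_)
  rw [norm_synth j e' he']

theorem tm_mul {K : Type} [Fintype K] [DecidableEq K] (j : A →ₗ[ℂ] L)
    (hj : ∀ f g, ‖j (f * g)‖ ≤ ‖f‖ * ‖j g‖) (e : I → A) (e' : J → A) (e'' : K → A)
    (he : Orthonormal ℂ (fun a => j (e a))) (he' : Orthonormal ℂ (fun a => j (e' a)))
    (he'' : Orthonormal ℂ (fun a => j (e'' a))) (f g : A) (ε : ℝ) (hε : 0 ≤ ε)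
    (hg : ∀ p ∈ Submodule.span ℂ (Set.range e''), ∃ h ∈ Submodule.span ℂ (Set.range e'),
      ‖j (g * p - h)‖ ≤ ε * ‖j p‖) :
    ‖tm j e e' f * tm j e' e'' g - tm j e e'' (f * g)‖ ≤ ‖f‖ * ε := by
  refine opNorm_le _ _ (by positivity) fun v => ?_
  set p := synth e'' v with hp
  have hpm : p ∈ Submodule.span ℂ (Set.range e'') := by
    rw [hp]
    exact Submodule.sum_mem _ fun a _ => Submodule.smul_mem _ _ (Submodule.subset_span ⟨a, rfl⟩)
  obtain ⟨h, hh, hle⟩ := hg p hpm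
  have h1 : (tm j e e' f * tm j e' e'' g - tm j e e'' (f * g)) *ᵥ v =
      coef j e (j (f * (synth e' (coef j e' (j (g * p))) - g * p))) := by
    rw [sub_mulVec, ← mulVec_mulVec, tm_mulVec, tm_mulVec, tm_mulVec]
    funext a
    simp only [coef, Pi.sub_apply, ← inner_sub_right, ← map_sub]
    congr 2
    ring
  rw [h1]
  refine (norm_coef j e he _).trans ((hj _ _).trans ?_)
  have h2 := norm_proj_sub j e' he' (j (g * p)) h hh
  rw [mul_assoc]
  refine mul_le_mul_of_nonneg_left ?_ (norm_nonneg f)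
  rw [map_sub, ← norm_synth j e'' he'' v]
  rw [map_sub] at hle
  exact h2.trans hle

/-- Quantization data from a representation with graded orthonormal families. -/
def Quant.ofRep (j : A →ₗ[ℂ] L) (hj : ∀ f g, ‖j (f * g)‖ ≤ ‖f‖ * ‖j g‖)
    (hadj : ∀ f g h, ⟪j (f * g), j h⟫_ℂ = ⟪j g, j (star f * h)⟫_ℂ)
    (l : Filter Γ) (ne : l.NeBot) (hl : ∀ c : Γ, Tendsto (fun γ => γ + c) l l)
    (W : Γ → Submodule ℂ A)
    (W_mul : ∀ (a b : Γ) (f g : A), f ∈ W a → g ∈ W b → f * g ∈ W (a + b))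
    (W_star : ∀ {a : Γ} {f : A}, f ∈ W a → star f ∈ W (-a))
    (W_one : (1 : A) ∈ W 0)
    (orth : ∀ a b f g, a ≠ b → f ∈ W a → g ∈ W b → ⟪j f, j g⟫_ℂ = 0)
    (Ix : Γ → Type) (fin : ∀ γ, Fintype (Ix γ)) (dec : ∀ γ, DecidableEq (Ix γ))
    (e : ∀ γ, Ix γ → A) (he : ∀ γ, Orthonormal ℂ (fun a => j (e γ a)))
    (heW : ∀ γ a, e γ a ∈ W γ)
    (G : Set A) (hG : ∀ g ∈ G, ∃ c : Γ, ∀ ε > 0, ∀ᶠ γ in l,
      ∀ p ∈ Submodule.span ℂ (Set.range (e γ)), ∃ h ∈ Submodule.span ℂ (Set.range (e (γ + c))),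
      ‖j (g * p - h)‖ ≤ ε * ‖j p‖)
    (dense : ∀ f : A, f ∈ closure (Algebra.adjoin ℂ G : Set A)) : Quant Γ A where
  l := l
  ne := ne
  shift := hl
  W := W
  W_mul := fun {a b f g} => W_mul a b f g
  W_star := W_star
  W_one := W_one
  Ix := Ix
  fin := fin
  dec := dec
  t := fun γ δ =>
    { toFun := fun f => tm j (e γ) (e δ) f
      map_add' := by
        intro f g
        ext a b
        simp [tm, add_mul, inner_add_right]
      map_smul' := by
        intro c f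
        ext a b
        simp [tm, inner_smul_right] }
  t_star := by
    intro γ δ f
    ext a b
    simp only [LinearMap.coe_mk, AddHom.coe_mk, tm, conjTranspose_apply]
    rw [← hadj]
    exact (inner_conj_symm _ _).symm
  t_one := by
    intro γ
    ext a b
    simp only [LinearMap.coe_mk, AddHom.coe_mk, tm, one_mul]
    letI := dec γ
    rw [(orthonormal_iff_ite.1 (he γ)) a b, Matrix.one_apply]
  t_norm := by
    intro γ δ f
    letI := fin γ
    letI := fin δ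
    letI := dec γ
    letI := dec δ
    exact tm_norm j hj _ _ (he γ) (he δ) f
  t_mul := by
    intro a b c f hf g hg
    rw [Metric.tendsto_nhds]
    intro ε hε
    have h1 := q_lemma j hj W (fun γ => Submodule.span ℂ (Set.range (e γ))) W_mul orth
      (fun γ => Submodule.span_le.2 (by rintro _ ⟨a, rfl⟩; exact heW γ a)) l hl G hG g (dense g)
      (b - c) hg (ε / (‖f‖ + 1)) (by positivity)
    filter_upwards [(hl c).eventually h1] with γ h1
    letI := fin (γ + a)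
    letI := fin (γ + b)
    letI := fin (γ + c)
    letI := dec (γ + a)
    letI := dec (γ + b)
    letI := dec (γ + c)
    have h2 : γ + c + (b - c) = γ + b := by abel
    rw [h2] at h1
    have h3 := tm_mul j hj (e (γ + a)) (e (γ + b)) (e (γ + c)) (he _) (he _) (he _) f g
      (ε / (‖f‖ + 1)) (by positivity) h1
    rw [Real.dist_eq, sub_zero, abs_of_nonneg (norm_nonneg _)]
    refine lt_of_le_of_lt h3 ?_
    rw [← mul_div_assoc, div_lt_iff₀ (by positivity)]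
    nlinarith [norm_nonneg f]

end rep

end

end Pool.Agent.Work.MP_2a78db_gt.D2
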