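import Mathlib

/-!
Ranks of approximate projections: general lemmas on matrices with the l2 operator norm.
-/

namespace Pool.Agent.Work.MP_2a78db_gt.D2

open scoped Matrix.Norms.L2Operator
open Matrix

set_option linter.unusedSectionVars false

theorem exists_proj {𝔄 : Type*} [CStarAlgebra 𝔄] (T : 𝔄) (hT : IsSelfAdjoint T)
    (h : ‖T * T - T‖ ≤ 1 / 8) :
    ∃ E : 𝔄, E * E = E ∧ star E = E ∧ ‖E - T‖ ≤ 2 * ‖T * T - T‖ := by
  have hcont : Continuous (fun t : ℝ => max 0 (min 1 (2 * t - 1 / 2))) := by fun_prop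
  have hTT : T * T - T = cfc (fun t : ℝ => t * t - t) T := by
    rw [cfc_sub (fun t : ℝ => t * t) (fun t : ℝ => t) T, cfc_mul (fun t : ℝ => t) (fun t : ℝ => t) T,
      cfc_id' ℝ T]
  have hsp : ∀ t ∈ spectrum ℝ T, |t * t - t| ≤ ‖T * T - T‖ := by
    intro t ht
    have := norm_apply_le_norm_cfc (fun t : ℝ => t * t - t) T ht
    rw [← hTT] at this
    simpa using this
  set ε := ‖T * T - T‖ with hε
  have hval : ∀ t ∈ spectrum ℝ T, (max 0 (min 1 (2 * t - 1 / 2)) = 0 ∧ |t| ≤ 2 * |t * t - t|) ∨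
      (max 0 (min 1 (2 * t - 1 / 2)) = 1 ∧ |1 - t| ≤ 2 * |t * t - t|) := by
    intro t ht
    have h1 := hsp t ht
    have h2 : |t * t - t| ≤ 1 / 8 := h1.trans h
    have h3 := abs_le.1 h2
    have h4 : |t * t - t| = |t| * |1 - t| := by
      rw [← abs_mul, ← abs_neg]; congr 1; ring
    rcases le_or_gt t (1 / 4) with h5 | h5
    · left
      refine ⟨?_, ?_⟩
      · rw [max_eq_left]
        exact (min_le_right _ _).trans (by linarith)
      · rw [h4]
        have : (1 : ℝ) / 2 ≤ |1 - t| := by rw [abs_of_nonneg (by linarith)]; linarith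
        nlinarith [abs_nonneg t]
    · right
      have h6 : 3 / 4 ≤ t := by
        by_contra hh
        push Not at hh
        nlinarith
      refine ⟨?_, ?_⟩
      · rw [min_eq_left (by linarith), max_eq_right (by norm_num)]
      · rw [h4]
        have : (1 : ℝ) / 2 ≤ |t| := by rw [abs_of_nonneg (by linarith)]; linarith
        nlinarith [abs_nonneg (1 - t)]
  refine ⟨cfc (fun t : ℝ => max 0 (min 1 (2 * t - 1 / 2))) T, ?_, ?_, ?_⟩
  · rw [← cfc_mul _ _ T]
    apply cfc_congr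
    intro t ht
    rcases hval t ht with h | h <;> simp only [h.1] <;> norm_num
  · exact (cfc_predicate (fun t : ℝ => max 0 (min 1 (2 * t - 1 / 2))) T).star_eq
  · have h5 : cfc (fun t : ℝ => max 0 (min 1 (2 * t - 1 / 2))) T - T =
        cfc (fun t : ℝ => max 0 (min 1 (2 * t - 1 / 2)) - t) T := by
      rw [cfc_sub (fun t : ℝ => max 0 (min 1 (2 * t - 1 / 2))) (fun t : ℝ => t) T, cfc_id' ℝ T]
    rw [h5]
    refine norm_cfc_le (by positivity) fun t ht => ?_
    rcases hval t ht with h | h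
    · simp only [h.1, Real.norm_eq_abs, zero_sub, abs_neg]
      exact h.2.trans (by have := hsp t ht; linarith)
    · simp only [h.1, Real.norm_eq_abs]
      exact h.2.trans (by have := hsp t ht; linarith)

theorem rank_le_of_norm_lt {m n : Type*} [Fintype m] [DecidableEq m] [Fintype n] [DecidableEq n]
    (E : Matrix n n ℂ) (F : Matrix m m ℂ) (X : Matrix m n ℂ) (Y : Matrix n m ℂ)
    (hE : E * E = E) (h : ‖E - Y * F * X * E‖ < 1) : E.rank ≤ F.rank := by
  obtain ⟨u, hu⟩ := isUnit_one_sub_of_norm_lt_one h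
  have h1 : (1 - (E - Y * F * X * E)) * E = Y * F * X * E := by
    rw [sub_mul, sub_mul, one_mul, hE, Matrix.mul_assoc _ E E, hE]; abel
  have h2 : ((u⁻¹ : (Matrix n n ℂ)ˣ) : Matrix n n ℂ) * Y * F * (X * E) = E := by
    have : ((u⁻¹ : (Matrix n n ℂ)ˣ) : Matrix n n ℂ) * ((u : Matrix n n ℂ) * E) = E := by
      rw [← Matrix.mul_assoc, ← Units.val_mul, inv_mul_cancel, Units.val_one, one_mul]
    rw [hu, h1] at this
    conv_rhs => rw [← this]
    simp only [Matrix.mul_assoc]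
  calc E.rank = (((u⁻¹ : (Matrix n n ℂ)ˣ) : Matrix n n ℂ) * Y * F * (X * E)).rank := by rw [h2]
    _ ≤ (((u⁻¹ : (Matrix n n ℂ)ˣ) : Matrix n n ℂ) * Y * F).rank := Matrix.rank_mul_le_left _ _
    _ ≤ F.rank := Matrix.rank_mul_le_right _ _

theorem rank_eq_trace {n : Type*} [Fintype n] [DecidableEq n]
    (E : Matrix n n ℂ) (hE : E * E = E) : (E.rank : ℂ) = E.trace := by
  have h1 : IsIdempotentElem (Matrix.toLin' E) := by
    unfold IsIdempotentElem
    rw [Module.End.mul_eq_comp, ← Matrix.toLin'_mul, hE]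
  have h2 := (LinearMap.IsIdempotentElem.isProj_range _ h1).trace
  rw [Matrix.trace_toLin'_eq] at h2
  rw [h2, Matrix.rank]
  rfl

/-! ### Block matrices over sigma types -/

section blocks

variable {κ ι μ : Type*} [Fintype κ] [DecidableEq κ] [Fintype ι] [DecidableEq ι]
  [Fintype μ] [DecidableEq μ]
  {N : κ → Type*} [∀ k, Fintype (N k)] [∀ k, DecidableEq (N k)]
  {M : ι → Type*} [∀ k, Fintype (M k)] [∀ k, DecidableEq (M k)]
  {O : μ → Type*} [∀ k, Fintype (O k)] [∀ k, DecidableEq (O k)]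

/-- block matrix -/
def blk (B : ∀ k i, Matrix (N k) (M i) ℂ) : Matrix (Σ k, N k) (Σ i, M i) ℂ :=
  fun p q => B p.1 q.1 p.2 q.2

/-- inclusion of a block -/
def incl (N : κ → Type*) [∀ k, Fintype (N k)] [∀ k, DecidableEq (N k)] (k : κ) :
    Matrix (Σ k, N k) (N k) ℂ := fun p a => if p = ⟨k, a⟩ then 1 else 0

theorem incl_conj (k : κ) : (incl N k)ᴴ * incl N k = 1 := by
  ext a b
  simp only [Matrix.mul_apply, conjTranspose_apply, incl, Matrix.one_apply]
  rw [Finset.sum_eq_single ⟨k, a⟩]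
  · by_cases hab : a = b
    · simp [hab]
    · simp [hab]
  · intro p _ hp
    simp [hp]
  · simp

theorem norm_one_le' {n : Type*} [Fintype n] [DecidableEq n] : ‖(1 : Matrix n n ℂ)‖ ≤ 1 := by
  rw [← Matrix.diagonal_one, l2_opNorm_diagonal]
  exact (pi_norm_le_iff_of_nonneg zero_le_one).2 fun i => by simp

theorem norm_le_one_of_conj {m n : Type*} [Fintype m] [DecidableEq m] [Fintype n] [DecidableEq n]
    (S : Matrix m n ℂ) (h : Sᴴ * S = 1) : ‖S‖ ≤ 1 := by
  have h1 := l2_opNorm_conjTranspose_mul_self S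
  rw [h] at h1
  have h2 := norm_one_le' (n := n)
  nlinarith [norm_nonneg S]

theorem norm_incl (k : κ) : ‖incl N k‖ ≤ 1 := norm_le_one_of_conj _ (incl_conj k)

theorem blk_eq (B : ∀ k i, Matrix (N k) (M i) ℂ) :
    blk B = ∑ k, ∑ i, incl N k * B k i * (incl M i)ᴴ := by
  ext ⟨k, a⟩ ⟨i, b⟩
  simp only [Matrix.sum_apply]
  rw [Finset.sum_eq_single k, Finset.sum_eq_single i]
  · simp only [Matrix.mul_apply, conjTranspose_apply, incl]
    rw [Finset.sum_eq_single b, Finset.sum_eq_single a]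
    · simp [blk]
    · intro c _ hc
      have : (⟨k, a⟩ : Σ k, N k) ≠ ⟨k, c⟩ := by simpa using hc.symm
      simp [this]
    · simp
    · intro c _ hc
      have : (⟨i, b⟩ : Σ k, M k) ≠ ⟨i, c⟩ := by simpa using hc.symm
      simp [this]
    · simp
  · intro j _ hj
    simp only [Matrix.mul_apply, conjTranspose_apply, incl]
    refine Finset.sum_eq_zero fun c _ => ?_
    have : (⟨i, b⟩ : Σ k, M k) ≠ ⟨j, c⟩ := by
      intro h; exact hj (Sigma.mk.inj_iff.1 h).1.symm
    simp [this]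
  · simp
  · intro j _ hj
    refine Finset.sum_eq_zero fun i' _ => ?_
    simp only [Matrix.mul_apply, conjTranspose_apply, incl]
    refine Finset.sum_eq_zero fun c _ => ?_
    have : ∑ x, (if (⟨k, a⟩ : Σ k, N k) = ⟨j, x⟩ then (1 : ℂ) else 0) * B j i' x c = 0 := by
      refine Finset.sum_eq_zero fun d _ => ?_
      have : (⟨k, a⟩ : Σ k, N k) ≠ ⟨j, d⟩ := by
        intro h; exact hj (Sigma.mk.inj_iff.1 h).1.symm
      simp [this]
    rw [this, zero_mul]
  · simp

theorem norm_blk_le (B : ∀ k i, Matrix (N k) (M i) ℂ) : ‖blk B‖ ≤ ∑ k, ∑ i, ‖B k i‖ := by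
  rw [blk_eq]
  refine (norm_sum_le _ _).trans (Finset.sum_le_sum fun k _ => ?_)
  refine (norm_sum_le _ _).trans (Finset.sum_le_sum fun i _ => ?_)
  refine (l2_opNorm_mul _ _).trans ?_
  rw [l2_opNorm_conjTranspose]
  have h1 := l2_opNorm_mul (incl N k) (B k i)
  have h2 := norm_incl (N := N) k
  have h3 := norm_incl (N := M) i
  have h4 := norm_nonneg (B k i)
  have h5 := norm_nonneg (incl M i)
  have h6 := norm_nonneg (incl N k)
  calc ‖incl N k * B k i‖ * ‖incl M i‖ ≤ (‖incl N k‖ * ‖B k i‖) * 1 :=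
        mul_le_mul h1 h3 h5 (by positivity)
    _ ≤ 1 * ‖B k i‖ * 1 := by gcongr
    _ = ‖B k i‖ := by ring

theorem blk_mul (B : ∀ k i, Matrix (N k) (M i) ℂ) (C : ∀ i j, Matrix (M i) (O j) ℂ) :
    blk B * blk C = blk (fun k j => ∑ i, B k i * C i j) := by
  ext ⟨k, a⟩ ⟨j, b⟩
  simp only [Matrix.mul_apply, blk, Matrix.sum_apply, Fintype.sum_sigma]

end blocks

end Pool.Agent.Work.MP_2a78db_gt.D2
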