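import Pool.Agent.Work.MP_2a78db_gt.D2A
import Pool.Agent.Work.MP_2a78db_gt.D2Q

/-!
The representation of continuous functions on square integrable functions; monomials on the
sphere.
-/

namespace Pool.Agent.Work.MP_2a78db_gt.D2

open scoped InnerProductSpace
open MeasureTheory Filter Topology ComplexConjugate

noncomputable section

set_option linter.unusedSectionVars false
set_option linter.unusedSimpArgs false

section space

variable {X : Type} [TopologicalSpace X] [CompactSpace X] [MeasurableSpace X] [BorelSpace X]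
  (μ : Measure X) [IsProbabilityMeasure μ]

theorem integrable_cont {f : X → ℂ} (hf : Continuous f) : Integrable f μ :=
  hf.integrable_of_hasCompactSupport (HasCompactSupport.of_compactSpace f)

/-- continuous functions as square integrable functions -/
def jj : C(X, ℂ) →ₗ[ℂ] Lp ℂ 2 μ := (ContinuousMap.toLp 2 μ ℂ).toLinearMap

theorem inner_jj (f g : C(X, ℂ)) : ⟪jj μ f, jj μ g⟫_ℂ = ∫ x, conj (f x) * g x ∂μ := by
  have := ContinuousMap.inner_toLp μ f g
  simp only [mul_comm] at this ⊢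
  exact this

theorem norm_jj (f : C(X, ℂ)) : ‖jj μ f‖ ^ 2 = ∫ x, ‖f x‖ ^ 2 ∂μ := by
  have h1 : ((‖jj μ f‖ ^ 2 : ℝ) : ℂ) = ⟪jj μ f, jj μ f⟫_ℂ := by
    rw [inner_self_eq_norm_sq_to_K]; norm_cast
  rw [inner_jj] at h1
  have h2 : ∀ x, conj (f x) * f x = ((‖f x‖ ^ 2 : ℝ) : ℂ) := by
    intro x; rw [Complex.conj_mul']; norm_cast
  simp only [h2] at h1
  rw [integral_complex_ofReal] at h1
  exact_mod_cast h1

theorem jj_norm (f g : C(X, ℂ)) : ‖jj μ (f * g)‖ ≤ ‖f‖ * ‖jj μ g‖ := by
  have h : ‖jj μ (f * g)‖ ^ 2 ≤ (‖f‖ * ‖jj μ g‖) ^ 2 := by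
    rw [mul_pow, norm_jj, norm_jj, ← integral_const_mul]
    refine integral_mono ?_ ?_ fun x => ?_
    · have : Continuous (fun x => ‖(f * g) x‖ ^ 2) := by fun_prop
      exact this.integrable_of_hasCompactSupport (HasCompactSupport.of_compactSpace _)
    · have : Continuous (fun x => ‖f‖ ^ 2 * ‖g x‖ ^ 2) := by fun_prop
      exact this.integrable_of_hasCompactSupport (HasCompactSupport.of_compactSpace _)
    · beta_reduce
      rw [ContinuousMap.mul_apply, norm_mul, mul_pow]
      have := f.norm_coe_le_norm x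
      gcongr
  exact (pow_le_pow_iff_left₀ (norm_nonneg _) (by positivity) two_ne_zero).1 h

theorem jj_adj (f g h : C(X, ℂ)) : ⟪jj μ (f * g), jj μ h⟫_ℂ = ⟪jj μ g, jj μ (star f * h)⟫_ℂ := by
  rw [inner_jj, inner_jj]
  refine integral_congr_ae (Eventually.of_forall fun x => ?_)
  simp only [ContinuousMap.mul_apply, ContinuousMap.star_apply, map_mul]
  simp only [RCLike.star_def]
  ring

end space

/-! ### Monomials -/

/-- multi-indices of degree `m` -/
def Nn (m : ℤ) : Finset (Fin 5 → ℕ) :=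
  if 0 ≤ m then Finset.piAntidiag Finset.univ m.toNat else ∅

theorem mem_Nn {m : ℤ} {a : Fin 5 → ℕ} : a ∈ Nn m ↔ ((∑ i, a i : ℕ) : ℤ) = m := by
  unfold Nn
  split_ifs with h
  · simp only [Finset.mem_piAntidiag, Finset.mem_univ, implies_true, and_true]
    change (∑ i, a i) = m.toNat ↔ _
    generalize (∑ i, a i) = k
    omega
  · simp only [Finset.notMem_empty, false_iff]
    intro h'
    exact h (h' ▸ Int.natCast_nonneg _)

theorem card_Nn {m : ℤ} (h : 0 ≤ m) : ((Nn m).card : ℤ) = dim5 m := by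
  obtain ⟨n, rfl⟩ := Int.eq_ofNat_of_zero_le h
  unfold Nn
  rw [if_pos h, Int.toNat_natCast]
  have h1 : (Finset.piAntidiag (Finset.univ : Finset (Fin 5)) n).card = (n + 4).choose 4 := by
    have h2 := Finset.card_finsuppAntidiag_nat_eq_choose (s := (Finset.univ : Finset (Fin 5))) n
    have h3 : (Finset.piAntidiag (Finset.univ : Finset (Fin 5)) n).card =
        (Finset.finsuppAntidiag (Finset.univ : Finset (Fin 5)) n).card := by
      refine Finset.card_equiv Finsupp.equivFunOnFinite.symm fun f => ?_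
      simp [Finset.mem_piAntidiag, Finset.mem_finsuppAntidiag]
    rw [h3, h2]
    simp only [Finset.card_univ, Fintype.card_fin]
    rw [show 5 + n - 1 = n + 4 by omega]
    exact Nat.choose_symm_of_eq_add (by omega)
  rw [h1, dim5, Nat.choose_eq_descFactorial_div_factorial]
  simp only [Nat.descFactorial_succ, Nat.descFactorial_zero, Nat.factorial]
  push_cast
  congr 1
  ring

/-- coordinates -/
def zc (i : Fin 5) : C(S9, ℂ) := ⟨fun z => z.1 i, continuous_coord i⟩

theorem sum_zc : ∑ i, star (zc i) * zc i = 1 := by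
  ext z
  simp only [ContinuousMap.coe_sum, Finset.sum_apply, ContinuousMap.mul_apply,
    ContinuousMap.star_apply, ContinuousMap.one_apply, zc, ContinuousMap.coe_mk, RCLike.star_def]
  have h := z.2
  have h2 : ∀ i, conj (z.1 i) * z.1 i = ((‖z.1 i‖ ^ 2 : ℝ) : ℂ) := by
    intro i; rw [Complex.conj_mul']; norm_cast
  simp only [h2]
  rw [← Complex.ofReal_sum, h]
  simp

/-- monomials as continuous functions -/
def mc (a : Fin 5 → ℕ) : C(S9, ℂ) := ∏ i, zc i ^ a i

theorem mc_apply (a : Fin 5 → ℕ) (z : S9) : mc a z = mon a z.1 := by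
  simp [mc, mon, zc, ContinuousMap.prod_apply]

/-- squared norm of monomials -/
def cN (a : Fin 5 → ℕ) : ℝ := 24 * (∏ i, ((a i).factorial : ℝ)) / ((∑ i, a i) + 4).factorial

theorem cN_pos (a : Fin 5 → ℕ) : 0 < cN a := by
  unfold cN
  have : 0 < ∏ i, ((a i).factorial : ℝ) := Finset.prod_pos fun i _ => by positivity
  positivity

theorem inner_mc (a b : Fin 5 → ℕ) (h : ∑ i, a i = ∑ i, b i) :
    ⟪jj sg (mc a), jj sg (mc b)⟫_ℂ = if a = b then (cN a : ℂ) else 0 := by
  rw [inner_jj]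
  simp only [mc_apply]
  have h1 := moments a b _ h rfl
  have h2 : (((∑ i, b i) + 4).factorial : ℂ) ≠ 0 := by
    exact_mod_cast (Nat.factorial_pos _).ne'
  split_ifs at h1 ⊢ with hab
  · subst hab
    unfold cN
    push_cast
    rw [eq_div_iff h2, mul_comm, h1]
  · exact (mul_eq_zero.1 h1).resolve_left h2

theorem mc_add (a b : Fin 5 → ℕ) : mc (a + b) = mc a * mc b := by
  simp [mc, pow_add, Finset.prod_mul_distrib]

theorem mc_single (i : Fin 5) : mc (Pi.single i 1) = zc i := by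
  unfold mc
  rw [Finset.prod_eq_single i]
  · simp
  · intro j _ hj
    simp [Pi.single_eq_of_ne hj]
  · simp

theorem zc_mul_mc (i : Fin 5) (b : Fin 5 → ℕ) : zc i * mc b = mc (b + Pi.single i 1) := by
  rw [mc_add, mc_single, mul_comm]

theorem red_add {i : Fin 5} {a : Fin 5 → ℕ} (h : a i ≠ 0) :
    a - Pi.single i 1 + Pi.single i 1 = a := by
  funext j
  by_cases hj : j = i
  · subst hj
    simp
    omega
  · simp [Pi.single_eq_of_ne hj]

theorem sum_single (i : Fin 5) : ∑ j, (Pi.single i 1 : Fin 5 → ℕ) j = 1 := by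
  simp

theorem cN_inc (b : Fin 5 → ℕ) (i : Fin 5) :
    cN (b + Pi.single i 1) = ((b i + 1 : ℕ) : ℝ) / ((∑ j, b j) + 5 : ℕ) * cN b := by
  unfold cN
  have h1 : ∑ j, (b + Pi.single i 1 : Fin 5 → ℕ) j = ∑ j, b j + 1 := by
    simp only [Pi.add_apply, Finset.sum_add_distrib, sum_single]
  have h2 : ∏ j, (((b + Pi.single i 1 : Fin 5 → ℕ) j).factorial : ℝ) =
      ((b i + 1 : ℕ) : ℝ) * ∏ j, ((b j).factorial : ℝ) := by
    rw [← Finset.mul_prod_erase Finset.univ _ (Finset.mem_univ i),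
      ← Finset.mul_prod_erase Finset.univ (fun j => ((b j).factorial : ℝ)) (Finset.mem_univ i)]
    have h3 : ∏ x ∈ Finset.univ.erase i, (((b + Pi.single i 1 : Fin 5 → ℕ) x).factorial : ℝ) =
        ∏ x ∈ Finset.univ.erase i, ((b x).factorial : ℝ) := by
      refine Finset.prod_congr rfl fun j hj => ?_
      have : j ≠ i := Finset.ne_of_mem_erase hj
      simp [Pi.single_eq_of_ne this]
    rw [h3]
    simp only [Pi.add_apply, Pi.single_eq_same, Nat.factorial_succ]
    push_cast
    ring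
  rw [h1, h2, show ∑ j, b j + 1 + 4 = (∑ j, b j + 4) + 1 by ring, Nat.factorial_succ]
  have h4 : (((∑ j, b j) + 5 : ℕ) : ℝ) ≠ 0 := by positivity
  have h5 : ((((∑ j, b j) + 4).factorial : ℕ) : ℝ) ≠ 0 := by positivity
  have h6 : (∑ j, b j + 4) + 1 = ∑ j, b j + 5 := rfl
  rw [h6]
  push_cast at *
  field_simp

/-- homogeneous polynomial with given coefficients -/
def pol (m : ℤ) (v : (Fin 5 → ℕ) → ℂ) : C(S9, ℂ) := ∑ a ∈ Nn m, v a • mc a

/-- scaled partial derivative -/
def dI (i : Fin 5) (k : ℕ) (v : (Fin 5 → ℕ) → ℂ) : C(S9, ℂ) :=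
  ∑ a ∈ Nn (k + 1), (v a * ((a i : ℂ) / (k + 5))) • mc (a - Pi.single i 1)

theorem dI_mem (i : Fin 5) (k : ℕ) (v : (Fin 5 → ℕ) → ℂ) :
    dI i k v ∈ Submodule.span ℂ (mc '' (Nn k : Set (Fin 5 → ℕ))) := by
  unfold dI
  refine Submodule.sum_mem _ fun a ha => ?_
  by_cases h : a i = 0
  · simp [h]
  · refine Submodule.smul_mem _ _ (Submodule.subset_span ⟨_, ?_, rfl⟩)
    have h1 := mem_Nn.1 ha
    rw [← red_add h] at h1
    simp only [Pi.add_apply, Finset.sum_add_distrib, sum_single] at h1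
    refine mem_Nn.2 ?_
    push_cast at h1 ⊢
    linarith

theorem dI_orth (i : Fin 5) (k : ℕ) (v : (Fin 5 → ℕ) → ℂ) (b : Fin 5 → ℕ) (hb : b ∈ Nn k) :
    ⟪jj sg (mc b), jj sg (star (zc i) * pol (k + 1) v - dI i k v)⟫_ℂ = 0 := by
  have h1 : star (zc i) * pol (k + 1) v - dI i k v =
      ∑ a ∈ Nn (k + 1), (v a • (star (zc i) * mc a) -
        (v a * ((a i : ℂ) / (k + 5))) • mc (a - Pi.single i 1)) := by
    unfold pol dI
    rw [Finset.mul_sum, ← Finset.sum_sub_distrib]
    refine Finset.sum_congr rfl fun a _ => ?_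
    rw [mul_smul_comm]
  rw [h1, map_sum, inner_sum]
  refine Finset.sum_eq_zero fun a ha => ?_
  have hbk : ∑ j, b j = k := by exact_mod_cast mem_Nn.1 hb
  have hak : ∑ j, a j = k + 1 := by exact_mod_cast mem_Nn.1 ha
  rw [map_sub, map_smul, map_smul, inner_sub_right, inner_smul_right, inner_smul_right,
    ← jj_adj, zc_mul_mc]
  have hs : ∑ j, (b + Pi.single i 1 : Fin 5 → ℕ) j = k + 1 := by
    simp only [Pi.add_apply, Finset.sum_add_distrib, sum_single, hbk]
  rw [inner_mc _ _ (hs.trans hak.symm)]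
  by_cases h : a i = 0
  · have : b + Pi.single i 1 ≠ a := by
      rintro rfl
      simp at h
    rw [if_neg this, h]
    simp
  · have h2 : ∑ j, (a - Pi.single i 1 : Fin 5 → ℕ) j = k := by
      have := hak
      rw [← red_add h] at this
      simp only [Pi.add_apply, Finset.sum_add_distrib, sum_single] at this
      omega
    rw [inner_mc _ _ (hbk.trans h2.symm)]
    by_cases h3 : b = a - Pi.single i 1
    · have h4 : b + Pi.single i 1 = a := by rw [h3, red_add h]
      rw [if_pos h4, if_pos h3]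
      have h5 := cN_inc b i
      rw [hbk] at h5
      rw [h5]
      have h6 : a i = b i + 1 := by rw [← h4]; simp
      rw [h6]
      push_cast
      ring
    · have h4 : b + Pi.single i 1 ≠ a := by
        rintro rfl
        apply h3
        funext j
        simp
      rw [if_neg h3, if_neg h4]
      simp

theorem sum_dI (k : ℕ) (v : (Fin 5 → ℕ) → ℂ) :
    ∑ i, zc i * dI i k v = (((k : ℂ) + 1) / (k + 5)) • pol (k + 1) v := by
  unfold dI pol
  simp only [Finset.mul_sum, Finset.smul_sum]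
  rw [Finset.sum_comm]
  refine Finset.sum_congr rfl fun a ha => ?_
  have hak : ∑ j, a j = k + 1 := by exact_mod_cast mem_Nn.1 ha
  have h1 : ∀ i, zc i * ((v a * ((a i : ℂ) / (k + 5))) • mc (a - Pi.single i 1)) =
      (v a * ((a i : ℂ) / (k + 5))) • mc a := by
    intro i
    by_cases h : a i = 0
    · simp [h]
    · rw [mul_smul_comm, zc_mul_mc, red_add h]
  simp only [h1]
  rw [← Finset.sum_smul, ← Finset.mul_sum, ← Finset.sum_div, smul_smul]
  congr 1
  have : (∑ i, (a i : ℂ)) = (k : ℂ) + 1 := by exact_mod_cast hak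
  rw [this]
  ring

theorem hankel (i : Fin 5) (k : ℕ) (v : (Fin 5 → ℕ) → ℂ) :
    ‖jj sg (star (zc i) * pol (k + 1) v - dI i k v)‖ ^ 2 ≤
      4 / (k + 5) * ‖jj sg (pol (k + 1) v)‖ ^ 2 := by
  set p := pol (k + 1) v with hp
  have h0 : ∀ i, ⟪jj sg (dI i k v), jj sg (star (zc i) * p - dI i k v)⟫_ℂ = 0 := by
    intro i
    have h1 : ∀ q ∈ Submodule.span ℂ (mc '' (Nn k : Set (Fin 5 → ℕ))),
        ⟪jj sg q, jj sg (star (zc i) * p - dI i k v)⟫_ℂ = 0 := by
      intro q hq
      induction hq using Submodule.span_induction with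
      | mem x hx =>
        obtain ⟨b, hb, rfl⟩ := hx
        exact dI_orth i k v b hb
      | zero => simp
      | add x y _ _ hx hy => rw [map_add, inner_add_left, hx, hy, add_zero]
      | smul c x _ hx => rw [map_smul, inner_smul_left, hx, mul_zero]
    exact h1 _ (dI_mem i k v)
  have h1 : ∀ i, ((‖jj sg (star (zc i) * p - dI i k v)‖ ^ 2 : ℝ) : ℂ) =
      ⟪jj sg p, jj sg (zc i * star (zc i) * p - zc i * dI i k v)⟫_ℂ := by
    intro i
    have e1 : ((‖jj sg (star (zc i) * p - dI i k v)‖ ^ 2 : ℝ) : ℂ) =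
        ⟪jj sg (star (zc i) * p - dI i k v), jj sg (star (zc i) * p - dI i k v)⟫_ℂ := by
      rw [inner_self_eq_norm_sq_to_K]; norm_cast
    rw [e1]
    nth_rewrite 1 [map_sub]
    rw [inner_sub_left, h0 i, sub_zero, jj_adj, star_star]
    congr 2
    ring
  have h2 : ((∑ i, ‖jj sg (star (zc i) * p - dI i k v)‖ ^ 2 : ℝ) : ℂ) =
      ((4 / (k + 5) * ‖jj sg p‖ ^ 2 : ℝ) : ℂ) := by
    rw [Complex.ofReal_sum]
    simp only [h1]
    rw [← inner_sum, ← map_sum, Finset.sum_sub_distrib, ← Finset.sum_mul]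
    have e1 : ∑ i, zc i * star (zc i) = 1 := by
      rw [← sum_zc]
      exact Finset.sum_congr rfl fun i _ => mul_comm _ _
    rw [e1, one_mul, sum_dI, ← hp]
    have e2 : p - ((((k : ℂ) + 1) / (k + 5)) • p) = ((4 : ℂ) / (k + 5)) • p := by
      have e3 : (1 : ℂ) - ((k : ℂ) + 1) / (k + 5) = 4 / (k + 5) := by
        have : (k : ℂ) + 5 ≠ 0 := by exact_mod_cast (Nat.succ_ne_zero (k + 4))
        field_simp
        ring
      rw [← e3, sub_smul, one_smul]
    rw [e2, map_smul, inner_smul_right, inner_self_eq_norm_sq_to_K]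
    push_cast
    rfl
  have h3 : ∑ i, ‖jj sg (star (zc i) * p - dI i k v)‖ ^ 2 = 4 / (k + 5) * ‖jj sg p‖ ^ 2 := by
    exact_mod_cast h2
  rw [← h3]
  exact Finset.single_le_sum (f := fun i => ‖jj sg (star (zc i) * p - dI i k v)‖ ^ 2)
    (fun _ _ => by positivity) (Finset.mem_univ i)

end

end Pool.Agent.Work.MP_2a78db_gt.D2
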