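import Pool.Agent.Work.MP_2a78db_gt.D2G

/-!
Sequences killed by the fifth difference.
-/

namespace Pool.Agent.Work.MP_2a78db_gt.D2

open Filter Topology

noncomputable section

/-- fifth difference -/
def D5 (q : ℤ → ℤ) (m : ℤ) : ℤ :=
  q m - 5 * q (m + 1) + 10 * q (m + 2) - 10 * q (m + 3) + 5 * q (m + 4) - q (m + 5)

theorem D5_eq_zero_all (r : ℤ → ℤ) (h : ∀ m, D5 r m = 0) (h' : ∀ᶠ m in atTop, r m = 0) (m : ℤ) :
    r m = 0 := by
  obtain ⟨N, hN⟩ := eventually_atTop.1 h'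
  have key : ∀ n : ℕ, ∀ m : ℤ, N - n ≤ m → r m = 0 := by
    intro n
    induction n with
    | zero => intro m hm; exact hN m (by simpa using hm)
    | succ n ih =>
      intro m hm
      push_cast at hm
      have h1 := h m
      unfold D5 at h1
      rw [ih (m + 1) (by linarith), ih (m + 2) (by linarith), ih (m + 3) (by linarith),
        ih (m + 4) (by linarith), ih (m + 5) (by linarith)] at h1
      linarith
  exact key (N - m).toNat m (by have := Int.self_le_toNat (N - m); linarith)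

theorem D5_unique (q r : ℤ → ℤ) (hq : ∀ m, D5 q m = 0) (hr : ∀ m, D5 r m = 0)
    (h' : ∀ᶠ m in atTop, q m = r m) (m : ℤ) : q m = r m := by
  have h := D5_eq_zero_all (fun m => q m - r m) (fun m => by
    have h1 := hq m
    have h2 := hr m
    unfold D5 at *
    linarith) (h'.mono fun m hm => by rw [hm, sub_self]) m
  linarith

/-- backward recursion -/
def bk (h : ℤ → ℤ) (N : ℤ) : ℕ → ℤ
  | 0 => h (N + 4)
  | 1 => h (N + 3)
  | 2 => h (N + 2)
  | 3 => h (N + 1)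
  | 4 => h N
  | n + 5 => 5 * bk h N (n + 4) - 10 * bk h N (n + 3) + 10 * bk h N (n + 2) - 5 * bk h N (n + 1) +
      bk h N n

theorem exists_ext (h : ℤ → ℤ) (hh : ∀ᶠ m in atTop, D5 h m = 0) :
    ∃ q : ℤ → ℤ, (∀ m, D5 q m = 0) ∧ ∀ᶠ m in atTop, q m = h m := by
  obtain ⟨N, hN⟩ := eventually_atTop.1 hh
  set q : ℤ → ℤ := fun m => if N ≤ m then h m else bk h N (N + 4 - m).toNat with hq
  have h1 : ∀ m, N ≤ m → q m = h m := fun m hm => by simp only [hq]; rw [if_pos hm]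
  have h2 : ∀ m : ℤ, ∀ n : ℕ, m = N + 4 - n → q m = bk h N n := by
    intro m n hm
    by_cases h3 : N ≤ m
    · rw [h1 m h3]
      have h4 : n ≤ 4 := by
        have : (n : ℤ) ≤ 4 := by linarith
        exact_mod_cast this
      subst hm
      interval_cases n
      · simp [bk]
      · simp only [bk]; congr 1; push_cast; ring
      · simp only [bk]; congr 1; push_cast; ring
      · simp only [bk]; congr 1; push_cast; ring
      · simp only [bk]; congr 1; push_cast; ring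
    · simp only [hq]
      rw [if_neg h3]
      congr 1
      omega
  refine ⟨q, fun m => ?_, eventually_atTop.2 ⟨N, h1⟩⟩
  by_cases h3 : N ≤ m
  · have := hN m h3
    unfold D5 at *
    rw [h1 m h3, h1 _ (by linarith), h1 _ (by linarith), h1 _ (by linarith), h1 _ (by linarith),
      h1 _ (by linarith)]
    exact this
  · push Not at h3
    obtain ⟨n, hn⟩ : ∃ n : ℕ, m = N + 4 - ((n + 5 : ℕ) : ℤ) := ⟨(N - 1 - m).toNat, by
      push_cast
      omega⟩
    unfold D5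
    rw [h2 m (n + 5) hn, h2 (m + 1) (n + 4) (by rw [hn]; push_cast; ring),
      h2 (m + 2) (n + 3) (by rw [hn]; push_cast; ring), h2 (m + 3) (n + 2) (by rw [hn]; push_cast; ring),
      h2 (m + 4) (n + 1) (by rw [hn]; push_cast; ring), h2 (m + 5) n (by rw [hn]; push_cast; ring)]
    rw [bk]
    ring

/-- the extension of a sequence -/
def ext (h : ℤ → ℤ) : ℤ → ℤ := by
  classical
  exact if H : ∃ q : ℤ → ℤ, (∀ m, D5 q m = 0) ∧ ∀ᶠ m in atTop, q m = h m then H.choose else 0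

theorem ext_spec (h : ℤ → ℤ) (hh : ∀ᶠ m in atTop, D5 h m = 0) :
    (∀ m, D5 (ext h) m = 0) ∧ ∀ᶠ m in atTop, ext h m = h m := by
  have H := exists_ext h hh
  unfold ext
  rw [dif_pos H]
  exact H.choose_spec

theorem dim5_mul (m : ℤ) : 24 * dim5 m = (m + 1) * (m + 2) * (m + 3) * (m + 4) := by
  unfold dim5
  refine Int.mul_ediv_cancel' ?_
  have h : ∀ n : ℕ, (24 : ℤ) ∣ ((n : ℤ) + 1) * (n + 2) * (n + 3) * (n + 4) := by
    intro n
    have h1 := Nat.factorial_dvd_ascFactorial (n + 1) 4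
    have h2 : (n + 1).ascFactorial 4 = (n + 1) * (n + 2) * (n + 3) * (n + 4) := by
      simp [Nat.ascFactorial_succ]
      ring
    rw [h2] at h1
    have h3 : ((Nat.factorial 4 : ℕ) : ℤ) ∣ (((n + 1) * (n + 2) * (n + 3) * (n + 4) : ℕ) : ℤ) :=
      Int.natCast_dvd_natCast.2 h1
    push_cast at h3
    simpa [Nat.factorial] using h3
  -- reduce to residues
  have h4 : ∀ m : ℤ, (24 : ℤ) ∣ (m + 1) * (m + 2) * (m + 3) * (m + 4) := by
    intro m
    obtain ⟨k, hk⟩ : ∃ k : ℕ, 0 ≤ m + 24 * k := ⟨m.natAbs, by omega⟩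
    obtain ⟨n, hn⟩ := Int.eq_ofNat_of_zero_le hk
    have h5 := h n
    have h6 : m = n - 24 * k := by rw [← hn]; ring
    have h7 : (m + 1) * (m + 2) * (m + 3) * (m + 4) ≡
        ((n : ℤ) + 1) * (n + 2) * (n + 3) * (n + 4) [ZMOD 24] := by
      have e : m ≡ n [ZMOD 24] := by
        rw [h6]
        exact (Int.modEq_iff_dvd.2 ⟨k, by ring⟩)
      exact (((e.add_right 1).mul (e.add_right 2)).mul (e.add_right 3)).mul (e.add_right 4)
    exact (Int.ModEq.dvd_iff h7).2 h5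
  exact h4 m

theorem D5_dim5 (c m : ℤ) : D5 (fun m => dim5 (m + c)) m = 0 := by
  unfold D5
  have h0 := dim5_mul (m + c)
  have h1 := dim5_mul (m + 1 + c)
  have h2 := dim5_mul (m + 2 + c)
  have h3 := dim5_mul (m + 3 + c)
  have h4 := dim5_mul (m + 4 + c)
  have h5 := dim5_mul (m + 5 + c)
  have : 24 * (dim5 (m + c) - 5 * dim5 (m + 1 + c) + 10 * dim5 (m + 2 + c) - 10 * dim5 (m + 3 + c) +
      5 * dim5 (m + 4 + c) - dim5 (m + 5 + c)) = 0 := by
    linear_combination h0 - 5 * h1 + 10 * h2 - 10 * h3 + 5 * h4 - h5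
  linarith

theorem D5_sum {ι : Type} [Fintype ι] (f : ι → ℤ → ℤ) (h : ∀ i m, D5 (f i) m = 0) (m : ℤ) :
    D5 (fun m => ∑ i, f i m) m = 0 := by
  have : D5 (fun m => ∑ i, f i m) m = ∑ i, D5 (f i) m := by
    unfold D5
    simp only [Finset.mul_sum, ← Finset.sum_sub_distrib, ← Finset.sum_add_distrib]
  rw [this]
  exact Finset.sum_eq_zero fun i _ => h i m

/-- alternating sum -/
def SS (u x : ℤ → ℤ) (m M : ℤ) : ℤ :=
  u m * x M - u (m + 1) * (5 * x M - x (M + 1)) +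
  u (m + 2) * (10 * x M - 5 * x (M + 1) + x (M + 2)) -
  u (m + 3) * (10 * x M - 10 * x (M + 1) + 5 * x (M + 2) - x (M + 3)) +
  u (m + 4) * (5 * x M - 10 * x (M + 1) + 10 * x (M + 2) - 5 * x (M + 3) + x (M + 4)) -
  u (m + 5) * (x M - 5 * x (M + 1) + 10 * x (M + 2) - 10 * x (M + 3) + 5 * x (M + 4) - x (M + 5))

theorem D5_SS_left (u x : ℤ → ℤ) (hu : ∀ m, D5 u m = 0) (m M : ℤ) :
    D5 (fun m => SS u x m M) m = 0 := by
  have h0 := hu m
  have h1 := hu (m + 1)
  have h2 := hu (m + 2)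
  have h3 := hu (m + 3)
  have h4 := hu (m + 4)
  have h5 := hu (m + 5)
  unfold D5 SS at *
  ring_nf at *
  linear_combination (x M) * h0 - (5 * x M - x (1 + M)) * h1 +
    (10 * x M - 5 * x (1 + M) + x (2 + M)) * h2 -
    (10 * x M - 10 * x (1 + M) + 5 * x (2 + M) - x (3 + M)) * h3 +
    (5 * x M - 10 * x (1 + M) + 10 * x (2 + M) - 5 * x (3 + M) + x (4 + M)) * h4 -
    (x M - 5 * x (1 + M) + 10 * x (2 + M) - 10 * x (3 + M) + 5 * x (4 + M) - x (5 + M)) * h5

theorem D5_SS_right (u x : ℤ → ℤ) (hx : ∀ m, D5 x m = 0) (m M : ℤ) :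
    D5 (fun M => SS u x m M) M = 0 := by
  have h0 := hx M
  have h1 := hx (M + 1)
  have h2 := hx (M + 2)
  have h3 := hx (M + 3)
  have h4 := hx (M + 4)
  have h5 := hx (M + 5)
  unfold D5 SS at *
  ring_nf at *
  linear_combination (u m - 5 * u (1 + m) + 10 * u (2 + m) - 10 * u (3 + m) + 5 * u (4 + m)
      - u (5 + m)) * h0 +
    (u (1 + m) - 5 * u (2 + m) + 10 * u (3 + m) - 10 * u (4 + m) + 5 * u (5 + m)) * h1 +
    (u (2 + m) - 5 * u (3 + m) + 10 * u (4 + m) - 10 * u (5 + m)) * h2 +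
    (u (3 + m) - 5 * u (4 + m) + 10 * u (5 + m)) * h3 +
    (u (4 + m) - 5 * u (5 + m)) * h4 + u (5 + m) * h5

theorem dim5_vals : dim5 (-4) = 0 ∧ dim5 (-3) = 0 ∧ dim5 (-2) = 0 ∧ dim5 (-1) = 0 ∧ dim5 0 = 1 ∧
    dim5 1 = 5 := by
  unfold dim5
  norm_num

/-- extraction of duality -/
theorem dual_of (q r : ℤ → ℤ) (hq : ∀ m, D5 q m = 0) (hr : ∀ m, D5 r m = 0)
    (h : ∀ᶠ γ : ℤ × ℤ in l2, SS q dim5 γ.1 γ.2 = SS dim5 r γ.1 γ.2) : q 0 = r (-5) := by
  have hd : ∀ m, D5 dim5 m = 0 := by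
    intro m
    have := D5_dim5 0 m
    simpa using this
  unfold l2 at h
  rw [prod_atTop_atTop_eq] at h
  obtain ⟨N, hN⟩ := eventually_atTop_prod_self.1 h
  have h1 : ∀ M, N ≤ M → ∀ m, SS q dim5 m M = SS dim5 r m M := by
    intro M hM m
    exact D5_unique (fun m => SS q dim5 m M) (fun m => SS dim5 r m M)
      (fun m => D5_SS_left q dim5 hq m M) (fun m => D5_SS_left dim5 r hd m M)
      (eventually_atTop.2 ⟨N, fun m hm => hN m M hm hM⟩) m
  have h2 : ∀ m M, SS q dim5 m M = SS dim5 r m M := by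
    intro m M
    exact D5_unique (fun M => SS q dim5 m M) (fun M => SS dim5 r m M)
      (fun M => D5_SS_right q dim5 hd m M) (fun M => D5_SS_right dim5 r hr m M)
      (eventually_atTop.2 ⟨N, fun M hM => h1 M hM m⟩) M
  have h3 := h2 (-4) (-4)
  obtain ⟨d4, d3, d2, d1, d0, d1'⟩ := dim5_vals
  have h4 := hr (-5)
  have h5 := hr (-4)
  unfold SS at h3
  unfold D5 at h4 h5
  norm_num [d4, d3, d2, d1, d0, d1'] at h3 h4 h5
  linarith

end

end Pool.Agent.Work.MP_2a78db_gt.D2
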