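import Mathlib

/-!
Fermionic Fock space over `Fin n`: creation and annihilation matrices indexed by finsets.
-/

namespace Pool.Agent.Work.MP_2a78db_gt.Fock

open Matrix

variable {n : ℕ}

/-- sign of moving an element past the smaller ones -/
def sg (i : Fin n) (S : Finset (Fin n)) : ℂ := (-1) ^ (S.filter (· < i)).card

theorem sg_mul_self (i : Fin n) (S : Finset (Fin n)) : sg i S * sg i S = 1 := by
  unfold sg
  rw [← pow_add, ← two_mul, pow_mul]; norm_num

theorem sg_conj (i : Fin n) (S : Finset (Fin n)) : (starRingEnd ℂ) (sg i S) = sg i S := by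
  unfold sg; simp

theorem filter_erase_self (i : Fin n) (S : Finset (Fin n)) :
    (S.erase i).filter (· < i) = S.filter (· < i) := by
  ext j; simp only [Finset.mem_filter, Finset.mem_erase]
  constructor
  · rintro ⟨⟨_, h⟩, h'⟩; exact ⟨h, h'⟩
  · rintro ⟨h, h'⟩; exact ⟨⟨ne_of_lt h', h⟩, h'⟩

theorem filter_insert_self (i : Fin n) (S : Finset (Fin n)) :
    (insert i S).filter (· < i) = S.filter (· < i) := by
  ext j; simp only [Finset.mem_filter, Finset.mem_insert]
  constructor
  · rintro ⟨h | h, h'⟩
    · exact absurd h' (by simp [h])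
    · exact ⟨h, h'⟩
  · rintro ⟨h, h'⟩; exact ⟨Or.inr h, h'⟩

@[simp] theorem sg_erase_self (i : Fin n) (S : Finset (Fin n)) : sg i (S.erase i) = sg i S := by
  unfold sg; rw [filter_erase_self]

@[simp] theorem sg_insert_self (i : Fin n) (S : Finset (Fin n)) : sg i (insert i S) = sg i S := by
  unfold sg; rw [filter_insert_self]

theorem sg_insert_of_ne {i j : Fin n} {S : Finset (Fin n)} (hj : j ∉ S) :
    sg i (insert j S) = (if j < i then -1 else 1) * sg i S := by
  unfold sg
  rw [Finset.filter_insert]
  split_ifs with h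
  · rw [Finset.card_insert_of_notMem (by simp [hj]), pow_succ]; ring
  · simp

theorem sg_erase_of_mem {i j : Fin n} {S : Finset (Fin n)} (hj : j ∈ S) :
    sg i S = (if j < i then -1 else 1) * sg i (S.erase j) := by
  conv_lhs => rw [← Finset.insert_erase hj]
  exact sg_insert_of_ne (by simp)

/-- creation matrix -/
def cr (i : Fin n) : Matrix (Finset (Fin n)) (Finset (Fin n)) ℂ :=
  Matrix.of fun S R => if i ∉ R ∧ S = insert i R then sg i R else 0

/-- annihilation matrix -/
def an (i : Fin n) : Matrix (Finset (Fin n)) (Finset (Fin n)) ℂ := (cr i)ᴴ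

theorem cr_mulVec (i : Fin n) (f : Finset (Fin n) → ℂ) (S : Finset (Fin n)) :
    (cr i *ᵥ f) S = if i ∈ S then sg i S * f (S.erase i) else 0 := by
  unfold cr Matrix.mulVec dotProduct
  split_ifs with h
  · rw [Finset.sum_eq_single (S.erase i)]
    · simp [Finset.insert_erase h]
    · intro R _ hR
      simp only [Matrix.of_apply]
      rw [if_neg, zero_mul]
      rintro ⟨h1, h2⟩
      exact hR (by rw [h2, Finset.erase_insert h1])
    · simp
  · apply Finset.sum_eq_zero
    intro R _
    simp only [Matrix.of_apply]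
    rw [if_neg, zero_mul]
    rintro ⟨_, h2⟩
    exact h (by rw [h2]; simp)

theorem an_apply (i : Fin n) (S R : Finset (Fin n)) :
    an i S R = if i ∉ S ∧ R = insert i S then sg i S else 0 := by
  unfold an cr
  rw [Matrix.conjTranspose_apply]
  simp only [Matrix.of_apply]
  split_ifs
  · exact sg_conj i S
  · simp

theorem an_mulVec (i : Fin n) (f : Finset (Fin n) → ℂ) (S : Finset (Fin n)) :
    (an i *ᵥ f) S = if i ∈ S then 0 else sg i S * f (insert i S) := by
  unfold Matrix.mulVec dotProduct
  split_ifs with h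
  · apply Finset.sum_eq_zero
    intro R _
    show an i S R * f R = 0
    rw [an_apply, if_neg (by simp [h]), zero_mul]
  · rw [Finset.sum_eq_single (insert i S)]
    · show an i S (insert i S) * f (insert i S) = _
      rw [an_apply, if_pos ⟨h, rfl⟩]
    · intro R _ hR
      show an i S R * f R = 0
      rw [an_apply, if_neg (by simp [hR]), zero_mul]
    · simp

theorem ext_mulVec {A B : Matrix (Finset (Fin n)) (Finset (Fin n)) ℂ}
    (h : ∀ f, A *ᵥ f = B *ᵥ f) : A = B := by
  ext S R
  have := congrFun (h (Pi.single R 1)) S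
  simpa using this

theorem cr_cr (i j : Fin n) : cr i * cr j + cr j * cr i = 0 := by
  apply ext_mulVec
  intro f
  funext S
  rw [Matrix.add_mulVec, ← Matrix.mulVec_mulVec, ← Matrix.mulVec_mulVec, Pi.add_apply,
    cr_mulVec, cr_mulVec, cr_mulVec, cr_mulVec, Matrix.zero_mulVec, Pi.zero_apply]
  by_cases hij : i = j
  · subst hij; simp
  by_cases hi : i ∈ S <;> by_cases hj : j ∈ S
  · have h1 : j ∈ S.erase i := Finset.mem_erase.2 ⟨fun h => hij h.symm, hj⟩
    have h2 : i ∈ S.erase j := Finset.mem_erase.2 ⟨hij, hi⟩
    simp only [hi, hj, h1, h2, if_true]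
    rw [Finset.erase_right_comm, sg_erase_of_mem (i := i) hj, sg_erase_of_mem (i := j) hi]
    rcases lt_trichotomy i j with h | h | h
    · simp only [h, not_lt_of_gt h, if_true, if_false]; ring
    · exact absurd h hij
    · simp only [h, not_lt_of_gt h, if_true, if_false]; ring
  · simp [hi, hj]
  · simp [hi, hj]
  · simp [hi, hj]

theorem cr_an (i j : Fin n) : cr i * an j + an j * cr i = if i = j then 1 else 0 := by
  apply ext_mulVec
  intro f
  funext S
  rw [Matrix.add_mulVec, ← Matrix.mulVec_mulVec, ← Matrix.mulVec_mulVec, Pi.add_apply,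
    cr_mulVec, an_mulVec, an_mulVec, cr_mulVec]
  by_cases hij : i = j
  · subst hij
    by_cases hi : i ∈ S
    · simp only [hi, if_true, Finset.notMem_erase, if_false, add_zero, Finset.insert_erase,
        sg_erase_self, Matrix.one_mulVec]
      rw [← mul_assoc, sg_mul_self, one_mul]
    · simp only [hi, if_false, Finset.mem_insert_self, if_true, zero_add, sg_insert_self,
        Finset.erase_insert, not_false_eq_true, Matrix.one_mulVec]
      rw [← mul_assoc, sg_mul_self, one_mul]
  · rw [if_neg hij, Matrix.zero_mulVec, Pi.zero_apply]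
    by_cases hi : i ∈ S <;> by_cases hj : j ∈ S
    · have h1 : j ∈ S.erase i := Finset.mem_erase.2 ⟨fun h => hij h.symm, hj⟩
      simp [hi, hj, h1]
    · have h1 : j ∉ S.erase i := fun h => hj (Finset.mem_of_mem_erase h)
      have h2 : i ∈ insert j S := Finset.mem_insert_of_mem hi
      simp only [hi, hj, h1, h2, if_true, if_false]
      rw [Finset.erase_insert_of_ne (fun h => hij h.symm), sg_insert_of_ne (i := i) hj,
        sg_erase_of_mem (i := j) hi]
      rcases lt_trichotomy i j with h | h | h
      · simp only [h, not_lt_of_gt h, if_true, if_false]; ring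
      · exact absurd h hij
      · simp only [h, not_lt_of_gt h, if_true, if_false]; ring
    · have h2 : i ∉ insert j S := by simp [hi, hij]
      simp [hi, hj]
    · have h2 : i ∉ insert j S := by simp [hi, hij]
      simp [hi, hj, h2]

theorem an_an (i j : Fin n) : an i * an j + an j * an i = 0 := by
  have h := congrArg Matrix.conjTranspose (cr_cr j i)
  rw [Matrix.conjTranspose_add, Matrix.conjTranspose_mul, Matrix.conjTranspose_mul,
    Matrix.conjTranspose_zero] at h
  exact h

theorem an_cr (i j : Fin n) : an i * cr j + cr j * an i = if i = j then 1 else 0 := by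
  rw [add_comm, cr_an]
  by_cases h : i = j
  · simp [h]
  · rw [if_neg h, if_neg (fun h' => h h'.symm)]

/-- general odd element of degree one -/
def gen (a b : Fin n → ℂ) : Matrix (Finset (Fin n)) (Finset (Fin n)) ℂ :=
  ∑ i, (a i • cr i + b i • an i)

theorem gen_anticomm (a b a' b' : Fin n → ℂ) :
    gen a b * gen a' b' + gen a' b' * gen a b = (∑ i, (a i * b' i + b i * a' i)) • 1 := by
  unfold gen
  rw [Finset.sum_mul_sum, Finset.sum_mul_sum]
  rw [Finset.sum_comm (f := fun i j => (a' i • cr i + b' i • an i) * (a j • cr j + b j • an j))]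
  rw [← Finset.sum_add_distrib, Finset.sum_smul]
  refine Finset.sum_congr rfl fun i _ => ?_
  rw [← Finset.sum_add_distrib]
  rw [Finset.sum_eq_single i]
  · have h1 := cr_cr i i
    have h2 := an_an i i
    have h3 := cr_an i i
    have h4 := an_cr i i
    rw [if_pos rfl] at h3 h4
    have h1' : cr i * cr i = 0 := by
      have : (2 : ℂ) • (cr i * cr i) = 0 := by rw [two_smul]; exact h1
      exact (smul_eq_zero.1 this).resolve_left two_ne_zero
    have h2' : an i * an i = 0 := by
      have : (2 : ℂ) • (an i * an i) = 0 := by rw [two_smul]; exact h2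
      exact (smul_eq_zero.1 this).resolve_left two_ne_zero
    simp only [add_mul, mul_add, smul_mul_assoc, mul_smul_comm, h1', h2', smul_zero, zero_add,
      add_zero]
    rw [← h3]
    module
  · intro j _ hj
    have h1 := cr_cr i j
    have h2 := an_an i j
    have h3 := cr_an i j
    have h4 := an_cr i j
    rw [if_neg (fun h => hj h.symm)] at h3 h4
    have h1' : cr j * cr i = - (cr i * cr j) := by rw [eq_neg_iff_add_eq_zero, add_comm]; exact h1
    have h2' : an j * an i = - (an i * an j) := by rw [eq_neg_iff_add_eq_zero, add_comm]; exact h2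
    have h3' : an j * cr i = - (cr i * an j) := by rw [eq_neg_iff_add_eq_zero, add_comm]; exact h3
    have h4' : cr j * an i = - (an i * cr j) := by rw [eq_neg_iff_add_eq_zero, add_comm]; exact h4
    simp only [add_mul, mul_add, smul_mul_assoc, mul_smul_comm, h1', h2', h3', h4']
    module
  · simp

theorem gen_conjTranspose (a b : Fin n → ℂ) :
    (gen a b)ᴴ = gen (fun i => (starRingEnd ℂ) (b i)) (fun i => (starRingEnd ℂ) (a i)) := by
  unfold gen
  rw [Matrix.conjTranspose_sum]
  refine Finset.sum_congr rfl fun i _ => ?_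
  rw [Matrix.conjTranspose_add, Matrix.conjTranspose_smul, Matrix.conjTranspose_smul]
  have : (an i)ᴴ = cr i := Matrix.conjTranspose_conjTranspose _
  rw [this, add_comm]
  rfl

/-- Clifford multiplication by a vector -/
def c (v : Fin n → ℂ) : Matrix (Finset (Fin n)) (Finset (Fin n)) ℂ :=
  gen v (fun i => (starRingEnd ℂ) (v i))

theorem c_conjTranspose (v : Fin n → ℂ) : (c v)ᴴ = c v := by
  unfold c
  rw [gen_conjTranspose]
  simp

theorem c_anticomm (v w : Fin n → ℂ) :
    c v * c w + c w * c v = ((2 * ∑ j, ((starRingEnd ℂ) (v j) * w j).re : ℝ) : ℂ) • 1 := by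
  unfold c
  rw [gen_anticomm]
  congr 1
  rw [Complex.ofReal_mul, Complex.ofReal_sum, Finset.mul_sum]
  refine Finset.sum_congr rfl fun i _ => ?_
  apply Complex.ext <;> simp <;> ring

theorem cr_apply_card {i : Fin n} {S R : Finset (Fin n)} (h : cr i S R ≠ 0) :
    S.card = R.card + 1 := by
  unfold cr at h
  simp only [Matrix.of_apply, ne_eq, ite_eq_right_iff, Classical.not_imp] at h
  obtain ⟨⟨h1, h2⟩, _⟩ := h
  rw [h2, Finset.card_insert_of_notMem h1]

theorem an_apply_card {i : Fin n} {S R : Finset (Fin n)} (h : an i S R ≠ 0) :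
    R.card = S.card + 1 := by
  rw [an_apply] at h
  simp only [ne_eq, ite_eq_right_iff, Classical.not_imp] at h
  obtain ⟨⟨h1, h2⟩, _⟩ := h
  rw [h2, Finset.card_insert_of_notMem h1]

theorem gen_apply (a b : Fin n → ℂ) (S R : Finset (Fin n)) :
    gen a b S R = ∑ i, (a i * cr i S R + b i * an i S R) := by
  unfold gen
  rw [Matrix.sum_apply]
  simp

/-- equivariance of degree one elements -/
theorem gen_equivariant (a b : Fin n → ℂ) (l : ℂ) (S R : Finset (Fin n)) :
    gen (fun i => l * a i) (fun i => l⁻¹ * b i) S R =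
      l ^ ((S.card : ℤ) - (R.card : ℤ)) * gen a b S R := by
  rw [gen_apply, gen_apply, Finset.mul_sum]
  refine Finset.sum_congr rfl fun i _ => ?_
  rw [mul_add]
  congr 1
  · by_cases h : cr i S R = 0
    · simp [h]
    · have := cr_apply_card h
      rw [this]; push_cast
      rw [show (R.card : ℤ) + 1 - R.card = 1 by ring, zpow_one]; ring
  · by_cases h : an i S R = 0
    · simp [h]
    · have := an_apply_card h
      rw [this]; push_cast
      rw [show (S.card : ℤ) - (S.card + 1) = -1 by ring, _root_.zpow_neg_one]; ring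

/-- the parity operator -/
def par : Matrix (Finset (Fin n)) (Finset (Fin n)) ℂ :=
  Matrix.diagonal fun S => (-1) ^ S.card

theorem par_mul_par : (par : Matrix (Finset (Fin n)) (Finset (Fin n)) ℂ) * par = 1 := by
  unfold par
  rw [Matrix.diagonal_mul_diagonal]
  rw [← Matrix.diagonal_one]
  congr 1
  funext S
  rw [← pow_add, ← two_mul, pow_mul]; norm_num

theorem par_gen (a b : Fin n → ℂ) : par * gen a b = - (gen a b * par) := by
  ext S R
  rw [Matrix.neg_apply]
  unfold par
  rw [Matrix.diagonal_mul, Matrix.mul_diagonal, gen_apply, Finset.mul_sum, Finset.sum_mul,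
    ← Finset.sum_neg_distrib]
  refine Finset.sum_congr rfl fun i _ => ?_
  have e1 : (-1 : ℂ) ^ S.card * cr i S R = - (cr i S R * (-1) ^ R.card) := by
    by_cases h : cr i S R = 0
    · simp [h]
    · rw [cr_apply_card h, pow_succ]; ring
  have e2 : (-1 : ℂ) ^ S.card * an i S R = - (an i S R * (-1) ^ R.card) := by
    by_cases h : an i S R = 0
    · simp [h]
    · rw [an_apply_card h, pow_succ]; ring
  linear_combination a i * e1 + b i * e2

theorem gen_add (a b a' b' : Fin n → ℂ) : gen (a + a') (b + b') = gen a b + gen a' b' := by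
  unfold gen
  rw [← Finset.sum_add_distrib]
  refine Finset.sum_congr rfl fun i _ => ?_
  simp only [Pi.add_apply]
  module

theorem gen_smul (t : ℂ) (a b : Fin n → ℂ) : gen (t • a) (t • b) = t • gen a b := by
  unfold gen
  rw [Finset.smul_sum]
  refine Finset.sum_congr rfl fun i _ => ?_
  simp only [Pi.smul_apply, smul_eq_mul]
  module

theorem c_add (v w : Fin n → ℂ) : c (v + w) = c v + c w := by
  unfold c
  rw [← gen_add]
  congr 1
  funext i; simp

theorem c_smul (t : ℝ) (v : Fin n → ℂ) : c (t • v) = (t : ℂ) • c v := by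
  unfold c
  rw [← gen_smul]
  congr 1
  funext i; simp

theorem gen_single_left (i : Fin n) : gen (Pi.single i 1) 0 = cr i := by
  unfold gen
  rw [Finset.sum_eq_single i]
  · simp
  · intro j _ hj; simp [Pi.single_apply, hj]
  · simp

theorem gen_single_right (i : Fin n) : gen 0 (Pi.single i 1) = an i := by
  unfold gen
  rw [Finset.sum_eq_single i]
  · simp
  · intro j _ hj; simp [Pi.single_apply, hj]
  · simp

theorem c_single (i : Fin n) : c (Pi.single i 1) = cr i + an i := by
  unfold c gen
  rw [Finset.sum_eq_single i]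
  · simp
  · intro j _ hj; simp [Pi.single_apply, hj]
  · simp

theorem c_single_I (i : Fin n) : c (Pi.single i Complex.I) = Complex.I • (cr i - an i) := by
  unfold c gen
  rw [Finset.sum_eq_single i]
  · simp [smul_sub, sub_eq_add_neg]
  · intro j _ hj; simp [Pi.single_apply, hj]
  · simp

/-- the vacuum vector -/
def vac : Finset (Fin n) → ℂ := Pi.single ∅ 1

theorem an_vac (i : Fin n) : an i *ᵥ vac = 0 := by
  funext S
  rw [an_mulVec]
  split_ifs
  · rfl
  · simp [vac, Pi.single_apply]

theorem eq_of_an_eq_zero {f : Finset (Fin n) → ℂ} (h : ∀ i, an i *ᵥ f = 0) :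
    f = f ∅ • vac := by
  funext S
  by_cases hS : S = ∅
  · subst hS; simp [vac]
  · obtain ⟨i, hi⟩ := Finset.nonempty_iff_ne_empty.2 hS
    have h1 := congrFun (h i) (S.erase i)
    rw [an_mulVec, if_neg (by simp), Finset.insert_erase hi, Pi.zero_apply, sg_erase_self] at h1
    have h2 : f S = 0 := by
      have := congrArg (fun t => sg i S * t) h1
      simp only [mul_zero] at this
      rw [← mul_assoc, sg_mul_self, one_mul] at this
      exact this
    rw [h2]
    simp [vac, Pi.single_apply, hS]

theorem cr_single {i : Fin n} {S : Finset (Fin n)} (h : i ∉ S) :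
    cr i *ᵥ (Pi.single S 1 : Finset (Fin n) → ℂ) = sg i S • (Pi.single (insert i S) 1) := by
  funext R
  rw [cr_mulVec, Pi.smul_apply, Pi.single_apply, Pi.single_apply, smul_eq_mul]
  by_cases hi : i ∈ R
  · by_cases hR : R = insert i S
    · rw [if_pos hi, if_pos hR, hR, if_pos (Finset.erase_insert h), sg_insert_self]
    · have h3 : ¬ (R.erase i = S) := fun h' => hR (by rw [← h', Finset.insert_erase hi])
      rw [if_pos hi, if_neg hR, if_neg h3, mul_zero, mul_zero]
  · have h3 : ¬ (R = insert i S) := by
      rintro rfl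
      exact hi (by simp)
    rw [if_neg hi, if_neg h3, mul_zero]

/-- Irreducibility of the Fock representation. -/
theorem scalar_of_commute (M : Matrix (Finset (Fin n)) (Finset (Fin n)) ℂ)
    (h1 : ∀ i, M * cr i = cr i * M) (h2 : ∀ i, M * an i = an i * M) :
    ∃ α : ℂ, M = α • 1 := by
  have hv : M *ᵥ vac = (M *ᵥ vac) ∅ • vac := by
    apply eq_of_an_eq_zero
    intro i
    rw [Matrix.mulVec_mulVec, ← h2, ← Matrix.mulVec_mulVec, an_vac, Matrix.mulVec_zero]
  refine ⟨(M *ᵥ vac) ∅, ?_⟩
  set α := (M *ᵥ vac) ∅
  have key : ∀ S : Finset (Fin n), M *ᵥ (Pi.single S 1 : Finset (Fin n) → ℂ) =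
      α • (Pi.single S 1) := by
    intro S
    induction S using Finset.induction_on with
    | empty => exact hv
    | insert i S hi ih =>
      have e := congrArg (fun f => cr i *ᵥ f) ih
      simp only [Matrix.mulVec_mulVec, ← h1, Matrix.mulVec_smul] at e
      rw [← Matrix.mulVec_mulVec, cr_single hi, Matrix.mulVec_smul, smul_comm] at e
      have h3 := congrArg (fun f => sg i S • f) e
      simp only [smul_smul] at h3
      have h4 := sg_mul_self i S
      rw [h4, one_smul] at h3
      rw [h3]
      congr 1
      linear_combination α * h4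
  apply Matrix.ext_of_mulVec_single
  intro S
  rw [key S, Matrix.smul_mulVec, Matrix.one_mulVec]

end Pool.Agent.Work.MP_2a78db_gt.Fock
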