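import Pool.Agent.Work.MP_2a78db_gt.Common
import Pool.Agent.Work.MP_2a78db_gt.Fock

/-!
Definitions for module D3.
-/

namespace Pool.Agent.Work.MP_2a78db_gt

open Matrix

/-- The properties of the index function of module D2. -/
structure IsIndex (q : (ι : Type) → [Fintype ι] → [DecidableEq ι] → (ι → ℤ) →
    (S9 → Matrix ι ι ℂ) → ℤ → ℤ) : Prop where
  add : ∀ (ι : Type) [Fintype ι] [DecidableEq ι] (w : ι → ℤ) (P Q : S9 → Matrix ι ι ℂ),
    IsProj w P → IsProj w Q → (∀ z, P z * Q z = 0) →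
      ∀ m, q ι w (fun z => P z + Q z) m = q ι w P m + q ι w Q m
  inv : ∀ (ι κ : Type) [Fintype ι] [DecidableEq ι] [Fintype κ] [DecidableEq κ]
    (w : ι → ℤ) (w' : κ → ℤ) (P : S9 → Matrix ι ι ℂ) (Q : S9 → Matrix κ κ ℂ)
    (X : S9 → Matrix κ ι ℂ) (Y : S9 → Matrix ι κ ℂ),
    IsProj w P → IsProj w' Q → Eqv w w' X → Eqv w' w Y →
    (∀ z, Y z * X z = P z) → (∀ z, X z * Y z = Q z) → ∀ m, q ι w P m = q κ w' Q m
  one : ∀ (ι : Type) [Fintype ι] [DecidableEq ι] (w : ι → ℤ) (m : ℤ),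
    q ι w (fun _ => 1) m = ∑ i, dim5 (m + w i)
  shift : ∀ (ι : Type) [Fintype ι] [DecidableEq ι] (w : ι → ℤ) (P : S9 → Matrix ι ι ℂ) (c : ℤ),
    IsProj w P → ∀ m, q ι (fun i => w i + c) P m = q ι w P (m + c)
  dual : ∀ (ι : Type) [Fintype ι] [DecidableEq ι] (w : ι → ℤ) (P : S9 → Matrix ι ι ℂ),
    IsProj w P → ∀ m, q ι (fun i => - w i) (fun z => (P z).map (starRingEnd ℂ)) m
      = q ι w P (-5 - m)

/-- weights of the Fock space -/
def wt (S : Finset (Fin 5)) : ℤ := (S.card : ℤ)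

/-- projection onto the even part of the Fock space -/
noncomputable def pev : Matrix (Finset (Fin 5)) (Finset (Fin 5)) ℂ := (1 / 2 : ℂ) • (1 + Fock.par)

/-- the projection `(1 + i c(z) c(u)) / 2` restricted to the even part -/
noncomputable def PP (z u : V5) : Matrix (Finset (Fin 5)) (Finset (Fin 5)) ℂ :=
  ((1 / 2 : ℂ) • (1 + Complex.I • (Fock.c z * Fock.c u))) * pev

/-- charge conjugation matrix (a real matrix) -/
noncomputable def CC : Matrix (Finset (Fin 5)) (Finset (Fin 5)) ℂ :=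
  Fock.c (Pi.single 0 1) * Fock.c (Pi.single 1 1) * Fock.c (Pi.single 2 1) *
    Fock.c (Pi.single 3 1) * Fock.c (Pi.single 4 1)

end Pool.Agent.Work.MP_2a78db_gt
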