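import Pool.Agent.Work.MP_2a78db_gt.StdCase

/-!
From an impossible family to the Clifford element `Th` with all its properties.
-/

namespace Pool.Agent.Work.MP_2a78db_gt

open Matrix Fock Cliff

/-- the sphere is connected -/
instance : PreconnectedSpace S9 := by
  have hconn : IsPreconnected (Metric.sphere (0 : EuclideanSpace ℂ (Fin 5)) 1) := by
    apply isPreconnected_sphere
    rw [← Module.finrank_eq_rank, Nat.one_lt_cast]
    have : Module.finrank ℝ (EuclideanSpace ℂ (Fin 5)) = 10 := by
      rw [← finrank_V5]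
      exact LinearEquiv.finrank_eq ((WithLp.linearEquiv 2 ℂ (Fin 5 → ℂ)).restrictScalars ℝ)
    rw [this]
    norm_num
  have : PreconnectedSpace (Metric.sphere (0 : EuclideanSpace ℂ (Fin 5)) 1) :=
    isPreconnected_iff_preconnectedSpace.1 hconn
  let f : Metric.sphere (0 : EuclideanSpace ℂ (Fin 5)) 1 → S9 := fun x => ⟨fun i => x.1 i, by
    have h := x.2
    rw [mem_sphere_zero_iff_norm, EuclideanSpace.norm_eq, Real.sqrt_eq_one] at h
    exact h⟩
  have hf : Continuous f := by
    apply Continuous.subtype_mk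
    exact continuous_pi fun i => by fun_prop
  have hs : Function.Surjective f := by
    intro z
    refine ⟨⟨WithLp.toLp 2 z.1, ?_⟩, rfl⟩
    rw [mem_sphere_zero_iff_norm, EuclideanSpace.norm_eq, Real.sqrt_eq_one]
    exact z.2
  refine ⟨?_⟩
  rw [← hs.range_eq, ← Set.image_univ]
  exact isPreconnected_univ.image f hf.continuousOn

theorem rip_self_S9 (z : S9) : rip z.1 z.1 = 1 := by
  refine Eq.trans ?_ z.2
  unfold rip
  refine Finset.sum_congr rfl fun j _ => ?_
  rw [← Complex.normSq_eq_norm_sq, mul_comm, Complex.mul_conj, Complex.ofReal_re]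

theorem continuous_val : Continuous fun z : S9 => (z.1 : V5) := continuous_subtype_val

/-- the point `e_0` -/
noncomputable def pt0 : S9 := ⟨eb 0, by
  rw [Finset.sum_eq_single 0]
  · simp [eb]
  · intro j _ hj
    simp [eb, hj]
  · simp⟩

namespace Family

variable {Om : S9 → V5 →L[ℝ] V5 →L[ℝ] ℝ} {u : S9 → V5}

theorem JBz (F : Family Om u) (z : S9) : JB (Om z) z.1 = u z :=
  JB_apply (F.nd z) (F.on_z z) (F.on_u z)

theorem u_rot (F : Family Om u) (l : Circle) (z : S9) : u (rot l z) = (l : ℂ) • u z := by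
  apply eq_of_rip
  intro x
  have hx : x = (l : ℂ) • ((l : ℂ)⁻¹ • x) := by
    rw [smul_smul, mul_inv_cancel₀ (Circle.coe_ne_zero l), one_smul]
  rw [← F.on_z]
  conv_lhs => rw [hx]
  conv_rhs => rw [hx]
  rw [rip_circle, ← F.on_z]
  exact F.equivariant l z z.1 _

theorem u_orth (F : Family Om u) (z : S9) : rip z.1 (u z) = 0 := by
  have h := F.on_u z (u z)
  rw [(F.nd z).1] at h
  linarith

theorem u_cont (F : Family Om u) : Continuous u := by
  have h : ∀ z, u z = JB (Om z) z.1 := fun z => (F.JBz z).symm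
  rw [show u = fun z => JB (Om z) z.1 from funext h]
  exact continuous_Jz (J := fun z => JB (Om z)) (fun v => JB_continuous F.cont F.nd v)
    continuous_val

theorem natural (F : Family Om u) (l : Circle) (z : S9) (v : V5) :
    JB (Om (rot l z)) ((l : ℂ) • v) = (l : ℂ) • JB (Om z) v :=
  JB_natural (F.nd z) (F.nd (rot l z)) (rotL (l : ℂ)) (rip_circle l) (F.equivariant l z) v

theorem condA_all (F : Family Om u) (z : S9) : condA (JB (Om z)) z.1 := by
  obtain ⟨z₀, hz₀⟩ := F.orient
  -- the standard structure at `z₀`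
  have hstd : condA Jst z₀.1 :=
    condA_const (T := S9) (J := fun _ => Jst) (z := fun z => z.1) (fun _ => Jst_OCS)
      rip_self_S9 (fun v => continuous_const) continuous_val pt0 condA_std_eb z₀
  -- along the path
  obtain ⟨γ, hγ⟩ := hz₀
  have hstdNd : stdForm (fun _ : Fin 5 => (1 : ℝ)) ∈ Nd V5 := by
    have := hγ 1
    rwa [γ.target] at this
  have hJ1 : JB (γ 1) = Jst := by
    rw [γ.target]
    exact LinearMap.ext fun v => JB_std hstdNd v
  have h0 : condA (JB (γ 0)) z₀.1 := by
    refine condA_const (T := unitInterval) (J := fun t => JB (γ t)) (z := fun _ => z₀.1)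
      (fun t => JB_OCS (hγ t)) (fun _ => rip_self_S9 z₀)
      (fun v => JB_continuous γ.continuous hγ v) continuous_const 1 ?_ 0
    rw [hJ1]
    exact hstd
  rw [γ.source] at h0
  exact condA_const (T := S9) (J := fun z => JB (Om z)) (z := fun z => z.1)
    (fun z => JB_OCS (F.nd z)) rip_self_S9 (fun v => JB_continuous F.cont F.nd v)
    continuous_val z₀ h0 z

/-- the Clifford element with all its properties -/
theorem exists_Th (F : Family Om u) :
    ∃ Th : S9 → Matrix (Finset (Fin 5)) (Finset (Fin 5)) ℂ, Eqv wt wt Th ∧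
      (∀ z, (Th z)ᴴ = - Th z) ∧
      (∀ z, Th z * Fock.c z.1 = Fock.c z.1 * Th z) ∧
      (∀ z, Th z * Fock.c (u z) = Fock.c (u z) * Th z) ∧
      (∀ z, Th z * Fock.par = Fock.par * Th z) ∧
      (∀ z, CC * (Th z).map (starRingEnd ℂ) = Th z * CC) ∧
      (∀ z, Th z * Th z * PP z.1 (u z) = - PP z.1 (u z)) := by
  refine ⟨fun z => Th (JB (Om z)) z.1, ⟨?_, ?_⟩, fun z => Th_skew (JB_OCS (F.nd z)) _,
    fun z => Th_comm_z (JB_OCS (F.nd z)) (rip_self_S9 z), fun z => ?_,
    fun z => Th_par _ _, fun z => CC_Th _ _, fun z => ?_⟩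
  · exact continuous_Th (J := fun z => JB (Om z)) (fun v => JB_continuous F.cont F.nd v)
      continuous_val
  · intro l z i j
    have h := Th_tw (J := JB (Om z)) (J' := JB (Om (rot l z))) l (F.natural l z) z.1
    have h2 : (rot l z).1 = (l : ℂ) • z.1 := rfl
    show Th (JB (Om (rot l z))) (rot l z).1 i j = _
    rw [h2, h]
    rfl
  · have h := Th_comm_Jz (JB_OCS (F.nd z)) (rip_self_S9 z)
    rwa [F.JBz] at h
  · have h := F.condA_all z
    unfold condA at h
    rwa [F.JBz] at h

end Family

end Pool.Agent.Work.MP_2a78db_gt
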