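import Pool.Agent.Work.MP_2a78db_gt.ThProp

/-!
The value of the index on the projection attached to the field `u1` is odd.
-/

namespace Pool.Agent.Work.MP_2a78db_gt.D3count

open Matrix Fock Cliff

section eqv

variable {ι κ η : Type} {w : ι → ℤ} {w' : κ → ℤ} {w'' : η → ℤ}

theorem Eqv.mul [Fintype κ] {A : S9 → Matrix η κ ℂ} {B : S9 → Matrix κ ι ℂ} (hA : Eqv w' w'' A)
    (hB : Eqv w w' B) : Eqv w w'' (fun z => A z * B z) := by
  refine ⟨hA.1.matrix_mul hB.1, fun l z i j => ?_⟩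
  show (A (rot l z) * B (rot l z)) i j = (l : ℂ) ^ (w'' i - w j) * (A z * B z) i j
  rw [Matrix.mul_apply, Matrix.mul_apply, Finset.mul_sum]
  refine Finset.sum_congr rfl fun k _ => ?_
  rw [hA.2, hB.2, show w'' i - w j = (w'' i - w' k) + (w' k - w j) by ring,
    zpow_add₀ (Circle.coe_ne_zero l)]
  ring

theorem Eqv.star {A : S9 → Matrix κ ι ℂ} (hA : Eqv w w' A) :
    Eqv w' w (fun z => (A z)ᴴ) := by
  refine ⟨hA.1.matrix_conjTranspose, fun l z i j => ?_⟩
  show (A (rot l z))ᴴ i j = (l : ℂ) ^ (w i - w' j) * (A z)ᴴ i j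
  rw [Matrix.conjTranspose_apply, Matrix.conjTranspose_apply, hA.2, star_mul', star_zpow₀,
    show w i - w' j = -(w' j - w i) by ring, _root_.zpow_neg, ← _root_.inv_zpow]
  congr 2
  rw [Complex.star_def, ← Circle.coe_inv_eq_conj, Circle.coe_inv]

theorem Eqv.add {A B : S9 → Matrix κ ι ℂ} (hA : Eqv w w' A) (hB : Eqv w w' B) :
    Eqv w w' (fun z => A z + B z) := by
  refine ⟨hA.1.add hB.1, fun l z i j => ?_⟩
  show (A (rot l z) + B (rot l z)) i j = (l : ℂ) ^ (w' i - w j) * (A z + B z) i j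
  rw [Matrix.add_apply, Matrix.add_apply, hA.2, hB.2]
  ring

theorem Eqv.diag [DecidableEq κ] (d : κ → ℂ) : Eqv w' w' (fun _ => Matrix.diagonal d) := by
  refine ⟨continuous_const, fun l z i j => ?_⟩
  show Matrix.diagonal d i j = (l : ℂ) ^ (w' i - w' j) * Matrix.diagonal d i j
  by_cases h : i = j
  · rw [h]; simp
  · rw [Matrix.diagonal_apply_ne _ h, mul_zero]

end eqv

/-- the nilpotent element -/
noncomputable def N (z : V5) : Matrix (Finset (Fin 5)) (Finset (Fin 5)) ℂ :=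
  gen (fun i => if i = 0 then 0 else z i) (fun i => if i = 0 then (starRingEnd ℂ) (z i) else 0)

theorem N_sq (z : V5) : N z * N z = 0 := by
  have h := gen_anticomm (fun i => if i = 0 then 0 else z i)
    (fun i => if i = 0 then (starRingEnd ℂ) (z i) else 0)
    (fun i => if i = 0 then 0 else z i) (fun i => if i = 0 then (starRingEnd ℂ) (z i) else 0)
  have e : ∑ i : Fin 5, ((if i = 0 then 0 else z i) *
      (if i = 0 then (starRingEnd ℂ) (z i) else 0) +
      (if i = 0 then (starRingEnd ℂ) (z i) else 0) * (if i = 0 then 0 else z i)) = 0 := by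
    apply Finset.sum_eq_zero
    intro i _
    split_ifs <;> simp
  rw [e, zero_smul, ← two_smul ℂ] at h
  exact (smul_eq_zero.1 h).resolve_left two_ne_zero

theorem NH_sq (z : V5) : (N z)ᴴ * (N z)ᴴ = 0 := by
  rw [← Matrix.conjTranspose_mul, N_sq, Matrix.conjTranspose_zero]

theorem N_star (z : V5) : (N z)ᴴ = gen (fun i => if i = 0 then z i else 0)
    (fun i => if i = 0 then 0 else (starRingEnd ℂ) (z i)) := by
  unfold N
  rw [gen_conjTranspose]
  congr 1
  · funext i; split_ifs <;> simp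
  · funext i; split_ifs <;> simp

theorem N_unit {z : V5} (hz : ∑ i, ‖z i‖ ^ 2 = 1) : N z * (N z)ᴴ + (N z)ᴴ * N z = 1 := by
  rw [N_star]
  unfold N
  rw [gen_anticomm]
  have e : ∑ i : Fin 5, ((if i = 0 then 0 else z i) *
      (if i = 0 then 0 else (starRingEnd ℂ) (z i)) +
      (if i = 0 then (starRingEnd ℂ) (z i) else 0) * (if i = 0 then z i else 0)) = 1 := by
    rw [← Complex.ofReal_one, ← hz, Complex.ofReal_sum]
    refine Finset.sum_congr rfl fun i _ => ?_
    split_ifs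
    · rw [zero_mul, zero_add, ← Complex.normSq_eq_norm_sq, mul_comm, Complex.mul_conj]
    · rw [zero_mul, add_zero, ← Complex.normSq_eq_norm_sq, Complex.mul_conj]
  rw [e, one_smul]

theorem c_eq (z : V5) : c z = N z + (N z)ᴴ := by
  rw [N_star]
  unfold N c
  rw [← gen_add]
  congr 1
  · funext i; simp only [Pi.add_apply]; split_ifs <;> simp
  · funext i; simp only [Pi.add_apply]; split_ifs <;> simp

theorem c_u1 (z : S9) : c (u1 z) = Complex.I • (N z.1 - (N z.1)ᴴ) := by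
  have h1 : N z.1 - (N z.1)ᴴ = N z.1 + (-1 : ℂ) • (N z.1)ᴴ := by
    rw [neg_smul, one_smul, sub_eq_add_neg]
  rw [h1, N_star]
  unfold N c
  rw [← gen_smul, ← gen_add, ← gen_smul]
  congr 1
  · funext i
    simp only [Pi.add_apply, Pi.smul_apply, smul_eq_mul, u1]
    split_ifs <;> simp
  · funext i
    simp only [Pi.add_apply, Pi.smul_apply, smul_eq_mul, u1]
    split_ifs <;> simp

theorem PP_u1 (z : S9) : PP z.1 (u1 z) = N z.1 * (N z.1)ᴴ * pev := by
  have h1 : c z.1 * c (u1 z) =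
      Complex.I • ((N z.1)ᴴ * N z.1 - N z.1 * (N z.1)ᴴ) := by
    rw [c_eq, c_u1, mul_smul_comm]
    congr 1
    rw [add_mul, mul_sub, mul_sub, N_sq, NH_sq]
    abel
  have h2 : (1 / 2 : ℂ) • (1 + Complex.I • (c z.1 * c (u1 z))) = N z.1 * (N z.1)ᴴ := by
    rw [h1, smul_smul, Complex.I_mul_I, neg_smul, one_smul, ← N_unit z.2]
    module
  unfold PP
  rw [h2]

theorem N_eqv : Eqv wt wt (fun z => N z.1) := by
  constructor
  · refine continuous_matrix fun S R => ?_
    have e : ∀ z : S9, N z.1 S R = ∑ i, ((if i = 0 then 0 else z.1 i) * cr i S R +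
        (if i = 0 then (starRingEnd ℂ) (z.1 i) else 0) * an i S R) :=
      fun t => gen_apply _ _ S R
    simp only [e]
    have hv : Continuous fun z : S9 => (z.1 : V5) := continuous_subtype_val
    have h1 : ∀ i, Continuous fun z : S9 => z.1 i := fun i => (continuous_apply i).comp hv
    have h2 : ∀ i, Continuous fun z : S9 => (starRingEnd ℂ) (z.1 i) := fun i =>
      Complex.continuous_conj.comp (h1 i)
    refine continuous_finsetSum _ fun i _ => ?_
    split_ifs
    · exact (continuous_const.mul continuous_const).add ((h2 i).mul continuous_const)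
    · exact ((h1 i).mul continuous_const).add (continuous_const.mul continuous_const)
  · intro l z i j
    have h := gen_equivariant (fun i => if i = 0 then 0 else z.1 i)
      (fun i => if i = 0 then (starRingEnd ℂ) (z.1 i) else 0) (l : ℂ) i j
    show N (rot l z).1 i j = _
    unfold wt
    have e : N (rot l z).1 = gen (fun i => (l : ℂ) * if i = 0 then 0 else z.1 i)
        (fun i => (l : ℂ)⁻¹ * if i = 0 then (starRingEnd ℂ) (z.1 i) else 0) := by
      unfold N rot
      congr 1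
      · funext i; simp only; split_ifs <;> simp
      · funext i
        simp only
        split_ifs
        · rw [map_mul, ← Circle.coe_inv_eq_conj, Circle.coe_inv]
        · simp
    rw [e, h]
    rfl

/-- degree -/
def dg (S : Finset (Fin 5)) : ℤ := if 0 ∈ S then (S.card : ℤ) - 1 else (S.card : ℤ) + 1

/-- projection onto a degree -/
noncomputable def D (j : ℤ) : Matrix (Finset (Fin 5)) (Finset (Fin 5)) ℂ :=
  Matrix.diagonal fun S => if dg S = j then 1 else 0

theorem N_deg {z : V5} {S R : Finset (Fin 5)} (h : N z S R ≠ 0) : dg S = dg R + 1 := by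
  unfold N at h
  rw [gen_apply] at h
  obtain ⟨i, _, hi⟩ := Finset.exists_ne_zero_of_sum_ne_zero h
  by_cases h0 : i = 0
  · subst h0
    simp only [if_true, zero_mul, zero_add] at hi
    have h1 : an 0 S R ≠ 0 := right_ne_zero_of_mul hi
    rw [an_apply] at h1
    simp only [ne_eq, ite_eq_right_iff, Classical.not_imp] at h1
    obtain ⟨⟨h2, h3⟩, _⟩ := h1
    unfold dg
    rw [h3, if_neg h2, if_pos (Finset.mem_insert_self _ _), Finset.card_insert_of_notMem h2]
    push_cast; ring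
  · simp only [if_neg h0, zero_mul, add_zero] at hi
    have h1 : cr i S R ≠ 0 := right_ne_zero_of_mul hi
    unfold cr at h1
    simp only [Matrix.of_apply, ne_eq, ite_eq_right_iff, Classical.not_imp] at h1
    obtain ⟨⟨h2, h3⟩, _⟩ := h1
    have h4 : (0 : Fin 5) ∈ S ↔ (0 : Fin 5) ∈ R := by
      rw [h3, Finset.mem_insert]
      exact ⟨fun h => h.resolve_left fun h' => h0 h'.symm, Or.inr⟩
    unfold dg
    by_cases h5 : (0 : Fin 5) ∈ R
    · rw [if_pos h5, if_pos (h4.2 h5), h3, Finset.card_insert_of_notMem h2]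
      push_cast; ring
    · rw [if_neg h5, if_neg (fun h => h5 (h4.1 h)), h3, Finset.card_insert_of_notMem h2]
      push_cast; ring

theorem N_D (z : V5) (j : ℤ) : N z * D j = D (j + 1) * N z := by
  ext S R
  unfold D
  rw [Matrix.mul_diagonal, Matrix.diagonal_mul]
  by_cases h : N z S R = 0
  · rw [h]; simp
  · have := N_deg h
    by_cases h2 : dg R = j
    · rw [if_pos h2, if_pos (by omega)]; ring
    · rw [if_neg h2, if_neg (by omega)]; ring

theorem D_star (j : ℤ) : (D j)ᴴ = D j := by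
  unfold D
  rw [Matrix.diagonal_conjTranspose]
  congr 1
  funext S
  simp only [Pi.star_apply]
  split_ifs <;> simp

theorem D_sq (j : ℤ) : D j * D j = D j := by
  unfold D
  rw [Matrix.diagonal_mul_diagonal]
  congr 1
  funext S
  split_ifs <;> simp

theorem D_ne {i j : ℤ} (h : i ≠ j) : D i * D j = 0 := by
  unfold D
  rw [Matrix.diagonal_mul_diagonal, ← Matrix.diagonal_zero]
  congr 1
  funext S
  by_cases h1 : dg S = i
  · rw [if_pos h1, if_neg (by omega), mul_zero]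
  · rw [if_neg h1, zero_mul]

theorem NH_D (z : V5) (j : ℤ) : (N z)ᴴ * D (j + 1) = D j * (N z)ᴴ := by
  have h := congrArg Matrix.conjTranspose (N_D z j)
  rw [Matrix.conjTranspose_mul, Matrix.conjTranspose_mul, D_star, D_star] at h
  exact h.symm

theorem NNH_D (z : V5) (j : ℤ) : N z * (N z)ᴴ * D j = D j * (N z * (N z)ᴴ) := by
  have h1 := N_D z (j - 1)
  have h2 := NH_D z (j - 1)
  rw [sub_add_cancel] at h1 h2
  rw [mul_assoc, h2, ← mul_assoc, h1, mul_assoc]

theorem NHN_D (z : V5) (j : ℤ) : (N z)ᴴ * N z * D j = D j * ((N z)ᴴ * N z) := by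
  rw [mul_assoc, N_D, ← mul_assoc, NH_D, mul_assoc]

theorem D_isProj (j : ℤ) : IsProj wt (fun _ : S9 => D j) :=
  ⟨Eqv.diag _, fun _ => ⟨D_sq j, D_star j⟩⟩

theorem N_NH_N {z : V5} (hz : ∑ i, ‖z i‖ ^ 2 = 1) : N z * (N z)ᴴ * N z = N z := by
  have h := N_unit hz
  calc N z * (N z)ᴴ * N z = N z * ((N z)ᴴ * N z) := mul_assoc _ _ _
    _ = N z * (1 - N z * (N z)ᴴ) := by rw [← h]; abel_nf
    _ = N z := by rw [mul_sub, mul_one, ← mul_assoc, N_sq, zero_mul, sub_zero]

theorem NNH_proj {z : V5} (hz : ∑ i, ‖z i‖ ^ 2 = 1) (j : ℤ) :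
    (N z * (N z)ᴴ * D j) * (N z * (N z)ᴴ * D j) = N z * (N z)ᴴ * D j ∧
      (N z * (N z)ᴴ * D j)ᴴ = N z * (N z)ᴴ * D j := by
  constructor
  · have h1 : N z * (N z)ᴴ * (N z * (N z)ᴴ) = N z * (N z)ᴴ := by
      rw [← mul_assoc, N_NH_N hz]
    calc (N z * (N z)ᴴ * D j) * (N z * (N z)ᴴ * D j)
        = N z * (N z)ᴴ * (D j * (N z * (N z)ᴴ)) * D j := by simp only [mul_assoc]
      _ = N z * (N z)ᴴ * (N z * (N z)ᴴ * D j) * D j := by rw [NNH_D]
      _ = (N z * (N z)ᴴ * (N z * (N z)ᴴ)) * (D j * D j) := by simp only [mul_assoc]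
      _ = _ := by rw [h1, D_sq]
  · rw [Matrix.conjTranspose_mul, Matrix.conjTranspose_mul, D_star,
      Matrix.conjTranspose_conjTranspose, ← NNH_D]

theorem NHN_proj {z : V5} (hz : ∑ i, ‖z i‖ ^ 2 = 1) (j : ℤ) :
    ((N z)ᴴ * N z * D j) * ((N z)ᴴ * N z * D j) = (N z)ᴴ * N z * D j ∧
      ((N z)ᴴ * N z * D j)ᴴ = (N z)ᴴ * N z * D j := by
  constructor
  · have h1 : (N z)ᴴ * N z * ((N z)ᴴ * N z) = (N z)ᴴ * N z := by
      rw [mul_assoc, ← mul_assoc (N z), N_NH_N hz]
    calc ((N z)ᴴ * N z * D j) * ((N z)ᴴ * N z * D j)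
        = (N z)ᴴ * N z * (D j * ((N z)ᴴ * N z)) * D j := by simp only [mul_assoc]
      _ = (N z)ᴴ * N z * ((N z)ᴴ * N z * D j) * D j := by rw [NHN_D]
      _ = ((N z)ᴴ * N z * ((N z)ᴴ * N z)) * (D j * D j) := by simp only [mul_assoc]
      _ = _ := by rw [h1, D_sq]
  · rw [Matrix.conjTranspose_mul, Matrix.conjTranspose_mul, D_star,
      Matrix.conjTranspose_conjTranspose, ← NHN_D]

theorem B_isProj (j : ℤ) : IsProj wt (fun z : S9 => N z.1 * (N z.1)ᴴ * D j) :=
  ⟨Eqv.mul (Eqv.mul N_eqv (Eqv.star N_eqv)) (Eqv.diag _), fun z => NNH_proj z.2 j⟩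

theorem A_isProj (j : ℤ) : IsProj wt (fun z : S9 => (N z.1)ᴴ * N z.1 * D j) :=
  ⟨Eqv.mul (Eqv.mul (Eqv.star N_eqv) N_eqv) (Eqv.diag _), fun z => NHN_proj z.2 j⟩

section index

variable {q : (ι : Type) → [Fintype ι] → [DecidableEq ι] → (ι → ℤ) →
    (S9 → Matrix ι ι ℂ) → ℤ → ℤ}

/-- index of the first half of a degree -/
noncomputable def qB (q : (ι : Type) → [Fintype ι] → [DecidableEq ι] → (ι → ℤ) →
    (S9 → Matrix ι ι ℂ) → ℤ → ℤ) (j : ℤ) : ℤ :=
  q (Finset (Fin 5)) wt (fun z => N z.1 * (N z.1)ᴴ * D j) (-5)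

theorem q_zero (hq : IsIndex q) : q (Finset (Fin 5)) wt (fun _ => 0) (-5) = 0 := by
  have h0 : IsProj wt (fun _ : S9 => (0 : Matrix (Finset (Fin 5)) (Finset (Fin 5)) ℂ)) := by
    have h := Eqv.diag (w' := wt) (fun _ : Finset (Fin 5) => (0 : ℂ))
    have e : (Matrix.diagonal fun _ : Finset (Fin 5) => (0 : ℂ)) = 0 := Matrix.diagonal_zero
    rw [e] at h
    exact ⟨h, fun _ => ⟨mul_zero _, Matrix.conjTranspose_zero⟩⟩
  have h := hq.add _ wt _ _ h0 h0 (fun _ => mul_zero _) (-5)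
  have e : (fun _ : S9 => (0 : Matrix (Finset (Fin 5)) (Finset (Fin 5)) ℂ) + 0) = fun _ => 0 := by
    funext _; rw [add_zero]
  rw [e] at h
  linarith

theorem q_step (hq : IsIndex q) (j : ℤ) :
    q (Finset (Fin 5)) wt (fun _ => D j) (-5) = qB q j + qB q (j + 1) := by
  have h1 := hq.add _ wt _ _ (B_isProj j) (A_isProj j) (fun z => by
    have : N z.1 * (N z.1)ᴴ * D j * ((N z.1)ᴴ * N z.1 * D j) =
        D j * N z.1 * ((N z.1)ᴴ * (N z.1)ᴴ) * N z.1 * D j := by
      rw [NNH_D]; simp only [mul_assoc]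
    rw [this, NH_sq]
    simp) (-5)
  have e1 : (fun z : S9 => N z.1 * (N z.1)ᴴ * D j + (N z.1)ᴴ * N z.1 * D j) =
      fun _ => D j := by
    funext z
    rw [← add_mul, N_unit z.2, one_mul]
  rw [e1] at h1
  have h2 := hq.inv _ _ wt wt _ _ (fun z => N z.1 * D j) (fun z => D j * (N z.1)ᴴ)
    (A_isProj j) (B_isProj (j + 1)) (Eqv.mul N_eqv (Eqv.diag _))
    (Eqv.mul (Eqv.diag _) (Eqv.star N_eqv)) (fun z => by
      calc D j * (N z.1)ᴴ * (N z.1 * D j) = D j * ((N z.1)ᴴ * N z.1) * D j := by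
            simp only [mul_assoc]
        _ = (N z.1)ᴴ * N z.1 * (D j * D j) := by rw [← NHN_D, mul_assoc]
        _ = _ := by rw [D_sq]) (fun z => by
      calc N z.1 * D j * (D j * (N z.1)ᴴ) = N z.1 * (D j * D j * (N z.1)ᴴ) := by
            simp only [mul_assoc]
        _ = N z.1 * ((N z.1)ᴴ * D (j + 1)) := by rw [D_sq, ← NH_D]
        _ = _ := by rw [mul_assoc]) (-5)
  rw [h1, h2]
  rfl

theorem q_D (hq : IsIndex q) (j : ℤ) :
    q (Finset (Fin 5)) wt (fun _ => D j) (-5) =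
      ∑ S : {S : Finset (Fin 5) // dg S = j}, dim5 (-5 + wt S.1) := by
  rw [← hq.one {S : Finset (Fin 5) // dg S = j} (fun S => wt S.1) (-5)]
  have hE1 : Eqv (fun S : {S : Finset (Fin 5) // dg S = j} => wt S.1) wt
      (fun _ => Matrix.of fun (S : Finset (Fin 5)) (R : {S : Finset (Fin 5) // dg S = j}) =>
        if S = R.1 then (1 : ℂ) else 0) := by
    refine ⟨continuous_const, fun l z S R => ?_⟩
    show (if S = R.1 then (1 : ℂ) else 0) = _ * (if S = R.1 then (1 : ℂ) else 0)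
    split_ifs with h
    · rw [h]; simp
    · simp
  have hE2 : Eqv wt (fun S : {S : Finset (Fin 5) // dg S = j} => wt S.1)
      (fun _ => Matrix.of fun (R : {S : Finset (Fin 5) // dg S = j}) (S : Finset (Fin 5)) =>
        if S = R.1 then (1 : ℂ) else 0) := by
    refine ⟨continuous_const, fun l z R S => ?_⟩
    show (if S = R.1 then (1 : ℂ) else 0) = _ * (if S = R.1 then (1 : ℂ) else 0)
    split_ifs with h
    · rw [h]; simp
    · simp
  have hone : IsProj (fun S : {S : Finset (Fin 5) // dg S = j} => wt S.1)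
      (fun _ : S9 => (1 : Matrix {S : Finset (Fin 5) // dg S = j}
        {S : Finset (Fin 5) // dg S = j} ℂ)) := by
    refine ⟨?_, fun _ => ⟨mul_one _, Matrix.conjTranspose_one⟩⟩
    have h := Eqv.diag (w' := fun S : {S : Finset (Fin 5) // dg S = j} => wt S.1)
      (fun _ => (1 : ℂ))
    have e : (Matrix.diagonal fun _ : {S : Finset (Fin 5) // dg S = j} => (1 : ℂ)) = 1 :=
      Matrix.diagonal_one
    rwa [e] at h
  refine hq.inv _ _ wt _ _ _ _ _ (D_isProj j) hone hE2 hE1 (fun z => ?_) (fun z => ?_) (-5)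
  · ext S R
    rw [Matrix.mul_apply]
    simp only [Matrix.of_apply, D, Matrix.diagonal_apply]
    by_cases hS : dg S = j
    · rw [Finset.sum_eq_single ⟨S, hS⟩]
      · simp [hS, eq_comm]
      · intro b _ hb
        rw [if_neg, zero_mul]
        intro h
        exact hb (Subtype.ext h.symm)
      · simp
    · rw [Finset.sum_eq_zero]
      · simp [hS]
      · intro b _
        rw [if_neg, zero_mul]
        intro h
        exact hS (h ▸ b.2)
  · ext S R
    rw [Matrix.mul_apply]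
    simp only [Matrix.of_apply, Matrix.one_apply]
    rw [Finset.sum_eq_single S.1]
    · simp [Subtype.ext_iff]
    · intro b _ hb
      rw [if_neg hb, zero_mul]
    · simp

theorem qB_zero (hq : IsIndex q) : qB q 0 = 0 := by
  have h : ∀ z : S9, N z.1 * (N z.1)ᴴ * D 0 = 0 := by
    intro z
    have h2 := NH_D z.1 (-1)
    have h3 : D (-1) = 0 := by
      unfold D
      rw [← Matrix.diagonal_zero]
      congr 1
      funext S
      rw [if_neg]
      revert S
      decide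
    rw [show (-1 : ℤ) + 1 = 0 by norm_num, h3, zero_mul] at h2
    rw [mul_assoc, h2, mul_zero]
  unfold qB
  simp only [h]
  exact q_zero hq

theorem pev_eq : pev = D 1 + D 3 + D 5 := by
  unfold pev par D
  rw [← Matrix.diagonal_one, Matrix.diagonal_add, Matrix.diagonal_add, Matrix.diagonal_add,
    ← Matrix.diagonal_smul]
  congr 1
  funext S
  simp only [Pi.smul_apply, smul_eq_mul]
  have h : (Even S.card ∧ (dg S = 1 ∨ dg S = 3 ∨ dg S = 5)) ∨
      (Odd S.card ∧ dg S ≠ 1 ∧ dg S ≠ 3 ∧ dg S ≠ 5) := by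
    revert S
    decide
  rcases h with ⟨h1, h2⟩ | ⟨h1, h2, h3, h4⟩
  · rw [h1.neg_one_pow]
    rcases h2 with h2 | h2 | h2 <;> rw [h2] <;> norm_num
  · rw [h1.neg_one_pow, if_neg h2, if_neg h3, if_neg h4]
    norm_num

end index

end Pool.Agent.Work.MP_2a78db_gt.D3count

namespace Pool.Agent.Work.MP_2a78db_gt

open Matrix D3count

theorem count_odd {q : (ι : Type) → [Fintype ι] → [DecidableEq ι] → (ι → ℤ) →
    (S9 → Matrix ι ι ℂ) → ℤ → ℤ} (hq : IsIndex q) :
    Odd (q (Finset (Fin 5)) wt (fun z => PP z.1 (u1 z)) (-5)) := by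
  have e : (fun z : S9 => PP z.1 (u1 z)) = fun z => (N z.1 * (N z.1)ᴴ * D 1 +
      N z.1 * (N z.1)ᴴ * D 3) + N z.1 * (N z.1)ᴴ * D 5 := by
    funext z
    rw [PP_u1, pev_eq, mul_add, mul_add]
  have orth : ∀ {i j : ℤ}, i ≠ j → ∀ z : S9,
      N z.1 * (N z.1)ᴴ * D i * (N z.1 * (N z.1)ᴴ * D j) = 0 := by
    intro i j hij z
    have : N z.1 * (N z.1)ᴴ * D i * (N z.1 * (N z.1)ᴴ * D j) =
        N z.1 * (N z.1)ᴴ * (N z.1 * (N z.1)ᴴ) * (D i * D j) := by
      rw [mul_assoc (N z.1 * (N z.1)ᴴ) (D i), ← mul_assoc (D i), ← NNH_D]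
      simp only [mul_assoc]
    rw [this, D_ne hij, mul_zero]
  have hadd : IsProj wt (fun z : S9 => N z.1 * (N z.1)ᴴ * D 1 + N z.1 * (N z.1)ᴴ * D 3) := by
    refine ⟨Eqv.add (B_isProj 1).1 (B_isProj 3).1, fun z => ⟨?_, ?_⟩⟩
    · have h1 := (NNH_proj z.2 1).1
      have h3 := (NNH_proj z.2 3).1
      have h13 := orth (i := 1) (j := 3) (by norm_num) z
      have h31 := orth (i := 3) (j := 1) (by norm_num) z
      show (N z.1 * (N z.1)ᴴ * D 1 + N z.1 * (N z.1)ᴴ * D 3) *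
        (N z.1 * (N z.1)ᴴ * D 1 + N z.1 * (N z.1)ᴴ * D 3) =
        N z.1 * (N z.1)ᴴ * D 1 + N z.1 * (N z.1)ᴴ * D 3
      rw [mul_add, add_mul, add_mul, h1, h3, h13, h31, add_zero, zero_add]
    · show (N z.1 * (N z.1)ᴴ * D 1 + N z.1 * (N z.1)ᴴ * D 3)ᴴ =
        N z.1 * (N z.1)ᴴ * D 1 + N z.1 * (N z.1)ᴴ * D 3
      rw [Matrix.conjTranspose_add, (NNH_proj z.2 1).2, (NNH_proj z.2 3).2]
  have h1 := hq.add _ wt _ _ hadd (B_isProj 5) (fun z => by
    have h15 := orth (i := 1) (j := 5) (by norm_num) z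
    have h35 := orth (i := 3) (j := 5) (by norm_num) z
    rw [add_mul, h15, h35, add_zero]) (-5)
  have h2 := hq.add _ wt _ _ (B_isProj 1) (B_isProj 3) (orth (by norm_num)) (-5)
  rw [e, h1, h2]
  have b0 := qB_zero hq
  have s0 := q_step hq 0
  have s1 := q_step hq 1
  have s2 := q_step hq 2
  have s3 := q_step hq 3
  have s4 := q_step hq 4
  rw [q_D hq] at s0 s1 s2 s3 s4
  have v0 : ∑ S : {S : Finset (Fin 5) // dg S = 0}, dim5 (-5 + wt S.1) = 0 := by decide
  have v1 : ∑ S : {S : Finset (Fin 5) // dg S = 1}, dim5 (-5 + wt S.1) = 1 := by decide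
  have v2 : ∑ S : {S : Finset (Fin 5) // dg S = 2}, dim5 (-5 + wt S.1) = 0 := by decide
  have v3 : ∑ S : {S : Finset (Fin 5) // dg S = 3}, dim5 (-5 + wt S.1) = 0 := by decide
  have v4 : ∑ S : {S : Finset (Fin 5) // dg S = 4}, dim5 (-5 + wt S.1) = 1 := by decide
  rw [v0] at s0
  rw [v1] at s1
  rw [v2] at s2
  rw [v3] at s3
  rw [v4] at s4
  norm_num at s0 s1 s2 s3 s4
  show Odd (qB q 1 + qB q 3 + qB q 5)
  refine ⟨-1, ?_⟩
  linarith

end Pool.Agent.Work.MP_2a78db_gt
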