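import Pool.Agent.Work.MP_2a78db_gt.D3hom

/-!
The duality step: the index of the projection attached to `u` is even.
-/

namespace Pool.Agent.Work.MP_2a78db_gt.D3dual

open Matrix Fock Cliff D3count D3hom

/-- flip one element -/
def flip (j : Fin 5) (S : Finset (Fin 5)) : Finset (Fin 5) :=
  if j ∈ S then S.erase j else insert j S

theorem c_single_mulVec (j : Fin 5) (f : Finset (Fin 5) → ℂ) (S : Finset (Fin 5)) :
    (c (Pi.single j 1) *ᵥ f) S = sg j S * f (flip j S) := by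
  rw [c_single, Matrix.add_mulVec, Pi.add_apply, cr_mulVec, an_mulVec]
  unfold flip
  split_ifs <;> simp

theorem CC_weight {S R : Finset (Fin 5)} (h : CC S R ≠ 0) : wt S = 5 - wt R := by
  have h1 : CC S R = (CC *ᵥ (Pi.single R 1)) S := by simp
  have h2 : ∃ ε : ℂ, (CC *ᵥ (Pi.single R 1)) S =
      ε * (Pi.single R 1 : Finset (Fin 5) → ℂ) (flip 4 (flip 3 (flip 2 (flip 1 (flip 0 S))))) := by
    unfold CC
    simp only [← Matrix.mulVec_mulVec, c_single_mulVec]
    exact ⟨_, by simp only [← mul_assoc]; rfl⟩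
  obtain ⟨ε, hε⟩ := h2
  rw [h1, hε] at h
  have h3 := right_ne_zero_of_mul h
  rw [Pi.single_apply] at h3
  have h4 : flip 4 (flip 3 (flip 2 (flip 1 (flip 0 S)))) = R := by
    by_contra hne
    rw [if_neg hne] at h3
    exact h3 rfl
  rw [← h4]
  unfold wt
  have h5 : ∀ S : Finset (Fin 5),
      S.card + (flip 4 (flip 3 (flip 2 (flip 1 (flip 0 S))))).card = 5 := by decide
  have := h5 S
  omega

theorem CC_eqv : Eqv (fun S => - wt S + 5) wt (fun _ => CC) := by
  refine ⟨continuous_const, fun l z S R => ?_⟩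
  show CC S R = (l : ℂ) ^ (wt S - (- wt R + 5)) * CC S R
  by_cases h : CC S R = 0
  · rw [h, mul_zero]
  · rw [CC_weight h, show 5 - wt R - (- wt R + 5) = 0 by ring, zpow_zero, one_mul]

theorem CC_unit : CC * CCᴴ = 1 := by
  have h : ∀ j : Fin 5, c (Pi.single j 1) * c (Pi.single j 1) = 1 := fun j =>
    c_sq (by rw [rip_single, if_pos rfl])
  unfold CC
  simp only [Matrix.conjTranspose_mul, c_conjTranspose]
  simp only [mul_assoc]
  rw [← mul_assoc (c (Pi.single 4 1)) (c (Pi.single 4 1)), h, one_mul,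
    ← mul_assoc (c (Pi.single 3 1)) (c (Pi.single 3 1)), h, one_mul,
    ← mul_assoc (c (Pi.single 2 1)) (c (Pi.single 2 1)), h, one_mul,
    ← mul_assoc (c (Pi.single 1 1)) (c (Pi.single 1 1)), h, one_mul, h]

theorem CC_unit' : CCᴴ * CC = 1 := mul_eq_one_comm.1 CC_unit

theorem CC_par : CC * par = - (par * CC) := by
  have h := CC_general (a := par) (ε := fun _ => -1) (fun j => by
    rw [neg_smul, one_smul]; exact c_par _)
  rw [h]
  norm_num

theorem alg2 {A : Type*} [Ring A] [Algebra ℂ A] {T P : A} {t : ℂ} (ht : t * t = -1)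
    (hTP : T * P = P * T) (hP : P * P = P) (hT : T * T * P = -P) :
    (((1 / 2 : ℂ) • (1 + t • T)) * P) * (((1 / 2 : ℂ) • (1 + t • T)) * P) =
      ((1 / 2 : ℂ) • (1 + t • T)) * P := by
  have h1 : P * ((1 / 2 : ℂ) • (1 + t • T)) = ((1 / 2 : ℂ) • (1 + t • T)) * P := by
    rw [mul_smul_comm, smul_mul_assoc, mul_add, add_mul, mul_one, one_mul, mul_smul_comm,
      smul_mul_assoc, hTP]
  have h2 : (((1 / 2 : ℂ) • (1 + t • T)) * P) * (((1 / 2 : ℂ) • (1 + t • T)) * P) =
      ((1 / 2 : ℂ) • (1 + t • T)) * ((1 / 2 : ℂ) • (1 + t • T)) * P := by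
    rw [mul_assoc, ← mul_assoc P, h1, mul_assoc _ P P, hP, ← mul_assoc]
  rw [h2, smul_mul_smul_comm]
  have h3 : (1 + t • T) * (1 + t • T) * P = (2 : ℂ) • ((1 + t • T) * P) := by
    have : (1 + t • T) * (1 + t • T) = 1 + (t + t) • T + (t * t) • (T * T) := by
      rw [add_mul, mul_add, mul_add, smul_mul_smul_comm]
      simp only [one_mul, mul_one]
      module
    rw [this, ht, add_mul, smul_mul_assoc, hT, add_mul, add_mul]
    simp only [smul_mul_assoc, one_mul, smul_neg, neg_smul, one_smul, neg_neg]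
    module
  rw [smul_mul_assoc, h3, smul_smul, smul_mul_assoc]
  norm_num

theorem alg3 {A : Type*} [Ring A] [Algebra ℂ A] {T P : A} {t s : ℂ} (hts : t * s = 1)
    (hst : s + t = 0) (hTP : T * P = P * T) (hP : P * P = P) (hT : T * T * P = -P) :
    (((1 / 2 : ℂ) • (1 + t • T)) * P) * (((1 / 2 : ℂ) • (1 + s • T)) * P) = 0 := by
  have h1 : P * ((1 / 2 : ℂ) • (1 + s • T)) = ((1 / 2 : ℂ) • (1 + s • T)) * P := by
    rw [mul_smul_comm, smul_mul_assoc, mul_add, add_mul, mul_one, one_mul, mul_smul_comm,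
      smul_mul_assoc, hTP]
  have h2 : (((1 / 2 : ℂ) • (1 + t • T)) * P) * (((1 / 2 : ℂ) • (1 + s • T)) * P) =
      ((1 / 2 : ℂ) • (1 + t • T)) * ((1 / 2 : ℂ) • (1 + s • T)) * P := by
    rw [mul_assoc, ← mul_assoc P, h1, mul_assoc _ P P, hP, ← mul_assoc]
  rw [h2, smul_mul_smul_comm]
  have h3 : (1 + t • T) * (1 + s • T) * P = 0 := by
    have : (1 + t • T) * (1 + s • T) = 1 + (s + t) • T + (t * s) • (T * T) := by
      rw [add_mul, mul_add, mul_add, smul_mul_smul_comm]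
      simp only [one_mul, mul_one]
      module
    rw [this, hts, hst, zero_smul, add_zero, one_smul, add_mul, hT, one_mul, add_neg_cancel]
  rw [smul_mul_assoc, h3, smul_zero]

theorem Eqv.conj {ι κ : Type} {w : ι → ℤ} {w' : κ → ℤ} {A : S9 → Matrix κ ι ℂ}
    (hA : Eqv w w' A) : Eqv (fun i => - w i) (fun i => - w' i)
      (fun z => (A z).map (starRingEnd ℂ)) := by
  refine ⟨?_, fun l z i j => ?_⟩
  · exact hA.1.matrix_map Complex.continuous_conj
  · show (starRingEnd ℂ) (A (rot l z) i j) = (l : ℂ) ^ (- w' i - - w j) *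
      (starRingEnd ℂ) (A z i j)
    rw [hA.2, map_mul, map_zpow₀, ← Circle.coe_inv_eq_conj, Circle.coe_inv,
      show - w' i - - w j = -(w' i - w j) by ring, _root_.zpow_neg, _root_.inv_zpow]

theorem Eqv.shift {ι κ : Type} {w : ι → ℤ} {w' : κ → ℤ} {A : S9 → Matrix κ ι ℂ} (k : ℤ)
    (hA : Eqv w w' A) : Eqv (fun i => w i + k) (fun i => w' i + k) A := by
  refine ⟨hA.1, fun l z i j => ?_⟩
  rw [hA.2, show w' i + k - (w j + k) = w' i - w j by ring]

theorem conj_proj {Q : Matrix (Finset (Fin 5)) (Finset (Fin 5)) ℂ} (h1 : Q * Q = Q)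
    (h2 : Qᴴ = Q) : Q.map (starRingEnd ℂ) * Q.map (starRingEnd ℂ) = Q.map (starRingEnd ℂ) ∧
      (Q.map (starRingEnd ℂ))ᴴ = Q.map (starRingEnd ℂ) := by
  constructor
  · rw [← map_mul', h1]
  · ext i j
    have := congrFun (congrFun h2 i) j
    rw [Matrix.conjTranspose_apply] at this
    rw [Matrix.conjTranspose_apply, Matrix.map_apply, Matrix.map_apply, ← this]
    rfl

theorem conjE (t : ℂ) (M : Matrix (Finset (Fin 5)) (Finset (Fin 5)) ℂ) :
    ((1 / 2 : ℂ) • (1 + t • M)).map (starRingEnd ℂ) =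
      (1 / 2 : ℂ) • (1 + (starRingEnd ℂ) t • M.map (starRingEnd ℂ)) := by
  ext i j
  simp only [Matrix.map_apply, Matrix.smul_apply, Matrix.add_apply, Matrix.one_apply, smul_eq_mul,
    map_mul, map_add, map_div₀, map_one, map_ofNat]
  split_ifs <;> simp

theorem conj_pev : pev.map (starRingEnd ℂ) = pev := by
  unfold pev par
  ext i j
  simp only [Matrix.map_apply, Matrix.smul_apply, Matrix.add_apply, Matrix.one_apply, smul_eq_mul,
    map_mul, map_add, map_div₀, map_one, map_ofNat, Matrix.diagonal_apply]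
  split_ifs <;> simp

theorem key_alg {z u : V5} {T : Matrix (Finset (Fin 5)) (Finset (Fin 5)) ℂ}
    (_ : rip z z = 1) (ho : rip z u = 0) (hz : T * c z = c z * T)
    (hC : CC * T.map (starRingEnd ℂ) = T * CC) :
    c z * CC * (((1 / 2 : ℂ) • (1 + (-Complex.I) • T)) * PP z u).map (starRingEnd ℂ) =
      (((1 / 2 : ℂ) • (1 + Complex.I • T)) * PP z u) * (c z * CC) := by
  have e1 : (((1 / 2 : ℂ) • (1 + (-Complex.I) • T)) * PP z u).map (starRingEnd ℂ) =
      ((1 / 2 : ℂ) • (1 + Complex.I • T.map (starRingEnd ℂ))) *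
        (((1 / 2 : ℂ) • (1 + (-Complex.I) • (c z * c u).map (starRingEnd ℂ))) * pev) := by
    rw [map_mul', conjE]
    unfold PP
    rw [map_mul', conjE, conj_pev]
    simp only [map_neg, Complex.conj_I, neg_neg]
  have e2 : CC * ((1 / 2 : ℂ) • (1 + Complex.I • T.map (starRingEnd ℂ))) =
      ((1 / 2 : ℂ) • (1 + Complex.I • T)) * CC := by
    rw [mul_smul_comm, smul_mul_assoc, mul_add, add_mul, mul_one, one_mul, mul_smul_comm,
      smul_mul_assoc, hC]
  have e3 : CC * ((1 / 2 : ℂ) • (1 + (-Complex.I) • (c z * c u).map (starRingEnd ℂ))) =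
      ((1 / 2 : ℂ) • (1 + (-Complex.I) • (c z * c u))) * CC := by
    rw [mul_smul_comm, smul_mul_assoc, mul_add, add_mul, mul_one, one_mul, mul_smul_comm,
      smul_mul_assoc, CC_cc]
  have e4 : CC * pev = ((1 / 2 : ℂ) • (1 - par)) * CC := by
    unfold pev
    rw [mul_smul_comm, smul_mul_assoc, mul_add, sub_mul, mul_one, one_mul, CC_par,
      sub_eq_add_neg]
  have e5 : c z * ((1 / 2 : ℂ) • (1 + Complex.I • T)) =
      ((1 / 2 : ℂ) • (1 + Complex.I • T)) * c z := by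
    rw [mul_smul_comm, smul_mul_assoc, mul_add, add_mul, mul_one, one_mul, mul_smul_comm,
      smul_mul_assoc, hz]
  have e6 : c z * ((1 / 2 : ℂ) • (1 + (-Complex.I) • (c z * c u))) =
      ((1 / 2 : ℂ) • (1 + Complex.I • (c z * c u))) * c z := by
    have h1 : (c z * c u) * c z = - (c z * (c z * c u)) := by
      rw [mul_assoc, ← neg_eq_iff_eq_neg.2 (c_anti ho), mul_neg]
    rw [mul_smul_comm, smul_mul_assoc, mul_add, add_mul, mul_one, one_mul, mul_smul_comm,
      smul_mul_assoc, h1, smul_neg, neg_smul]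
  have e7 : c z * ((1 / 2 : ℂ) • (1 - par)) = pev * c z := by
    unfold pev
    rw [mul_smul_comm, smul_mul_assoc, mul_sub, add_mul, mul_one, one_mul, par_c,
      sub_eq_add_neg]
  rw [e1]
  calc c z * CC * (((1 / 2 : ℂ) • (1 + Complex.I • T.map (starRingEnd ℂ))) *
        (((1 / 2 : ℂ) • (1 + (-Complex.I) • (c z * c u).map (starRingEnd ℂ))) * pev))
      = c z * (CC * ((1 / 2 : ℂ) • (1 + Complex.I • T.map (starRingEnd ℂ)))) *
        (((1 / 2 : ℂ) • (1 + (-Complex.I) • (c z * c u).map (starRingEnd ℂ))) * pev) := by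
        simp only [mul_assoc]
    _ = (c z * ((1 / 2 : ℂ) • (1 + Complex.I • T))) *
        (CC * ((1 / 2 : ℂ) • (1 + (-Complex.I) • (c z * c u).map (starRingEnd ℂ)))) * pev := by
        rw [e2]; simp only [mul_assoc]
    _ = ((1 / 2 : ℂ) • (1 + Complex.I • T)) *
        (c z * ((1 / 2 : ℂ) • (1 + (-Complex.I) • (c z * c u)))) * (CC * pev) := by
        rw [e3, e5]; simp only [mul_assoc]
    _ = ((1 / 2 : ℂ) • (1 + Complex.I • T)) * ((1 / 2 : ℂ) • (1 + Complex.I • (c z * c u))) *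
        (c z * ((1 / 2 : ℂ) • (1 - par))) * CC := by
        rw [e4, e6]; simp only [mul_assoc]
    _ = _ := by
        rw [e7]
        unfold PP
        simp only [mul_assoc]

end Pool.Agent.Work.MP_2a78db_gt.D3dual

namespace Pool.Agent.Work.MP_2a78db_gt

open Matrix Cliff D3count D3hom D3dual

theorem q_even {q : (ι : Type) → [Fintype ι] → [DecidableEq ι] → (ι → ℤ) →
    (S9 → Matrix ι ι ℂ) → ℤ → ℤ} (hq : IsIndex q) (u : S9 → V5) (hc : Continuous u)
    (he : ∀ (l : Circle) z, u (rot l z) = (l : ℂ) • u z) (hu : ∀ z, rip (u z) (u z) = 1)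
    (ho : ∀ z, rip z.1 (u z) = 0)
    (Th : S9 → Matrix (Finset (Fin 5)) (Finset (Fin 5)) ℂ) (hT : Eqv wt wt Th)
    (hskew : ∀ z, (Th z)ᴴ = - Th z)
    (hz : ∀ z, Th z * Fock.c z.1 = Fock.c z.1 * Th z)
    (hu' : ∀ z, Th z * Fock.c (u z) = Fock.c (u z) * Th z)
    (hp : ∀ z, Th z * Fock.par = Fock.par * Th z)
    (hC : ∀ z, CC * (Th z).map (starRingEnd ℂ) = Th z * CC)
    (hsq : ∀ z, Th z * Th z * PP z.1 (u z) = - PP z.1 (u z)) :
    Even (q (Finset (Fin 5)) wt (fun z => PP z.1 (u z)) (-5)) := by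
  have hP := PP_isProj hc he hu ho rip_self_S9
  have hTcc : ∀ z, Th z * (Fock.c z.1 * Fock.c (u z)) = (Fock.c z.1 * Fock.c (u z)) * Th z :=
    fun z => by rw [← mul_assoc, hz, mul_assoc, hu', mul_assoc]
  have hTpev : ∀ z, Th z * pev = pev * Th z := fun z => by
    unfold pev
    rw [mul_smul_comm, smul_mul_assoc, mul_add, add_mul, mul_one, one_mul, hp]
  have hTP : ∀ z, Th z * PP z.1 (u z) = PP z.1 (u z) * Th z := fun z => by
    have hTE : Th z * ((1 / 2 : ℂ) • (1 + Complex.I • (Fock.c z.1 * Fock.c (u z)))) =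
        ((1 / 2 : ℂ) • (1 + Complex.I • (Fock.c z.1 * Fock.c (u z)))) * Th z := by
      rw [mul_smul_comm, smul_mul_assoc, mul_add, add_mul, mul_one, one_mul, mul_smul_comm,
        smul_mul_assoc, hTcc]
    unfold PP
    rw [← mul_assoc, hTE, mul_assoc, hTpev, ← mul_assoc]
  have hI := Complex.I_mul_I
  -- the two halves
  have proj : ∀ t : ℂ, t * t = -1 → star t = - t →
      IsProj wt (fun z => ((1 / 2 : ℂ) • (1 + t • Th z)) * PP z.1 (u z)) := by
    intro t ht hst
    refine ⟨Eqv.mul (Eqv.smul' _ (Eqv.add Eqv_one (Eqv.smul' _ hT))) hP.1, fun z => ⟨?_, ?_⟩⟩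
    · exact alg2 ht (hTP z) (hP.2 z).1 (hsq z)
    · show (((1 / 2 : ℂ) • (1 + t • Th z)) * PP z.1 (u z))ᴴ =
        ((1 / 2 : ℂ) • (1 + t • Th z)) * PP z.1 (u z)
      have h1 : (PP z.1 (u z))ᴴ = PP z.1 (u z) := (hP.2 z).2
      have h2 : star (1 / 2 : ℂ) = 1 / 2 := by simp
      rw [Matrix.conjTranspose_mul, h1, Matrix.conjTranspose_smul, Matrix.conjTranspose_add,
        Matrix.conjTranspose_one, Matrix.conjTranspose_smul, hskew, hst, h2, neg_smul_neg,
        mul_smul_comm, smul_mul_assoc, mul_add, add_mul, mul_one, one_mul, mul_smul_comm,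
        smul_mul_assoc, hTP]
  have hm := proj (-Complex.I) (by rw [neg_mul_neg, hI]) (by simp)
  have hpl := proj Complex.I hI (by simp)
  have hsum := hq.add _ wt _ _ hm hpl (fun z => alg3 (t := -Complex.I) (s := Complex.I)
    (by rw [neg_mul, hI, neg_neg]) (by ring) (hTP z) (hP.2 z).1 (hsq z)) (-5)
  have e1 : (fun z => ((1 / 2 : ℂ) • (1 + (-Complex.I) • Th z)) * PP z.1 (u z) +
      ((1 / 2 : ℂ) • (1 + Complex.I • Th z)) * PP z.1 (u z)) = fun z => PP z.1 (u z) := by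
    funext z
    rw [← add_mul]
    have : (1 / 2 : ℂ) • (1 + (-Complex.I) • Th z) + (1 / 2 : ℂ) • (1 + Complex.I • Th z) =
        1 := by module
    rw [this, one_mul]
  rw [e1] at hsum
  -- weights of the conjugate
  set G : S9 → Matrix (Finset (Fin 5)) (Finset (Fin 5)) ℂ :=
    fun z => ((1 / 2 : ℂ) • (1 + (-Complex.I) • Th z)) * PP z.1 (u z) with hG
  set G' : S9 → Matrix (Finset (Fin 5)) (Finset (Fin 5)) ℂ :=
    fun z => ((1 / 2 : ℂ) • (1 + Complex.I • Th z)) * PP z.1 (u z) with hG'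
  have hcG : IsProj (fun S => - wt S) (fun z => (G z).map (starRingEnd ℂ)) :=
    ⟨Eqv.conj hm.1, fun z => conj_proj (hm.2 z).1 (hm.2 z).2⟩
  have hcG5 : IsProj (fun S => - wt S + 5) (fun z => (G z).map (starRingEnd ℂ)) :=
    ⟨Eqv.shift 5 hcG.1, hcG.2⟩
  have hcz : Eqv wt wt (fun z : S9 => Fock.c z.1) :=
    Eqv_c (v := fun z : S9 => z.1) continuous_subtype_val (fun l z => rfl)
  have key : ∀ z, Fock.c z.1 * CC * (G z).map (starRingEnd ℂ) = G' z * (Fock.c z.1 * CC) := by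
    intro z
    exact key_alg (rip_self_S9 z) (ho z) (hz z) (hC z)
  have hinv := hq.inv _ _ (fun S => - wt S + 5) wt _ G'
    (fun z => (Fock.c z.1 * CC) * (G z).map (starRingEnd ℂ))
    (fun z => (G z).map (starRingEnd ℂ) * (CCᴴ * Fock.c z.1)) hcG5 hpl
    (Eqv.mul (Eqv.mul hcz CC_eqv) hcG5.1) (Eqv.mul hcG5.1 (Eqv.mul (Eqv.star CC_eqv) hcz))
    (fun z => by
      have h1 := (hcG.2 z).1
      have h2 : CCᴴ * Fock.c z.1 * (Fock.c z.1 * CC) = 1 := by
        rw [mul_assoc, ← mul_assoc (Fock.c z.1) (Fock.c z.1), c_sq (rip_self_S9 z), one_mul,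
          CC_unit']
      calc (G z).map (starRingEnd ℂ) * (CCᴴ * Fock.c z.1) *
            ((Fock.c z.1 * CC) * (G z).map (starRingEnd ℂ))
          = (G z).map (starRingEnd ℂ) * (CCᴴ * Fock.c z.1 * (Fock.c z.1 * CC)) *
            (G z).map (starRingEnd ℂ) := by simp only [mul_assoc]
        _ = _ := by rw [h2, mul_one]; exact h1) (fun z => by
      have h1 := (hcG.2 z).1
      have h2 : Fock.c z.1 * CC * (CCᴴ * Fock.c z.1) = 1 := by
        rw [mul_assoc, ← mul_assoc CC, CC_unit, one_mul, c_sq (rip_self_S9 z)]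
      calc (Fock.c z.1 * CC) * (G z).map (starRingEnd ℂ) *
            ((G z).map (starRingEnd ℂ) * (CCᴴ * Fock.c z.1))
          = (Fock.c z.1 * CC) * ((G z).map (starRingEnd ℂ) * (G z).map (starRingEnd ℂ)) *
            (CCᴴ * Fock.c z.1) := by simp only [mul_assoc]
        _ = (Fock.c z.1 * CC) * (G z).map (starRingEnd ℂ) * (CCᴴ * Fock.c z.1) := by
            rw [show (G z).map (starRingEnd ℂ) * (G z).map (starRingEnd ℂ) =
              (G z).map (starRingEnd ℂ) from h1]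
        _ = G' z * (Fock.c z.1 * CC * (CCᴴ * Fock.c z.1)) := by rw [key, mul_assoc]
        _ = G' z := by rw [h2, mul_one]) (-5)
  have hshift := hq.shift _ (fun S => - wt S) _ 5 hcG (-5)
  have hdual := hq.dual _ wt _ hm (-5 + 5)
  have e2 : q (Finset (Fin 5)) wt G' (-5) = q (Finset (Fin 5)) wt G (-5) := by
    rw [← hinv, hshift, hdual]
    norm_num
  rw [hsum, e2]
  exact ⟨_, rfl⟩

end Pool.Agent.Work.MP_2a78db_gt
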