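import Pool.Agent.Work.MP_2a78db_gt.D3count
import Pool.Agent.Work.MP_2a78db_gt.D3cliff

/-!
The index of the projection attached to a unit field does not depend on the field.
-/

namespace Pool.Agent.Work.MP_2a78db_gt.D3hom

open Matrix Fock Cliff D3count

theorem alg1 {A : Type*} [Ring A] [Algebra ℂ A] (a b : A) (r : ℂ) (_ : a * a = -1)
    (hb : b * b = -1) (hab : a * b + b * a = (-2 * r) • 1) :
    ((1 / 2 : ℂ) • (1 + Complex.I • b)) * ((1 / 2 : ℂ) • (1 + Complex.I • a)) *
      ((1 / 2 : ℂ) • (1 + Complex.I • b)) =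
      ((1 + r) / 2) • ((1 / 2 : ℂ) • (1 + Complex.I • b)) := by
  have hba : b * a * b = (-2 * r) • b + a := by
    have h1 : b * a = (-2 * r) • 1 - a * b := eq_sub_of_add_eq' hab
    rw [h1, sub_mul, smul_mul_assoc, one_mul, mul_assoc, hb, mul_neg, mul_one]
    abel
  have h2 : (1 + Complex.I • b) * (1 + Complex.I • a) * (1 + Complex.I • b) =
      (2 * (1 + r)) • (1 + Complex.I • b) := by
    have hI := Complex.I_mul_I
    have h3 : (1 + Complex.I • b) * (1 + Complex.I • a) * (1 + Complex.I • b) =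
        1 + (Complex.I + Complex.I) • b + Complex.I • a + (Complex.I * Complex.I) • (b * b) +
          (Complex.I * Complex.I) • (a * b + b * a) +
          (Complex.I * Complex.I * Complex.I) • (b * a * b) := by
      simp only [add_mul, mul_add, smul_mul_assoc, mul_smul_comm, one_mul, mul_one, smul_smul,
        smul_add]
      module
    rw [h3, hb, hab, hba, hI]
    simp only [smul_add, smul_smul, smul_neg]
    have e1 : ((-1 : ℂ) * Complex.I) = - Complex.I := by ring
    rw [e1]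
    module
  rw [smul_mul_smul_comm, smul_mul_smul_comm, h2, smul_smul, smul_smul]
  congr 1
  ring

theorem sq_neg {z u : V5} (hz : rip z z = 1) (hu : rip u u = 1) (h : rip z u = 0) :
    (c z * c u) * (c z * c u) = -1 := by
  have h1 : c u * c z = - (c z * c u) := by rw [c_anti h, neg_neg]
  rw [mul_assoc, ← mul_assoc (c u), h1, neg_mul, mul_neg, mul_assoc, c_sq hu, mul_one, c_sq hz]

theorem anti_sum {z u v : V5} (hz : rip z z = 1) (hu : rip z u = 0) (hv : rip z v = 0) :
    (c z * c u) * (c z * c v) + (c z * c v) * (c z * c u) =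
      (-2 * ((rip u v : ℝ) : ℂ)) • 1 := by
  have h1 : c u * c z = - (c z * c u) := by rw [c_anti hu, neg_neg]
  have h2 : c v * c z = - (c z * c v) := by rw [c_anti hv, neg_neg]
  have h3 := c_anticomm u v
  have e1 : (c z * c u) * (c z * c v) = - (c u * c v) := by
    rw [mul_assoc, ← mul_assoc (c u), h1, neg_mul, mul_neg, ← mul_assoc, ← mul_assoc, c_sq hz,
      one_mul]
  have e2 : (c z * c v) * (c z * c u) = - (c v * c u) := by
    rw [mul_assoc, ← mul_assoc (c v), h2, neg_mul, mul_neg, ← mul_assoc, ← mul_assoc, c_sq hz,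
      one_mul]
  rw [e1, e2, ← neg_add, h3, ← neg_smul]
  congr 1
  have : ∑ j, ((starRingEnd ℂ) (u j) * v j).re = rip u v := rfl
  rw [this]
  push_cast
  ring

theorem pev_sq : pev * pev = pev := by
  unfold pev
  rw [smul_mul_smul_comm, add_mul, mul_add, mul_add, par_mul_par]
  simp only [one_mul, mul_one]
  module

theorem pev_cc (v w : V5) : pev * (c v * c w) = (c v * c w) * pev := by
  unfold pev
  rw [smul_mul_assoc, mul_smul_comm, add_mul, mul_add, one_mul, mul_one, par_cc]

theorem pev_E (v w : V5) : pev * ((1 / 2 : ℂ) • (1 + Complex.I • (c v * c w))) =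
    ((1 / 2 : ℂ) • (1 + Complex.I • (c v * c w))) * pev := by
  rw [mul_smul_comm, smul_mul_assoc, mul_add, add_mul, mul_one, one_mul, mul_smul_comm,
    smul_mul_assoc, pev_cc]

theorem par_star : (par : Matrix (Finset (Fin 5)) (Finset (Fin 5)) ℂ)ᴴ = par := by
  unfold par
  rw [Matrix.diagonal_conjTranspose]
  congr 1
  funext S
  simp

theorem pev_star : pevᴴ = pev := by
  unfold pev
  rw [Matrix.conjTranspose_smul, Matrix.conjTranspose_add, Matrix.conjTranspose_one, par_star]
  simp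

theorem PP_sq {z u : V5} (hz : rip z z = 1) (hu : rip u u = 1) (h : rip z u = 0) :
    PP z u * PP z u = PP z u := by
  have e : ((1 / 2 : ℂ) • (1 + Complex.I • (c z * c u))) *
      ((1 / 2 : ℂ) • (1 + Complex.I • (c z * c u))) =
      ((1 / 2 : ℂ) • (1 + Complex.I • (c z * c u))) := by
    rw [smul_mul_smul_comm, add_mul, mul_add, mul_add, smul_mul_smul_comm, sq_neg hz hu h,
      Complex.I_mul_I]
    simp only [one_mul, mul_one]
    module
  unfold PP
  rw [mul_assoc, ← mul_assoc pev, pev_E, mul_assoc, pev_sq, ← mul_assoc, e]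

theorem PP_star {z u : V5} (h : rip z u = 0) : (PP z u)ᴴ = PP z u := by
  unfold PP
  rw [Matrix.conjTranspose_mul, pev_star, Matrix.conjTranspose_smul, Matrix.conjTranspose_add,
    Matrix.conjTranspose_one, Matrix.conjTranspose_smul, cc_skew h]
  have e1 : star (1 / 2 : ℂ) = 1 / 2 := by simp
  have e2 : star Complex.I • (-(c z * c u)) = Complex.I • (c z * c u) := by
    rw [Complex.star_def, Complex.conj_I, smul_neg, neg_smul, neg_neg]
  rw [e1, e2, pev_E]

theorem PP_mul {z u v : V5} (hz : rip z z = 1) (hu : rip u u = 1) (hv : rip v v = 1)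
    (hzu : rip z u = 0) (hzv : rip z v = 0) :
    PP z v * PP z u * PP z v = (((1 + rip u v) / 2 : ℝ) : ℂ) • PP z v := by
  have h := alg1 (c z * c u) (c z * c v) ((rip u v : ℝ) : ℂ) (sq_neg hz hu hzu)
    (sq_neg hz hv hzv) (anti_sum hz hzu hzv)
  unfold PP
  have e : ((1 / 2 : ℂ) • (1 + Complex.I • (c z * c v))) * pev *
      (((1 / 2 : ℂ) • (1 + Complex.I • (c z * c u))) * pev) *
      (((1 / 2 : ℂ) • (1 + Complex.I • (c z * c v))) * pev) =
      (((1 / 2 : ℂ) • (1 + Complex.I • (c z * c v))) *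
      ((1 / 2 : ℂ) • (1 + Complex.I • (c z * c u))) *
      ((1 / 2 : ℂ) • (1 + Complex.I • (c z * c v)))) * pev := by
    generalize hA : ((1 / 2 : ℂ) • (1 + Complex.I • (c z * c v))) = A
    generalize hB : ((1 / 2 : ℂ) • (1 + Complex.I • (c z * c u))) = B
    have hpA : pev * A = A * pev := by rw [← hA]; exact pev_E _ _
    have hpB : pev * B = B * pev := by rw [← hB]; exact pev_E _ _
    calc A * pev * (B * pev) * (A * pev) = A * (pev * B) * (pev * A) * pev := by
          simp only [mul_assoc]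
      _ = A * (B * pev) * (A * pev) * pev := by rw [hpA, hpB]
      _ = A * B * (pev * A) * (pev * pev) := by simp only [mul_assoc]
      _ = A * B * A * (pev * (pev * pev)) := by rw [hpA]; simp only [mul_assoc]
      _ = A * B * A * pev := by rw [pev_sq, pev_sq]
  rw [e, h, smul_mul_assoc]
  congr 1
  push_cast
  ring

theorem Eqv_c {v : S9 → V5} (hc : Continuous v)
    (he : ∀ (l : Circle) z, v (rot l z) = (l : ℂ) • v z) : Eqv wt wt (fun z => c (v z)) := by
  refine ⟨continuous_c hc, fun l z i j => ?_⟩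
  show c (v (rot l z)) i j = (l : ℂ) ^ (wt i - wt j) * c (v z) i j
  rw [he, ← tw_c]
  rfl

theorem Eqv.smul' {ι κ : Type} {w : ι → ℤ} {w' : κ → ℤ} {A : S9 → Matrix κ ι ℂ} (t : ℂ)
    (hA : Eqv w w' A) : Eqv w w' (fun z => t • A z) := by
  refine ⟨?_, fun l z i j => ?_⟩
  · have h := hA.1
    fun_prop
  · show t * A (rot l z) i j = (l : ℂ) ^ (w' i - w j) * (t * A z i j)
    rw [hA.2]
    ring

theorem Eqv_one : Eqv wt wt (fun _ => (1 : Matrix (Finset (Fin 5)) (Finset (Fin 5)) ℂ)) := by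
  have h := Eqv.diag (w' := wt) (fun _ : Finset (Fin 5) => (1 : ℂ))
  have e : (Matrix.diagonal fun _ : Finset (Fin 5) => (1 : ℂ)) = 1 := Matrix.diagonal_one
  rwa [e] at h

theorem Eqv_pev : Eqv wt wt (fun _ => pev) := by
  have h := Eqv.smul' (1 / 2 : ℂ) (Eqv.add Eqv_one
    (Eqv.diag (w' := wt) (fun S : Finset (Fin 5) => (-1 : ℂ) ^ S.card)))
  exact h

theorem Eqv_PP {u : S9 → V5} (hc : Continuous u)
    (he : ∀ (l : Circle) z, u (rot l z) = (l : ℂ) • u z) :
    Eqv wt wt (fun z => PP z.1 (u z)) := by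
  have hz : Eqv wt wt (fun z : S9 => c z.1) :=
    Eqv_c (v := fun z : S9 => z.1) continuous_subtype_val (fun l z => rfl)
  have hu := Eqv_c hc he
  exact Eqv.mul (Eqv.smul' _ (Eqv.add Eqv_one (Eqv.smul' _ (Eqv.mul hz hu)))) Eqv_pev

theorem PP_isProj {u : S9 → V5} (hc : Continuous u)
    (he : ∀ (l : Circle) z, u (rot l z) = (l : ℂ) • u z) (hu : ∀ z, rip (u z) (u z) = 1)
    (ho : ∀ z : S9, rip z.1 (u z) = 0) (hz : ∀ z : S9, rip z.1 z.1 = 1) :
    IsProj wt (fun z => PP z.1 (u z)) :=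
  ⟨Eqv_PP hc he, fun z => ⟨PP_sq (hz z) (hu z) (ho z), PP_star (ho z)⟩⟩

theorem u1_cont : Continuous u1 := by
  refine continuous_pi fun i => ?_
  have hv : Continuous fun z : S9 => (z.1 : V5) := continuous_subtype_val
  have h1 : Continuous fun z : S9 => z.1 i := (continuous_apply i).comp hv
  unfold u1
  split_ifs
  · exact continuous_const.mul h1
  · exact continuous_const.mul h1

theorem u1_rot (l : Circle) (z : S9) : u1 (rot l z) = (l : ℂ) • u1 z := by
  funext i
  simp only [u1, rot, Pi.smul_apply, smul_eq_mul]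
  split_ifs <;> ring

theorem u1_unit (z : S9) : rip (u1 z) (u1 z) = 1 := by
  rw [← rip_self_S9 z]
  unfold rip u1
  refine Finset.sum_congr rfl fun j _ => ?_
  split_ifs
  · simp [Complex.mul_re, Complex.mul_im]
  · simp [Complex.mul_re, Complex.mul_im]

theorem u1_orth (z : S9) : rip z.1 (u1 z) = 0 := by
  unfold rip u1
  apply Finset.sum_eq_zero
  intro j _
  split_ifs
  · simp [Complex.mul_re, Complex.mul_im]; ring
  · simp [Complex.mul_re, Complex.mul_im]; ring

theorem rip_continuous {T : Type*} [TopologicalSpace T] {v w : T → V5} (hv : Continuous v)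
    (hw : Continuous w) : Continuous fun t => rip (v t) (w t) := by
  unfold rip
  refine continuous_finsetSum _ fun j _ => ?_
  have h1 : Continuous fun t => v t j := (continuous_apply j).comp hv
  have h2 : Continuous fun t => w t j := (continuous_apply j).comp hw
  exact Complex.continuous_re.comp ((Complex.continuous_conj.comp h1).mul h2)

theorem rip_pos {u v : V5} (hu : rip u u = 1) (hv : rip v v = 1) (h : u ≠ -v) :
    0 < (1 + rip u v) / 2 := by
  have h1 : rip (u + v) (u + v) = 2 * (1 + rip u v) := by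
    rw [rip_add_left, rip_add_right, rip_add_right, hu, hv, rip_comm v u]
    ring
  have h2 : rip (u + v) (u + v) ≠ 0 := by
    intro h0
    exact h (eq_neg_of_add_eq_zero_left (rip_self_eq_zero h0))
  have h3 := rip_self_nonneg (u + v)
  have h4 : 0 < rip (u + v) (u + v) := lt_of_le_of_ne h3 (Ne.symm h2)
  rw [h1] at h4
  linarith

end Pool.Agent.Work.MP_2a78db_gt.D3hom

namespace Pool.Agent.Work.MP_2a78db_gt

open Matrix Cliff D3count D3hom

theorem q_hom {q : (ι : Type) → [Fintype ι] → [DecidableEq ι] → (ι → ℤ) →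
    (S9 → Matrix ι ι ℂ) → ℤ → ℤ} (hq : IsIndex q) (u : S9 → V5) (hc : Continuous u)
    (he : ∀ (l : Circle) z, u (rot l z) = (l : ℂ) • u z) (hu : ∀ z, rip (u z) (u z) = 1)
    (ho : ∀ z, rip z.1 (u z) = 0) (hne : ∀ z, u z ≠ - u1 z) (m : ℤ) :
    q (Finset (Fin 5)) wt (fun z => PP z.1 (u z)) m =
      q (Finset (Fin 5)) wt (fun z => PP z.1 (u1 z)) m := by
  have hpos : ∀ z, 0 < (1 + rip (u z) (u1 z)) / 2 := fun z =>
    rip_pos (hu z) (u1_unit z) (hne z)
  have hP := PP_isProj hc he hu ho rip_self_S9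
  have hP1 := PP_isProj u1_cont u1_rot u1_unit u1_orth rip_self_S9
  have hX0 : Eqv wt wt (fun z => PP z.1 (u1 z) * PP z.1 (u z)) := Eqv.mul hP1.1 hP.1
  have hX : Eqv wt wt (fun z => ((((1 + rip (u z) (u1 z)) / 2)⁻¹ : ℝ) : ℂ) •
      (PP z.1 (u1 z) * PP z.1 (u z))) := by
    refine ⟨?_, fun l z i j => ?_⟩
    · have h1 : Continuous fun z => ((((1 + rip (u z) (u1 z)) / 2)⁻¹ : ℝ) : ℂ) := by
        refine Complex.continuous_ofReal.comp (Continuous.inv₀ ?_ fun z => (hpos z).ne')
        exact (continuous_const.add (rip_continuous hc u1_cont)).div_const 2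
      have h2 := hX0.1
      fun_prop
    · have h := hX0.2 l z i j
      show ((((1 + rip (u (rot l z)) (u1 (rot l z))) / 2)⁻¹ : ℝ) : ℂ) *
        (PP (rot l z).1 (u1 (rot l z)) * PP (rot l z).1 (u (rot l z))) i j =
        (l : ℂ) ^ (wt i - wt j) * (((((1 + rip (u z) (u1 z)) / 2)⁻¹ : ℝ) : ℂ) *
          (PP z.1 (u1 z) * PP z.1 (u z)) i j)
      have h' : (PP (rot l z).1 (u1 (rot l z)) * PP (rot l z).1 (u (rot l z))) i j =
        (l : ℂ) ^ (wt i - wt j) * (PP z.1 (u1 z) * PP z.1 (u z)) i j := h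
      rw [h', he, u1_rot, rip_circle]
      ring
  refine hq.inv _ _ wt wt _ _ _ (fun z => PP z.1 (u z) * PP z.1 (u1 z)) hP hP1 hX
    (Eqv.mul hP.1 hP1.1) (fun z => ?_) (fun z => ?_) m
  · have h1 := PP_mul (rip_self_S9 z) (u1_unit z) (hu z) (u1_orth z) (ho z)
    have h2 := PP_sq (rip_self_S9 z) (u1_unit z) (u1_orth z)
    rw [mul_smul_comm]
    have e : PP z.1 (u z) * PP z.1 (u1 z) * (PP z.1 (u1 z) * PP z.1 (u z)) =
        PP z.1 (u z) * PP z.1 (u1 z) * PP z.1 (u z) := by
      rw [mul_assoc, ← mul_assoc (PP z.1 (u1 z)) (PP z.1 (u1 z)), h2, ← mul_assoc]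
    rw [e, h1, smul_smul, ← Complex.ofReal_mul, rip_comm (u1 z) (u z),
      inv_mul_cancel₀ (hpos z).ne', Complex.ofReal_one, one_smul]
  · have h1 := PP_mul (rip_self_S9 z) (hu z) (u1_unit z) (ho z) (u1_orth z)
    have h2 := PP_sq (rip_self_S9 z) (hu z) (ho z)
    rw [smul_mul_assoc]
    have e : PP z.1 (u1 z) * PP z.1 (u z) * (PP z.1 (u z) * PP z.1 (u1 z)) =
        PP z.1 (u1 z) * PP z.1 (u z) * PP z.1 (u1 z) := by
      rw [mul_assoc, ← mul_assoc (PP z.1 (u z)) (PP z.1 (u z)), h2, ← mul_assoc]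
    rw [e, h1, smul_smul, ← Complex.ofReal_mul, inv_mul_cancel₀ (hpos z).ne',
      Complex.ofReal_one, one_smul]

end Pool.Agent.Work.MP_2a78db_gt
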