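import Pool.Agent.Work.MP_2a78db_gt.D3dual

/-!
The family of nondegenerate forms on the 9-sphere does not exist, given an index function.
-/

namespace Pool.Agent.Work.MP_2a78db_gt

open Matrix

theorem no_family_of {q : (ι : Type) → [Fintype ι] → [DecidableEq ι] → (ι → ℤ) →
    (S9 → Matrix ι ι ℂ) → ℤ → ℤ} (hq : IsIndex q) (Om : S9 → V5 →L[ℝ] V5 →L[ℝ] ℝ)
    (u : S9 → V5) : ¬ Family Om u := by
  intro F
  obtain ⟨Th, a1, a2, a3, a4, a5, a6, a7⟩ := F.exists_Th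
  have e1 := q_even hq u F.u_cont F.u_rot F.unit F.u_orth Th a1 a2 a3 a4 a5 a6 a7
  rw [q_hom hq u F.u_cont F.u_rot F.unit F.u_orth F.ne] at e1
  exact (Int.not_even_iff_odd.2 (count_odd hq)) e1

end Pool.Agent.Work.MP_2a78db_gt
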