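import Pool.Agent.Work.MP_2a78db_gt.Pow4

/-!
Linear Darboux theorem.
-/

namespace Pool.Agent.Work.MP_2a78db_gt

namespace D0

open Module

/-- The standard symplectic form. -/
def stdF (m : ℕ) (x y : Fin m → ℂ) : ℝ := ∑ k, ((x k).re * (y k).im - (x k).im * (y k).re)

theorem darboux {V : Type*} [AddCommGroup V] [Module ℝ V] [FiniteDimensional ℝ V]
    (ω : V →ₗ[ℝ] V →ₗ[ℝ] ℝ) (halt : ∀ v, ω v v = 0) :
    ∀ (n : ℕ) (W : Submodule ℝ V), finrank ℝ W = n →
      (∀ v ∈ W, (∀ w ∈ W, ω v w = 0) → v = 0) →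
      ∃ m, 2 * m = n ∧ ∃ P : V →ₗ[ℝ] (Fin m → ℂ), ∀ x ∈ W, ∀ y ∈ W,
        ω x y = stdF m (P x) (P y) := by
  have hskew : ∀ v w, ω v w = - ω w v := by
    intro v w
    have h := halt (v + w)
    simp only [map_add, LinearMap.add_apply, halt] at h
    linarith
  intro n
  induction n using Nat.strong_induction_on with
  | _ n ih =>
  intro W hW hnd
  rcases Nat.eq_zero_or_pos n with h0 | hpos
  · refine ⟨0, by omega, 0, ?_⟩
    intro x hx y _
    have hbot : W = ⊥ := Submodule.finrank_eq_zero.1 (by omega)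
    rw [hbot, Submodule.mem_bot] at hx
    simp [hx, stdF]
  · have hne : W ≠ ⊥ := by
      intro h
      rw [h, finrank_bot] at hW
      omega
    obtain ⟨v, hv, hv0⟩ := Submodule.exists_mem_ne_zero_of_ne_bot hne
    obtain ⟨w0, hw0, hvw0⟩ : ∃ w ∈ W, ω v w ≠ 0 := by
      by_contra hcon
      push Not at hcon
      exact hv0 (hnd v hv hcon)
    obtain ⟨w, hw, hvw⟩ : ∃ w ∈ W, ω v w = 1 := by
      refine ⟨(ω v w0)⁻¹ • w0, W.smul_mem _ hw0, ?_⟩
      rw [map_smul, smul_eq_mul, inv_mul_cancel₀ hvw0]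
    have hwv : ω w v = -1 := by rw [hskew, hvw]
    set W' : Submodule ℝ V := W ⊓ LinearMap.ker (ω v) ⊓ LinearMap.ker (ω w) with hW'
    -- projection
    set π : V →ₗ[ℝ] V := LinearMap.id - (LinearMap.smulRight (ω.flip w) v) -
      (LinearMap.smulRight (ω v) w) with hπ
    have hπa : ∀ y, π y = y - (ω y w) • v - (ω v y) • w := by
      intro y; simp [hπ]
    have hπW : ∀ y ∈ W, π y ∈ W' := by
      intro y hy
      rw [hπa]
      refine ⟨⟨W.sub_mem (W.sub_mem hy (W.smul_mem _ hv)) (W.smul_mem _ hw), ?_⟩, ?_⟩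
      · simp [halt, hvw]
      · simp only [SetLike.mem_coe, LinearMap.mem_ker, map_sub, map_smul, smul_eq_mul, hwv, halt]
        rw [hskew w y]; ring
    have hdec : ∀ x y, ω x y = ω (π x) (π y) +
        ((ω x w) * (ω v y) - (ω v x) * (ω y w)) := by
      intro x y
      rw [hπa, hπa]
      simp only [map_sub, map_smul, LinearMap.sub_apply, LinearMap.smul_apply, smul_eq_mul, hwv,
        halt, hvw]
      rw [hskew x v, hskew w y]
      ring
    -- dimension
    set φ : W →ₗ[ℝ] ℝ × ℝ := ((ω v).prod (ω w)).comp W.subtype with hφ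
    have hφs : Function.Surjective φ := by
      rintro ⟨a, b⟩
      refine ⟨⟨a • w - b • v, W.sub_mem (W.smul_mem _ hw) (W.smul_mem _ hv)⟩, ?_⟩
      simp [hφ, halt, hvw, hwv]
    have hk : ∀ y : W, φ y = 0 ↔ ω v y = 0 ∧ ω w y = 0 := by
      intro y
      have : φ y = (ω v y, ω w y) := rfl
      rw [this, Prod.mk_eq_zero]
    have hker : (LinearMap.ker φ).map W.subtype = W' := by
      ext x
      simp only [Submodule.mem_map, LinearMap.mem_ker, hk, Submodule.subtype_apply, hW',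
        Submodule.mem_inf]
      constructor
      · rintro ⟨y, ⟨h1, h2⟩, rfl⟩
        exact ⟨⟨y.2, h1⟩, h2⟩
      · rintro ⟨⟨h1, h2⟩, h3⟩
        exact ⟨⟨x, h1⟩, ⟨h2, h3⟩, rfl⟩
    have hdim : finrank ℝ W' + 2 = n := by
      have h1 := LinearMap.finrank_range_add_finrank_ker φ
      rw [LinearMap.range_eq_top.2 hφs, finrank_top] at h1
      have h2 : finrank ℝ (ℝ × ℝ) = 2 := by simp
      rw [← hker, Submodule.finrank_map_subtype_eq]
      omega
    have hnd' : ∀ x ∈ W', (∀ y ∈ W', ω x y = 0) → x = 0 := by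
      intro x hx hxy
      refine hnd x hx.1.1 fun y hy => ?_
      have hx1 : ω v x = 0 := hx.1.2
      have hx2 : ω w x = 0 := hx.2
      have h1 := hxy (π y) (hπW y hy)
      rw [hπa] at h1
      simp only [map_sub, map_smul, smul_eq_mul] at h1
      rw [hskew x v, hskew x w, hx1, hx2] at h1
      linarith
    obtain ⟨m, hm, P, hP⟩ := ih (finrank ℝ W') (by omega) W' rfl hnd'
    refine ⟨m + 1, by omega, LinearMap.pi (Fin.cases
      (Complex.ofRealCLM.toLinearMap.comp (ω.flip w) +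
        (LinearMap.toSpanSingleton ℝ ℂ Complex.I).comp (ω v))
      (fun j => (LinearMap.proj j).comp (P.comp π))), ?_⟩
    intro x hx y hy
    rw [hdec x y, hP _ (hπW x hx) _ (hπW y hy)]
    unfold stdF
    rw [Fin.sum_univ_succ]
    simp
    ring

/-- Normal form of a nondegenerate 2-form on `V4`. -/
theorem exists_normal (α : V4 [⋀^Fin 2]→L[ℝ] ℝ) (h : Nondeg α) :
    ∃ P : V4 →ₗ[ℝ] V4, Function.Injective P ∧
      ∀ v w, α ![v, w] = stdForm (fun _ : Fin 4 => (1 : ℝ)) (P v) (P w) := by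
  set ω : V4 →ₗ[ℝ] V4 →ₗ[ℝ] ℝ :=
    (ContinuousLinearMap.coeLM ℝ).comp (cur α).toLinearMap with hω
  have hωa : ∀ v w, ω v w = α ![v, w] := fun v w => rfl
  have halt : ∀ v, ω v v = 0 := by
    intro v
    rw [hωa]
    exact α.map_eq_zero_of_eq ![v, v] (i := 0) (j := 1) rfl (by decide)
  have hdim : finrank ℝ (⊤ : Submodule ℝ V4) = 8 := by
    rw [finrank_top, Module.finrank_eq_card_basis b8]
    simp
  obtain ⟨m, hm, P, hP⟩ := darboux ω halt 8 ⊤ hdim (by
    intro v _ hv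
    exact h v fun w => hv w trivial)
  have hm4 : m = 4 := by omega
  subst hm4
  have hPs : ∀ v w, α ![v, w] = stdForm (fun _ : Fin 4 => (1 : ℝ)) (P v) (P w) := by
    intro v w
    rw [stdForm_one]
    exact hP v trivial w trivial
  refine ⟨P, ?_, hPs⟩
  rw [injective_iff_map_eq_zero]
  intro v hv
  refine h v fun w => ?_
  rw [hPs, hv, stdForm_one]
  simp

/-- D0 -/
theorem _root_.Pool.Agent.Work.MP_2a78db_gt.pow4_ne_zero (α : V4 [⋀^Fin 2]→L[ℝ] ℝ)
    (h : Nondeg α) : pow4 α stdB ≠ 0 := by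
  obtain ⟨P, hPi, hP⟩ := exists_normal α h
  rw [pow4_eq α P hP]
  have h1 : LinearMap.det P ≠ 0 := by
    have h2 : IsUnit (LinearMap.det P) :=
      LinearEquiv.isUnit_det' (LinearEquiv.ofInjectiveEndo P hPi)
    exact h2.ne_zero
  exact mul_ne_zero (mul_ne_zero (by norm_num) K_pos.ne') h1

end D0

end Pool.Agent.Work.MP_2a78db_gt
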