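import Mathlib

/-!
Common explicit data for the 8-manifold built from seven charts, each a copy of complex 4-space
(seen as a real vector space of dimension 8).

The reference coordinate is `xi`, in `C^4 = R^3 + R^5` (`R^3` = real and imaginary part of the
coordinate 0 and real part of the coordinate 1, `R^5` = the rest).  Charts `a`, `b`, `c` cover
the product of spheres minus the point `xi = 0`, the charts `B i` cover the blow-up of `xi = 0`.
-/

namespace Pool.Agent.Work.MP_2a78db_gt

open scoped Topology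

/-- Complex 4-space, used as a real vector space of dimension 8. -/
abbrev V4 : Type := Fin 4 → ℂ

/-- Labels of the seven charts. -/
inductive Ch : Type
  | a : Ch
  | b : Ch
  | c : Ch
  | B : Fin 4 → Ch
  deriving DecidableEq, Fintype

/-- squared norm of the component in `R^3` -/
def n3 (z : V4) : ℝ := (z 0).re ^ 2 + (z 0).im ^ 2 + (z 1).re ^ 2

/-- squared norm of the component in `R^5` -/
def n5 (z : V4) : ℝ :=
  (z 1).im ^ 2 + (z 2).re ^ 2 + (z 2).im ^ 2 + (z 3).re ^ 2 + (z 3).im ^ 2

/-- inversion `x / |x|^2` of the component in `R^3` -/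
noncomputable def inv3 (z : V4) : V4 :=
  ![⟨(z 0).re / n3 z, (z 0).im / n3 z⟩, ⟨(z 1).re / n3 z, (z 1).im⟩, z 2, z 3]

/-- inversion `y / |y|^2` of the component in `R^5` -/
noncomputable def inv5 (z : V4) : V4 :=
  ![z 0, ⟨(z 1).re, (z 1).im / n5 z⟩, ⟨(z 2).re / n5 z, (z 2).im / n5 z⟩,
    ⟨(z 3).re / n5 z, (z 3).im / n5 z⟩]

/-- the blow-down map in the `i`-th blow-up chart -/
noncomputable def bl (i : Fin 4) (w : V4) : V4 := fun j => if j = i then w i else w i * w j

/-- inverse of the blow-down map in the `i`-th blow-up chart -/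
noncomputable def blInv (i : Fin 4) (z : V4) : V4 := fun j => if j = i then z i else z j / z i

/-- transition map from the blow-up chart `i` to the blow-up chart `j` (for `i ≠ j`),
defined where `w j ≠ 0` -/
noncomputable def blT (i j : Fin 4) (w : V4) : V4 :=
  fun k => if k = j then w i * w j else if k = i then 1 / w j else w k / w j

/-- the coordinate `xi` as a function on a chart -/
noncomputable def toXi : Ch → V4 → V4
  | .a => inv3
  | .b => inv5
  | .c => fun z => inv3 (inv5 z)
  | .B i => bl i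

/-- the chart coordinate as a function of `xi` -/
noncomputable def fromXi : Ch → V4 → V4
  | .a => inv3
  | .b => inv5
  | .c => fun z => inv5 (inv3 z)
  | .B i => blInv i

/-- points of a chart where `xi` is finite and nonzero -/
def domXi : Ch → Set V4
  | .a => {z | n3 z ≠ 0}
  | .b => {z | n5 z ≠ 0}
  | .c => {z | n3 z ≠ 0 ∧ n5 z ≠ 0}
  | .B i => {w | w i ≠ 0}

/-- the nonzero finite values of `xi` covered by a chart -/
def imXi : Ch → Set V4
  | .a => {z | n3 z ≠ 0}
  | .b => {z | n5 z ≠ 0}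
  | .c => {z | n3 z ≠ 0 ∧ n5 z ≠ 0}
  | .B i => {z | z i ≠ 0}

/-- transition maps -/
noncomputable def T : Ch → Ch → V4 → V4
  | .a, .a => id
  | .b, .b => id
  | .c, .c => id
  | .a, .c => inv5
  | .c, .a => inv5
  | .b, .c => inv3
  | .c, .b => inv3
  | .B i, .B j => if i = j then id else blT i j
  | k, l => fun z => fromXi l (toXi k z)

/-- domains of the transition maps -/
def O : Ch → Ch → Set V4
  | .a, .a => Set.univ
  | .b, .b => Set.univ
  | .c, .c => Set.univ
  | .a, .c => {z | n5 z ≠ 0}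
  | .c, .a => {z | n5 z ≠ 0}
  | .b, .c => {z | n3 z ≠ 0}
  | .c, .b => {z | n3 z ≠ 0}
  | .B i, .B j => {w | i = j ∨ w j ≠ 0}
  | k, l => {z | z ∈ domXi k ∧ toXi k z ∈ imXi l}

/-- A family of local differential forms, one on each chart, compatible under the transition
maps. -/
def Compat (k : ℕ) (om : Ch → V4 → V4 [⋀^Fin k]→L[ℝ] ℝ) : Prop :=
  ∀ p q : Ch, ∀ z ∈ O p q,
    om p z = (om q (T p q z)).compContinuousLinearMap (fderiv ℝ (T p q) z)

/-- The standard real basis of `V4`. -/
noncomputable def stdB : Fin 8 → V4 :=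
  ![Pi.single 0 1, Pi.single 0 Complex.I, Pi.single 1 1, Pi.single 1 Complex.I,
    Pi.single 2 1, Pi.single 2 Complex.I, Pi.single 3 1, Pi.single 3 Complex.I]

section wedge

variable {E : Type*} [NormedAddCommGroup E] [NormedSpace ℝ E]

theorem upd0 (x w z : E) : Function.update ![x, w] 0 z = ![z, w] := by
  funext i; fin_cases i <;> simp

theorem upd1 (x w z : E) : Function.update ![x, w] 1 z = ![x, z] := by
  funext i; fin_cases i <;> simp

theorem alt2_add_left (α : E [⋀^Fin 2]→L[ℝ] ℝ) (x y w : E) :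
    α ![x + y, w] = α ![x, w] + α ![y, w] := by
  have h := α.map_update_add ![x, w] 0 x y
  rwa [upd0, upd0, upd0] at h

theorem alt2_add_right (α : E [⋀^Fin 2]→L[ℝ] ℝ) (x y w : E) :
    α ![w, x + y] = α ![w, x] + α ![w, y] := by
  have h := α.map_update_add ![w, x] 1 x y
  rwa [upd1, upd1, upd1] at h

theorem alt2_smul_left (α : E [⋀^Fin 2]→L[ℝ] ℝ) (t : ℝ) (x w : E) :
    α ![t • x, w] = t * α ![x, w] := by
  have h := α.map_update_smul ![x, w] 0 t x
  rwa [upd0, upd0] at h

theorem alt2_smul_right (α : E [⋀^Fin 2]→L[ℝ] ℝ) (t : ℝ) (x w : E) :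
    α ![w, t • x] = t * α ![w, x] := by
  have h := α.map_update_smul ![w, x] 1 t x
  rwa [upd1, upd1] at h

/-- The multilinear map `v ↦ ∏_{i<4} α_i (v_{2i}, v_{2i+1})`. -/
noncomputable def prod4 (α : Fin 4 → E [⋀^Fin 2]→L[ℝ] ℝ) :
    ContinuousMultilinearMap ℝ (fun _ : Fin 8 => E) ℝ where
  toFun v := α 0 ![v 0, v 1] * α 1 ![v 2, v 3] * α 2 ![v 4, v 5] * α 3 ![v 6, v 7]
  map_update_add' := by
    intro h v i x y
    obtain rfl : h = instDecidableEqFin 8 := Subsingleton.elim _ _
    fin_cases i <;> simp [Function.update, alt2_add_left, alt2_add_right] <;> ring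
  map_update_smul' := by
    intro h v i t x
    obtain rfl : h = instDecidableEqFin 8 := Subsingleton.elim _ _
    fin_cases i <;> simp [Function.update, alt2_smul_left, alt2_smul_right] <;> ring
  cont := by
    have h : ∀ (β : E [⋀^Fin 2]→L[ℝ] ℝ) (i j : Fin 8),
        Continuous fun v : Fin 8 → E => β ![v i, v j] := by
      intro β i j
      refine β.cont.comp (continuous_pi fun k => ?_)
      fin_cases k
      · exact continuous_apply i
      · exact continuous_apply j
    exact (((h _ _ _).mul (h _ _ _)).mul (h _ _ _)).mul (h _ _ _)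

/-- The antisymmetrization of `α_0 ⊗ α_1 ⊗ α_2 ⊗ α_3`, which is `16 α_0 ∧ α_1 ∧ α_2 ∧ α_3`. -/
noncomputable def wedge4 (α : Fin 4 → E [⋀^Fin 2]→L[ℝ] ℝ) : E [⋀^Fin 8]→L[ℝ] ℝ :=
  ContinuousMultilinearMap.alternatization (prod4 α)

/-- `16` times the fourth exterior power of a 2-form -/
noncomputable def pow4 (α : E [⋀^Fin 2]→L[ℝ] ℝ) : E [⋀^Fin 8]→L[ℝ] ℝ := wedge4 fun _ => α

/-- Nondegeneracy of an alternating 2-form. -/
def Nondeg (α : E [⋀^Fin 2]→L[ℝ] ℝ) : Prop := ∀ v, (∀ w, α ![v, w] = 0) → v = 0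

/-- Nondegenerate skew bilinear forms, in curried form. -/
def Nd (E : Type*) [NormedAddCommGroup E] [NormedSpace ℝ E] : Set (E →L[ℝ] E →L[ℝ] ℝ) :=
  {B | (∀ v, B v v = 0) ∧ ∀ v, (∀ w, B v w = 0) → v = 0}

end wedge

end Pool.Agent.Work.MP_2a78db_gt
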