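import Pool.Agent.Work.MP_2a78db_gt.Common

/-!
Module E1, part a: pull-back of bilinear forms, hermitian products, the inner region.
-/

namespace Pool.Agent.Work.MP_2a78db_gt

open scoped Topology ContDiff ComplexConjugate

namespace E1

/-- bilinear forms -/
abbrev Bf (E : Type*) [NormedAddCommGroup E] [NormedSpace ℝ E] := E →L[ℝ] E →L[ℝ] ℝ

section pb

variable {E F G : Type*} [NormedAddCommGroup E] [NormedSpace ℝ E] [NormedAddCommGroup F]
  [NormedSpace ℝ F] [NormedAddCommGroup G] [NormedSpace ℝ G]

/-- pull-back of a bilinear form -/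
noncomputable def pb (B : Bf E) (A : F →L[ℝ] E) : Bf F := B.bilinearComp A A

@[simp] theorem pb_apply (B : Bf E) (A : F →L[ℝ] E) (x y : F) : pb B A x y = B (A x) (A y) := rfl

theorem pb_pb (B : Bf E) (A : F →L[ℝ] E) (A' : G →L[ℝ] F) : pb (pb B A) A' = pb B (A ∘L A') := rfl

theorem bf_ext {B B' : Bf E} (h : ∀ x y, B x y = B' x y) : B = B' := by
  ext x y
  exact h x y

theorem continuousAt_bf [FiniteDimensional ℝ E] {X : Type*} [TopologicalSpace X] {B : X → Bf E}
    {x : X} : ContinuousAt B x ↔ ∀ v w, ContinuousAt (fun p => B p v w) x := by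
  rw [continuousAt_clm_apply]
  exact forall_congr' fun v => continuousAt_clm_apply

theorem continuousOn_bf [FiniteDimensional ℝ E] {X : Type*} [TopologicalSpace X] {B : X → Bf E}
    {s : Set X} : ContinuousOn B s ↔ ∀ v w, ContinuousOn (fun p => B p v w) s := by
  rw [continuousOn_clm_apply]
  exact forall_congr' fun v => continuousOn_clm_apply

theorem continuous_bf [FiniteDimensional ℝ E] {X : Type*} [TopologicalSpace X] {B : X → Bf E} :
    Continuous B ↔ ∀ v w, Continuous (fun p => B p v w) := by
  rw [continuous_clm_apply]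
  exact forall_congr' fun v => continuous_clm_apply

theorem pb_continuousAt [FiniteDimensional ℝ F] {X : Type*} [TopologicalSpace X] {B : X → Bf E}
    {A : X → F →L[ℝ] E} {x : X} (hB : ContinuousAt B x) (hA : ContinuousAt A x) :
    ContinuousAt (fun p => pb (B p) (A p)) x := by
  rw [continuousAt_bf]
  intro v w
  simp only [pb_apply]
  exact ((hB.clm_apply (hA.clm_apply continuousAt_const)).clm_apply
    (hA.clm_apply continuousAt_const))

theorem pb_continuousOn [FiniteDimensional ℝ F] {X : Type*} [TopologicalSpace X] {B : X → Bf E}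
    {A : X → F →L[ℝ] E} {s : Set X} (hB : ContinuousOn B s) (hA : ContinuousOn A s) :
    ContinuousOn (fun p => pb (B p) (A p)) s := by
  rw [continuousOn_bf]
  intro v w
  simp only [pb_apply]
  exact ((hB.clm_apply (hA.clm_apply continuousOn_const)).clm_apply
    (hA.clm_apply continuousOn_const))

theorem pb_continuous [FiniteDimensional ℝ F] {X : Type*} [TopologicalSpace X] {B : X → Bf E}
    {A : X → F →L[ℝ] E} (hB : Continuous B) (hA : Continuous A) :
    Continuous (fun p => pb (B p) (A p)) := by
  rw [continuous_bf]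
  intro v w
  simp only [pb_apply]
  exact ((hB.clm_apply (hA.clm_apply continuous_const)).clm_apply
    (hA.clm_apply continuous_const))

theorem pb_mem_Nd {B : Bf E} {A : F →L[ℝ] E} (hB : B ∈ Nd E) (hA : Function.Bijective A) :
    pb B A ∈ Nd F := by
  refine ⟨fun v => hB.1 _, fun v hv => ?_⟩
  apply hA.1
  rw [map_zero]
  apply hB.2
  intro w
  obtain ⟨w', rfl⟩ := hA.2 w
  exact hv w'

end pb

theorem cur_mem_Nd {α : V4 [⋀^Fin 2]→L[ℝ] ℝ} (h : Nondeg α) : cur α ∈ Nd V4 := by
  refine ⟨fun v => ?_, fun v hv => h v hv⟩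
  rw [cur_apply]
  exact α.map_eq_zero_of_eq _ (i := 0) (j := 1) rfl (by decide)

theorem continuous_cur {X : Type*} [TopologicalSpace X] {a : X → V4 [⋀^Fin 2]→L[ℝ] ℝ}
    (ha : Continuous a) : Continuous fun x => cur (a x) := by
  rw [continuous_bf]
  intro v w
  simp only [cur_apply]
  exact (continuous_eval_const _).comp ha

theorem cur_comp (α : V4 [⋀^Fin 2]→L[ℝ] ℝ) (A : V4 →L[ℝ] V4) :
    cur (α.compContinuousLinearMap A) = pb (cur α) A := by
  apply bf_ext
  intro x y
  rw [cur_apply, pb_apply, cur_apply, ContinuousAlternatingMap.compContinuousLinearMap_apply]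
  congr 1
  funext i
  fin_cases i <;> rfl

/-! ### hermitian products -/

/-- hermitian product on `V4` -/
noncomputable def ip (x y : V4) : ℂ := ∑ j, conj (x j) * y j

/-- hermitian product on `V5` -/
noncomputable def ip5 (x y : V5) : ℂ := ∑ j, conj (x j) * y j

/-- last four coordinates -/
def tl (z : V5) : V4 := fun j => z j.succ

/-- last four coordinates, as a linear map -/
noncomputable def tlL : V5 →L[ℝ] V4 := ContinuousLinearMap.pi fun j => ContinuousLinearMap.proj j.succ

/-- coordinate zero, as a linear map -/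
noncomputable def p0 : V5 →L[ℝ] ℂ := ContinuousLinearMap.proj 0

@[simp] theorem tlL_apply (z : V5) : tlL z = tl z := rfl
@[simp] theorem p0_apply (z : V5) : p0 z = z 0 := rfl

theorem ip5_eq (x y : V5) : ip5 x y = conj (x 0) * y 0 + ip (tl x) (tl y) := by
  unfold ip5 ip tl
  rw [Fin.sum_univ_succ]

theorem rip_eq (x y : V5) : rip x y = (ip5 x y).re := by
  unfold rip ip5
  rw [Complex.re_sum]

theorem ip_add_right (x y z : V4) : ip x (y + z) = ip x y + ip x z := by
  simp [ip, mul_add, Finset.sum_add_distrib]

theorem ip_add_left (x y z : V4) : ip (x + y) z = ip x z + ip y z := by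
  simp [ip, add_mul, Finset.sum_add_distrib]

theorem ip_sub_right (x y z : V4) : ip x (y - z) = ip x y - ip x z := by
  simp [ip, mul_sub, Finset.sum_sub_distrib]

theorem ip_sub_left (x y z : V4) : ip (x - y) z = ip x z - ip y z := by
  simp [ip, sub_mul, Finset.sum_sub_distrib]

theorem ip_smul_right (c : ℂ) (x y : V4) : ip x (c • y) = c * ip x y := by
  simp only [ip, Pi.smul_apply, smul_eq_mul, Finset.mul_sum]
  exact Finset.sum_congr rfl fun j _ => by ring

theorem ip_smul_left (c : ℂ) (x y : V4) : ip (c • x) y = conj c * ip x y := by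
  simp only [ip, Pi.smul_apply, smul_eq_mul, Finset.mul_sum, map_mul]
  exact Finset.sum_congr rfl fun j _ => by ring

theorem ip_conj (x y : V4) : conj (ip x y) = ip y x := by
  simp only [ip, map_sum, map_mul, Complex.conj_conj]
  exact Finset.sum_congr rfl fun j _ => by ring

theorem ip_self_im (x : V4) : (ip x x).im = 0 := by
  have := ip_conj x x
  rw [Complex.conj_eq_iff_im] at this
  exact this

/-- squared norm of `V4` -/
noncomputable def nsq (x : V4) : ℝ := (ip x x).re

theorem ip_self (x : V4) : ip x x = (nsq x : ℂ) :=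
  Complex.ext (by simp [nsq]) (by simp [ip_self_im])

theorem nsq_eq_sum (x : V4) : nsq x = ∑ j, ‖x j‖ ^ 2 := by
  unfold nsq ip
  rw [Complex.re_sum]
  refine Finset.sum_congr rfl fun j _ => ?_
  rw [← Complex.normSq_eq_conj_mul_self, Complex.ofReal_re, Complex.normSq_eq_norm_sq]

theorem nsq_nonneg (x : V4) : 0 ≤ nsq x := by
  rw [nsq_eq_sum]
  exact Finset.sum_nonneg fun j _ => sq_nonneg _

theorem nsq_eq_zero {x : V4} (h : nsq x = 0) : x = 0 := by
  rw [nsq_eq_sum, Finset.sum_eq_zero_iff_of_nonneg (fun j _ => sq_nonneg _)] at h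
  funext j
  have := h j (Finset.mem_univ j)
  simpa using this

theorem nsq_pos {x : V4} (h : x ≠ 0) : 0 < nsq x :=
  lt_of_le_of_ne (nsq_nonneg x) fun h0 => h (nsq_eq_zero h0.symm)

theorem nsq_smul (c : ℂ) (x : V4) : nsq (c • x) = ‖c‖ ^ 2 * nsq x := by
  simp only [nsq_eq_sum, Pi.smul_apply, smul_eq_mul, norm_mul, mul_pow, Finset.mul_sum]

theorem nsq_eq_n (x : V4) : nsq x = n3 x + n5 x := by
  rw [nsq_eq_sum]
  simp only [Fin.sum_univ_four, ← Complex.normSq_eq_norm_sq, Complex.normSq_apply, n3, n5]
  ring

theorem continuous_ip : Continuous fun p : V4 × V4 => ip p.1 p.2 := by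
  unfold ip
  fun_prop

theorem continuous_nsq : Continuous nsq := by
  unfold nsq ip
  fun_prop

theorem continuous_tl : Continuous tl := tlL.continuous

/-- the relation on the sphere -/
theorem sph (z : S9) : ‖z.1 0‖ ^ 2 + nsq (tl z.1) = 1 := by
  have h := z.2
  rw [Fin.sum_univ_succ] at h
  rw [nsq_eq_sum]
  exact h

theorem continuous_val : Continuous (fun z : S9 => z.1) := continuous_subtype_val

/-- the form `Im (conj <z,a> <z,b>)` -/
noncomputable def ipL (z : V5) : V5 →L[ℝ] ℂ :=
  ∑ j, (ContinuousLinearMap.mul ℝ ℂ (conj (z j))) ∘L ContinuousLinearMap.proj j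

@[simp] theorem ipL_apply (z a : V5) : ipL z a = ip5 z a := by
  simp [ipL, ip5]

theorem imForm_apply (v w : ℂ) : imForm v w = (conj v * w).im := rfl

/-- vertical part -/
noncomputable def ver (z : V5) : Bf V5 := pb imForm (ipL z)

theorem ver_apply (z a b : V5) : ver z a b = (conj (ip5 z a) * ip5 z b).im := by
  rw [ver, pb_apply, imForm_apply, ipL_apply, ipL_apply]

theorem continuous_ver : Continuous ver := by
  rw [continuous_bf]
  intro v w
  simp only [ver_apply, ip5]
  fun_prop

/-- the form `B(a',b') - Im (conj a_0 b_0)` -/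
noncomputable def ext5 (B : Bf V4) : Bf V5 := pb B tlL - pb imForm p0

theorem ext5_apply (B : Bf V4) (a b : V5) :
    ext5 B a b = B (tl a) (tl b) - (conj (a 0) * b 0).im := rfl

theorem ext5_mem_Nd {B : Bf V4} (hB : B ∈ Nd V4) : ext5 B ∈ Nd V5 := by
  constructor
  · intro v
    rw [ext5_apply, hB.1, ← Complex.normSq_eq_conj_mul_self]
    simp
  · intro v hv
    have h1 : tl v = 0 := by
      apply hB.2
      intro w
      have := hv (Fin.cons 0 w)
      rw [ext5_apply] at this
      have e : tl (Fin.cons 0 w : V5) = w := by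
        funext j
        simp [tl]
      rw [e] at this
      simpa using this
    have h2 : v 0 = 0 := by
      have h3 : ∀ c : ℂ, (conj (v 0) * c).im = 0 := by
        intro c
        have := hv (Fin.cons c 0)
        rw [ext5_apply] at this
        have e : tl (Fin.cons c 0 : V5) = 0 := by
          funext j
          simp [tl]
        rw [e] at this
        simp at this ⊢
        linarith
      have h4 := h3 1
      have h5 := h3 Complex.I
      simp at h4 h5
      exact Complex.ext h5 h4
    funext j
    refine Fin.cases h2 (fun i => ?_) j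
    exact congrFun h1 i

theorem continuous_ext5 : Continuous ext5 := by
  rw [continuous_bf]
  intro v w
  simp only [ext5_apply]
  exact ((continuous_id.clm_apply continuous_const).clm_apply continuous_const).sub continuous_const

/-! ### the inner region -/

/-- real coefficient `r = |v'|^2` -/
noncomputable def rr (z : V5) : ℝ := nsq (tl z)

/-- `c = sqrt (1 - 17 r)` -/
noncomputable def cc (z : V5) : ℝ := Real.sqrt (1 - 17 * rr z)

/-- `k = sqrt 17` -/
noncomputable def kk : ℝ := Real.sqrt 17

theorem kk_sq : kk ^ 2 = 17 := Real.sq_sqrt (by norm_num)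

/-- phase inverse of the coordinate zero -/
noncomputable def ph (z : V5) : ℂ := conj (z 0) / (‖z 0‖ : ℂ)

/-- the vector `v = h⁻¹ v'` -/
noncomputable def vv (z : V5) : V4 := ph z • tl z

/-- the second component of `L_z` -/
noncomputable def Ly (z a : V5) : V4 := conj (z 0) • tl a - (ph z * a 0) • vv z

/-- the coefficient `rho` of the reflection -/
noncomputable def rho (z a : V5) : ℝ := - cc z * (ip5 z a).im + kk * (ip (vv z) (Ly z a)).re

/-- `G (L_z a)` -/
noncomputable def Phf (z a : V5) : V5 :=
  Fin.cons (conj (ip5 z a) - (2 * rho z a * cc z : ℝ) * Complex.I)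
    (Ly z a - ((2 * rho z a * kk : ℝ) : ℂ) • vv z)

theorem ip5_add (z a b : V5) : ip5 z (a + b) = ip5 z a + ip5 z b := by
  simp [ip5, mul_add, Finset.sum_add_distrib]

theorem ip5_smul (c : ℂ) (z a : V5) : ip5 z (c • a) = c * ip5 z a := by
  simp only [ip5, Pi.smul_apply, smul_eq_mul, Finset.mul_sum]
  exact Finset.sum_congr rfl fun j _ => by ring

theorem ip5_rsmul (t : ℝ) (z a : V5) : ip5 z (t • a) = (t : ℂ) * ip5 z a := by
  have : t • a = (t : ℂ) • a := by
    funext j
    simp
  rw [this, ip5_smul]

theorem tl_add (a b : V5) : tl (a + b) = tl a + tl b := rfl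
theorem tl_smul (c : ℂ) (a : V5) : tl (c • a) = c • tl a := rfl
theorem tl_rsmul (t : ℝ) (a : V5) : tl (t • a) = (t : ℂ) • tl a := by
  funext j
  simp [tl]

theorem Ly_add (z a b : V5) : Ly z (a + b) = Ly z a + Ly z b := by
  unfold Ly
  rw [tl_add, Pi.add_apply]
  module

theorem Ly_rsmul (t : ℝ) (z a : V5) : Ly z (t • a) = (t : ℂ) • Ly z a := by
  unfold Ly
  rw [tl_rsmul, Pi.smul_apply, Complex.real_smul]
  module

theorem rho_add (z a b : V5) : rho z (a + b) = rho z a + rho z b := by
  unfold rho
  rw [ip5_add, Ly_add, ip_add_right, Complex.add_im, Complex.add_re]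
  ring

theorem rho_rsmul (t : ℝ) (z a : V5) : rho z (t • a) = t * rho z a := by
  unfold rho
  rw [ip5_rsmul, Ly_rsmul, ip_smul_right, Complex.re_ofReal_mul, Complex.im_ofReal_mul]
  ring

/-- `G (L_z a)` as a linear map -/
noncomputable def Ph (z : V5) : V5 →L[ℝ] V5 :=
  LinearMap.toContinuousLinearMap
    { toFun := Phf z
      map_add' := fun a b => by
        unfold Phf
        rw [ip5_add, Ly_add, rho_add]
        funext j
        refine Fin.cases ?_ (fun i => ?_) j
        · simp only [Fin.cons_zero, Pi.add_apply, map_add]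
          push_cast
          ring
        · simp only [Fin.cons_succ, Pi.add_apply, Pi.sub_apply, Pi.smul_apply, smul_eq_mul]
          push_cast
          ring
      map_smul' := fun t a => by
        unfold Phf
        rw [ip5_rsmul, Ly_rsmul, rho_rsmul]
        funext j
        refine Fin.cases ?_ (fun i => ?_) j
        · simp only [Fin.cons_zero, Pi.smul_apply, map_mul, RingHom.id_apply, Complex.real_smul,
            Complex.conj_ofReal]
          push_cast
          ring
        · simp only [Fin.cons_succ, Pi.smul_apply, Pi.sub_apply, smul_eq_mul, RingHom.id_apply,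
            Complex.real_smul]
          push_cast
          ring }

theorem Ph_apply (z a : V5) : Ph z a = Phf z a := rfl

end E1

end Pool.Agent.Work.MP_2a78db_gt
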