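import Pool.Agent.Work.MP_2a78db_gt.E1a

/-!
Module E1, part b: algebra of the inner region.
-/

namespace Pool.Agent.Work.MP_2a78db_gt

open scoped Topology ContDiff ComplexConjugate

namespace E1

theorem ph_mul_conj {z : V5} (h : z 0 ≠ 0) : ph z * conj (ph z) = 1 := by
  have h1 : (‖z 0‖ : ℂ) ≠ 0 := by
    rw [Complex.ofReal_ne_zero]
    exact norm_ne_zero_iff.2 h
  unfold ph
  rw [map_div₀, Complex.conj_conj, Complex.conj_ofReal, div_mul_div_comm, mul_comm (conj (z 0)),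
    Complex.mul_conj, Complex.normSq_eq_norm_sq]
  push_cast
  field_simp

theorem norm_mul_ph {z : V5} (h : z 0 ≠ 0) : (‖z 0‖ : ℂ) * ph z = conj (z 0) := by
  have h1 : (‖z 0‖ : ℂ) ≠ 0 := by
    rw [Complex.ofReal_ne_zero]
    exact norm_ne_zero_iff.2 h
  unfold ph
  field_simp

theorem conj_ph_mul {z : V5} (h : z 0 ≠ 0) : conj (ph z) * conj (z 0) = (‖z 0‖ : ℂ) := by
  rw [← norm_mul_ph h]
  linear_combination (‖z 0‖ : ℂ) * ph_mul_conj h

theorem ph_mul {z : V5} (h : z 0 ≠ 0) : ph z * z 0 = (‖z 0‖ : ℂ) := by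
  have := congrArg conj (conj_ph_mul h)
  simpa using this

theorem ip_tl_self (z : V5) : ip (tl z) (tl z) = (rr z : ℂ) := ip_self _

theorem ip_vv_vv {z : V5} (h : z 0 ≠ 0) : ip (vv z) (vv z) = (rr z : ℂ) := by
  unfold vv
  rw [ip_smul_left, ip_smul_right, ip_tl_self]
  linear_combination (rr z : ℂ) * ph_mul_conj h

theorem ip_vv_Ly {z : V5} (h : z 0 ≠ 0) (a : V5) :
    ip (vv z) (Ly z a) = (‖z 0‖ : ℂ) * ip (tl z) (tl a) - ph z * a 0 * (rr z : ℂ) := by
  unfold Ly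
  rw [ip_sub_right, ip_smul_right, ip_smul_right, ip_vv_vv h]
  unfold vv
  rw [ip_smul_left]
  linear_combination ip (tl z) (tl a) * conj_ph_mul h

theorem rr_nonneg (z : V5) : 0 ≤ rr z := nsq_nonneg _

theorem cc_sq {z : V5} (h : rr z ≤ 1 / 17) : cc z ^ 2 = 1 - 17 * rr z :=
  Real.sq_sqrt (by linarith)

theorem cc_eq_zero {z : V5} (h : rr z = 1 / 17) : cc z = 0 := by
  unfold cc
  rw [h]
  norm_num

/-- the map `E_z` -/
noncomputable def Ef (z a : V5) : V4 :=
  conj (a 0) • tl z + conj (z 0) • (tl a - ((2 * (ip (tl z) (tl a)).re / rr z : ℝ) : ℂ) • tl z)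

theorem tl_Phf (z a : V5) : tl (Phf z a) = Ly z a - ((2 * rho z a * kk : ℝ) : ℂ) • vv z := by
  funext j
  simp [tl, Phf]

theorem Phf_zero (z a : V5) :
    Phf z a 0 = conj (ip5 z a) - (2 * rho z a * cc z : ℝ) * Complex.I := rfl

/-- matching at `r = 1/17` -/
theorem tl_Phf_eq {z : V5} (h : z 0 ≠ 0) (hr : rr z = 1 / 17) (a : V5) :
    tl (Phf z a) = Ef z a := by
  rw [tl_Phf]
  unfold rho
  rw [cc_eq_zero hr, ip_vv_Ly h]
  unfold Ef Ly
  rw [hr]
  have hk : (kk : ℂ) ^ 2 = 17 := by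
    rw [← Complex.ofReal_pow, kk_sq]
    norm_num
  have h1 := norm_mul_ph h
  have h2 := ph_mul_conj h
  have hre : (2 : ℂ) * ((ph z * a 0).re : ℂ) = ph z * a 0 + conj (ph z * a 0) := by
    rw [Complex.add_conj]
    push_cast
    ring
  rw [map_mul] at hre
  funext j
  simp only [Pi.sub_apply, Pi.smul_apply, Pi.add_apply, smul_eq_mul, vv, Complex.sub_re,
    Complex.re_ofReal_mul]
  have e1 : (ph z * a 0 * ((1 / 17 : ℝ) : ℂ)).re = (ph z * a 0).re * (1 / 17) := by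
    rw [mul_comm, Complex.re_ofReal_mul]
    ring
  rw [e1]
  push_cast
  set P : ℂ := ((ip (tl z) (tl a)).re : ℂ)
  set R : ℂ := ((ph z * a 0).re : ℂ)
  linear_combination (-2 * P * (kk : ℂ) ^ 2 * tl z j) * h1 +
    (-2 * P * conj (z 0) * tl z j + 2 / 17 * R * ph z * tl z j) * hk + (ph z * tl z j) * hre +
    (conj (a 0) * tl z j) * h2

theorem Phf_zero_eq {z : V5} (hr : rr z = 1 / 17) (a : V5) :
    Phf z a 0 = conj (ip5 z a) := by
  rw [Phf_zero, cc_eq_zero hr]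
  simp

theorem Phf_zero_re (z a : V5) : (Phf z a 0).re = (ip5 z a).re := by
  rw [Phf_zero]
  simp

theorem Phf_zero_im (z a : V5) : (Phf z a 0).im = - (ip5 z a).im - 2 * rho z a * cc z := by
  rw [Phf_zero]
  simp

theorem ip5_self {z : S9} : ip5 z.1 z.1 = 1 := by
  rw [ip5_eq, ip_tl_self, ← Complex.normSq_eq_conj_mul_self, Complex.normSq_eq_norm_sq,
    ← Complex.ofReal_add]
  unfold rr
  rw [sph z]
  norm_num

theorem norm_sq_add (z : S9) : (‖z.1 0‖ : ℂ) ^ 2 + (rr z.1 : ℂ) = 1 := by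
  have := sph z
  unfold rr
  rw [← Complex.ofReal_pow, ← Complex.ofReal_add, this]
  norm_num

theorem Ly_smul (c : ℂ) (z a : V5) : Ly z (c • a) = c • Ly z a := by
  unfold Ly
  rw [tl_smul, Pi.smul_apply, smul_eq_mul]
  module

theorem Ly_self {z : V5} (h : z 0 ≠ 0) : Ly z z = 0 := by
  unfold Ly vv
  rw [ph_mul h, smul_smul, norm_mul_ph h, sub_self]

theorem injective_Phf {z : S9} (h : z.1 0 ≠ 0) (hr : rr z.1 ≤ 1 / 17) (a : V5)
    (ha : Phf z.1 a = 0) : a = 0 := by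
  have e0 : Phf z.1 a 0 = 0 := by rw [ha]; rfl
  have et : tl (Phf z.1 a) = 0 := by rw [ha]; rfl
  rw [tl_Phf] at et
  have hre := Phf_zero_re z.1 a
  have him := Phf_zero_im z.1 a
  rw [e0] at hre him
  simp only [Complex.zero_re, Complex.zero_im] at hre him
  have hLy : Ly z.1 a = ((2 * rho z.1 a * kk : ℝ) : ℂ) • vv z.1 := sub_eq_zero.1 et
  have hrho : rho z.1 a = 0 := by
    have h1 : rho z.1 a = - cc z.1 * (ip5 z.1 a).im + kk * (ip (vv z.1) (Ly z.1 a)).re := rfl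
    rw [hLy, ip_smul_right, ip_vv_vv h] at h1
    rw [← Complex.ofReal_mul, Complex.ofReal_re] at h1
    have h2 : (ip5 z.1 a).im = -2 * rho z.1 a * cc z.1 := by linarith
    rw [h2] at h1
    have h3 := cc_sq hr
    have h4 := kk_sq
    have : rho z.1 a = 2 * rho z.1 a * (cc z.1 ^ 2 + kk ^ 2 * rr z.1) := by
      linear_combination h1
    rw [h3, h4] at this
    linarith
  rw [hrho] at hLy him
  have hLy0 : Ly z.1 a = 0 := by
    rw [hLy]
    simp
  have hy0 : ip5 z.1 a = 0 := Complex.ext (by simpa using hre.symm) (by simp at him ⊢; linarith)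
  have hM := ip_vv_Ly h a
  rw [hLy0] at hM
  have hzero : ip (vv z.1) 0 = 0 := by simp [ip]
  rw [hzero] at hM
  rw [ip5_eq] at hy0
  have hn := norm_sq_add z
  have hphn := norm_mul_ph h
  have hne : (‖z.1 0‖ : ℂ) ≠ 0 := by
    rw [Complex.ofReal_ne_zero]
    exact norm_ne_zero_iff.2 h
  have hph : ph z.1 ≠ 0 := by
    intro h0
    have := ph_mul_conj h
    rw [h0] at this
    simp at this
  have ha0 : a 0 = 0 := by
    have : ph z.1 * a 0 = 0 := by
      linear_combination (‖z.1 0‖ : ℂ) * hy0 + hM - ph z.1 * a 0 * hn -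
        (‖z.1 0‖ : ℂ) * a 0 * (- hphn)
    rcases mul_eq_zero.1 this with h0 | h0
    · exact absurd h0 hph
    · exact h0
  have hta : tl a = 0 := by
    unfold Ly at hLy0
    rw [ha0] at hLy0
    simp only [mul_zero, zero_smul, sub_zero] at hLy0
    rcases smul_eq_zero.1 hLy0 with h0 | h0
    · exfalso
      apply h
      simpa using h0
    · exact h0
  funext j
  refine Fin.cases ha0 (fun i => ?_) j
  exact congrFun hta i

theorem bijective_Ph {z : S9} (h : z.1 0 ≠ 0) (hr : rr z.1 ≤ 1 / 17) :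
    Function.Bijective (Ph z.1) := by
  have hinj : Function.Injective (Ph z.1) := by
    rw [injective_iff_map_eq_zero]
    intro a ha
    exact injective_Phf h hr a ha
  refine ⟨hinj, ?_⟩
  exact (LinearMap.injective_iff_surjective (f := (Ph z.1).toLinearMap)).1 hinj

/-- the vector `w^` -/
noncomputable def wv (z : V5) : V5 :=
  Fin.cons (-(rr z : ℂ) * conj (ph z)) ((‖z 0‖ : ℂ) • tl z)

/-- the field `u` in the inner region -/
noncomputable def uin (z : V5) : V5 :=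
  (-((1 - 34 * rr z : ℝ) : ℂ) * Complex.I) • z + ((2 * kk * cc z : ℝ) : ℂ) • wv z

theorem tl_wv (z : V5) : tl (wv z) = (‖z 0‖ : ℂ) • tl z := by
  funext j
  simp [tl, wv]

theorem wv_zero (z : V5) : wv z 0 = -(rr z : ℂ) * conj (ph z) := rfl

theorem ip5_wv {z : V5} (h : z 0 ≠ 0) : ip5 z (wv z) = 0 := by
  rw [ip5_eq, wv_zero, tl_wv, ip_smul_right, ip_tl_self]
  linear_combination -(rr z : ℂ) * conj_ph_mul h

theorem Ly_wv {z : S9} (h : z.1 0 ≠ 0) : Ly z.1 (wv z.1) = vv z.1 := by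
  unfold Ly
  rw [tl_wv, wv_zero, smul_smul]
  have h1 := norm_mul_ph h
  have h2 := ph_mul_conj h
  have h3 := norm_sq_add z
  funext j
  simp only [Pi.sub_apply, Pi.smul_apply, smul_eq_mul, vv]
  linear_combination (-(‖z.1 0‖ : ℂ) * tl z.1 j) * h1 +
    ((rr z.1 : ℂ) * ph z.1 * tl z.1 j) * h2 + (ph z.1 * tl z.1 j) * h3

theorem rho_self {z : V5} (h : z 0 ≠ 0) (hz : ip5 z z = 1) : rho z z = 0 := by
  unfold rho
  rw [Ly_self h, hz]
  simp [ip]

theorem Phf_self {z : V5} (h : z 0 ≠ 0) (hz : ip5 z z = 1) : Phf z z = Fin.cons 1 0 := by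
  unfold Phf
  rw [rho_self h hz, hz, Ly_self h]
  simp

theorem ip5_uin {z : S9} (h : z.1 0 ≠ 0) :
    ip5 z.1 (uin z.1) = -((1 - 34 * rr z.1 : ℝ) : ℂ) * Complex.I := by
  unfold uin
  rw [ip5_add, ip5_smul, ip5_smul, ip5_wv h, ip5_self]
  ring

theorem Ly_uin {z : S9} (h : z.1 0 ≠ 0) :
    Ly z.1 (uin z.1) = ((2 * kk * cc z.1 : ℝ) : ℂ) • vv z.1 := by
  unfold uin
  rw [Ly_add, Ly_smul, Ly_smul, Ly_wv h, Ly_self h, smul_zero, zero_add]

theorem rho_uin {z : S9} (h : z.1 0 ≠ 0) (hr : rr z.1 ≤ 1 / 17) : rho z.1 (uin z.1) = cc z.1 := by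
  unfold rho
  rw [ip5_uin h, Ly_uin h, ip_smul_right, ip_vv_vv h, ← Complex.ofReal_mul, Complex.ofReal_re]
  have h1 : (-((1 - 34 * rr z.1 : ℝ) : ℂ) * Complex.I).im = -(1 - 34 * rr z.1) := by
    rw [← Complex.ofReal_neg, Complex.im_ofReal_mul]
    simp
  rw [h1]
  have := kk_sq
  linear_combination (2 * cc z.1 * rr z.1) * this

theorem Phf_uin {z : S9} (h : z.1 0 ≠ 0) (hr : rr z.1 ≤ 1 / 17) :
    Phf z.1 (uin z.1) = Fin.cons (-Complex.I) 0 := by
  unfold Phf
  rw [rho_uin h hr, ip5_uin h, Ly_uin h]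
  have h1 := cc_sq hr
  congr 1
  · simp only [map_mul, map_neg, Complex.conj_ofReal, Complex.conj_I]
    have h2 : (2 * cc z.1 * cc z.1 : ℝ) = 2 * (1 - 17 * rr z.1) := by
      rw [← h1]; ring
    rw [h2]
    push_cast
    ring
  · rw [← sub_smul]
    have : (((2 * kk * cc z.1 : ℝ) : ℂ) - ((2 * cc z.1 * kk : ℝ) : ℂ)) = 0 := by
      push_cast
      ring
    rw [this, zero_smul]

theorem rip_smul_I (z b : V5) (t : ℝ) :
    rip ((-(t : ℂ) * Complex.I) • z) b = - t * (ip5 z b).im := by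
  rw [rip_eq]
  have : ip5 ((-(t : ℂ) * Complex.I) • z) b = (t * Complex.I) * ip5 z b := by
    simp only [ip5, Pi.smul_apply, smul_eq_mul, map_mul, map_neg, Complex.conj_ofReal,
      Complex.conj_I, Finset.mul_sum]
    exact Finset.sum_congr rfl fun j _ => by ring
  rw [this, mul_assoc, Complex.re_ofReal_mul]
  simp

theorem rip_add_left (x y b : V5) : rip (x + y) b = rip x b + rip y b := by
  simp only [rip, ← Finset.sum_add_distrib]
  refine Finset.sum_congr rfl fun j _ => ?_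
  rw [Pi.add_apply, map_add, add_mul, Complex.add_re]

theorem rip_rsmul_left (t : ℝ) (x b : V5) : rip ((t : ℂ) • x) b = t * rip x b := by
  simp only [rip, Finset.mul_sum]
  refine Finset.sum_congr rfl fun j _ => ?_
  rw [Pi.smul_apply, smul_eq_mul, map_mul, Complex.conj_ofReal, mul_assoc, Complex.re_ofReal_mul]

theorem rip_wv {z : V5} (h : z 0 ≠ 0) (b : V5) :
    rip (wv z) b = (ip (vv z) (Ly z b)).re := by
  rw [ip_vv_Ly h, rip_eq, ip5_eq, wv_zero, tl_wv, ip_smul_left]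
  simp only [map_mul, map_neg, Complex.conj_ofReal, Complex.conj_conj]
  congr 1
  ring

/-- the relation `on_z` in the inner region -/
theorem on_z_in {z : S9} (h : z.1 0 ≠ 0) (hr : rr z.1 ≤ 1 / 17) (B : Bf V4) (b : V5) :
    pb (ext5 B) (Ph z.1) z.1 b = rip (uin z.1) b := by
  rw [pb_apply, Ph_apply, Ph_apply, Phf_self h ip5_self, ext5_apply]
  have e1 : tl (Fin.cons 1 0 : V5) = 0 := by funext j; simp [tl]
  rw [e1, map_zero, ContinuousLinearMap.zero_apply]
  simp only [Fin.cons_zero, map_one, one_mul, zero_sub]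
  rw [Phf_zero_im]
  unfold uin
  rw [rip_add_left, rip_smul_I, rip_rsmul_left, rip_wv h]
  have h1 := cc_sq hr
  unfold rho
  linear_combination (- 2 * (ip5 z.1 b).im) * h1

/-- the relation `on_u` in the inner region -/
theorem on_u_in {z : S9} (h : z.1 0 ≠ 0) (hr : rr z.1 ≤ 1 / 17) (B : Bf V4) (b : V5) :
    pb (ext5 B) (Ph z.1) (uin z.1) b = - rip z.1 b := by
  rw [pb_apply, Ph_apply, Ph_apply, Phf_uin h hr, ext5_apply]
  have e1 : tl (Fin.cons (-Complex.I) 0 : V5) = 0 := by funext j; simp [tl]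
  rw [e1, map_zero, ContinuousLinearMap.zero_apply]
  simp only [Fin.cons_zero, map_neg, Complex.conj_I, neg_neg, zero_sub]
  rw [rip_eq]
  simp only [Complex.mul_im, Complex.I_re, Complex.I_im, zero_mul, one_mul, zero_add]
  rw [Phf_zero_re]

theorem rip_self_eq (x : V5) : rip x x = ‖x 0‖ ^ 2 + nsq (tl x) := by
  rw [rip_eq, ip5_eq, Complex.add_re, ← Complex.normSq_eq_conj_mul_self, Complex.ofReal_re,
    Complex.normSq_eq_norm_sq]
  rfl

theorem rip_comm (x y : V5) : rip x y = rip y x := by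
  simp only [rip]
  refine Finset.sum_congr rfl fun j _ => ?_
  rw [← Complex.conj_re, map_mul, Complex.conj_conj, mul_comm]

theorem rip_uin_eq {z : S9} (h : z.1 0 ≠ 0) (b : V5) :
    rip (uin z.1) b = -(1 - 34 * rr z.1) * (ip5 z.1 b).im + 2 * kk * cc z.1 * rip (wv z.1) b := by
  unfold uin
  rw [rip_add_left, rip_smul_I, rip_rsmul_left]

theorem rip_wv_wv {z : S9} (h : z.1 0 ≠ 0) : rip (wv z.1) (wv z.1) = rr z.1 := by
  rw [rip_wv h, Ly_wv h, ip_vv_vv h, Complex.ofReal_re]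

theorem unit_in {z : S9} (h : z.1 0 ≠ 0) (hr : rr z.1 ≤ 1 / 17) :
    rip (uin z.1) (uin z.1) = 1 := by
  have h1 : rip (wv z.1) (uin z.1) = 2 * kk * cc z.1 * rr z.1 := by
    rw [rip_comm, rip_uin_eq h, ip5_wv h, rip_wv_wv h]
    simp
  rw [rip_uin_eq h, h1, ip5_uin h]
  have h2 : (-((1 - 34 * rr z.1 : ℝ) : ℂ) * Complex.I).im = -(1 - 34 * rr z.1) := by
    rw [← Complex.ofReal_neg, Complex.im_ofReal_mul]
    simp
  rw [h2]
  have h3 := cc_sq hr
  have h4 := kk_sq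
  linear_combination (4 * rr z.1 * kk ^ 2) * h3 + (4 * rr z.1 * (1 - 17 * rr z.1)) * h4

end E1

end Pool.Agent.Work.MP_2a78db_gt
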