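import Pool.Agent.Work.MP_2a78db_gt.E1b

/-!
Module E1, part c: the outer region, derivatives of the coordinate maps.
-/

namespace Pool.Agent.Work.MP_2a78db_gt

open scoped Topology ContDiff ComplexConjugate

namespace E1

/-- the map `E_z` as a linear map -/
noncomputable def El (z : V5) : V5 →L[ℝ] V4 :=
  LinearMap.toContinuousLinearMap
    { toFun := Ef z
      map_add' := fun a b => by
        unfold Ef
        rw [tl_add, ip_add_right, Complex.add_re]
        funext j
        simp only [Pi.add_apply, Pi.sub_apply, Pi.smul_apply, smul_eq_mul, map_add]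
        push_cast
        ring
      map_smul' := fun t a => by
        unfold Ef
        rw [tl_rsmul, ip_smul_right, Complex.re_ofReal_mul]
        funext j
        simp only [Pi.add_apply, Pi.sub_apply, Pi.smul_apply, smul_eq_mul, map_mul,
          Complex.real_smul, Complex.conj_ofReal, RingHom.id_apply]
        push_cast
        ring }

theorem El_apply (z a : V5) : El z a = Ef z a := rfl

theorem Ef_smul_self {z : V5} (hr : rr z ≠ 0) (c : ℂ) : Ef z (c • z) = 0 := by
  unfold Ef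
  rw [tl_smul, ip_smul_right, ip_tl_self]
  have h1 : ((2 * (c * (rr z : ℂ)).re / rr z : ℝ) : ℂ) = c + conj c := by
    rw [mul_comm c, Complex.re_ofReal_mul, Complex.add_conj]
    congr 1
    field_simp
  rw [h1]
  funext j
  simp only [Pi.add_apply, Pi.sub_apply, Pi.smul_apply, smul_eq_mul, map_mul, Pi.zero_apply]
  ring

theorem Ef_surj {z : V5} (h : z 0 ≠ 0) (hr : rr z ≠ 0) (y : V4) : ∃ a, Ef z a = y := by
  have hc : conj (z 0) ≠ 0 := by simpa using h
  let y1 : V4 := (conj (z 0))⁻¹ • y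
  let a' : V4 := y1 - ((2 * (ip (tl z) y1).re / rr z : ℝ) : ℂ) • tl z
  refine ⟨Fin.cons 0 a', ?_⟩
  unfold Ef
  have e1 : tl (Fin.cons 0 a' : V5) = a' := by funext j; simp [tl]
  rw [e1]
  simp only [Fin.cons_zero, map_zero, zero_smul, zero_add]
  have key : ∀ q : ℝ, (ip (tl z) (y1 - (q : ℂ) • tl z)).re = (ip (tl z) y1).re - q * rr z := by
    intro q
    rw [ip_sub_right, ip_smul_right (q : ℂ) (tl z) (tl z), ip_tl_self, ← Complex.ofReal_mul,
      Complex.sub_re, Complex.ofReal_re]
  have h1 : (ip (tl z) a').re = - (ip (tl z) y1).re := by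
    simp only [a']
    rw [key]
    field_simp
    ring
  rw [h1]
  funext j
  simp only [Pi.sub_apply, Pi.smul_apply, smul_eq_mul, a', y1]
  push_cast
  field_simp
  ring

theorem Ef_ker {z : V5} (h : z 0 ≠ 0) (hr : rr z ≠ 0) (a : V5) (ha : Ef z a = 0) :
    a = (a 0 / z 0) • z := by
  have hc : conj (z 0) ≠ 0 := by simpa using h
  unfold Ef at ha
  set q : ℝ := 2 * (ip (tl z) (tl a)).re / rr z with hq
  have h1 : tl a = ((q : ℂ) - conj (a 0) / conj (z 0)) • tl z := by
    funext j
    have := congrFun ha j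
    simp only [Pi.add_apply, Pi.sub_apply, Pi.smul_apply, smul_eq_mul, Pi.zero_apply] at this
    simp only [Pi.smul_apply, smul_eq_mul]
    field_simp
    linear_combination this
  have h2 : (q : ℂ) = a 0 / z 0 + conj (a 0) / conj (z 0) := by
    have h3 : q = 2 * (q - (conj (a 0) / conj (z 0)).re) := by
      rw [h1, ip_smul_right, ip_tl_self, Complex.re_mul_ofReal, Complex.sub_re,
        Complex.ofReal_re] at hq
      field_simp at hq
      linarith
    have h4 : (conj (a 0) / conj (z 0)) = conj (a 0 / z 0) := by rw [map_div₀]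
    rw [h4] at h3 ⊢
    rw [Complex.add_conj]
    rw [Complex.conj_re] at h3
    congr 1
    linarith
  have h5 : tl a = (a 0 / z 0) • tl z := by
    rw [h1, h2]
    congr 1
    ring
  funext j
  refine Fin.cases ?_ (fun i => ?_) j
  · rw [Pi.smul_apply, smul_eq_mul]
    field_simp
  · exact congrFun h5 i

/-- general nondegeneracy criterion -/
theorem nd_criterion {z : V5} (hz : ip5 z z = 1) {B : Bf V4} (hB : B ∈ Nd V4) (A : V5 →L[ℝ] V4)
    (h1 : A z = 0) (h2 : A (Complex.I • z) = 0) (hs : Function.Surjective A)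
    (hk : ∀ a, A a = 0 → ∃ c : ℂ, a = c • z) : pb B A + ver z ∈ Nd V5 := by
  constructor
  · intro v
    rw [add_apply, add_apply, pb_apply, hB.1, ver_apply,
      ← Complex.normSq_eq_conj_mul_self]
    simp
  · intro a ha
    have hsum : ∀ b, B (A a) (A b) + (conj (ip5 z a) * ip5 z b).im = 0 := by
      intro b
      have := ha b
      rwa [add_apply, add_apply, pb_apply,
        ver_apply] at this
    have e1 := hsum z
    rw [h1, map_zero, zero_add, hz, mul_one] at e1
    have e2 := hsum (Complex.I • z)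
    rw [h2, map_zero, zero_add, ip5_smul, hz, mul_one] at e2
    have hza : ip5 z a = 0 := by
      have e3 : (ip5 z a).im = 0 := by
        rw [Complex.conj_im] at e1
        linarith
      have e4 : (ip5 z a).re = 0 := by
        rw [Complex.mul_im, Complex.I_re, Complex.I_im, Complex.conj_re] at e2
        linarith
      exact Complex.ext e4 e3
    have hAa : A a = 0 := by
      apply hB.2
      intro y
      obtain ⟨b, rfl⟩ := hs y
      have := hsum b
      rw [hza] at this
      simpa using this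
    obtain ⟨c, rfl⟩ := hk a hAa
    rw [ip5_smul, hz, mul_one] at hza
    rw [hza, zero_smul]

/-! ### derivatives -/

theorem hasFDerivAt_nsq (x : V4) :
    ∃ L : V4 →L[ℝ] ℝ, HasFDerivAt nsq L x ∧ ∀ v, L v = 2 * (ip x v).re := by
  have h : ∀ j : Fin 4, HasFDerivAt (fun x : V4 => (x j).re ^ 2 + (x j).im ^ 2)
      ((2 * (x j).re) • (Complex.reCLM ∘L ContinuousLinearMap.proj j) +
        (2 * (x j).im) • (Complex.imCLM ∘L ContinuousLinearMap.proj j)) x := by
    intro j
    have h1 : HasFDerivAt (fun x : V4 => (x j).re) (Complex.reCLM ∘L ContinuousLinearMap.proj j) x :=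
      (Complex.reCLM ∘L (ContinuousLinearMap.proj (R := ℝ) (φ := fun _ : Fin 4 => ℂ) j)).hasFDerivAt
    have h2 : HasFDerivAt (fun x : V4 => (x j).im) (Complex.imCLM ∘L ContinuousLinearMap.proj j) x :=
      (Complex.imCLM ∘L (ContinuousLinearMap.proj (R := ℝ) (φ := fun _ : Fin 4 => ℂ) j)).hasFDerivAt
    have h3 := (h1.pow 2).add (h2.pow 2)
    convert! h3 using 1
    ext v
    simp
  have h1 := HasFDerivAt.fun_sum (u := Finset.univ) fun j _ => h j
  have h2 : nsq = fun x : V4 => ∑ j, ((x j).re ^ 2 + (x j).im ^ 2) := by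
    funext x
    rw [nsq_eq_sum]
    refine Finset.sum_congr rfl fun j _ => ?_
    rw [← Complex.normSq_eq_norm_sq, Complex.normSq_apply]
    ring
  rw [← h2] at h1
  refine ⟨_, h1, fun v => ?_⟩
  simp only [ip, Complex.re_sum, Finset.mul_sum, sum_apply]
  refine Finset.sum_congr rfl fun j _ => ?_
  simp
  ring

theorem hasFDerivAt_rr (z : V5) :
    ∃ L : V5 →L[ℝ] ℝ, HasFDerivAt rr L z ∧ ∀ a, L a = 2 * (ip (tl z) (tl a)).re := by
  obtain ⟨L, h1, h2⟩ := hasFDerivAt_nsq (tl z)
  exact ⟨L ∘L tlL, h1.comp z tlL.hasFDerivAt, fun a => h2 _⟩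

/-- the coordinate `xi` on the sphere -/
noncomputable def xim (z : V5) : V4 := fun j => conj (z 0) * z j.succ * (((rr z)⁻¹ : ℝ) : ℂ)

theorem hasFDerivAt_xim {z : V5} (hr : rr z ≠ 0) : HasFDerivAt xim ((rr z)⁻¹ • El z) z := by
  obtain ⟨L, hL, hL2⟩ := hasFDerivAt_rr z
  rw [hasFDerivAt_pi']
  intro j
  have h0 : HasFDerivAt (fun z : V5 => conj (z 0))
      ((Complex.conjCLE : ℂ →L[ℝ] ℂ) ∘L (ContinuousLinearMap.proj 0)) z :=
    ((Complex.conjCLE : ℂ →L[ℝ] ℂ) ∘L
      (ContinuousLinearMap.proj (R := ℝ) (φ := fun _ : Fin 5 => ℂ) 0)).hasFDerivAt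
  have hj : HasFDerivAt (fun z : V5 => z j.succ) (ContinuousLinearMap.proj (R := ℝ) j.succ) z :=
    (ContinuousLinearMap.proj (R := ℝ) (φ := fun _ : Fin 5 => ℂ) j.succ).hasFDerivAt
  have hi : HasFDerivAt (fun z : V5 => (((rr z)⁻¹ : ℝ) : ℂ))
      (Complex.ofRealCLM ∘L ((-(rr z ^ 2)⁻¹) • L)) z := by
    have h1 := (hasDerivAt_inv hr).comp_hasFDerivAt z hL
    exact (Complex.ofRealCLM.hasFDerivAt).comp z h1
  have h := (h0.mul hj).mul hi
  refine h.congr_fderiv ?_
  ext a
  simp only [ContinuousLinearMap.comp_apply, add_apply, Pi.mul_apply,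
    smul_apply, ContinuousLinearMap.proj_apply, El_apply, hL2, Ef,
    Pi.smul_apply, Pi.add_apply, Pi.sub_apply, smul_eq_mul, Complex.real_smul,
    Complex.ofRealCLM_apply, ContinuousLinearEquiv.coe_coe, Complex.conjCLE_apply, tl]
  have hr' : (rr z : ℂ) ≠ 0 := by exact_mod_cast hr
  push_cast
  field_simp
  ring

/-- the blow-up chart on the sphere -/
noncomputable def wm (i : Fin 4) (z : V5) : V4 := fun j =>
  if j = i then conj (z 0) * z i.succ * (((rr z)⁻¹ : ℝ) : ℂ) else z j.succ * (z i.succ)⁻¹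

theorem bl_wm {i : Fin 4} {z : V5} (h : z i.succ ≠ 0) : bl i (wm i z) = xim z := by
  funext j
  unfold bl wm xim
  by_cases hj : j = i
  · subst hj
    simp
  · simp only [hj, if_false, if_true]
    field_simp

theorem rr_ne_zero {z : V5} {i : Fin 4} (h : z i.succ ≠ 0) : rr z ≠ 0 := by
  intro h0
  have := nsq_eq_zero h0
  exact h (congrFun this i)

theorem contDiff_rr : ContDiff ℝ ∞ rr := by
  have h2 : rr = fun z : V5 => ∑ j : Fin 4, ((z j.succ).re ^ 2 + (z j.succ).im ^ 2) := by
    funext x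
    unfold rr
    rw [nsq_eq_sum]
    refine Finset.sum_congr rfl fun j _ => ?_
    rw [← Complex.normSq_eq_norm_sq, Complex.normSq_apply]
    unfold tl
    ring
  rw [h2]
  refine ContDiff.sum fun j _ => ?_
  have h1 : ContDiff ℝ ∞ fun z : V5 => (z j.succ).re :=
    (Complex.reCLM ∘L
      (ContinuousLinearMap.proj (R := ℝ) (φ := fun _ : Fin 5 => ℂ) j.succ)).contDiff
  have h3 : ContDiff ℝ ∞ fun z : V5 => (z j.succ).im :=
    (Complex.imCLM ∘L
      (ContinuousLinearMap.proj (R := ℝ) (φ := fun _ : Fin 5 => ℂ) j.succ)).contDiff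
  exact (h1.pow 2).add (h3.pow 2)

theorem contDiffAt_wm {i : Fin 4} {z : V5} (h : z i.succ ≠ 0) : ContDiffAt ℝ ∞ (wm i) z := by
  rw [contDiffAt_pi]
  intro j
  have hp : ∀ k : Fin 5, ContDiffAt ℝ ∞ (fun z : V5 => z k) z := fun k =>
    (ContinuousLinearMap.proj (R := ℝ) (φ := fun _ : Fin 5 => ℂ) k).contDiff.contDiffAt
  unfold wm
  by_cases hj : j = i
  · simp only [hj, if_true]
    have h0 : ContDiffAt ℝ ∞ (fun z : V5 => conj (z 0)) z :=
      ((Complex.conjCLE : ℂ →L[ℝ] ℂ) ∘L
        (ContinuousLinearMap.proj (R := ℝ) (φ := fun _ : Fin 5 => ℂ) 0)).contDiff.contDiffAt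
    have h1 : ContDiffAt ℝ ∞ (fun z : V5 => (((rr z)⁻¹ : ℝ) : ℂ)) z :=
      Complex.ofRealCLM.contDiff.contDiffAt.comp z (contDiff_rr.contDiffAt.inv (rr_ne_zero h))
    exact (h0.mul (hp _)).mul h1
  · simp only [hj, if_false]
    exact (hp _).mul ((hp _).inv h)

theorem isOpen_ne (i : Fin 4) : IsOpen {z : V5 | z i.succ ≠ 0} :=
  isOpen_ne_fun (continuous_apply _) continuous_const

theorem continuousAt_fderiv_wm {i : Fin 4} {z : V5} (h : z i.succ ≠ 0) :
    ContinuousAt (fderiv ℝ (wm i)) z :=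
  ((contDiffAt_wm h).fderiv_right (m := ∞) (by norm_num)).continuousAt

theorem fderiv_bl_wm {i : Fin 4} {z : V5} (h : z i.succ ≠ 0) :
    fderiv ℝ (bl i) (wm i z) ∘L fderiv ℝ (wm i) z = (rr z)⁻¹ • El z := by
  have hbl : DifferentiableAt ℝ (bl i) (wm i z) := by
    rw [differentiableAt_pi]
    intro j
    unfold bl
    by_cases hj : j = i
    · simp only [hj, if_true]
      fun_prop
    · simp only [hj, if_false]
      fun_prop
  have h1 := hbl.hasFDerivAt.comp z ((contDiffAt_wm h).differentiableAt (by norm_num)).hasFDerivAt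
  have h2 : (bl i ∘ wm i) =ᶠ[𝓝 z] xim := by
    filter_upwards [(isOpen_ne i).mem_nhds h] with y hy
    exact bl_wm hy
  have h3 := (h2.hasFDerivAt_iff).1 h1
  exact h3.unique (hasFDerivAt_xim (rr_ne_zero h))

/-- the explicit derivative of the blow-up chart at a point of the exceptional divisor -/
theorem fderiv_wm_zero {i : Fin 4} {z : V5} (h : z i.succ ≠ 0) (h0 : z 0 = 0) (a : V5) (j : Fin 4) :
    fderiv ℝ (wm i) z a j =
      if j = i then conj (a 0) * z i.succ * (((rr z)⁻¹ : ℝ) : ℂ)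
      else a j.succ * (z i.succ)⁻¹ - z j.succ * a i.succ * ((z i.succ)⁻¹) ^ 2 := by
  have hd := ((contDiffAt_wm h).differentiableAt (by norm_num)).hasFDerivAt
  rw [hasFDerivAt_pi'] at hd
  have hdj := hd j
  have hval : fderiv ℝ (wm i) z a j =
      (ContinuousLinearMap.proj j ∘L fderiv ℝ (wm i) z : V5 →L[ℝ] ℂ) a := rfl
  rw [hval]
  have hp : ∀ k : Fin 5, HasFDerivAt (fun z : V5 => z k) (ContinuousLinearMap.proj (R := ℝ) k) z :=
    fun k => (ContinuousLinearMap.proj (R := ℝ) (φ := fun _ : Fin 5 => ℂ) k).hasFDerivAt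
  by_cases hj : j = i
  · subst hj
    obtain ⟨L, hL, hL2⟩ := hasFDerivAt_rr z
    have hr := rr_ne_zero h
    have hc0 : HasFDerivAt (fun z : V5 => conj (z 0))
        ((Complex.conjCLE : ℂ →L[ℝ] ℂ) ∘L (ContinuousLinearMap.proj 0)) z :=
      ((Complex.conjCLE : ℂ →L[ℝ] ℂ) ∘L
        (ContinuousLinearMap.proj (R := ℝ) (φ := fun _ : Fin 5 => ℂ) 0)).hasFDerivAt
    have hi : HasFDerivAt (fun z : V5 => (((rr z)⁻¹ : ℝ) : ℂ))
        (Complex.ofRealCLM ∘L ((-(rr z ^ 2)⁻¹) • L)) z := by
      have h1 := (hasDerivAt_inv hr).comp_hasFDerivAt z hL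
      exact (Complex.ofRealCLM.hasFDerivAt).comp z h1
    have hh := (hc0.mul (hp j.succ)).mul hi
    have hfun : (fun x => wm j x j) = fun z : V5 =>
        conj (z 0) * z j.succ * (((rr z)⁻¹ : ℝ) : ℂ) := by
      funext x
      simp [wm]
    rw [hfun] at hdj
    rw [hdj.unique hh]
    simp only [ContinuousLinearMap.comp_apply, add_apply, Pi.mul_apply, zero_mul,
      smul_apply, ContinuousLinearMap.proj_apply, smul_eq_mul,
      Complex.ofRealCLM_apply, ContinuousLinearEquiv.coe_coe, Complex.conjCLE_apply, h0, map_zero,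
      if_true]
    ring
  · have hinv : HasFDerivAt (fun z : V5 => (z i.succ)⁻¹)
        ((-(z i.succ ^ 2)⁻¹) • (ContinuousLinearMap.proj (R := ℝ) i.succ : V5 →L[ℝ] ℂ)) z := by
      have h1 := (hasDerivAt_inv h).comp_hasFDerivAt z (hp i.succ)
      exact h1
    have hh := (hp j.succ).mul hinv
    have hfun : (fun x => wm i x j) = fun z : V5 => z j.succ * (z i.succ)⁻¹ := by
      funext x
      simp [wm, hj]
    rw [hfun] at hdj
    rw [hdj.unique hh]
    simp only [add_apply, smul_apply,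
      ContinuousLinearMap.proj_apply, smul_eq_mul, hj, if_false]
    ring

end E1

end Pool.Agent.Work.MP_2a78db_gt
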