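import Pool.Agent.Work.MP_2a78db_gt.E1c
import Pool.Agent.Work.MP_2a78db_gt.A3

/-!
Module E1, part d: the outer region, independence of the blow-up chart and invariance.
-/

namespace Pool.Agent.Work.MP_2a78db_gt

open scoped Topology ContDiff ComplexConjugate

namespace E1

theorem rr_smul (c : ℂ) (z : V5) : rr (c • z) = ‖c‖ ^ 2 * rr z := by
  unfold rr
  rw [tl_smul, nsq_smul]

theorem conj_mul_inv {c : ℂ} (hc : c ≠ 0) : conj c * c * (((‖c‖ ^ 2)⁻¹ : ℝ) : ℂ) = 1 := by
  rw [← Complex.normSq_eq_conj_mul_self, Complex.normSq_eq_norm_sq, ← Complex.ofReal_mul,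
    mul_inv_cancel₀ (by positivity), Complex.ofReal_one]

theorem wm_smul {c : ℂ} (hc : c ≠ 0) (i : Fin 4) (z : V5) : wm i (c • z) = wm i z := by
  funext j
  unfold wm
  by_cases hj : j = i
  · simp only [hj, if_true, Pi.smul_apply, smul_eq_mul, rr_smul, map_mul, mul_inv]
    have := conj_mul_inv hc
    push_cast at this ⊢
    linear_combination (conj (z 0) * z i.succ * ((rr z : ℂ))⁻¹) * this
  · simp only [hj, if_false, Pi.smul_apply, smul_eq_mul, mul_inv]
    field_simp

theorem xim_smul {c : ℂ} (hc : c ≠ 0) (z : V5) : xim (c • z) = xim z := by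
  funext j
  unfold xim
  simp only [Pi.smul_apply, smul_eq_mul, rr_smul, map_mul, mul_inv]
  have := conj_mul_inv hc
  push_cast at this ⊢
  linear_combination (conj (z 0) * z j.succ * ((rr z : ℂ))⁻¹) * this

/-- multiplication by a complex number as a real linear map -/
noncomputable def ml (c : ℂ) : V5 →L[ℝ] V5 :=
  ContinuousLinearMap.pi fun j => (ContinuousLinearMap.mul ℝ ℂ c) ∘L ContinuousLinearMap.proj j

@[simp] theorem ml_apply (c : ℂ) (z : V5) : ml c z = c • z := rfl

theorem fderiv_wm_smul {c : ℂ} (hc : c ≠ 0) {i : Fin 4} {z : V5} (h : z i.succ ≠ 0) (a : V5) :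
    fderiv ℝ (wm i) (c • z) (c • a) = fderiv ℝ (wm i) z a := by
  have h1 : (c • z) i.succ ≠ 0 := by
    rw [Pi.smul_apply, smul_eq_mul]
    exact mul_ne_zero hc h
  have h2 := ((contDiffAt_wm h1).differentiableAt (by norm_num)).hasFDerivAt
  have h3 : HasFDerivAt (wm i ∘ ml c) (fderiv ℝ (wm i) (c • z) ∘L ml c) z :=
    HasFDerivAt.comp z h2 (ml c).hasFDerivAt
  have h4 : wm i ∘ ml c = wm i := by
    funext y
    exact wm_smul hc i y
  rw [h4] at h3
  rw [h3.fderiv]
  rfl

/-! ### change of the blow-up chart -/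

theorem blT_wm {i j : Fin 4} (hij : i ≠ j) {z : V5} (hi : z i.succ ≠ 0) (hj : z j.succ ≠ 0) :
    blT i j (wm i z) = wm j z := by
  funext k
  unfold blT wm
  by_cases hk : k = j
  · subst hk
    simp only [if_true, if_neg hij.symm]
    field_simp
  · by_cases hk' : k = i
    · subst hk'
      simp only [hk, if_false, if_true, if_neg hij.symm]
      field_simp
    · simp only [hk, hk', if_false, if_neg hij.symm]
      field_simp

section forms

variable (om : Ch → V4 → V4 [⋀^Fin 2]→L[ℝ] ℝ)

/-- horizontal part in a blow-up chart -/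
noncomputable def Hf (i : Fin 4) (z : V5) : Bf V5 :=
  (rr z) ^ 2 • pb (cur (om (.B i) (wm i z))) (fderiv ℝ (wm i) z)

variable {om}

theorem cur_compat (hc : Compat 2 om) {p q : Ch} {z : V4} (hz : z ∈ O p q) :
    cur (om p z) = pb (cur (om q (T p q z))) (fderiv ℝ (T p q) z) := by
  rw [hc p q z hz, cur_comp]

theorem Hf_indep (hc : Compat 2 om) {i j : Fin 4} {z : V5} (hi : z i.succ ≠ 0)
    (hj : z j.succ ≠ 0) : Hf om i z = Hf om j z := by
  by_cases hij : i = j
  · rw [hij]
  have hmem : wm i z ∈ O (.B i) (.B j) := by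
    right
    unfold wm
    rw [if_neg (Ne.symm hij)]
    exact mul_ne_zero hj (inv_ne_zero hi)
  have hT : T (.B i) (.B j) = blT i j := by
    show (if i = j then id else blT i j) = _
    rw [if_neg hij]
  have h1 := cur_compat hc hmem
  rw [hT, blT_wm hij hi hj] at h1
  unfold Hf
  rw [h1, pb_pb]
  congr 2
  have hd1 : DifferentiableAt ℝ (blT i j) (wm i z) := by
    rw [← hT]
    exact ((contDiffOn_T (.B i) (.B j)).contDiffAt ((isOpen_O _ _).mem_nhds hmem)).differentiableAt
      (by norm_num)
  have hd2 := ((contDiffAt_wm hi).differentiableAt (by norm_num)).hasFDerivAt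
  have hd3 := hd1.hasFDerivAt.comp z hd2
  have h2 : (blT i j ∘ wm i) =ᶠ[𝓝 z] wm j := by
    filter_upwards [(isOpen_ne i).mem_nhds hi, (isOpen_ne j).mem_nhds hj] with y hy hy'
    exact blT_wm hij hy hy'
  have h3 := (h2.hasFDerivAt_iff).1 hd3
  exact h3.unique (((contDiffAt_wm hj).differentiableAt (by norm_num)).hasFDerivAt)

theorem Hf_smul {c : ℂ} (hc1 : ‖c‖ = 1) {i : Fin 4} {z : V5} (hi : z i.succ ≠ 0) (a b : V5) :
    Hf om i (c • z) (c • a) (c • b) = Hf om i z a b := by
  have hc0 : c ≠ 0 := by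
    intro h
    rw [h] at hc1
    simp at hc1
  unfold Hf
  rw [smul_apply, smul_apply, smul_apply, smul_apply, pb_apply, pb_apply,
    fderiv_wm_smul hc0 hi, fderiv_wm_smul hc0 hi, wm_smul hc0, rr_smul, hc1]
  simp

theorem Hf_continuousAt (hs : ∀ k, Continuous (om k)) {i : Fin 4} {z : V5} (hi : z i.succ ≠ 0) :
    ContinuousAt (Hf om i) z := by
  unfold Hf
  refine (contDiff_rr.continuous.pow 2).continuousAt.smul ?_
  refine pb_continuousAt ?_ (continuousAt_fderiv_wm hi)
  exact ContinuousAt.comp (g := fun w => cur (om (.B i) w)) (f := wm i)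
    (continuous_cur (hs (.B i))).continuousAt (contDiffAt_wm hi).continuousAt

end forms

theorem wm_ker_self {i : Fin 4} {z : V5} (h : z i.succ ≠ 0) (h0 : z 0 = 0) (c : ℂ) :
    fderiv ℝ (wm i) z (c • z) = 0 := by
  funext j
  rw [fderiv_wm_zero h h0]
  by_cases hj : j = i
  · simp [hj, h0]
  · simp only [hj, if_false, Pi.smul_apply, smul_eq_mul, Pi.zero_apply]
    field_simp
    ring

theorem wm_surj {i : Fin 4} {z : V5} (h : z i.succ ≠ 0) (h0 : z 0 = 0) :
    Function.Surjective (fderiv ℝ (wm i) z) := by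
  intro y
  have hr := rr_ne_zero h
  have hr' : (rr z : ℂ) ≠ 0 := by exact_mod_cast hr
  let a' : V4 := fun j => if j = i then 0 else y j * z i.succ
  refine ⟨Fin.cons (conj (y i * (rr z : ℂ) * (z i.succ)⁻¹)) a', ?_⟩
  funext j
  rw [fderiv_wm_zero h h0]
  by_cases hj : j = i
  · subst hj
    simp only [if_true, Fin.cons_zero, Complex.conj_conj]
    push_cast
    field_simp
  · simp only [hj, if_false, Fin.cons_succ, a', if_true]
    field_simp
    ring

theorem wm_ker {i : Fin 4} {z : V5} (h : z i.succ ≠ 0) (h0 : z 0 = 0) (a : V5)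
    (ha : fderiv ℝ (wm i) z a = 0) : ∃ c : ℂ, a = c • z := by
  have hr := rr_ne_zero h
  have hr' : (rr z : ℂ) ≠ 0 := by exact_mod_cast hr
  refine ⟨a i.succ * (z i.succ)⁻¹, ?_⟩
  have hA : ∀ j, fderiv ℝ (wm i) z a j = 0 := fun j => by rw [ha]; rfl
  funext j
  refine Fin.cases ?_ (fun k => ?_) j
  · have h1 := hA i
    rw [fderiv_wm_zero h h0] at h1
    simp only [if_true] at h1
    rw [Pi.smul_apply, h0, smul_zero]
    have h2 : (((rr z)⁻¹ : ℝ) : ℂ) ≠ 0 := by
      push_cast
      exact inv_ne_zero hr'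
    rcases mul_eq_zero.1 h1 with h3 | h3
    · rcases mul_eq_zero.1 h3 with h4 | h4
      · simpa using h4
      · exact absurd h4 h
    · exact absurd h3 h2
  · rw [Pi.smul_apply, smul_eq_mul]
    by_cases hk : k = i
    · subst hk
      field_simp
    · have h1 := hA k
      rw [fderiv_wm_zero h h0] at h1
      simp only [hk, if_false] at h1
      field_simp at h1 ⊢
      linear_combination h1

/-! ### sizes -/

theorem nsq_xim {z : V5} (hr : rr z ≠ 0) : nsq (xim z) = ‖z 0‖ ^ 2 / rr z := by
  have h : xim z = (conj (z 0) * (((rr z)⁻¹ : ℝ) : ℂ)) • tl z := by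
    funext j
    simp only [xim, Pi.smul_apply, smul_eq_mul, tl]
    ring
  rw [h, nsq_smul, norm_mul, Complex.norm_conj, Complex.norm_real, mul_pow, Real.norm_eq_abs,
    sq_abs]
  unfold rr at hr ⊢
  field_simp

theorem xim_ne_zero {z : V5} (hr : rr z ≠ 0) (h0 : z 0 ≠ 0) : xim z ≠ 0 := by
  intro h
  have h1 := nsq_xim hr
  rw [h] at h1
  have h2 : nsq 0 = 0 := by simp [nsq, ip]
  rw [h2] at h1
  have h3 : 0 < ‖z 0‖ ^ 2 / rr z := by
    have := rr_nonneg z
    have : 0 < rr z := lt_of_le_of_ne this (Ne.symm hr)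
    have : 0 < ‖z 0‖ := norm_pos_iff.2 h0
    positivity
  linarith

theorem continuousAt_xim {z : V5} (hr : rr z ≠ 0) : ContinuousAt xim z :=
  (hasFDerivAt_xim hr).continuousAt

theorem continuousAt_El {z : V5} (hr : rr z ≠ 0) : ContinuousAt El z := by
  rw [continuousAt_clm_apply]
  intro a
  simp only [El_apply, Ef]
  have h1 : Continuous fun z : V5 => ip (tl z) (tl a) :=
    continuous_ip.comp (continuous_tl.prodMk continuous_const)
  have h2 : Continuous fun z : V5 => conj (z 0) :=
    Complex.continuous_conj.comp (continuous_apply 0)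
  have h3 : ContinuousAt (fun z : V5 => ((2 * (ip (tl z) (tl a)).re / rr z : ℝ) : ℂ)) z := by
    refine Complex.continuous_ofReal.continuousAt.comp ?_
    refine ContinuousAt.div ?_ contDiff_rr.continuous.continuousAt hr
    exact (continuous_const.mul (Complex.continuous_re.comp h1)).continuousAt
  have h4 : ContinuousAt tl z := continuous_tl.continuousAt
  have h5 : ContinuousAt (fun z : V5 => conj (a 0) • tl z) z := continuousAt_const.fun_smul h4
  have h6 : ContinuousAt (fun z : V5 =>
      tl a - ((2 * (ip (tl z) (tl a)).re / rr z : ℝ) : ℂ) • tl z) z :=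
    continuousAt_const.sub (h3.fun_smul h4)
  exact h5.add (h2.continuousAt.fun_smul h6)

theorem El_smul {c : ℂ} (hc : ‖c‖ = 1) (z a : V5) : El (c • z) (c • a) = El z a := by
  have h1 : conj c * c = 1 := by
    rw [← Complex.normSq_eq_conj_mul_self, Complex.normSq_eq_norm_sq, hc]
    norm_num
  rw [El_apply, El_apply]
  unfold Ef
  have h2 : ip (tl (c • z)) (tl (c • a)) = ip (tl z) (tl a) := by
    rw [tl_smul, tl_smul, ip_smul_left, ip_smul_right]
    linear_combination (ip (tl z) (tl a)) * h1
  rw [h2, rr_smul, hc, tl_smul, tl_smul]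
  funext j
  simp only [Pi.add_apply, Pi.sub_apply, Pi.smul_apply, smul_eq_mul, map_mul, one_pow, one_mul]
  linear_combination (conj (a 0) * tl z j + conj (z 0) * tl a j - conj (z 0) *
    ((2 * (ip (tl z) (tl a)).re / rr z : ℝ) : ℂ) * tl z j) * h1

theorem ip5_smul_smul {c : ℂ} (hc : ‖c‖ = 1) (z a : V5) : ip5 (c • z) (c • a) = ip5 z a := by
  have h1 : conj c * c = 1 := by
    rw [← Complex.normSq_eq_conj_mul_self, Complex.normSq_eq_norm_sq, hc]
    norm_num
  simp only [ip5, Pi.smul_apply, smul_eq_mul, map_mul]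
  refine Finset.sum_congr rfl fun j _ => ?_
  linear_combination (conj (z j) * a j) * h1

theorem ver_smul {c : ℂ} (hc : ‖c‖ = 1) (z a b : V5) :
    ver (c • z) (c • a) (c • b) = ver z a b := by
  rw [ver_apply, ver_apply, ip5_smul_smul hc, ip5_smul_smul hc]

theorem ph_smul {c : ℂ} (hc : ‖c‖ = 1) (z : V5) : ph (c • z) = conj c * ph z := by
  unfold ph
  rw [Pi.smul_apply, smul_eq_mul, norm_mul, hc, one_mul, map_mul]
  ring

theorem vv_smul {c : ℂ} (hc : ‖c‖ = 1) (z : V5) : vv (c • z) = vv z := by
  have h1 : conj c * c = 1 := by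
    rw [← Complex.normSq_eq_conj_mul_self, Complex.normSq_eq_norm_sq, hc]
    norm_num
  unfold vv
  rw [ph_smul hc, tl_smul, smul_smul]
  congr 1
  linear_combination (ph z) * h1

theorem Ly_smul_smul {c : ℂ} (hc : ‖c‖ = 1) (z a : V5) : Ly (c • z) (c • a) = Ly z a := by
  have h1 : conj c * c = 1 := by
    rw [← Complex.normSq_eq_conj_mul_self, Complex.normSq_eq_norm_sq, hc]
    norm_num
  unfold Ly
  rw [ph_smul hc, vv_smul hc, tl_smul]
  funext j
  simp only [Pi.sub_apply, Pi.smul_apply, smul_eq_mul, map_mul]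
  linear_combination (conj (z 0) * tl a j - ph z * a 0 * vv z j) * h1

theorem cc_smul {c : ℂ} (hc : ‖c‖ = 1) (z : V5) : cc (c • z) = cc z := by
  unfold cc
  rw [rr_smul, hc, one_pow, one_mul]

theorem rho_smul_smul {c : ℂ} (hc : ‖c‖ = 1) (z a : V5) : rho (c • z) (c • a) = rho z a := by
  unfold rho
  rw [ip5_smul_smul hc, cc_smul hc, vv_smul hc, Ly_smul_smul hc]

theorem Ph_smul {c : ℂ} (hc : ‖c‖ = 1) (z a : V5) : Ph (c • z) (c • a) = Ph z a := by
  rw [Ph_apply, Ph_apply]
  unfold Phf
  rw [ip5_smul_smul hc, rho_smul_smul hc, cc_smul hc, vv_smul hc, Ly_smul_smul hc]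

theorem continuousAt_Ph {z : V5} (h : z 0 ≠ 0) : ContinuousAt Ph z := by
  rw [continuousAt_clm_apply]
  intro a
  simp only [Ph_apply]
  have hrr : Continuous rr := contDiff_rr.continuous
  have hcc : Continuous cc := by
    unfold cc
    exact Real.continuous_sqrt.comp (continuous_const.sub (continuous_const.mul hrr))
  have hip5 : Continuous fun z : V5 => ip5 z a := by
    unfold ip5
    fun_prop
  have hconj : Continuous fun z : V5 => conj (z 0) :=
    Complex.continuous_conj.comp (continuous_apply 0)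
  have hph : ContinuousAt ph z := by
    unfold ph
    refine ContinuousAt.div hconj.continuousAt ?_ ?_
    · exact (Complex.continuous_ofReal.comp (continuous_norm.comp (continuous_apply 0))).continuousAt
    · rw [Complex.ofReal_ne_zero]
      exact norm_ne_zero_iff.2 h
  have hvv : ContinuousAt vv z := by
    unfold vv
    exact hph.fun_smul continuous_tl.continuousAt
  have hLy : ContinuousAt (fun z => Ly z a) z := by
    unfold Ly
    have h1 : ContinuousAt (fun z : V5 => conj (z 0) • tl a) z :=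
      hconj.continuousAt.fun_smul continuousAt_const
    have h2 : ContinuousAt (fun z : V5 => (ph z * a 0) • vv z) z :=
      (hph.mul continuousAt_const).fun_smul hvv
    exact h1.sub h2
  have hrho : ContinuousAt (fun z => rho z a) z := by
    unfold rho
    have h1 : ContinuousAt (fun z => ip (vv z) (Ly z a)) z := by
      have h0 : ContinuousAt (fun z => (vv z, Ly z a)) z := hvv.prodMk hLy
      exact ContinuousAt.comp (g := fun p : V4 × V4 => ip p.1 p.2)
        (f := fun z => (vv z, Ly z a)) continuous_ip.continuousAt h0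
    have h2 : ContinuousAt (fun z => - cc z) z := hcc.neg.continuousAt
    have h3 : ContinuousAt (fun z => (ip5 z a).im) z :=
      (Complex.continuous_im.comp hip5).continuousAt
    have h4 : ContinuousAt (fun z => (ip (vv z) (Ly z a)).re) z :=
      Complex.continuous_re.continuousAt.comp h1
    exact (h2.mul h3).add (continuousAt_const.mul h4)
  rw [continuousAt_pi]
  intro j
  refine Fin.cases ?_ (fun k => ?_) j
  · have e : (fun z => Phf z a 0) = fun z => conj (ip5 z a) -
        ((2 * rho z a * cc z : ℝ) : ℂ) * Complex.I := rfl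
    rw [e]
    have h1 : ContinuousAt (fun z => (2 * rho z a * cc z : ℝ)) z :=
      (continuousAt_const.mul hrho).mul hcc.continuousAt
    have h2 : ContinuousAt (fun z => ((2 * rho z a * cc z : ℝ) : ℂ)) z :=
      Complex.continuous_ofReal.continuousAt.comp h1
    have h3 : ContinuousAt (fun z => conj (ip5 z a)) z :=
      (Complex.continuous_conj.comp hip5).continuousAt
    exact h3.sub (h2.mul continuousAt_const)
  · have e : (fun z => Phf z a k.succ) = fun z => Ly z a k -
        ((2 * rho z a * kk : ℝ) : ℂ) * vv z k := rfl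
    rw [e]
    have h1 : ContinuousAt (fun z => ((2 * rho z a * kk : ℝ) : ℂ)) z :=
      Complex.continuous_ofReal.continuousAt.comp
        ((continuousAt_const.mul hrho).mul continuousAt_const)
    have h2 : ContinuousAt (fun z => Ly z a k) z := (continuousAt_pi.1 hLy) k
    have h3 : ContinuousAt (fun z => vv z k) z := (continuousAt_pi.1 hvv) k
    exact h2.sub (h1.mul h3)

end E1

end Pool.Agent.Work.MP_2a78db_gt
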