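import Pool.Agent.Work.MP_2a78db_gt.E1d
import Pool.Agent.Work.MP_2a78db_gt.B3

/-!
Module E1, part e: the form in the coordinate `xi`, extended by a constant.
-/

namespace Pool.Agent.Work.MP_2a78db_gt

open scoped Topology ContDiff ComplexConjugate

namespace E1

/-- The conclusion of the box trick, as a statement. -/
def BoxTrick : Prop :=
  ∀ (Fa Fb Fc : V4 → (V4 →L[ℝ] V4 →L[ℝ] ℝ)) (_ : Continuous Fa)
    (_ : Continuous Fb) (_ : Continuous Fc) (_ : ∀ z, Fa z ∈ Nd V4) (_ : ∀ z, Fb z ∈ Nd V4)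
    (_ : ∀ z, Fc z ∈ Nd V4) (_ : ∀ z, n5 z ≠ 0 → Fa z = Fc (inv5 z))
    (_ : ∀ z, n3 z ≠ 0 → Fb z = Fc (inv3 z)),
    ∃ (f : V4 → (V4 →L[ℝ] V4 →L[ℝ] ℝ)) (C : V4 →L[ℝ] V4 →L[ℝ] ℝ),
      ContinuousOn f {0}ᶜ ∧ (∀ z, z ≠ 0 → f z ∈ Nd V4) ∧
      (∀ z, n3 z ≠ 0 → n3 z + n5 z ≤ 1 / 16 → f z = Fa (inv3 z)) ∧
      (∀ z, n5 z ≠ 0 → n3 z + n5 z ≤ 1 / 16 → f z = Fb (inv5 z)) ∧
      (∀ z, 16 ≤ n3 z + n5 z → f z = C)

theorem inv3_inv3 {z : V4} (h : n3 z ≠ 0) : inv3 (inv3 z) = z := by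
  funext j
  have h3 := B3.n3_inv3 h
  fin_cases j
  · apply Complex.ext
    · simp only [inv3, Fin.zero_eta, Matrix.cons_val_zero] at h3 ⊢
      rw [h3]
      field_simp
    · simp only [inv3, Fin.zero_eta, Matrix.cons_val_zero] at h3 ⊢
      rw [h3]
      field_simp
  · apply Complex.ext
    · simp only [inv3, Fin.mk_one, Matrix.cons_val_one, Matrix.cons_val_zero] at h3 ⊢
      rw [h3]
      field_simp
    · rfl
  · rfl
  · rfl

theorem inv5_inv5 {z : V4} (h : n5 z ≠ 0) : inv5 (inv5 z) = z := by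
  funext j
  have h3 := B3.n5_inv5 h
  have e : ∀ x y : ℝ, ∀ j, (z j).re = x → (z j).im = y →
      ((⟨(x / n5 z) / (1 / n5 z), (y / n5 z) / (1 / n5 z)⟩ : ℂ) = z j) := by
    intro x y j hx hy
    apply Complex.ext
    · show (x / n5 z) / (1 / n5 z) = _
      rw [hx]
      field_simp
    · show (y / n5 z) / (1 / n5 z) = _
      rw [hy]
      field_simp
  fin_cases j
  · rfl
  · apply Complex.ext
    · rfl
    · show ((z 1).im / n5 z) / n5 (inv5 z) = (z 1).im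
      rw [h3]
      field_simp
  · show (⟨((z 2).re / n5 z) / n5 (inv5 z), ((z 2).im / n5 z) / n5 (inv5 z)⟩ : ℂ) = z 2
    rw [h3]
    exact e _ _ 2 rfl rfl
  · show (⟨((z 3).re / n5 z) / n5 (inv5 z), ((z 3).im / n5 z) / n5 (inv5 z)⟩ : ℂ) = z 3
    rw [h3]
    exact e _ _ 3 rfl rfl

theorem n3_inv3_ne {z : V4} (h : n3 z ≠ 0) : n3 (inv3 z) ≠ 0 := by
  rw [B3.n3_inv3 h]
  exact one_div_ne_zero h

theorem n5_inv5_ne {z : V4} (h : n5 z ≠ 0) : n5 (inv5 z) ≠ 0 := by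
  rw [B3.n5_inv5 h]
  exact one_div_ne_zero h

theorem diff_inv3 {z : V4} (h : n3 z ≠ 0) : DifferentiableAt ℝ inv3 z :=
  (B3.hasFDerivAt_inv3 h).differentiableAt

theorem diff_inv5 {z : V4} (h : n5 z ≠ 0) : DifferentiableAt ℝ inv5 z :=
  (B3.hasFDerivAt_inv5 h).differentiableAt

theorem fderiv_inv3_comp {z : V4} (h : n3 z ≠ 0) :
    fderiv ℝ inv3 (inv3 z) ∘L fderiv ℝ inv3 z = ContinuousLinearMap.id ℝ V4 := by
  have h1 := (diff_inv3 (n3_inv3_ne h)).hasFDerivAt.comp z (diff_inv3 h).hasFDerivAt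
  have h2 : (inv3 ∘ inv3) =ᶠ[𝓝 z] id := by
    filter_upwards [A3.isOpen_n3.mem_nhds h] with y hy
    exact inv3_inv3 hy
  exact ((h2.hasFDerivAt_iff).1 h1).unique (hasFDerivAt_id z)

theorem fderiv_inv5_comp {z : V4} (h : n5 z ≠ 0) :
    fderiv ℝ inv5 (inv5 z) ∘L fderiv ℝ inv5 z = ContinuousLinearMap.id ℝ V4 := by
  have h1 := (diff_inv5 (n5_inv5_ne h)).hasFDerivAt.comp z (diff_inv5 h).hasFDerivAt
  have h2 : (inv5 ∘ inv5) =ᶠ[𝓝 z] id := by
    filter_upwards [A3.isOpen_n5.mem_nhds h] with y hy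
    exact inv5_inv5 hy
  exact ((h2.hasFDerivAt_iff).1 h1).unique (hasFDerivAt_id z)

/-- the inverse of a bijective map, in the ring of endomorphisms -/
theorem isUnit_of_bijective {A : V4 →L[ℝ] V4} (h : Function.Bijective A) : IsUnit A := by
  let e : V4 ≃ₗ[ℝ] V4 := LinearEquiv.ofBijective A.toLinearMap h
  let e' : V4 ≃L[ℝ] V4 := e.toContinuousLinearEquiv
  refine ⟨ContinuousLinearEquiv.toUnit e', ?_⟩
  rfl

theorem mul_inverse_apply {A : V4 →L[ℝ] V4} (h : Function.Bijective A) (v : V4) :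
    A (Ring.inverse A v) = v := by
  have h1 := Ring.mul_inverse_cancel A (isUnit_of_bijective h)
  have h2 := congrArg (fun L : V4 →L[ℝ] V4 => L v) h1
  exact h2

theorem inverse_mul_apply {A : V4 →L[ℝ] V4} (h : Function.Bijective A) (v : V4) :
    Ring.inverse A (A v) = v := by
  have h1 := Ring.inverse_mul_cancel A (isUnit_of_bijective h)
  have h2 := congrArg (fun L : V4 →L[ℝ] V4 => L v) h1
  exact h2

theorem bijective_inverse {A : V4 →L[ℝ] V4} (h : Function.Bijective A) :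
    Function.Bijective ⇑(Ring.inverse A : V4 →L[ℝ] V4) :=
  ⟨fun x y hxy => by
    have := congrArg A hxy
    rwa [mul_inverse_apply h, mul_inverse_apply h] at this,
   fun y => ⟨A y, inverse_mul_apply h y⟩⟩

/-- if `D ∘ P' = P` and `D' ∘ D = id` then `P' ∘ P⁻¹ = D'` -/
theorem comp_inverse_eq {D D' P P' : V4 →L[ℝ] V4} (hP : Function.Bijective P)
    (h1 : D ∘L P' = P) (h2 : D' ∘L D = ContinuousLinearMap.id ℝ V4) :
    P' ∘L Ring.inverse P = D' := by
  ext1 v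
  have e1 : ∀ x, D' (D x) = x := fun x => by
    have := congrArg (fun L : V4 →L[ℝ] V4 => L x) h2
    exact this
  have e2 : ∀ x, D (P' x) = P x := fun x => by
    have := congrArg (fun L : V4 →L[ℝ] V4 => L x) h1
    exact this
  show P' (Ring.inverse P v) = D' v
  rw [← e1 (P' (Ring.inverse P v)), e2, mul_inverse_apply hP]

/-- the cutoff -/
noncomputable def kap (x : V4) : ℝ := max 0 (min 1 ((16 - nsq x) / 15))

theorem kap_small {x : V4} (h : nsq x ≤ 1 / 16) : kap x = 1 := by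
  unfold kap
  rw [min_eq_left, max_eq_right]
  · norm_num
  · rw [le_div_iff₀ (by norm_num)]
    linarith

theorem kap_large {x : V4} (h : 16 ≤ nsq x) : kap x = 0 := by
  unfold kap
  have h1 : (16 - nsq x) / 15 ≤ 0 := div_nonpos_of_nonpos_of_nonneg (by linarith) (by norm_num)
  rw [min_eq_right (by linarith), max_eq_left h1]

theorem continuous_kap : Continuous kap := by
  unfold kap
  exact continuous_const.max (continuous_const.min
    ((continuous_const.sub continuous_nsq).div_const _))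

theorem exists_g (hbox : BoxTrick) (om : Ch → V4 → V4 [⋀^Fin 2]→L[ℝ] ℝ)
    (hs : ∀ k, Continuous (om k)) (hc : Compat 2 om) (hn : ∀ k z, Nondeg (om k z)) :
    ∃ (g : V4 → Bf V4) (C : Bf V4), ContinuousOn g {0}ᶜ ∧ (∀ x, x ≠ 0 → g x ∈ Nd V4) ∧
      (∀ x, 16 ≤ nsq x → g x = C) ∧
      (∀ x, n3 x ≠ 0 → nsq x ≤ 1 / 16 →
        g x = pb (cur (om .a (inv3 x))) (fderiv ℝ inv3 x)) ∧
      (∀ x, n5 x ≠ 0 → nsq x ≤ 1 / 16 →
        g x = pb (cur (om .b (inv5 x))) (fderiv ℝ inv5 x)) := by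
  obtain ⟨Pa, Pb, Pc, Px, ⟨ca, cb, ccc, cx⟩, hbij, f1, f2, f3, f4⟩ := exists_frame
  have hac : ∀ z, n5 z ≠ 0 →
      cur (om .a z) = pb (cur (om .c (inv5 z))) (fderiv ℝ inv5 z) := fun z hz =>
    cur_compat (p := .a) (q := .c) hc hz
  have hbc : ∀ z, n3 z ≠ 0 →
      cur (om .b z) = pb (cur (om .c (inv3 z))) (fderiv ℝ inv3 z) := fun z hz =>
    cur_compat (p := .b) (q := .c) hc hz
  obtain ⟨f, C, hf, hfn, h3, h5, hC⟩ := hbox (fun z => pb (cur (om .a z)) (Pa z))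
    (fun z => pb (cur (om .b z)) (Pb z)) (fun z => pb (cur (om .c z)) (Pc z))
    (pb_continuous (continuous_cur (hs _)) ca.continuous)
    (pb_continuous (continuous_cur (hs _)) cb.continuous)
    (pb_continuous (continuous_cur (hs _)) ccc.continuous)
    (fun z => pb_mem_Nd (cur_mem_Nd (hn _ _)) (hbij z).1)
    (fun z => pb_mem_Nd (cur_mem_Nd (hn _ _)) (hbij z).2.1)
    (fun z => pb_mem_Nd (cur_mem_Nd (hn _ _)) (hbij z).2.2.1)
    (fun z hz => by
      show pb (cur (om .a z)) (Pa z) = pb (cur (om .c (inv5 z))) (Pc (inv5 z))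
      rw [hac z hz, pb_pb, f1 z hz])
    (fun z hz => by
      show pb (cur (om .b z)) (Pb z) = pb (cur (om .c (inv3 z))) (Pc (inv3 z))
      rw [hbc z hz, pb_pb, f2 z hz])
  refine ⟨fun x => pb (f x) (Ring.inverse (Px (kap x • x))), pb C (Ring.inverse (Px 0)),
    ?_, ?_, ?_, ?_, ?_⟩
  · refine pb_continuousOn hf (Continuous.continuousOn ?_)
    rw [continuous_iff_continuousAt]
    intro x
    have h1 : ContinuousAt (fun x => Px (kap x • x)) x :=
      (cx.continuous.comp (continuous_kap.smul continuous_id)).continuousAt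
    obtain ⟨U, hU⟩ := isUnit_of_bijective (hbij (kap x • x)).2.2.2
    have h2 := NormedRing.inverse_continuousAt U
    rw [hU] at h2
    exact ContinuousAt.comp (g := Ring.inverse) (f := fun x => Px (kap x • x)) h2 h1
  · intro x hx
    exact pb_mem_Nd (hfn x hx) (bijective_inverse (hbij _).2.2.2)
  · intro x hx
    show pb (f x) (Ring.inverse (Px (kap x • x))) = _
    rw [kap_large hx, zero_smul, hC x (by rw [← nsq_eq_n]; exact hx)]
  · intro x hx hx'
    show pb (f x) (Ring.inverse (Px (kap x • x))) = _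
    rw [kap_small hx', one_smul, h3 x hx (by rw [← nsq_eq_n]; exact hx'), pb_pb]
    congr 1
    have e1 := f3 (inv3 x) (n3_inv3_ne hx)
    rw [inv3_inv3 hx] at e1
    have e2 := fderiv_inv3_comp (n3_inv3_ne hx)
    rw [inv3_inv3 hx] at e2
    exact comp_inverse_eq (hbij x).2.2.2 e1 e2
  · intro x hx hx'
    show pb (f x) (Ring.inverse (Px (kap x • x))) = _
    rw [kap_small hx', one_smul, h5 x hx (by rw [← nsq_eq_n]; exact hx'), pb_pb]
    congr 1
    have e1 := f4 (inv5 x) (n5_inv5_ne hx)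
    rw [inv5_inv5 hx] at e1
    have e2 := fderiv_inv5_comp (n5_inv5_ne hx)
    rw [inv5_inv5 hx] at e2
    exact comp_inverse_eq (hbij x).2.2.2 e1 e2

/-- the relation with the blow-up charts -/
theorem cur_B_eq {om : Ch → V4 → V4 [⋀^Fin 2]→L[ℝ] ℝ} (hc : Compat 2 om) {g : V4 → Bf V4}
    (hg3 : ∀ x, n3 x ≠ 0 → nsq x ≤ 1 / 16 →
        g x = pb (cur (om .a (inv3 x))) (fderiv ℝ inv3 x))
    (hg5 : ∀ x, n5 x ≠ 0 → nsq x ≤ 1 / 16 →
        g x = pb (cur (om .b (inv5 x))) (fderiv ℝ inv5 x))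
    {i : Fin 4} {w : V4} (hw : w i ≠ 0) (hN : nsq (bl i w) ≤ 1 / 16) :
    cur (om (.B i) w) = pb (g (bl i w)) (fderiv ℝ (bl i) w) := by
  have hbd : DifferentiableAt ℝ (bl i) w := (A3.cd_bl i).differentiable (by norm_num) w
  have hne : bl i w ≠ 0 := by
    intro h
    have h1 := congrFun h i
    simp only [bl, if_true, Pi.zero_apply] at h1
    exact hw h1
  by_cases h3 : n3 (bl i w) = 0
  · have h5 : n5 (bl i w) ≠ 0 := by
      intro h5
      apply hne
      apply nsq_eq_zero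
      rw [nsq_eq_n, h3, h5, add_zero]
    have hm : w ∈ O (.B i) .b := ⟨hw, h5⟩
    have h1 := cur_compat hc hm
    have hT : T (.B i) .b = inv5 ∘ bl i := rfl
    rw [h1, hg5 _ h5 hN, pb_pb, hT]
    congr 1
    exact ((diff_inv5 h5).hasFDerivAt.comp w hbd.hasFDerivAt).fderiv
  · have hm : w ∈ O (.B i) .a := ⟨hw, h3⟩
    have h1 := cur_compat hc hm
    have hT : T (.B i) .a = inv3 ∘ bl i := rfl
    rw [h1, hg3 _ h3 hN, pb_pb, hT]
    congr 1
    exact ((diff_inv3 h3).hasFDerivAt.comp w hbd.hasFDerivAt).fderiv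

end E1

end Pool.Agent.Work.MP_2a78db_gt
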