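import Pool.Agent.Work.MP_2a78db_gt.E1e
import Pool.Agent.Work.MP_2a78db_gt.D0

/-!
Module E1, part f: the orientation of the family.
-/

namespace Pool.Agent.Work.MP_2a78db_gt

open scoped Topology ContDiff ComplexConjugate

namespace E1

theorem det_diag (L : V4 →L[ℝ] V4) (d : Fin 8 → ℝ) (h : ∀ i, L (stdB i) = d i • stdB i) :
    L.det = ∏ i, d i := by
  have h1 : L.det = LinearMap.det L.toLinearMap := rfl
  rw [h1, ← LinearMap.det_toMatrix D0.b8]
  have h2 : LinearMap.toMatrix D0.b8 D0.b8 L.toLinearMap = Matrix.diagonal d := by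
    ext i j
    rw [LinearMap.toMatrix_apply]
    have h3 : (L.toLinearMap) (D0.b8 j) = d j • D0.b8 j := by
      rw [D0.b8_eq]
      exact h j
    rw [h3, map_smul, Module.Basis.repr_self]
    by_cases hij : i = j
    · subst hij
      simp
    · simp [Matrix.diagonal_apply_ne _ hij, Ne.symm hij]
  rw [h2, Matrix.det_diagonal]

theorem pd1 (α : V4 [⋀^Fin 2]→L[ℝ] ℝ) (L : V4 →L[ℝ] V4) (P : V4 →ₗ[ℝ] V4)
    (hP : ∀ v w, α ![v, w] = stdForm (fun _ : Fin 4 => (1 : ℝ)) (P v) (P w)) :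
    ∀ v w, (α.compContinuousLinearMap L) ![v, w] =
      stdForm (fun _ : Fin 4 => (1 : ℝ)) ((P ∘ₗ L.toLinearMap) v) ((P ∘ₗ L.toLinearMap) w) := by
  intro v w
  rw [D0.alt2_comp, hP]
  rfl

theorem pd2 (α : V4 [⋀^Fin 2]→L[ℝ] ℝ) (L : V4 →L[ℝ] V4) (P : V4 →ₗ[ℝ] V4)
    (hP : ∀ v w, α ![v, w] = stdForm (fun _ : Fin 4 => (1 : ℝ)) (P v) (P w)) :
    pow4 (α.compContinuousLinearMap L) stdB = 16 * D0.K * LinearMap.det (P ∘ₗ L.toLinearMap) :=
  D0.pow4_eq _ _ (pd1 α L P hP)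

theorem pd3 (α : V4 [⋀^Fin 2]→L[ℝ] ℝ) (L : V4 →L[ℝ] V4) (P : V4 →ₗ[ℝ] V4)
    (hP : ∀ v w, α ![v, w] = stdForm (fun _ : Fin 4 => (1 : ℝ)) (P v) (P w)) :
    pow4 (α.compContinuousLinearMap L) stdB = L.det * pow4 α stdB := by
  have h1 := D0.pow4_eq α P hP
  have h2 := pd2 α L P hP
  have h3 : L.det = LinearMap.det L.toLinearMap := rfl
  have h4 : LinearMap.det (P ∘ₗ L.toLinearMap) =
    LinearMap.det P * LinearMap.det L.toLinearMap := LinearMap.det_comp _ _
  rw [h2, h1, h3, h4]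
  ring

theorem pow4_two (α β : V4 [⋀^Fin 2]→L[ℝ] ℝ) (hα : Nondeg α)
    (D D' : V4 →L[ℝ] V4) (h : ∀ v w, β ![v, w] = α ![D v, D w]) (hneg : pow4 α stdB < 0)
    (hd : 0 < D.det * D'.det) : pow4 (β.compContinuousLinearMap D') stdB < 0 := by
  obtain ⟨P, -, hP⟩ := D0.exists_normal α hα
  have hβ' : ∀ v w, β ![v, w] = stdForm (fun _ : Fin 4 => (1 : ℝ)) ((P ∘ₗ D.toLinearMap) v)
      ((P ∘ₗ D.toLinearMap) w) := by
    intro v w
    rw [h, hP]
    rfl
  have e1 := pd2 β D' (P ∘ₗ D.toLinearMap) hβ'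
  have e2 := D0.pow4_eq α P hP
  rw [e2] at hneg
  rw [e1]
  have h3 : D.det = LinearMap.det D.toLinearMap := rfl
  have h3' : D'.det = LinearMap.det D'.toLinearMap := rfl
  rw [h3, h3'] at hd
  have h4 : LinearMap.det ((P ∘ₗ D.toLinearMap) ∘ₗ D'.toLinearMap) =
    LinearMap.det P * LinearMap.det D.toLinearMap * LinearMap.det D'.toLinearMap := by
    rw [LinearMap.det_comp, LinearMap.det_comp]
  rw [h4]
  have h5 := mul_neg_of_pos_of_neg hd hneg
  linarith

theorem orient_aux (α β : V4 [⋀^Fin 2]→L[ℝ] ℝ) (hα : Nondeg α) (D D' : V4 →L[ℝ] V4)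
    (h : cur β = pb (cur α) D) (hneg : pow4 α stdB < 0) (hd : 0 < D.det * D'.det)
    (hB : pb (cur β) D' ∈ Nd V4) : JoinedIn (Nd V4) (pb (cur β) D') (stdForm ![-1, 1, 1, 1]) := by
  have h1 := pow4_two α β hα D D' (fun v w => by
    rw [← cur_apply, h, pb_apply, cur_apply]) hneg hd
  have h2 : Nondeg (β.compContinuousLinearMap D') := by
    intro v hv
    refine hB.2 v fun w => ?_
    rw [← cur_comp, cur_apply]
    exact hv w
  have h3 := joined_of_pow4_neg _ h2 h1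
  rwa [cur_comp] at h3

/-- the test point -/
noncomputable def x0 : V4 := ![⟨1 / 8, 0⟩, 0, ⟨1 / 8, 0⟩, 0]

theorem n3_x0 : n3 x0 = 1 / 64 := by
  simp [n3, x0]
  norm_num

theorem n5_x0 : n5 x0 = 1 / 64 := by
  simp [n5, x0]
  norm_num

theorem det_D3 : (B3.D3 x0).det = -64 ^ 3 := by
  rw [det_diag _ ![-64, 64, 64, 1, 1, 1, 1, 1]]
  · simp [Fin.prod_univ_succ]
    norm_num
  · intro i
    rw [B3.D3_apply, n3_x0]
    apply B3.ext8
    intro j
    fin_cases i <;> fin_cases j <;> simp [stdB, B3.S3, x0] <;> norm_num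

theorem n5_inv3_x0 : n5 (inv3 x0) = 1 / 64 := by
  rw [B3.n5_inv3, n5_x0]

theorem det_D5 : (B3.D5 (inv3 x0)).det = -64 ^ 5 := by
  rw [det_diag _ ![1, 1, 1, 64, -64, 64, 64, 64]]
  · simp [Fin.prod_univ_succ]
    norm_num
  · intro i
    rw [B3.D5_apply, n5_inv3_x0]
    apply B3.ext8
    intro j
    fin_cases i <;> fin_cases j <;> simp [stdB, B3.S5, x0, inv3] <;> norm_num

/-- the path of bilinear forms -/
noncomputable def Bt (c s : ℝ) (a b : V5) : ℝ :=
  -c * ((conj (a 0) * b 0).im + (conj (a 1) * b 1).im) + s * ((a 0) * (b 1) - (a 1) * (b 0)).re +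
    ((conj (a 2) * b 2).im + (conj (a 3) * b 3).im + (conj (a 4) * b 4).im)

/-- the bilinear form `Re (a_0 b_1 - a_1 b_0)` -/
noncomputable def kf : Bf V5 :=
  (((ContinuousLinearMap.compL ℝ ℂ ℂ ℝ Complex.reCLM) ∘L (ContinuousLinearMap.mul ℝ ℂ))).bilinearComp
      (ContinuousLinearMap.proj 0 : V5 →L[ℝ] ℂ) (ContinuousLinearMap.proj 1 : V5 →L[ℝ] ℂ) -
  (((ContinuousLinearMap.compL ℝ ℂ ℂ ℝ Complex.reCLM) ∘L (ContinuousLinearMap.mul ℝ ℂ))).bilinearComp
      (ContinuousLinearMap.proj 1 : V5 →L[ℝ] ℂ) (ContinuousLinearMap.proj 0 : V5 →L[ℝ] ℂ)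

theorem kf_apply (a b : V5) : kf a b = (a 0 * b 1 - a 1 * b 0).re := by
  rw [Complex.sub_re]
  rfl

/-- the path as bilinear form -/
noncomputable def Bl (c s : ℝ) : Bf V5 :=
  c • stdForm ![-1, -1, 0, 0, 0] + s • kf + stdForm ![0, 0, 1, 1, 1]

theorem Bl_apply (c s : ℝ) (a b : V5) : Bl c s a b = Bt c s a b := by
  have h1 : Bl c s a b = c * stdForm ![-1, -1, 0, 0, 0] a b + s * kf a b +
      stdForm ![0, 0, 1, 1, 1] a b := rfl
  rw [h1, kf_apply, stdForm_apply, stdForm_apply]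
  unfold Bt
  simp only [Fin.sum_univ_five]
  simp
  ring

theorem Bl_mem {c s : ℝ} (h : c ^ 2 + s ^ 2 = 1) : Bl c s ∈ Nd V5 := by
  constructor
  · intro v
    rw [Bl_apply]
    unfold Bt
    simp only [Complex.mul_im, Complex.conj_re, Complex.conj_im, Complex.sub_re, Complex.mul_re]
    ring
  · intro v hv
    let b : V5 := ![-(c : ℂ) * Complex.I * v 0 - (s : ℂ) * conj (v 1),
      -(c : ℂ) * Complex.I * v 1 + (s : ℂ) * conj (v 0), Complex.I * v 2, Complex.I * v 3,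
      Complex.I * v 4]
    have h1 := hv b
    rw [Bl_apply] at h1
    have h2 : Bt c s v b = ∑ j, ((v j).re ^ 2 + (v j).im ^ 2) := by
      unfold Bt
      simp only [b, Fin.sum_univ_five]
      simp
      linear_combination ((v 0).re ^ 2 + (v 0).im ^ 2 + (v 1).re ^ 2 + (v 1).im ^ 2) * h
    rw [h2, Finset.sum_eq_zero_iff_of_nonneg (fun j _ => by positivity)] at h1
    funext j
    have h3 := h1 j (Finset.mem_univ j)
    apply Complex.ext
    · show (v j).re = 0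
      nlinarith [sq_nonneg (v j).re, sq_nonneg (v j).im]
    · show (v j).im = 0
      nlinarith [sq_nonneg (v j).re, sq_nonneg (v j).im]

theorem continuous_Bl {f g : ℝ → ℝ} (hf : Continuous f) (hg : Continuous g) :
    Continuous fun t => Bl (f t) (g t) := by
  unfold Bl
  rw [continuous_bf]
  intro v w
  have h0 : ∀ t, (f t • (stdForm ![-1, -1, 0, 0, 0] : Bf V5) + g t • kf +
      stdForm ![0, 0, 1, 1, 1]) v w = f t * stdForm ![-1, -1, 0, 0, 0] v w + g t * kf v w +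
      stdForm ![0, 0, 1, 1, 1] v w := fun t => rfl
  simp only [h0]
  exact ((hf.mul continuous_const).add (hg.mul continuous_const)).add continuous_const

theorem joined_std : JoinedIn (Nd V5) (stdForm ![-1, -1, 1, 1, 1]) (stdForm fun _ => 1) := by
  have hc : Continuous fun t : ℝ => Bl (Real.cos (Real.pi * t)) (Real.sin (Real.pi * t)) :=
    continuous_Bl (Real.continuous_cos.comp (continuous_const.mul continuous_id))
      (Real.continuous_sin.comp (continuous_const.mul continuous_id))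
  refine JoinedIn.ofLine (f := fun t : ℝ => Bl (Real.cos (Real.pi * t)) (Real.sin (Real.pi * t)))
    hc.continuousOn ?_ ?_ ?_
  · apply bf_ext
    intro a b
    show Bl (Real.cos (Real.pi * 0)) (Real.sin (Real.pi * 0)) a b = _
    rw [Bl_apply, stdForm_apply]
    unfold Bt
    simp only [Fin.sum_univ_five]
    simp
    ring
  · apply bf_ext
    intro a b
    show Bl (Real.cos (Real.pi * 1)) (Real.sin (Real.pi * 1)) a b = _
    rw [Bl_apply, stdForm_apply]
    unfold Bt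
    simp only [Fin.sum_univ_five]
    simp
    ring
  · rintro _ ⟨t, _, rfl⟩
    exact Bl_mem (Real.cos_sq_add_sin_sq _)

theorem ext5_std : ext5 (stdForm ![-1, 1, 1, 1]) = stdForm ![-1, -1, 1, 1, 1] := by
  apply bf_ext
  intro a b
  rw [ext5_apply, stdForm_apply, stdForm_apply]
  simp only [Fin.sum_univ_five, Fin.sum_univ_four, tl]
  simp
  ring

theorem isPathConnected_compl : IsPathConnected ({0}ᶜ : Set V4) := by
  apply isPathConnected_compl_singleton_of_one_lt_rank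
  rw [← Module.finrank_eq_rank]
  have : Module.finrank ℝ V4 = 8 := by
    rw [Module.finrank_pi_fintype]
    simp [Complex.finrank_real_complex]
  rw [this]
  norm_num

theorem orient {om : Ch → V4 → V4 [⋀^Fin 2]→L[ℝ] ℝ} (hc : Compat 2 om)
    (hn : ∀ k z, Nondeg (om k z)) (hneg : ∀ z, pow4 (om .c z) stdB < 0)
    {g : V4 → Bf V4} {C : Bf V4} (hg : ContinuousOn g {0}ᶜ) (hgn : ∀ x, x ≠ 0 → g x ∈ Nd V4)
    (hC : ∀ x, 16 ≤ nsq x → g x = C)
    (hg3 : ∀ x, n3 x ≠ 0 → nsq x ≤ 1 / 16 →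
        g x = pb (cur (om .a (inv3 x))) (fderiv ℝ inv3 x)) :
    JoinedIn (Nd V5) (ext5 C) (stdForm fun _ => 1) := by
  have hx0 : n3 x0 ≠ 0 := by rw [n3_x0]; norm_num
  have hx5 : n5 (inv3 x0) ≠ 0 := by rw [n5_inv3_x0]; norm_num
  have hsize : nsq x0 ≤ 1 / 16 := by
    rw [nsq_eq_n, n3_x0, n5_x0]
    norm_num
  have h1 := hg3 x0 hx0 hsize
  -- the form at the test point
  have hac : cur (om .a (inv3 x0)) = pb (cur (om .c (inv5 (inv3 x0))))
      (fderiv ℝ inv5 (inv3 x0)) := cur_compat (p := .a) (q := .c) hc hx5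
  have hxne : x0 ≠ 0 := by
    intro h
    apply hx0
    rw [h]
    simp [n3]
  have h2 := hgn x0 hxne
  rw [h1] at h2
  have h3 := orient_aux (om .c (inv5 (inv3 x0))) (om .a (inv3 x0)) (hn _ _)
      (fderiv ℝ inv5 (inv3 x0)) (fderiv ℝ inv3 x0) hac (hneg _) (by
        rw [B3.fderiv_inv3 hx0, B3.fderiv_inv5 hx5, det_D3, det_D5]
        norm_num) h2
  rw [← h1] at h3
  -- path to infinity
  let y : V4 := ![⟨4, 0⟩, 0, 0, 0]
  have hy : nsq y = 16 := by
    rw [nsq_eq_n]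
    simp [n3, n5, y]
    norm_num
  have hyne : y ≠ 0 := by
    intro h
    rw [h] at hy
    simp [nsq, ip] at hy
  have h4 : JoinedIn ({0}ᶜ : Set V4) y x0 := isPathConnected_compl.joinedIn _ hyne _ hxne
  have h5 := h4.map_continuousOn hg
  rw [hC y hy.ge] at h5
  have h6 : JoinedIn (Nd V4) C (g x0) := by
    refine h5.mono ?_
    rintro _ ⟨x, hx, rfl⟩
    exact hgn x hx
  have h7 := h6.trans h3
  have h8 := h7.map_continuousOn (f := ext5) continuous_ext5.continuousOn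
  rw [ext5_std] at h8
  have h9 : JoinedIn (Nd V5) (ext5 C) (stdForm ![-1, -1, 1, 1, 1]) := by
    refine h8.mono ?_
    rintro _ ⟨B, hB, rfl⟩
    exact ext5_mem_Nd hB
  exact h9.trans joined_std

end E1

end Pool.Agent.Work.MP_2a78db_gt
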