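import Pool.Agent.Work.MP_2a78db_gt.E1f

/-!
Module E1, part g: the family of forms on the 9-sphere.
-/

namespace Pool.Agent.Work.MP_2a78db_gt

open scoped Topology ContDiff ComplexConjugate

namespace E1

open Classical in
/-- index of a nonzero coordinate -/
noncomputable def idx (z : V5) : Fin 4 :=
  if h : ∃ i : Fin 4, z i.succ ≠ 0 then h.choose else 0

theorem idx_spec {z : V5} (hr : rr z ≠ 0) : z (idx z).succ ≠ 0 := by
  have h : ∃ i : Fin 4, z i.succ ≠ 0 := by
    by_contra hcon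
    push Not at hcon
    apply hr
    unfold rr
    have : tl z = 0 := by
      funext i
      exact hcon i
    rw [this]
    simp [nsq, ip]
  unfold idx
  rw [dif_pos h]
  exact h.choose_spec

open Classical in
/-- horizontal part of the outer region -/
noncomputable def Hor (om : Ch → V4 → V4 [⋀^Fin 2]→L[ℝ] ℝ) (g : V4 → Bf V4) (z : V5) : Bf V5 :=
  if z 0 = 0 then Hf om (idx z) z else pb (g (xim z)) (El z)

section outer

variable {om : Ch → V4 → V4 [⋀^Fin 2]→L[ℝ] ℝ} {g : V4 → Bf V4}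

theorem Hor_zero {z : V5} (h : z 0 = 0) : Hor om g z = Hf om (idx z) z := by
  unfold Hor
  rw [if_pos h]

theorem Hor_ne {z : V5} (h : z 0 ≠ 0) : Hor om g z = pb (g (xim z)) (El z) := by
  unfold Hor
  rw [if_neg h]

theorem smul_pb_inv {r : ℝ} (hr : r ≠ 0) (B : Bf V4) (A : V5 →L[ℝ] V4) :
    r ^ 2 • pb B (r⁻¹ • A) = pb B A := by
  apply bf_ext
  intro a b
  have h1 : (r ^ 2 • pb B (r⁻¹ • A)) a b = r ^ 2 * B (r⁻¹ • A a) (r⁻¹ • A b) := rfl
  rw [h1, map_smul, map_smul, smul_apply, pb_apply, smul_eq_mul, smul_eq_mul]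
  field_simp

theorem Hor_eq_Hf (hc : Compat 2 om)
    (hg3 : ∀ x, n3 x ≠ 0 → nsq x ≤ 1 / 16 →
        g x = pb (cur (om .a (inv3 x))) (fderiv ℝ inv3 x))
    (hg5 : ∀ x, n5 x ≠ 0 → nsq x ≤ 1 / 16 →
        g x = pb (cur (om .b (inv5 x))) (fderiv ℝ inv5 x))
    {i : Fin 4} {z : V5} (hi : z i.succ ≠ 0) (hz : ‖z 0‖ ^ 2 ≤ rr z / 16) :
    Hor om g z = Hf om i z := by
  have hr := rr_ne_zero hi
  by_cases h0 : z 0 = 0
  · rw [Hor_zero h0]
    exact Hf_indep hc (idx_spec hr) hi
  · rw [Hor_ne h0]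
    have hrpos : 0 < rr z := lt_of_le_of_ne (rr_nonneg z) (Ne.symm hr)
    have hw : wm i z i ≠ 0 := by
      unfold wm
      rw [if_pos rfl]
      refine mul_ne_zero (mul_ne_zero (by simpa using h0) hi) ?_
      rw [Complex.ofReal_ne_zero]
      exact inv_ne_zero hr
    have hN : nsq (bl i (wm i z)) ≤ 1 / 16 := by
      rw [bl_wm hi, nsq_xim hr, div_le_iff₀ hrpos]
      linarith
    unfold Hf
    rw [cur_B_eq hc hg3 hg5 hw hN, pb_pb, fderiv_bl_wm hi, bl_wm hi, smul_pb_inv hr]

theorem Hor_continuousAt (hs : ∀ k, Continuous (om k)) (hc : Compat 2 om)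
    (hg : ContinuousOn g {0}ᶜ)
    (hg3 : ∀ x, n3 x ≠ 0 → nsq x ≤ 1 / 16 →
        g x = pb (cur (om .a (inv3 x))) (fderiv ℝ inv3 x))
    (hg5 : ∀ x, n5 x ≠ 0 → nsq x ≤ 1 / 16 →
        g x = pb (cur (om .b (inv5 x))) (fderiv ℝ inv5 x))
    {z : V5} (hr : rr z ≠ 0) : ContinuousAt (Hor om g) z := by
  have hcr : Continuous rr := contDiff_rr.continuous
  by_cases h0 : z 0 = 0
  · have hi := idx_spec hr
    have hrpos : 0 < rr z := lt_of_le_of_ne (rr_nonneg z) (Ne.symm hr)
    have h1 : {y : V5 | ‖y 0‖ ^ 2 < rr y / 16} ∈ 𝓝 z := by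
      refine IsOpen.mem_nhds (isOpen_lt ?_ (hcr.div_const _)) ?_
      · exact (continuous_norm.comp (continuous_apply 0)).pow 2
      · show ‖z 0‖ ^ 2 < rr z / 16
        rw [h0]
        simp only [norm_zero]
        linarith
    have h2 : Hor om g =ᶠ[𝓝 z] Hf om (idx z) := by
      filter_upwards [h1, (isOpen_ne (idx z)).mem_nhds hi] with y hy hy'
      exact Hor_eq_Hf hc hg3 hg5 hy' (le_of_lt hy)
    exact (Hf_continuousAt hs hi).congr h2.symm
  · have h1 : {y : V5 | y 0 ≠ 0} ∈ 𝓝 z :=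
      (isOpen_ne_fun (continuous_apply 0) continuous_const).mem_nhds h0
    have h2 : Hor om g =ᶠ[𝓝 z] fun y => pb (g (xim y)) (El y) := by
      filter_upwards [h1] with y hy
      exact Hor_ne hy
    refine ContinuousAt.congr ?_ h2.symm
    refine pb_continuousAt ?_ (continuousAt_El hr)
    have h3 : ContinuousAt g (xim z) :=
      hg.continuousAt (isOpen_compl_singleton.mem_nhds (xim_ne_zero hr h0))
    exact ContinuousAt.comp (g := g) (f := xim) h3 (continuousAt_xim hr)

theorem Hor_smul (hc : Compat 2 om) {c : ℂ} (hc1 : ‖c‖ = 1) {z : V5} (hr : rr z ≠ 0) (a b : V5) :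
    Hor om g (c • z) (c • a) (c • b) = Hor om g z a b := by
  have hc0 : c ≠ 0 := by
    intro h
    rw [h] at hc1
    simp at hc1
  by_cases h0 : z 0 = 0
  · have h0' : (c • z) 0 = 0 := by simp [h0]
    have hi := idx_spec hr
    have hr' : rr (c • z) ≠ 0 := by
      rw [rr_smul, hc1]
      simpa using hr
    have hi' : (c • z) (idx z).succ ≠ 0 := by
      rw [Pi.smul_apply, smul_eq_mul]
      exact mul_ne_zero hc0 hi
    rw [Hor_zero h0, Hor_zero h0', Hf_indep hc (idx_spec hr') hi', Hf_smul hc1 hi]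
  · have h0' : (c • z) 0 ≠ 0 := by
      rw [Pi.smul_apply, smul_eq_mul]
      exact mul_ne_zero hc0 h0
    rw [Hor_ne h0, Hor_ne h0', pb_apply, pb_apply, El_smul hc1, El_smul hc1, xim_smul hc0]

theorem Hor_self {z : V5} (hr : rr z ≠ 0) (c : ℂ) (b : V5) : Hor om g z (c • z) b = 0 := by
  by_cases h0 : z 0 = 0
  · rw [Hor_zero h0]
    unfold Hf
    rw [smul_apply, smul_apply, pb_apply, wm_ker_self (idx_spec hr) h0, map_zero,
      zero_apply, smul_zero]
  · rw [Hor_ne h0, pb_apply, El_apply, Ef_smul_self hr, map_zero, zero_apply]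

theorem Hor_nd (hn : ∀ k z, Nondeg (om k z)) (hgn : ∀ x, x ≠ 0 → g x ∈ Nd V4) (z : S9)
    (hr : rr z.1 ≠ 0) : Hor om g z.1 + ver z.1 ∈ Nd V5 := by
  by_cases h0 : z.1 0 = 0
  · have hi := idx_spec hr
    have hr1 : rr z.1 = 1 := by
      have := sph z
      rw [h0] at this
      simpa [rr] using this
    rw [Hor_zero h0]
    unfold Hf
    rw [hr1, one_pow, one_smul]
    refine nd_criterion ip5_self (cur_mem_Nd (hn _ _)) _ ?_ (wm_ker_self hi h0 _) (wm_surj hi h0)
      (wm_ker hi h0)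
    have := wm_ker_self hi h0 1
    rwa [one_smul] at this
  · rw [Hor_ne h0]
    refine nd_criterion ip5_self (hgn _ (xim_ne_zero hr h0)) _ ?_ ?_ ?_ ?_
    · have := Ef_smul_self hr 1
      rw [one_smul] at this
      exact this
    · exact Ef_smul_self hr _
    · intro y
      obtain ⟨a, ha⟩ := Ef_surj h0 hr y
      exact ⟨a, ha⟩
    · intro a ha
      exact ⟨_, Ef_ker h0 hr a ha⟩

end outer

/-- matching of the two regions -/
theorem match_regions {om : Ch → V4 → V4 [⋀^Fin 2]→L[ℝ] ℝ} {g : V4 → Bf V4} {C : Bf V4}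
    (hC : ∀ x, 16 ≤ nsq x → g x = C) (z : S9) (hr : rr z.1 = 1 / 17) :
    pb (ext5 C) (Ph z.1) = Hor om g z.1 + ver z.1 := by
  have hn : ‖z.1 0‖ ^ 2 = 16 / 17 := by
    have := sph z
    have h2 : rr z.1 = nsq (tl z.1) := rfl
    rw [← h2, hr] at this
    linarith
  have h0 : z.1 0 ≠ 0 := by
    intro h
    rw [h] at hn
    norm_num at hn
  have hr' : rr z.1 ≠ 0 := by rw [hr]; norm_num
  have hN : 16 ≤ nsq (xim z.1) := by
    rw [nsq_xim hr', hn, hr]
    norm_num
  rw [Hor_ne h0, hC _ hN]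
  apply bf_ext
  intro a b
  rw [pb_apply, ext5_apply, Ph_apply, Ph_apply, tl_Phf_eq h0 hr, tl_Phf_eq h0 hr, Phf_zero_eq hr,
    Phf_zero_eq hr, add_apply, add_apply, pb_apply, ver_apply, El_apply, El_apply,
    Complex.conj_conj, sub_eq_add_neg, ← Complex.conj_im, map_mul, Complex.conj_conj]

open Classical in
/-- the family of forms -/
noncomputable def OmF (om : Ch → V4 → V4 [⋀^Fin 2]→L[ℝ] ℝ) (g : V4 → Bf V4) (C : Bf V4)
    (z : S9) : Bf V5 :=
  if rr z.1 ≤ 1 / 17 then pb (ext5 C) (Ph z.1) else Hor om g z.1 + ver z.1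

open Classical in
/-- the field -/
noncomputable def uF (z : S9) : V5 :=
  if rr z.1 ≤ 1 / 17 then uin z.1 else Complex.I • z.1

theorem z0_ne {z : S9} (hr : rr z.1 ≤ 1 / 17) : z.1 0 ≠ 0 := by
  intro h
  have h1 := sph z
  rw [h] at h1
  have h2 : rr z.1 = nsq (tl z.1) := rfl
  rw [← h2] at h1
  simp at h1
  rw [h1] at hr
  norm_num at hr

theorem OmF_continuous {om : Ch → V4 → V4 [⋀^Fin 2]→L[ℝ] ℝ} {g : V4 → Bf V4} {C : Bf V4}
    (hs : ∀ k, Continuous (om k)) (hc : Compat 2 om)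
    (hg : ContinuousOn g {0}ᶜ) (hC : ∀ x, 16 ≤ nsq x → g x = C)
    (hg3 : ∀ x, n3 x ≠ 0 → nsq x ≤ 1 / 16 →
        g x = pb (cur (om .a (inv3 x))) (fderiv ℝ inv3 x))
    (hg5 : ∀ x, n5 x ≠ 0 → nsq x ≤ 1 / 16 →
        g x = pb (cur (om .b (inv5 x))) (fderiv ℝ inv5 x)) : Continuous (OmF om g C) := by
  unfold OmF
  have hcr : Continuous fun z : S9 => rr z.1 := contDiff_rr.continuous.comp continuous_val
  refine continuous_if_le hcr continuous_const ?_ ?_ ?_
  · intro z hz
    refine ContinuousAt.continuousWithinAt ?_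
    refine pb_continuousAt continuousAt_const ?_
    exact ContinuousAt.comp (g := Ph) (f := fun z : S9 => z.1) (continuousAt_Ph (z0_ne hz))
      continuous_val.continuousAt
  · intro z hz
    have hz' : 1 / 17 ≤ rr z.1 := hz
    have hr : rr z.1 ≠ 0 := by
      intro h
      rw [h] at hz'
      norm_num at hz'
    refine ContinuousAt.continuousWithinAt ?_
    have h1 : ContinuousAt (fun z : S9 => Hor om g z.1) z :=
      ContinuousAt.comp (g := Hor om g) (f := fun z : S9 => z.1)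
        (Hor_continuousAt hs hc hg hg3 hg5 hr) continuous_val.continuousAt
    have h2 : ContinuousAt (fun z : S9 => ver z.1) z :=
      (continuous_ver.comp continuous_val).continuousAt
    rw [continuousAt_bf] at h1 h2 ⊢
    intro v w
    exact (h1 v w).add (h2 v w)
  · intro z hz
    exact match_regions hC z hz

theorem u1_zero (z : S9) : u1 z 0 = -Complex.I * z.1 0 := by
  unfold u1
  rw [if_pos rfl]

theorem tl_u1 (z : S9) : tl (u1 z) = Complex.I • tl z.1 := by
  funext j
  have h : (j.succ : Fin 5) ≠ 0 := Fin.succ_ne_zero j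
  simp only [tl, u1, h, if_false, Pi.smul_apply, smul_eq_mul]

theorem rip_I_left (z b : V5) : rip (Complex.I • z) b = (ip5 z b).im := by
  have h := rip_smul_I z b (-1)
  have h2 : (-((-1 : ℝ) : ℂ) * Complex.I) = Complex.I := by push_cast; ring
  rw [h2] at h
  rw [h]
  ring

theorem ip5_u1 (z : S9) : ip5 z.1 (u1 z) = ((2 * rr z.1 - 1 : ℝ) : ℂ) * Complex.I := by
  rw [ip5_eq, u1_zero, tl_u1, ip_smul_right, ip_tl_self]
  have h2 : conj (z.1 0) * z.1 0 = ((‖z.1 0‖ ^ 2 : ℝ) : ℂ) := by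
    rw [← Complex.normSq_eq_conj_mul_self, Complex.normSq_eq_norm_sq]
  have h3 := norm_sq_add z
  push_cast at h2 ⊢
  linear_combination (-Complex.I) * h2 - Complex.I * h3

theorem im_ip5_u1 (z : S9) : (ip5 z.1 (u1 z)).im = 2 * rr z.1 - 1 := by
  rw [ip5_u1, Complex.im_ofReal_mul]
  simp

theorem ne_outer (z : S9) (hr : 1 / 17 < rr z.1) : -1 < rip (Complex.I • z.1) (u1 z) := by
  rw [rip_I_left, im_ip5_u1]
  linarith

theorem rip_wv_u1 (z : S9) (h0 : z.1 0 ≠ 0) : rip (wv z.1) (u1 z) = 0 := by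
  rw [rip_eq, ip5_eq, u1_zero, tl_u1, wv_zero, tl_wv, ip_smul_left, ip_smul_right, ip_tl_self]
  have h1 := ph_mul h0
  have h2 : conj (-(rr z.1 : ℂ) * conj (ph z.1)) * (-Complex.I * z.1 0) +
      conj (‖z.1 0‖ : ℂ) * (Complex.I * (rr z.1 : ℂ)) =
      ((2 * rr z.1 * ‖z.1 0‖ : ℝ) : ℂ) * Complex.I := by
    simp only [map_mul, map_neg, Complex.conj_ofReal, Complex.conj_conj]
    push_cast
    linear_combination ((rr z.1 : ℂ) * Complex.I) * h1
  rw [h2, Complex.re_ofReal_mul]
  simp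

theorem ne_inner (z : S9) (hr : rr z.1 ≤ 1 / 17) : -1 < rip (uin z.1) (u1 z) := by
  have h0 := z0_ne hr
  rw [rip_uin_eq h0, im_ip5_u1, rip_wv_u1 z h0]
  have h8 := rr_nonneg z.1
  nlinarith

/-- The family exists, given the box trick. -/
theorem exists_family_of_box (hbox : BoxTrick) (om : Ch → V4 → V4 [⋀^Fin 2]→L[ℝ] ℝ)
    (hs : ∀ k, Continuous (om k)) (hc : Compat 2 om) (hn : ∀ k z, Nondeg (om k z))
    (hneg : ∀ z, pow4 (om .c z) stdB < 0) : ∃ Om u, Family Om u := by
  obtain ⟨g, C, hg, hgn, hC, hg3, hg5⟩ := exists_g hbox om hs hc hn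
  have hCn : C ∈ Nd V4 := by
    let y : V4 := ![⟨4, 0⟩, 0, 0, 0]
    have hy : nsq y = 16 := by
      rw [nsq_eq_n]
      simp [n3, n5, y]
      norm_num
    have hyne : y ≠ 0 := by
      intro h
      rw [h] at hy
      simp [nsq, ip] at hy
    rw [← hC y hy.ge]
    exact hgn y hyne
  have hrr : ∀ z : S9, ¬ rr z.1 ≤ 1 / 17 → rr z.1 ≠ 0 := by
    intro z hz h
    rw [h] at hz
    norm_num at hz
  have hin : ∀ z : S9, rr z.1 ≤ 1 / 17 → OmF om g C z = pb (ext5 C) (Ph z.1) := by
    intro z hz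
    unfold OmF
    rw [if_pos hz]
  have hout : ∀ z : S9, ¬ rr z.1 ≤ 1 / 17 → OmF om g C z = Hor om g z.1 + ver z.1 := by
    intro z hz
    unfold OmF
    rw [if_neg hz]
  have huin : ∀ z : S9, rr z.1 ≤ 1 / 17 → uF z = uin z.1 := by
    intro z hz
    unfold uF
    rw [if_pos hz]
  have huout : ∀ z : S9, ¬ rr z.1 ≤ 1 / 17 → uF z = Complex.I • z.1 := by
    intro z hz
    unfold uF
    rw [if_neg hz]
  have hunit : ∀ z, rip (uF z) (uF z) = 1 := by
    intro z
    by_cases hz : rr z.1 ≤ 1 / 17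
    · rw [huin z hz]
      exact unit_in (z0_ne hz) hz
    · rw [huout z hz, rip_I_left, ip5_smul, ip5_self]
      simp
  refine ⟨OmF om g C, uF, ?_, ?_, ?_, hunit, ?_, ?_, ?_, ?_⟩
  · exact OmF_continuous hs hc hg hC hg3 hg5
  · intro z
    by_cases hz : rr z.1 ≤ 1 / 17
    · rw [hin z hz]
      exact pb_mem_Nd (ext5_mem_Nd hCn) (bijective_Ph (z0_ne hz) hz)
    · rw [hout z hz]
      exact Hor_nd hn hgn z (hrr z hz)
  · intro l z v w
    have hl : ‖(l : ℂ)‖ = 1 := Circle.norm_coe l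
    have hrot : (rot l z).1 = (l : ℂ) • z.1 := rfl
    have hrr' : rr (rot l z).1 = rr z.1 := by
      rw [hrot, rr_smul, hl]
      ring
    by_cases hz : rr z.1 ≤ 1 / 17
    · rw [hin z hz, hin (rot l z) (by rw [hrr']; exact hz), hrot, pb_apply, pb_apply, Ph_smul hl,
        Ph_smul hl]
    · rw [hout z hz, hout (rot l z) (by rw [hrr']; exact hz), hrot, add_apply, add_apply,
        add_apply, add_apply, Hor_smul hc hl (hrr z hz), ver_smul hl]
  · intro z w
    by_cases hz : rr z.1 ≤ 1 / 17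
    · rw [hin z hz, huin z hz]
      exact on_z_in (z0_ne hz) hz C w
    · rw [hout z hz, huout z hz, rip_I_left, add_apply, add_apply, ver_apply]
      have h := Hor_self (om := om) (g := g) (hrr z hz) 1 w
      rw [one_smul] at h
      rw [h, ip5_self, map_one, one_mul, zero_add]
  · intro z w
    by_cases hz : rr z.1 ≤ 1 / 17
    · rw [hin z hz, huin z hz]
      exact on_u_in (z0_ne hz) hz C w
    · rw [hout z hz, huout z hz, add_apply, add_apply, ver_apply,
        Hor_self (om := om) (g := g) (hrr z hz) Complex.I w, ip5_smul, ip5_self, rip_eq]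
      simp
  · intro z h
    have h1 : rip (uF z) (u1 z) = -1 := by
      have h2 : u1 z = ((-1 : ℝ) : ℂ) • uF z := by
        rw [h]
        push_cast
        rw [smul_neg, neg_smul, one_smul, neg_neg]
      rw [h2, rip_comm, rip_rsmul_left, hunit]
      ring
    by_cases hz : rr z.1 ≤ 1 / 17
    · have := ne_inner z hz
      rw [← huin z hz, h1] at this
      exact lt_irrefl _ this
    · have := ne_outer z (not_le.1 hz)
      rw [← huout z hz, h1] at this
      exact lt_irrefl _ this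
  · let z0 : S9 := ⟨Pi.single 0 1, by
      rw [Fin.sum_univ_succ]
      simp⟩
    have htl : tl z0.1 = 0 := by
      funext j
      simp [tl, z0]
    have hz00 : z0.1 0 = 1 := by simp [z0]
    have hrz : rr z0.1 = 0 := by
      unfold rr
      rw [htl]
      simp [nsq, ip]
    refine ⟨z0, ?_⟩
    rw [hin z0 (by rw [hrz]; norm_num)]
    have hid : pb (ext5 C) (Ph z0.1) = ext5 C := by
      have h1 : ∀ a, Ph z0.1 a = a := by
        intro a
        rw [Ph_apply]
        unfold Phf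
        have hvv : vv z0.1 = 0 := by
          unfold vv
          rw [htl, smul_zero]
        have hcc : cc z0.1 = 1 := by
          unfold cc
          rw [hrz]
          simp
        have hip : ip5 z0.1 a = a 0 := by
          rw [ip5_eq, htl, hz00]
          simp [ip]
        have hLy : Ly z0.1 a = tl a := by
          unfold Ly
          rw [hvv, hz00]
          simp
        have hrho : rho z0.1 a = - (a 0).im := by
          unfold rho
          rw [hvv, hcc, hip]
          simp [ip]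
        rw [hvv, hcc, hip, hLy, hrho]
        funext j
        refine Fin.cases ?_ (fun i => ?_) j
        · simp only [Fin.cons_zero]
          apply Complex.ext
          · simp
          · simp
            ring
        · simp [tl]
      apply bf_ext
      intro a b
      rw [pb_apply, h1, h1]
    rw [hid]
    exact orient hc hn hneg hg hgn hC hg3

end E1

end Pool.Agent.Work.MP_2a78db_gt
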