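import Pool.Agent.Work.MP_2a78db_gt.F1c
import Pool.Agent.Work.MP_2a78db_gt.Common

/-!
Module F1: the bridge between differential forms and almost complex structures on the glued
manifold and families over the charts.
-/

namespace Pool.Agent.Work.MP_2a78db_gt

open scoped Manifold ContDiff Topology

namespace F1

variable {M : Type} [TopologicalSpace M] (D : SpaceData M)

theorem smoothForm_iff {k : ℕ} (θ : M → E8 [⋀^Fin k]→L[ℝ] ℝ) :
    letI := cs D
    (SmoothForm (E := E8) (M := M) θ ↔ ∀ p, ContDiff ℝ ∞ (locN D θ p)) := by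
  let := cs D
  constructor
  · intro h p
    have h1 := h (chart D p) ⟨p, rfl⟩
    rw [chart_target, contDiffOn_univ] at h1
    exact h1
  · rintro h e ⟨p, rfl⟩
    exact (h p).contDiffOn

theorem hasExtDeriv_iff {k : ℕ} (θ : M → E8 [⋀^Fin k]→L[ℝ] ℝ)
    (η : M → E8 [⋀^Fin (k + 1)]→L[ℝ] ℝ) :
    letI := cs D
    (HasExtDeriv (E := E8) (M := M) θ η ↔
      ∀ p y, extDeriv (locN D θ p) y = locN D η p y) := by
  let := cs D
  constructor
  · intro h p y
    exact h (chart D p) ⟨p, rfl⟩ y (by rw [chart_target]; trivial)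
  · rintro h e ⟨p, rfl⟩ y _
    exact h p y

end F1

open F1 in
/-- MODULE F1 (bridge between the manifold `M` and families over the seven charts). -/
theorem bridge {M : Type} [TopologicalSpace M] [T2Space M] [CompactSpace M] (D : SpaceData M) :
    ∃ (_ : ChartedSpace (EuclideanSpace ℝ (Fin 8)) M) (_ : IsManifold (𝓡 8) ∞ M),
      SecondCountableTopology M ∧
      (∃ fam : ∀ k : ℕ, (∀ x : M, TangentSpace (𝓡 8) x [⋀^Fin k]→L[ℝ] ℝ) →
          Ch → V4 → V4 [⋀^Fin k]→L[ℝ] ℝ,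
        (∀ k θ, SmoothForm θ → ∀ p, ContDiff ℝ ∞ (fam k θ p)) ∧
        (∀ k θ, Compat k (fam k θ)) ∧
        (∀ k om, (∀ p, ContDiff ℝ ∞ (om p)) → Compat k om → ∃ θ, SmoothForm θ ∧ fam k θ = om) ∧
        (∀ k θ η, SmoothForm θ →
          (HasExtDeriv θ η ↔ ∀ p z, extDeriv (fam k θ p) z = fam (k + 1) η p z)) ∧
        (∀ k p z, fam k (fun _ => 0) p z = 0) ∧
        (∀ α p z, fam 8 (fun x => fourthPower (α x)) p z
          = (1 / 2 ^ 4 : ℝ) • pow4 (fam 2 α p z)) ∧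
        (∀ θ : ∀ x : M, TangentSpace (𝓡 8) x [⋀^Fin 2]→L[ℝ] ℝ,
          (∀ x v, (∀ w, θ x ![v, w] = 0) → v = 0) → ∀ p z, Nondeg (fam 2 θ p z))) ∧
      (∀ J : Ch → V4 → (V4 →L[ℝ] V4), (∀ k, ContDiff ℝ ∞ (J k)) →
        (∀ k z v, J k z (J k z v) = -v) →
        (∀ k l, ∀ z ∈ O k l, ∀ v,
          fderiv ℝ (T k l) z (J k z v) = J l (T k l z) (fderiv ℝ (T k l) z v)) →
        ∃ J' : ∀ x : M, TangentSpace (𝓡 8) x →L[ℝ] TangentSpace (𝓡 8) x,
          IsAlmostComplex J') := by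
  let := cs D
  refine ⟨cs D, isM D, ChartedSpace.secondCountable_of_sigmaCompact E8 M,
    ⟨fun k θ => famN D θ, ?_, ?_, ?_, ?_, ?_, ?_, ?_⟩, ?_⟩
  · intro k θ h p
    exact famN_smooth D ((smoothForm_iff D θ).1 h p)
  · intro k θ
    exact famN_compat D θ
  · intro k om hs hc
    exact ⟨thN D om, (smoothForm_iff D _).2 fun p => locN_thN_smooth D hc hs p,
      famN_thN D hc⟩
  · intro k θ η h
    exact (hasExtDeriv_iff D θ η).trans (extDeriv_iff D ((smoothForm_iff D θ).1 h) η)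
  · intro k p z
    exact famN_zero D p z
  · intro α p z
    obtain ⟨θ', hθ⟩ : ∃ θ' : ∀ x : M, TangentSpace (𝓡 8) x [⋀^Fin 8]→L[ℝ] ℝ,
      θ' = fun x => fourthPower (α x) := ⟨_, rfl⟩
    have h1 : ∀ (x : M) (w : Fin 8 → TangentSpace (𝓡 8) x), θ' x w =
        (1 / 2 ^ 4 : ℝ) * ∑ σ : Equiv.Perm (Fin 8), (Equiv.Perm.sign σ : ℤˣ) •
      (α x ![w (σ 0), w (σ 1)] * α x ![w (σ 2), w (σ 3)] *
        α x ![w (σ 4), w (σ 5)] * α x ![w (σ 6), w (σ 7)]) := by
      intro x w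
      rw [hθ]
      exact fourthPower_apply' (α x) w
    rw [← hθ]
    clear hθ
    ext v
    rw [ContinuousAlternatingMap.smul_apply, smul_eq_mul, pow4_apply']
    refine (famN_apply D θ' p z v).trans ?_
    refine (h1 ((chart D p).symm (LL z)) (fun i => Bm D p (LL z) (LL (v i)))).trans ?_
    congr 1
    refine Finset.sum_congr rfl fun σ _ => ?_
    congr 1
    refine congrArg₂ (· * ·) (congrArg₂ (· * ·) (congrArg₂ (· * ·) ?_ ?_) ?_) ?_ <;>
      exact (famN_apply_two D α p z _ _).symm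
  · intro θ h p z
    exact famN_nondeg D h p z
  · intro J hs h2 hJ
    exact ⟨Jn D J, Jn_smooth D hs hJ, fun x v => Jn_sq D h2 x v⟩

end Pool.Agent.Work.MP_2a78db_gt
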