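import Pool.Agent.Work.MP_2a78db_gt.A3
import Pool.Agent.Work.MP_2a78db_gt.FDefs

/-!
Module F1, first part: the charted space structure over Euclidean space, transition maps and the
derivatives of the charts.
-/

namespace Pool.Agent.Work.MP_2a78db_gt

open scoped Manifold ContDiff Topology

namespace F1

/-- Euclidean 8-space -/
abbrev E8 : Type := EuclideanSpace ℝ (Fin 8)

theorem finrank_V4 : Module.finrank ℝ V4 = Module.finrank ℝ E8 := by
  rw [finrank_euclideanSpace_fin, Module.finrank_pi_fintype]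
  simp [Complex.finrank_real_complex]

/-- A linear identification -/
noncomputable def LL : V4 ≃L[ℝ] E8 := ContinuousLinearEquiv.ofFinrankEq finrank_V4

variable {M : Type} [TopologicalSpace M] (D : SpaceData M)

/-- the charts with values in Euclidean space -/
noncomputable def chart (p : Ch) : OpenPartialHomeomorph M E8 :=
  (D.e p).transHomeomorph LL.toHomeomorph

theorem chart_apply (p : Ch) (x : M) : chart D p x = LL (D.e p x) := rfl

theorem chart_symm_apply (p : Ch) (y : E8) : (chart D p).symm y = (D.e p).symm (LL.symm y) := rfl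

theorem chart_source (p : Ch) : (chart D p).source = (D.e p).source := rfl

theorem chart_target (p : Ch) : (chart D p).target = Set.univ := by
  have h : (chart D p).target = LL.toHomeomorph.symm ⁻¹' (D.e p).target := rfl
  rw [h, D.target_univ, Set.preimage_univ]

/-- The charted space structure of a glued space. -/
@[reducible] noncomputable def cs : ChartedSpace E8 M where
  atlas := Set.range (chart D)
  chartAt x := chart D (D.cover x).choose
  mem_chart_source x := (D.cover x).choose_spec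
  chart_mem_atlas _ := ⟨_, rfl⟩

/-- A glued space is a smooth manifold. -/
theorem isM : @IsManifold ℝ _ E8 _ _ E8 _ (𝓡 8) ∞ M _ (cs D) := by
  letI := cs D
  refine isManifold_of_contDiffOn (𝓡 8) ∞ M ?_
  rintro e e' ⟨k, rfl⟩ ⟨l, rfl⟩
  have hsrc : ((chart D k).symm ≫ₕ (chart D l)).source = LL.symm ⁻¹' O k l := by
    rw [OpenPartialHomeomorph.trans_source, OpenPartialHomeomorph.symm_source, chart_target,
      Set.univ_inter, ← D.overlap k l]
    rfl
  simp only [modelWithCornersSelf_coe, modelWithCornersSelf_coe_symm, Set.range_id,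
    Set.inter_univ, Function.comp_id, Function.id_comp, Set.preimage_id, hsrc]
  have h1 : ContDiffOn ℝ ∞ (fun y : E8 => LL (T k l (LL.symm y))) (LL.symm ⁻¹' O k l) :=
    LL.contDiff.comp_contDiffOn ((contDiffOn_T k l).comp LL.symm.contDiff.contDiffOn
      fun y hy => hy)
  refine h1.congr fun y hy => ?_
  change LL (D.e l ((D.e k).symm (LL.symm y))) = LL (T k l (LL.symm y))
  rw [D.trans k l _ hy]

theorem chart_apply_symm (k : Ch) (y : E8) : chart D k ((chart D k).symm y) = y :=
  (chart D k).right_inv (by rw [chart_target]; trivial)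

theorem symm_mem (k : Ch) (y : E8) : (chart D k).symm y ∈ (chart D k).source :=
  (chart D k).map_target (by rw [chart_target]; trivial)

theorem symm_trans (k l : Ch) {z : V4} (hz : z ∈ O k l) :
    (chart D l).symm (LL (T k l z)) = (chart D k).symm (LL z) := by
  simp only [chart_symm_apply, LL.symm_apply_apply]
  exact D.symm_trans k l hz

theorem mdiff (k : Ch) :
    @OpenPartialHomeomorph.MDifferentiable ℝ _ E8 _ _ E8 _ (𝓡 8) M _ (cs D) E8 _ _ E8 _ (𝓡 8)
      E8 _ _ (chart D k) := by
  letI := cs D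
  haveI := isM D
  haveI : IsManifold (𝓡 8) 1 M := IsManifold.of_le (n := ∞) (by norm_num)
  exact mdifferentiable_of_mem_atlas ⟨k, rfl⟩

/-- derivative of a chart, as an endomorphism of the model space -/
noncomputable def Am (k : Ch) (x : M) : E8 →L[ℝ] E8 :=
  @mfderiv ℝ _ E8 _ _ E8 _ (𝓡 8) M _ (cs D) E8 _ _ E8 _ (𝓡 8) E8 _ _ (chart D k) x

/-- derivative of an inverse chart, as an endomorphism of the model space -/
noncomputable def Bm (k : Ch) (y : E8) : E8 →L[ℝ] E8 :=
  @mfderiv ℝ _ E8 _ _ E8 _ (𝓡 8) E8 _ _ E8 _ _ E8 _ (𝓡 8) M _ (cs D) (chart D k).symm y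

theorem Am_Bm (k : Ch) (y : E8) (v : E8) : Am D k ((chart D k).symm y) (Bm D k y v) = v := by
  letI := cs D
  have h := (mdiff D k).comp_symm_deriv (x := y) (by rw [chart_target]; trivial)
  exact congrArg (fun f : E8 →L[ℝ] E8 => f v) h

theorem Bm_Am (k : Ch) {x : M} (hx : x ∈ (chart D k).source) (v : E8) :
    Bm D k (chart D k x) (Am D k x v) = v := by
  letI := cs D
  have h := (mdiff D k).symm_comp_deriv (x := x) hx
  exact congrArg (fun f : E8 →L[ℝ] E8 => f v) h

theorem Bm_Am' (k : Ch) (y : E8) (v : E8) : Bm D k y (Am D k ((chart D k).symm y) v) = v := by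
  have h := Bm_Am D k (symm_mem D k y) v
  rwa [chart_apply_symm] at h

theorem Bm_trans (k l : Ch) {z : V4} (hz : z ∈ O k l) (v : V4) :
    Bm D k (LL z) (LL v) = Bm D l (LL (T k l z)) (LL (fderiv ℝ (T k l) z v)) := by
  letI := cs D
  haveI := isM D
  have hT : DifferentiableAt ℝ (T k l) z :=
    ((contDiffOn_T k l).contDiffAt ((isOpen_O k l).mem_nhds hz)).differentiableAt (by norm_num)
  have hev : (chart D k).symm =ᶠ[𝓝 (LL z)]
      (chart D l).symm ∘ fun y => LL (T k l (LL.symm y)) := by
    have hO : IsOpen (LL.symm ⁻¹' O k l) := (isOpen_O k l).preimage LL.symm.continuous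
    filter_upwards [hO.mem_nhds (by simpa using hz : LL z ∈ LL.symm ⁻¹' O k l)] with y hy
    have := symm_trans D k l hy
    simp only [Function.comp_apply, this, LL.apply_symm_apply]
  have hg : HasFDerivAt (fun y : E8 => LL (T k l (LL.symm y)))
      ((LL : V4 →L[ℝ] E8) ∘L (fderiv ℝ (T k l) z) ∘L (LL.symm : E8 →L[ℝ] V4)) (LL z) := by
    have h1 : HasFDerivAt (T k l) (fderiv ℝ (T k l) z) (LL.symm (LL z)) := by
      simpa using hT.hasFDerivAt
    exact LL.hasFDerivAt.comp (LL z) (h1.comp (LL z) LL.symm.hasFDerivAt)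
  have hm : MDifferentiableAt (𝓡 8) (𝓡 8) (fun y : E8 => LL (T k l (LL.symm y))) (LL z) :=
    hg.differentiableAt.mdifferentiableAt
  have hs : MDifferentiableAt (𝓡 8) (𝓡 8) (chart D l).symm (LL (T k l (LL.symm (LL z)))) :=
    (mdiff D l).mdifferentiableAt_symm (by rw [chart_target]; trivial)
  have h2 : mfderiv (𝓡 8) (𝓡 8) (chart D k).symm (LL z) =
      (mfderiv (𝓡 8) (𝓡 8) (chart D l).symm (LL (T k l (LL.symm (LL z))))).comp
        (mfderiv (𝓡 8) (𝓡 8) (fun y : E8 => LL (T k l (LL.symm y))) (LL z)) := by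
    rw [← mfderiv_comp (LL z) hs hm]
    exact hev.mfderiv_eq
  have h3 : mfderiv (𝓡 8) (𝓡 8) (fun y : E8 => LL (T k l (LL.symm y))) (LL z) =
      ((LL : V4 →L[ℝ] E8) ∘L (fderiv ℝ (T k l) z) ∘L (LL.symm : E8 →L[ℝ] V4)) := by
    rw [mfderiv_eq_fderiv]; exact hg.fderiv
  have h4 := congrArg (fun f : E8 →L[ℝ] E8 => f (LL v)) h2
  change Bm D k (LL z) (LL v) = _
  refine h4.trans ?_
  change Bm D l (LL (T k l (LL.symm (LL z))))
    ((mfderiv (𝓡 8) (𝓡 8) (fun y : E8 => LL (T k l (LL.symm y))) (LL z) : E8 →L[ℝ] E8) (LL v)) = _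
  rw [LL.symm_apply_apply]
  congr 1
  have h5 := congrArg (fun f : E8 →L[ℝ] E8 => f (LL v)) h3
  refine h5.trans ?_
  simp

end F1

end Pool.Agent.Work.MP_2a78db_gt
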