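import Pool.Agent.Work.MP_2a78db_gt.F1a

/-!
Module F1, second part: differential forms on the glued space and families of forms on the charts,
written with the model space in the place of the tangent spaces.
-/

namespace Pool.Agent.Work.MP_2a78db_gt

open scoped Manifold ContDiff Topology

namespace F1

variable {M : Type} [TopologicalSpace M] (D : SpaceData M)

theorem Am_trans (p q : Ch) {x : M} (hp : x ∈ (D.e p).source) (hq : x ∈ (D.e q).source)
    (v : E8) : LL (fderiv ℝ (T p q) (D.e p x) (LL.symm (Am D p x v))) = Am D q x v := by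
  have hx : (D.e p).symm (D.e p x) = x := (D.e p).left_inv hp
  have hz : D.e p x ∈ O p q := by
    have : D.e p x ∈ (D.e p).symm ⁻¹' (D.e q).source := by
      change (D.e p).symm (D.e p x) ∈ (D.e q).source
      rw [hx]; exact hq
    rwa [D.overlap] at this
  have h := Bm_trans D p q hz (LL.symm (Am D p x v))
  rw [LL.apply_symm_apply] at h
  have h2 : Bm D p (LL (D.e p x)) (Am D p x v) = v := Bm_Am D p hp v
  rw [h2] at h
  have h3 : T p q (D.e p x) = D.e q x := by
    rw [← D.trans p q _ hz, hx]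
  rw [h3] at h
  have h4 := Am_Bm D q (LL (D.e q x)) (LL (fderiv ℝ (T p q) (D.e p x) (LL.symm (Am D p x v))))
  rw [← h] at h4
  have h5 : (chart D q).symm (LL (D.e q x)) = x := (chart D q).left_inv hq
  rw [h5] at h4
  exact h4.symm

variable {k : ℕ}

/-- local expression of a form -/
noncomputable def locN (θ : M → E8 [⋀^Fin k]→L[ℝ] ℝ) (p : Ch) (y : E8) : E8 [⋀^Fin k]→L[ℝ] ℝ :=
  (θ ((chart D p).symm y)).compContinuousLinearMap (Bm D p y)

/-- local expression of a form, as a form on complex 4-space -/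
noncomputable def famN (θ : M → E8 [⋀^Fin k]→L[ℝ] ℝ) (p : Ch) (z : V4) : V4 [⋀^Fin k]→L[ℝ] ℝ :=
  (locN D θ p (LL z)).compContinuousLinearMap (LL : V4 →L[ℝ] E8)

theorem famN_apply (θ : M → E8 [⋀^Fin k]→L[ℝ] ℝ) (p : Ch) (z : V4) (v : Fin k → V4) :
    famN D θ p z v = θ ((chart D p).symm (LL z)) (fun i => Bm D p (LL z) (LL (v i))) := rfl

theorem locN_apply (θ : M → E8 [⋀^Fin k]→L[ℝ] ℝ) (p : Ch) (y : E8) (v : Fin k → E8) :
    locN D θ p y v = θ ((chart D p).symm y) (fun i => Bm D p y (v i)) := rfl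

theorem famN_smooth {θ : M → E8 [⋀^Fin k]→L[ℝ] ℝ} {p : Ch} (h : ContDiff ℝ ∞ (locN D θ p)) :
    ContDiff ℝ ∞ (famN D θ p) := by
  have h1 := (ContinuousAlternatingMap.compContinuousLinearMapCLM (ι := Fin k) (F := ℝ)
    (LL : V4 →L[ℝ] E8)).contDiff (n := ∞) |>.comp (h.comp LL.contDiff)
  exact h1

theorem famN_compat (θ : M → E8 [⋀^Fin k]→L[ℝ] ℝ) : Compat k (famN D θ) := by
  intro p q z hz
  ext v
  rw [ContinuousAlternatingMap.compContinuousLinearMap_apply, famN_apply, famN_apply,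
    symm_trans D p q hz]
  congr 1
  funext i
  exact Bm_trans D p q hz (v i)

/-- the form on the space defined by a compatible family -/
noncomputable def thN (om : Ch → V4 → V4 [⋀^Fin k]→L[ℝ] ℝ) (x : M) : E8 [⋀^Fin k]→L[ℝ] ℝ :=
  (om (D.cover x).choose (D.e (D.cover x).choose x)).compContinuousLinearMap
    ((LL.symm : E8 →L[ℝ] V4) ∘L Am D (D.cover x).choose x)

theorem thN_eq {om : Ch → V4 → V4 [⋀^Fin k]→L[ℝ] ℝ} (hom : Compat k om) (q : Ch) {x : M}
    (hq : x ∈ (D.e q).source) (v : Fin k → E8) :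
    thN D om x v = om q (D.e q x) (fun i => LL.symm (Am D q x (v i))) := by
  set p := (D.cover x).choose with hp
  have hxp : x ∈ (D.e p).source := (D.cover x).choose_spec
  have hx : (D.e p).symm (D.e p x) = x := (D.e p).left_inv hxp
  have hz : D.e p x ∈ O p q := by
    have : D.e p x ∈ (D.e p).symm ⁻¹' (D.e q).source := by
      change (D.e p).symm (D.e p x) ∈ (D.e q).source
      rw [hx]; exact hq
    rwa [D.overlap] at this
  have h3 : T p q (D.e p x) = D.e q x := by
    rw [← D.trans p q _ hz, hx]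
  have h1 : thN D om x v = om p (D.e p x) (fun i => LL.symm (Am D p x (v i))) := rfl
  rw [h1, hom p q _ hz, ContinuousAlternatingMap.compContinuousLinearMap_apply, h3]
  congr 1
  funext i
  have h := Am_trans D p q hxp hq (v i)
  change fderiv ℝ (T p q) (D.e p x) (LL.symm (Am D p x (v i))) = _
  rw [← h, LL.symm_apply_apply]

theorem locN_thN {om : Ch → V4 → V4 [⋀^Fin k]→L[ℝ] ℝ} (hom : Compat k om) (q : Ch) (y : E8) :
    locN D (thN D om) q y = (om q (LL.symm y)).compContinuousLinearMap (LL.symm : E8 →L[ℝ] V4) := by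
  ext v
  rw [locN_apply, thN_eq D hom q (symm_mem D q y)]
  have h : D.e q ((chart D q).symm y) = LL.symm y := by
    have := chart_apply_symm D q y
    rw [chart_apply] at this
    rw [← this, LL.symm_apply_apply, this]
  rw [h, ContinuousAlternatingMap.compContinuousLinearMap_apply]
  congr 1
  funext i
  rw [Am_Bm]
  rfl

theorem locN_thN_smooth {om : Ch → V4 → V4 [⋀^Fin k]→L[ℝ] ℝ} (hom : Compat k om)
    (hs : ∀ p, ContDiff ℝ ∞ (om p)) (q : Ch) : ContDiff ℝ ∞ (locN D (thN D om) q) := by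
  have h1 := (ContinuousAlternatingMap.compContinuousLinearMapCLM (ι := Fin k) (F := ℝ)
    (LL.symm : E8 →L[ℝ] V4)).contDiff (n := ∞) |>.comp ((hs q).comp LL.symm.contDiff)
  have h2 : locN D (thN D om) q = (ContinuousAlternatingMap.compContinuousLinearMapCLM
    (ι := Fin k) (F := ℝ) (LL.symm : E8 →L[ℝ] V4)) ∘ (om q ∘ LL.symm) := by
    funext y
    exact locN_thN D hom q y
  rw [h2]; exact h1

theorem famN_thN {om : Ch → V4 → V4 [⋀^Fin k]→L[ℝ] ℝ} (hom : Compat k om) :
    famN D (thN D om) = om := by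
  funext q z
  ext v
  change locN D (thN D om) q (LL z) (fun i => LL (v i)) = _
  rw [locN_thN D hom, ContinuousAlternatingMap.compContinuousLinearMap_apply,
    LL.symm_apply_apply]
  congr 1
  funext i
  exact LL.symm_apply_apply _

theorem comp_LL_inj {a b : E8 [⋀^Fin k]→L[ℝ] ℝ}
    (h : a.compContinuousLinearMap (LL : V4 →L[ℝ] E8) =
      b.compContinuousLinearMap (LL : V4 →L[ℝ] E8)) : a = b := by
  ext v
  have h1 := congrArg (fun f : V4 [⋀^Fin k]→L[ℝ] ℝ => f (fun i => LL.symm (v i))) h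
  simpa [ContinuousAlternatingMap.compContinuousLinearMap_apply, Function.comp_def] using h1

theorem extDeriv_famN {θ : M → E8 [⋀^Fin k]→L[ℝ] ℝ} {p : Ch} (h : ContDiff ℝ ∞ (locN D θ p))
    (z : V4) : extDeriv (famN D θ p) z =
      (extDeriv (locN D θ p) (LL z)).compContinuousLinearMap (LL : V4 →L[ℝ] E8) := by
  have h1 : DifferentiableAt ℝ (locN D θ p) (LL z) := h.differentiable (by norm_num) _
  have h2 : ContDiffAt ℝ 2 (fun z : V4 => LL z) z := LL.contDiff.contDiffAt
  have h3 := extDeriv_pullback (𝕜 := ℝ) (r := 2) (f := fun z : V4 => LL z) h1 h2 (by simp)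
  have h4 : ∀ z : V4, fderiv ℝ (fun z : V4 => LL z) z = (LL : V4 →L[ℝ] E8) := fun z =>
    LL.hasFDerivAt.fderiv
  simp only [h4] at h3
  exact h3

theorem extDeriv_iff {θ : M → E8 [⋀^Fin k]→L[ℝ] ℝ} (h : ∀ p, ContDiff ℝ ∞ (locN D θ p))
    (η : M → E8 [⋀^Fin (k + 1)]→L[ℝ] ℝ) :
    (∀ p y, extDeriv (locN D θ p) y = locN D η p y) ↔
      ∀ p z, extDeriv (famN D θ p) z = famN D η p z := by
  constructor
  · intro H p z
    rw [extDeriv_famN D (h p), H]
    rfl
  · intro H p y
    have h1 := H p (LL.symm y)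
    rw [extDeriv_famN D (h p), LL.apply_symm_apply] at h1
    have h2 : famN D η p (LL.symm y) = (locN D η p y).compContinuousLinearMap
        (LL : V4 →L[ℝ] E8) := by
      unfold famN; rw [LL.apply_symm_apply]
    rw [h2] at h1
    exact comp_LL_inj h1

theorem famN_zero (p : Ch) (z : V4) : famN D (fun _ => (0 : E8 [⋀^Fin k]→L[ℝ] ℝ)) p z = 0 := by
  ext v
  rw [famN_apply, ContinuousAlternatingMap.coe_zero, ContinuousAlternatingMap.coe_zero,
    Pi.zero_apply, Pi.zero_apply]

theorem famN_eq (θ : M → E8 [⋀^Fin k]→L[ℝ] ℝ) (p : Ch) (z : V4) :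
    famN D θ p z = (θ ((chart D p).symm (LL z))).compContinuousLinearMap
      ((Bm D p (LL z)) ∘L (LL : V4 →L[ℝ] E8)) := by
  ext v
  rw [famN_apply, ContinuousAlternatingMap.compContinuousLinearMap_apply]
  rfl

theorem fourthPower_apply' {V : Type*} [AddCommGroup V] [Module ℝ V] [TopologicalSpace V]
    (β : V [⋀^Fin 2]→L[ℝ] ℝ) (v : Fin 8 → V) :
    fourthPower β v = (1 / 2 ^ 4 : ℝ) * ∑ σ : Equiv.Perm (Fin 8), (Equiv.Perm.sign σ : ℤˣ) •
      (β ![v (σ 0), v (σ 1)] * β ![v (σ 2), v (σ 3)] *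
        β ![v (σ 4), v (σ 5)] * β ![v (σ 6), v (σ 7)]) := by
  unfold fourthPower
  rw [ContinuousAlternatingMap.smul_apply, smul_eq_mul,
    ContinuousMultilinearMap.alternatization_apply_apply]
  rfl

theorem pow4_apply' {E : Type*} [NormedAddCommGroup E] [NormedSpace ℝ E]
    (α : E [⋀^Fin 2]→L[ℝ] ℝ) (v : Fin 8 → E) :
    pow4 α v = ∑ σ : Equiv.Perm (Fin 8), (Equiv.Perm.sign σ : ℤˣ) •
      (α ![v (σ 0), v (σ 1)] * α ![v (σ 2), v (σ 3)] *
        α ![v (σ 4), v (σ 5)] * α ![v (σ 6), v (σ 7)]) := by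
  simp only [pow4, wedge4, ContinuousMultilinearMap.alternatization_apply_apply]
  rfl

theorem famN_apply_two (θ : M → E8 [⋀^Fin 2]→L[ℝ] ℝ) (p : Ch) (z : V4) (v w : V4) :
    famN D θ p z ![v, w] =
      θ ((chart D p).symm (LL z)) ![Bm D p (LL z) (LL v), Bm D p (LL z) (LL w)] := by
  rw [famN_apply]
  congr 1
  funext l
  fin_cases l <;> rfl

theorem famN_fourthPower (α : M → E8 [⋀^Fin 2]→L[ℝ] ℝ) (p : Ch) (z : V4) :
    famN D (fun x => fourthPower (α x)) p z = (1 / 2 ^ 4 : ℝ) • pow4 (famN D α p z) := by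
  ext v
  rw [famN_apply, fourthPower_apply', ContinuousAlternatingMap.smul_apply, smul_eq_mul,
    pow4_apply']
  simp only [famN_apply_two]

theorem famN_nondeg {θ : M → E8 [⋀^Fin 2]→L[ℝ] ℝ}
    (h : ∀ x v, (∀ w, θ x ![v, w] = 0) → v = 0) (p : Ch) (z : V4) : Nondeg (famN D θ p z) := by
  intro v hv
  have h1 : Bm D p (LL z) (LL v) = 0 := by
    refine h ((chart D p).symm (LL z)) _ fun w => ?_
    have h2 := hv (LL.symm (Am D p ((chart D p).symm (LL z)) w))
    rw [famN_apply] at h2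
    have h3 : (fun i => Bm D p (LL z) (LL (![v, LL.symm (Am D p ((chart D p).symm (LL z)) w)] i)))
        = ![Bm D p (LL z) (LL v), w] := by
      funext i
      fin_cases i
      · rfl
      · change Bm D p (LL z) (LL (LL.symm (Am D p ((chart D p).symm (LL z)) w))) = w
        rw [LL.apply_symm_apply, Bm_Am']
    rwa [h3] at h2
  have h4 := Am_Bm D p (LL z) (LL v)
  rw [h1, map_zero] at h4
  exact (map_eq_zero_iff LL LL.injective).1 h4.symm

end F1

end Pool.Agent.Work.MP_2a78db_gt
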