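import Pool.Agent.Work.MP_2a78db_gt.F1b

/-!
Module F1, third part: almost complex structures on the glued space.
-/

namespace Pool.Agent.Work.MP_2a78db_gt

open scoped Manifold ContDiff Topology

namespace F1

variable {M : Type} [TopologicalSpace M] (D : SpaceData M)

/-- endomorphisms of the tangent spaces attached to a family of endomorphisms on the charts -/
noncomputable def Jn (J : Ch → V4 → (V4 →L[ℝ] V4)) (x : M) : E8 →L[ℝ] E8 :=
  (Bm D (D.cover x).choose (chart D (D.cover x).choose x)) ∘L (LL : V4 →L[ℝ] E8) ∘L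
    (J (D.cover x).choose (D.e (D.cover x).choose x)) ∘L (LL.symm : E8 →L[ℝ] V4) ∘L
    (Am D (D.cover x).choose x)

theorem Am_Jn_choose (J : Ch → V4 → (V4 →L[ℝ] V4)) (x : M) (v : E8) :
    Am D (D.cover x).choose x (Jn D J x v) =
      LL (J (D.cover x).choose (D.e (D.cover x).choose x)
        (LL.symm (Am D (D.cover x).choose x v))) := by
  have h := Am_Bm D (D.cover x).choose (chart D (D.cover x).choose x)
    (LL (J (D.cover x).choose (D.e (D.cover x).choose x)
        (LL.symm (Am D (D.cover x).choose x v))))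
  have h2 : (chart D (D.cover x).choose).symm (chart D (D.cover x).choose x) = x :=
    (chart D (D.cover x).choose).left_inv (D.cover x).choose_spec
  rw [h2] at h
  exact h

theorem Am_Jn {J : Ch → V4 → (V4 →L[ℝ] V4)}
    (hJ : ∀ k l, ∀ z ∈ O k l, ∀ v,
      fderiv ℝ (T k l) z (J k z v) = J l (T k l z) (fderiv ℝ (T k l) z v))
    (q : Ch) {x : M} (hq : x ∈ (D.e q).source) (v : E8) :
    Am D q x (Jn D J x v) = LL (J q (D.e q x) (LL.symm (Am D q x v))) := by
  have hp : x ∈ (D.e (D.cover x).choose).source := (D.cover x).choose_spec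
  have h0 := Am_Jn_choose D J x v
  set p := (D.cover x).choose with hpdef
  have hx : (D.e p).symm (D.e p x) = x := (D.e p).left_inv hp
  have hz : D.e p x ∈ O p q := by
    have : D.e p x ∈ (D.e p).symm ⁻¹' (D.e q).source := by
      change (D.e p).symm (D.e p x) ∈ (D.e q).source
      rw [hx]; exact hq
    rwa [D.overlap] at this
  have h3 : T p q (D.e p x) = D.e q x := by
    rw [← D.trans p q _ hz, hx]
  rw [← Am_trans D p q hp hq, h0, LL.symm_apply_apply, hJ p q _ hz, h3, ← Am_trans D p q hp hq v,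
    LL.symm_apply_apply]

theorem Am_injective (p : Ch) {x : M} (hp : x ∈ (D.e p).source) {v w : E8}
    (h : Am D p x v = Am D p x w) : v = w := by
  have h1 := Bm_Am D p (x := x) hp v
  have h2 := Bm_Am D p (x := x) hp w
  rw [← h1, ← h2, h]

theorem Jn_sq {J : Ch → V4 → (V4 →L[ℝ] V4)} (h2 : ∀ k z v, J k z (J k z v) = -v) (x : M)
    (v : E8) : Jn D J x (Jn D J x v) = -v := by
  refine Am_injective D (D.cover x).choose (D.cover x).choose_spec ?_
  rw [Am_Jn_choose, Am_Jn_choose, LL.symm_apply_apply, h2, map_neg, LL.apply_symm_apply, map_neg]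

theorem triv_snd (x₀ : M) {x : M} (hx : x ∈ (chart D (D.cover x₀).choose).source) (v : E8) :
    letI := cs D
    haveI := isM D
    ((trivializationAt E8 (TangentSpace (𝓡 8)) x₀)
      (⟨x, v⟩ : TangentBundle (𝓡 8) M)).2 = Am D (D.cover x₀).choose x v := by
  let := cs D
  have := isM D
  have : IsManifold (𝓡 8) 1 M := IsManifold.of_le (n := ∞) (by norm_num)
  have hx' : x ∈ (chartAt E8 x₀).source := hx
  have h1 := TangentBundle.continuousLinearMapAt_trivializationAt (I := 𝓡 8) hx'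
  have h2 := congrArg (fun f : E8 →L[ℝ] E8 => f v) h1
  have h3 : (trivializationAt E8 (TangentSpace (𝓡 8)) x₀).continuousLinearMapAt ℝ x v =
      ((trivializationAt E8 (TangentSpace (𝓡 8)) x₀) (⟨x, v⟩ : TangentBundle (𝓡 8) M)).2 := by
    rw [Bundle.Trivialization.continuousLinearMapAt_apply,
      Bundle.Trivialization.coe_linearMapAt_of_mem]
    simpa using hx'
  rw [← h3]
  refine h2.trans ?_
  rfl

theorem Jn_smooth {J : Ch → V4 → (V4 →L[ℝ] V4)} (hs : ∀ k, ContDiff ℝ ∞ (J k))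
    (hJ : ∀ k l, ∀ z ∈ O k l, ∀ v,
      fderiv ℝ (T k l) z (J k z v) = J l (T k l z) (fderiv ℝ (T k l) z v)) :
    letI := cs D
    haveI := isM D
    ContMDiff (𝓡 8).tangent (𝓡 8).tangent ∞
      (fun p : TangentBundle (𝓡 8) M =>
        (⟨p.1, Jn D J p.1 p.2⟩ : TangentBundle (𝓡 8) M)) := by
  let := cs D
  have := isM D
  have : IsManifold (𝓡 8) 1 M := IsManifold.of_le (n := ∞) (by norm_num)
  intro x₀
  have hid := (Bundle.contMDiffAt_totalSpace (n := ∞) (IM := (𝓡 8).tangent) (IB := 𝓡 8)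
    (f := fun x : TangentBundle (𝓡 8) M => x) (x₀ := x₀)).1 contMDiffAt_id
  rw [Bundle.contMDiffAt_totalSpace]
  refine ⟨hid.1, ?_⟩
  set p := (D.cover x₀.proj).choose with hp
  have hchart : ContMDiffAt (𝓡 8) 𝓘(ℝ, E8) ∞ (chart D p) x₀.proj :=
    contMDiffAt_of_mem_maximalAtlas
      (IsManifold.subset_maximalAtlas (I := 𝓡 8) (n := ∞) (⟨p, rfl⟩ : chart D p ∈ atlas E8 M))
      (D.cover x₀.proj).choose_spec
  have hJs : ContDiff ℝ ∞ (fun y : E8 => (LL : V4 →L[ℝ] E8) ∘L (J p (LL.symm y)) ∘L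
      (LL.symm : E8 →L[ℝ] V4)) :=
    contDiff_const.clm_comp (((hs p).comp LL.symm.contDiff).clm_comp contDiff_const)
  have h1 : ContMDiffAt (𝓡 8).tangent 𝓘(ℝ, E8 →L[ℝ] E8) ∞
      (fun x : TangentBundle (𝓡 8) M => (LL : V4 →L[ℝ] E8) ∘L
        (J p (LL.symm (chart D p x.proj))) ∘L (LL.symm : E8 →L[ℝ] V4)) x₀ :=
    hJs.contMDiff.contMDiffAt.comp x₀ (hchart.comp x₀ hid.1)
  have h2 := h1.clm_apply hid.2
  refine h2.congr_of_eventuallyEq ?_
  have hopen : IsOpen ((fun x : TangentBundle (𝓡 8) M => x.proj) ⁻¹' (chart D p).source) :=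
    (chart D p).open_source.preimage (FiberBundle.continuous_proj E8 _)
  filter_upwards [hopen.mem_nhds (D.cover x₀.proj).choose_spec] with x hx
  have h3 := triv_snd D x₀.proj hx (Jn D J x.proj x.2)
  have h4 := triv_snd D x₀.proj hx x.2
  refine h3.trans ?_
  have h5 : LL.symm (chart D p x.proj) = D.e p x.proj := LL.symm_apply_apply _
  rw [Am_Jn D hJ p hx, ← h4]
  change _ = LL (J p (LL.symm (chart D p x.proj)) (LL.symm _))
  rw [h5]

end F1

end Pool.Agent.Work.MP_2a78db_gt
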