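import Pool.Agent.Work.MP_2a78db_gt.C3

/-!
Module F2, first part: the wedge product of four 2-forms is symmetric and multilinear; the
integral of the fourth power of `t α + d β`.
-/

namespace Pool.Agent.Work.MP_2a78db_gt

namespace F2

open Equiv MeasureTheory
open scoped ContDiff Topology

/-- The wedge product of four 2-forms evaluated on the standard basis. -/
noncomputable def W (a b c d : V4 [⋀^Fin 2]→L[ℝ] ℝ) : ℝ := wedge4 ![a, b, c, d] stdB

/-- The function of 8 vectors which is antisymmetrized in `W`. -/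
noncomputable def wf (a b c d : V4 [⋀^Fin 2]→L[ℝ] ℝ) (v : Fin 8 → V4) : ℝ :=
  a ![v 0, v 1] * b ![v 2, v 3] * c ![v 4, v 5] * d ![v 6, v 7]

theorem W_eq (a b c d : V4 [⋀^Fin 2]→L[ℝ] ℝ) : W a b c d = D0.alt (wf a b c d) stdB := by
  unfold W D0.alt
  rw [D0.wedge4_apply]
  rfl

theorem W_add (a a' b c d : V4 [⋀^Fin 2]→L[ℝ] ℝ) :
    W (a + a') b c d = W a b c d + W a' b c d := by
  rw [W_eq, W_eq, W_eq, ← D0.alt_add]
  congr 1
  funext v
  have h : (a + a') ![v 0, v 1] = a ![v 0, v 1] + a' ![v 0, v 1] := rfl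
  simp only [wf, h]
  ring

theorem W_smul (t : ℝ) (a b c d : V4 [⋀^Fin 2]→L[ℝ] ℝ) :
    W (t • a) b c d = t * W a b c d := by
  rw [W_eq, W_eq]
  unfold D0.alt
  rw [Finset.mul_sum]
  refine Finset.sum_congr rfl fun σ _ => ?_
  have h : ∀ x y, (t • a) ![x, y] = t * a ![x, y] := fun x y => rfl
  simp only [wf, h]
  ring

theorem alt_perm (g g' : (Fin 8 → V4) → ℝ) (τ : Perm (Fin 8)) (hτ : Perm.sign τ = 1)
    (h : ∀ v, g' v = g (v ∘ τ)) (v : Fin 8 → V4) : D0.alt g' v = D0.alt g v := by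
  have h1 : g' = fun v => g (v ∘ τ) := funext h
  rw [h1, D0.alt_mul_perm g v τ, hτ]
  simp

theorem W_swap1 (a b c d : V4 [⋀^Fin 2]→L[ℝ] ℝ) : W b a c d = W a b c d := by
  rw [W_eq, W_eq]
  refine alt_perm _ _ (swap 0 2 * swap 1 3) (by decide) (fun v => ?_) _
  have e0 : (v ∘ ⇑(swap 0 2 * swap 1 3 : Perm (Fin 8))) 0 = v 2 := congrArg v (by decide)
  have e1 : (v ∘ ⇑(swap 0 2 * swap 1 3 : Perm (Fin 8))) 1 = v 3 := congrArg v (by decide)
  have e2 : (v ∘ ⇑(swap 0 2 * swap 1 3 : Perm (Fin 8))) 2 = v 0 := congrArg v (by decide)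
  have e3 : (v ∘ ⇑(swap 0 2 * swap 1 3 : Perm (Fin 8))) 3 = v 1 := congrArg v (by decide)
  have e4 : (v ∘ ⇑(swap 0 2 * swap 1 3 : Perm (Fin 8))) 4 = v 4 := congrArg v (by decide)
  have e5 : (v ∘ ⇑(swap 0 2 * swap 1 3 : Perm (Fin 8))) 5 = v 5 := congrArg v (by decide)
  have e6 : (v ∘ ⇑(swap 0 2 * swap 1 3 : Perm (Fin 8))) 6 = v 6 := congrArg v (by decide)
  have e7 : (v ∘ ⇑(swap 0 2 * swap 1 3 : Perm (Fin 8))) 7 = v 7 := congrArg v (by decide)
  unfold wf
  rw [e0, e1, e2, e3, e4, e5, e6, e7]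
  ring

theorem W_swap2 (a b c d : V4 [⋀^Fin 2]→L[ℝ] ℝ) : W c b a d = W a b c d := by
  rw [W_eq, W_eq]
  refine alt_perm _ _ (swap 0 4 * swap 1 5) (by decide) (fun v => ?_) _
  have e0 : (v ∘ ⇑(swap 0 4 * swap 1 5 : Perm (Fin 8))) 0 = v 4 := congrArg v (by decide)
  have e1 : (v ∘ ⇑(swap 0 4 * swap 1 5 : Perm (Fin 8))) 1 = v 5 := congrArg v (by decide)
  have e2 : (v ∘ ⇑(swap 0 4 * swap 1 5 : Perm (Fin 8))) 2 = v 2 := congrArg v (by decide)
  have e3 : (v ∘ ⇑(swap 0 4 * swap 1 5 : Perm (Fin 8))) 3 = v 3 := congrArg v (by decide)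
  have e4 : (v ∘ ⇑(swap 0 4 * swap 1 5 : Perm (Fin 8))) 4 = v 0 := congrArg v (by decide)
  have e5 : (v ∘ ⇑(swap 0 4 * swap 1 5 : Perm (Fin 8))) 5 = v 1 := congrArg v (by decide)
  have e6 : (v ∘ ⇑(swap 0 4 * swap 1 5 : Perm (Fin 8))) 6 = v 6 := congrArg v (by decide)
  have e7 : (v ∘ ⇑(swap 0 4 * swap 1 5 : Perm (Fin 8))) 7 = v 7 := congrArg v (by decide)
  unfold wf
  rw [e0, e1, e2, e3, e4, e5, e6, e7]
  ring

theorem W_swap3 (a b c d : V4 [⋀^Fin 2]→L[ℝ] ℝ) : W d b c a = W a b c d := by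
  rw [W_eq, W_eq]
  refine alt_perm _ _ (swap 0 6 * swap 1 7) (by decide) (fun v => ?_) _
  have e0 : (v ∘ ⇑(swap 0 6 * swap 1 7 : Perm (Fin 8))) 0 = v 6 := congrArg v (by decide)
  have e1 : (v ∘ ⇑(swap 0 6 * swap 1 7 : Perm (Fin 8))) 1 = v 7 := congrArg v (by decide)
  have e2 : (v ∘ ⇑(swap 0 6 * swap 1 7 : Perm (Fin 8))) 2 = v 2 := congrArg v (by decide)
  have e3 : (v ∘ ⇑(swap 0 6 * swap 1 7 : Perm (Fin 8))) 3 = v 3 := congrArg v (by decide)
  have e4 : (v ∘ ⇑(swap 0 6 * swap 1 7 : Perm (Fin 8))) 4 = v 4 := congrArg v (by decide)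
  have e5 : (v ∘ ⇑(swap 0 6 * swap 1 7 : Perm (Fin 8))) 5 = v 5 := congrArg v (by decide)
  have e6 : (v ∘ ⇑(swap 0 6 * swap 1 7 : Perm (Fin 8))) 6 = v 0 := congrArg v (by decide)
  have e7 : (v ∘ ⇑(swap 0 6 * swap 1 7 : Perm (Fin 8))) 7 = v 1 := congrArg v (by decide)
  unfold wf
  rw [e0, e1, e2, e3, e4, e5, e6, e7]
  ring

theorem const_vec (a : V4 [⋀^Fin 2]→L[ℝ] ℝ) : (fun _ : Fin 4 => a) = ![a, a, a, a] := by
  funext i; fin_cases i <;> rfl

theorem pow4_vec (a : V4 [⋀^Fin 2]→L[ℝ] ℝ) : pow4 a = wedge4 ![a, a, a, a] :=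
  (show pow4 a = wedge4 (fun _ : Fin 4 => a) from rfl).trans (congrArg wedge4 (const_vec a))

theorem W_diag (a : V4 [⋀^Fin 2]→L[ℝ] ℝ) : pow4 a stdB = W a a a a := by
  rw [pow4_vec, W]

/-- Telescoping expansion of the fourth power of `t α + B`. -/
theorem W_expand (a b o : V4 [⋀^Fin 2]→L[ℝ] ℝ) (t : ℝ) (h : o = t • a + b) :
    W o o o o = t ^ 4 * W a a a a + (W b o o o + (W b (t • a) o o +
      (W b (t • a) (t • a) o + W b (t • a) (t • a) (t • a)))) := by
  have h0 : W o o o o = W (t • a) o o o + W b o o o := by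
    conv_lhs => rw [show W o o o o = W (t • a + b) o o o from by rw [← h]]
    exact W_add _ _ _ _ _
  have h1 : W (t • a) o o o = W (t • a) (t • a) o o + W b (t • a) o o := by
    rw [← W_swap1 (t • a) o o o]
    conv_lhs => rw [show W o (t • a) o o = W (t • a + b) (t • a) o o from by rw [← h]]
    exact W_add _ _ _ _ _
  have h2 : W (t • a) (t • a) o o = W (t • a) (t • a) (t • a) o + W b (t • a) (t • a) o := by
    rw [← W_swap2 (t • a) (t • a) o o]
    conv_lhs => rw [show W o (t • a) (t • a) o = W (t • a + b) (t • a) (t • a) o from by rw [← h]]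
    exact W_add _ _ _ _ _
  have h3 : W (t • a) (t • a) (t • a) o =
      W (t • a) (t • a) (t • a) (t • a) + W b (t • a) (t • a) (t • a) := by
    rw [← W_swap3 (t • a) (t • a) (t • a) o]
    conv_lhs => rw [show W o (t • a) (t • a) (t • a) = W (t • a + b) (t • a) (t • a) (t • a) from
      by rw [← h]]
    exact W_add _ _ _ _ _
  have h4 : W (t • a) (t • a) (t • a) (t • a) = t ^ 4 * W a a a a := by
    rw [W_smul, ← W_swap1, W_smul, ← W_swap2, W_smul, ← W_swap3, W_smul]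
    ring
  rw [h0, h1, h2, h3, h4]
  ring

theorem W_continuous {X : Type*} [TopologicalSpace X] (a b c d : X → V4 [⋀^Fin 2]→L[ℝ] ℝ)
    (ha : Continuous a) (hb : Continuous b) (hc : Continuous c) (hd : Continuous d) :
    Continuous fun z => W (a z) (b z) (c z) (d z) := by
  have e : ∀ (f : X → V4 [⋀^Fin 2]→L[ℝ] ℝ), Continuous f → ∀ v, Continuous fun z => f z v :=
    fun f hf v => (ContinuousAlternatingMap.apply ℝ V4 ℝ v).continuous.comp hf
  exact C3.wedge4_continuous a b c d (e a ha) (e b hb) (e c hc) (e d hd) stdB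

/-- Integrability of the wedge product of four compatible families of 2-forms. -/
theorem integrable_W {M : Type} [TopologicalSpace M] [T2Space M] [CompactSpace M]
    (D : SpaceData M) (a b c d : Ch → V4 → V4 [⋀^Fin 2]→L[ℝ] ℝ)
    (ha : ∀ k, Continuous (a k)) (hb : ∀ k, Continuous (b k)) (hc : ∀ k, Continuous (c k))
    (hd : ∀ k, Continuous (d k)) (ca : Compat 2 a) (cb : Compat 2 b) (cc : Compat 2 c)
    (cd : Compat 2 d) : Integrable fun z => W (a .c z) (b .c z) (c .c z) (d .c z) := by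
  obtain ⟨ψ, hψs, hψc, hsup, hsum, hψ⟩ := exists_partition D
  have h1 : (fun z => W (a .c z) (b .c z) (c .c z) (d .c z)) =
      fun z => ∑ k, ψ k .c z * W (a .c z) (b .c z) (c .c z) (d .c z) := by
    funext z
    rw [← Finset.sum_mul, hsum, one_mul]
  rw [h1]
  refine integrable_finsetSum _ fun k _ => ?_
  refine (C3.cov D k _ (fun z => ψ k k z * W (a k z) (b k z) (c k z) (d k z)) ?_ ?_ ?_).1
  · exact ((hψs k k).continuous.mul (W_continuous _ _ _ _ (ha k) (hb k) (hc k)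
      (hd k))).integrable_of_hasCompactSupport (hψc k).mul_right
  · intro z hz
    have h2 : W (a .c z) (b .c z) (c .c z) (d .c z) = (fderiv ℝ (T .c k) z).det *
        W (a k (T .c k z)) (b k (T .c k z)) (c k (T .c k z)) (d k (T .c k z)) :=
      C3.wedge_top_gen D0.b8 stdB D0.b8_eq _ _ _ _ _ _ _ _ _
        (C3.ev2 _ _ _ (ca .c k z hz)) (C3.ev2 _ _ _ (cb .c k z hz))
        (C3.ev2 _ _ _ (cc .c k z hz)) (C3.ev2 _ _ _ (cd .c k z hz))
    rw [h2, hψ k .c k z hz]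
    ring
  · intro z hz
    have h2 : ψ k .c z = 0 := image_eq_zero_of_notMem_tsupport fun h => hz (hsup k .c h)
    rw [h2, zero_mul]

theorem compat_smul (t : ℝ) {a : Ch → V4 → V4 [⋀^Fin 2]→L[ℝ] ℝ} (ha : Compat 2 a) :
    Compat 2 fun k z => t • a k z := by
  intro p q z hz
  change t • a p z = _
  rw [ha p q z hz]
  rfl

theorem compat_sub {a b : Ch → V4 → V4 [⋀^Fin 2]→L[ℝ] ℝ} (ha : Compat 2 a) (hb : Compat 2 b) :
    Compat 2 fun k z => a k z - b k z := by
  intro p q z hz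
  change a p z - b p z = _
  rw [ha p q z hz, hb p q z hz]
  rfl

theorem ext_smul (t : ℝ) (a : V4 → V4 [⋀^Fin 2]→L[ℝ] ℝ) (z : V4)
    (h : extDeriv a z = 0) : extDeriv (fun z => t • a z) z = 0 := by
  have h1 : extDeriv (fun z => t • a z) z = t • extDeriv a z := extDeriv_smul t a
  rw [h1, h, smul_zero]

/-- Stokes: the integral of a wedge product with an exact factor vanishes. -/
theorem stokes_W {M : Type} [TopologicalSpace M] [T2Space M] [CompactSpace M]
    (D : SpaceData M) (β : Ch → V4 → V4 [⋀^Fin 1]→L[ℝ] ℝ) (hβ : ∀ k, ContDiff ℝ 1 (β k))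
    (hβc : Compat 1 β) (B : Ch → V4 → V4 [⋀^Fin 2]→L[ℝ] ℝ)
    (hB : ∀ z, B .c z = extDeriv (β .c) z) (o1 o2 o3 : Ch → V4 → V4 [⋀^Fin 2]→L[ℝ] ℝ)
    (h1 : ∀ k, ContDiff ℝ 1 (o1 k)) (h2 : ∀ k, ContDiff ℝ 1 (o2 k))
    (h3 : ∀ k, ContDiff ℝ 1 (o3 k)) (c1 : Compat 2 o1) (c2 : Compat 2 o2) (c3 : Compat 2 o3)
    (d1 : ∀ k z, extDeriv (o1 k) z = 0) (d2 : ∀ k z, extDeriv (o2 k) z = 0)
    (d3 : ∀ k z, extDeriv (o3 k) z = 0) :
    ∫ z, W (B .c z) (o1 .c z) (o2 .c z) (o3 .c z) = 0 := by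
  have h := stokes_wedge D β hβ hβc o1 o2 o3 h1 h2 h3 c1 c2 c3 d1 d2 d3
  have h4 : (fun z => W (B .c z) (o1 .c z) (o2 .c z) (o3 .c z)) =
      fun z => wedge4 ![extDeriv (β .c) z, o1 .c z, o2 .c z, o3 .c z] stdB := by
    funext z
    exact (wedge_ext_eq (β .c) (o1 .c) (o2 .c) (o3 .c) (B .c) hB z).symm
  rw [h4]
  exact h

/-- The integral of the fourth power of `t α + d β`. -/
theorem integral_pow4 {M : Type} [TopologicalSpace M] [T2Space M] [CompactSpace M]
    (D : SpaceData M) (α om : Ch → V4 → V4 [⋀^Fin 2]→L[ℝ] ℝ)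
    (β : Ch → V4 → V4 [⋀^Fin 1]→L[ℝ] ℝ) (t : ℝ)
    (hα : ∀ k, ContDiff ℝ 1 (α k)) (hom : ∀ k, ContDiff ℝ 1 (om k)) (cα : Compat 2 α)
    (com : Compat 2 om) (dα : ∀ k z, extDeriv (α k) z = 0) (dom : ∀ k z, extDeriv (om k) z = 0)
    (hβ : ∀ k, ContDiff ℝ 1 (β k)) (hβc : Compat 1 β)
    (h : ∀ k z, om k z = t • α k z + extDeriv (β k) z) :
    ∫ z, pow4 (om .c z) stdB = t ^ 4 * ∫ z, pow4 (α .c z) stdB := by
  obtain ⟨B, hBd⟩ : ∃ B : Ch → V4 → V4 [⋀^Fin 2]→L[ℝ] ℝ, B = fun k z => om k z - t • α k z :=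
    ⟨_, rfl⟩
  obtain ⟨A, hAd⟩ : ∃ A : Ch → V4 → V4 [⋀^Fin 2]→L[ℝ] ℝ, A = fun k z => t • α k z := ⟨_, rfl⟩
  have cA : Compat 2 A := hAd ▸ compat_smul t cα
  have cB : Compat 2 B := hBd ▸ compat_sub com (compat_smul t cα)
  have hA : ∀ k, ContDiff ℝ 1 (A k) := fun k => by
    rw [hAd]; exact (hα k).const_smul t
  have hBc : ∀ k, Continuous (B k) := fun k => by
    rw [hBd]; exact (hom k).continuous.sub ((hα k).const_smul t).continuous
  have dA : ∀ k z, extDeriv (A k) z = 0 := fun k z => by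
    rw [hAd]; exact ext_smul t (α k) z (dα k z)
  have hBe : ∀ z, B .c z = extDeriv (β .c) z := by
    intro z
    rw [hBd]
    change om .c z - t • α .c z = _
    rw [sub_eq_iff_eq_add']
    exact h .c z
  have hoA : ∀ z, om .c z = t • α .c z + B .c z := by
    intro z
    rw [hBd]
    exact (add_sub_cancel _ _).symm
  have cont : ∀ {f : Ch → V4 → V4 [⋀^Fin 2]→L[ℝ] ℝ}, (∀ k, ContDiff ℝ 1 (f k)) →
      ∀ k, Continuous (f k) := fun hf k => (hf k).continuous
  have e : ∀ z, pow4 (om .c z) stdB = t ^ 4 * pow4 (α .c z) stdB +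
      (W (B .c z) (om .c z) (om .c z) (om .c z) + (W (B .c z) (A .c z) (om .c z) (om .c z) +
      (W (B .c z) (A .c z) (A .c z) (om .c z) + W (B .c z) (A .c z) (A .c z) (A .c z)))) := by
    intro z
    rw [W_diag, W_diag]
    have hA' : A .c z = t • α .c z := by rw [hAd]
    rw [hA']
    exact W_expand _ _ _ t (hoA z)
  have i0 : Integrable fun z => t ^ 4 * pow4 (α .c z) stdB := by
    have h1 := integrable_W D α α α α (cont hα) (cont hα) (cont hα) (cont hα) cα cα cα cα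
    have h2 : (fun z => t ^ 4 * pow4 (α .c z) stdB) =
        fun z => t ^ 4 * W (α .c z) (α .c z) (α .c z) (α .c z) :=
      funext fun z => by rw [W_diag]
    rw [h2]
    exact h1.const_mul _
  have i1 := integrable_W D B om om om hBc (cont hom) (cont hom) (cont hom) cB com com com
  have i2 := integrable_W D B A om om hBc (cont hA) (cont hom) (cont hom) cB cA com com
  have i3 := integrable_W D B A A om hBc (cont hA) (cont hA) (cont hom) cB cA cA com
  have i4 := integrable_W D B A A A hBc (cont hA) (cont hA) (cont hA) cB cA cA cA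
  have s1 := stokes_W D β hβ hβc B hBe om om om hom hom hom com com com dom dom dom
  have s2 := stokes_W D β hβ hβc B hBe A om om hA hom hom cA com com dA dom dom
  have s3 := stokes_W D β hβ hβc B hBe A A om hA hA hom cA cA com dA dA dom
  have s4 := stokes_W D β hβ hβc B hBe A A A hA hA hA cA cA cA dA dA dA
  have j3 : Integrable fun z => W (B .c z) (A .c z) (A .c z) (om .c z) +
      W (B .c z) (A .c z) (A .c z) (A .c z) := i3.add i4
  have j2 : Integrable fun z => W (B .c z) (A .c z) (om .c z) (om .c z) +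
      (W (B .c z) (A .c z) (A .c z) (om .c z) + W (B .c z) (A .c z) (A .c z) (A .c z)) :=
    i2.add j3
  have j1 : Integrable fun z => W (B .c z) (om .c z) (om .c z) (om .c z) +
      (W (B .c z) (A .c z) (om .c z) (om .c z) +
      (W (B .c z) (A .c z) (A .c z) (om .c z) + W (B .c z) (A .c z) (A .c z) (A .c z))) :=
    i1.add j2
  rw [integral_congr_ae (Filter.Eventually.of_forall e), integral_add i0 j1,
    integral_add i1 j2, integral_add i2 j3, integral_add i3 i4, s1, s2, s3, s4,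
    integral_const_mul]
  ring

end F2

end Pool.Agent.Work.MP_2a78db_gt
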