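import Mathlib

/-!
The sign of an invertible hermitian matrix (continuous functional calculus).
-/

namespace Pool.Agent.Work.MP_2a78db_gt.Polar

open Matrix
open scoped Matrix.Norms.L2Operator Topology

variable {ι : Type} [Fintype ι] [DecidableEq ι]

/-- sign function -/
noncomputable def sgf (x : ℝ) : ℝ := x / |x|

theorem sgf_continuousOn : ContinuousOn sgf {x | x ≠ 0} := by
  unfold sgf
  apply ContinuousOn.div continuousOn_id continuous_abs.continuousOn
  intro x hx
  exact abs_ne_zero.2 hx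

/-- sign of a hermitian matrix -/
noncomputable def sgm (H : Matrix ι ι ℂ) : Matrix ι ι ℂ := cfc sgf H

theorem spec_sub {H : Matrix ι ι ℂ} (hu : IsUnit H) : spectrum ℝ H ⊆ {x | x ≠ 0} := by
  intro x hx h0
  subst h0
  exact (spectrum.zero_notMem_iff ℝ).2 hu hx

theorem sgf_cont_spec {H : Matrix ι ι ℂ} (hu : IsUnit H) : ContinuousOn sgf (spectrum ℝ H) :=
  sgf_continuousOn.mono (spec_sub hu)

theorem sgm_sa {H : Matrix ι ι ℂ} : IsSelfAdjoint (sgm H) := cfc_predicate _ _

theorem sgm_sq {H : Matrix ι ι ℂ} (hH : IsSelfAdjoint H) (hu : IsUnit H) :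
    sgm H * sgm H = 1 := by
  unfold sgm
  rw [← cfc_mul sgf sgf H (sgf_cont_spec hu) (sgf_cont_spec hu), ← cfc_one ℝ H]
  apply cfc_congr
  intro x hx
  have h0 : x ≠ 0 := spec_sub hu hx
  have h1 : |x| ≠ 0 := abs_ne_zero.2 h0
  simp only [sgf]
  rw [div_mul_div_comm, abs_mul_abs_self]
  rw [div_self (mul_ne_zero h0 h0)]
  rfl

theorem sgm_unitary {H U : Matrix ι ι ℂ} (hH : IsSelfAdjoint H) (hu : IsUnit H)
    (hU : U ∈ unitary (Matrix ι ι ℂ)) : sgm (U * H * star U) = U * sgm H * star U := by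
  unfold sgm
  have h := StarAlgHomClass.map_cfc (S := ℂ) (R := ℝ)
    (Unitary.conjStarAlgAut ℂ (Matrix ι ι ℂ) ⟨U, hU⟩) sgf H
    (sgf_cont_spec hu) ?_ hH ?_
  · rw [Unitary.conjStarAlgAut_apply, Unitary.conjStarAlgAut_apply] at h
    exact h.symm
  · show Continuous fun x => U * x * star U
    fun_prop
  · rw [Unitary.conjStarAlgAut_apply]
    show star (U * H * star U) = U * H * star U
    rw [star_mul, star_mul, star_star, hH.star_eq, mul_assoc]

/-- entrywise conjugation as a real star algebra homomorphism -/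
noncomputable def conjHom : Matrix ι ι ℂ →⋆ₐ[ℝ] Matrix ι ι ℂ where
  toFun A := A.map (starRingEnd ℂ)
  map_one' := by
    ext i j; simp [Matrix.one_apply, apply_ite (starRingEnd ℂ)]
  map_mul' A B := by
    ext i j; simp [Matrix.mul_apply, map_sum]
  map_zero' := by ext i j; simp
  map_add' A B := by ext i j; simp
  commutes' r := by
    ext i j
    simp [Matrix.algebraMap_matrix_apply, apply_ite (starRingEnd ℂ)]
  map_star' A := by
    ext i j; simp [Matrix.star_apply]

theorem sgm_conj {H : Matrix ι ι ℂ} (hH : IsSelfAdjoint H) (hu : IsUnit H) :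
    sgm (H.map (starRingEnd ℂ)) = (sgm H).map (starRingEnd ℂ) := by
  unfold sgm
  have h := StarAlgHomClass.map_cfc (S := ℝ) (R := ℝ) (conjHom (ι := ι)) sgf H
    (sgf_cont_spec hu) ?_ hH ?_
  · exact h.symm
  · show Continuous fun A : Matrix ι ι ℂ => A.map (starRingEnd ℂ)
    exact Continuous.matrix_map continuous_id Complex.continuous_conj
  · show star (conjHom H) = conjHom H
    rw [← map_star, hH.star_eq]

theorem sgm_neg {H : Matrix ι ι ℂ} (hH : IsSelfAdjoint H) (hu : IsUnit H) :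
    sgm (-H) = - sgm H := by
  unfold sgm
  rw [← cfc_neg sgf H, ← cfc_comp_neg sgf H ?_ hH]
  · apply cfc_congr
    intro x _
    simp [sgf, neg_div]
  · apply sgf_continuousOn.mono
    rintro y ⟨x, hx, rfl⟩
    exact neg_ne_zero.2 (spec_sub hu hx)

theorem sgm_mulVec {H : Matrix ι ι ℂ} (hH : IsSelfAdjoint H) (hu : IsUnit H) {v : ι → ℂ}
    (hv : H *ᵥ (H *ᵥ v) = v) : sgm H *ᵥ v = H *ᵥ v := by
  have habs : ContinuousOn (fun x : ℝ => |x|) (spectrum ℝ H) := continuous_abs.continuousOn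
  have hK : ContinuousOn (fun x : ℝ => (|x| + 1)⁻¹) (spectrum ℝ H) := by
    apply ContinuousOn.inv₀
    · exact (continuous_abs.add continuous_const).continuousOn
    · intro x _; positivity
  have hP : ContinuousOn (fun x : ℝ => |x| + 1) (spectrum ℝ H) :=
    (continuous_abs.add continuous_const).continuousOn
  set A := cfc (fun x : ℝ => |x|) H with hA
  have hAA : A * A = H * H := by
    rw [hA, ← cfc_mul _ _ H habs habs]
    conv_rhs => rw [← cfc_id ℝ H]
    rw [← cfc_mul _ _ H continuousOn_id continuousOn_id]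
    apply cfc_congr
    intro x _
    simp
  have hA1 : A + 1 = cfc (fun x : ℝ => |x| + 1) H := by
    rw [cfc_add_const 1 (fun x : ℝ => |x|) H habs]
    simp [hA]
  have hinv : cfc (fun x : ℝ => (|x| + 1)⁻¹) H * (A + 1) = 1 := by
    rw [hA1, ← cfc_mul _ _ H hK hP, ← cfc_one ℝ H]
    apply cfc_congr
    intro x _
    have : |x| + 1 ≠ 0 := by positivity
    simp [this]
  have hAv : A *ᵥ v = v := by
    have h1 : (A + 1) *ᵥ (A *ᵥ v - v) = 0 := by
      rw [Matrix.mulVec_sub, Matrix.add_mulVec, Matrix.add_mulVec, Matrix.one_mulVec,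
        Matrix.one_mulVec, Matrix.mulVec_mulVec, hAA, ← Matrix.mulVec_mulVec, hv]
      abel
    have h2 := congrArg (fun w => cfc (fun x : ℝ => (|x| + 1)⁻¹) H *ᵥ w) h1
    simp only [Matrix.mulVec_mulVec, hinv, Matrix.one_mulVec, Matrix.mulVec_zero] at h2
    exact sub_eq_zero.1 h2
  have hSA : sgm H * A = H := by
    unfold sgm
    rw [hA, ← cfc_mul _ _ H (sgf_cont_spec hu) habs]
    conv_rhs => rw [← cfc_id ℝ H]
    apply cfc_congr
    intro x hx
    have h0 : x ≠ 0 := spec_sub hu hx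
    simp only [sgf, id]
    exact div_mul_cancel₀ x (abs_ne_zero.2 h0)
  calc sgm H *ᵥ v = sgm H *ᵥ (A *ᵥ v) := by rw [hAv]
    _ = H *ᵥ v := by rw [Matrix.mulVec_mulVec, hSA]

theorem sgm_continuous {X : Type*} [TopologicalSpace X] {H : X → Matrix ι ι ℂ}
    (hc : Continuous H) (hH : ∀ x, IsSelfAdjoint (H x)) (hu : ∀ x, IsUnit (H x)) :
    Continuous fun x => sgm (H x) := by
  unfold sgm
  refine Continuous.cfc_of_mem_nhdsSet (s := {x : ℝ | x ≠ 0}) sgf ?_ hc hH sgf_continuousOn
  rw [IsOpen.mem_nhdsSet isOpen_ne]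
  intro x hx
  obtain ⟨y, hy⟩ := Set.mem_iUnion.1 hx
  exact spec_sub (hu y) hy

end Pool.Agent.Work.MP_2a78db_gt.Polar
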