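import Pool.Agent.Work.MP_2a78db_gt.Chir
import Pool.Agent.Work.MP_2a78db_gt.Polar

/-!
The orthogonal complex structure attached to a nondegenerate skew form.
-/

namespace Pool.Agent.Work.MP_2a78db_gt.Cliff

open Matrix Fock Polar
open scoped Matrix.Norms.L2Operator

/-- complexified real coordinates -/
noncomputable def cc (v : V5) : RI → ℂ := fun k => ((co v k : ℝ) : ℂ)

theorem cc_injective {v w : V5} (h : cc v = cc w) : v = w := by
  apply co_injective
  funext k
  exact Complex.ofReal_injective (congrFun h k)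

theorem cc_neg (v : V5) : cc (-v) = - cc v := by
  funext k
  have := congrFun (co_smul (-1) v) k
  simp only [neg_smul, one_smul, Pi.neg_apply] at this
  simp only [cc, Pi.neg_apply, this, Complex.ofReal_neg]

/-- matrix of a real linear map -/
noncomputable def mat (A : V5 →ₗ[ℝ] V5) : Matrix RI RI ℂ :=
  Matrix.of fun k l => ((co (A (fb l)) k : ℝ) : ℂ)

theorem co_map (A : V5 →ₗ[ℝ] V5) (v : V5) (k : RI) :
    co (A v) k = ∑ l, co (A (fb l)) k * co v l := by
  conv_lhs => rw [expand_fb v, map_sum, co_sum]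
  refine Finset.sum_congr rfl fun l _ => ?_
  rw [map_smul, co_smul, Pi.smul_apply, smul_eq_mul, mul_comm]

theorem mat_mulVec (A : V5 →ₗ[ℝ] V5) (v : V5) : mat A *ᵥ cc v = cc (A v) := by
  funext k
  simp only [cc, co_map A v k, Complex.ofReal_sum, Complex.ofReal_mul]
  rfl

/-- real linear map with a given matrix -/
noncomputable def lin (K : Matrix RI RI ℂ) : V5 →ₗ[ℝ] V5 where
  toFun v := ∑ k, (∑ l, (K k l).re * co v l) • fb k
  map_add' v w := by
    rw [← Finset.sum_add_distrib]
    refine Finset.sum_congr rfl fun k _ => ?_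
    rw [← add_smul, ← Finset.sum_add_distrib]
    congr 1
    refine Finset.sum_congr rfl fun l _ => ?_
    rw [co_add, Pi.add_apply]; ring
  map_smul' t v := by
    rw [RingHom.id_apply, Finset.smul_sum]
    refine Finset.sum_congr rfl fun k _ => ?_
    rw [smul_smul, Finset.mul_sum]
    congr 1
    refine Finset.sum_congr rfl fun l _ => ?_
    rw [co_smul, Pi.smul_apply, smul_eq_mul]; ring

theorem lin_apply (K : Matrix RI RI ℂ) (v : V5) :
    lin K v = ∑ k, (∑ l, (K k l).re * co v l) • fb k := rfl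

theorem co_lin (K : Matrix RI RI ℂ) (v : V5) (k : RI) :
    co (lin K v) k = ∑ l, (K k l).re * co v l := by
  rw [lin_apply, co_sum]
  simp only [co_smul, Pi.smul_apply, co_fb, smul_eq_mul]
  simp

theorem cc_lin {K : Matrix RI RI ℂ} (hK : K.map (starRingEnd ℂ) = K) (v : V5) :
    cc (lin K v) = K *ᵥ cc v := by
  funext k
  simp only [cc, co_lin, Complex.ofReal_sum, Complex.ofReal_mul, Matrix.mulVec, dotProduct]
  refine Finset.sum_congr rfl fun l _ => ?_
  have h := congrFun (congrFun hK k) l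
  rw [Matrix.map_apply] at h
  rw [Complex.conj_eq_iff_re.1 h]

/-- matrix of a bilinear form -/
noncomputable def mb (B : V5 →L[ℝ] V5 →L[ℝ] ℝ) : Matrix RI RI ℂ :=
  Matrix.of fun k l => ((B (fb l) (fb k) : ℝ) : ℂ)

theorem mb_mulVec (B : V5 →L[ℝ] V5 →L[ℝ] ℝ) (v : V5) (k : RI) :
    (mb B *ᵥ cc v) k = ((B v (fb k) : ℝ) : ℂ) := by
  conv_rhs => rw [expand_fb v, map_sum]
  rw [_root_.sum_apply, Complex.ofReal_sum]
  simp only [Matrix.mulVec, dotProduct]
  refine Finset.sum_congr rfl fun l _ => ?_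
  rw [map_smul, _root_.smul_apply, smul_eq_mul, Complex.ofReal_mul, mul_comm]
  rfl

theorem mb_mulVec_eq {B : V5 →L[ℝ] V5 →L[ℝ] ℝ} {v u : V5} (h : ∀ w, B v w = rip u w) :
    mb B *ᵥ cc v = cc u := by
  funext k
  rw [mb_mulVec, h, rip_fb]; rfl

theorem Nd.skew {B : V5 →L[ℝ] V5 →L[ℝ] ℝ} (h : B ∈ Nd V5) (v w : V5) : B v w = - B w v := by
  have h1 := h.1 (v + w)
  simp only [map_add, _root_.add_apply, h.1 v, h.1 w] at h1
  linarith

/-- hermitian matrix of a skew form -/
noncomputable def HB (B : V5 →L[ℝ] V5 →L[ℝ] ℝ) : Matrix RI RI ℂ := Complex.I • mb B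

theorem HB_sa {B : V5 →L[ℝ] V5 →L[ℝ] ℝ} (h : B ∈ Nd V5) : IsSelfAdjoint (HB B) := by
  show (HB B)ᴴ = HB B
  ext k l
  rw [Matrix.conjTranspose_apply]
  simp only [HB, Matrix.smul_apply, mb, Matrix.of_apply, smul_eq_mul, star_mul',
    Complex.star_def, Complex.conj_I, Complex.conj_ofReal]
  rw [Nd.skew h (fb l) (fb k)]
  push_cast
  ring

theorem HB_conj (B : V5 →L[ℝ] V5 →L[ℝ] ℝ) : (HB B).map (starRingEnd ℂ) = - HB B := by
  ext k l
  simp [HB, mb]

theorem HB_unit {B : V5 →L[ℝ] V5 →L[ℝ] ℝ} (h : B ∈ Nd V5) : IsUnit (HB B) := by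
  rw [← Matrix.mulVec_injective_iff_isUnit]
  rw [← Matrix.coe_mulVecLin, injective_iff_map_eq_zero]
  intro x hx
  rw [Matrix.mulVecLin_apply] at hx
  have hx1 : mb B *ᵥ x = 0 := by
    have : HB B *ᵥ x = Complex.I • (mb B *ᵥ x) := by rw [HB, Matrix.smul_mulVec]
    rw [this] at hx
    exact (smul_eq_zero.1 hx).resolve_left Complex.I_ne_zero
  have key : ∀ y : RI → ℝ, (∀ k, ∑ l, B (fb l) (fb k) * y l = 0) → y = 0 := by
    intro y hy
    have h0 : (∑ l, y l • fb l : V5) = 0 := by
      apply h.2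
      intro w
      rw [expand_fb w, map_sum]
      apply Finset.sum_eq_zero
      intro k _
      rw [map_smul, map_sum, _root_.sum_apply]
      simp only [map_smul, _root_.smul_apply, smul_eq_mul]
      have := hy k
      rw [show ∑ l, y l * B (fb l) (fb k) = ∑ l, B (fb l) (fb k) * y l from
        Finset.sum_congr rfl fun l _ => mul_comm _ _, this, mul_zero]
    funext l
    have h1 : co (∑ l, y l • fb l : V5) l = y l := by
      rw [co_sum]
      simp only [co_smul, Pi.smul_apply, co_fb, smul_eq_mul]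
      simp
    rw [← h1, h0]
    rcases l with j | j <;> simp [co]
  have hre : (fun l => (x l).re) = 0 := by
    apply key
    intro k
    have := congrArg Complex.re (congrFun hx1 k)
    simp only [Matrix.mulVec, dotProduct, mb, Matrix.of_apply, Pi.zero_apply, Complex.re_sum,
      Complex.re_ofReal_mul, Complex.zero_re] at this
    exact this
  have him : (fun l => (x l).im) = 0 := by
    apply key
    intro k
    have := congrArg Complex.im (congrFun hx1 k)
    simp only [Matrix.mulVec, dotProduct, mb, Matrix.of_apply, Pi.zero_apply, Complex.im_sum,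
      Complex.im_ofReal_mul, Complex.zero_im] at this
    exact this
  funext l
  exact Complex.ext (congrFun hre l) (congrFun him l)

/-- matrix of the orthogonal complex structure -/
noncomputable def KB (B : V5 →L[ℝ] V5 →L[ℝ] ℝ) : Matrix RI RI ℂ := (-Complex.I) • sgm (HB B)

theorem KB_conj {B : V5 →L[ℝ] V5 →L[ℝ] ℝ} (h : B ∈ Nd V5) :
    (KB B).map (starRingEnd ℂ) = KB B := by
  have h1 := sgm_conj (HB_sa h) (HB_unit h)
  rw [HB_conj, sgm_neg (HB_sa h) (HB_unit h)] at h1
  unfold KB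
  ext k l
  have h2 := congrFun (congrFun h1 k) l
  rw [Matrix.neg_apply, Matrix.map_apply] at h2
  rw [Matrix.map_apply, Matrix.smul_apply, smul_eq_mul, map_mul, ← h2]
  simp

theorem KB_sq {B : V5 →L[ℝ] V5 →L[ℝ] ℝ} (h : B ∈ Nd V5) : KB B * KB B = -1 := by
  unfold KB
  rw [smul_mul_smul_comm, sgm_sq (HB_sa h) (HB_unit h)]
  simp

theorem KB_unitary {B : V5 →L[ℝ] V5 →L[ℝ] ℝ} (h : B ∈ Nd V5) : (KB B)ᴴ * KB B = 1 := by
  have h1 : (sgm (HB B))ᴴ = sgm (HB B) := sgm_sa
  unfold KB
  rw [Matrix.conjTranspose_smul, h1, smul_mul_smul_comm, sgm_sq (HB_sa h) (HB_unit h)]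
  simp

/-- the orthogonal complex structure of a nondegenerate skew form -/
noncomputable def JB (B : V5 →L[ℝ] V5 →L[ℝ] ℝ) : V5 →ₗ[ℝ] V5 := lin (KB B)

theorem cc_JB {B : V5 →L[ℝ] V5 →L[ℝ] ℝ} (h : B ∈ Nd V5) (v : V5) :
    cc (JB B v) = KB B *ᵥ cc v := cc_lin (KB_conj h) v

theorem rip_cc (v w : V5) : ((rip v w : ℝ) : ℂ) = star (cc v) ⬝ᵥ cc w := by
  rw [rip_eq, Complex.ofReal_sum]
  refine Finset.sum_congr rfl fun k _ => ?_
  simp [cc]

theorem JB_OCS {B : V5 →L[ℝ] V5 →L[ℝ] ℝ} (h : B ∈ Nd V5) : OCS (JB B) := by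
  constructor
  · intro v
    apply cc_injective
    rw [cc_JB h, cc_JB h, Matrix.mulVec_mulVec, KB_sq h, Matrix.neg_mulVec, Matrix.one_mulVec,
      cc_neg]
  · intro v w
    apply Complex.ofReal_injective
    rw [rip_cc, rip_cc, cc_JB h, cc_JB h, Matrix.star_mulVec, ← Matrix.dotProduct_mulVec,
      Matrix.mulVec_mulVec, KB_unitary h, Matrix.one_mulVec]

theorem HB_mulVec (B : V5 →L[ℝ] V5 →L[ℝ] ℝ) (x : RI → ℂ) :
    HB B *ᵥ x = Complex.I • (mb B *ᵥ x) := by
  rw [HB, Matrix.smul_mulVec]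

/-- action on an eigenplane -/
theorem JB_apply {B : V5 →L[ℝ] V5 →L[ℝ] ℝ} (h : B ∈ Nd V5) {z u : V5}
    (h1 : ∀ w, B z w = rip u w) (h2 : ∀ w, B u w = - rip z w) : JB B z = u := by
  have e1 : mb B *ᵥ cc z = cc u := mb_mulVec_eq h1
  have e2 : mb B *ᵥ cc u = - cc z := by
    rw [← cc_neg]
    apply mb_mulVec_eq
    intro w
    rw [h2, rip_neg_left]
  have e3 : HB B *ᵥ (HB B *ᵥ cc z) = cc z := by
    rw [HB_mulVec, HB_mulVec, e1, Matrix.mulVec_smul, e2, smul_smul, Complex.I_mul_I, smul_neg,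
      neg_smul, one_smul, neg_neg]
  have e4 := sgm_mulVec (HB_sa h) (HB_unit h) e3
  apply cc_injective
  rw [cc_JB h, KB, Matrix.smul_mulVec, e4, HB_mulVec, e1, smul_smul, neg_mul, Complex.I_mul_I,
    neg_neg, one_smul]

/-- continuous dependence -/
theorem JB_continuous {T : Type*} [TopologicalSpace T] {B : T → V5 →L[ℝ] V5 →L[ℝ] ℝ}
    (hc : Continuous B) (h : ∀ t, B t ∈ Nd V5) (v : V5) : Continuous fun t => JB (B t) v := by
  have h1 : Continuous fun t => HB (B t) := by
    refine continuous_matrix fun k l => ?_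
    show Continuous fun t => Complex.I * ((B t (fb l) (fb k) : ℝ) : ℂ)
    exact continuous_const.mul (Complex.continuous_ofReal.comp
      ((hc.clm_apply continuous_const).clm_apply continuous_const))
  have h2 : Continuous fun t => KB (B t) := by
    have h3 := sgm_continuous h1 (fun t => HB_sa (h t)) fun t => HB_unit (h t)
    refine continuous_matrix fun k l => ?_
    show Continuous fun t => -Complex.I * sgm (HB (B t)) k l
    exact continuous_const.mul (h3.matrix_elem k l)
  have h3 : ∀ k l, Continuous fun t => (KB (B t) k l).re := fun k l =>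
    Complex.continuous_re.comp (h2.matrix_elem k l)
  show Continuous fun t => ∑ k, (∑ l, (KB (B t) k l).re * co v l) • fb k
  fun_prop

/-- naturality under orthogonal maps -/
theorem JB_natural {B B' : V5 →L[ℝ] V5 →L[ℝ] ℝ} (h : B ∈ Nd V5) (h' : B' ∈ Nd V5)
    (R : V5 →ₗ[ℝ] V5) (hR : ∀ v w, rip (R v) (R w) = rip v w)
    (hB : ∀ v w, B' (R v) (R w) = B v w) (v : V5) : JB B' (R v) = R (JB B v) := by
  have hON : ON fun m => R (fb m) := by
    intro m m'
    rw [hR, rip_fb, co_fb]
  have hUU : mat R * (mat R)ᴴ = 1 := by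
    ext k l
    rw [Matrix.mul_apply, Matrix.one_apply]
    have := hON.parseval k l
    simp only [Matrix.conjTranspose_apply, mat, Matrix.of_apply, Complex.star_def,
      Complex.conj_ofReal]
    rw [← Complex.ofReal_one, ← Complex.ofReal_zero, ← apply_ite Complex.ofReal, ← this]
    push_cast
    rfl
  have hUU' : (mat R)ᴴ * mat R = 1 := mul_eq_one_comm.1 hUU
  have hmb : mb B' * mat R = mat R * mb B := by
    ext k l
    rw [Matrix.mul_apply, Matrix.mul_apply]
    have e1 : ∑ m, mb B' k m * mat R m l = ((B' (R (fb l)) (fb k) : ℝ) : ℂ) := by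
      rw [← mb_mulVec]
      rfl
    have e2 : fb k = ∑ m, co (R (fb m)) k • R (fb m) := by
      conv_lhs => rw [hON.expand (fb k)]
      exact Finset.sum_congr rfl fun m _ => by rw [rip_fb]
    rw [e1]
    conv_lhs => rw [e2, map_sum]
    rw [Complex.ofReal_sum]
    refine Finset.sum_congr rfl fun m _ => ?_
    rw [map_smul, hB, smul_eq_mul, Complex.ofReal_mul]
    rfl
  have hH : HB B' = mat R * HB B * star (mat R) := by
    have : HB B' * mat R = mat R * HB B := by
      rw [HB, HB, smul_mul_assoc, mul_smul_comm, hmb]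
    rw [← this, mul_assoc]
    show _ = HB B' * (mat R * (mat R)ᴴ)
    rw [hUU, mul_one]
  have hS : sgm (HB B') = mat R * sgm (HB B) * star (mat R) := by
    rw [hH]
    exact sgm_unitary (HB_sa h) (HB_unit h) (Unitary.mem_iff.2 ⟨hUU', hUU⟩)
  have hK : KB B' * mat R = mat R * KB B := by
    rw [KB, KB, hS, smul_mul_assoc, mul_smul_comm, mul_assoc]
    show _ • (mat R * sgm (HB B) * ((mat R)ᴴ * mat R)) = _
    rw [hUU', mul_one]
  apply cc_injective
  rw [cc_JB h', ← mat_mulVec, Matrix.mulVec_mulVec, hK, ← Matrix.mulVec_mulVec, ← cc_JB h,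
    mat_mulVec]

/-- the standard form -/
theorem JB_std (h : stdForm (fun _ : Fin 5 => (1 : ℝ)) ∈ Nd V5) (v : V5) :
    JB (stdForm fun _ => 1) v = Complex.I • v := by
  apply JB_apply h
  · intro w
    rw [stdForm_apply, rip]
    refine Finset.sum_congr rfl fun j _ => ?_
    simp only [Pi.smul_apply, smul_eq_mul, one_mul, map_mul, Complex.conj_I]
    simp [Complex.mul_re, Complex.mul_im]
    ring
  · intro w
    rw [stdForm_apply, rip, ← Finset.sum_neg_distrib]
    refine Finset.sum_congr rfl fun j _ => ?_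
    simp only [Pi.smul_apply, smul_eq_mul, one_mul, map_mul, Complex.conj_I]
    simp [Complex.mul_re, Complex.mul_im]
    ring

end Pool.Agent.Work.MP_2a78db_gt.Cliff
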