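import Pool.Agent.Work.MP_2a78db_gt.TopForm

/-!
The value of the fourth power of a 2-form in terms of a determinant.
-/

namespace Pool.Agent.Work.MP_2a78db_gt

namespace D0

open Equiv Matrix

/-- index equivalence -/
def fe : Fin 4 × Fin 2 ≃ Fin 8 := finProdFinEquiv (m := 4) (n := 2)

/-- The index map attached to a selection of coordinates. -/
def idx (s : Fin 4 → Fin 4) (l : Fin 8) : Fin 8 := fe (s (fe.symm l).1, (fe.symm l).2)

theorem b8_repr_fe (x : V4) (k : Fin 4) (c : Fin 2) :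
    b8.repr x (fe (k, c)) = if c = 0 then (x k).re else (x k).im := by
  have h : b8.repr x (fe (k, c)) = Complex.basisOneI.repr (x k) c := by
    have h1 : fe (k, c) = ((Equiv.sigmaEquivProd (Fin 4) (Fin 2)).trans
      (finProdFinEquiv (m := 4) (n := 2))) ⟨k, c⟩ := rfl
    rw [b8, h1, Module.Basis.repr_reindex_apply, Equiv.symm_apply_apply, Pi.basis_repr]
  rw [h]
  fin_cases c <;> simp [Complex.coe_basisOneI_repr]

/-- The selection determinant. -/
theorem det_sel (s : Fin 4 → Fin 4) :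
    ((1 : Matrix (Fin 8) (Fin 8) ℝ).submatrix (idx s) id).det =
      (((1 : Matrix (Fin 4) (Fin 4) ℝ).submatrix s id).det) ^ 2 := by
  have h1 : ((1 : Matrix (Fin 8) (Fin 8) ℝ).submatrix (idx s) id) =
      (kroneckerMap (fun x1 x2 => x1 * x2) ((1 : Matrix (Fin 4) (Fin 4) ℝ).submatrix s id)
        (1 : Matrix (Fin 2) (Fin 2) ℝ)).submatrix fe.symm fe.symm := by
    ext l m
    obtain ⟨⟨i, c⟩, rfl⟩ := fe.surjective l
    obtain ⟨⟨k, d⟩, rfl⟩ := fe.surjective m
    simp only [submatrix_apply, id, idx, Equiv.symm_apply_apply, kroneckerMap_apply, one_apply,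
      fe.apply_eq_iff_eq, Prod.mk.injEq]
    by_cases hs : s i = k <;> by_cases hc : c = d <;> simp [hs, hc]
  rw [h1, det_submatrix_equiv_self, det_kronecker]
  simp

/-- A positive constant. -/
noncomputable def K : ℝ :=
  ∑ s : Fin 4 → Fin 4, (((1 : Matrix (Fin 4) (Fin 4) ℝ).submatrix s id).det) ^ 2

theorem K_pos : 0 < K := by
  unfold K
  refine Finset.sum_pos' (fun s _ => sq_nonneg _) ⟨id, Finset.mem_univ _, ?_⟩
  simp

theorem prod_sum4 (e : Fin 4 → V4 → V4 → ℝ) (v : Fin 8 → V4) :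
    (∑ k, e k (v 0) (v 1)) * (∑ k, e k (v 2) (v 3)) * (∑ k, e k (v 4) (v 5)) *
      (∑ k, e k (v 6) (v 7)) =
    ∑ s : Fin 4 → Fin 4, e (s 0) (v 0) (v 1) * e (s 1) (v 2) (v 3) * e (s 2) (v 4) (v 5) *
      e (s 3) (v 6) (v 7) := by
  have h := Finset.prod_univ_sum (t := fun _ : Fin 4 => (Finset.univ : Finset (Fin 4)))
    (f := fun i j => e j (v ((![0, 2, 4, 6] : Fin 4 → Fin 8) i))
      (v ((![1, 3, 5, 7] : Fin 4 → Fin 8) i)))
  rw [Fintype.piFinset_univ] at h
  simp only [Fin.prod_univ_four] at h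
  exact h

theorem alt_sel (s : Fin 4 → Fin 4) (w : Fin 8 → V4) :
    alt (fun v : Fin 8 → V4 => ((v 0 (s 0)).re * (v 1 (s 0)).im) *
      ((v 2 (s 1)).re * (v 3 (s 1)).im) * ((v 4 (s 2)).re * (v 5 (s 2)).im) *
      ((v 6 (s 3)).re * (v 7 (s 3)).im)) w =
    (((1 : Matrix (Fin 4) (Fin 4) ℝ).submatrix s id).det) ^ 2 * b8.det w := by
  have h1 : (fun v : Fin 8 → V4 => ((v 0 (s 0)).re * (v 1 (s 0)).im) *
      ((v 2 (s 1)).re * (v 3 (s 1)).im) * ((v 4 (s 2)).re * (v 5 (s 2)).im) *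
      ((v 6 (s 3)).re * (v 7 (s 3)).im)) =
      fun v => ∏ l : Fin 8, (fun l (x : V4) => b8.repr x (idx s l)) l (v l) := by
    funext v
    have g : ∀ (i : Fin 4) (c : Fin 2) (x : V4), b8.repr x (idx s (fe (i, c))) =
        if c = 0 then (x (s i)).re else (x (s i)).im := by
      intro i c x
      rw [idx, Equiv.symm_apply_apply, b8_repr_fe]
    have e : ∀ (i : Fin 4) (c : Fin 2), (fe (i, c)).1 = c.1 + 2 * i.1 := by
      intro i c; simp [fe, finProdFinEquiv]
    have f0 : (0 : Fin 8) = fe (0, 0) := by decide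
    have f1 : (1 : Fin 8) = fe (0, 1) := by decide
    have f2 : (2 : Fin 8) = fe (1, 0) := by decide
    have f3 : (3 : Fin 8) = fe (1, 1) := by decide
    have f4 : (4 : Fin 8) = fe (2, 0) := by decide
    have f5 : (5 : Fin 8) = fe (2, 1) := by decide
    have f6 : (6 : Fin 8) = fe (3, 0) := by decide
    have f7 : (7 : Fin 8) = fe (3, 1) := by decide
    have a0 : b8.repr (v 0) (idx s 0) = (v 0 (s 0)).re := by
      conv_lhs => rw [show idx s 0 = idx s (fe (0, 0)) from by rw [← f0]]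
      rw [g]; simp
    have a1 : b8.repr (v 1) (idx s 1) = (v 1 (s 0)).im := by
      conv_lhs => rw [show idx s 1 = idx s (fe (0, 1)) from by rw [← f1]]
      rw [g]; simp
    have a2 : b8.repr (v 2) (idx s 2) = (v 2 (s 1)).re := by
      conv_lhs => rw [show idx s 2 = idx s (fe (1, 0)) from by rw [← f2]]
      rw [g]; simp
    have a3 : b8.repr (v 3) (idx s 3) = (v 3 (s 1)).im := by
      conv_lhs => rw [show idx s 3 = idx s (fe (1, 1)) from by rw [← f3]]
      rw [g]; simp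
    have a4 : b8.repr (v 4) (idx s 4) = (v 4 (s 2)).re := by
      conv_lhs => rw [show idx s 4 = idx s (fe (2, 0)) from by rw [← f4]]
      rw [g]; simp
    have a5 : b8.repr (v 5) (idx s 5) = (v 5 (s 2)).im := by
      conv_lhs => rw [show idx s 5 = idx s (fe (2, 1)) from by rw [← f5]]
      rw [g]; simp
    have a6 : b8.repr (v 6) (idx s 6) = (v 6 (s 3)).re := by
      conv_lhs => rw [show idx s 6 = idx s (fe (3, 0)) from by rw [← f6]]
      rw [g]; simp
    have a7 : b8.repr (v 7) (idx s 7) = (v 7 (s 3)).im := by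
      conv_lhs => rw [show idx s 7 = idx s (fe (3, 1)) from by rw [← f7]]
      rw [g]; simp
    simp only [Fin.prod_univ_eight]
    rw [a0, a1, a2, a3, a4, a5, a6, a7]
    ring
  rw [h1, alt_prod_eq_det (fun l (x : V4) => b8.repr x (idx s l)) w, ← det_transpose]
  have h2 : (Matrix.of fun a l => b8.repr (w a) (idx s l))ᵀ =
      ((1 : Matrix (Fin 8) (Fin 8) ℝ).submatrix (idx s) id) * b8.toMatrix w := by
    ext l a
    rw [transpose_apply, of_apply, mul_apply]
    simp [one_apply, Module.Basis.toMatrix_apply]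
  rw [h2, det_mul, det_sel, Module.Basis.det_apply]

theorem stdForm_one (x y : V4) : stdForm (fun _ : Fin 4 => (1 : ℝ)) x y =
    ∑ k, ((x k).re * (y k).im - (x k).im * (y k).re) := by
  rw [stdForm_apply]
  refine Finset.sum_congr rfl fun k _ => ?_
  simp [Complex.mul_im]
  ring

theorem pow4_eq (α : V4 [⋀^Fin 2]→L[ℝ] ℝ) (P : V4 →ₗ[ℝ] V4)
    (h : ∀ v w, α ![v, w] = stdForm (fun _ : Fin 4 => (1 : ℝ)) (P v) (P w)) :
    pow4 α stdB = 16 * K * LinearMap.det P := by
  have h1 : pow4 α stdB = alt (fun v : Fin 8 → V4 =>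
      (∑ k, ((v 0 k).re * (v 1 k).im - (v 0 k).im * (v 1 k).re)) *
      (∑ k, ((v 2 k).re * (v 3 k).im - (v 2 k).im * (v 3 k).re)) *
      (∑ k, ((v 4 k).re * (v 5 k).im - (v 4 k).im * (v 5 k).re)) *
      (∑ k, ((v 6 k).re * (v 7 k).im - (v 6 k).im * (v 7 k).re))) (⇑P ∘ stdB) := by
    unfold pow4
    rw [wedge4_apply]
    unfold alt
    refine Finset.sum_congr rfl fun σ _ => ?_
    simp only [h, stdForm_one, Function.comp]
  rw [h1]
  have h2 : (fun v : Fin 8 → V4 =>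
      (∑ k, ((v 0 k).re * (v 1 k).im - (v 0 k).im * (v 1 k).re)) *
      (∑ k, ((v 2 k).re * (v 3 k).im - (v 2 k).im * (v 3 k).re)) *
      (∑ k, ((v 4 k).re * (v 5 k).im - (v 4 k).im * (v 5 k).re)) *
      (∑ k, ((v 6 k).re * (v 7 k).im - (v 6 k).im * (v 7 k).re))) =
      fun v => ∑ s : Fin 4 → Fin 4,
        ((v 0 (s 0)).re * (v 1 (s 0)).im - (v 0 (s 0)).im * (v 1 (s 0)).re) *
        ((v 2 (s 1)).re * (v 3 (s 1)).im - (v 2 (s 1)).im * (v 3 (s 1)).re) *
        ((v 4 (s 2)).re * (v 5 (s 2)).im - (v 4 (s 2)).im * (v 5 (s 2)).re) *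
        ((v 6 (s 3)).re * (v 7 (s 3)).im - (v 6 (s 3)).im * (v 7 (s 3)).re) := by
    funext v
    exact prod_sum4 (fun k x y => (x k).re * (y k).im - (x k).im * (y k).re) v
  rw [h2, alt_sum]
  have h3 : ∀ s : Fin 4 → Fin 4, alt (fun v : Fin 8 → V4 =>
        ((v 0 (s 0)).re * (v 1 (s 0)).im - (v 0 (s 0)).im * (v 1 (s 0)).re) *
        ((v 2 (s 1)).re * (v 3 (s 1)).im - (v 2 (s 1)).im * (v 3 (s 1)).re) *
        ((v 4 (s 2)).re * (v 5 (s 2)).im - (v 4 (s 2)).im * (v 5 (s 2)).re) *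
        ((v 6 (s 3)).re * (v 7 (s 3)).im - (v 6 (s 3)).im * (v 7 (s 3)).re)) (⇑P ∘ stdB) =
      16 * ((((1 : Matrix (Fin 4) (Fin 4) ℝ).submatrix s id).det) ^ 2 * LinearMap.det P) := by
    intro s
    have h4 := alt_pairs (fun i (x : V4) => (x (s i)).re) (fun i (x : V4) => (x (s i)).im)
      (⇑P ∘ stdB)
    have h5 := alt_sel s (⇑P ∘ stdB)
    have h6 := b8.det_comp P b8
    rw [b8.det_self, mul_one, b8_eq] at h6
    rw [h6] at h5
    rw [← h5]
    exact h4
  rw [Finset.sum_congr rfl fun s _ => h3 s, ← Finset.mul_sum, ← Finset.sum_mul]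
  unfold K
  ring

end D0

end Pool.Agent.Work.MP_2a78db_gt
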