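import Pool.Agent.Work.MP_2a78db_gt.ThProp

/-!
The standard complex structure has the first chirality.
-/

namespace Pool.Agent.Work.MP_2a78db_gt.Cliff

open Matrix Fock

/-- multiplication by the imaginary unit -/
noncomputable def Jst : V5 →ₗ[ℝ] V5 := rotL Complex.I

theorem Jst_apply (v : V5) : Jst v = Complex.I • v := rfl

theorem Jst_OCS : OCS Jst := by
  constructor
  · intro v
    rw [Jst_apply, Jst_apply, smul_smul, Complex.I_mul_I, neg_smul, one_smul]
  · intro v w
    rw [Jst_apply, Jst_apply]
    unfold rip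
    refine Finset.sum_congr rfl fun j _ => ?_
    simp [Complex.mul_re, Complex.mul_im]

/-- standard complex basis -/
noncomputable def eb : Fin 5 → V5 := fun j => Pi.single j 1

theorem I_eb (j : Fin 5) : Jst (eb j) = Pi.single j Complex.I := by
  rw [Jst_apply]
  funext i
  simp only [eb, Pi.smul_apply, Pi.single_apply, smul_eq_mul]
  split_ifs <;> simp

theorem AB_std : AB Jst eb := by
  refine ⟨Jst_OCS, rip_single, fun i j => ?_⟩
  rw [I_eb]
  exact rip_single_I i j

theorem X_vac (j : Fin 5) : X Jst eb j *ᵥ vac = Complex.I • vac := by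
  have h1 : c (eb j) = cr j + an j := c_single j
  have h2 : c (Jst (eb j)) = Complex.I • (cr j - an j) := by rw [I_eb]; exact c_single_I j
  have h3 : cr j * cr j = 0 := by
    have h := cr_cr j j
    rw [← two_smul ℂ] at h
    exact (smul_eq_zero.1 h).resolve_left two_ne_zero
  have h4 : an j * cr j = 1 - cr j * an j := by
    have h := an_cr j j
    rw [if_pos rfl] at h
    exact eq_sub_of_add_eq h
  have h5 : X Jst eb j = Complex.I • ((cr j + an j) * (cr j - an j)) := by
    unfold X
    rw [h1, h2, mul_smul_comm]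
  rw [h5, Matrix.smul_mulVec]
  congr 1
  rw [← Matrix.mulVec_mulVec, Matrix.sub_mulVec, an_vac, sub_zero, Matrix.mulVec_mulVec, add_mul,
    h3, h4, zero_add, Matrix.sub_mulVec, Matrix.one_mulVec, ← Matrix.mulVec_mulVec, an_vac,
    Matrix.mulVec_zero, sub_zero]

theorem par_vac : (par : Matrix (Finset (Fin 5)) (Finset (Fin 5)) ℂ) *ᵥ vac = vac := by
  funext S
  unfold par vac
  rw [Matrix.mulVec_diagonal, Pi.single_apply]
  split_ifs with h
  · rw [h]; simp
  · simp

theorem W_vac : W Jst eb *ᵥ vac = Complex.I • vac := by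
  unfold W
  simp only [← Matrix.mulVec_mulVec, par_vac, X_vac, Matrix.mulVec_smul, smul_smul]
  congr 1
  have h := Complex.I_mul_I
  linear_combination (Complex.I * (Complex.I * Complex.I - 1)) * h

theorem W_std : W Jst eb = Complex.I • 1 := by
  rcases AB_std.alpha with h | h
  · exact h
  · exfalso
    have h1 := W_vac
    rw [h, Matrix.smul_mulVec, Matrix.one_mulVec] at h1
    have h2 := congrFun h1 ∅
    simp only [Pi.smul_apply, vac, Pi.single_eq_same, smul_eq_mul, mul_one] at h2
    have h3 := congrArg Complex.im h2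
    simp at h3
    norm_num at h3

theorem condA_std_eb : condA Jst (eb 0) := AB_std.condA_of W_std

end Pool.Agent.Work.MP_2a78db_gt.Cliff
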