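import Pool.Agent.Work.MP_2a78db_gt.JForm

/-!
Equivariance, continuity and commutation properties of the Clifford element `Th`.
-/

namespace Pool.Agent.Work.MP_2a78db_gt.Cliff

open Matrix Fock

/-- twist by a phase -/
noncomputable def tw (l : ℂ) (A : Matrix (Finset (Fin 5)) (Finset (Fin 5)) ℂ) :
    Matrix (Finset (Fin 5)) (Finset (Fin 5)) ℂ :=
  Matrix.of fun S R => l ^ (wt S - wt R) * A S R

theorem tw_mul {l : ℂ} (hl : l ≠ 0) (A B : Matrix (Finset (Fin 5)) (Finset (Fin 5)) ℂ) :
    tw l (A * B) = tw l A * tw l B := by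
  ext S R
  simp only [tw, Matrix.of_apply, Matrix.mul_apply, Finset.mul_sum]
  refine Finset.sum_congr rfl fun U _ => ?_
  rw [show wt S - wt R = (wt S - wt U) + (wt U - wt R) by ring, zpow_add₀ hl]
  ring

theorem tw_add (l : ℂ) (A B : Matrix (Finset (Fin 5)) (Finset (Fin 5)) ℂ) :
    tw l (A + B) = tw l A + tw l B := by
  ext S R; simp [tw, mul_add]

theorem tw_sub (l : ℂ) (A B : Matrix (Finset (Fin 5)) (Finset (Fin 5)) ℂ) :
    tw l (A - B) = tw l A - tw l B := by
  ext S R; simp [tw, mul_sub]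

theorem tw_smul (l t : ℂ) (A : Matrix (Finset (Fin 5)) (Finset (Fin 5)) ℂ) :
    tw l (t • A) = t • tw l A := by
  ext S R; simp [tw]; ring

theorem tw_sum {κ : Type*} (s : Finset κ) (l : ℂ)
    (A : κ → Matrix (Finset (Fin 5)) (Finset (Fin 5)) ℂ) :
    tw l (∑ k ∈ s, A k) = ∑ k ∈ s, tw l (A k) := by
  ext S R
  simp only [tw, Matrix.of_apply, Matrix.sum_apply, Finset.mul_sum]

theorem tw_c (l : Circle) (v : V5) : tw (l : ℂ) (c v) = c ((l : ℂ) • v) := by
  ext S R
  have h := gen_equivariant v (fun i => (starRingEnd ℂ) (v i)) (l : ℂ) S R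
  show (l : ℂ) ^ (wt S - wt R) * c v S R = _
  unfold c wt
  rw [← h]
  have e : (fun i => (starRingEnd ℂ) (((l : ℂ) • v) i)) =
      fun i => (l : ℂ)⁻¹ * (starRingEnd ℂ) (v i) := by
    funext i
    rw [Pi.smul_apply, smul_eq_mul, map_mul, ← Circle.coe_inv_eq_conj, Circle.coe_inv]
  rw [e]
  rfl

theorem rip_circle (l : Circle) (v w : V5) : rip ((l : ℂ) • v) ((l : ℂ) • w) = rip v w := by
  unfold rip
  refine Finset.sum_congr rfl fun j _ => ?_
  have h : (starRingEnd ℂ) (l : ℂ) * (l : ℂ) = 1 := by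
    rw [← Circle.coe_inv_eq_conj, ← Circle.coe_mul, inv_mul_cancel, Circle.coe_one]
  rw [Pi.smul_apply, Pi.smul_apply, smul_eq_mul, smul_eq_mul, map_mul]
  congr 1
  linear_combination ((starRingEnd ℂ) (v j) * w j) * h

/-- multiplication by a phase as a real linear map -/
noncomputable def rotL (l : ℂ) : V5 →ₗ[ℝ] V5 where
  toFun v := l • v
  map_add' v w := smul_add _ _ _
  map_smul' t v := by rw [RingHom.id_apply, smul_comm]

theorem Th_tw {J J' : V5 →ₗ[ℝ] V5} (l : Circle) (h : ∀ v, J' ((l : ℂ) • v) = (l : ℂ) • J v)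
    (z : V5) : Th J' ((l : ℂ) • z) = tw (l : ℂ) (Th J z) := by
  have hl : (l : ℂ) ≠ 0 := Circle.coe_ne_zero l
  have hON : ON fun m => (l : ℂ) • fb m := by
    intro m m'
    rw [rip_circle, rip_fb, co_fb]
  unfold Th Xi
  rw [← hON.clifford_sum J', tw_sub, tw_smul, tw_smul, tw_sum, tw_mul hl, tw_c, tw_c, h]
  congr 1
  congr 1
  refine Finset.sum_congr rfl fun m _ => ?_
  rw [tw_mul hl, tw_c, tw_c, h]

theorem continuous_c {T : Type*} [TopologicalSpace T] {v : T → V5} (hv : Continuous v) :
    Continuous fun t => c (v t) := by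
  refine continuous_matrix fun S R => ?_
  have e : ∀ t, c (v t) S R = ∑ i, (v t i * cr i S R + (starRingEnd ℂ) (v t i) * an i S R) :=
    fun t => gen_apply _ _ S R
  simp only [e]
  have h1 : ∀ i, Continuous fun t => v t i := fun i => (continuous_apply i).comp hv
  have h2 : ∀ i, Continuous fun t => (starRingEnd ℂ) (v t i) := fun i =>
    Complex.continuous_conj.comp (h1 i)
  fun_prop

theorem continuous_Jz {T : Type*} [TopologicalSpace T] {J : T → V5 →ₗ[ℝ] V5} {z : T → V5}
    (hJ : ∀ v, Continuous fun t => J t v) (hz : Continuous z) :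
    Continuous fun t => J t (z t) := by
  have e : ∀ t, J t (z t) = ∑ k, co (z t) k • J t (fb k) := by
    intro t
    conv_lhs => rw [expand_fb (z t), map_sum]
    exact Finset.sum_congr rfl fun k _ => by rw [map_smul]
  simp only [e]
  have h1 : ∀ k, Continuous fun t => co (z t) k := by
    rintro (j | j)
    · exact Complex.continuous_re.comp ((continuous_apply j).comp hz)
    · exact Complex.continuous_im.comp ((continuous_apply j).comp hz)
  have h2 := fun k => hJ (fb k)
  fun_prop

theorem continuous_Th {T : Type*} [TopologicalSpace T] {J : T → V5 →ₗ[ℝ] V5} {z : T → V5}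
    (hJ : ∀ v, Continuous fun t => J t v) (hz : Continuous z) :
    Continuous fun t => Th (J t) (z t) := by
  unfold Th Xi
  have h1 := fun k => continuous_c (hJ (fb k))
  have h2 := continuous_c (continuous_Jz hJ hz)
  have h3 := continuous_c hz
  fun_prop

theorem continuous_PP {T : Type*} [TopologicalSpace T] {z u : T → V5} (hz : Continuous z)
    (hu : Continuous u) : Continuous fun t => PP (z t) (u t) := by
  unfold PP
  have h2 := continuous_c hu
  have h3 := continuous_c hz
  fun_prop

/-- chirality is locally constant -/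
theorem condA_const {T : Type*} [TopologicalSpace T] [PreconnectedSpace T]
    {J : T → V5 →ₗ[ℝ] V5} {z : T → V5} (hO : ∀ t, OCS (J t)) (hz1 : ∀ t, rip (z t) (z t) = 1)
    (hJ : ∀ v, Continuous fun t => J t v) (hz : Continuous z) (t₀ : T)
    (h0 : condA (J t₀) (z t₀)) (t : T) : condA (J t) (z t) := by
  have hP := continuous_PP hz (continuous_Jz hJ hz)
  have hT := continuous_Th hJ hz
  have hA : IsClosed {t | condA (J t) (z t)} :=
    isClosed_eq ((hT.mul hT).mul hP) hP.neg
  have hB : IsClosed {t | condB (J t) (z t)} :=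
    isClosed_eq (((hT.mul hT).mul ((hT.mul hT).add continuous_const)).mul hP) continuous_const
  have hAB : {t | condA (J t) (z t)} = {t | condB (J t) (z t)}ᶜ := by
    ext t
    constructor
    · intro h1 h2
      exact excl (hO t) (hz1 t) ⟨h1, h2⟩
    · intro h1
      exact (dich (hO t) (hz1 t)).resolve_right h1
  have hclopen : IsClopen {t | condA (J t) (z t)} := ⟨hA, by rw [hAB]; exact hB.isOpen_compl⟩
  have huniv := hclopen.eq_univ ⟨t₀, h0⟩
  have : t ∈ {t | condA (J t) (z t)} := by rw [huniv]; trivial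
  exact this

end Pool.Agent.Work.MP_2a78db_gt.Cliff
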