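import Pool.Agent.Work.MP_2a78db_gt.ThEqv

/-!
Algebraic properties of the Clifford element `Th` and the standard complex structure.
-/

namespace Pool.Agent.Work.MP_2a78db_gt.Cliff

open Matrix Fock

theorem Th_comm_z {J : V5 →ₗ[ℝ] V5} (hJ : OCS J) {z : V5} (hz : rip z z = 1) :
    Th J z * c z = c z * Th J z := by
  obtain ⟨b, h, rfl⟩ := exists_AB hJ hz
  rw [h.Th_eq, smul_mul_assoc, mul_smul_comm]
  congr 1
  simp only [add_mul, mul_add, h.X_c]
  simp

theorem Th_comm_Jz {J : V5 →ₗ[ℝ] V5} (hJ : OCS J) {z : V5} (hz : rip z z = 1) :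
    Th J z * c (J z) = c (J z) * Th J z := by
  obtain ⟨b, h, rfl⟩ := exists_AB hJ hz
  rw [h.Th_eq, smul_mul_assoc, mul_smul_comm]
  congr 1
  simp only [add_mul, mul_add, h.X_cJ]
  simp

theorem Th_par (J : V5 →ₗ[ℝ] V5) (z : V5) : Th J z * par = par * Th J z := by
  unfold Th Xi
  rw [sub_mul, mul_sub, smul_mul_assoc, mul_smul_comm, smul_mul_assoc, mul_smul_comm,
    Finset.sum_mul, Finset.mul_sum, par_cc]
  simp only [par_cc]

theorem cc_skew {v w : V5} (h : rip v w = 0) : (c v * c w)ᴴ = - (c v * c w) := by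
  rw [Matrix.conjTranspose_mul, c_conjTranspose, c_conjTranspose, c_anti h, neg_neg]

theorem Th_skew {J : V5 →ₗ[ℝ] V5} (hJ : OCS J) (z : V5) : (Th J z)ᴴ = - Th J z := by
  unfold Th Xi
  rw [Matrix.conjTranspose_sub, Matrix.conjTranspose_smul, Matrix.conjTranspose_smul,
    Matrix.conjTranspose_sum, cc_skew (hJ.self z)]
  have e : ∑ k, (c (fb k) * c (J (fb k)))ᴴ = - ∑ k, c (fb k) * c (J (fb k)) := by
    rw [← Finset.sum_neg_distrib]
    exact Finset.sum_congr rfl fun k _ => cc_skew (hJ.self _)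
  rw [e]
  simp only [star_div₀, star_one, star_ofNat]
  module

/-- entrywise conjugate vector -/
noncomputable def cj (v : V5) : V5 := fun j => (starRingEnd ℂ) (v j)

theorem cr_conj (i : Fin 5) : (cr i).map (starRingEnd ℂ) = cr i := by
  ext S R
  unfold cr
  rw [Matrix.map_apply, Matrix.of_apply]
  split_ifs
  · exact sg_conj i R
  · simp

theorem an_conj (i : Fin 5) : (an i).map (starRingEnd ℂ) = an i := by
  ext S R
  rw [Matrix.map_apply, an_apply]
  split_ifs
  · exact sg_conj i S
  · simp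

theorem c_conj (v : V5) : (c v).map (starRingEnd ℂ) = c (cj v) := by
  ext S R
  rw [Matrix.map_apply]
  unfold c
  rw [gen_apply, gen_apply, map_sum]
  refine Finset.sum_congr rfl fun i _ => ?_
  have h1 := congrFun (congrFun (cr_conj i) S) R
  have h2 := congrFun (congrFun (an_conj i) S) R
  rw [Matrix.map_apply] at h1 h2
  rw [map_add, map_mul, map_mul, h1, h2]
  rfl

theorem rip_single (i j : Fin 5) : rip (Pi.single i 1) (Pi.single j 1) =
    if i = j then 1 else 0 := by
  have h := rip_fb (Pi.single i 1) (Sum.inl j)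
  have h2 := co_fb (Sum.inl i) (Sum.inl j)
  simp only [fb] at h h2
  rw [h, h2]
  simp

theorem rip_single_I (i j : Fin 5) : rip (Pi.single i 1) (Pi.single j Complex.I) = 0 := by
  have h := rip_fb (Pi.single i 1) (Sum.inr j)
  have h2 := co_fb (Sum.inl i) (Sum.inr j)
  simp only [fb] at h h2
  rw [h, h2]
  simp

theorem CC_general {a : Matrix (Finset (Fin 5)) (Finset (Fin 5)) ℂ} {ε : Fin 5 → ℂ}
    (h : ∀ j, c (Pi.single j 1) * a = ε j • (a * c (Pi.single j 1))) :
    CC * a = (ε 0 * ε 1 * ε 2 * ε 3 * ε 4) • (a * CC) := by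
  unfold CC
  simp only [mul_assoc]
  have := step (h 0) (step (h 1) (step (h 2) (step (h 3) (h 4))))
  simp only [mul_assoc] at this
  rw [this]

theorem CC_fb (k : RI) : CC * c (cj (fb k)) = c (fb k) * CC := by
  rcases k with k | k
  · have e : cj (fb (Sum.inl k)) = fb (Sum.inl k) := by
      funext j
      simp only [cj, fb, Pi.single_apply]
      split_ifs <;> simp
    rw [e]
    have h : ∀ j, c (Pi.single j 1) * c (fb (Sum.inl k)) =
        (if j = k then (1 : ℂ) else -1) • (c (fb (Sum.inl k)) * c (Pi.single j 1)) := by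
      intro j
      show c (Pi.single j 1) * c (Pi.single k 1) = _ • (c (Pi.single k 1) * c (Pi.single j 1))
      by_cases hjk : j = k
      · rw [hjk, if_pos rfl, one_smul]
      · rw [if_neg hjk, neg_smul, one_smul]
        exact c_anti (by rw [rip_single, if_neg hjk])
    rw [CC_general h]
    fin_cases k <;> simp
  · have e : cj (fb (Sum.inr k)) = - fb (Sum.inr k) := by
      funext j
      simp only [cj, fb, Pi.single_apply, Pi.neg_apply]
      split_ifs <;> simp
    rw [e]
    have e2 : c (- fb (Sum.inr k)) = - c (fb (Sum.inr k)) := by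
      have := c_smul (-1) (fb (Sum.inr k))
      simpa using this
    have h : ∀ j, c (Pi.single j 1) * c (fb (Sum.inr k)) =
        (-1 : ℂ) • (c (fb (Sum.inr k)) * c (Pi.single j 1)) := by
      intro j
      show c (Pi.single j 1) * c (Pi.single k Complex.I) =
        _ • (c (Pi.single k Complex.I) * c (Pi.single j 1))
      rw [neg_smul, one_smul]
      exact c_anti (rip_single_I j k)
    rw [e2, mul_neg, CC_general (ε := fun _ => -1) h]
    norm_num

theorem cj_add (v w : V5) : cj (v + w) = cj v + cj w := by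
  funext j; simp [cj]

theorem cj_smul (t : ℝ) (v : V5) : cj (t • v) = t • cj v := by
  funext j; simp [cj]

theorem cj_sum {κ : Type*} (s : Finset κ) (f : κ → V5) : cj (∑ k ∈ s, f k) = ∑ k ∈ s, cj (f k) := by
  funext j; simp [cj]

theorem CC_c (v : V5) : CC * c (cj v) = c v * CC := by
  conv_lhs => rw [expand_fb v]
  conv_rhs => rw [expand_fb v]
  rw [cj_sum, c_sum, c_sum, Finset.mul_sum, Finset.sum_mul]
  refine Finset.sum_congr rfl fun k _ => ?_
  rw [cj_smul, c_smul, c_smul, mul_smul_comm, smul_mul_assoc, CC_fb]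

theorem map_mul' (A B : Matrix (Finset (Fin 5)) (Finset (Fin 5)) ℂ) :
    (A * B).map (starRingEnd ℂ) = A.map (starRingEnd ℂ) * B.map (starRingEnd ℂ) :=
  Matrix.map_mul

theorem CC_cc (v w : V5) : CC * (c v * c w).map (starRingEnd ℂ) = (c v * c w) * CC := by
  rw [map_mul', c_conj, c_conj, ← mul_assoc, CC_c, mul_assoc, CC_c, mul_assoc]

theorem CC_Th (J : V5 →ₗ[ℝ] V5) (z : V5) : CC * (Th J z).map (starRingEnd ℂ) = Th J z * CC := by
  have e : (Th J z).map (starRingEnd ℂ) =
      (1 / 4 : ℂ) • ∑ k, (c (fb k) * c (J (fb k))).map (starRingEnd ℂ) -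
        (1 / 2 : ℂ) • (c z * c (J z)).map (starRingEnd ℂ) := by
    unfold Th Xi
    ext S R
    simp only [Matrix.map_apply, Matrix.sub_apply, Matrix.smul_apply, Matrix.sum_apply,
      smul_eq_mul, map_sub, map_mul, map_sum, map_div₀, map_one, map_ofNat]
  rw [e, mul_sub, mul_smul_comm, mul_smul_comm, Finset.mul_sum, CC_cc]
  simp only [CC_cc]
  unfold Th Xi
  rw [sub_mul, smul_mul_assoc, smul_mul_assoc, Finset.sum_mul]

end Pool.Agent.Work.MP_2a78db_gt.Cliff
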