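import Pool.Agent.Work.MP_2a78db_gt.Common

/-!
Top degree forms on `V4`: the standard basis, determinants, naturality of the wedge product and
the value of the fourth power of a 2-form in terms of a determinant.
-/

namespace Pool.Agent.Work.MP_2a78db_gt

namespace D0

open Equiv

section wedge

variable {E F : Type*} [NormedAddCommGroup E] [NormedSpace ℝ E] [NormedAddCommGroup F]
  [NormedSpace ℝ F]

theorem comp_vec2 (L : F →L[ℝ] E) (x y : F) : (⇑L ∘ ![x, y]) = ![L x, L y] := by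
  funext i; fin_cases i <;> simp

theorem alt2_comp (α : E [⋀^Fin 2]→L[ℝ] ℝ) (L : F →L[ℝ] E) (x y : F) :
    (α.compContinuousLinearMap L) ![x, y] = α ![L x, L y] := by
  rw [ContinuousAlternatingMap.compContinuousLinearMap_apply, comp_vec2]

theorem wedge4_apply (α : Fin 4 → E [⋀^Fin 2]→L[ℝ] ℝ) (v : Fin 8 → E) :
    wedge4 α v = ∑ σ : Perm (Fin 8), ((Perm.sign σ : ℤ) : ℝ) *
      (α 0 ![v (σ 0), v (σ 1)] * α 1 ![v (σ 2), v (σ 3)] * α 2 ![v (σ 4), v (σ 5)] *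
        α 3 ![v (σ 6), v (σ 7)]) := by
  unfold wedge4
  rw [ContinuousMultilinearMap.alternatization_apply_apply]
  refine Finset.sum_congr rfl fun σ _ => ?_
  rw [Units.smul_def, zsmul_eq_mul]
  rfl

theorem wedge4_comp (α : Fin 4 → E [⋀^Fin 2]→L[ℝ] ℝ) (L : F →L[ℝ] E) :
    wedge4 (fun i => (α i).compContinuousLinearMap L) =
      (wedge4 α).compContinuousLinearMap L := by
  ext v
  rw [wedge4_apply, ContinuousAlternatingMap.compContinuousLinearMap_apply, wedge4_apply]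
  simp only [alt2_comp, Function.comp]

end wedge

/-- The standard real basis of `V4` as a basis. -/
noncomputable def b8 : Module.Basis (Fin 8) ℝ V4 :=
  (Pi.basis fun _ : Fin 4 => Complex.basisOneI).reindex
    ((Equiv.sigmaEquivProd (Fin 4) (Fin 2)).trans (finProdFinEquiv (m := 4) (n := 2)))

theorem b8_eq : ⇑b8 = stdB := by
  funext i
  fin_cases i <;>
  · simp [b8, stdB, finProdFinEquiv, Fin.divNat, Fin.modNat, Pi.basis_apply]

/-- A top form on `L ∘ stdB`. -/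
theorem top_comp (η : V4 [⋀^Fin 8]→L[ℝ] ℝ) (L : V4 →L[ℝ] V4) :
    (η.compContinuousLinearMap L) stdB = L.det * η stdB := by
  have h1 := AlternatingMap.eq_smul_basis_det b8 η.toAlternatingMap
  rw [ContinuousAlternatingMap.compContinuousLinearMap_apply]
  have h2 : η (⇑L ∘ stdB) = η.toAlternatingMap (⇑L ∘ stdB) := rfl
  rw [h2, h1, AlternatingMap.smul_apply, ← b8_eq]
  have h3 := b8.det_comp (L : V4 →ₗ[ℝ] V4) b8
  rw [b8.det_self, mul_one] at h3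
  have h4 : b8.det (⇑L ∘ ⇑b8) = LinearMap.det (L : V4 →ₗ[ℝ] V4) := h3
  rw [h4]
  simp only [ContinuousAlternatingMap.coe_toAlternatingMap, smul_eq_mul]
  rw [mul_comm]

/-! ### Antisymmetrization of arbitrary functions -/

section alt

variable {X : Type*}

/-- The antisymmetrization of an arbitrary function of 8 arguments. -/
def alt (g : (Fin 8 → X) → ℝ) (v : Fin 8 → X) : ℝ :=
  ∑ σ : Perm (Fin 8), ((Perm.sign σ : ℤ) : ℝ) * g (v ∘ σ)

theorem alt_mul_perm (g : (Fin 8 → X) → ℝ) (v : Fin 8 → X) (τ : Perm (Fin 8)) :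
    alt (fun v => g (v ∘ τ)) v = ((Perm.sign τ : ℤ) : ℝ) * alt g v := by
  unfold alt
  rw [Finset.mul_sum]
  rw [← Equiv.sum_comp (Equiv.mulRight τ)
    (fun σ : Perm (Fin 8) => ((Perm.sign τ : ℤ) : ℝ) * (((Perm.sign σ : ℤ) : ℝ) * g (v ∘ σ)))]
  refine Finset.sum_congr rfl fun σ _ => ?_
  have h1 : ((Equiv.mulRight τ) σ) = σ * τ := rfl
  rw [h1, Perm.sign_mul]
  have h2 : v ∘ ⇑(σ * τ) = (v ∘ ⇑σ) ∘ ⇑τ := rfl
  rw [h2]
  have h3 : ((Perm.sign τ : ℤ) : ℝ) * ((Perm.sign τ : ℤ) : ℝ) = 1 := by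
    have : ((Perm.sign τ : ℤ)) * ((Perm.sign τ : ℤ)) = 1 := by
      rw [← Units.val_mul, Int.units_mul_self]; rfl
    exact_mod_cast this
  push_cast
  calc ((Perm.sign σ : ℤ) : ℝ) * g ((v ∘ ⇑σ) ∘ ⇑τ)
      = (((Perm.sign τ : ℤ) : ℝ) * ((Perm.sign τ : ℤ) : ℝ)) *
        (((Perm.sign σ : ℤ) : ℝ) * g ((v ∘ ⇑σ) ∘ ⇑τ)) := by rw [h3, one_mul]
    _ = _ := by ring

theorem alt_sub (g h : (Fin 8 → X) → ℝ) (v : Fin 8 → X) :
    alt (fun v => g v - h v) v = alt g v - alt h v := by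
  unfold alt
  rw [← Finset.sum_sub_distrib]
  exact Finset.sum_congr rfl fun σ _ => by ring

theorem alt_add (g h : (Fin 8 → X) → ℝ) (v : Fin 8 → X) :
    alt (fun v => g v + h v) v = alt g v + alt h v := by
  unfold alt
  rw [← Finset.sum_add_distrib]
  exact Finset.sum_congr rfl fun σ _ => by ring

theorem alt_sum {ι : Type*} (s : Finset ι) (g : ι → (Fin 8 → X) → ℝ) (v : Fin 8 → X) :
    alt (fun v => ∑ i ∈ s, g i v) v = ∑ i ∈ s, alt (g i) v := by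
  unfold alt
  rw [Finset.sum_comm]
  exact Finset.sum_congr rfl fun σ _ => by rw [Finset.mul_sum]

theorem alt_sub_swap (g : (Fin 8 → X) → ℝ) (v : Fin 8 → X) (i j : Fin 8) (hij : i ≠ j) :
    alt (fun v => g v - g (v ∘ Equiv.swap i j)) v = 2 * alt g v := by
  rw [alt_sub, alt_mul_perm g v (Equiv.swap i j), Perm.sign_swap hij]
  push_cast
  ring

/-- Antisymmetrization of a product of four antisymmetrized pairs. -/
theorem alt_pairs (r m : Fin 4 → X → ℝ) (v : Fin 8 → X) :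
    alt (fun v => (r 0 (v 0) * m 0 (v 1) - m 0 (v 0) * r 0 (v 1)) *
      (r 1 (v 2) * m 1 (v 3) - m 1 (v 2) * r 1 (v 3)) *
      (r 2 (v 4) * m 2 (v 5) - m 2 (v 4) * r 2 (v 5)) *
      (r 3 (v 6) * m 3 (v 7) - m 3 (v 6) * r 3 (v 7))) v =
    16 * alt (fun v => (r 0 (v 0) * m 0 (v 1)) * (r 1 (v 2) * m 1 (v 3)) *
      (r 2 (v 4) * m 2 (v 5)) * (r 3 (v 6) * m 3 (v 7))) v := by
  have e0 := alt_sub_swap (fun v => (r 0 (v 0) * m 0 (v 1)) * (r 1 (v 2) * m 1 (v 3)) *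
      (r 2 (v 4) * m 2 (v 5)) * (r 3 (v 6) * m 3 (v 7))) v 0 1 (by decide)
  have e1 := alt_sub_swap (fun v => (r 0 (v 0) * m 0 (v 1) - m 0 (v 0) * r 0 (v 1)) *
      (r 1 (v 2) * m 1 (v 3)) *
      (r 2 (v 4) * m 2 (v 5)) * (r 3 (v 6) * m 3 (v 7))) v 2 3 (by decide)
  have e2 := alt_sub_swap (fun v => (r 0 (v 0) * m 0 (v 1) - m 0 (v 0) * r 0 (v 1)) *
      (r 1 (v 2) * m 1 (v 3) - m 1 (v 2) * r 1 (v 3)) *
      (r 2 (v 4) * m 2 (v 5)) * (r 3 (v 6) * m 3 (v 7))) v 4 5 (by decide)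
  have e3 := alt_sub_swap (fun v => (r 0 (v 0) * m 0 (v 1) - m 0 (v 0) * r 0 (v 1)) *
      (r 1 (v 2) * m 1 (v 3) - m 1 (v 2) * r 1 (v 3)) *
      (r 2 (v 4) * m 2 (v 5) - m 2 (v 4) * r 2 (v 5)) * (r 3 (v 6) * m 3 (v 7))) v 6 7 (by decide)
  have s1 : ∀ i j k : Fin 8, ∀ v : Fin 8 → X, k ≠ i → k ≠ j → (v ∘ Equiv.swap i j) k = v k := by
    intro i j k v h1 h2
    simp [Equiv.swap_apply_of_ne_of_ne h1 h2]
  have s2 : ∀ i j : Fin 8, ∀ v : Fin 8 → X, (v ∘ Equiv.swap i j) i = v j := by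
    intro i j v; simp
  have s3 : ∀ i j : Fin 8, ∀ v : Fin 8 → X, (v ∘ Equiv.swap i j) j = v i := by
    intro i j v; simp
  have c0 : (fun v : Fin 8 → X => (r 0 (v 0) * m 0 (v 1) - m 0 (v 0) * r 0 (v 1)) *
      (r 1 (v 2) * m 1 (v 3)) * (r 2 (v 4) * m 2 (v 5)) * (r 3 (v 6) * m 3 (v 7))) =
      fun v => (r 0 (v 0) * m 0 (v 1)) * (r 1 (v 2) * m 1 (v 3)) *
      (r 2 (v 4) * m 2 (v 5)) * (r 3 (v 6) * m 3 (v 7)) -
      (fun v => (r 0 (v 0) * m 0 (v 1)) * (r 1 (v 2) * m 1 (v 3)) *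
      (r 2 (v 4) * m 2 (v 5)) * (r 3 (v 6) * m 3 (v 7))) (v ∘ Equiv.swap 0 1) := by
    funext v
    simp only [s2, s3, s1 0 1 2 v (by decide) (by decide), s1 0 1 3 v (by decide) (by decide),
      s1 0 1 4 v (by decide) (by decide), s1 0 1 5 v (by decide) (by decide),
      s1 0 1 6 v (by decide) (by decide), s1 0 1 7 v (by decide) (by decide)]
    ring
  have c1 : (fun v : Fin 8 → X => (r 0 (v 0) * m 0 (v 1) - m 0 (v 0) * r 0 (v 1)) *
      (r 1 (v 2) * m 1 (v 3) - m 1 (v 2) * r 1 (v 3)) *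
      (r 2 (v 4) * m 2 (v 5)) * (r 3 (v 6) * m 3 (v 7))) =
      fun v => (r 0 (v 0) * m 0 (v 1) - m 0 (v 0) * r 0 (v 1)) *
      (r 1 (v 2) * m 1 (v 3)) *
      (r 2 (v 4) * m 2 (v 5)) * (r 3 (v 6) * m 3 (v 7)) -
      (fun v => (r 0 (v 0) * m 0 (v 1) - m 0 (v 0) * r 0 (v 1)) *
      (r 1 (v 2) * m 1 (v 3)) *
      (r 2 (v 4) * m 2 (v 5)) * (r 3 (v 6) * m 3 (v 7))) (v ∘ Equiv.swap 2 3) := by
    funext v
    simp only [s2, s3, s1 2 3 0 v (by decide) (by decide), s1 2 3 1 v (by decide) (by decide),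
      s1 2 3 4 v (by decide) (by decide), s1 2 3 5 v (by decide) (by decide),
      s1 2 3 6 v (by decide) (by decide), s1 2 3 7 v (by decide) (by decide)]
    ring
  have c2 : (fun v : Fin 8 → X => (r 0 (v 0) * m 0 (v 1) - m 0 (v 0) * r 0 (v 1)) *
      (r 1 (v 2) * m 1 (v 3) - m 1 (v 2) * r 1 (v 3)) *
      (r 2 (v 4) * m 2 (v 5) - m 2 (v 4) * r 2 (v 5)) * (r 3 (v 6) * m 3 (v 7))) =
      fun v => (r 0 (v 0) * m 0 (v 1) - m 0 (v 0) * r 0 (v 1)) *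
      (r 1 (v 2) * m 1 (v 3) - m 1 (v 2) * r 1 (v 3)) *
      (r 2 (v 4) * m 2 (v 5)) * (r 3 (v 6) * m 3 (v 7)) -
      (fun v => (r 0 (v 0) * m 0 (v 1) - m 0 (v 0) * r 0 (v 1)) *
      (r 1 (v 2) * m 1 (v 3) - m 1 (v 2) * r 1 (v 3)) *
      (r 2 (v 4) * m 2 (v 5)) * (r 3 (v 6) * m 3 (v 7))) (v ∘ Equiv.swap 4 5) := by
    funext v
    simp only [s2, s3, s1 4 5 0 v (by decide) (by decide), s1 4 5 1 v (by decide) (by decide),
      s1 4 5 2 v (by decide) (by decide), s1 4 5 3 v (by decide) (by decide),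
      s1 4 5 6 v (by decide) (by decide), s1 4 5 7 v (by decide) (by decide)]
    ring
  have c3 : (fun v : Fin 8 → X => (r 0 (v 0) * m 0 (v 1) - m 0 (v 0) * r 0 (v 1)) *
      (r 1 (v 2) * m 1 (v 3) - m 1 (v 2) * r 1 (v 3)) *
      (r 2 (v 4) * m 2 (v 5) - m 2 (v 4) * r 2 (v 5)) *
      (r 3 (v 6) * m 3 (v 7) - m 3 (v 6) * r 3 (v 7))) =
      fun v => (r 0 (v 0) * m 0 (v 1) - m 0 (v 0) * r 0 (v 1)) *
      (r 1 (v 2) * m 1 (v 3) - m 1 (v 2) * r 1 (v 3)) *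
      (r 2 (v 4) * m 2 (v 5) - m 2 (v 4) * r 2 (v 5)) * (r 3 (v 6) * m 3 (v 7)) -
      (fun v => (r 0 (v 0) * m 0 (v 1) - m 0 (v 0) * r 0 (v 1)) *
      (r 1 (v 2) * m 1 (v 3) - m 1 (v 2) * r 1 (v 3)) *
      (r 2 (v 4) * m 2 (v 5) - m 2 (v 4) * r 2 (v 5)) *
      (r 3 (v 6) * m 3 (v 7))) (v ∘ Equiv.swap 6 7) := by
    funext v
    simp only [s2, s3, s1 6 7 0 v (by decide) (by decide), s1 6 7 1 v (by decide) (by decide),
      s1 6 7 2 v (by decide) (by decide), s1 6 7 3 v (by decide) (by decide),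
      s1 6 7 4 v (by decide) (by decide), s1 6 7 5 v (by decide) (by decide)]
    ring
  rw [← c0] at e0
  rw [← c1] at e1
  rw [← c2] at e2
  rw [← c3] at e3
  rw [e3, e2, e1, e0]
  ring

/-- Antisymmetrization of a product of 8 functions is a determinant. -/
theorem alt_prod_eq_det (f : Fin 8 → X → ℝ) (v : Fin 8 → X) :
    alt (fun v => ∏ l, f l (v l)) v = (Matrix.of fun a l => f l (v a)).det := by
  rw [Matrix.det_apply']
  unfold alt
  rfl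

end alt

end D0

end Pool.Agent.Work.MP_2a78db_gt
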